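import Mathlib
import Pool.Agent.MP_44c6d5_nt.MV.Main

/-!
Definitions for the corner theorem: kernels on the circle, Fourier coefficients, widths.
-/

namespace Pool.Agent.MP_44c6d5_nt
namespace CP

open MeasureTheory Real

/-- the reflection of `z` into the closed unit disc (`hat 0 = 0`). -/
noncomputable def hat (z : ℂ) : ℂ := if ‖z‖ ≤ 1 then z else ((starRingEnd ℂ) z)⁻¹

/-- the Poisson kernel `Re ((1 + w) / (1 - w))`. -/
noncomputable def PK (w : ℂ) : ℝ := ((1 + w) / (1 - w)).re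

/-- the kernel `log |1 - b w| - log |1 - w|`. -/
noncomputable def GK (b : ℝ) (w : ℂ) : ℝ := log ‖1 - (b : ℂ) * w‖ - log ‖1 - w‖

/-- the kernel `4 Re (w / (1 - w)^2) = 4 Re ∑ m w^m`. -/
noncomputable def kap (w : ℂ) : ℝ := 4 * (w / (1 - w) ^ 2).re

/-- the `m`-th Fourier coefficient of a function on the circle. -/
noncomputable def fc (f : UnitAddCircle → ℝ) (m : ℕ) : ℂ :=
  ∫ t : UnitAddCircle, (f t : ℂ) * (starRingEnd ℂ (e t)) ^ m

/-- the energy form `4 ∑ m ρ^m Re (conj (fc f m) * fc g m)`. -/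
noncomputable def Bq (ρ : ℝ) (f g : UnitAddCircle → ℝ) : ℝ :=
  ∑' m : ℕ, 4 * (m : ℝ) * ρ ^ m * ((starRingEnd ℂ (fc f m)) * fc g m).re

/-- the test form `2 ∑ ρ^(2m) (1 - b^m) Re (conj (fc f m) * fc π m)`. -/
noncomputable def Tq (ρ b : ℝ) (f p : UnitAddCircle → ℝ) : ℝ :=
  ∑' m : ℕ, 2 * ρ ^ (2 * m) * (1 - b ^ m) * ((starRingEnd ℂ (fc f m)) * fc p m).re

/-- the local energy `∑ ρ^m (1 - b^m) / m |fc p m|^2`. -/
noncomputable def Eq (ρ b : ℝ) (p : UnitAddCircle → ℝ) : ℝ :=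
  ∑' m : ℕ, ρ ^ m * (1 - b ^ m) / (m : ℝ) * ‖fc p m‖ ^ 2

/-- the smoothed zero density of `q`. -/
noncomputable def nu (ρ : ℝ) (q : Polynomial ℂ) (s : UnitAddCircle) : ℝ :=
  (q.roots.map fun z => PK ((ρ : ℂ) * (starRingEnd ℂ (hat z)) * e s)).sum

/-- the truncated density. -/
noncomputable def pi' (r : ℝ) (q : Polynomial ℂ) (s : UnitAddCircle) : ℝ :=
  min (nu (1 - r) q s) (1 / r)

/-- the kernel of `q` at `t`. -/
noncomputable def Kq (r : ℝ) (q : Polynomial ℂ) (t : UnitAddCircle) : ℝ :=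
  r * ∫ s : UnitAddCircle, PK (((1 - r) ^ 2 : ℝ) * e (t - s)) * pi' r q s

variable {k : ℕ}

/-- the width of `P` in the direction `v`. -/
noncomputable def wd' (v : Fin k → ℤ) (P : Pol k) : ℕ := (-(ordZ (-v) P) - ordZ v P).toNat

/-- line average of `log |P|`. -/
noncomputable def UU (l : Fin k → ℤ) (P : Pol k) (x : Tor k) : ℝ :=
  ∫ t : UnitAddCircle, log ‖ev P (line l x t)‖

/-- Fourier coefficient of `log |P|` along the line through `x` in the direction `v`. -/
noncomputable def cm (v : Fin k → ℤ) (P : Pol k) (m : ℕ) (x : Tor k) : ℂ :=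
  fc (fun t => log ‖ev P (line v x t)‖) m

/-- the energy of the line averages (direction `l`) on the line through `x` in direction `v`. -/
noncomputable def EB (ρ : ℝ) (v l : Fin k → ℤ) (P : Pol k) (x : Tor k) : ℝ :=
  ∑' m : ℕ, 4 * (m : ℝ) * ρ ^ m * ‖∫ s : UnitAddCircle, cm v P m (line l x s)‖ ^ 2

/-- the smoothed zero density along lines as a function on the torus (value at the base point). -/
noncomputable def NU (v : Fin k → ℤ) (G : Pol k) (N : ℕ) (ρ : ℝ) (x : Tor k) : ℝ :=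
  N - ∫ t : UnitAddCircle, log ‖ev G (line v x t)‖ * kap ((ρ : ℂ) * e (-t))

/-- the kernel function on the torus. -/
noncomputable def KK (v : Fin k → ℤ) (G : Pol k) (N : ℕ) (r : ℝ) (x : Tor k) : ℝ :=
  r * ∫ s : UnitAddCircle, PK (((1 - r) ^ 2 : ℝ) * e (-s)) *
    min (NU v G N (1 - r) (line v x s)) (1 / r)

/-- the distance of the roots of the line polynomial from the circle. -/
noncomputable def er (v : Fin k → ℤ) (G : Pol k) (x : Tor k) : ℝ :=
  2 * (∫ t : UnitAddCircle, log ‖ev G (line v x t)‖) - log ‖ev (ini (rl v) G) x‖ -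
    log ‖ev (ini (rl (-v)) G) x‖

end CP
end Pool.Agent.MP_44c6d5_nt
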