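import Mathlib
import Pool.Agent.MP_44c6d5_nt.CP.Def

namespace Pool.Agent.MP_44c6d5_nt
namespace CP

open MeasureTheory Real Filter Topology

theorem A1_zpow {k : ℤ} (hk : k ≠ 0) : ∫ t : UnitAddCircle, (e t) ^ k = 0 := by
  have hk' : (k : ℝ) ≠ 0 := by exact_mod_cast hk
  obtain ⟨s, hs⟩ : ∃ s : UnitAddCircle, e s ^ k = -1 := by
    refine ⟨((1 / (2 * k) : ℝ) : UnitAddCircle), ?_⟩
    rw [← e_zsmul, ← AddCircle.coe_zsmul, e_coe]
    have : 2 * π * (k • (1 / (2 * (k : ℝ)))) = π := by
      rw [zsmul_eq_mul]; field_simp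
    rw [this, circleMap]
    simp
  have h1 : ∫ t : UnitAddCircle, (e (t + s)) ^ k = ∫ t : UnitAddCircle, (e t) ^ k :=
    integral_add_right_eq_self (fun t : UnitAddCircle => (e t) ^ k) s
  have h2 : ∫ t : UnitAddCircle, (e (t + s)) ^ k = -∫ t : UnitAddCircle, (e t) ^ k := by
    rw [← integral_neg]
    congr 1
    funext t
    rw [e_add, mul_zpow, hs]; ring
  rw [h2] at h1
  have h3 : (2 : ℂ) * ∫ t : UnitAddCircle, (e t) ^ k = 0 := by linear_combination -h1
  simpa using h3

theorem A1_conj (t : UnitAddCircle) : starRingEnd ℂ (e t) = (e t)⁻¹ := by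
  rw [Complex.inv_def, Complex.normSq_eq_norm_sq, norm_e]
  simp

theorem A1_orth (n m : ℕ) : ∫ t : UnitAddCircle, e t ^ n * (starRingEnd ℂ (e t)) ^ m
    = if n = m then 1 else 0 := by
  have h : ∀ t : UnitAddCircle, e t ^ n * (starRingEnd ℂ (e t)) ^ m = e t ^ ((n : ℤ) - m) := by
    intro t
    rw [A1_conj, zpow_sub₀ (e_ne_zero t), inv_pow, zpow_natCast, zpow_natCast]
    rfl
  simp_rw [h]
  split_ifs with hnm
  · subst hnm
    simp [Measure.real]
  · exact A1_zpow (by omega)

theorem A1_orth' (n : ℕ) {m : ℕ} (hm : 1 ≤ m) :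
    ∫ t : UnitAddCircle, (starRingEnd ℂ (e t)) ^ n * (starRingEnd ℂ (e t)) ^ m = 0 := by
  have h : ∀ t : UnitAddCircle, (starRingEnd ℂ (e t)) ^ n * (starRingEnd ℂ (e t)) ^ m
      = e t ^ (-((n : ℤ) + m)) := by
    intro t
    rw [A1_conj, ← pow_add, zpow_neg, inv_pow, ← Nat.cast_add, zpow_natCast]
  simp_rw [h]
  exact A1_zpow (by omega)

theorem A1_cont (β : ℂ) (n m : ℕ) : Continuous fun t : UnitAddCircle =>
    (((β * e t) ^ n / (n : ℂ)).re : ℂ) * (starRingEnd ℂ (e t)) ^ m := by
  have := continuous_e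
  fun_prop

theorem A1_ae {β : ℂ} (hβ0 : β ≠ 0) : ∀ᵐ t : UnitAddCircle, 1 - β * e t ≠ 0 := by
  have hs : ({t : UnitAddCircle | 1 - β * e t = 0} : Set UnitAddCircle).Subsingleton := by
    intro a ha b hb
    apply e_injective
    have h1 : β * e a = β * e b := by
      have e1 : 1 - β * e a = 0 := ha
      have e2 : 1 - β * e b = 0 := hb
      linear_combination e2 - e1
    exact mul_left_cancel₀ hβ0 h1
  have h0 : (volume : Measure UnitAddCircle) {t : UnitAddCircle | 1 - β * e t = 0} = 0 :=
    hs.measure_zero _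
  rw [ae_iff]
  simpa using h0

/-- the case of modulus `< 1` -/
theorem fc_log_one_lt {β : ℂ} (hβ : ‖β‖ < 1) {m : ℕ} (hm : 1 ≤ m) :
    fc (fun t => log ‖1 - β * e t‖) m = -(β ^ m) / (2 * m) := by
  have hz : ∀ t : UnitAddCircle, ‖β * e t‖ < 1 := fun t => by rw [norm_mul, norm_e, mul_one]; exact hβ
  have hsum : ∀ t : UnitAddCircle, HasSum (fun n : ℕ => (((β * e t) ^ n / (n : ℂ)).re : ℂ) *
      (starRingEnd ℂ (e t)) ^ m) ((-(log ‖1 - β * e t‖) : ℝ) * (starRingEnd ℂ (e t)) ^ m) := by
    intro t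
    have h1 := Complex.hasSum_taylorSeries_neg_log (hz t)
    have h2 := Complex.hasSum_re h1
    have h3 : (-Complex.log (1 - β * e t)).re = -(log ‖1 - β * e t‖) := by
      rw [Complex.neg_re, Complex.log_re]
    rw [h3] at h2
    exact (Complex.hasSum_ofReal.mpr h2).mul_right _
  set F : ℕ → UnitAddCircle → ℂ := fun n t => (((β * e t) ^ n / (n : ℂ)).re : ℂ) *
      (starRingEnd ℂ (e t)) ^ m with hF
  have hnorm : ∀ n t, ‖F n t‖ ≤ ‖β‖ ^ n := by
    intro n t
    rw [hF]
    simp only
    rw [norm_mul, norm_pow, RCLike.norm_conj, norm_e, one_pow, mul_one, Complex.norm_real]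
    refine (Complex.abs_re_le_norm _).trans ?_
    rw [norm_div, norm_pow, norm_mul, norm_e, mul_one]
    rcases Nat.eq_zero_or_pos n with rfl | hn
    · simp
    · apply div_le_self (by positivity)
      rw [Complex.norm_natCast]
      exact_mod_cast hn
  have hint : ∀ n, Integrable (F n) := by
    intro n
    have hc : Continuous (F n) := A1_cont β n m
    exact hc.integrable_of_hasCompactSupport (HasCompactSupport.of_compactSpace _)
  have hsumm : Summable fun n => ∫ t : UnitAddCircle, ‖F n t‖ := by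
    refine Summable.of_nonneg_of_le (fun n => integral_nonneg fun t => norm_nonneg _) (fun n => ?_)
      (summable_geometric_of_lt_one (norm_nonneg β) hβ)
    have h1 : ∫ t : UnitAddCircle, ‖F n t‖ ≤ ∫ _t : UnitAddCircle, ‖β‖ ^ n :=
      integral_mono (hint n).norm (integrable_const _) (fun t => hnorm n t)
    simpa [Measure.real, UnitAddCircle.measure_univ] using h1
  have h := hasSum_integral_of_summable_integral_norm hint hsumm
  have hval : ∀ n, ∫ t : UnitAddCircle, F n t = if n = m then β ^ m / (2 * m) else 0 := by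
    intro n
    rcases Nat.eq_zero_or_pos n with rfl | hn
    · have : (0 : ℕ) ≠ m := by omega
      simp [hF, this]
    have e1 : ∀ t, F n t = (β ^ n / (2 * n)) * (e t ^ n * (starRingEnd ℂ (e t)) ^ m) +
        (starRingEnd ℂ β ^ n / (2 * n)) * ((starRingEnd ℂ (e t)) ^ n * (starRingEnd ℂ (e t)) ^ m) := by
      intro t
      rw [hF]
      simp only
      rw [Complex.re_eq_add_conj]
      simp only [map_div₀, map_pow, map_mul, map_natCast]
      have hn' : (n : ℂ) ≠ 0 := by exact_mod_cast hn.ne'
      field_simp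
      rw [mul_pow, mul_pow]
      ring
    have c1 : Continuous fun t : UnitAddCircle => e t ^ n * (starRingEnd ℂ (e t)) ^ m := by
      have := continuous_e
      fun_prop
    have c2 : Continuous fun t : UnitAddCircle =>
        (starRingEnd ℂ (e t)) ^ n * (starRingEnd ℂ (e t)) ^ m := by
      have := continuous_e
      fun_prop
    simp_rw [e1]
    rw [integral_add
      ((c1.integrable_of_hasCompactSupport (HasCompactSupport.of_compactSpace _)).const_mul _)
      ((c2.integrable_of_hasCompactSupport (HasCompactSupport.of_compactSpace _)).const_mul _),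
      integral_const_mul, integral_const_mul, A1_orth, A1_orth' n hm]
    split_ifs with hnm
    · subst hnm; ring
    · ring
  have h2 : HasSum (fun n => ∫ t : UnitAddCircle, F n t) (β ^ m / (2 * m)) := by
    simp_rw [hval]
    convert hasSum_ite_eq m (β ^ m / (2 * (m : ℂ)) : ℂ) using 2
  have h3 := h.unique h2
  have h4 : ∀ t, ∑' n, F n t = ((-(log ‖1 - β * e t‖) : ℝ) : ℂ) * (starRingEnd ℂ (e t)) ^ m :=
    fun t => (hsum t).tsum_eq
  simp_rw [h4] at h3
  unfold fc
  have h5 : ∫ t : UnitAddCircle, ((-(log ‖1 - β * e t‖) : ℝ) : ℂ) * (starRingEnd ℂ (e t)) ^ m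
      = -∫ t : UnitAddCircle, ((log ‖1 - β * e t‖ : ℝ) : ℂ) * (starRingEnd ℂ (e t)) ^ m := by
    rw [← integral_neg]
    congr 1
    funext t
    push_cast; ring
  rw [h5] at h3
  rw [neg_div, ← h3, neg_neg]

theorem fc_log_one {β : ℂ} (hβ : ‖β‖ ≤ 1) {m : ℕ} (hm : 1 ≤ m) :
    fc (fun t => log ‖1 - β * e t‖) m = -(β ^ m) / (2 * m) := by
  rcases lt_or_eq_of_le hβ with h | hβ1
  · exact fc_log_one_lt h hm
  have hβ0 : β ≠ 0 := by
    rintro rfl; simp at hβ1
  -- approximation
  set r : ℕ → ℝ := fun n => 1 - 1 / ((n : ℝ) + 2) with hr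
  have hr0 : ∀ n, 0 ≤ r n := by
    intro n
    have : 1 / ((n : ℝ) + 2) ≤ 1 := by
      rw [div_le_one (by positivity)]; have := Nat.cast_nonneg (α := ℝ) n; linarith
    simp only [hr]; linarith
  have hr1 : ∀ n, r n < 1 := by
    intro n
    have : 0 < 1 / ((n : ℝ) + 2) := by positivity
    simp only [hr]; linarith
  have hrt : Tendsto r atTop (𝓝 1) := by
    have h1 : Tendsto (fun n : ℕ => 1 / ((n : ℝ) + 2)) atTop (𝓝 0) := by
      have := tendsto_const_div_atTop_nhds_zero_nat (1 : ℝ)
      have h2 := (tendsto_add_atTop_iff_nat 2).mpr this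
      refine h2.congr fun n => ?_
      push_cast; rfl
    simpa [hr] using (tendsto_const_nhds (x := (1 : ℝ))).sub h1
  set q : Polynomial ℂ := 1 - Polynomial.C β * Polynomial.X with hq
  have hqe : ∀ t : UnitAddCircle, q.eval (e t) = 1 - β * e t := by
    intro t; simp [hq]
  have hint : Integrable fun t : UnitAddCircle => log ‖1 - β * e t‖ := by
    have := integrable_log_norm_e q
    simpa [hqe] using this
  have hne : ∀ᵐ t : UnitAddCircle, 1 - β * e t ≠ 0 := A1_ae hβ0
  have hlim : Tendsto (fun n => fc (fun t => log ‖1 - ((r n : ℂ) * β) * e t‖) m) atTop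
      (𝓝 (fc (fun t => log ‖1 - β * e t‖) m)) := by
    unfold fc
    refine tendsto_integral_of_dominated_convergence
      (fun t => log 2 + |log ‖1 - β * e t‖|) ?_ ?_ ?_ ?_
    · intro n
      apply AEStronglyMeasurable.mul
      · apply Continuous.aestronglyMeasurable
        have hc : Continuous fun t : UnitAddCircle => log ‖1 - ((r n : ℂ) * β) * e t‖ := by
          apply Continuous.log
          · have := continuous_e
            fun_prop
          · intro t h0
            rw [norm_eq_zero, sub_eq_zero] at h0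
            have h1 : ‖(r n : ℂ) * β * e t‖ = 1 := by rw [← h0]; simp
            rw [norm_mul, norm_mul, norm_e, hβ1, mul_one, mul_one, Complex.norm_real,
              Real.norm_of_nonneg (hr0 n)] at h1
            exact (hr1 n).ne h1
        fun_prop
      · apply Continuous.aestronglyMeasurable
        have := continuous_e
        fun_prop
    · exact (integrable_const _).add hint.abs
    · intro n
      filter_upwards [hne] with t ht
      rw [norm_mul, norm_pow, RCLike.norm_conj, norm_e, one_pow, mul_one, Complex.norm_real,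
        Real.norm_eq_abs]
      have hβe : ‖β * e t‖ = 1 := by rw [norm_mul, norm_e, hβ1, mul_one]
      have hrb : ‖(r n : ℂ) * β * e t‖ = r n := by
        rw [mul_assoc, norm_mul, hβe, mul_one, Complex.norm_real, Real.norm_of_nonneg (hr0 n)]
      have hlow : 1 - r n ≤ ‖1 - (r n : ℂ) * β * e t‖ := by
        have := norm_sub_norm_le (1 : ℂ) ((r n : ℂ) * β * e t)
        rw [hrb, norm_one] at this
        exact this
      have hup : ‖1 - (r n : ℂ) * β * e t‖ ≤ 2 := by
        have := norm_sub_le (1 : ℂ) ((r n : ℂ) * β * e t)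
        rw [hrb, norm_one] at this
        linarith [(hr1 n)]
      have hcmp : ‖1 - β * e t‖ ≤ 2 * ‖1 - (r n : ℂ) * β * e t‖ := by
        have e1 : 1 - β * e t = (1 - (r n : ℂ) * β * e t) - ((1 - r n : ℝ) : ℂ) * (β * e t) := by
          push_cast; ring
        have e2 : ‖((1 - r n : ℝ) : ℂ) * (β * e t)‖ = 1 - r n := by
          rw [norm_mul, hβe, mul_one, Complex.norm_real, Real.norm_of_nonneg (by linarith [hr1 n])]
        have e3 := norm_sub_le (1 - (r n : ℂ) * β * e t) (((1 - r n : ℝ) : ℂ) * (β * e t))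
        rw [← e1, e2] at e3
        linarith
      have hpos : 0 < ‖1 - β * e t‖ := norm_pos_iff.mpr ht
      have hpos2 : 0 < ‖1 - (r n : ℂ) * β * e t‖ := by linarith [hr1 n]
      have l1 : log ‖1 - (r n : ℂ) * β * e t‖ ≤ log 2 := Real.log_le_log hpos2 hup
      have l2 : log ‖1 - β * e t‖ ≤ log 2 + log ‖1 - (r n : ℂ) * β * e t‖ := by
        rw [← Real.log_mul (by norm_num) hpos2.ne']
        exact Real.log_le_log hpos hcmp
      rw [abs_le]
      constructor
      · have := neg_abs_le (log ‖1 - β * e t‖)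
        linarith
      · have := abs_nonneg (log ‖1 - β * e t‖)
        linarith
    · filter_upwards [hne] with t ht
      apply Tendsto.mul _ tendsto_const_nhds
      have hc : Tendsto (fun n => 1 - (r n : ℂ) * β * e t) atTop (𝓝 (1 - β * e t)) := by
        have h1 : Tendsto (fun n => (r n : ℂ)) atTop (𝓝 ((1 : ℝ) : ℂ)) :=
          (Complex.continuous_ofReal.tendsto 1).comp hrt
        have h2 := (((h1.mul_const β).mul_const (e t)).const_sub 1)
        simpa using h2
      have h3 := (hc.norm).log (norm_ne_zero_iff.mpr ht)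
      exact (Complex.continuous_ofReal.tendsto _).comp h3
  have hval : ∀ n, fc (fun t => log ‖1 - ((r n : ℂ) * β) * e t‖) m
      = -(((r n : ℂ) * β) ^ m) / (2 * m) := by
    intro n
    apply fc_log_one_lt _ hm
    rw [norm_mul, hβ1, mul_one, Complex.norm_real, Real.norm_of_nonneg (hr0 n)]
    exact hr1 n
  simp_rw [hval] at hlim
  have hlim2 : Tendsto (fun n => -(((r n : ℂ) * β) ^ m) / (2 * (m : ℂ))) atTop
      (𝓝 (-(β ^ m) / (2 * m))) := by
    have h1 : Tendsto (fun n => (r n : ℂ)) atTop (𝓝 ((1 : ℝ) : ℂ)) :=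
      (Complex.continuous_ofReal.tendsto 1).comp hrt
    have h2 := ((((h1.mul_const β).pow m).neg).div_const (2 * (m : ℂ)))
    simpa using h2
  exact tendsto_nhds_unique hlim hlim2

end CP
end Pool.Agent.MP_44c6d5_nt
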