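import Mathlib
import Pool.Agent.MP_44c6d5_nt.CP.Def
import Pool.Agent.MP_44c6d5_nt.CP.A1

/-!
Row A2: the Fourier coefficients of `log |q|` on the circle for a polynomial `q`.
-/

namespace Pool.Agent.MP_44c6d5_nt
namespace CP

open MeasureTheory Real

theorem A2_norm_hat_le (z : ℂ) : ‖hat z‖ ≤ 1 := by
  unfold hat
  split_ifs with h
  · exact h
  · rw [norm_inv, RCLike.norm_conj]
    exact inv_le_one_of_one_le₀ (not_le.mp h).le

theorem norm_hat_le (z : ℂ) : ‖hat z‖ ≤ 1 := A2_norm_hat_le z

theorem A2_norm_sub (z : ℂ) (t : UnitAddCircle) :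
    ‖e t - z‖ = max 1 ‖z‖ * ‖1 - (starRingEnd ℂ (hat z)) * e t‖ := by
  unfold hat
  split_ifs with h
  · rw [max_eq_left h, one_mul]
    have h1 : e t - z = e t * (starRingEnd ℂ) (1 - (starRingEnd ℂ z) * e t) := by
      rw [map_sub, map_mul, map_one, Complex.conj_conj, mul_sub, mul_one]
      have h2 : e t * (z * (starRingEnd ℂ) (e t)) = z * (e t * (starRingEnd ℂ) (e t)) := by ring
      rw [h2, Complex.mul_conj, Complex.normSq_eq_norm_sq, norm_e]
      simp
    rw [h1, norm_mul, norm_e, one_mul, RCLike.norm_conj]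
  · have h' : 1 < ‖z‖ := not_le.mp h
    have hz : z ≠ 0 := by
      rintro rfl
      simp at h'
      linarith
    rw [max_eq_right h'.le, map_inv₀, Complex.conj_conj, ← norm_mul]
    have : z * (1 - z⁻¹ * e t) = z - e t := by
      rw [mul_sub, mul_one, ← mul_assoc, mul_inv_cancel₀ hz, one_mul]
    rw [this, norm_sub_rev]

-- [A2]
theorem log_eval {q : Polynomial ℂ} (hq : q ≠ 0) : ∀ᵐ t : UnitAddCircle,
    log ‖q.eval (e t)‖ = log ‖q.leadingCoeff‖ +
      (q.roots.map fun z => log (max 1 ‖z‖) + log ‖1 - (starRingEnd ℂ (hat z)) * e t‖).sum := by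
  filter_upwards [ae_eval_ne_zero hq] with t ht
  have hsp : q.Splits := IsAlgClosed.splits q
  have h1 : q.eval (e t) = q.leadingCoeff * (q.roots.map fun z => e t - z).prod := by
    conv_lhs => rw [hsp.eq_prod_roots]
    rw [Polynomial.eval_mul, Polynomial.eval_C, Polynomial.eval_multiset_prod, Multiset.map_map]
    congr 2
    apply Multiset.map_congr rfl
    intro z _
    simp
  have hl : q.leadingCoeff ≠ 0 := Polynomial.leadingCoeff_ne_zero.mpr hq
  have hne : ∀ z ∈ q.roots, e t - z ≠ 0 := by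
    intro z hz h0
    apply ht
    rw [h1]
    have : (0 : ℂ) ∈ q.roots.map fun z => e t - z := by
      rw [Multiset.mem_map]
      exact ⟨z, hz, h0⟩
    rw [Multiset.prod_eq_zero this, mul_zero]
  have key : ∀ s : Multiset ℂ, (∀ z ∈ s, e t - z ≠ 0) →
      ((s.map fun z => e t - z).prod ≠ 0 ∧ log ‖(s.map fun z => e t - z).prod‖ =
        (s.map fun z => log (max 1 ‖z‖) + log ‖1 - (starRingEnd ℂ (hat z)) * e t‖).sum) := by
    intro s
    induction s using Multiset.induction_on with
    | empty => intro _; simp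
    | cons a s ih =>
      intro hs
      obtain ⟨i1, i2⟩ := ih fun z hz => hs z (Multiset.mem_cons_of_mem hz)
      have ha := hs a (Multiset.mem_cons_self a s)
      rw [Multiset.map_cons, Multiset.prod_cons, Multiset.map_cons, Multiset.sum_cons]
      refine ⟨mul_ne_zero ha i1, ?_⟩
      rw [norm_mul, Real.log_mul (norm_ne_zero_iff.mpr ha) (norm_ne_zero_iff.mpr i1), i2,
        A2_norm_sub a t]
      have h3 : ‖1 - (starRingEnd ℂ (hat a)) * e t‖ ≠ 0 := by
        intro h0
        apply norm_ne_zero_iff.mpr ha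
        rw [A2_norm_sub a t, h0, mul_zero]
      rw [Real.log_mul (by positivity) h3]
  rw [h1, norm_mul, Real.log_mul (norm_ne_zero_iff.mpr hl)
    (norm_ne_zero_iff.mpr (key _ hne).1), (key _ hne).2]

theorem A2_integrable_log (β : ℂ) :
    Integrable (fun t : UnitAddCircle => log ‖1 - β * e t‖) := by
  have := integrable_log_norm_e (1 - Polynomial.C β * Polynomial.X)
  simpa using this

theorem A2_integrable_fc {f : UnitAddCircle → ℝ} (hf : Integrable f) (m : ℕ) :
    Integrable (fun t : UnitAddCircle => (f t : ℂ) * (starRingEnd ℂ (e t)) ^ m) := by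
  have h1 : Continuous fun t : UnitAddCircle => (starRingEnd ℂ (e t)) ^ m :=
    (Complex.continuous_conj.comp continuous_e).pow m
  have h2 := hf.ofReal (𝕜 := ℂ)
  refine h2.mul_bdd (c := 1) h1.aestronglyMeasurable ?_
  refine Filter.Eventually.of_forall fun t => ?_
  rw [norm_pow, RCLike.norm_conj, norm_e, one_pow]

theorem A2_fc_congr {f g : UnitAddCircle → ℝ} (h : ∀ᵐ t, f t = g t) (m : ℕ) :
    fc f m = fc g m := by
  unfold fc
  apply integral_congr_ae
  filter_upwards [h] with t ht
  rw [ht]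

theorem A2_fc_add {f g : UnitAddCircle → ℝ} (hf : Integrable f) (hg : Integrable g) (m : ℕ) :
    fc (fun t => f t + g t) m = fc f m + fc g m := by
  unfold fc
  rw [← integral_add (A2_integrable_fc hf m) (A2_integrable_fc hg m)]
  congr 1
  ext t
  push_cast
  ring

theorem A2_int_conj_pow {m : ℕ} (hm : 1 ≤ m) :
    ∫ t : UnitAddCircle, (starRingEnd ℂ (e t)) ^ m = 0 := by
  set s : UnitAddCircle := ((1 / (2 * m) : ℝ) : UnitAddCircle) with hs
  have hm0 : (m : ℝ) ≠ 0 := by positivity
  have h1 : e s ^ m = -1 := by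
    have h2 : e s ^ m = e ((m : ℤ) • s) := by rw [e_zsmul]; simp
    rw [h2]
    have h3 : (m : ℤ) • s = ((1 / 2 : ℝ) : UnitAddCircle) := by
      rw [hs, ← AddCircle.coe_zsmul]
      congr 1
      simp
      field_simp
    rw [h3, e_coe, circleMap]
    have : ((2 * π * (1 / 2) : ℝ) : ℂ) = (π : ℂ) := by
      push_cast; ring
    rw [this]
    simp [Complex.exp_pi_mul_I]
  have h4 : ∫ t : UnitAddCircle, (starRingEnd ℂ (e (t + s))) ^ m =
      ∫ t : UnitAddCircle, (starRingEnd ℂ (e t)) ^ m :=
    integral_add_right_eq_self (fun t : UnitAddCircle => (starRingEnd ℂ (e t)) ^ m) s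
  have h5 : ∀ t, (starRingEnd ℂ (e (t + s))) ^ m = -((starRingEnd ℂ (e t)) ^ m) := by
    intro t
    rw [e_add, map_mul, mul_pow, ← map_pow (starRingEnd ℂ) (e s), h1, map_neg, map_one,
      mul_neg, mul_one]
  simp only [h5] at h4
  rw [integral_neg] at h4
  have h6 : (2 : ℂ) * ∫ t : UnitAddCircle, (starRingEnd ℂ (e t)) ^ m = 0 := by
    linear_combination -h4
  simpa using h6

theorem A2_fc_const (c : ℝ) {m : ℕ} (hm : 1 ≤ m) : fc (fun _ => c) m = 0 := by
  unfold fc
  rw [MeasureTheory.integral_const_mul, A2_int_conj_pow hm, mul_zero]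

theorem A2_integrable_sum (s : Multiset ℂ) : Integrable (fun t : UnitAddCircle =>
    (s.map fun z => log (max 1 ‖z‖) + log ‖1 - (starRingEnd ℂ (hat z)) * e t‖).sum) := by
  induction s using Multiset.induction_on with
  | empty => simp
  | cons a s ih =>
    simp only [Multiset.map_cons, Multiset.sum_cons]
    exact ((integrable_const _).add (A2_integrable_log _)).add ih

theorem A2_fc_sum (s : Multiset ℂ) {m : ℕ} (hm : 1 ≤ m) :
    fc (fun t => (s.map fun z => log (max 1 ‖z‖) +
      log ‖1 - (starRingEnd ℂ (hat z)) * e t‖).sum) m =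
      -(s.map fun z => (starRingEnd ℂ (hat z)) ^ m).sum / (2 * m) := by
  induction s using Multiset.induction_on with
  | empty => simp [A2_fc_const 0 hm]
  | cons a s ih =>
    simp only [Multiset.map_cons, Multiset.sum_cons]
    have i1 : Integrable (fun _ : UnitAddCircle => log (max 1 ‖a‖)) := integrable_const _
    have i2 := A2_integrable_log (starRingEnd ℂ (hat a))
    have i3 : Integrable (fun t : UnitAddCircle =>
        log (max 1 ‖a‖) + log ‖1 - (starRingEnd ℂ (hat a)) * e t‖) := i1.add i2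
    rw [A2_fc_add i3 (A2_integrable_sum s), A2_fc_add i1 i2, A2_fc_const _ hm, ih,
      fc_log_one (by rw [RCLike.norm_conj]; exact A2_norm_hat_le a) hm]
    ring

theorem fc_poly {q : Polynomial ℂ} (hq : q ≠ 0) {m : ℕ} (hm : 1 ≤ m) :
    fc (fun t => log ‖q.eval (e t)‖) m =
      -(q.roots.map fun z => (starRingEnd ℂ (hat z)) ^ m).sum / (2 * m) := by
  rw [A2_fc_congr (log_eval hq), A2_fc_add (integrable_const _) (A2_integrable_sum _),
    A2_fc_const _ hm, A2_fc_sum _ hm, zero_add]

theorem norm_fc_poly_le (q : Polynomial ℂ) {m : ℕ} (hm : 1 ≤ m) :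
    ‖fc (fun t => log ‖q.eval (e t)‖) m‖ ≤ (Multiset.card q.roots : ℝ) / (2 * m) := by
  by_cases hq : q = 0
  · subst hq
    simp [A2_fc_const 0 hm]
  · rw [fc_poly hq hm, norm_div, norm_neg]
    have h1 : ‖(2 * (m : ℂ))‖ = 2 * m := by simp
    rw [h1]
    gcongr
    have key : ∀ s : Multiset ℂ, ‖(s.map fun z => (starRingEnd ℂ (hat z)) ^ m).sum‖ ≤
        (Multiset.card s : ℝ) := by
      intro s
      induction s using Multiset.induction_on with
      | empty => simp
      | cons a s ih =>
        rw [Multiset.map_cons, Multiset.sum_cons, Multiset.card_cons]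
        have h2 : ‖(starRingEnd ℂ (hat a)) ^ m‖ ≤ 1 := by
          rw [norm_pow, RCLike.norm_conj]
          exact pow_le_one₀ (norm_nonneg _) (A2_norm_hat_le a)
        push_cast
        linarith [norm_add_le ((starRingEnd ℂ (hat a)) ^ m)
          (s.map fun z => (starRingEnd ℂ (hat z)) ^ m).sum]
    exact key q.roots

theorem integral_poly {q : Polynomial ℂ} (hq : q ≠ 0) :
    ∫ t : UnitAddCircle, log ‖q.eval (e t)‖ = log ‖q.leadingCoeff‖ +
      (q.roots.map fun z => log (max 1 ‖z‖)).sum := by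
  have _ := hq
  rw [integral_log_norm_e, Polynomial.logMahlerMeasure_eq_log_leadingCoeff_add_sum_log_roots]
  congr 2
  apply Multiset.map_congr rfl
  intro z _
  exact Real.posLog_eq_log_max_one (norm_nonneg z)

end CP
end Pool.Agent.MP_44c6d5_nt
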