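import Mathlib
import Pool.Agent.MP_44c6d5_nt.CP.Def

namespace Pool.Agent.MP_44c6d5_nt
namespace CP

open MeasureTheory Real

theorem GK_series {w : ℂ} (hw : ‖w‖ < 1) {b : ℝ} (hb0 : 0 ≤ b) (hb1 : b ≤ 1) :
    HasSum (fun m : ℕ => (1 - b ^ m) / (m : ℝ) * (w ^ m).re) (GK b w) := by
  have h1 := Complex.hasSum_taylorSeries_neg_log hw
  have hbw : ‖(b : ℂ) * w‖ < 1 := by
    rw [norm_mul, Complex.norm_real, Real.norm_of_nonneg hb0]
    calc b * ‖w‖ ≤ 1 * ‖w‖ := mul_le_mul_of_nonneg_right hb1 (norm_nonneg _)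
      _ < 1 := by rwa [one_mul]
  have h2 := Complex.hasSum_taylorSeries_neg_log hbw
  have h3 := Complex.hasSum_re (h1.sub h2)
  have e1 : (-Complex.log (1 - w) - -Complex.log (1 - (b : ℂ) * w)).re = GK b w := by
    simp only [Complex.sub_re, Complex.neg_re, Complex.log_re, GK]
    ring
  rw [e1] at h3
  have e2 : (fun m : ℕ => (1 - b ^ m) / (m : ℝ) * (w ^ m).re) =
      fun m : ℕ => (w ^ m / (m : ℂ) - ((b : ℂ) * w) ^ m / (m : ℂ)).re := by
    funext m
    have e3 : w ^ m / (m : ℂ) - ((b : ℂ) * w) ^ m / (m : ℂ) =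
        (((1 - b ^ m) / (m : ℝ) : ℝ) : ℂ) * w ^ m := by
      push_cast
      rw [mul_pow]
      ring
    rw [e3, Complex.re_ofReal_mul]
  rw [e2]
  exact h3

theorem a5_ne {w : ℂ} (hw : ‖w‖ < 1) : (1 : ℂ) - w ≠ 0 := by
  intro h
  have h1 : w = 1 := (sub_eq_zero.mp h).symm
  rw [h1] at hw
  simp at hw

theorem a5_PK_eq {w : ℂ} (hw : ‖w‖ < 1) : PK w = 2 * ((1 - w)⁻¹).re - 1 := by
  have h := a5_ne hw
  have h1 : (1 + w) / (1 - w) = ((2 : ℝ) : ℂ) * (1 - w)⁻¹ - 1 := by
    field_simp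
    push_cast
    ring
  unfold PK
  rw [h1, Complex.sub_re, Complex.re_ofReal_mul, Complex.one_re]

theorem a5_PK_eq' {w : ℂ} (hw : ‖w‖ < 1) : PK w = (1 - ‖w‖ ^ 2) * ‖(1 - w)⁻¹‖ ^ 2 := by
  have h := a5_ne hw
  have h2 : Complex.normSq (1 - w) ≠ 0 := by
    rw [Ne, Complex.normSq_eq_zero]; exact h
  rw [norm_inv, inv_pow, ← Complex.normSq_eq_norm_sq, ← Complex.normSq_eq_norm_sq]
  unfold PK
  rw [Complex.div_re]
  field_simp
  simp only [Complex.normSq_apply, Complex.add_re, Complex.one_re, Complex.sub_re, Complex.add_im,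
    Complex.one_im, Complex.sub_im]
  ring

theorem PK_pos {w : ℂ} (hw : ‖w‖ < 1) : 0 < PK w := by
  rw [a5_PK_eq' hw]
  have h := a5_ne hw
  have h1 : 0 < ‖(1 - w)⁻¹‖ := norm_pos_iff.mpr (inv_ne_zero h)
  have h2 : ‖w‖ ^ 2 < 1 := by
    have := norm_nonneg w
    nlinarith
  have h3 : 0 < 1 - ‖w‖ ^ 2 := by linarith
  positivity

theorem PK_le {w : ℂ} (hw : ‖w‖ < 1) : PK w ≤ 2 / (1 - ‖w‖) := by
  unfold PK
  refine (Complex.re_le_norm _).trans ?_
  rw [norm_div]
  have h1 : ‖(1 : ℂ) + w‖ ≤ 2 := by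
    refine (norm_add_le _ _).trans ?_
    rw [norm_one]; linarith
  have h2 : 1 - ‖w‖ ≤ ‖(1 : ℂ) - w‖ := by
    have := norm_sub_norm_le (1 : ℂ) w
    rwa [norm_one] at this
  have h3 : 0 < 1 - ‖w‖ := by linarith
  exact div_le_div₀ (by norm_num) h1 h3 h2

theorem PK_series {w : ℂ} (hw : ‖w‖ < 1) :
    HasSum (fun m : ℕ => if m = 0 then 1 else 2 * (w ^ m).re) (PK w) := by
  have h1 := (Complex.hasSum_re (hasSum_geometric_of_norm_lt_one hw)).mul_left 2
  have h2 : HasSum (fun m : ℕ => if m = 0 then (-1 : ℝ) else 0) (-1) := hasSum_ite_eq 0 (-1)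
  have h3 := h1.add h2
  rw [a5_PK_eq hw, sub_eq_add_neg]
  have e1 : (fun m : ℕ => if m = 0 then (1 : ℝ) else 2 * (w ^ m).re) =
      fun m : ℕ => 2 * (w ^ m).re + if m = 0 then (-1 : ℝ) else 0 := by
    funext m
    by_cases hm : m = 0
    · subst hm
      simp
      norm_num
    · simp [hm]
  rw [e1]
  exact h3

/-! Integrals over the circle. -/

theorem a5_e_pow {m : ℕ} (hm : m ≠ 0) : ∫ t : UnitAddCircle, e t ^ m = 0 := by
  set I := ∫ t : UnitAddCircle, e t ^ m with hI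
  let s : UnitAddCircle := ((1 / (2 * m) : ℝ) : UnitAddCircle)
  have h1 : ∫ t : UnitAddCircle, e (t + s) ^ m = I :=
    integral_add_right_eq_self (fun t : UnitAddCircle => e t ^ m) s
  have h2 : e s ^ m = -1 := by
    have hm' : (m : ℂ) ≠ 0 := by exact_mod_cast hm
    rw [e_coe, circleMap]
    simp only [Complex.ofReal_one, one_mul, zero_add]
    rw [← Complex.exp_nat_mul]
    rw [← Complex.exp_pi_mul_I]
    congr 1
    push_cast
    field_simp
  have h3 : ∀ t : UnitAddCircle, e (t + s) ^ m = -(e t ^ m) := by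
    intro t
    rw [e_add, mul_pow, h2]
    ring
  simp only [h3] at h1
  rw [integral_neg, ← hI] at h1
  have h4 : I = -I := h1.symm
  have h5 : (2 : ℂ) * I = 0 := by linear_combination h4
  simpa using h5

theorem a5_real_univ : (volume : Measure UnitAddCircle).real Set.univ = 1 := by
  simp [Measure.real]

theorem a5_int {f : UnitAddCircle → ℂ} (hf : Continuous f) : Integrable f :=
  hf.integrable_of_hasCompactSupport (HasCompactSupport.of_compactSpace f)

theorem a5_series {c : ℕ → ℂ} (hc : Summable fun m => ‖c m‖) :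
    ∫ t : UnitAddCircle, ∑' m : ℕ, c m * e t ^ m = c 0 := by
  have h1 := hasSum_integral_of_summable_integral_norm (μ := (volume : Measure UnitAddCircle))
    (F := fun (m : ℕ) (t : UnitAddCircle) => c m * e t ^ m)
    (fun m => a5_int (continuous_const.mul (continuous_e.pow m))) (by
      simpa [norm_e] using hc)
  have h2 : (fun m : ℕ => ∫ t : UnitAddCircle, c m * e t ^ m) = fun m => if m = 0 then c 0 else 0 := by
    funext m
    by_cases hm : m = 0
    · subst hm; simp [a5_real_univ]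
    · rw [integral_const_mul, a5_e_pow hm]; simp [hm]
  rw [h2] at h1
  exact h1.unique (hasSum_ite_eq 0 (c 0))

theorem a5_norm (a : ℂ) (t : UnitAddCircle) : ‖a * e t‖ = ‖a‖ := by
  rw [norm_mul, norm_e, mul_one]

theorem a5_cont {a : ℂ} (ha : ‖a‖ < 1) : Continuous fun t : UnitAddCircle => (1 - a * e t)⁻¹ :=
  (continuous_const.sub (continuous_const.mul continuous_e)).inv₀
    fun t => a5_ne (show ‖a * e t‖ < 1 by rwa [a5_norm])

theorem a5_F {a : ℂ} (ha : ‖a‖ < 1) : ∫ t : UnitAddCircle, (1 - a * e t)⁻¹ = 1 := by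
  have h := a5_series (c := fun m => a ^ m) (by
    simpa using summable_geometric_of_lt_one (norm_nonneg a) ha)
  rw [pow_zero] at h
  refine Eq.trans ?_ h
  refine integral_congr_ae (Filter.Eventually.of_forall fun t => ?_)
  simp only
  rw [← tsum_geometric_of_norm_lt_one (ξ := a * e t) (by rwa [a5_norm])]
  simp only [mul_pow]

theorem a5_F2 {a : ℂ} (ha : ‖a‖ < 1) : ∫ t : UnitAddCircle, ((1 - a * e t)⁻¹) ^ 2 = 1 := by
  have hs : Summable fun m : ℕ => ‖((m : ℂ) + 1) * a ^ m‖ := by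
    have h1 := summable_norm_pow_mul_geometric_of_norm_lt_one (R := ℂ) 1 ha
    have h2 : Summable fun m : ℕ => ‖a ^ m‖ := by
      simpa using summable_geometric_of_lt_one (norm_nonneg a) ha
    refine Summable.of_nonneg_of_le (fun m => norm_nonneg _) (fun m => ?_) (h1.add h2)
    rw [add_mul, one_mul, pow_one]
    exact norm_add_le _ _
  have h := a5_series (c := fun m => ((m : ℂ) + 1) * a ^ m) hs
  simp only [Nat.cast_zero, zero_add, pow_zero, mul_one] at h
  refine Eq.trans ?_ h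
  refine integral_congr_ae (Filter.Eventually.of_forall fun t => ?_)
  simp only
  have hw : ‖a * e t‖ < 1 := by rwa [a5_norm]
  have h1 := (hasSum_coe_mul_geometric_of_norm_lt_one hw).add (hasSum_geometric_of_norm_lt_one hw)
  have h2 : a * e t / (1 - a * e t) ^ 2 + (1 - a * e t)⁻¹ = ((1 - a * e t)⁻¹) ^ 2 := by
    have := a5_ne hw
    field_simp
    ring
  rw [h2] at h1
  rw [← h1.tsum_eq]
  refine tsum_congr fun m => ?_
  rw [mul_pow]
  ring

theorem a5_re {f : UnitAddCircle → ℂ} (hf : Continuous f) :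
    ∫ t : UnitAddCircle, (f t).re = (∫ t : UnitAddCircle, f t).re :=
  integral_re (a5_int hf)

theorem integral_PK {a : ℂ} (ha : ‖a‖ < 1) : ∫ t : UnitAddCircle, PK (a * e t) = 1 := by
  have h1 : (fun t : UnitAddCircle => PK (a * e t)) =
      fun t => ((2 : ℂ) * (1 - a * e t)⁻¹ - 1).re := by
    funext t
    rw [a5_PK_eq (by rwa [a5_norm]), Complex.sub_re, Complex.one_re]
    have := Complex.re_ofReal_mul 2 ((1 - a * e t)⁻¹)
    rw [← this]
    simp
  have hc : Continuous fun t : UnitAddCircle => (2 : ℂ) * (1 - a * e t)⁻¹ - 1 :=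
    (continuous_const.mul (a5_cont ha)).sub continuous_const
  rw [h1, a5_re hc,
    integral_sub ((a5_int (a5_cont ha)).const_mul 2) (integrable_const _),
    integral_const_mul, a5_F ha]
  simp only [mul_one, integral_const, a5_real_univ, one_smul]
  norm_num

theorem integral_PK_sq {a : ℂ} (ha : ‖a‖ < 1) :
    ∫ t : UnitAddCircle, PK (a * e t) ^ 2 = (1 + ‖a‖ ^ 2) / (1 - ‖a‖ ^ 2) := by
  have hna : ‖a‖ ^ 2 < 1 := by
    have := norm_nonneg a
    nlinarith
  have hD : (1 - ‖a‖ ^ 2) ≠ 0 := by linarith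
  have hPK : ∀ t : UnitAddCircle, PK (a * e t) = 2 * ((1 - a * e t)⁻¹).re - 1 := fun t =>
    a5_PK_eq (by rwa [a5_norm])
  have hPK' : ∀ t : UnitAddCircle, ‖(1 - a * e t)⁻¹‖ ^ 2 = PK (a * e t) / (1 - ‖a‖ ^ 2) := by
    intro t
    rw [a5_PK_eq' (by rwa [a5_norm]), a5_norm]
    field_simp
  have hsq : ∀ z : ℂ, z.re ^ 2 = ((z ^ 2).re + ‖z‖ ^ 2) / 2 := by
    intro z
    rw [← Complex.normSq_eq_norm_sq, Complex.normSq_apply, pow_two z, Complex.mul_re]
    ring
  have h1 : (fun t : UnitAddCircle => PK (a * e t) ^ 2) =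
      fun t => 2 * (((1 - a * e t)⁻¹) ^ 2).re + (2 / (1 - ‖a‖ ^ 2)) * PK (a * e t) -
        2 * PK (a * e t) - 1 := by
    funext t
    have h2 := hsq ((1 - a * e t)⁻¹)
    rw [hPK'] at h2
    have h3 : ((1 - a * e t)⁻¹).re = (PK (a * e t) + 1) / 2 := by rw [hPK]; ring
    rw [h3] at h2
    have h4 : (2 / (1 - ‖a‖ ^ 2)) * PK (a * e t) = 2 * (PK (a * e t) / (1 - ‖a‖ ^ 2)) := by ring
    rw [h4]
    linarith
  have hcP : Continuous fun t : UnitAddCircle => PK (a * e t) := by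
    simp only [hPK]
    exact (continuous_const.mul (Complex.continuous_re.comp (a5_cont ha))).sub continuous_const
  have hiP : Integrable fun t : UnitAddCircle => PK (a * e t) :=
    hcP.integrable_of_hasCompactSupport (HasCompactSupport.of_compactSpace _)
  have hi2 : Integrable fun t : UnitAddCircle => (((1 - a * e t)⁻¹) ^ 2).re :=
    (Complex.continuous_re.comp ((a5_cont ha).pow 2)).integrable_of_hasCompactSupport
      (HasCompactSupport.of_compactSpace _)
  have hcF2 : Continuous fun t : UnitAddCircle => ((1 - a * e t)⁻¹) ^ 2 := (a5_cont ha).pow 2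
  have j1 : Integrable fun t : UnitAddCircle => 2 * (((1 - a * e t)⁻¹) ^ 2).re := hi2.const_mul 2
  have j2 : Integrable fun t : UnitAddCircle => (2 / (1 - ‖a‖ ^ 2)) * PK (a * e t) :=
    hiP.const_mul _
  have j3 : Integrable fun t : UnitAddCircle => 2 * PK (a * e t) := hiP.const_mul 2
  have j4 : Integrable fun t : UnitAddCircle => 2 * (((1 - a * e t)⁻¹) ^ 2).re +
      (2 / (1 - ‖a‖ ^ 2)) * PK (a * e t) := j1.add j2
  have j5 : Integrable fun t : UnitAddCircle => 2 * (((1 - a * e t)⁻¹) ^ 2).re +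
      (2 / (1 - ‖a‖ ^ 2)) * PK (a * e t) - 2 * PK (a * e t) := j4.sub j3
  rw [h1, integral_sub j5 (integrable_const _), integral_sub j4 j3, integral_add j1 j2,
    integral_const_mul, integral_const_mul, integral_const_mul, integral_PK ha,
    a5_re hcF2, a5_F2 ha]
  simp
  field_simp
  ring

end CP
end Pool.Agent.MP_44c6d5_nt
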