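import Mathlib
import Pool.Agent.MP_44c6d5_nt.CP.Def

/-!
[A6] Lower bounds for the logarithmic kernel.
-/

namespace Pool.Agent.MP_44c6d5_nt
namespace CP

open MeasureTheory Real

theorem a6_PK (w : ℂ) : PK w = (1 - ‖w‖ ^ 2) / ‖1 - w‖ ^ 2 := by
  unfold PK
  rw [Complex.div_re, ← Complex.normSq_eq_norm_sq, ← Complex.normSq_eq_norm_sq, ← add_div]
  congr 1
  rw [Complex.normSq_apply]
  simp only [Complex.add_re, Complex.add_im, Complex.sub_re, Complex.sub_im, Complex.one_re,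
    Complex.one_im]
  ring

theorem a6_log {z : ℂ} : log ‖z‖ = log (Complex.normSq z) / 2 := by
  rw [Complex.normSq_eq_norm_sq, Real.log_pow]
  push_cast
  ring

theorem a6_pos {z : ℂ} (hz : ‖z‖ < 1) : 0 < ‖1 - z‖ := by
  rw [norm_pos_iff, sub_ne_zero]
  rintro rfl
  simp at hz

/-- Harnack's inequality on a ray. -/
theorem a6_harnack {w : ℂ} (hw : ‖w‖ ≤ 1) {a b : ℝ} (hb : 0 ≤ b) (hab : b ≤ a) (ha : a < 1) :
    (1 / 2) * ((1 - a) / (1 - b)) * PK ((a : ℂ) * w) ≤ PK ((b : ℂ) * w) := by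
  have ha0 : 0 ≤ a := hb.trans hab
  have hm0 := norm_nonneg w
  have na : ‖(a : ℂ) * w‖ = a * ‖w‖ := by rw [norm_mul, Complex.norm_real, Real.norm_of_nonneg ha0]
  have nb : ‖(b : ℂ) * w‖ = b * ‖w‖ := by rw [norm_mul, Complex.norm_real, Real.norm_of_nonneg hb]
  have ha1 : a * ‖w‖ < 1 := by nlinarith
  have hb1 : b * ‖w‖ < 1 := by nlinarith
  have pa : 0 < ‖1 - (a : ℂ) * w‖ := a6_pos (by rw [na]; exact ha1)
  have pb : 0 < ‖1 - (b : ℂ) * w‖ := a6_pos (by rw [nb]; exact hb1)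
  rw [a6_PK, a6_PK, na, nb]
  set m := ‖w‖ with hm
  set A := ‖1 - (a : ℂ) * w‖ with hA
  set B := ‖1 - (b : ℂ) * w‖ with hB
  have h1 : 1 - a * m ≤ A := by
    have := norm_sub_norm_le (1 : ℂ) ((a : ℂ) * w)
    rw [na, norm_one] at this
    exact this
  have h2 : B ≤ A + (a - b) * m := by
    have e : 1 - (b : ℂ) * w = (1 - (a : ℂ) * w) + ((a - b : ℝ) : ℂ) * w := by
      push_cast
      ring
    have h3 := norm_add_le (1 - (a : ℂ) * w) (((a - b : ℝ) : ℂ) * w)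
    rw [← e, norm_mul, Complex.norm_real, Real.norm_of_nonneg (sub_nonneg.2 hab)] at h3
    exact h3
  have h3 : B * (1 - a * m) ≤ A * (1 - b * m) := by
    nlinarith [mul_nonneg (sub_nonneg.2 hab) hm0]
  have h4 : (B * (1 - a * m)) ^ 2 ≤ (A * (1 - b * m)) ^ 2 :=
    pow_le_pow_left₀ (mul_nonneg pb.le (by linarith)) h3 2
  have h5 : (1 - a) * (1 - b * m) ≤ (1 - b) * (1 - a * m) := by
    nlinarith [mul_nonneg (sub_nonneg.2 hab) (sub_nonneg.2 hw)]
  have hb1' : 0 < 1 - b := by linarith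
  have ham : 0 < 1 - a * m := by linarith
  have hbm : 0 < 1 - b * m := by linarith
  have e1 : (1 / 2) * ((1 - a) / (1 - b)) * ((1 - (a * m) ^ 2) / A ^ 2) =
      ((1 - a) * (1 - (a * m) ^ 2)) / (2 * (1 - b) * A ^ 2) := by
    field_simp
  rw [e1, div_le_div_iff₀ (by positivity) (by positivity)]
  -- `(1-a)(1-a²m²) B² ≤ (1-b²m²) 2 (1-b) A²`
  have h6 : (1 - a) * (1 - (a * m) ^ 2) * B ^ 2 * (1 - a * m) ≤
      (1 - (b * m) ^ 2) * (2 * (1 - b) * A ^ 2) * (1 - a * m) := by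
    calc (1 - a) * (1 - (a * m) ^ 2) * B ^ 2 * (1 - a * m)
        = ((1 - a) * (1 + a * m)) * (B * (1 - a * m)) ^ 2 := by ring
      _ ≤ ((1 - a) * (1 + a * m)) * (A * (1 - b * m)) ^ 2 := by
          refine mul_le_mul_of_nonneg_left h4 (mul_nonneg (by linarith) ?_)
          nlinarith [mul_nonneg ha0 hm0]
      _ = (1 + a * m) * ((1 - a) * (1 - b * m)) * ((1 - b * m) * A ^ 2) := by ring
      _ ≤ (2 * (1 + b * m)) * ((1 - b) * (1 - a * m)) * ((1 - b * m) * A ^ 2) := by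
          refine mul_le_mul_of_nonneg_right ?_ (by positivity)
          refine mul_le_mul ?_ h5 (mul_nonneg (by linarith) hbm.le) ?_
          · nlinarith [mul_nonneg hb hm0]
          · nlinarith [mul_nonneg hb hm0]
      _ = (1 - (b * m) ^ 2) * (2 * (1 - b) * A ^ 2) * (1 - a * m) := by ring
  exact le_of_mul_le_mul_right h6 ham

theorem GK_lower0 {w : ℂ} (hw : ‖w‖ < 1) {r' : ℝ} (h0 : 0 ≤ r') (h1 : r' ≤ 1 / 2) :
    -r' ≤ GK (1 - r') w := by
  have hb0 : 0 ≤ 1 - r' := by linarith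
  have nb : ‖((1 - r' : ℝ) : ℂ) * w‖ = (1 - r') * ‖w‖ := by
    rw [norm_mul, Complex.norm_real, Real.norm_of_nonneg hb0]
  have hb1 : (1 - r') * ‖w‖ < 1 := by nlinarith [norm_nonneg w]
  have p1 : 0 < ‖1 - w‖ := a6_pos hw
  have p2 : 0 < ‖1 - ((1 - r' : ℝ) : ℂ) * w‖ := a6_pos (by rw [nb]; exact hb1)
  unfold GK
  set b : ℝ := 1 - r' with hb
  -- `(1 + b) |1 - w| ≤ 2 |1 - b w|`
  have key : ((1 + b) * ‖1 - w‖) ^ 2 ≤ (2 * ‖1 - (b : ℂ) * w‖) ^ 2 := by
    rw [mul_pow, mul_pow, ← Complex.normSq_eq_norm_sq, ← Complex.normSq_eq_norm_sq,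
      Complex.normSq_apply, Complex.normSq_apply]
    simp only [Complex.sub_re, Complex.sub_im, Complex.one_re, Complex.one_im, Complex.mul_re,
      Complex.mul_im, Complex.ofReal_re, Complex.ofReal_im, zero_mul, sub_zero, add_zero]
    have h2 : w.re ^ 2 + w.im ^ 2 ≤ 1 := by
      have h3 : ‖w‖ ^ 2 ≤ 1 := by nlinarith [norm_nonneg w]
      rw [← Complex.normSq_eq_norm_sq, Complex.normSq_apply] at h3
      nlinarith
    have h4 : 0 ≤ 1 - b := by linarith
    have h5 : 0 ≤ (1 - b) * ((3 + b) + 2 * w.re * (1 - b) - (w.re ^ 2 + w.im ^ 2) * (1 + 3 * b)) := by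
      refine mul_nonneg h4 ?_
      have h6 : 0 ≤ (1 - b) * (1 + w.re) ^ 2 := by positivity
      nlinarith [mul_nonneg hb0 (sub_nonneg.2 h2), sq_nonneg w.im, mul_nonneg h4 (sq_nonneg w.im)]
    nlinarith [h5]
  have h2 : (1 + b) * ‖1 - w‖ ≤ 2 * ‖1 - (b : ℂ) * w‖ :=
    (pow_le_pow_iff_left₀ (by positivity) (by positivity) two_ne_zero).1 key
  have h3 : log ((1 + b) / 2) ≤ log ‖1 - (b : ℂ) * w‖ - log ‖1 - w‖ := by
    rw [← Real.log_div p2.ne' p1.ne']
    refine Real.log_le_log (by positivity) ?_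
    rw [div_le_div_iff₀ two_pos p1]
    linarith
  have h4 : 1 - ((1 + b) / 2)⁻¹ ≤ log ((1 + b) / 2) :=
    Real.one_sub_inv_le_log_of_pos (by positivity)
  have h5 : -r' ≤ 1 - ((1 + b) / 2)⁻¹ := by
    rw [inv_div]
    have h6 : 2 / (1 + b) ≤ 1 + r' := by
      rw [div_le_iff₀ (by linarith)]
      nlinarith
    linarith
  linarith

theorem GK_lower {w : ℂ} (hw : ‖w‖ ≤ 1) {r r' : ℝ} (hr : 0 < r) (hr1 : r ≤ 1 / 2) (h0 : 0 ≤ r')
    (h1 : r' ≤ 1 / 2) :
    r / 4 * PK ((1 - r : ℝ) * w) * log ((2 * r + r') / (2 * r)) - r' ≤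
      GK (1 - r') (((1 - r) ^ 2 : ℝ) * w) := by
  set P : ℝ := PK (((1 - r : ℝ) : ℂ) * w) with hP
  set v : ℂ := (((1 - r) ^ 2 : ℝ) : ℂ) * w with hv
  have hs0 : 0 < (1 - r) ^ 2 := by
    have : 0 < 1 - r := by linarith
    positivity
  have hs1 : (1 - r) ^ 2 < 1 := by nlinarith
  have hvn : ‖v‖ < 1 := by
    rw [hv, norm_mul, Complex.norm_real, Real.norm_of_nonneg hs0.le]
    nlinarith [norm_nonneg w]
  -- the square of `|1 - (1 - σ) v|`
  set N : ℝ → ℝ := fun σ => (1 - (1 - σ) * v.re) ^ 2 + ((1 - σ) * v.im) ^ 2 with hN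
  have hNe : ∀ σ : ℝ, Complex.normSq (1 - ((1 - σ : ℝ) : ℂ) * v) = N σ := by
    intro σ
    rw [hN, Complex.normSq_apply]
    simp only [Complex.sub_re, Complex.sub_im, Complex.one_re, Complex.one_im, Complex.mul_re,
      Complex.mul_im, Complex.ofReal_re, Complex.ofReal_im, zero_mul, sub_zero, add_zero]
    ring
  have hNpos : ∀ σ ∈ Set.Icc 0 r', 0 < N σ := by
    intro σ hσ
    rw [← hNe, Complex.normSq_eq_norm_sq]
    have hc : 0 ≤ 1 - σ := by linarith [hσ.2]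
    have : 0 < ‖1 - ((1 - σ : ℝ) : ℂ) * v‖ := by
      refine a6_pos ?_
      rw [norm_mul, Complex.norm_real, Real.norm_of_nonneg hc]
      nlinarith [norm_nonneg v, hσ.1]
    positivity
  set D : ℝ → ℝ := fun σ => (v.re - (1 - σ) * (v.re ^ 2 + v.im ^ 2)) / N σ + 1 -
    r / 4 * P * (1 / (2 * r + σ)) with hD
  set ψ : ℝ → ℝ := fun σ => log (N σ) / 2 + σ - r / 4 * P * log (2 * r + σ) with hψ
  have hder : ∀ σ ∈ Set.Icc 0 r', HasDerivAt ψ (D σ) σ := by
    intro σ hσ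
    have hp := hNpos σ hσ
    have d1 : HasDerivAt (fun σ : ℝ => (1 - σ)) (-1) σ := by
      simpa using (hasDerivAt_id σ).const_sub 1
    have d2 : HasDerivAt N (2 * (v.re - (1 - σ) * (v.re ^ 2 + v.im ^ 2))) σ := by
      have e1 : HasDerivAt (fun σ : ℝ => (1 - (1 - σ) * v.re) ^ 2)
          (2 * (1 - (1 - σ) * v.re) * v.re) σ := by
        exact (((d1.mul_const v.re).const_sub 1).pow 2).congr_deriv (by push_cast; ring)
      have e2 : HasDerivAt (fun σ : ℝ => ((1 - σ) * v.im) ^ 2)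
          (2 * ((1 - σ) * v.im) * (-v.im)) σ := by
        exact ((d1.mul_const v.im).pow 2).congr_deriv (by push_cast; ring)
      exact (e1.add e2).congr_deriv (by ring)
    have d3 := (d2.log hp.ne').div_const 2
    have d4 : HasDerivAt (fun σ : ℝ => r / 4 * P * log (2 * r + σ))
        (r / 4 * P * (1 / (2 * r + σ))) σ := by
      have hpos : 0 < 2 * r + σ := by linarith [hσ.1]
      exact (((hasDerivAt_id σ).const_add (2 * r)).log hpos.ne').const_mul _
    exact ((d3.add (hasDerivAt_id σ)).sub d4).congr_deriv (by rw [hD]; ring)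
  have hnn : ∀ σ ∈ Set.Icc 0 r', 0 ≤ D σ := by
    intro σ hσ
    have hp := hNpos σ hσ
    set c : ℝ := 1 - σ with hc
    have hc1 : 1 / 2 ≤ c := by linarith [hσ.2]
    have hc2 : c ≤ 1 := by linarith [hσ.1]
    -- the derivative of the logarithm
    have e1 : (v.re - c * (v.re ^ 2 + v.im ^ 2)) / N σ = (PK ((c : ℂ) * v) - 1) / (2 * c) := by
      have e2 : ‖1 - (c : ℂ) * v‖ ^ 2 = N σ := by
        rw [← Complex.normSq_eq_norm_sq]
        exact hNe σ
      have e3 : ‖(c : ℂ) * v‖ ^ 2 = c ^ 2 * (v.re ^ 2 + v.im ^ 2) := by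
        rw [← Complex.normSq_eq_norm_sq, Complex.normSq_mul, Complex.normSq_ofReal,
          Complex.normSq_apply]
        ring
      rw [a6_PK, e2, e3]
      have hNσ : N σ = (1 - c * v.re) ^ 2 + (c * v.im) ^ 2 := rfl
      have hc0 : c ≠ 0 := by linarith
      rw [div_sub_one hp.ne', div_div, div_eq_div_iff hp.ne' (mul_ne_zero hp.ne' (by positivity)),
        hNσ]
      ring
    have e4 : ((c : ℂ) * v) = ((c * (1 - r) ^ 2 : ℝ) : ℂ) * w := by
      rw [hv]
      push_cast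
      ring
    have hb0 : 0 ≤ c * (1 - r) ^ 2 := by positivity
    have hb2 : c * (1 - r) ^ 2 ≤ 1 - r := by nlinarith
    have h2 := a6_harnack hw hb0 hb2 (by linarith : 1 - r < 1)
    rw [← e4, ← hP] at h2
    have hP0 : 0 ≤ P := by
      rw [hP, a6_PK]
      refine div_nonneg ?_ (by positivity)
      have : ‖((1 - r : ℝ) : ℂ) * w‖ ≤ 1 := by
        rw [norm_mul, Complex.norm_real, Real.norm_of_nonneg (by linarith)]
        nlinarith [norm_nonneg w]
      nlinarith [norm_nonneg (((1 - r : ℝ) : ℂ) * w)]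
    have h3 : r / (2 * r + σ) ≤ (1 - (1 - r)) / (1 - c * (1 - r) ^ 2) := by
      rw [sub_sub_cancel]
      refine div_le_div_of_nonneg_left hr.le ?_ ?_
      · nlinarith
      · rw [hc]
        nlinarith [hσ.1, mul_nonneg hσ.1 hr.le, sq_nonneg r]
    have h4 : 1 / 2 * (r / (2 * r + σ)) * P ≤ PK ((c : ℂ) * v) := by
      refine le_trans ?_ h2
      gcongr
    have h5 : PK ((c : ℂ) * v) / 2 - 1 ≤ (PK ((c : ℂ) * v) - 1) / (2 * c) := by
      have hσ0 : 0 ≤ σ := hσ.1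
      have hQ : 0 ≤ PK ((c : ℂ) * v) := le_trans (mul_nonneg (by positivity) hP0) h4
      rw [le_div_iff₀ (by linarith)]
      nlinarith
    rw [hD]
    simp only
    rw [← hc, e1]
    have e5 : r / 4 * P * (1 / (2 * r + σ)) = 1 / 2 * (1 / 2 * (r / (2 * r + σ)) * P) := by ring
    rw [e5]
    linarith
  have hmono : MonotoneOn ψ (Set.Icc 0 r') := by
    refine monotoneOn_of_deriv_nonneg (convex_Icc 0 r')
      (fun σ hσ => (hder σ hσ).continuousAt.continuousWithinAt) ?_ ?_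
    · intro σ hσ
      exact (hder σ (interior_subset hσ)).differentiableAt.differentiableWithinAt
    · intro σ hσ
      rw [(hder σ (interior_subset hσ)).deriv]
      exact hnn σ (interior_subset hσ)
  have hfin := hmono (Set.left_mem_Icc.2 h0) (Set.right_mem_Icc.2 h0) h0
  have q1 : ψ 0 = log ‖1 - v‖ - r / 4 * P * log (2 * r) := by
    have := hNe 0
    rw [sub_zero, Complex.ofReal_one, one_mul] at this
    rw [hψ]
    simp only
    rw [← this, ← a6_log, add_zero, add_zero]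
  have q2 : ψ r' = log ‖1 - ((1 - r' : ℝ) : ℂ) * v‖ + r' - r / 4 * P * log (2 * r + r') := by
    rw [hψ]
    simp only
    rw [← hNe, ← a6_log]
  rw [q1, q2] at hfin
  have q3 : log ((2 * r + r') / (2 * r)) = log (2 * r + r') - log (2 * r) :=
    Real.log_div (by positivity) (by positivity)
  rw [q3]
  unfold GK
  linarith

end CP
end Pool.Agent.MP_44c6d5_nt
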