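import Pool.Agent.MP_44c6d5_nt.CP.A5

namespace Pool.Agent.MP_44c6d5_nt
namespace CP

open MeasureTheory Real

theorem a8_hat_le (z : ℂ) : ‖hat z‖ ≤ 1 := by
  unfold hat
  split_ifs with h
  · exact h
  · rw [norm_inv, RCLike.norm_conj]
    exact inv_le_one_of_one_le₀ (not_le.mp h).le

theorem a8_norm {ρ : ℝ} (h0 : 0 ≤ ρ) (z : ℂ) (s : UnitAddCircle) :
    ‖(ρ : ℂ) * (starRingEnd ℂ (hat z)) * e s‖ = ρ * ‖hat z‖ := by
  rw [norm_mul, norm_mul, norm_e, mul_one, RCLike.norm_conj, Complex.norm_real,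
    Real.norm_of_nonneg h0]

theorem a8_norm' {ρ : ℝ} (h0 : 0 ≤ ρ) (z : ℂ) :
    ‖(ρ : ℂ) * (starRingEnd ℂ (hat z))‖ = ρ * ‖hat z‖ := by
  rw [norm_mul, RCLike.norm_conj, Complex.norm_real, Real.norm_of_nonneg h0]

theorem a8_lt {ρ : ℝ} (h0 : 0 ≤ ρ) (h1 : ρ < 1) (z : ℂ) : ρ * ‖hat z‖ < 1 :=
  lt_of_le_of_lt (mul_le_of_le_one_right h0 (a8_hat_le z)) h1

theorem nu_nonneg {ρ : ℝ} (h0 : 0 ≤ ρ) (h1 : ρ < 1) (q : Polynomial ℂ) (s : UnitAddCircle) :
    0 ≤ nu ρ q s := by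
  unfold nu
  apply Multiset.sum_nonneg
  intro x hx
  obtain ⟨z, -, rfl⟩ := Multiset.mem_map.mp hx
  exact (PK_pos (by rw [a8_norm h0]; exact a8_lt h0 h1 z)).le

theorem continuous_PK_line {a : ℂ} (ha : ‖a‖ < 1) :
    Continuous fun s : UnitAddCircle => PK (a * e s) := by
  unfold PK
  apply Complex.continuous_re.comp
  have he := continuous_e
  apply Continuous.div (by fun_prop) (by fun_prop)
  intro s h
  have h1 : a * e s = 1 := by linear_combination -h
  have h2 : ‖a * e s‖ = 1 := by rw [h1]; simp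
  rw [norm_mul, norm_e, mul_one] at h2
  exact ha.ne h2

theorem continuous_nu {ρ : ℝ} (h0 : 0 ≤ ρ) (h1 : ρ < 1) (q : Polynomial ℂ) :
    Continuous (nu ρ q) := by
  unfold nu
  apply continuous_multiset_sum
  intro z _
  exact continuous_PK_line (by rw [a8_norm' h0]; exact a8_lt h0 h1 z)

theorem a8_int {f : UnitAddCircle → ℝ} (hf : Continuous f) : Integrable f :=
  hf.integrable_of_hasCompactSupport (HasCompactSupport.of_compactSpace _)

/-- integral of a multiset sum. -/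
theorem integral_msum {ι : Type*} (S : Multiset ι) (f : ι → UnitAddCircle → ℝ)
    (hf : ∀ i, Continuous (f i)) :
    ∫ t : UnitAddCircle, (S.map fun i => f i t).sum = (S.map fun i => ∫ t, f i t).sum := by
  induction S using Multiset.induction_on with
  | empty => simp
  | cons a S ih =>
    simp only [Multiset.map_cons, Multiset.sum_cons]
    rw [integral_add (a8_int (hf a)) (a8_int (continuous_multiset_sum S fun i _ => hf i)), ih]

theorem integral_nu {ρ : ℝ} (h0 : 0 ≤ ρ) (h1 : ρ < 1) (q : Polynomial ℂ) :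
    ∫ s : UnitAddCircle, nu ρ q s = Multiset.card q.roots := by
  unfold nu
  rw [integral_msum q.roots (fun z s => PK ((ρ : ℂ) * (starRingEnd ℂ (hat z)) * e s))
    (fun z => continuous_PK_line (by rw [a8_norm' h0]; exact a8_lt h0 h1 z))]
  have h : ∀ z : ℂ, ∫ s : UnitAddCircle, PK ((ρ : ℂ) * (starRingEnd ℂ (hat z)) * e s) = 1 :=
    fun z => integral_PK (by rw [a8_norm' h0]; exact a8_lt h0 h1 z)
  simp [h]

end CP
end Pool.Agent.MP_44c6d5_nt
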