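import Mathlib
import Pool.Agent.MP_44c6d5_nt.CP.Def
import Pool.Agent.MP_44c6d5_nt.CP.A2
import Pool.Agent.MP_44c6d5_nt.CP.A5

/-!
Row A9: the test form of `log |q|` for a polynomial `q`.
-/

namespace Pool.Agent.MP_44c6d5_nt
namespace CP

open MeasureTheory Real

theorem A9_re {p : UnitAddCircle → ℝ} (hp : Integrable p) (β : ℂ) (m : ℕ) :
    ((starRingEnd ℂ β) ^ m * fc p m).re = ∫ s : UnitAddCircle, p s * ((β * e s) ^ m).re := by
  unfold fc
  rw [← MeasureTheory.integral_const_mul]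
  have h := Complex.reCLM.integral_comp_comm
    ((A2_integrable_fc hp m).const_mul ((starRingEnd ℂ β) ^ m))
  simp only [Complex.reCLM_apply] at h
  rw [← h]
  congr 1
  ext s
  have h1 : (starRingEnd ℂ β) ^ m * ((p s : ℂ) * (starRingEnd ℂ (e s)) ^ m) =
      (p s : ℂ) * (starRingEnd ℂ) ((β * e s) ^ m) := by
    rw [map_pow, map_mul]; ring
  rw [h1, Complex.re_ofReal_mul, Complex.conj_re]

theorem A9_term {p : UnitAddCircle → ℝ} (hp : Integrable p) (β : ℂ) (ρ b : ℝ) (m : ℕ) :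
    ∫ s : UnitAddCircle, p s * ((1 - b ^ m) / (m : ℝ) * ((((ρ ^ 2 : ℝ) : ℂ) * β * e s) ^ m).re) =
      ρ ^ (2 * m) * ((1 - b ^ m) / (m : ℝ)) * ((starRingEnd ℂ β) ^ m * fc p m).re := by
  rw [A9_re hp β m, ← MeasureTheory.integral_const_mul]
  congr 1
  ext s
  have h1 : (((ρ ^ 2 : ℝ) : ℂ) * β * e s) ^ m = ((ρ ^ (2 * m) : ℝ) : ℂ) * (β * e s) ^ m := by
    rw [mul_assoc, mul_pow]
    push_cast
    rw [pow_mul]
  rw [h1, Complex.re_ofReal_mul]
  ring

theorem A9_one {p : UnitAddCircle → ℝ} (hp : Continuous p) {ρ b : ℝ} (h0 : 0 < ρ) (h1 : ρ < 1)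
    (hb0 : 0 ≤ b) (hb1 : b ≤ 1) {β : ℂ} (hβ : ‖β‖ ≤ 1) :
    HasSum (fun m : ℕ => ρ ^ (2 * m) * ((1 - b ^ m) / (m : ℝ)) *
        ((starRingEnd ℂ β) ^ m * fc p m).re)
      (∫ s : UnitAddCircle, p s * GK b ((ρ ^ 2 : ℝ) * β * e s)) := by
  have hpI : Integrable p := hp.integrable_of_hasCompactSupport (HasCompactSupport.of_compactSpace p)
  have hr1 : ρ ^ 2 < 1 := by nlinarith
  have hw : ∀ s : UnitAddCircle, ‖((ρ ^ 2 : ℝ) : ℂ) * β * e s‖ ≤ ρ ^ 2 := by
    intro s
    rw [norm_mul, norm_mul, norm_e, mul_one, Complex.norm_real, Real.norm_of_nonneg (by positivity)]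
    exact mul_le_of_le_one_right (by positivity) hβ
  obtain ⟨C, hC⟩ := isCompact_univ.exists_bound_of_continuousOn (f := p) hp.continuousOn
  have hC' : ∀ s, |p s| ≤ C := fun s => hC s (Set.mem_univ s)
  have hC0 : 0 ≤ C := le_trans (abs_nonneg _) (hC' 0)
  set F : ℕ → UnitAddCircle → ℝ := fun m s =>
    p s * ((1 - b ^ m) / (m : ℝ) * ((((ρ ^ 2 : ℝ) : ℂ) * β * e s) ^ m).re) with hF
  have hFc : ∀ m, Continuous (F m) := by
    intro m
    apply hp.mul
    apply continuous_const.mul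
    apply Complex.continuous_re.comp
    exact (continuous_const.mul continuous_e).pow m
  have hFI : ∀ m, Integrable (F m) := fun m =>
    (hFc m).integrable_of_hasCompactSupport (HasCompactSupport.of_compactSpace _)
  have hFb : ∀ m s, ‖F m s‖ ≤ C * (ρ ^ 2) ^ m := by
    intro m s
    have a1 : |(1 - b ^ m) / (m : ℝ)| ≤ 1 := by
      rcases Nat.eq_zero_or_pos m with rfl | hm
      · simp
      · have b1 : 0 ≤ b ^ m := pow_nonneg hb0 m
        have b2 : b ^ m ≤ 1 := pow_le_one₀ hb0 hb1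
        have b3 : (1 : ℝ) ≤ m := by exact_mod_cast hm
        rw [abs_of_nonneg (div_nonneg (by linarith) (by linarith)), div_le_one (by linarith)]
        linarith
    have a2 : |((((ρ ^ 2 : ℝ) : ℂ) * β * e s) ^ m).re| ≤ (ρ ^ 2) ^ m := by
      refine (Complex.abs_re_le_norm _).trans ?_
      rw [norm_pow]
      exact pow_le_pow_left₀ (norm_nonneg _) (hw s) m
    rw [hF]
    simp only [Real.norm_eq_abs, abs_mul]
    calc |p s| * (|(1 - b ^ m) / (m : ℝ)| * |((((ρ ^ 2 : ℝ) : ℂ) * β * e s) ^ m).re|)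
        ≤ C * (1 * (ρ ^ 2) ^ m) := by
          apply mul_le_mul (hC' s) _ (by positivity) hC0
          exact mul_le_mul a1 a2 (abs_nonneg _) zero_le_one
      _ = C * (ρ ^ 2) ^ m := by ring
  have hsum : Summable fun m => ∫ s : UnitAddCircle, ‖F m s‖ := by
    apply Summable.of_nonneg_of_le (fun m => integral_nonneg fun s => norm_nonneg _)
      (f := fun m => C * (ρ ^ 2) ^ m)
    · intro m
      calc ∫ s : UnitAddCircle, ‖F m s‖ ≤ ∫ s : UnitAddCircle, C * (ρ ^ 2) ^ m :=
            integral_mono (hFI m).norm (integrable_const _) (hFb m)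
        _ = C * (ρ ^ 2) ^ m := by simp
    · exact (summable_geometric_of_lt_one (by positivity) hr1).mul_left C
  have key := hasSum_integral_of_summable_integral_norm hFI hsum
  have e1 : ∫ s : UnitAddCircle, ∑' m, F m s =
      ∫ s : UnitAddCircle, p s * GK b ((ρ ^ 2 : ℝ) * β * e s) := by
    congr 1
    ext s
    rw [hF]
    simp only
    rw [tsum_mul_left, (GK_series (lt_of_le_of_lt (hw s) hr1) hb0 hb1).tsum_eq]
  rw [e1] at key
  have e2 : (fun m : ℕ => ∫ s : UnitAddCircle, F m s) = fun m : ℕ =>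
      ρ ^ (2 * m) * ((1 - b ^ m) / (m : ℝ)) * ((starRingEnd ℂ β) ^ m * fc p m).re := by
    ext m
    exact A9_term hpI β ρ b m
  rw [e2] at key
  exact key

-- [A9]
theorem Tq_poly {q : Polynomial ℂ} (hq : q ≠ 0) {p : UnitAddCircle → ℝ} (hp : Continuous p)
    {ρ b : ℝ} (h0 : 0 < ρ) (h1 : ρ < 1) (hb0 : 0 ≤ b) (hb1 : b ≤ 1) :
    Tq ρ b (fun t => log ‖q.eval (e t)‖) p =
      -(q.roots.map fun z => ∫ s : UnitAddCircle,
        p s * GK b ((ρ ^ 2 : ℝ) * (starRingEnd ℂ (hat z)) * e s)).sum := by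
  have key : ∀ s : Multiset ℂ, HasSum (fun m : ℕ => ρ ^ (2 * m) * ((1 - b ^ m) / (m : ℝ)) *
      ((s.map fun z => (hat z) ^ m).sum * fc p m).re)
      (s.map fun z => ∫ t : UnitAddCircle,
        p t * GK b ((ρ ^ 2 : ℝ) * (starRingEnd ℂ (hat z)) * e t)).sum := by
    intro s
    induction s using Multiset.induction_on with
    | empty => simpa using (hasSum_zero : HasSum (fun _ : ℕ => (0 : ℝ)) 0)
    | cons a s ih =>
      have i1 := A9_one hp h0 h1 hb0 hb1 (β := starRingEnd ℂ (hat a))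
        (by rw [RCLike.norm_conj]; exact A2_norm_hat_le a)
      have i2 := i1.add ih
      simp only [Multiset.map_cons, Multiset.sum_cons]
      convert i2 using 1
      ext m
      rw [Complex.conj_conj, add_mul, Complex.add_re]
      ring
  have h2 := (key q.roots).neg
  unfold Tq
  rw [← h2.tsum_eq]
  congr 1
  ext m
  rcases Nat.eq_zero_or_pos m with rfl | hm
  · simp
  · rw [fc_poly hq hm]
    have hm0 : (m : ℝ) ≠ 0 := by positivity
    have hm0' : (m : ℂ) ≠ 0 := by exact_mod_cast (Nat.pos_iff_ne_zero.mp hm)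
    have h3 : (starRingEnd ℂ) (q.roots.map fun z => (starRingEnd ℂ (hat z)) ^ m).sum =
        (q.roots.map fun z => (hat z) ^ m).sum := by
      rw [map_multiset_sum, Multiset.map_map]
      congr 1
      apply Multiset.map_congr rfl
      intro z _
      simp
    have h4 : (starRingEnd ℂ) (-(q.roots.map fun z => (starRingEnd ℂ (hat z)) ^ m).sum /
        (2 * m)) * fc p m = (((-(1 / (2 * m)) : ℝ)) : ℂ) *
          ((q.roots.map fun z => (hat z) ^ m).sum * fc p m) := by
      rw [map_div₀, map_neg, h3]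
      simp only [map_mul, Complex.conj_natCast, Complex.conj_ofNat]
      push_cast
      field_simp
    rw [h4, Complex.re_ofReal_mul]
    field_simp

end CP
end Pool.Agent.MP_44c6d5_nt
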