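import Mathlib
import Pool.Agent.MP_44c6d5_nt.CP.Def
import Pool.Agent.MP_44c6d5_nt.CP.A1
import Pool.Agent.MP_44c6d5_nt.CP.A2
import Pool.Agent.MP_44c6d5_nt.CP.A5
import Pool.Agent.MP_44c6d5_nt.CP.A6
import Pool.Agent.MP_44c6d5_nt.CP.A8
import Pool.Agent.MP_44c6d5_nt.CP.A9

/-!
Row A10: the local energy of the truncated density.
-/

namespace Pool.Agent.MP_44c6d5_nt
namespace CP

open MeasureTheory Real

/-- the average of the kernel against `p`. -/
noncomputable def a10K (ρ b : ℝ) (p : UnitAddCircle → ℝ) (t : UnitAddCircle) : ℝ :=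
  ∫ s : UnitAddCircle, p s * GK b ((ρ : ℂ) * (starRingEnd ℂ (e t)) * e s)

theorem a10_coef {b : ℝ} (hb0 : 0 ≤ b) (hb1 : b ≤ 1) (m : ℕ) :
    0 ≤ (1 - b ^ m) / (m : ℝ) ∧ (1 - b ^ m) / (m : ℝ) ≤ 1 := by
  rcases Nat.eq_zero_or_pos m with rfl | hm
  · simp
  · have b1 : 0 ≤ b ^ m := pow_nonneg hb0 m
    have b2 : b ^ m ≤ 1 := pow_le_one₀ hb0 hb1
    have b3 : (1 : ℝ) ≤ m := by exact_mod_cast hm
    refine ⟨div_nonneg (by linarith) (by linarith), ?_⟩
    rw [div_le_one (by linarith)]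
    linarith

theorem a10_fc_norm {p : UnitAddCircle → ℝ} (m : ℕ) :
    ‖fc p m‖ ≤ ∫ s : UnitAddCircle, ‖p s‖ := by
  unfold fc
  refine (norm_integral_le_integral_norm _).trans (le_of_eq ?_)
  refine integral_congr_ae (Filter.Eventually.of_forall fun s => ?_)
  simp [norm_e]

theorem a10_hasSum {ρ b : ℝ} (h0 : 0 < ρ) (h1 : ρ < 1) (hb0 : 0 ≤ b) (hb1 : b ≤ 1)
    {p : UnitAddCircle → ℝ} (hp : Continuous p) (t : UnitAddCircle) :
    HasSum (fun m : ℕ => ρ ^ m * ((1 - b ^ m) / (m : ℝ)) * ((e t) ^ m * fc p m).re)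
      (a10K ρ b p t) := by
  have hs0 : 0 < √ρ := sqrt_pos.2 h0
  have hs1 : √ρ < 1 := by
    rw [sqrt_lt' one_pos]
    simpa using h1
  have hs2 : √ρ ^ 2 = ρ := sq_sqrt h0.le
  have key := A9_one hp hs0 hs1 hb0 hb1 (β := starRingEnd ℂ (e t))
    (by rw [RCLike.norm_conj, norm_e])
  have e1 : ∀ m : ℕ, √ρ ^ (2 * m) = ρ ^ m := fun m => by rw [pow_mul, hs2]
  simp only [hs2, e1, Complex.conj_conj] at key
  exact key

theorem a10_term_le {ρ b : ℝ} (h0 : 0 < ρ) (hb0 : 0 ≤ b) (hb1 : b ≤ 1)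
    {p : UnitAddCircle → ℝ} (m : ℕ) (t : UnitAddCircle) :
    |ρ ^ m * ((1 - b ^ m) / (m : ℝ)) * ((e t) ^ m * fc p m).re| ≤
      ρ ^ m * ∫ s : UnitAddCircle, ‖p s‖ := by
  obtain ⟨c1, c2⟩ := a10_coef hb0 hb1 m
  rw [abs_mul, abs_mul, abs_of_nonneg c1, abs_of_nonneg (pow_nonneg h0.le m)]
  have h2 : |((e t) ^ m * fc p m).re| ≤ ∫ s : UnitAddCircle, ‖p s‖ := by
    refine (Complex.abs_re_le_norm _).trans ?_
    rw [norm_mul, norm_pow, norm_e, one_pow, one_mul]
    exact a10_fc_norm m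
  have h3 : 0 ≤ ρ ^ m := pow_nonneg h0.le m
  calc ρ ^ m * ((1 - b ^ m) / (m : ℝ)) * |((e t) ^ m * fc p m).re|
      ≤ ρ ^ m * 1 * ∫ s : UnitAddCircle, ‖p s‖ := by
        apply mul_le_mul _ h2 (abs_nonneg _) (by positivity)
        exact mul_le_mul_of_nonneg_left c2 h3
    _ = ρ ^ m * ∫ s : UnitAddCircle, ‖p s‖ := by ring

theorem a10_summable {ρ : ℝ} (h0 : 0 < ρ) (h1 : ρ < 1) (A : ℝ) :
    Summable fun m : ℕ => ρ ^ m * A :=
  (summable_geometric_of_lt_one h0.le h1).mul_right A

theorem a10_term_cont (ρ b : ℝ) (p : UnitAddCircle → ℝ) (m : ℕ) :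
    Continuous fun t : UnitAddCircle =>
      ρ ^ m * ((1 - b ^ m) / (m : ℝ)) * ((e t) ^ m * fc p m).re :=
  continuous_const.mul (Complex.continuous_re.comp ((continuous_e.pow m).mul continuous_const))

theorem a10_cont {ρ b : ℝ} (h0 : 0 < ρ) (h1 : ρ < 1) (hb0 : 0 ≤ b) (hb1 : b ≤ 1)
    {p : UnitAddCircle → ℝ} (hp : Continuous p) : Continuous (a10K ρ b p) := by
  have h2 : a10K ρ b p = fun t => ∑' m : ℕ,
      ρ ^ m * ((1 - b ^ m) / (m : ℝ)) * ((e t) ^ m * fc p m).re := by
    funext t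
    exact (a10_hasSum h0 h1 hb0 hb1 hp t).tsum_eq.symm
  rw [h2]
  exact continuous_tsum (a10_term_cont ρ b p) (a10_summable h0 h1 _)
    fun m t => a10_term_le h0 hb0 hb1 m t

theorem a10_re {f : UnitAddCircle → ℝ} (hf : Integrable f) (m : ℕ) (c : ℂ) :
    ∫ t : UnitAddCircle, f t * ((e t) ^ m * c).re = ((starRingEnd ℂ (fc f m)) * c).re := by
  have h1 : starRingEnd ℂ (fc f m) = ∫ t : UnitAddCircle, (f t : ℂ) * (e t) ^ m := by
    unfold fc
    rw [← integral_conj]
    congr 1
    ext t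
    simp
  have h2 : Integrable fun t : UnitAddCircle => (f t : ℂ) * (e t) ^ m * c := by
    have h3 : Integrable fun t : UnitAddCircle => (f t : ℂ) * (e t) ^ m := by
      refine hf.norm.mono' (hf.ofReal.aestronglyMeasurable.mul
        (continuous_e.pow m).aestronglyMeasurable) (Filter.Eventually.of_forall fun s => ?_)
      rw [norm_mul, Complex.norm_real, norm_pow, norm_e, one_pow, mul_one]
    exact h3.mul_const c
  rw [h1, ← integral_mul_const]
  have h4 := Complex.reCLM.integral_comp_comm h2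
  simp only [Complex.reCLM_apply] at h4
  rw [← h4]
  congr 1
  ext t
  rw [mul_assoc, Complex.re_ofReal_mul]

/-- The pairing of the kernel average with a continuous function. -/
theorem a10_pair {ρ b : ℝ} (h0 : 0 < ρ) (h1 : ρ < 1) (hb0 : 0 ≤ b) (hb1 : b ≤ 1)
    {p f : UnitAddCircle → ℝ} (hp : Continuous p) (hf : Continuous f) :
    HasSum (fun m : ℕ => ρ ^ m * ((1 - b ^ m) / (m : ℝ)) *
      ((starRingEnd ℂ (fc f m)) * fc p m).re) (∫ t : UnitAddCircle, f t * a10K ρ b p t) := by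
  obtain ⟨C, hC⟩ := isCompact_univ.exists_bound_of_continuousOn (f := f) hf.continuousOn
  have hC' : ∀ s, |f s| ≤ C := fun s => hC s (Set.mem_univ s)
  have hC0 : 0 ≤ C := le_trans (abs_nonneg _) (hC' 0)
  set F : ℕ → UnitAddCircle → ℝ := fun m t =>
    f t * (ρ ^ m * ((1 - b ^ m) / (m : ℝ)) * ((e t) ^ m * fc p m).re) with hF
  have hFI : ∀ m, Integrable (F m) := fun m => a8_int (hf.mul (a10_term_cont ρ b p m))
  have hA0 : 0 ≤ ∫ s : UnitAddCircle, ‖p s‖ := integral_nonneg fun s => norm_nonneg _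
  have hFb : ∀ m t, ‖F m t‖ ≤ C * (ρ ^ m * ∫ s : UnitAddCircle, ‖p s‖) := by
    intro m t
    rw [hF]
    simp only [Real.norm_eq_abs]
    rw [abs_mul]
    exact mul_le_mul (hC' t) (a10_term_le h0 hb0 hb1 m t) (abs_nonneg _) hC0
  have hsum : Summable fun m => ∫ t : UnitAddCircle, ‖F m t‖ := by
    apply Summable.of_nonneg_of_le (fun m => integral_nonneg fun s => norm_nonneg _)
      (f := fun m => C * (ρ ^ m * ∫ s : UnitAddCircle, ‖p s‖))
    · intro m
      calc ∫ t : UnitAddCircle, ‖F m t‖ ≤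
            ∫ t : UnitAddCircle, C * (ρ ^ m * ∫ s : UnitAddCircle, ‖p s‖) :=
            integral_mono (hFI m).norm (integrable_const _) (hFb m)
        _ = C * (ρ ^ m * ∫ s : UnitAddCircle, ‖p s‖) := by simp
    · exact (a10_summable h0 h1 _).mul_left C
  have key := hasSum_integral_of_summable_integral_norm hFI hsum
  have e1 : ∫ t : UnitAddCircle, ∑' m, F m t = ∫ t : UnitAddCircle, f t * a10K ρ b p t := by
    congr 1
    ext t
    rw [hF]
    simp only
    rw [tsum_mul_left, (a10_hasSum h0 h1 hb0 hb1 hp t).tsum_eq]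
  rw [e1] at key
  have e2 : (fun m : ℕ => ∫ t : UnitAddCircle, F m t) = fun m : ℕ =>
      ρ ^ m * ((1 - b ^ m) / (m : ℝ)) * ((starRingEnd ℂ (fc f m)) * fc p m).re := by
    ext m
    rw [← a10_re (a8_int hf) m (fc p m), ← integral_const_mul]
    congr 1
    ext t
    rw [hF]
    ring
  rw [e2] at key
  exact key

/-- The Fourier coefficients of the Poisson kernel. -/
theorem a10_fc_PK {a : ℂ} (ha : ‖a‖ < 1) {m : ℕ} (hm : 1 ≤ m) :
    fc (fun t => PK (a * e t)) m = a ^ m := by
  set F : ℕ → UnitAddCircle → ℂ := fun j t =>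
    (((if j = 0 then 1 else 2 * ((a * e t) ^ j).re : ℝ)) : ℂ) * (starRingEnd ℂ (e t)) ^ m with hF
  have hFc : ∀ j, Continuous (F j) := by
    intro j
    refine (Complex.continuous_ofReal.comp ?_).mul
      ((Complex.continuous_conj.comp continuous_e).pow m)
    split_ifs
    · exact continuous_const
    · exact continuous_const.mul (Complex.continuous_re.comp
        ((continuous_const.mul continuous_e).pow j))
  have hFI : ∀ j, Integrable (F j) := fun j =>
    (hFc j).integrable_of_hasCompactSupport (HasCompactSupport.of_compactSpace _)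
  have hFb : ∀ j t, ‖F j t‖ ≤ 2 * ‖a‖ ^ j := by
    intro j t
    rw [hF]
    simp only
    rw [norm_mul, norm_pow, RCLike.norm_conj, norm_e, one_pow, mul_one, Complex.norm_real,
      Real.norm_eq_abs]
    split_ifs with hj
    · subst hj
      simp
    · rw [abs_mul, abs_two]
      refine mul_le_mul_of_nonneg_left ?_ zero_le_two
      refine (Complex.abs_re_le_norm _).trans ?_
      rw [norm_pow, norm_mul, norm_e, mul_one]
  have hsum : Summable fun j => ∫ t : UnitAddCircle, ‖F j t‖ := by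
    apply Summable.of_nonneg_of_le (fun m => integral_nonneg fun s => norm_nonneg _)
      (f := fun j => 2 * ‖a‖ ^ j)
    · intro j
      calc ∫ t : UnitAddCircle, ‖F j t‖ ≤ ∫ t : UnitAddCircle, 2 * ‖a‖ ^ j :=
            integral_mono (hFI j).norm (integrable_const _) (hFb j)
        _ = 2 * ‖a‖ ^ j := by simp
    · exact (summable_geometric_of_lt_one (norm_nonneg _) ha).mul_left 2
  have key := hasSum_integral_of_summable_integral_norm hFI hsum
  have e1 : ∫ t : UnitAddCircle, ∑' j, F j t = fc (fun t => PK (a * e t)) m := by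
    unfold fc
    congr 1
    ext t
    rw [hF]
    simp only
    have h2 : HasSum (fun j : ℕ => ((if j = 0 then 1 else 2 * ((a * e t) ^ j).re : ℝ) : ℂ))
        ((PK (a * e t) : ℝ) : ℂ) :=
      Complex.hasSum_ofReal.2 (PK_series (w := a * e t)
        (by rw [norm_mul, norm_e, mul_one]; exact ha))
    rw [tsum_mul_right, h2.tsum_eq]
  rw [e1] at key
  have e2 : ∀ j : ℕ, ∫ t : UnitAddCircle, F j t = if j = m then a ^ m else 0 := by
    intro j
    rcases Nat.eq_zero_or_pos j with hj | hj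
    · subst hj
      rw [if_neg (by omega)]
      rw [hF]
      simp only [if_true, Complex.ofReal_one]
      have h3 := A1_orth' 0 hm
      simpa using h3
    · have h4 : ∀ t : UnitAddCircle, F j t = a ^ j * (e t ^ j * (starRingEnd ℂ (e t)) ^ m) +
          (starRingEnd ℂ a) ^ j * ((starRingEnd ℂ (e t)) ^ j * (starRingEnd ℂ (e t)) ^ m) := by
        intro t
        rw [hF]
        simp only
        rw [if_neg (by omega)]
        have h5 : (((2 * ((a * e t) ^ j).re : ℝ)) : ℂ) = (a * e t) ^ j +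
            starRingEnd ℂ ((a * e t) ^ j) := by
          rw [Complex.add_conj]
        rw [h5, map_pow, map_mul, mul_pow, mul_pow]
        ring
      have i1 : Integrable fun t : UnitAddCircle => e t ^ j * (starRingEnd ℂ (e t)) ^ m :=
        ((continuous_e.pow j).mul ((Complex.continuous_conj.comp continuous_e).pow m)
          ).integrable_of_hasCompactSupport (HasCompactSupport.of_compactSpace _)
      have i2 : Integrable fun t : UnitAddCircle =>
          (starRingEnd ℂ (e t)) ^ j * (starRingEnd ℂ (e t)) ^ m :=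
        (((Complex.continuous_conj.comp continuous_e).pow j).mul
          ((Complex.continuous_conj.comp continuous_e).pow m)
          ).integrable_of_hasCompactSupport (HasCompactSupport.of_compactSpace _)
      simp_rw [h4]
      rw [integral_add (i1.const_mul _) (i2.const_mul _), integral_const_mul, integral_const_mul,
        A1_orth, A1_orth' j hm, mul_zero, add_zero]
      split_ifs with h6
      · rw [h6, mul_one]
      · rw [mul_zero]
  have e3 : HasSum (fun j : ℕ => ∫ t : UnitAddCircle, F j t) (a ^ m) := by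
    simp_rw [e2]
    exact hasSum_ite_eq m (a ^ m)
  exact key.unique e3

theorem a10_GK_cont {b : ℝ} (hb0 : 0 ≤ b) (hb1 : b ≤ 1) {a : ℂ} (ha : ‖a‖ < 1) :
    Continuous fun s : UnitAddCircle => GK b (a * e s) := by
  have hc : ∀ c : ℂ, ‖c‖ < 1 → Continuous fun s : UnitAddCircle => log ‖1 - c * e s‖ := by
    intro c hc
    apply Continuous.log
    · exact (continuous_const.sub (continuous_const.mul continuous_e)).norm
    · intro s hs
      rw [norm_eq_zero] at hs
      have h1 : c * e s = 1 := by linear_combination -hs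
      have h2 : ‖c * e s‖ = 1 := by rw [h1]; simp
      rw [norm_mul, norm_e, mul_one] at h2
      exact hc.ne h2
  unfold GK
  have h3 : ‖(b : ℂ) * a‖ < 1 := by
    rw [norm_mul, Complex.norm_real, Real.norm_of_nonneg hb0]
    exact lt_of_le_of_lt (mul_le_of_le_one_left (norm_nonneg _) hb1) ha
  have h4 := hc _ h3
  simp only [mul_assoc] at h4
  exact h4.sub (hc a ha)

theorem a10_lower {ρ r' : ℝ} (h0 : 0 < ρ) (h1 : ρ < 1) (hr0 : 0 ≤ r') (hr1 : r' ≤ 1 / 2)
    {p : UnitAddCircle → ℝ} (hp : Continuous p) (hp0 : ∀ s, 0 ≤ p s) (t : UnitAddCircle) :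
    0 ≤ a10K ρ (1 - r') p t + r' * ∫ s : UnitAddCircle, p s := by
  have ha : ‖(ρ : ℂ) * (starRingEnd ℂ (e t))‖ < 1 := by
    rw [norm_mul, RCLike.norm_conj, norm_e, mul_one, Complex.norm_real,
      Real.norm_of_nonneg h0.le]
    exact h1
  unfold a10K
  have i1 : Integrable fun s : UnitAddCircle =>
      p s * GK (1 - r') ((ρ : ℂ) * (starRingEnd ℂ (e t)) * e s) :=
    a8_int (hp.mul (a10_GK_cont (by linarith) (by linarith) ha))
  have i2 : Integrable fun s : UnitAddCircle => r' * p s := (a8_int hp).const_mul r'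
  rw [← integral_const_mul, ← integral_add i1 i2]
  refine integral_nonneg fun s => ?_
  have h2 := GK_lower0 (w := (ρ : ℂ) * (starRingEnd ℂ (e t)) * e s)
    (by rw [norm_mul, norm_e, mul_one]; exact ha) hr0 hr1
  have h3 := hp0 s
  have h4 : 0 ≤ p s * (GK (1 - r') ((ρ : ℂ) * (starRingEnd ℂ (e t)) * e s) + r') :=
    mul_nonneg h3 (by linarith)
  simp only [Pi.zero_apply]
  linarith

-- [A10]
theorem Eq_le (q : Polynomial ℂ) {r r' : ℝ} (hr : 0 < r) (hr1 : r ≤ 1 / 2) (h0 : 0 ≤ r')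
    (h1 : r' ≤ 1 / 2) :
    Eq (1 - r) (1 - r') (pi' r q) ≤
      (q.roots.map fun z => ∫ s : UnitAddCircle, pi' r q s *
        GK (1 - r') (((1 - r) ^ 2 : ℝ) * (starRingEnd ℂ (hat z)) * e s)).sum +
      r' * (Multiset.card q.roots) * ∫ s : UnitAddCircle, pi' r q s := by
  set ρ := 1 - r with hρ
  set b := 1 - r' with hb
  have hρ0 : 0 < ρ := by linarith
  have hρ1 : ρ < 1 := by linarith
  have hb0 : 0 ≤ b := by linarith
  have hb1 : b ≤ 1 := by linarith
  have hnc : Continuous (nu ρ q) := continuous_nu hρ0.le hρ1 q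
  have hn0 : ∀ s, 0 ≤ nu ρ q s := nu_nonneg hρ0.le hρ1 q
  have hpc : Continuous (pi' r q) := by
    unfold pi'
    exact hnc.min continuous_const
  have hp0 : ∀ s, 0 ≤ pi' r q s := fun s => by
    unfold pi'
    exact le_min (hn0 s) (by positivity)
  have hpn : ∀ s, pi' r q s ≤ nu ρ q s := fun s => by
    unfold pi'
    exact min_le_left _ _
  set p := pi' r q with hpd
  set K := a10K ρ b p with hK
  have hKc : Continuous K := a10_cont hρ0 hρ1 hb0 hb1 hpc
  -- the local energy
  have e1 : Eq ρ b p = ∫ t : UnitAddCircle, p t * K t := by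
    rw [← (a10_pair hρ0 hρ1 hb0 hb1 hpc hpc).tsum_eq]
    unfold Eq
    congr 1
    ext m
    have h3 : ((starRingEnd ℂ (fc p m)) * fc p m).re = ‖fc p m‖ ^ 2 := by
      rw [← Complex.normSq_eq_conj_mul_self, Complex.ofReal_re, Complex.normSq_eq_norm_sq]
    rw [h3]
    ring
  -- each root
  have e2 : ∀ z : ℂ, ∫ t : UnitAddCircle, PK ((ρ : ℂ) * (starRingEnd ℂ (hat z)) * e t) * K t =
      ∫ s : UnitAddCircle, p s * GK b ((ρ ^ 2 : ℝ) * (starRingEnd ℂ (hat z)) * e s) := by
    intro z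
    have ha : ‖(ρ : ℂ) * (starRingEnd ℂ (hat z))‖ < 1 := by
      rw [a8_norm' hρ0.le]
      exact a8_lt hρ0.le hρ1 z
    have g1 := a10_pair hρ0 hρ1 hb0 hb1 hpc (continuous_PK_line ha)
    have g2 := A9_one hpc hρ0 hρ1 hb0 hb1 (β := starRingEnd ℂ (hat z))
      (by rw [RCLike.norm_conj]; exact A2_norm_hat_le z)
    have g3 : (fun m : ℕ => ρ ^ m * ((1 - b ^ m) / (m : ℝ)) *
        ((starRingEnd ℂ (fc (fun s => PK ((ρ : ℂ) * (starRingEnd ℂ (hat z)) * e s)) m)) *
          fc p m).re) =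
        fun m : ℕ => ρ ^ (2 * m) * ((1 - b ^ m) / (m : ℝ)) *
        ((starRingEnd ℂ (starRingEnd ℂ (hat z))) ^ m * fc p m).re := by
      ext m
      rcases Nat.eq_zero_or_pos m with rfl | hm
      · simp
      · rw [a10_fc_PK ha hm, map_pow, map_mul, Complex.conj_ofReal, mul_pow, mul_assoc
          ((ρ : ℂ) ^ m)]
        have h5 : ((ρ : ℂ) ^ m * ((starRingEnd ℂ (starRingEnd ℂ (hat z))) ^ m * fc p m)).re =
            ρ ^ m * ((starRingEnd ℂ (starRingEnd ℂ (hat z))) ^ m * fc p m).re := by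
          rw [← Complex.ofReal_pow, Complex.re_ofReal_mul]
        rw [h5]
        ring
    rw [g3] at g1
    exact g1.unique g2
  -- the sum over the roots
  have e3 : ∫ t : UnitAddCircle, nu ρ q t * K t = (q.roots.map fun z => ∫ s : UnitAddCircle,
      p s * GK b ((ρ ^ 2 : ℝ) * (starRingEnd ℂ (hat z)) * e s)).sum := by
    have h6 : ∀ t, nu ρ q t * K t = (q.roots.map fun z =>
        PK ((ρ : ℂ) * (starRingEnd ℂ (hat z)) * e t) * K t).sum := by
      intro t
      unfold nu
      rw [Multiset.sum_map_mul_right]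
    simp_rw [h6]
    rw [integral_msum q.roots (fun z t => PK ((ρ : ℂ) * (starRingEnd ℂ (hat z)) * e t) * K t)
      (fun z => (continuous_PK_line (by rw [a8_norm' hρ0.le]; exact a8_lt hρ0.le hρ1 z)).mul hKc)]
    simp_rw [e2]
  have hlow : ∀ t, 0 ≤ K t + r' * ∫ s : UnitAddCircle, p s :=
    fun t => a10_lower hρ0 hρ1 h0 h1 hpc hp0 t
  set I := ∫ s : UnitAddCircle, p s with hI
  have hI0 : 0 ≤ I := integral_nonneg hp0
  have hint : 0 ≤ ∫ t : UnitAddCircle, (nu ρ q t - p t) * (K t + r' * I) :=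
    integral_nonneg fun t => mul_nonneg (by linarith [hpn t]) (hlow t)
  have hexp : ∫ t : UnitAddCircle, (nu ρ q t - p t) * (K t + r' * I) =
      (∫ t : UnitAddCircle, nu ρ q t * K t) - (∫ t : UnitAddCircle, p t * K t) +
        (r' * I * (∫ t : UnitAddCircle, nu ρ q t) - r' * I * I) := by
    have i1 : Integrable fun t => nu ρ q t * K t := a8_int (hnc.mul hKc)
    have i2 : Integrable fun t => p t * K t := a8_int (hpc.mul hKc)
    have i3 : Integrable fun t => r' * I * nu ρ q t := (a8_int hnc).const_mul _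
    have i4 : Integrable fun t => r' * I * p t := (a8_int hpc).const_mul _
    have h7 : ∫ t : UnitAddCircle, r' * I * p t = r' * I * I := by
      rw [integral_const_mul]
    have h8 : ∫ t : UnitAddCircle, r' * I * nu ρ q t = r' * I * ∫ t : UnitAddCircle, nu ρ q t := by
      rw [integral_const_mul]
    have i5 : Integrable fun t => nu ρ q t * K t - p t * K t := i1.sub i2
    have i6 : Integrable fun t => r' * I * nu ρ q t - r' * I * p t := i3.sub i4
    rw [← h7, ← h8, ← integral_sub i1 i2, ← integral_sub i3 i4, ← integral_add i5 i6]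
    congr 1
    ext t
    ring
  rw [hexp, integral_nu hρ0.le hρ1 q, e3] at hint
  rw [e1]
  have h9 : 0 ≤ r' * I * I := by positivity
  nlinarith

end CP
end Pool.Agent.MP_44c6d5_nt
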