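import Pool.Agent.MP_44c6d5_nt.CP.A8

namespace Pool.Agent.MP_44c6d5_nt
namespace CP

open MeasureTheory Real

theorem nu_pi_lower (q : Polynomial ℂ) {r : ℝ} (hr : 0 < r) (hr1 : r ≤ 1 / 2)
    (hgood : (Multiset.card q.roots : ℝ) / 2 ≤
      Multiset.card (q.roots.filter fun z => 1 - r ≤ ‖hat z‖)) :
    (Multiset.card q.roots : ℝ) / (16 * r) ≤ ∫ s : UnitAddCircle, nu (1 - r) q s * pi' r q s := by
  classical
  have hρ0 : (0 : ℝ) ≤ 1 - r := by linarith
  have hρ1 : (1 - r : ℝ) < 1 := by linarith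
  set f : ℂ → UnitAddCircle → ℝ := fun z s => PK (((1 - r : ℝ) : ℂ) * (starRingEnd ℂ (hat z)) * e s)
    with hf
  have hfc : ∀ z, Continuous (f z) := fun z =>
    continuous_PK_line (by rw [a8_norm' hρ0]; exact a8_lt hρ0 hρ1 z)
  have hfpos : ∀ z s, 0 < f z s := fun z s => PK_pos (by rw [a8_norm hρ0]; exact a8_lt hρ0 hρ1 z)
  have hpc : Continuous (pi' r q) := by
    unfold pi'
    exact (continuous_nu hρ0 hρ1 q).min continuous_const
  have hp0 : ∀ s, 0 ≤ pi' r q s := fun s =>
    le_min (nu_nonneg hρ0 hρ1 q s) (by positivity)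
  have h1 : ∫ s : UnitAddCircle, nu (1 - r) q s * pi' r q s
      = (q.roots.map fun z => ∫ s, f z s * pi' r q s).sum := by
    rw [← integral_msum q.roots (fun z s => f z s * pi' r q s) (fun z => (hfc z).mul hpc)]
    congr 1
    funext s
    rw [Multiset.sum_map_mul_right]
    rfl
  rw [h1]
  have hF0 : ∀ z, 0 ≤ ∫ s, f z s * pi' r q s := fun z =>
    integral_nonneg fun s => mul_nonneg (hfpos z s).le (hp0 s)
  -- a good root
  have hgoodF : ∀ z ∈ q.roots.filter (fun z => 1 - r ≤ ‖hat z‖),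
      1 / (8 * r) ≤ ∫ s, f z s * pi' r q s := by
    intro z hz
    obtain ⟨hz1, hz2⟩ := Multiset.mem_filter.mp hz
    have hle : ∀ s, f z s / 2 ≤ pi' r q s := by
      intro s
      apply le_min
      · have h2 : f z s ≤ nu (1 - r) q s := by
          unfold nu
          apply Multiset.single_le_sum
          · intro x hx
            obtain ⟨w, -, rfl⟩ := Multiset.mem_map.mp hx
            exact (hfpos w s).le
          · exact Multiset.mem_map.mpr ⟨z, hz1, rfl⟩
        have := (hfpos z s).le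
        linarith
      · have h3 : f z s ≤ 2 / (1 - ‖((1 - r : ℝ) : ℂ) * (starRingEnd ℂ (hat z)) * e s‖) :=
          PK_le (by rw [a8_norm hρ0]; exact a8_lt hρ0 hρ1 z)
        rw [a8_norm hρ0] at h3
        have h4 : r ≤ 1 - (1 - r) * ‖hat z‖ := by
          have := mul_le_of_le_one_right hρ0 (a8_hat_le z)
          linarith
        have h5 : 2 / (1 - (1 - r) * ‖hat z‖) ≤ 2 / r :=
          div_le_div_of_nonneg_left (by norm_num) hr h4
        have h6 : 2 / r = 2 * (1 / r) := by ring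
        linarith
    have h7 : (∫ s, f z s ^ 2) / 2 ≤ ∫ s, f z s * pi' r q s := by
      rw [← integral_div]
      apply integral_mono (a8_int (((hfc z).pow 2).div_const 2)) (a8_int ((hfc z).mul hpc))
      intro s
      have := mul_le_mul_of_nonneg_left (hle s) (hfpos z s).le
      show f z s ^ 2 / 2 ≤ f z s * pi' r q s
      calc f z s ^ 2 / 2 = f z s * (f z s / 2) := by ring
        _ ≤ _ := this
    have ha : ‖((1 - r : ℝ) : ℂ) * (starRingEnd ℂ (hat z))‖ < 1 := by
      rw [a8_norm' hρ0]; exact a8_lt hρ0 hρ1 z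
    have h8 : ∫ s, f z s ^ 2 = (1 + ‖((1 - r : ℝ) : ℂ) * (starRingEnd ℂ (hat z))‖ ^ 2) /
        (1 - ‖((1 - r : ℝ) : ℂ) * (starRingEnd ℂ (hat z))‖ ^ 2) := integral_PK_sq ha
    rw [a8_norm' hρ0] at h8 ha
    set x : ℝ := (1 - r) * ‖hat z‖ with hx
    have hx1 : (1 - r) ^ 2 ≤ x := by
      rw [hx, sq]
      exact mul_le_mul_of_nonneg_left hz2 hρ0
    have hx0 : 0 ≤ x := le_trans (sq_nonneg _) hx1
    have hx2 : 1 - x ^ 2 ≤ 4 * r := by
      have h9 : ((1 - r) ^ 2) ^ 2 ≤ x ^ 2 := pow_le_pow_left₀ (sq_nonneg _) hx1 2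
      have h10 : 1 - 4 * r ≤ ((1 - r) ^ 2) ^ 2 := by
        have := one_add_mul_le_pow (a := -r) (by linarith) 4
        have e : ((1 - r) ^ 2) ^ 2 = (1 + -r) ^ 4 := by ring
        rw [e]
        push_cast at this
        linarith
      linarith
    have hx3 : 0 < 1 - x ^ 2 := by nlinarith
    have h11 : 1 / (4 * r) ≤ ∫ s, f z s ^ 2 := by
      rw [h8]
      have h12 : 1 / (4 * r) ≤ 1 / (1 - x ^ 2) := one_div_le_one_div_of_le hx3 hx2
      have h13 : 1 / (1 - x ^ 2) ≤ (1 + x ^ 2) / (1 - x ^ 2) := by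
        apply div_le_div_of_nonneg_right _ hx3.le
        nlinarith
      exact h12.trans h13
    have e8 : 1 / (8 * r) = (1 / (4 * r)) / 2 := by
      field_simp; norm_num
    rw [e8]
    exact le_trans (div_le_div_of_nonneg_right h11 (by norm_num)) h7
  -- sum
  have h14 : ((q.roots.filter fun z => 1 - r ≤ ‖hat z‖).map fun z => ∫ s, f z s * pi' r q s).sum ≤
      (q.roots.map fun z => ∫ s, f z s * pi' r q s).sum := by
    have hsplit := Multiset.filter_add_not (fun z => 1 - r ≤ ‖hat z‖) q.roots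
    conv_rhs => rw [← hsplit]
    rw [Multiset.map_add, Multiset.sum_add]
    have : 0 ≤ ((q.roots.filter fun z => ¬ (1 - r ≤ ‖hat z‖)).map
        fun z => ∫ s, f z s * pi' r q s).sum := by
      apply Multiset.sum_nonneg
      intro x hx
      obtain ⟨w, -, rfl⟩ := Multiset.mem_map.mp hx
      exact hF0 w
    linarith
  have h15 : (Multiset.card (q.roots.filter fun z => 1 - r ≤ ‖hat z‖) : ℝ) * (1 / (8 * r)) ≤
      ((q.roots.filter fun z => 1 - r ≤ ‖hat z‖).map fun z => ∫ s, f z s * pi' r q s).sum := by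
    have := Multiset.card_nsmul_le_sum (s := (q.roots.filter fun z => 1 - r ≤ ‖hat z‖).map
      fun z => ∫ s, f z s * pi' r q s) (a := 1 / (8 * r)) (by
        intro x hx
        obtain ⟨w, hw, rfl⟩ := Multiset.mem_map.mp hx
        exact hgoodF w hw)
    rw [Multiset.card_map, nsmul_eq_mul] at this
    exact this
  have h16 : (Multiset.card q.roots : ℝ) / (16 * r) = (Multiset.card q.roots : ℝ) / 2 * (1 / (8 * r)) := by
    field_simp; ring
  rw [h16]
  calc (Multiset.card q.roots : ℝ) / 2 * (1 / (8 * r))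
      ≤ (Multiset.card (q.roots.filter fun z => 1 - r ≤ ‖hat z‖) : ℝ) * (1 / (8 * r)) :=
        mul_le_mul_of_nonneg_right hgood (by positivity)
    _ ≤ _ := h15
    _ ≤ _ := h14

end CP
end Pool.Agent.MP_44c6d5_nt
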