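import Mathlib
import Pool.Agent.MP_44c6d5_nt.CP.Def
import Pool.Agent.MP_44c6d5_nt.CP.A5
import Pool.Agent.MP_44c6d5_nt.CP.A8

/-! Row A12: the kernel of a polynomial and the test form. -/

namespace Pool.Agent.MP_44c6d5_nt
namespace CP

open MeasureTheory Real

/-! ### Continuity and integrability -/

theorem a12_int {X : Type*} [TopologicalSpace X] [CompactSpace X] [MeasurableSpace X]
    [BorelSpace X] {E : Type*} [NormedAddCommGroup E] [SecondCountableTopology E] {ν : Measure X}
    [IsFiniteMeasure ν] {f : X → E} (hf : Continuous f) : Integrable f ν :=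
  hf.integrable_of_hasCompactSupport (HasCompactSupport.of_compactSpace f)

theorem a12_norm {c : ℝ} (h0 : 0 ≤ c) (t : UnitAddCircle) : ‖(c : ℂ) * e t‖ = c := by
  rw [norm_mul, norm_e, mul_one, Complex.norm_real, Real.norm_of_nonneg h0]

theorem a12_ne {c : ℝ} (h0 : 0 ≤ c) (h1 : c < 1) (t : UnitAddCircle) :
    1 - (c : ℂ) * e t ≠ 0 := by
  intro h
  have h2 : (c : ℂ) * e t = 1 := (sub_eq_zero.1 h).symm
  have h3 := a12_norm h0 t
  rw [h2, norm_one] at h3
  linarith

theorem a12_contPK {c : ℝ} (h0 : 0 ≤ c) (h1 : c < 1) :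
    Continuous fun t : UnitAddCircle => PK ((c : ℂ) * e t) := by
  unfold PK
  refine Complex.continuous_re.comp (Continuous.div ?_ ?_ fun t => a12_ne h0 h1 t)
  · exact continuous_const.add (continuous_const.mul continuous_e)
  · exact continuous_const.sub (continuous_const.mul continuous_e)

theorem a12_cont2 {c : ℝ} (h0 : 0 ≤ c) (h1 : c < 1) :
    Continuous fun p : UnitAddCircle × UnitAddCircle => PK ((c : ℂ) * e (p.1 - p.2)) :=
  (a12_contPK h0 h1).comp (continuous_fst.sub continuous_snd)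

theorem a12_pos {c : ℝ} (h0 : 0 ≤ c) (h1 : c < 1) (t : UnitAddCircle) :
    0 < PK ((c : ℂ) * e t) := PK_pos (by rw [a12_norm h0]; exact h1)

theorem a12_one {c : ℝ} (h0 : 0 ≤ c) (h1 : c < 1) (t : UnitAddCircle) :
    ∫ s : UnitAddCircle, PK ((c : ℂ) * e (t - s)) = 1 := by
  rw [integral_sub_left_eq_self (fun s : UnitAddCircle => PK ((c : ℂ) * e s)) volume t]
  exact integral_PK (by rw [Complex.norm_real, Real.norm_of_nonneg h0]; exact h1)

theorem a12_one' {c : ℝ} (h0 : 0 ≤ c) (h1 : c < 1) (s : UnitAddCircle) :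
    ∫ t : UnitAddCircle, PK ((c : ℂ) * e (t - s)) = 1 := by
  rw [integral_sub_right_eq_self (fun t : UnitAddCircle => PK ((c : ℂ) * e t)) s]
  exact integral_PK (by rw [Complex.norm_real, Real.norm_of_nonneg h0]; exact h1)

/-- The Poisson integral of `p`. -/
noncomputable def PP (c : ℝ) (p : UnitAddCircle → ℝ) (t : UnitAddCircle) : ℝ :=
  ∫ s : UnitAddCircle, p s * PK ((c : ℂ) * e (t - s))

theorem PP_nonneg {c : ℝ} (h0 : 0 ≤ c) (h1 : c < 1) {p : UnitAddCircle → ℝ} (hp : ∀ s, 0 ≤ p s)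
    (t : UnitAddCircle) : 0 ≤ PP c p t :=
  integral_nonneg fun s => mul_nonneg (hp s) (a12_pos h0 h1 _).le

/-! ### The series of the Poisson integral -/

theorem a12_fc_norm {p : UnitAddCircle → ℝ} (m : ℕ) :
    ‖fc p m‖ ≤ ∫ s : UnitAddCircle, ‖p s‖ := by
  unfold fc
  refine (norm_integral_le_integral_norm _).trans (le_of_eq ?_)
  refine integral_congr_ae (Filter.Eventually.of_forall fun s => ?_)
  simp [norm_e]

theorem a12_int_mul {p : UnitAddCircle → ℝ} (hp : Integrable p) {g : UnitAddCircle → ℂ}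
    (hg : Continuous g) (hg1 : ∀ s, ‖g s‖ ≤ 1) :
    Integrable fun s => (p s : ℂ) * g s := by
  refine hp.norm.mono' (hp.ofReal.aestronglyMeasurable.mul hg.aestronglyMeasurable)
    (Filter.Eventually.of_forall fun s => ?_)
  rw [norm_mul, Complex.norm_real]
  have := hg1 s
  nlinarith [norm_nonneg (p s)]

theorem a12_cont_epow (m : ℕ) : Continuous fun t : UnitAddCircle => e t ^ m :=
  continuous_e.pow m

/-- The coefficient of the Poisson integral. -/
theorem a12_coef {p : UnitAddCircle → ℝ} (hp : Integrable p) (m : ℕ) (t : UnitAddCircle) :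
    (e t ^ m * fc p m).re = ∫ s : UnitAddCircle, p s * (e (t - s) ^ m).re := by
  unfold fc
  rw [← integral_const_mul]
  have h1 : (fun s : UnitAddCircle => e t ^ m * ((p s : ℂ) * (starRingEnd ℂ (e s)) ^ m)) =
      fun s => (p s : ℂ) * e (t - s) ^ m := by
    funext s
    have h2 : e (t - s) = e t * (starRingEnd ℂ) (e s) := by
      rw [sub_eq_add_neg, e_add]
      congr 1
      have h3 : e (-s) * e s = 1 := by rw [← e_add, neg_add_cancel, e_zero]
      have h4 : (starRingEnd ℂ) (e s) * e s = 1 := by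
        rw [mul_comm, Complex.mul_conj, Complex.normSq_eq_norm_sq, norm_e]
        norm_num
      exact mul_right_cancel₀ (e_ne_zero s) (h3.trans h4.symm)
    rw [h2, mul_pow]
    ring
  rw [h1]
  have h2 : Integrable fun s => (p s : ℂ) * e (t - s) ^ m :=
    a12_int_mul hp ((continuous_e.comp (continuous_const.sub continuous_id)).pow m) fun s => by
      rw [norm_pow, norm_e, one_pow]
  have h3 := integral_re h2
  simp only [RCLike.re_eq_complex_re] at h3
  rw [← h3]
  refine integral_congr_ae (Filter.Eventually.of_forall fun s => ?_)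
  simp only [Complex.mul_re, Complex.ofReal_re, Complex.ofReal_im, zero_mul, sub_zero]

theorem a12_geo {c : ℝ} (h0 : 0 ≤ c) (h1 : c < 1) (A : ℝ) : Summable fun m : ℕ => 2 * c ^ m * A :=
  ((summable_geometric_of_lt_one h0 h1).mul_left 2).mul_right A

theorem a12_series {c : ℝ} (h0 : 0 ≤ c) (h1 : c < 1) {p : UnitAddCircle → ℝ} (hp : Continuous p)
    (t : UnitAddCircle) :
    HasSum (fun m : ℕ => (if m = 0 then 1 else 2) * c ^ m * (e t ^ m * fc p m).re) (PP c p t) := by
  have hpi : Integrable p := a12_int hp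
  have hF : ∀ m : ℕ, Integrable fun s : UnitAddCircle =>
      (if m = 0 then (1 : ℝ) else 2) * c ^ m * (p s * (e (t - s) ^ m).re) := by
    intro m
    refine a12_int ?_
    refine continuous_const.mul (hp.mul (Complex.continuous_re.comp ?_))
    exact (continuous_e.comp (continuous_const.sub continuous_id)).pow m
  have hbd : ∀ (m : ℕ) (s : UnitAddCircle),
      ‖(if m = 0 then (1 : ℝ) else 2) * c ^ m * (p s * (e (t - s) ^ m).re)‖ ≤
        2 * c ^ m * ‖p s‖ := by
    intro m s
    have h2 : |(e (t - s) ^ m).re| ≤ 1 := by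
      refine (Complex.abs_re_le_norm _).trans (le_of_eq ?_)
      rw [norm_pow, norm_e, one_pow]
    have h3 : |(if m = 0 then (1 : ℝ) else 2)| ≤ 2 := by split_ifs <;> norm_num
    rw [Real.norm_eq_abs, abs_mul, abs_mul, abs_mul, abs_of_nonneg (pow_nonneg h0 m),
      ← Real.norm_eq_abs (p s)]
    have h4 : 0 ≤ c ^ m := pow_nonneg h0 m
    calc |(if m = 0 then (1 : ℝ) else 2)| * c ^ m * (‖p s‖ * |(e (t - s) ^ m).re|)
        ≤ 2 * c ^ m * (‖p s‖ * 1) := by gcongr
      _ = 2 * c ^ m * ‖p s‖ := by ring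
  have hsum : Summable fun m : ℕ => ∫ s : UnitAddCircle,
      ‖(if m = 0 then (1 : ℝ) else 2) * c ^ m * (p s * (e (t - s) ^ m).re)‖ := by
    refine Summable.of_nonneg_of_le (fun m => integral_nonneg fun s => norm_nonneg _)
      (fun m => ?_) (a12_geo h0 h1 (∫ s : UnitAddCircle, ‖p s‖))
    rw [← integral_const_mul]
    exact integral_mono (hF m).norm (hpi.norm.const_mul _) (hbd m)
  have key := hasSum_integral_of_summable_integral_norm hF hsum
  have h2 : (fun m : ℕ => ∫ s : UnitAddCircle,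
      (if m = 0 then (1 : ℝ) else 2) * c ^ m * (p s * (e (t - s) ^ m).re)) =
      fun m : ℕ => (if m = 0 then 1 else 2) * c ^ m * (e t ^ m * fc p m).re := by
    funext m
    rw [integral_const_mul, a12_coef hpi]
  have h3 : (∫ s : UnitAddCircle, ∑' m : ℕ,
      (if m = 0 then (1 : ℝ) else 2) * c ^ m * (p s * (e (t - s) ^ m).re)) = PP c p t := by
    unfold PP
    refine integral_congr_ae (Filter.Eventually.of_forall fun s => ?_)
    have h4 := (PK_series (w := (c : ℂ) * e (t - s))
      (by rw [a12_norm h0]; exact h1)).mul_left (p s)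
    simp only []
    rw [← h4.tsum_eq]
    refine tsum_congr fun m => ?_
    have h5 : (((c : ℂ) * e (t - s)) ^ m).re = c ^ m * (e (t - s) ^ m).re := by
      rw [mul_pow, ← Complex.ofReal_pow, Complex.re_ofReal_mul]
    by_cases hm : m = 0
    · subst hm
      simp
    · simp only [hm, if_false]
      rw [h5]
      ring
  rw [h2, h3] at key
  exact key

theorem a12_re_le {p : UnitAddCircle → ℝ} (m : ℕ) (t : UnitAddCircle) :
    |(e t ^ m * fc p m).re| ≤ ∫ s : UnitAddCircle, ‖p s‖ := by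
  refine (Complex.abs_re_le_norm _).trans ?_
  rw [norm_mul, norm_pow, norm_e, one_pow, one_mul]
  exact a12_fc_norm m

theorem PP_continuous {c : ℝ} (h0 : 0 ≤ c) (h1 : c < 1) {p : UnitAddCircle → ℝ}
    (hp : Continuous p) : Continuous (PP c p) := by
  have h2 : PP c p = fun t => ∑' m : ℕ, (if m = 0 then (1 : ℝ) else 2) * c ^ m *
      (e t ^ m * fc p m).re := by
    funext t
    exact (a12_series h0 h1 hp t).tsum_eq.symm
  rw [h2]
  refine continuous_tsum (fun m => ?_) (a12_geo h0 h1 (∫ s : UnitAddCircle, ‖p s‖)) fun m t => ?_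
  · exact continuous_const.mul (Complex.continuous_re.comp ((a12_cont_epow m).mul continuous_const))
  · have h3 : |(if m = 0 then (1 : ℝ) else 2)| ≤ 2 := by split_ifs <;> norm_num
    have h4 : 0 ≤ c ^ m := pow_nonneg h0 m
    rw [Real.norm_eq_abs, abs_mul, abs_mul, abs_of_nonneg h4]
    have h5 := a12_re_le (p := p) m t
    have h6 : 0 ≤ |(e t ^ m * fc p m).re| := abs_nonneg _
    exact mul_le_mul (mul_le_mul_of_nonneg_right h3 h4) h5 h6 (by positivity)

theorem PP_bound {c : ℝ} (h0 : 0 ≤ c) (h1 : c < 1) {p : UnitAddCircle → ℝ}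
    (hp : Continuous p) : ∃ C : ℝ, ∀ t, ‖PP c p t‖ ≤ C := by
  obtain ⟨C, hC⟩ := (isCompact_univ (X := UnitAddCircle)).exists_bound_of_continuousOn
    (PP_continuous h0 h1 hp).continuousOn
  exact ⟨C, fun t => hC t (Set.mem_univ t)⟩

theorem a12_mu_int {c : ℝ} (h0 : 0 ≤ c) (h1 : c < 1) {p : UnitAddCircle → ℝ}
    (hp : Continuous p) {μ : UnitAddCircle → ℝ} (hμ : Integrable μ) :
    Integrable fun t => μ t * PP c p t := by
  obtain ⟨C, hC⟩ := PP_bound h0 h1 hp
  exact hμ.mul_bdd (PP_continuous h0 h1 hp).aestronglyMeasurable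
    (Filter.Eventually.of_forall hC)

/-- The pairing with an integrable function. -/
theorem a12_pair {c : ℝ} (h0 : 0 ≤ c) (h1 : c < 1) {p : UnitAddCircle → ℝ} (hp : Continuous p)
    {μ : UnitAddCircle → ℝ} (hμ : Integrable μ) :
    HasSum (fun m : ℕ => (if m = 0 then 1 else 2) * c ^ m *
      ((starRingEnd ℂ (fc μ m)) * fc p m).re) (∫ t : UnitAddCircle, μ t * PP c p t) := by
  obtain ⟨A, hA⟩ : ∃ A : ℝ, A = ∫ s : UnitAddCircle, ‖p s‖ := ⟨_, rfl⟩
  have hcont : ∀ m : ℕ, Continuous fun t : UnitAddCircle =>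
      (if m = 0 then (1 : ℝ) else 2) * c ^ m * (e t ^ m * fc p m).re := fun m =>
    continuous_const.mul (Complex.continuous_re.comp ((a12_cont_epow m).mul continuous_const))
  have hb : ∀ (m : ℕ) (t : UnitAddCircle),
      ‖(if m = 0 then (1 : ℝ) else 2) * c ^ m * (e t ^ m * fc p m).re‖ ≤ 2 * c ^ m * A := by
    intro m t
    have h3 : |(if m = 0 then (1 : ℝ) else 2)| ≤ 2 := by split_ifs <;> norm_num
    have h4 : 0 ≤ c ^ m := pow_nonneg h0 m
    rw [Real.norm_eq_abs, abs_mul, abs_mul, abs_of_nonneg h4, hA]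
    have h5 := a12_re_le (p := p) m t
    have h6 : 0 ≤ |(e t ^ m * fc p m).re| := abs_nonneg _
    exact mul_le_mul (mul_le_mul_of_nonneg_right h3 h4) h5 h6 (by positivity)
  have hF : ∀ m : ℕ, Integrable fun t : UnitAddCircle =>
      μ t * ((if m = 0 then (1 : ℝ) else 2) * c ^ m * (e t ^ m * fc p m).re) := fun m =>
    hμ.mul_bdd (hcont m).aestronglyMeasurable (Filter.Eventually.of_forall (hb m))
  have hsum : Summable fun m : ℕ => ∫ t : UnitAddCircle,
      ‖μ t * ((if m = 0 then (1 : ℝ) else 2) * c ^ m * (e t ^ m * fc p m).re)‖ := by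
    refine Summable.of_nonneg_of_le (fun m => integral_nonneg fun s => norm_nonneg _)
      (fun m => ?_) (a12_geo h0 h1 (A * ∫ t : UnitAddCircle, ‖μ t‖))
    have h2 : 2 * c ^ m * (A * ∫ t : UnitAddCircle, ‖μ t‖) =
        ∫ t : UnitAddCircle, ‖μ t‖ * (2 * c ^ m * A) := by
      rw [integral_mul_const]
      ring
    rw [h2]
    refine integral_mono (hF m).norm (hμ.norm.mul_const _) fun t => ?_
    simp only []
    rw [norm_mul]
    exact mul_le_mul_of_nonneg_left (hb m t) (norm_nonneg _)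
  have key := hasSum_integral_of_summable_integral_norm hF hsum
  have h2 : ∀ m : ℕ, (∫ t : UnitAddCircle,
      μ t * ((if m = 0 then (1 : ℝ) else 2) * c ^ m * (e t ^ m * fc p m).re)) =
      (if m = 0 then 1 else 2) * c ^ m * ((starRingEnd ℂ (fc μ m)) * fc p m).re := by
    intro m
    have h3 : (starRingEnd ℂ (fc μ m)) = ∫ t : UnitAddCircle, (μ t : ℂ) * e t ^ m := by
      unfold fc
      rw [← integral_conj]
      refine integral_congr_ae (Filter.Eventually.of_forall fun t => ?_)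
      simp [map_mul, map_pow]
    have h4 : Integrable fun t : UnitAddCircle => (μ t : ℂ) * e t ^ m * fc p m :=
      (a12_int_mul hμ (a12_cont_epow m) fun t => by rw [norm_pow, norm_e, one_pow]).mul_const _
    rw [h3, ← integral_mul_const]
    have h5 := integral_re h4
    simp only [RCLike.re_eq_complex_re] at h5
    rw [← h5, ← integral_const_mul]
    refine integral_congr_ae (Filter.Eventually.of_forall fun t => ?_)
    simp only []
    rw [mul_assoc (μ t : ℂ), Complex.re_ofReal_mul]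
    ring
  have h3 : (∫ t : UnitAddCircle, ∑' m : ℕ,
      μ t * ((if m = 0 then (1 : ℝ) else 2) * c ^ m * (e t ^ m * fc p m).re)) =
      ∫ t : UnitAddCircle, μ t * PP c p t := by
    refine integral_congr_ae (Filter.Eventually.of_forall fun t => ?_)
    simp only []
    rw [tsum_mul_left, (a12_series h0 h1 hp t).tsum_eq]
  rw [h3] at key
  simp only [h2] at key
  exact key

/-! ### The kernel -/

section kernel

variable (q : Polynomial ℂ) {r : ℝ}

theorem a12_r (hr : 0 < r) (hr1 : r ≤ 1 / 2) : 0 ≤ (1 - r) ^ 2 ∧ (1 - r) ^ 2 < 1 := by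
  constructor
  · positivity
  · nlinarith

theorem a12_pi_cont (hr : 0 < r) (hr1 : r ≤ 1 / 2) : Continuous (pi' r q) :=
  (continuous_nu (by linarith) (by linarith) q).min continuous_const

theorem a12_pi_nonneg (hr : 0 < r) (hr1 : r ≤ 1 / 2) (s : UnitAddCircle) : 0 ≤ pi' r q s :=
  le_min (nu_nonneg (by linarith) (by linarith) q s) (by positivity)

theorem a12_Kq (t : UnitAddCircle) : Kq r q t = r * PP ((1 - r) ^ 2) (pi' r q) t := by
  unfold Kq PP
  congr 1
  refine integral_congr_ae (Filter.Eventually.of_forall fun s => ?_)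
  simp only []
  rw [mul_comm]

theorem Kq_nonneg (hr : 0 < r) (hr1 : r ≤ 1 / 2) (t : UnitAddCircle) : 0 ≤ Kq r q t := by
  rw [a12_Kq]
  exact mul_nonneg hr.le (PP_nonneg (a12_r hr hr1).1 (a12_r hr hr1).2 (a12_pi_nonneg q hr hr1) t)

theorem Kq_le_one (hr : 0 < r) (hr1 : r ≤ 1 / 2) (t : UnitAddCircle) : Kq r q t ≤ 1 := by
  rw [a12_Kq]
  obtain ⟨h0, h1⟩ := a12_r hr hr1
  have hc : Continuous fun s : UnitAddCircle => PK ((((1 - r) ^ 2 : ℝ) : ℂ) * e (t - s)) :=
    (a12_contPK h0 h1).comp (continuous_const.sub continuous_id)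
  have h2 : PP ((1 - r) ^ 2) (pi' r q) t ≤
      ∫ s : UnitAddCircle, (1 / r) * PK ((((1 - r) ^ 2 : ℝ) : ℂ) * e (t - s)) := by
    refine integral_mono (a12_int ((a12_pi_cont q hr hr1).mul hc)) (a12_int (continuous_const.mul hc))
      fun s => ?_
    exact mul_le_mul_of_nonneg_right (min_le_right _ _) (a12_pos h0 h1 _).le
  rw [integral_const_mul, a12_one h0 h1, mul_one] at h2
  calc r * PP ((1 - r) ^ 2) (pi' r q) t ≤ r * (1 / r) := mul_le_mul_of_nonneg_left h2 hr.le
    _ = 1 := by field_simp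

theorem integral_Kq_le (hr : 0 < r) (hr1 : r ≤ 1 / 2) :
    ∫ t : UnitAddCircle, Kq r q t ≤ r * Multiset.card q.roots := by
  obtain ⟨h0, h1⟩ := a12_r hr hr1
  have h2 : ∫ t : UnitAddCircle, Kq r q t = r * ∫ t : UnitAddCircle, ∫ s : UnitAddCircle,
      pi' r q s * PK ((((1 - r) ^ 2 : ℝ) : ℂ) * e (t - s)) := by
    rw [← integral_const_mul]
    exact integral_congr_ae (Filter.Eventually.of_forall fun t => a12_Kq q t)
  have h3 : (∫ t : UnitAddCircle, ∫ s : UnitAddCircle,
      pi' r q s * PK ((((1 - r) ^ 2 : ℝ) : ℂ) * e (t - s))) =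
      ∫ s : UnitAddCircle, ∫ t : UnitAddCircle,
        pi' r q s * PK ((((1 - r) ^ 2 : ℝ) : ℂ) * e (t - s)) := by
    refine integral_integral_swap (a12_int ?_)
    exact ((a12_pi_cont q hr hr1).comp continuous_snd).mul (a12_cont2 h0 h1)
  have h4 : (∫ s : UnitAddCircle, ∫ t : UnitAddCircle,
      pi' r q s * PK ((((1 - r) ^ 2 : ℝ) : ℂ) * e (t - s))) = ∫ s : UnitAddCircle, pi' r q s := by
    refine integral_congr_ae (Filter.Eventually.of_forall fun s => ?_)
    simp only []
    rw [integral_const_mul, a12_one' h0 h1, mul_one]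
  rw [h2, h3, h4]
  refine mul_le_mul_of_nonneg_left ?_ hr.le
  rw [← integral_nu (ρ := 1 - r) (by linarith) (by linarith) q]
  exact integral_mono (a12_int (a12_pi_cont q hr hr1))
    (a12_int (continuous_nu (by linarith) (by linarith) q)) fun s => min_le_left _ _

theorem Tq_mu {b : ℝ} (hr : 0 < r) (hr1 : r ≤ 1 / 2) (hb0 : 0 ≤ b)
    (hb1 : b ≤ 1) {μ : UnitAddCircle → ℝ} (hμ : Integrable μ) (hμ0 : ∀ᵐ t, 0 ≤ μ t) :
    Tq (1 - r) b μ (pi' r q) ≤ (1 / r) * ∫ t : UnitAddCircle, μ t * Kq r q t := by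
  obtain ⟨h0, h1⟩ := a12_r hr hr1
  have hp := a12_pi_cont q hr hr1
  have h0' : 0 ≤ (1 - r) ^ 2 * b := mul_nonneg h0 hb0
  have h1' : (1 - r) ^ 2 * b < 1 := by nlinarith
  have k1 := a12_pair h0 h1 hp hμ
  have k2 := a12_pair h0' h1' hp hμ
  have k3 := (k1.sub k2).tsum_eq
  have h2 : Tq (1 - r) b μ (pi' r q) =
      (∫ t : UnitAddCircle, μ t * PP ((1 - r) ^ 2) (pi' r q) t) -
        ∫ t : UnitAddCircle, μ t * PP ((1 - r) ^ 2 * b) (pi' r q) t := by
    rw [← k3]
    unfold Tq
    refine tsum_congr fun m => ?_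
    by_cases hm : m = 0
    · subst hm
      simp
    · simp only [hm, if_false]
      rw [mul_pow, ← pow_mul]
      ring
  have h3 : 0 ≤ ∫ t : UnitAddCircle, μ t * PP ((1 - r) ^ 2 * b) (pi' r q) t := by
    refine integral_nonneg_of_ae ?_
    filter_upwards [hμ0] with t ht
    exact mul_nonneg ht (PP_nonneg h0' h1' (a12_pi_nonneg q hr hr1) t)
  have h4 : (1 / r) * ∫ t : UnitAddCircle, μ t * Kq r q t =
      ∫ t : UnitAddCircle, μ t * PP ((1 - r) ^ 2) (pi' r q) t := by
    rw [← integral_const_mul]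
    refine integral_congr_ae (Filter.Eventually.of_forall fun t => ?_)
    simp only []
    rw [a12_Kq]
    field_simp
  rw [h2, h4]
  linarith

end kernel

end CP
end Pool.Agent.MP_44c6d5_nt
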