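import Mathlib
import Pool.Agent.MP_44c6d5_nt.CP.Def

namespace Pool.Agent.MP_44c6d5_nt
namespace CP

open MeasureTheory Real

private theorem A4_fc_bound {f : UnitAddCircle → ℝ} (m : ℕ) :
    ‖fc f m‖ ≤ ∫ t : UnitAddCircle, |f t| := by
  unfold fc
  refine (norm_integral_le_integral_norm _).trans (le_of_eq ?_)
  refine integral_congr_ae (Filter.Eventually.of_forall fun t => ?_)
  simp only [norm_mul, norm_pow, RCLike.norm_conj, norm_e, one_pow, mul_one,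
    Complex.norm_real, Real.norm_eq_abs]

private theorem A4_real {ρ b U P c m : ℝ} (hρ0 : 0 ≤ ρ) (hρ1 : ρ ≤ 1) (hb0 : 0 ≤ b) (hb1 : b ≤ 1)
    (hm : 0 < m) (hU : 0 ≤ U) (hP : 0 ≤ P) (hc : |c| ≤ U * P) :
    -(2 * (ρ * ρ) * b * c) ≤ 4 * m * ρ * U ^ 2 / 2 + ρ * b / m * P ^ 2 / 2 := by
  have h1 : -c ≤ U * P := (neg_le_abs c).trans hc
  have h2 : 0 ≤ ρ * ρ * b := by positivity
  have h3 : -(2 * (ρ * ρ) * b * c) ≤ 2 * (ρ * ρ * b) * (U * P) := by nlinarith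
  have h4 : 2 * (ρ * ρ * b) * (U * P) ≤ 2 * (ρ * b) * (U * P) := by
    have : 0 ≤ (ρ * b) * (U * P) := by positivity
    nlinarith [mul_nonneg this (sub_nonneg.2 hρ1)]
  have h5 : 2 * (ρ * b) * (U * P) ≤ 2 * m * ρ * U ^ 2 + ρ * b / m * P ^ 2 / 2 := by
    have h6 : 0 ≤ ρ * (b / (2 * m)) * (2 * m * U - P) ^ 2 := by positivity
    have h7 : ρ * (b / (2 * m)) * (2 * m * U - P) ^ 2 =
        2 * m * ρ * b * U ^ 2 - 2 * (ρ * b) * (U * P) + ρ * b / m * P ^ 2 / 2 := by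
      field_simp
      ring
    have h8 : 2 * m * ρ * b * U ^ 2 ≤ 2 * m * ρ * U ^ 2 := by
      have : 0 ≤ m * ρ * U ^ 2 := by positivity
      nlinarith [mul_nonneg this (sub_nonneg.2 hb1)]
    linarith
  linarith

-- [A4]
theorem psd {u p : UnitAddCircle → ℝ} (hu : Integrable u) (hp : Integrable p) {ρ b : ℝ}
    (h0 : 0 < ρ) (h1 : ρ < 1) (hb0 : 0 ≤ b) (hb1 : b ≤ 1) :
    -(Tq ρ b u p) ≤ Bq ρ u u / 2 + Eq ρ b p / 2 := by
  have _ := hu
  have _ := hp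
  set Cu : ℝ := ∫ t : UnitAddCircle, |u t| with hCu
  set Cp : ℝ := ∫ t : UnitAddCircle, |p t| with hCp
  have hCu0 : 0 ≤ Cu := integral_nonneg fun t => abs_nonneg _
  have hCp0 : 0 ≤ Cp := integral_nonneg fun t => abs_nonneg _
  have hbu : ∀ m, ‖fc u m‖ ≤ Cu := fun m => A4_fc_bound m
  have hbp : ∀ m, ‖fc p m‖ ≤ Cp := fun m => A4_fc_bound m
  have hbm : ∀ m : ℕ, 0 ≤ 1 - b ^ m ∧ 1 - b ^ m ≤ 1 := fun m =>
    ⟨sub_nonneg.2 (pow_le_one₀ hb0 hb1), by linarith [pow_nonneg hb0 m]⟩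
  have hρm : ∀ m : ℕ, 0 ≤ ρ ^ m ∧ ρ ^ m ≤ 1 := fun m => ⟨pow_nonneg h0.le m, pow_le_one₀ h0.le h1.le⟩
  have hre : ∀ m, |((starRingEnd ℂ (fc u m)) * fc p m).re| ≤ ‖fc u m‖ * ‖fc p m‖ := fun m => by
    refine (Complex.abs_re_le_norm _).trans (le_of_eq ?_)
    rw [norm_mul, RCLike.norm_conj]
  have hself : ∀ m, ((starRingEnd ℂ (fc u m)) * fc u m).re = ‖fc u m‖ ^ 2 := fun m => by
    rw [mul_comm, Complex.mul_conj, Complex.ofReal_re, Complex.normSq_eq_norm_sq]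
  have hsg : Summable fun m : ℕ => ρ ^ m := summable_geometric_of_lt_one h0.le h1
  have hsg1 : Summable fun m : ℕ => (m : ℝ) * ρ ^ m := by
    have := summable_pow_mul_geometric_of_norm_lt_one (R := ℝ) 1
      (r := ρ) (by rwa [Real.norm_of_nonneg h0.le])
    simpa using this
  -- summability
  have sT : Summable fun m : ℕ =>
      2 * ρ ^ (2 * m) * (1 - b ^ m) * ((starRingEnd ℂ (fc u m)) * fc p m).re := by
    refine Summable.of_norm_bounded (g := fun m : ℕ => 2 * (Cu * Cp) * ρ ^ m) (hsg.mul_left _) ?_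
    intro m
    rw [Real.norm_eq_abs, abs_mul]
    have e1 : |2 * ρ ^ (2 * m) * (1 - b ^ m)| ≤ 2 * ρ ^ m := by
      have e2 : 0 ≤ 2 * ρ ^ (2 * m) * (1 - b ^ m) :=
        mul_nonneg (mul_nonneg (by norm_num) (pow_nonneg h0.le _)) (hbm m).1
      rw [abs_of_nonneg e2]
      have e3 : ρ ^ (2 * m) = ρ ^ m * ρ ^ m := by rw [two_mul, pow_add]
      rw [e3]
      have h5 := hρm m
      have h6 := hbm m
      have h7 : ρ ^ m * ρ ^ m ≤ ρ ^ m := by nlinarith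
      have h8 : 0 ≤ ρ ^ m * ρ ^ m := mul_nonneg h5.1 h5.1
      nlinarith
    have e4 : |((starRingEnd ℂ (fc u m)) * fc p m).re| ≤ Cu * Cp :=
      (hre m).trans (mul_le_mul (hbu m) (hbp m) (norm_nonneg _) hCu0)
    calc |2 * ρ ^ (2 * m) * (1 - b ^ m)| * |((starRingEnd ℂ (fc u m)) * fc p m).re|
        ≤ (2 * ρ ^ m) * (Cu * Cp) := mul_le_mul e1 e4 (abs_nonneg _) (by linarith [(hρm m).1])
      _ = 2 * (Cu * Cp) * ρ ^ m := by ring
  have sB : Summable fun m : ℕ => 4 * (m : ℝ) * ρ ^ m * ((starRingEnd ℂ (fc u m)) * fc u m).re := by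
    refine Summable.of_norm_bounded (g := fun m : ℕ => 4 * Cu ^ 2 * ((m : ℝ) * ρ ^ m))
      (hsg1.mul_left _) ?_
    intro m
    rw [hself m, Real.norm_eq_abs]
    have e1 : 0 ≤ 4 * (m : ℝ) * ρ ^ m := by
      have := (hρm m).1
      positivity
    rw [abs_of_nonneg (mul_nonneg e1 (by positivity))]
    have e2 : ‖fc u m‖ ^ 2 ≤ Cu ^ 2 := pow_le_pow_left₀ (norm_nonneg _) (hbu m) 2
    calc 4 * (m : ℝ) * ρ ^ m * ‖fc u m‖ ^ 2 ≤ 4 * (m : ℝ) * ρ ^ m * Cu ^ 2 :=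
          mul_le_mul_of_nonneg_left e2 e1
      _ = 4 * Cu ^ 2 * ((m : ℝ) * ρ ^ m) := by ring
  have sE : Summable fun m : ℕ => ρ ^ m * (1 - b ^ m) / (m : ℝ) * ‖fc p m‖ ^ 2 := by
    refine Summable.of_norm_bounded (g := fun m : ℕ => Cp ^ 2 * ρ ^ m) (hsg.mul_left _) ?_
    intro m
    have e0 : 0 ≤ ρ ^ m * (1 - b ^ m) / (m : ℝ) :=
      div_nonneg (mul_nonneg (hρm m).1 (hbm m).1) (Nat.cast_nonneg m)
    rw [Real.norm_eq_abs, abs_of_nonneg (mul_nonneg e0 (by positivity))]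
    have e1 : ρ ^ m * (1 - b ^ m) / (m : ℝ) ≤ ρ ^ m := by
      rcases Nat.eq_zero_or_pos m with hm | hm
      · subst hm
        simp
      · have hm1 : (1 : ℝ) ≤ m := by exact_mod_cast hm
        rw [div_le_iff₀ (by linarith)]
        have h5 := hρm m
        have h6 := hbm m
        nlinarith [mul_nonneg h5.1 (sub_nonneg.2 h6.2), mul_nonneg h5.1 (sub_nonneg.2 hm1)]
    have e2 : ‖fc p m‖ ^ 2 ≤ Cp ^ 2 := pow_le_pow_left₀ (norm_nonneg _) (hbp m) 2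
    calc ρ ^ m * (1 - b ^ m) / (m : ℝ) * ‖fc p m‖ ^ 2 ≤ ρ ^ m * Cp ^ 2 :=
          mul_le_mul e1 e2 (by positivity) (hρm m).1
      _ = Cp ^ 2 * ρ ^ m := by ring
  unfold Tq Bq Eq
  rw [← tsum_neg, ← tsum_div_const, ← tsum_div_const, ← (sB.div_const 2).tsum_add (sE.div_const 2)]
  refine sT.neg.tsum_le_tsum (fun m => ?_) ((sB.div_const 2).add (sE.div_const 2))
  rw [hself m]
  rcases Nat.eq_zero_or_pos m with hm | hm
  · subst hm
    simp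
  · have hm1 : (0 : ℝ) < m := by exact_mod_cast hm
    have e3 : ρ ^ (2 * m) = ρ ^ m * ρ ^ m := by rw [two_mul, pow_add]
    rw [e3]
    exact A4_real (hρm m).1 (hρm m).2 (hbm m).1 (hbm m).2 hm1 (norm_nonneg _) (norm_nonneg _)
      (hre m)

end CP
end Pool.Agent.MP_44c6d5_nt
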