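import Mathlib
import Pool.Agent.MP_44c6d5_nt.CP.Def
import Pool.Agent.MP_44c6d5_nt.CP.A2
import Pool.Agent.MP_44c6d5_nt.CP.A4
import Pool.Agent.MP_44c6d5_nt.CP.A6
import Pool.Agent.MP_44c6d5_nt.CP.A8
import Pool.Agent.MP_44c6d5_nt.CP.A9
import Pool.Agent.MP_44c6d5_nt.CP.A10
import Pool.Agent.MP_44c6d5_nt.CP.A11
import Pool.Agent.MP_44c6d5_nt.CP.A12

set_option autoImplicit false

namespace Pool.Agent.MP_44c6d5_nt
namespace CP

open MeasureTheory Real

private theorem od_int_fc {f : UnitAddCircle → ℝ} (hf : Integrable f) (m : ℕ) :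
    Integrable fun t : UnitAddCircle => (f t : ℂ) * (starRingEnd ℂ (e t)) ^ m := by
  refine hf.norm.mono' ?_ ?_
  · exact hf.ofReal.aestronglyMeasurable.mul
      ((Complex.continuous_conj.comp continuous_e).pow m).aestronglyMeasurable
  · refine Filter.Eventually.of_forall fun t => ?_
    simp [norm_e]

private theorem od_norm_fc_le {f : UnitAddCircle → ℝ} (m : ℕ) :
    ‖fc f m‖ ≤ ∫ t, |f t| := by
  unfold fc
  refine (norm_integral_le_integral_norm _).trans (le_of_eq ?_)
  refine integral_congr_ae (Filter.Eventually.of_forall fun t => ?_)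
  simp [norm_e]

private theorem od_summable {f p : UnitAddCircle → ℝ} {ρ b : ℝ}
    (h0 : 0 < ρ) (h1 : ρ < 1) (hb0 : 0 ≤ b) (hb1 : b ≤ 1) :
    Summable fun m : ℕ => 2 * ρ ^ (2 * m) * (1 - b ^ m) *
      ((starRingEnd ℂ (fc f m)) * fc p m).re := by
  have hg : Summable fun m : ℕ => (2 * ((∫ t, |f t|) * ∫ t, |p t|)) * (ρ ^ 2) ^ m := by
    refine Summable.mul_left _ (summable_geometric_of_lt_one (by positivity) ?_)
    nlinarith
  refine Summable.of_norm_bounded hg fun m => ?_
  have hbm0 : 0 ≤ b ^ m := pow_nonneg hb0 m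
  have hbm1 : b ^ m ≤ 1 := pow_le_one₀ hb0 hb1
  have hre : |((starRingEnd ℂ (fc f m)) * fc p m).re| ≤ (∫ t, |f t|) * ∫ t, |p t| := by
    refine (Complex.abs_re_le_norm _).trans ?_
    rw [norm_mul, Complex.norm_conj]
    exact mul_le_mul (od_norm_fc_le m) (od_norm_fc_le m) (norm_nonneg _)
      (integral_nonneg fun t => abs_nonneg _)
  have hC : 0 ≤ (∫ t, |f t|) * ∫ t, |p t| := (abs_nonneg _).trans hre
  rw [Real.norm_eq_abs, abs_mul, abs_of_nonneg (by
    have : 0 ≤ 1 - b ^ m := by linarith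
    positivity)]
  have e1 : (2 : ℝ) * ρ ^ (2 * m) * (1 - b ^ m) ≤ 2 * (ρ ^ 2) ^ m := by
    rw [pow_mul]
    have : 0 ≤ (ρ ^ 2) ^ m := by positivity
    nlinarith
  calc 2 * ρ ^ (2 * m) * (1 - b ^ m) * |((starRingEnd ℂ (fc f m)) * fc p m).re|
      ≤ 2 * (ρ ^ 2) ^ m * ((∫ t, |f t|) * ∫ t, |p t|) :=
        mul_le_mul e1 hre (abs_nonneg _) (by positivity)
    _ = (2 * ((∫ t, |f t|) * ∫ t, |p t|)) * (ρ ^ 2) ^ m := by ring

private theorem od_Tq_add {u f g h p : UnitAddCircle → ℝ} (hf : Integrable f)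
    (hg : Integrable g) (hh : Integrable h) (hu : ∀ᵐ t, u t = f t + g t + h t) {ρ b : ℝ}
    (h0 : 0 < ρ) (h1 : ρ < 1) (hb0 : 0 ≤ b) (hb1 : b ≤ 1) :
    Tq ρ b u p = Tq ρ b f p + Tq ρ b g p + Tq ρ b h p := by
  have hfc : ∀ m : ℕ, fc u m = fc f m + fc g m + fc h m := by
    intro m
    have e1 : fc u m = ∫ t : UnitAddCircle, ((f t : ℂ) * (starRingEnd ℂ (e t)) ^ m +
        (g t : ℂ) * (starRingEnd ℂ (e t)) ^ m + (h t : ℂ) * (starRingEnd ℂ (e t)) ^ m) := by
      unfold fc
      refine integral_congr_ae ?_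
      filter_upwards [hu] with t ht
      rw [ht]
      push_cast
      ring
    have i12 : Integrable fun t : UnitAddCircle => (f t : ℂ) * (starRingEnd ℂ (e t)) ^ m +
        (g t : ℂ) * (starRingEnd ℂ (e t)) ^ m := (od_int_fc hf m).add (od_int_fc hg m)
    rw [e1, integral_add i12 (od_int_fc hh m), integral_add (od_int_fc hf m) (od_int_fc hg m)]
    rfl
  unfold Tq
  rw [← (od_summable (f := f) (p := p) h0 h1 hb0 hb1).tsum_add
      (od_summable (f := g) (p := p) h0 h1 hb0 hb1),
    ← ((od_summable (f := f) (p := p) h0 h1 hb0 hb1).add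
      (od_summable (f := g) (p := p) h0 h1 hb0 hb1)).tsum_add
      (od_summable (f := h) (p := p) h0 h1 hb0 hb1)]
  refine tsum_congr fun m => ?_
  rw [hfc m]
  simp only [map_add, add_mul, Complex.add_re]
  ring

private theorem od_ne_zero {w : ℂ} (hw : ‖w‖ < 1) : 1 - w ≠ 0 := by
  intro h
  have : w = 1 := (sub_eq_zero.mp h).symm
  rw [this, norm_one] at hw
  exact lt_irrefl _ hw

private theorem od_norm_mul {β : ℂ} (s : UnitAddCircle) : ‖β * e s‖ = ‖β‖ := by
  rw [norm_mul, norm_e, mul_one]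

private theorem od_cont_GK {β : ℂ} (hβ : ‖β‖ < 1) {b : ℝ} (hb0 : 0 ≤ b) (hb1 : b ≤ 1) :
    Continuous fun s : UnitAddCircle => GK b (β * e s) := by
  unfold GK
  have he := continuous_e
  refine Continuous.sub ?_ ?_
  · refine Continuous.log (by fun_prop) fun s => ?_
    refine norm_ne_zero_iff.mpr (od_ne_zero ?_)
    rw [norm_mul, od_norm_mul, Complex.norm_real, Real.norm_of_nonneg hb0]
    exact lt_of_le_of_lt (mul_le_of_le_one_left (norm_nonneg _) hb1) hβ
  · refine Continuous.log (by fun_prop) fun s => ?_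
    refine norm_ne_zero_iff.mpr (od_ne_zero ?_)
    rw [od_norm_mul]
    exact hβ

private theorem od_cont_PK {β : ℂ} (hβ : ‖β‖ < 1) :
    Continuous fun s : UnitAddCircle => PK (β * e s) := by
  unfold PK
  have he := continuous_e
  refine Complex.continuous_re.comp (Continuous.div (by fun_prop) (by fun_prop) fun s => ?_)
  exact od_ne_zero (by rw [od_norm_mul]; exact hβ)

private theorem od_integrable {f : UnitAddCircle → ℝ} (hf : Continuous f) : Integrable f :=
  hf.integrable_of_hasCompactSupport (HasCompactSupport.of_compactSpace f)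

private theorem od_sum_int (s : Multiset ℂ) (F : ℂ → UnitAddCircle → ℝ)
    (hF : ∀ z ∈ s, Integrable (F z)) :
    Integrable (fun t => (s.map fun z => F z t).sum) ∧
      ∫ t, (s.map fun z => F z t).sum = (s.map fun z => ∫ t, F z t).sum := by
  induction s using Multiset.induction_on with
  | empty => simp
  | cons a s ih =>
    obtain ⟨i1, i2⟩ := ih (fun z hz => hF z (Multiset.mem_cons_of_mem hz))
    have ha := hF a (Multiset.mem_cons_self a s)
    simp only [Multiset.map_cons, Multiset.sum_cons]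
    exact ⟨ha.add i1, by rw [integral_add ha i1, i2]⟩

/-- the one dimensional statement in terms of the degree -/
theorem OD {n : ℕ} (hn : 1 ≤ n) {τ : ℝ} (hτ0 : 0 < τ) (hτ : τ ≤ 1 / 4) {q q' : Polynomial ℂ}
    (hq : q ≠ 0) (hq' : q' ≠ 0) (hdeg : Multiset.card q.roots + Multiset.card q'.roots ≤ n)
    (hgood : (Multiset.card q.roots : ℝ) / 2 ≤
      Multiset.card (q.roots.filter fun z => 1 - τ / n ≤ ‖hat z‖))
    {u μ : UnitAddCircle → ℝ} (hu : Integrable u) (hμ : Integrable μ) (hμ0 : ∀ᵐ t, 0 ≤ μ t)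
    (hdec : ∀ᵐ t, u t = μ t + log ‖q.eval (e t)‖ + log ‖q'.eval (e t)‖) :
    (Multiset.card q.roots : ℝ) * (log (1 / (4 * τ)) / 64 - 1) ≤
      2 * (n / τ) * (∫ t : UnitAddCircle, μ t * Kq (τ / n) q t) + Bq (1 - τ / n) u u := by
  have hn' : (1 : ℝ) ≤ n := by exact_mod_cast hn
  have hnpos : (0 : ℝ) < n := by linarith
  set r : ℝ := τ / n with hrdef
  set r' : ℝ := 1 / (2 * n) with hr'def
  have hr : 0 < r := by positivity
  have hrτ : r ≤ τ := div_le_self hτ0.le hn'
  have hr1 : r ≤ 1 / 2 := by linarith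
  have hr'0 : 0 ≤ r' := by positivity
  have hr'1 : r' ≤ 1 / 2 := by
    rw [hr'def, div_le_div_iff₀ (by positivity) (by norm_num)]
    linarith
  have hb0 : 0 ≤ 1 - r' := by linarith
  have hb1 : 1 - r' ≤ 1 := by linarith
  have hρ0 : 0 < 1 - r := by linarith
  have hρ1 : 1 - r < 1 := by linarith
  have hρ2 : (1 - r) ^ 2 < 1 := by nlinarith
  set p : UnitAddCircle → ℝ := pi' r q with hpdef
  have hnuc : Continuous (nu (1 - r) q) := continuous_nu hρ0.le hρ1 q
  have hpc : Continuous p := hnuc.min continuous_const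
  have hp0 : ∀ s, 0 ≤ p s := fun s => le_min (nu_nonneg hρ0.le hρ1 q s) (by positivity)
  have hple : ∀ s, p s ≤ nu (1 - r) q s := fun s => min_le_left _ _
  have hpi : Integrable p := od_integrable hpc
  have hβ : ∀ z : ℂ, ‖(((1 - r) ^ 2 : ℝ) : ℂ) * (starRingEnd ℂ (hat z))‖ < 1 := by
    intro z
    rw [norm_mul, Complex.norm_conj, Complex.norm_real, Real.norm_of_nonneg (by positivity)]
    exact lt_of_le_of_lt (mul_le_of_le_one_right (by positivity) (norm_hat_le z)) hρ2
  have hβ' : ∀ z : ℂ, ‖((1 - r : ℝ) : ℂ) * (starRingEnd ℂ (hat z))‖ < 1 := by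
    intro z
    rw [norm_mul, Complex.norm_conj, Complex.norm_real, Real.norm_of_nonneg hρ0.le]
    exact lt_of_le_of_lt (mul_le_of_le_one_right hρ0.le (norm_hat_le z)) hρ1
  set D : ℝ := ∫ s, p s with hD
  set X : ℝ := (q.roots.map fun z => ∫ s : UnitAddCircle, p s *
        GK (1 - r') (((1 - r) ^ 2 : ℝ) * (starRingEnd ℂ (hat z)) * e s)).sum with hX
  set X' : ℝ := (q'.roots.map fun z => ∫ s : UnitAddCircle, p s *
        GK (1 - r') (((1 - r) ^ 2 : ℝ) * (starRingEnd ℂ (hat z)) * e s)).sum with hX'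
  have hD0 : 0 ≤ D := integral_nonneg hp0
  have hDc : D ≤ Multiset.card q.roots := by
    rw [← integral_nu hρ0.le hρ1 q]
    exact integral_mono hpi (od_integrable hnuc) hple
  -- the identity for `Tq`
  have hT : Tq (1 - r) (1 - r') u p = Tq (1 - r) (1 - r') μ p - X - X' := by
    rw [od_Tq_add hμ (integrable_log_norm_e q) (integrable_log_norm_e q') hdec hρ0 hρ1 hb0 hb1,
      Tq_poly hq hpc hρ0 hρ1 hb0 hb1, Tq_poly hq' hpc hρ0 hρ1 hb0 hb1]
    ring
  have h12 : Tq (1 - r) (1 - r') μ p ≤ (1 / r) * ∫ t : UnitAddCircle, μ t * Kq r q t :=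
    Tq_mu q hr hr1 hb0 hb1 hμ hμ0
  have h4 := psd hu hpi hρ0 hρ1 hb0 hb1
  have h10 : Eq (1 - r) (1 - r') p ≤ X + r' * (Multiset.card q.roots) * D :=
    Eq_le q hr hr1 hr'0 hr'1
  -- lower bound for the second factor
  have hlow' : -(r' * (Multiset.card q'.roots) * D) ≤ X' := by
    have h1 : ∀ z ∈ q'.roots, (-r') * D ≤ ∫ s : UnitAddCircle, p s *
        GK (1 - r') (((1 - r) ^ 2 : ℝ) * (starRingEnd ℂ (hat z)) * e s) := by
      intro z _
      rw [hD, ← integral_const_mul]
      refine integral_mono (hpi.const_mul _)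
        (od_integrable (hpc.mul (od_cont_GK (hβ z) hb0 hb1))) fun s => ?_
      have h2 : -r' ≤ GK (1 - r') (((1 - r) ^ 2 : ℝ) * (starRingEnd ℂ (hat z)) * e s) :=
        GK_lower0 (by rw [od_norm_mul]; exact hβ z) hr'0 hr'1
      have h3 := mul_le_mul_of_nonneg_left h2 (hp0 s)
      calc -r' * p s = p s * -r' := by ring
        _ ≤ _ := h3
    have h2 := Multiset.sum_map_le_sum_map _ _ h1
    rw [Multiset.map_const', Multiset.sum_replicate, nsmul_eq_mul] at h2
    calc -(r' * (Multiset.card q'.roots) * D) = (Multiset.card q'.roots : ℝ) * (-r' * D) := by ring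
      _ ≤ X' := h2
  -- lower bound for the first factor
  set Lg : ℝ := log ((2 * r + r') / (2 * r)) with hLg
  have hlow : r / 4 * Lg * (∫ s : UnitAddCircle, nu (1 - r) q s * p s) -
      r' * (Multiset.card q.roots) * D ≤ X := by
    have hFi : ∀ z ∈ q.roots, Integrable fun s : UnitAddCircle =>
        p s * PK (((1 - r : ℝ) : ℂ) * (starRingEnd ℂ (hat z)) * e s) := fun z _ =>
      od_integrable (hpc.mul (od_cont_PK (hβ' z)))
    obtain ⟨_, hsum⟩ := od_sum_int q.roots
      (fun z s => p s * PK (((1 - r : ℝ) : ℂ) * (starRingEnd ℂ (hat z)) * e s)) hFi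
    have h1 : ∀ z ∈ q.roots, r / 4 * Lg * (∫ s : UnitAddCircle,
        p s * PK (((1 - r : ℝ) : ℂ) * (starRingEnd ℂ (hat z)) * e s)) + (-r') * D ≤
        ∫ s : UnitAddCircle, p s *
        GK (1 - r') (((1 - r) ^ 2 : ℝ) * (starRingEnd ℂ (hat z)) * e s) := by
      intro z hz
      rw [hD, ← integral_const_mul, ← integral_const_mul,
        ← integral_add ((hFi z hz).const_mul _) (hpi.const_mul _)]
      refine integral_mono (((hFi z hz).const_mul _).add (hpi.const_mul _))
        (od_integrable (hpc.mul (od_cont_GK (hβ z) hb0 hb1))) fun s => ?_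
      have hw : ‖(starRingEnd ℂ (hat z)) * e s‖ ≤ 1 := by
        rw [od_norm_mul, Complex.norm_conj]
        exact norm_hat_le z
      have h2 := GK_lower hw hr hr1 hr'0 hr'1
      rw [← mul_assoc, ← mul_assoc] at h2
      have h3 := mul_le_mul_of_nonneg_left h2 (hp0 s)
      refine le_trans (le_of_eq ?_) h3
      simp only [hLg]
      ring
    have h2 := Multiset.sum_map_le_sum_map _ _ h1
    rw [Multiset.sum_map_add, Multiset.sum_map_mul_left, Multiset.map_const',
      Multiset.sum_replicate, nsmul_eq_mul, ← hsum] at h2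
    have h3 : (∫ s : UnitAddCircle, nu (1 - r) q s * p s) = ∫ s : UnitAddCircle,
        (q.roots.map fun z =>
          p s * PK (((1 - r : ℝ) : ℂ) * (starRingEnd ℂ (hat z)) * e s)).sum := by
      refine integral_congr_ae (Filter.Eventually.of_forall fun s => ?_)
      simp only [Multiset.sum_map_mul_left, nu]
      ring
    rw [h3]
    refine le_trans (le_of_eq ?_) h2
    ring
  -- the logarithm
  have hτlog : 0 ≤ log (1 / (4 * τ)) := by
    apply Real.log_nonneg
    rw [le_div_iff₀ (by positivity)]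
    linarith
  have hLL : log (1 / (4 * τ)) ≤ Lg := by
    rw [hLg]
    apply Real.log_le_log (by positivity)
    have e1 : (2 * r + r') / (2 * r) = 1 + 1 / (4 * τ) := by
      rw [hrdef, hr'def]
      field_simp
      ring
    rw [e1]
    linarith
  have h11 := nu_pi_lower q hr hr1 hgood
  have hcc : (0 : ℝ) ≤ Multiset.card q.roots := by positivity
  have hmain : (Multiset.card q.roots : ℝ) * log (1 / (4 * τ)) / 64 ≤
      r / 4 * Lg * (∫ s : UnitAddCircle, nu (1 - r) q s * p s) := by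
    have h1 : r / 4 * Lg * ((Multiset.card q.roots : ℝ) / (16 * r)) ≤
        r / 4 * Lg * (∫ s : UnitAddCircle, nu (1 - r) q s * p s) :=
      mul_le_mul_of_nonneg_left h11 (mul_nonneg (by positivity) (hτlog.trans hLL))
    refine le_trans ?_ h1
    have h2 : r / 4 * Lg * ((Multiset.card q.roots : ℝ) / (16 * r)) =
        (Multiset.card q.roots : ℝ) * Lg / 64 := by
      field_simp
      ring
    rw [h2]
    have := mul_le_mul_of_nonneg_left hLL hcc
    linarith
  have hrr : r' * ((Multiset.card q.roots : ℝ) + Multiset.card q'.roots) * D ≤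
      (Multiset.card q.roots : ℝ) / 2 := by
    have h1 : ((Multiset.card q.roots : ℝ) + Multiset.card q'.roots) ≤ n := by
      exact_mod_cast hdeg
    have h2 : r' * ((Multiset.card q.roots : ℝ) + Multiset.card q'.roots) ≤ 1 / 2 := by
      calc r' * ((Multiset.card q.roots : ℝ) + Multiset.card q'.roots) ≤ r' * n :=
            mul_le_mul_of_nonneg_left h1 hr'0
        _ = 1 / 2 := by rw [hr'def]; field_simp
    calc _ ≤ 1 / 2 * D := mul_le_mul_of_nonneg_right h2 hD0
      _ ≤ _ := by linarith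
  have h1r : 1 / r = n / τ := by
    rw [hrdef, one_div_div]
  rw [h1r] at h12
  have hsplit : r' * ((Multiset.card q.roots : ℝ) + Multiset.card q'.roots) * D =
      r' * (Multiset.card q.roots) * D + r' * (Multiset.card q'.roots) * D := by ring
  rw [hsplit] at hrr
  rw [hT] at h4
  have hfin : 2 * ((n : ℝ) / τ) * (∫ t : UnitAddCircle, μ t * Kq r q t) =
      2 * ((n : ℝ) / τ * ∫ t : UnitAddCircle, μ t * Kq r q t) := by ring
  have hgoal : (Multiset.card q.roots : ℝ) * (log (1 / (4 * τ)) / 64 - 1) =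
      (Multiset.card q.roots : ℝ) * log (1 / (4 * τ)) / 64 - Multiset.card q.roots := by ring
  rw [hfin, hgoal]
  linarith

end CP
end Pool.Agent.MP_44c6d5_nt
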