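import Mathlib
import Pool.Agent.MP_44c6d5_nt.CP.Def
import Pool.Agent.MP_44c6d5_nt.CP.A2

/-!
Row A15: most roots of a polynomial of small excess are close to the circle.
-/

namespace Pool.Agent.MP_44c6d5_nt
namespace CP

open MeasureTheory Real

theorem a15_norm_prod (s : Multiset ℂ) (h : ∀ z ∈ s, z ≠ 0) :
    log ‖s.prod‖ = (s.map fun z => log ‖z‖).sum := by
  induction s using Multiset.induction_on with
  | empty => simp
  | cons a s ih =>
    have ha : a ≠ 0 := h a (Multiset.mem_cons_self a s)
    have hs : ∀ z ∈ s, z ≠ 0 := fun z hz => h z (Multiset.mem_cons_of_mem hz)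
    have hp : s.prod ≠ 0 := Multiset.prod_ne_zero (fun h0 => hs 0 h0 rfl)
    rw [Multiset.prod_cons, norm_mul, Real.log_mul (norm_ne_zero_iff.mpr ha)
      (norm_ne_zero_iff.mpr hp), ih hs, Multiset.map_cons, Multiset.sum_cons]

theorem a15_sum_lower (s : Multiset ℂ) {r : ℝ} (hr : 0 < r) (hr1 : r < 1)
    (h : ∀ z ∈ s, z ≠ 0) :
    r * (Multiset.card s - Multiset.card (s.filter fun z => 1 - r ≤ ‖hat z‖)) ≤
      (s.map fun z => 2 * log (max 1 ‖z‖) - log ‖z‖).sum := by
  induction s using Multiset.induction_on with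
  | empty => simp
  | cons a s ih =>
    have ha : a ≠ 0 := h a (Multiset.mem_cons_self a s)
    have hs : ∀ z ∈ s, z ≠ 0 := fun z hz => h z (Multiset.mem_cons_of_mem hz)
    have ih' := ih hs
    rw [Multiset.map_cons, Multiset.sum_cons, Multiset.card_cons]
    have hpos := norm_pos_iff.mpr ha
    have hval : 2 * log (max 1 ‖a‖) - log ‖a‖ = -log ‖hat a‖ := by
      unfold hat
      split_ifs with h1
      · rw [max_eq_left h1, log_one]; ring
      · push Not at h1
        rw [max_eq_right h1.le, norm_inv, Complex.norm_conj, Real.log_inv]; ring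
    have hle1 : ‖hat a‖ ≤ 1 := by
      unfold hat
      split_ifs with h1
      · exact h1
      · push Not at h1
        rw [norm_inv, Complex.norm_conj]
        exact inv_le_one_of_one_le₀ h1.le
    have hpos' : 0 < ‖hat a‖ := by
      unfold hat
      split_ifs with h1
      · exact hpos
      · rw [norm_inv, Complex.norm_conj]; exact inv_pos.mpr hpos
    rw [hval]
    by_cases hb : 1 - r ≤ ‖hat a‖
    · rw [Multiset.filter_cons_of_pos (p := fun z => 1 - r ≤ ‖hat z‖) s hb, Multiset.card_cons]
      push_cast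
      have := Real.log_nonpos hpos'.le hle1
      linarith
    · rw [Multiset.filter_cons_of_neg (p := fun z => 1 - r ≤ ‖hat z‖) s hb]
      push Not at hb
      push_cast
      have h1 : r ≤ -log ‖hat a‖ := by
        have h2 := Real.log_le_sub_one_of_pos hpos'
        linarith
      linarith

-- [A15]
theorem good_roots {q : Polynomial ℂ} (hq : q ≠ 0) (h0 : q.coeff 0 ≠ 0) {r : ℝ} (hr : 0 < r)
    (hr1 : r < 1)
    (hs : 2 * (∫ t : UnitAddCircle, log ‖q.eval (e t)‖) - log ‖q.coeff 0‖ -
      log ‖q.leadingCoeff‖ ≤ r * (Multiset.card q.roots) / 2) :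
    (Multiset.card q.roots : ℝ) / 2 ≤
      Multiset.card (q.roots.filter fun z => 1 - r ≤ ‖hat z‖) := by
  classical
  have hlc : q.leadingCoeff ≠ 0 := Polynomial.leadingCoeff_ne_zero.mpr hq
  have hroot : ∀ z ∈ q.roots, z ≠ 0 := by
    rintro z hz rfl
    have := (Polynomial.mem_roots hq).mp hz
    rw [Polynomial.IsRoot, ← Polynomial.coeff_zero_eq_eval_zero] at this
    exact h0 this
  have hprod0 : q.roots.prod ≠ 0 := Multiset.prod_ne_zero (fun h => hroot 0 h rfl)
  have hcoeff : log ‖q.coeff 0‖ = log ‖q.leadingCoeff‖ + (q.roots.map fun z => log ‖z‖).sum := by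
    rw [(IsAlgClosed.splits q).coeff_zero_eq_leadingCoeff_mul_prod_roots, norm_mul, norm_mul,
      norm_pow, norm_neg, norm_one, one_pow, one_mul,
      Real.log_mul (norm_ne_zero_iff.mpr hlc) (norm_ne_zero_iff.mpr hprod0),
      a15_norm_prod _ hroot]
  rw [integral_poly hq, hcoeff] at hs
  have hsum : (q.roots.map fun z => 2 * log (max 1 ‖z‖) - log ‖z‖).sum =
      2 * (q.roots.map fun z => log (max 1 ‖z‖)).sum - (q.roots.map fun z => log ‖z‖).sum := by
    rw [Multiset.sum_map_sub, Multiset.sum_map_mul_left]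
  have hlow := a15_sum_lower q.roots hr hr1 hroot
  rw [hsum] at hlow
  have h1 : r * (Multiset.card q.roots -
      Multiset.card (q.roots.filter fun z => 1 - r ≤ ‖hat z‖)) ≤
      r * ((Multiset.card q.roots : ℝ) / 2) := by linarith
  have h2 := le_of_mul_le_mul_left h1 hr
  linarith

end CP
end Pool.Agent.MP_44c6d5_nt
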