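import Pool.Agent.MP_44c6d5_nt.CP.A2

namespace Pool.Agent.MP_44c6d5_nt
namespace CP

open MeasureTheory Real

/-! ### A3 -/

theorem a3_norm_prod (s : Multiset ℂ) (f : ℂ → ℂ) :
    ‖(s.map f).prod‖ = (s.map fun a => ‖f a‖).prod := by
  induction s using Multiset.induction_on with
  | empty => simp
  | cons a s ih => simp [ih]

theorem a3_neg_sum (s : Multiset ℂ) (f : ℂ → ℝ) :
    (s.map fun a => -f a).sum = -(s.map f).sum := by
  induction s using Multiset.induction_on with
  | empty => simp
  | cons a s ih => simp [ih]; ring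

theorem a3_re_mul (s : Multiset ℂ) (f : ℂ → ℂ) (c : ℝ) :
    (s.map fun a => c * (f a).re).sum = c * (s.map f).sum.re := by
  induction s using Multiset.induction_on with
  | empty => simp
  | cons a s ih => simp [ih]; ring

/-- the product formula for the resultant -/
theorem a3_norm_res {p q : Polynomial ℂ} {n : ℕ} (hpn : p.natDegree = n) (hqn : q.natDegree = n) :
    ‖Polynomial.resultant p q n n‖ = ‖p.leadingCoeff‖ ^ n * ‖q.leadingCoeff‖ ^ n *
      (p.roots.map fun a => (q.roots.map fun b => ‖a - b‖).prod).prod := by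
  have h := Polynomial.resultant_eq_prod_eval p q n hqn.le (IsAlgClosed.splits p)
  rw [hpn] at h
  have hcard : Multiset.card p.roots = n := by
    rw [← (IsAlgClosed.splits p).natDegree_eq_card_roots, hpn]
  have hev : ∀ a : ℂ, ‖q.eval a‖ = ‖q.leadingCoeff‖ * (q.roots.map fun b => ‖a - b‖).prod := by
    intro a
    conv_lhs => rw [(IsAlgClosed.splits q).eq_prod_roots]
    rw [Polynomial.eval_mul, Polynomial.eval_C, norm_mul, Polynomial.eval_multiset_prod,
      Multiset.map_map, a3_norm_prod]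
    congr 2
    apply Multiset.map_congr rfl
    intro b _
    simp
  rw [h, norm_mul, norm_pow, a3_norm_prod]
  have : (p.roots.map fun a => ‖q.eval a‖).prod = ‖q.leadingCoeff‖ ^ n *
      (p.roots.map fun a => (q.roots.map fun b => ‖a - b‖).prod).prod := by
    rw [← hcard, ← Multiset.prod_replicate, ← Multiset.map_const, ← Multiset.prod_map_mul]
    congr 1
    apply Multiset.map_congr rfl
    intro a _
    simp [hev a]
  rw [this]
  ring

/-- the elementary inequality for two points -/
theorem a3_two {w : ℂ} (hw : ‖w‖ ≤ 1) {ρ : ℝ} (h0 : 0 < ρ) (h1 : ρ < 1) :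
    ‖1 - w‖ ≤ 2 / (1 + ρ) * ‖1 - (ρ : ℂ) * w‖ := by
  have hρ : (0 : ℝ) < 1 + ρ := by linarith
  rw [div_mul_eq_mul_div, le_div_iff₀ hρ]
  apply le_of_sq_le_sq _ (by positivity)
  rw [mul_pow, mul_pow, ← Complex.normSq_eq_norm_sq, ← Complex.normSq_eq_norm_sq,
    Complex.normSq_apply, Complex.normSq_apply]
  have hw' : w.re ^ 2 + w.im ^ 2 ≤ 1 := by
    have := pow_le_one₀ (norm_nonneg w) hw (n := 2)
    rw [← Complex.normSq_eq_norm_sq, Complex.normSq_apply] at this
    nlinarith
  have hre : -1 ≤ w.re := by nlinarith [sq_nonneg w.im, sq_nonneg (w.re - 1)]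
  simp only [Complex.sub_re, Complex.one_re, Complex.sub_im, Complex.one_im, Complex.mul_re,
    Complex.ofReal_re, Complex.ofReal_im, Complex.mul_im, zero_mul, sub_zero, add_zero, zero_sub]
  have e1 : 0 ≤ (1 - ρ) * ((1 + 3 * ρ) * (1 - (w.re ^ 2 + w.im ^ 2)) +
      2 * (1 - ρ) * (1 + w.re)) := by
    apply mul_nonneg (by linarith)
    apply add_nonneg
    · exact mul_nonneg (by linarith) (by linarith)
    · exact mul_nonneg (by linarith) (by linarith)
  nlinarith [e1]

theorem a3_sq (a b : ℂ) (h : 0 ≤ (1 - ‖a‖ ^ 2) * (1 - ‖b‖ ^ 2)) :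
    ‖a - b‖ ≤ ‖1 - a * starRingEnd ℂ b‖ := by
  apply le_of_sq_le_sq _ (by positivity)
  rw [← Complex.normSq_eq_norm_sq, ← Complex.normSq_eq_norm_sq] at *
  rw [Complex.normSq_apply, Complex.normSq_apply] at *
  simp only [Complex.sub_re, Complex.sub_im, Complex.one_re, Complex.one_im, Complex.mul_re,
    Complex.mul_im, Complex.conj_re, Complex.conj_im]
  nlinarith [h]

theorem a3_hat (a b : ℂ) :
    ‖a - b‖ ≤ max 1 ‖a‖ * max 1 ‖b‖ * ‖1 - hat a * starRingEnd ℂ (hat b)‖ := by
  have hc : ∀ z : ℂ, ‖starRingEnd ℂ z‖ = ‖z‖ := fun z => Complex.norm_conj z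
  unfold hat
  by_cases ha : ‖a‖ ≤ 1 <;> by_cases hb : ‖b‖ ≤ 1
  · rw [if_pos ha, if_pos hb, max_eq_left ha, max_eq_left hb, one_mul, one_mul]
    apply a3_sq
    apply mul_nonneg
    · nlinarith [norm_nonneg a]
    · nlinarith [norm_nonneg b]
  · push Not at hb
    rw [if_pos ha, if_neg (not_le.mpr hb), max_eq_left ha, max_eq_right hb.le, one_mul]
    have hb0 : b ≠ 0 := by rintro rfl; simp at hb; linarith
    rw [map_inv₀, Complex.conj_conj, ← norm_mul, mul_sub, mul_one, mul_comm a, ← mul_assoc,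
      mul_inv_cancel₀ hb0, one_mul, norm_sub_rev]
  · push Not at ha
    rw [if_neg (not_le.mpr ha), if_pos hb, max_eq_right ha.le, max_eq_left hb, mul_one]
    have ha0 : a ≠ 0 := by rintro rfl; simp at ha; linarith
    have ha1 : starRingEnd ℂ a ≠ 0 := by simp [ha0]
    rw [← hc a, ← norm_mul, mul_sub, mul_one, ← mul_assoc, mul_inv_cancel₀ ha1, one_mul, ← map_sub,
      hc]
  · push Not at ha hb
    rw [if_neg (not_le.mpr ha), if_neg (not_le.mpr hb), max_eq_right ha.le, max_eq_right hb.le]
    have ha0 : a ≠ 0 := by rintro rfl; simp at ha; linarith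
    have ha1 : starRingEnd ℂ a ≠ 0 := by simp [ha0]
    have hb0 : b ≠ 0 := by rintro rfl; simp at hb; linarith
    rw [map_inv₀, Complex.conj_conj]
    have : ‖a‖ * ‖b‖ * ‖1 - (starRingEnd ℂ a)⁻¹ * b⁻¹‖ = ‖1 - a * starRingEnd ℂ b‖ := by
      rw [← hc a, ← norm_mul, ← norm_mul]
      have : starRingEnd ℂ a * b * (1 - (starRingEnd ℂ a)⁻¹ * b⁻¹) =
          -(starRingEnd ℂ (1 - a * starRingEnd ℂ b)) := by
        rw [map_sub, map_mul, Complex.conj_conj, map_one]
        field_simp
        ring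
      rw [this, norm_neg, hc]
    rw [this]
    apply a3_sq
    apply mul_nonneg_of_nonpos_of_nonpos
    · nlinarith [norm_nonneg a]
    · nlinarith [norm_nonneg b]

theorem a3_series {w : ℂ} (hw : ‖w‖ ≤ 1) {ρ : ℝ} (h0 : 0 < ρ) (h1 : ρ < 1) :
    HasSum (fun m : ℕ => ρ ^ m / (m : ℝ) * (w ^ m).re) (-log ‖1 - (ρ : ℂ) * w‖) := by
  have hw1 : ‖(ρ : ℂ) * w‖ < 1 := by
    rw [norm_mul, Complex.norm_real, norm_eq_abs, abs_of_pos h0]
    nlinarith [norm_nonneg w]
  have h := Complex.hasSum_re (Complex.hasSum_taylorSeries_neg_log hw1)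
  rw [Complex.neg_re, Complex.log_re] at h
  convert h using 2 with m
  rw [mul_pow, ← Complex.ofReal_pow, mul_div_assoc, Complex.re_ofReal_mul,
    ← Complex.ofReal_natCast, Complex.div_ofReal_re]
  ring

theorem a3_hasSum_multiset (s : Multiset ℂ) (f : ℂ → ℕ → ℝ) (g : ℂ → ℝ)
    (h : ∀ a ∈ s, HasSum (f a) (g a)) :
    HasSum (fun m : ℕ => (s.map fun a => f a m).sum) (s.map g).sum := by
  induction s using Multiset.induction_on with
  | empty => simpa using hasSum_zero
  | cons a s ih =>
    simp only [Multiset.map_cons, Multiset.sum_cons]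
    exact (h a (Multiset.mem_cons_self a s)).add
      (ih fun b hb => h b (Multiset.mem_cons_of_mem hb))

theorem a3_conj_sum (s : Multiset ℂ) (m : ℕ) :
    starRingEnd ℂ (s.map fun z => (starRingEnd ℂ (hat z)) ^ m).sum =
      (s.map fun z => hat z ^ m).sum := by
  induction s using Multiset.induction_on with
  | empty => simp
  | cons a s ih => simp [ih]

theorem a3_log_prod (s : Multiset ℂ) (f : ℂ → ℝ) (h : ∀ a ∈ s, f a ≠ 0) :
    log (s.map f).prod = (s.map fun a => log (f a)).sum := by
  induction s using Multiset.induction_on with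
  | empty => simp
  | cons a s ih =>
    have h1 : ∀ b ∈ s, f b ≠ 0 := fun b hb => h b (Multiset.mem_cons_of_mem hb)
    simp only [Multiset.map_cons, Multiset.prod_cons, Multiset.sum_cons]
    rw [log_mul (h a (Multiset.mem_cons_self a s)) ?_, ih h1]
    intro hz
    rw [Multiset.prod_eq_zero_iff, Multiset.mem_map] at hz
    obtain ⟨b, hb, hb0⟩ := hz
    exact h1 b hb hb0

/-- the resultant of two polynomials of degree `n` -/
theorem pair_bound {p q : Polynomial ℂ} {n : ℕ} (hp : p ≠ 0) (hq : q ≠ 0) (hpn : p.natDegree = n)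
    (hqn : q.natDegree = n) (hR : Polynomial.resultant p q n n ≠ 0) {ρ : ℝ} (h0 : 0 < ρ)
    (h1 : ρ < 1) :
    log ‖Polynomial.resultant p q n n‖ ≤ n * (∫ t : UnitAddCircle, log ‖p.eval (e t)‖) +
      n * (∫ t : UnitAddCircle, log ‖q.eval (e t)‖) + (n : ℝ) ^ 2 * log (2 / (1 + ρ)) -
      Bq ρ (fun t => log ‖p.eval (e t)‖) (fun t => log ‖q.eval (e t)‖) := by
  have hcp : Multiset.card p.roots = n := by
    rw [← (IsAlgClosed.splits p).natDegree_eq_card_roots, hpn]
  have hcq : Multiset.card q.roots = n := by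
    rw [← (IsAlgClosed.splits q).natDegree_eq_card_roots, hqn]
  have hρ : (0 : ℝ) < 1 + ρ := by linarith
  -- the differences of the roots are not zero
  have hne : ∀ a ∈ p.roots, ∀ b ∈ q.roots, a - b ≠ 0 := by
    intro a ha b hb hab
    apply hR
    rw [← norm_eq_zero, a3_norm_res hpn hqn]
    have : (0 : ℝ) ∈ p.roots.map fun a => (q.roots.map fun b => ‖a - b‖).prod := by
      rw [Multiset.mem_map]
      refine ⟨a, ha, ?_⟩
      apply Multiset.prod_eq_zero
      rw [Multiset.mem_map]
      exact ⟨b, hb, by rw [hab, norm_zero]⟩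
    rw [Multiset.prod_eq_zero this, mul_zero]
  -- the bilinear form
  have hB : Bq ρ (fun t => log ‖p.eval (e t)‖) (fun t => log ‖q.eval (e t)‖) =
      -(p.roots.map fun a => (q.roots.map fun b =>
        log ‖1 - (ρ : ℂ) * (hat a * starRingEnd ℂ (hat b))‖).sum).sum := by
    have hs : HasSum (fun m : ℕ => (p.roots.map fun a => (q.roots.map fun b =>
        ρ ^ m / (m : ℝ) * ((hat a * starRingEnd ℂ (hat b)) ^ m).re).sum).sum)
        (p.roots.map fun a => (q.roots.map fun b =>
          -log ‖1 - (ρ : ℂ) * (hat a * starRingEnd ℂ (hat b))‖).sum).sum := by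
      apply a3_hasSum_multiset
      intro a _
      apply a3_hasSum_multiset
      intro b _
      apply a3_series _ h0 h1
      rw [norm_mul, Complex.norm_conj]
      exact mul_le_one₀ (norm_hat_le a) (norm_nonneg _) (norm_hat_le b)
    unfold Bq
    rw [show (-(p.roots.map fun a => (q.roots.map fun b =>
        log ‖1 - (ρ : ℂ) * (hat a * starRingEnd ℂ (hat b))‖).sum).sum) =
        (p.roots.map fun a => (q.roots.map fun b =>
          -log ‖1 - (ρ : ℂ) * (hat a * starRingEnd ℂ (hat b))‖).sum).sum by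
      simp only [a3_neg_sum], ← hs.tsum_eq]
    apply tsum_congr
    intro m
    rcases Nat.eq_zero_or_pos m with rfl | hm
    · simp
    rw [fc_poly hp hm, fc_poly hq hm]
    have hm0 : (m : ℝ) ≠ 0 := by positivity
    have hm1 : (m : ℂ) ≠ 0 := by exact_mod_cast hm.ne'
    have h2 : (p.roots.map fun a => (q.roots.map fun b =>
        ρ ^ m / (m : ℝ) * ((hat a * starRingEnd ℂ (hat b)) ^ m).re).sum).sum =
        ρ ^ m / m * ((p.roots.map fun a => hat a ^ m).sum *
          (q.roots.map fun b => (starRingEnd ℂ (hat b)) ^ m).sum).re := by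
      simp only [a3_re_mul]
      congr 2
      simp only [mul_pow, Multiset.sum_map_mul_left, Multiset.sum_map_mul_right]
    rw [h2]
    rw [map_div₀, map_neg, a3_conj_sum]
    have h3 : starRingEnd ℂ (2 * (m : ℂ)) = 2 * (m : ℂ) := by
      have : (2 * (m : ℂ)) = ((2 * m : ℝ) : ℂ) := by push_cast; ring
      rw [this, Complex.conj_ofReal]
    rw [h3]
    have h4 : (-(p.roots.map fun a => hat a ^ m).sum / (2 * (m : ℂ)) *
        (-(q.roots.map fun b => (starRingEnd ℂ (hat b)) ^ m).sum / (2 * (m : ℂ)))) =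
        ((1 / (4 * (m : ℝ) ^ 2) : ℝ) : ℂ) * ((p.roots.map fun a => hat a ^ m).sum *
          (q.roots.map fun b => (starRingEnd ℂ (hat b)) ^ m).sum) := by
      push_cast
      field_simp
      ring
    rw [h4, Complex.re_ofReal_mul]
    field_simp
  -- the main inequality
  have hmain : (p.roots.map fun a => (q.roots.map fun b => log ‖a - b‖).sum).sum ≤
      (p.roots.map fun a => (q.roots.map fun b => (log (max 1 ‖a‖) + log (max 1 ‖b‖) +
        (log (2 / (1 + ρ)) +
          log ‖1 - (ρ : ℂ) * (hat a * starRingEnd ℂ (hat b))‖))).sum).sum := by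
    apply Multiset.sum_map_le_sum_map
    intro a ha
    apply Multiset.sum_map_le_sum_map
    intro b hb
    have hab := hne a ha b hb
    have hw : ‖hat a * starRingEnd ℂ (hat b)‖ ≤ 1 := by
      rw [norm_mul, Complex.norm_conj]
      exact mul_le_one₀ (norm_hat_le a) (norm_nonneg _) (norm_hat_le b)
    have e1 := a3_hat a b
    have e2 := a3_two hw h0 h1
    have hpos : 0 < ‖a - b‖ := norm_pos_iff.mpr hab
    have hma : (0 : ℝ) < max 1 ‖a‖ := by positivity
    have hmb : (0 : ℝ) < max 1 ‖b‖ := by positivity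
    have e3 : ‖a - b‖ ≤ max 1 ‖a‖ * max 1 ‖b‖ *
        (2 / (1 + ρ) * ‖1 - (ρ : ℂ) * (hat a * starRingEnd ℂ (hat b))‖) :=
      e1.trans (mul_le_mul_of_nonneg_left e2 (by positivity))
    have hne1 : ‖1 - (ρ : ℂ) * (hat a * starRingEnd ℂ (hat b))‖ ≠ 0 := by
      intro hz
      rw [hz, mul_zero, mul_zero] at e3
      linarith
    have e4 := log_le_log hpos e3
    rwa [log_mul (by positivity) (by positivity), log_mul hma.ne' hmb.ne',
      log_mul (by positivity) hne1] at e4
  have hlog : log ‖Polynomial.resultant p q n n‖ = n * log ‖p.leadingCoeff‖ +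
      n * log ‖q.leadingCoeff‖ + (p.roots.map fun a => (q.roots.map fun b =>
        log ‖a - b‖).sum).sum := by
    have hlp : ‖p.leadingCoeff‖ ≠ 0 := by simp [hp]
    have hlq : ‖q.leadingCoeff‖ ≠ 0 := by simp [hq]
    have hprod : (p.roots.map fun a => (q.roots.map fun b => ‖a - b‖).prod).prod ≠ 0 := by
      intro hz
      apply hR
      rw [← norm_eq_zero, a3_norm_res hpn hqn, hz, mul_zero]
    rw [a3_norm_res hpn hqn, log_mul (by positivity) hprod, log_mul (by positivity) (by positivity),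
      log_pow, log_pow]
    congr 1
    rw [a3_log_prod]
    · congr 1
      apply Multiset.map_congr rfl
      intro a ha
      rw [a3_log_prod]
      intro b hb
      exact norm_ne_zero_iff.mpr (hne a ha b hb)
    · intro a ha hz
      apply hprod
      apply Multiset.prod_eq_zero
      rw [Multiset.mem_map]
      exact ⟨a, ha, hz⟩
  have hsum : (p.roots.map fun a => (q.roots.map fun b => (log (max 1 ‖a‖) + log (max 1 ‖b‖) +
        (log (2 / (1 + ρ)) +
          log ‖1 - (ρ : ℂ) * (hat a * starRingEnd ℂ (hat b))‖))).sum).sum =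
      n * (p.roots.map fun a => log (max 1 ‖a‖)).sum +
      n * (q.roots.map fun b => log (max 1 ‖b‖)).sum + (n : ℝ) ^ 2 * log (2 / (1 + ρ)) +
      (p.roots.map fun a => (q.roots.map fun b =>
        log ‖1 - (ρ : ℂ) * (hat a * starRingEnd ℂ (hat b))‖).sum).sum := by
    simp only [Multiset.sum_map_add, Multiset.map_const', Multiset.sum_replicate, hcp, hcq,
      nsmul_eq_mul, Multiset.sum_map_mul_left]
    ring
  rw [integral_poly hp, integral_poly hq, hB, hlog]
  linarith [hmain, hsum]

end CP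
end Pool.Agent.MP_44c6d5_nt
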