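import Mathlib
import Pool.Agent.MP_44c6d5_nt.CP.Def

/-!
Widths of integer polynomials: elementary facts.
-/

namespace Pool.Agent.MP_44c6d5_nt
namespace CP

open MeasureTheory Real Module MvPolynomial

variable {k : ℕ}

theorem wtZ_neg' (v : Fin k → ℤ) (j : Fin k →₀ ℕ) : wtZ (-v) j = - wtZ v j := by
  simp [wtZ]

theorem rl_neg' (v : Fin k → ℤ) : rl (-v) = - rl v := by
  funext i; simp [rl]

theorem wtZ_le_neg_ordZ {v : Fin k → ℤ} {P : Pol k} {j : Fin k →₀ ℕ} (hj : j ∈ P.support) :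
    wtZ v j ≤ -(ordZ (-v) P) := by
  have := ordZ_le (l := -v) hj
  rw [wtZ_neg'] at this
  omega

theorem ordZ_mul' (v : Fin k → ℤ) {A B : Pol k} (hA : A ≠ 0) (hB : B ≠ 0) :
    ordZ v (A * B) = ordZ v A + ordZ v B := by
  have h := ord_mul (rl v) hA hB
  rw [ord_rl v (mul_ne_zero hA hB), ord_rl v hA, ord_rl v hB] at h
  exact_mod_cast h

theorem ordZ_ini_ge (v : Fin k → ℤ) (y : Fin k → ℝ) {P : Pol k} (hP : P ≠ 0) :
    ordZ v P ≤ ordZ v (ini y P) := by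
  obtain ⟨j, hj, hj'⟩ := exists_ordZ v (ini_ne_zero y hP)
  rw [← hj']
  exact ordZ_le (mem_support_ini.mp hj).1

theorem wd'_cast (v : Fin k → ℤ) {P : Pol k} (hP : P ≠ 0) :
    ((wd' v P : ℕ) : ℤ) = -(ordZ (-v) P) - ordZ v P := by
  obtain ⟨j, hj, hj'⟩ := exists_ordZ v hP
  have h1 := wtZ_le_neg_ordZ (v := v) hj
  unfold wd'
  rw [Int.toNat_of_nonneg (by omega)]

theorem wd'_mul (v : Fin k → ℤ) {A B : Pol k} (hA : A ≠ 0) (hB : B ≠ 0) :
    wd' v (A * B) = wd' v A + wd' v B := by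
  have h1 := wd'_cast v hA
  have h2 := wd'_cast v hB
  have h3 := wd'_cast v (mul_ne_zero hA hB)
  have h4 := ordZ_mul' v hA hB
  have h5 := ordZ_mul' (-v) hA hB
  omega

theorem wd'_ini_le (v : Fin k → ℤ) (y : Fin k → ℝ) {P : Pol k} (hP : P ≠ 0) :
    wd' v (ini y P) ≤ wd' v P := by
  have h1 := wd'_cast v hP
  have h2 := wd'_cast v (ini_ne_zero y hP)
  have h3 := ordZ_ini_ge v y hP
  have h4 := ordZ_ini_ge (-v) y hP
  omega

theorem wd'_pos_iff (v : Fin k → ℤ) {P : Pol k} (hP : P ≠ 0) : 1 ≤ wd' v P ↔ rl v ∉ Lam P := by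
  have h1 := wd'_cast v hP
  rw [← ord_add_ord_neg_eq_iff hP, ← rl_neg', ord_rl v hP, ord_rl (-v) hP]
  have h2 : ((ordZ v P : ℝ) + (ordZ (-v) P : ℝ) = 0) ↔ ordZ v P + ordZ (-v) P = 0 := by
    exact_mod_cast Iff.rfl
  rw [h2]
  omega

theorem natDegree_up_le (v : Fin k → ℤ) {P : Pol k} (hP : P ≠ 0) (x : Tor k) :
    (up v P x).natDegree ≤ wd' v P := by
  unfold up
  apply Polynomial.natDegree_sum_le_of_forall_le
  intro j hj
  refine (Polynomial.natDegree_C_mul_X_pow_le _ _).trans ?_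
  have h1 := wd'_cast v hP
  have h2 := wtZ_le_neg_ordZ (v := v) hj
  omega

theorem coeff_up_wd (v : Fin k → ℤ) {P : Pol k} (hP : P ≠ 0) (x : Tor k) :
    (up v P x).coeff (wd' v P) = ev (ini (rl (-v)) P) x := by
  classical
  rw [up, Polynomial.finsetSum_coeff, ev_eq_sum]
  have hsub : (ini (rl (-v)) P).support =
      P.support.filter (fun j => wt (rl (-v)) j = ord (rl (-v)) P) := by
    ext j
    rw [mem_support_ini, Finset.mem_filter]
  rw [hsub, Finset.sum_filter]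
  apply Finset.sum_congr rfl
  intro j hj
  rw [Polynomial.coeff_C_mul, Polynomial.coeff_X_pow, coeff_ini]
  have h := ordZ_le (l := v) hj
  have h1 := wd'_cast v hP
  have h2 := wtZ_le_neg_ordZ (v := v) hj
  have h3 : wt (rl (-v)) j = ord (rl (-v)) P ↔ wd' v P = (wtZ v j - ordZ v P).toNat := by
    rw [ord_rl (-v) hP, wt_rl, Int.cast_inj, wtZ_neg']
    omega
  by_cases h4 : wt (rl (-v)) j = ord (rl (-v)) P
  · rw [if_pos h4, if_pos (h3.mp h4), if_pos h4, mul_one]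
  · rw [if_neg h4, if_neg (fun h5 => h4 (h3.mpr h5)), mul_zero]

theorem wd'_neg (v : Fin k → ℤ) {P : Pol k} (hP : P ≠ 0) : wd' (-v) P = wd' v P := by
  have h1 := wd'_cast v hP
  have h2 := wd'_cast (-v) hP
  rw [neg_neg] at h2
  omega

end CP
end Pool.Agent.MP_44c6d5_nt
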