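import Mathlib
import Pool.Agent.MP_44c6d5_nt.CP.A2
import Pool.Agent.MP_44c6d5_nt.CP.B1

set_option autoImplicit false

namespace Pool.Agent.MP_44c6d5_nt
namespace CP

open MeasureTheory Real Module

variable {k : ℕ}

/-! ### B4 -/

theorem b4_meas_log (v : Fin k → ℤ) (P : Pol k) (m : ℕ) :
    Measurable (fun q : Tor k × UnitAddCircle =>
      ((log ‖ev P (line v q.1 q.2)‖ : ℝ) : ℂ) * (starRingEnd ℂ (e q.2)) ^ m) := by
  apply Measurable.mul
  · apply Complex.measurable_ofReal.comp
    exact (measurable_log_ev P).comp (continuous_line v).measurable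
  · apply Measurable.pow_const
    exact (Complex.continuous_conj.comp (continuous_e.comp continuous_snd)).measurable

theorem measurable_cm (v : Fin k → ℤ) (P : Pol k) (m : ℕ) : Measurable (cm v P m) := by
  have h := (b4_meas_log v P m).stronglyMeasurable.integral_prod_right'
    (ν := (volume : Measure UnitAddCircle))
  exact h.measurable

theorem norm_cm_le (v : Fin k → ℤ) {P : Pol k} (hP : P ≠ 0) {m : ℕ} (hm : 1 ≤ m) (x : Tor k) :
    ‖cm v P m x‖ ≤ (wd' v P : ℝ) / (2 * m) := by
  have e1 : cm v P m x = fc (fun t => log ‖(up v P x).eval (e t)‖) m := by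
    unfold cm
    congr 1
    funext t
    rw [norm_ev_line]
  rw [e1]
  refine (norm_fc_poly_le _ hm).trans ?_
  have h1 : (Multiset.card (up v P x).roots : ℝ) ≤ wd' v P := by
    exact_mod_cast (Polynomial.card_roots' _).trans (natDegree_up_le v hP x)
  gcongr

theorem b4_line_add (v : Fin k → ℤ) (x : Tor k) (t s : UnitAddCircle) :
    line v (line v x t) s = line v x (t + s) := by
  funext i
  simp only [line, smul_add]
  abel

theorem b4_line_comm (v l : Fin k → ℤ) (x : Tor k) (t s : UnitAddCircle) :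
    line l (line v x t) s = line v (line l x s) t := by
  funext i
  simp only [line]
  abel

theorem b4_e_neg_conj (t : UnitAddCircle) : starRingEnd ℂ (e (-t)) = e t := by
  have h1 : e (-t) * e t = 1 := by rw [← e_add, neg_add_cancel, e_zero]
  have h2 : starRingEnd ℂ (e (-t)) * e (-t) = 1 := by
    rw [Complex.conj_mul', norm_e]; simp
  have h3 := e_ne_zero (-t)
  apply mul_right_cancel₀ h3
  rw [h2, mul_comm, h1]

theorem b4_fc_translate (f : UnitAddCircle → ℝ) (m : ℕ) (t : UnitAddCircle) :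
    fc (fun s => f (t + s)) m = fc f m * (e t) ^ m := by
  unfold fc
  have h1 : ∀ s : UnitAddCircle, ((f (t + s) : ℝ) : ℂ) * (starRingEnd ℂ (e s)) ^ m
      = (fun u => (((f u : ℝ) : ℂ) * (starRingEnd ℂ (e u)) ^ m) * (e t) ^ m) (t + s) := by
    intro s
    show _ = (((f (t + s) : ℝ) : ℂ) * (starRingEnd ℂ (e (t + s))) ^ m) * (e t) ^ m
    have h2 : starRingEnd ℂ (e s) = starRingEnd ℂ (e (t + s)) * e t := by
      have : e s = e (t + s) * e (-t) := by rw [← e_add]; congr 1; abel
      rw [this, map_mul, b4_e_neg_conj]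
    rw [h2, mul_pow]; ring
  simp_rw [h1]
  rw [integral_add_left_eq_self (μ := (volume : Measure UnitAddCircle))
    (fun u => (((f u : ℝ) : ℂ) * (starRingEnd ℂ (e u)) ^ m) * (e t) ^ m) t]
  rw [integral_mul_const]

theorem cm_line (v : Fin k → ℤ) (P : Pol k) (m : ℕ) (x : Tor k) (t : UnitAddCircle) :
    cm v P m (line v x t) = cm v P m x * (e t) ^ m := by
  unfold cm
  rw [← b4_fc_translate]
  congr 1
  funext s
  rw [b4_line_add]

theorem EB_nonneg {ρ : ℝ} (h0 : 0 ≤ ρ) (v l : Fin k → ℤ) (P : Pol k) (x : Tor k) :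
    0 ≤ EB ρ v l P x := by
  unfold EB
  exact tsum_nonneg fun m => by positivity


theorem EB_line {ρ : ℝ} (v l : Fin k → ℤ) (P : Pol k) (x : Tor k) (t : UnitAddCircle) :
    EB ρ v l P (line v x t) = EB ρ v l P x := by
  unfold EB
  congr 1
  funext m
  congr 2
  have h1 : ∀ s : UnitAddCircle, cm v P m (line l (line v x t) s)
      = cm v P m (line l x s) * (e t) ^ m := by
    intro s
    rw [b4_line_comm, cm_line]
  simp_rw [h1]
  rw [integral_mul_const, norm_mul, norm_pow, norm_e, one_pow, mul_one]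

theorem b4_measurable_int (v l : Fin k → ℤ) (P : Pol k) (m : ℕ) :
    Measurable fun x : Tor k => ∫ s : UnitAddCircle, cm v P m (line l x s) := by
  have h1 : Measurable fun q : Tor k × UnitAddCircle => cm v P m (line l q.1 q.2) :=
    (measurable_cm v P m).comp (continuous_line l).measurable
  exact (h1.stronglyMeasurable.integral_prod_right'
    (ν := (volume : Measure UnitAddCircle))).measurable

theorem b4_norm_int_le (v l : Fin k → ℤ) {P : Pol k} (hP : P ≠ 0) {m : ℕ} (hm : 1 ≤ m) (x : Tor k) :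
    ‖∫ s : UnitAddCircle, cm v P m (line l x s)‖ ≤ (wd' v P : ℝ) / (2 * m) := by
  have h := norm_integral_le_of_norm_le_const (μ := (volume : Measure UnitAddCircle))
    (f := fun s => cm v P m (line l x s)) (C := (wd' v P : ℝ) / (2 * m))
    (Filter.Eventually.of_forall fun s => norm_cm_le v hP hm _)
  simpa using h

theorem b4_term_le {ρ : ℝ} (h0 : 0 < ρ) (v l : Fin k → ℤ) {P : Pol k} (hP : P ≠ 0)
    (m : ℕ) (x : Tor k) :
    4 * (m : ℝ) * ρ ^ m * ‖∫ s : UnitAddCircle, cm v P m (line l x s)‖ ^ 2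
      ≤ (wd' v P : ℝ) ^ 2 * ρ ^ m := by
  rcases Nat.eq_zero_or_pos m with rfl | hm
  · simp
  · have h1 := b4_norm_int_le v l hP hm x
    have hm1 : (1 : ℝ) ≤ m := by exact_mod_cast hm
    have h2 : ‖∫ s : UnitAddCircle, cm v P m (line l x s)‖ ^ 2 ≤ ((wd' v P : ℝ) / (2 * m)) ^ 2 :=
      pow_le_pow_left₀ (norm_nonneg _) h1 2
    calc 4 * (m : ℝ) * ρ ^ m * ‖∫ s : UnitAddCircle, cm v P m (line l x s)‖ ^ 2
        ≤ 4 * (m : ℝ) * ρ ^ m * ((wd' v P : ℝ) / (2 * m)) ^ 2 := by gcongr
      _ = (wd' v P : ℝ) ^ 2 * ρ ^ m / m := by field_simp; ring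
      _ ≤ (wd' v P : ℝ) ^ 2 * ρ ^ m := by
        apply div_le_self (by positivity) hm1

theorem b4_summable {ρ : ℝ} (h0 : 0 < ρ) (h1 : ρ < 1) (v l : Fin k → ℤ) {P : Pol k} (hP : P ≠ 0)
    (x : Tor k) : Summable fun m : ℕ =>
      4 * (m : ℝ) * ρ ^ m * ‖∫ s : UnitAddCircle, cm v P m (line l x s)‖ ^ 2 := by
  refine Summable.of_nonneg_of_le (fun m => by positivity) (fun m => b4_term_le h0 v l hP m x) ?_
  exact (summable_geometric_of_lt_one h0.le h1).mul_left _

theorem b4_measurable_EB {ρ : ℝ} (h0 : 0 < ρ) (h1 : ρ < 1) (v l : Fin k → ℤ) {P : Pol k}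
    (hP : P ≠ 0) : Measurable (EB ρ v l P) := by
  refine measurable_of_tendsto_metrizable (f := fun n x => ∑ m ∈ Finset.range n,
      4 * (m : ℝ) * ρ ^ m * ‖∫ s : UnitAddCircle, cm v P m (line l x s)‖ ^ 2) ?_ ?_
  · intro n
    refine Finset.measurable_sum _ fun m _ => ?_
    exact ((b4_measurable_int v l P m).norm.pow_const 2).const_mul _
  · rw [tendsto_pi_nhds]
    intro x
    exact (b4_summable h0 h1 v l hP x).hasSum.tendsto_sum_nat

theorem integrable_EB {ρ : ℝ} (h0 : 0 < ρ) (h1 : ρ < 1) (v l : Fin k → ℤ) {P : Pol k}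
    (hP : P ≠ 0) : Integrable (EB ρ v l P) := by
  refine Integrable.of_bound (b4_measurable_EB h0 h1 v l hP).aestronglyMeasurable
    (∑' m : ℕ, (wd' v P : ℝ) ^ 2 * ρ ^ m) (Filter.Eventually.of_forall fun x => ?_)
  rw [Real.norm_of_nonneg (EB_nonneg h0.le v l P x)]
  exact (b4_summable h0 h1 v l hP x).tsum_le_tsum (fun m => b4_term_le h0 v l hP m x)
    ((summable_geometric_of_lt_one h0.le h1).mul_left _)

theorem b4_int2 (v l : Fin k → ℤ) {P : Pol k} (hP : P ≠ 0) : ∀ᵐ x : Tor k,
    Integrable (fun q : UnitAddCircle × UnitAddCircle =>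
      log ‖ev P (line v (line l x q.2) q.1)‖)
      ((volume : Measure UnitAddCircle).prod (volume : Measure UnitAddCircle)) := by
  have h1 := integrable_log_ev hP
  have hv := measurePreserving_line (k := k) v
  have hl := measurePreserving_line (k := k) l
  have h2 : MeasurePreserving
      (fun q : UnitAddCircle × (UnitAddCircle × Tor k) => line v (line l q.2.2 q.2.1) q.1)
      ((volume : Measure UnitAddCircle).prod ((volume : Measure UnitAddCircle).prod
        (volume : Measure (Tor k)))) volume :=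
    hv.comp ((MeasurePreserving.id (volume : Measure UnitAddCircle)).prod hl)
  have h3 := h2.integrable_comp_of_integrable h1
  have h4 : MeasurePreserving (MeasurableEquiv.prodAssoc :
      (UnitAddCircle × UnitAddCircle) × Tor k ≃ᵐ UnitAddCircle × UnitAddCircle × Tor k)
      (((volume : Measure UnitAddCircle).prod (volume : Measure UnitAddCircle)).prod
        (volume : Measure (Tor k)))
      ((volume : Measure UnitAddCircle).prod ((volume : Measure UnitAddCircle).prod
        (volume : Measure (Tor k)))) :=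
    measurePreserving_prodAssoc _ _ _
  have h5 := h4.integrable_comp_of_integrable h3
  exact h5.prod_left_ae

theorem EB_eq {ρ : ℝ} (_h0 : 0 < ρ) (_h1 : ρ < 1) (v l : Fin k → ℤ) {P : Pol k} (hP : P ≠ 0) :
    ∀ᵐ x : Tor k, EB ρ v l P x =
      Bq ρ (fun t => UU l P (line v x t)) (fun t => UU l P (line v x t)) := by
  filter_upwards [b4_int2 v l hP] with x hx
  unfold EB Bq
  congr 1
  funext m
  have key : fc (fun t => UU l P (line v x t)) m
      = ∫ s : UnitAddCircle, cm v P m (line l x s) := by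
    have hx2 : Integrable (fun q : UnitAddCircle × UnitAddCircle =>
        ((log ‖ev P (line v (line l x q.2) q.1)‖ : ℝ) : ℂ) * (starRingEnd ℂ (e q.1)) ^ m)
        ((volume : Measure UnitAddCircle).prod (volume : Measure UnitAddCircle)) := by
      refine Integrable.mul_bdd (c := 1) hx.ofReal ?_ ?_
      · exact ((Complex.continuous_conj.comp
          (continuous_e.comp continuous_fst)).pow m).aestronglyMeasurable
      · refine Filter.Eventually.of_forall fun q => ?_
        rw [norm_pow, RCLike.norm_conj, norm_e, one_pow]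
    unfold fc cm UU
    have h2 : ∀ t : UnitAddCircle, (((∫ s : UnitAddCircle, log ‖ev P (line l (line v x t) s)‖ : ℝ)) : ℂ)
        * (starRingEnd ℂ (e t)) ^ m
        = ∫ s : UnitAddCircle, ((log ‖ev P (line v (line l x s) t)‖ : ℝ) : ℂ)
          * (starRingEnd ℂ (e t)) ^ m := by
      intro t
      rw [integral_mul_const, integral_complex_ofReal]
      simp_rw [b4_line_comm v l x t]
    simp_rw [h2]
    rw [integral_integral_swap hx2]
    rfl
  rw [key]
  have h3 : ∀ z : ℂ, ((starRingEnd ℂ z) * z).re = ‖z‖ ^ 2 := by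
    intro z
    rw [Complex.conj_mul']
    norm_cast
  rw [h3]

end CP
end Pool.Agent.MP_44c6d5_nt
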