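import Mathlib
import Pool.Agent.MP_44c6d5_nt.CP.Def

/-!
[B2] the resultant of the line polynomials of `P` at two points is the value of a nonzero
integer polynomial.
-/

namespace Pool.Agent.MP_44c6d5_nt
namespace CP

open MvPolynomial

variable {k : ℕ}

theorem b2_rl_neg (v : Fin k → ℤ) : rl (-v) = -(rl v) := by
  ext i; simp [rl]

theorem b2_wd (v : Fin k → ℤ) {P : Pol k} (hP : P ≠ 0) :
    ((wd' v P : ℕ) : ℝ) = -(ord (-(rl v)) P) - ord (rl v) P := by
  have h1 : ord (-(rl v)) P = (ordZ (-v) P : ℝ) := by rw [← b2_rl_neg, ord_rl _ hP]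
  have h2 := ord_rl v hP
  have h3 := ord_add_ord_neg_le hP (rl v)
  rw [h1, h2] at h3 ⊢
  have h4 : 0 ≤ -(ordZ (-v) P) - ordZ v P := by
    have : ordZ v P + ordZ (-v) P ≤ 0 := by exact_mod_cast h3
    linarith
  have h5 : ((wd' v P : ℕ) : ℤ) = -(ordZ (-v) P) - ordZ v P := Int.toNat_of_nonneg h4
  exact_mod_cast h5

/-- one step of the division. -/
theorem b2_descent (v : Fin k → ℤ) {P Q : Pol k} (hP : P ≠ 0) (hQ : Q ≠ 0)
    (h : wd' v P ≤ wd' v Q) (hR : ini (rl v) P * Q - ini (rl v) Q * P ≠ 0) :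
    wd' v (ini (rl v) P * Q - ini (rl v) Q * P) < wd' v Q := by
  have ha := ini_ne_zero (rl v) hP
  have hb := ini_ne_zero (rl v) hQ
  have hP1 := b2_wd v hP
  have hQ1 := b2_wd v hQ
  have hR1 := b2_wd v hR
  have hle : ((wd' v P : ℕ) : ℝ) ≤ wd' v Q := by exact_mod_cast h
  have oa : ord (rl v) (ini (rl v) P) = ord (rl v) P := ord_ini _ hP
  have ob : ord (rl v) (ini (rl v) Q) = ord (rl v) Q := ord_ini _ hQ
  have ta : ord (-(rl v)) (ini (rl v) P) = -(ord (rl v) P) := by
    rw [ord_neg_of_mem_Lam ha (mem_Lam_ini _ _), oa]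
  have tb : ord (-(rl v)) (ini (rl v) Q) = -(ord (rl v) Q) := by
    rw [ord_neg_of_mem_Lam hb (mem_Lam_ini _ _), ob]
  have m1 := ord_ini_mul (rl v) ha hQ
  have m2 := ord_ini_mul (rl v) hb hP
  have m3 := ord_mul (-(rl v)) ha hQ
  have m4 := ord_mul (-(rl v)) hb hP
  rw [oa, ini_ini _ hP] at m1
  rw [ob, ini_ini _ hQ] at m2
  rw [ta] at m3
  rw [tb] at m4
  have k1 : ord (rl v) P + ord (rl v) Q < ord (rl v) (ini (rl v) P * Q - ini (rl v) Q * P) := by
    apply lt_ord hR
    intro j hj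
    by_contra hlt
    push Not at hlt
    apply MvPolynomial.mem_support_iff.mp hj
    rw [coeff_sub]
    rcases lt_or_eq_of_le hlt with h5 | h5
    · rw [coeff_eq_zero_of_lt (by rw [m1.1]; exact h5),
        coeff_eq_zero_of_lt (by rw [m2.1]; linarith), sub_zero]
    · have e1 := coeff_ini (rl v) (ini (rl v) P * Q) j
      have e2 := coeff_ini (rl v) (ini (rl v) Q * P) j
      rw [if_pos (by rw [m1.1]; exact h5), m1.2] at e1
      rw [if_pos (by rw [m2.1]; linarith), m2.2] at e2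
      rw [← e1, ← e2, mul_comm (ini (rl v) Q), sub_self]
  have k2 : min (ord (-(rl v)) (ini (rl v) P * Q)) (ord (-(rl v)) (ini (rl v) Q * P)) ≤
      ord (-(rl v)) (ini (rl v) P * Q - ini (rl v) Q * P) := by
    apply le_ord hR
    intro j hj
    by_cases h1 : j ∈ (ini (rl v) P * Q).support
    · exact (min_le_left _ _).trans (ord_le _ h1)
    · by_cases h2 : j ∈ (ini (rl v) Q * P).support
      · exact (min_le_right _ _).trans (ord_le _ h2)
      · exfalso
        apply MvPolynomial.mem_support_iff.mp hj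
        have c1 : coeff j (ini (rl v) P * Q) = 0 := by simpa using h1
        have c2 : coeff j (ini (rl v) Q * P) = 0 := by simpa using h2
        rw [coeff_sub, c1, c2, sub_zero]
  rw [m3, m4] at k2
  have : ((wd' v (ini (rl v) P * Q - ini (rl v) Q * P) : ℕ) : ℝ) < wd' v Q := by
    rw [hR1]
    rcases min_le_iff.mp k2 with k3 | k3 <;> linarith
  exact_mod_cast this

theorem b2_bezout (v : Fin k → ℤ) : ∀ (n : ℕ) (P Q : Pol k), P ≠ 0 → Q ≠ 0 →
    wd' v P + wd' v Q ≤ n → ∃ A B c1 c2 G : Pol k, G = A * P + B * Q ∧ G ≠ 0 ∧ c1 ≠ 0 ∧ c2 ≠ 0 ∧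
      rl v ∈ Lam c1 ∧ rl v ∈ Lam c2 ∧ G ∣ c1 * P ∧ G ∣ c2 * Q := by
  intro n
  induction n using Nat.strong_induction_on with
  | _ n ih =>
    -- the step for ordered widths
    have step : ∀ (P Q : Pol k), P ≠ 0 → Q ≠ 0 → wd' v P ≤ wd' v Q →
        wd' v P + wd' v Q ≤ n → ∃ A B c1 c2 G : Pol k, G = A * P + B * Q ∧ G ≠ 0 ∧ c1 ≠ 0 ∧
        c2 ≠ 0 ∧ rl v ∈ Lam c1 ∧ rl v ∈ Lam c2 ∧ G ∣ c1 * P ∧ G ∣ c2 * Q := by
      intro P Q hP hQ hle hn
      have ha := ini_ne_zero (rl v) hP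
      have h1 : rl v ∈ Lam (1 : Pol k) := by
        intro j hj j' hj'
        have e1 : j = 0 := by
          by_contra h
          apply MvPolynomial.mem_support_iff.mp hj
          rw [MvPolynomial.coeff_one, if_neg (Ne.symm h)]
        have e2 : j' = 0 := by
          by_contra h
          apply MvPolynomial.mem_support_iff.mp hj'
          rw [MvPolynomial.coeff_one, if_neg (Ne.symm h)]
        rw [e1, e2]
      by_cases hR : ini (rl v) P * Q - ini (rl v) Q * P = 0
      · refine ⟨1, 0, 1, ini (rl v) P, P, by ring, hP, one_ne_zero, ha, h1, mem_Lam_ini _ _,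
          ⟨1, by ring⟩, ⟨ini (rl v) Q, ?_⟩⟩
        rw [sub_eq_zero.mp hR, mul_comm]
      · have hlt := b2_descent v hP hQ hle hR
        obtain ⟨A, B, c1, c2, G, hG, hG0, hc1, hc2, hl1, hl2, hd1, hd2⟩ :=
          ih (wd' v P + wd' v (ini (rl v) P * Q - ini (rl v) Q * P)) (by omega) P _ hP hR le_rfl
        refine ⟨A - B * ini (rl v) Q, B * ini (rl v) P, c1, c1 * c2 * ini (rl v) P, G, ?_, hG0,
          hc1, mul_ne_zero (mul_ne_zero hc1 hc2) ha, hl1, ?_, hd1, ?_⟩
        · rw [hG]; ring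
        · rw [Lam_mul (mul_ne_zero hc1 hc2) ha, Lam_mul hc1 hc2]
          exact ⟨⟨hl1, hl2⟩, mem_Lam_ini _ _⟩
        · have e1 : c1 * c2 * ini (rl v) P * Q = c1 * (c2 * (ini (rl v) P * Q - ini (rl v) Q * P)) +
              (c2 * ini (rl v) Q) * (c1 * P) := by ring
          rw [e1]
          exact dvd_add (hd2.mul_left _) (hd1.mul_left _)
    intro P Q hP hQ hn
    rcases le_total (wd' v P) (wd' v Q) with hle | hle
    · exact step P Q hP hQ hle hn
    · obtain ⟨A, B, c1, c2, G, hG, hG0, hc1, hc2, hl1, hl2, hd1, hd2⟩ :=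
        step Q P hQ hP hle (by omega)
      exact ⟨B, A, c2, c1, G, by rw [hG]; ring, hG0, hc2, hc1, hl2, hl1, hd2, hd1⟩

theorem b2_bezout_prime {P : Pol k} (hP : Prime P) {v : Fin k → ℤ} (hv : rl v ∉ Lam P) {Q : Pol k}
    (hQ : Q ≠ 0) (hPQ : ¬ P ∣ Q) : ∃ A B G : Pol k, G = A * P + B * Q ∧ G ≠ 0 ∧ rl v ∈ Lam G := by
  have key : ∀ c : Pol k, c ≠ 0 → rl v ∈ Lam c → ¬ P ∣ c := by
    rintro c hc hl ⟨d, rfl⟩
    rw [Lam_mul (left_ne_zero_of_mul hc) (right_ne_zero_of_mul hc)] at hl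
    exact hv hl.1
  obtain ⟨A, B, c1, c2, G, hG, hG0, hc1, hc2, hl1, hl2, ⟨H, hH⟩, hd2⟩ :=
    b2_bezout v _ P Q hP.ne_zero hQ le_rfl
  refine ⟨A, B, G, hG, hG0, ?_⟩
  have h1 : P ∣ G * H := by rw [← hH]; exact dvd_mul_left _ _
  rcases hP.dvd_or_dvd h1 with h2 | ⟨H', h2⟩
  · rcases hP.dvd_or_dvd (h2.trans hd2) with h3 | h3
    · exact absurd h3 (key c2 hc2 hl2)
    · exact absurd h3 hPQ
  · have h3 : c1 = G * H' := by
      apply mul_right_cancel₀ hP.ne_zero
      rw [hH, h2]; ring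
    have h4 : H' ≠ 0 := by rintro rfl; rw [mul_zero] at h3; exact hc1 h3
    rw [h3, Lam_mul hG0 h4] at hl1
    exact hl1.1

/-- evaluation at `(e (x_i) z ^ (v_i))`. -/
noncomputable def evz (v : Fin k → ℤ) (x : Tor k) (z : ℂ) : Pol k →ₐ[ℤ] ℂ :=
  aeval fun i => e (x i) * z ^ (v i)

theorem evz_eq_sum (v : Fin k → ℤ) (x : Tor k) {z : ℂ} (hz : z ≠ 0) (P : Pol k) :
    evz v x z P = ∑ j ∈ P.support, ((coeff j P : ℤ) : ℂ) * mon x j * z ^ (wtZ v j) := by
  unfold evz mon wtZ
  rw [aeval_def, eval₂_eq']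
  apply Finset.sum_congr rfl
  intro j _
  rw [mul_assoc]
  congr 1
  simp only [mul_pow]
  rw [Finset.prod_mul_distrib]
  congr 1
  have : ∀ s : Finset (Fin k), ∏ i ∈ s, (z ^ v i) ^ (j i) = z ^ (∑ i ∈ s, v i * (j i : ℤ)) := by
    intro s
    classical
    induction s using Finset.induction_on with
    | empty => simp
    | insert a s ha ih =>
      rw [Finset.prod_insert ha, Finset.sum_insert ha, zpow_add₀ hz, ih, zpow_mul, zpow_natCast]
  exact this Finset.univ

theorem evz_homog {v : Fin k → ℤ} (x : Tor k) {z : ℂ} (hz : z ≠ 0) {G : Pol k}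
    (hG : rl v ∈ Lam G) : evz v x z G = z ^ (ordZ v G) * ev G x := by
  rw [evz_eq_sum v x hz, ev_eq_sum, Finset.mul_sum]
  apply Finset.sum_congr rfl
  intro j hj
  have h1 : G ≠ 0 := by rintro rfl; simp at hj
  have h2 := wt_eq_ord_of_mem_Lam hG hj
  rw [wt_rl, ord_rl v h1] at h2
  have h3 : wtZ v j = ordZ v G := by exact_mod_cast h2
  rw [h3]; ring

theorem b2_up_natDegree_le (v : Fin k → ℤ) (P : Pol k) (x : Tor k) :
    (up v P x).natDegree ≤ wd' v P := by
  rw [up]
  apply Polynomial.natDegree_sum_le_of_forall_le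
  intro j hj
  refine (Polynomial.natDegree_C_mul_X_pow_le _ _).trans ?_
  have h1 := ordZ_le (l := v) hj
  have h2 := ordZ_le (l := -v) hj
  have h3 : wtZ (-v) j = -(wtZ v j) := by simp [wtZ]
  unfold wd'
  omega

theorem b2_coeff_up (v : Fin k → ℤ) {P : Pol k} (hP : P ≠ 0) (x : Tor k) :
    (up v P x).coeff (wd' v P) = ev (ini (rl (-v)) P) x := by
  classical
  rw [up, Polynomial.finsetSum_coeff, ev_eq_sum]
  have hsub : (ini (rl (-v)) P).support =
      P.support.filter (fun j => wt (rl (-v)) j = ord (rl (-v)) P) := by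
    ext j
    rw [mem_support_ini, Finset.mem_filter]
  rw [hsub, Finset.sum_filter]
  apply Finset.sum_congr rfl
  intro j hj
  rw [Polynomial.coeff_C_mul, Polynomial.coeff_X_pow, coeff_ini]
  have h := ordZ_le (l := v) hj
  have h' := ordZ_le (l := -v) hj
  have h0 : wtZ (-v) j = -(wtZ v j) := by simp [wtZ]
  have h3 : wt (rl (-v)) j = ord (rl (-v)) P ↔ wd' v P = (wtZ v j - ordZ v P).toNat := by
    rw [ord_rl (-v) hP, wt_rl, Int.cast_inj]
    unfold wd'
    omega
  by_cases h4 : wt (rl (-v)) j = ord (rl (-v)) P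
  · rw [if_pos h4, if_pos (h3.mp h4), if_pos h4, mul_one]
  · rw [if_neg h4, if_neg (fun h5 => h4 (h3.mpr h5)), mul_zero]

/-- the polynomial `∑ c_j X^(cons (a j) j) T^(wt j - ord)` over `Pol (k + 1)`. -/
noncomputable def b2F (v : Fin k → ℤ) (a : (Fin k →₀ ℕ) → ℕ) (P : Pol k) :
    Polynomial (Pol (k + 1)) :=
  ∑ j ∈ P.support, Polynomial.C (monomial (Finsupp.cons (a j) j) (coeff j P)) *
    Polynomial.X ^ ((wtZ v j - ordZ v P).toNat)

/-- evaluation with first coordinate `w`. -/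
noncomputable def b2E (w : ℂ) (x : Tor k) : Pol (k + 1) →ₐ[ℤ] ℂ :=
  aeval (Fin.cons w (fun i => e (x i)) : Fin (k + 1) → ℂ)

theorem b2E_monomial (w : ℂ) (x : Tor k) (n : ℕ) (j : Fin k →₀ ℕ) (c : ℤ) :
    b2E w x (monomial (Finsupp.cons n j) c) = (c : ℂ) * w ^ n * mon x j := by
  unfold b2E mon
  rw [aeval_monomial, Finsupp.prod_fintype _ _ (fun i => pow_zero _), Fin.prod_univ_succ]
  simp [mul_assoc]

theorem b2F_map (v : Fin k → ℤ) (a : (Fin k →₀ ℕ) → ℕ) (P : Pol k) (w : ℂ) (x : Tor k) :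
    (b2F v a P).map (b2E w x : Pol (k + 1) →ₐ[ℤ] ℂ).toRingHom =
      ∑ j ∈ P.support, Polynomial.C (((coeff j P : ℤ) : ℂ) * w ^ (a j) * mon x j) *
        Polynomial.X ^ ((wtZ v j - ordZ v P).toNat) := by
  unfold b2F
  rw [Polynomial.map_sum]
  apply Finset.sum_congr rfl
  intro j _
  rw [Polynomial.map_mul, Polynomial.map_C, Polynomial.map_pow, Polynomial.map_X]
  congr 2
  exact b2E_monomial w x (a j) j (coeff j P)

theorem b2F_zero (v : Fin k → ℤ) (P : Pol k) (w : ℂ) (x : Tor k) :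
    (b2F v (fun _ => 0) P).map (b2E w x : Pol (k + 1) →ₐ[ℤ] ℂ).toRingHom = up v P x := by
  rw [b2F_map, up]
  simp

theorem b2_ev (R : Pol (k + 1)) (s : UnitAddCircle) (x : Tor k) :
    ev R (Fin.cons s x : Tor (k + 1)) = b2E (e s) x R := by
  unfold ev b2E
  congr 2
  ext i
  refine Fin.cases ?_ (fun i => ?_) i <;> simp

theorem exists_res {P : Pol k} (hP : Irreducible P) {l v : Fin k → ℤ} (hl : rl l ∉ Lam P)
    (hv : rl v ∉ Lam P) : ∃ R : Pol (k + 1), R ≠ 0 ∧ ∀ (x : Tor k) (s : UnitAddCircle),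
      ‖ev R (Fin.cons s x : Tor (k + 1))‖ =
        ‖Polynomial.resultant (up v P x) (up v P (line l x s)) (wd' v P) (wd' v P)‖ := by
  classical
  have hP0 : P ≠ 0 := hP.ne_zero
  set n := wd' v P with hn
  set F1 := b2F v (fun _ => 0) P with hF1
  set F2 := b2F v (fun j => (wtZ l j - ordZ l P).toNat) P with hF2
  refine ⟨Polynomial.resultant F1 F2 n n, ?_, ?_⟩
  · -- the resultant is not zero
    intro hR
    set Q := ini (rl l) P with hQ
    have hQ0 : Q ≠ 0 := ini_ne_zero _ hP0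
    have hPQ : ¬ P ∣ Q := by
      rintro ⟨d, hd⟩
      have h1 : rl l ∈ Lam Q := mem_Lam_ini _ _
      have h2 : d ≠ 0 := by rintro rfl; rw [mul_zero] at hd; exact hQ0 hd
      rw [hd, Lam_mul hP0 h2] at h1
      exact hl h1.1
    obtain ⟨A, B, G, hG, hG0, hGl⟩ := b2_bezout_prime hP.prime hv hQ0 hPQ
    have hm : ini (rl v) P ≠ 0 := ini_ne_zero _ hP0
    have hM : ini (rl (-v)) P ≠ 0 := ini_ne_zero _ hP0
    obtain ⟨x, hx⟩ := (ae_ev_ne_zero (mul_ne_zero (mul_ne_zero hG0 hm) hM)).exists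
    rw [ev_mul, ev_mul] at hx
    have hx1 : ev G x ≠ 0 := fun h => hx (by rw [h]; ring)
    have hx2 : ev (ini (rl v) P) x ≠ 0 := fun h => hx (by rw [h]; ring)
    have hx3 : ev (ini (rl (-v)) P) x ≠ 0 := fun h => hx (by rw [h]; ring)
    have e1 := Polynomial.resultant_map_map F1 F2 n n (b2E 0 x : Pol (k + 1) →ₐ[ℤ] ℂ).toRingHom
    rw [hR, map_zero, b2F_zero] at e1
    set g := F2.map (b2E 0 x : Pol (k + 1) →ₐ[ℤ] ℂ).toRingHom with hg
    have hdeg : (up v P x).natDegree = n := by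
      apply le_antisymm (b2_up_natDegree_le v P x)
      apply Polynomial.le_natDegree_of_ne_zero
      rw [b2_coeff_up v hP0 x]; exact hx3
    have hgdeg : g.natDegree ≤ n := by
      rw [hg, hF2, b2F_map]
      apply Polynomial.natDegree_sum_le_of_forall_le
      intro j hj
      refine (Polynomial.natDegree_C_mul_X_pow_le _ _).trans ?_
      have h1 := ordZ_le (l := v) hj
      have h2 := ordZ_le (l := -v) hj
      have h3 : wtZ (-v) j = -(wtZ v j) := by simp [wtZ]
      rw [hn]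
      unfold wd'
      omega
    have hup : up v P x ≠ 0 := by
      intro h
      apply hx2
      rw [← coeff_zero_up v hP0 x, h, Polynomial.coeff_zero]
    have e2 := Polynomial.resultant_eq_prod_eval (up v P x) g n hgdeg (IsAlgClosed.splits _)
    rw [hdeg, e1] at e2
    have hlc : (up v P x).leadingCoeff ^ n ≠ 0 := pow_ne_zero _ (by simpa using hup)
    have e3 : (Multiset.map (fun z => g.eval z) (up v P x).roots).prod = 0 := by
      rcases mul_eq_zero.mp e2.symm with h | h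
      · exact absurd h hlc
      · exact h
    obtain ⟨z, hz, hz'⟩ := Multiset.mem_map.mp (Multiset.prod_eq_zero_iff.mp e3)
    have hzr : (up v P x).eval z = 0 := (Polynomial.mem_roots hup).mp hz
    have hz0 : z ≠ 0 := by
      rintro rfl
      apply hx2
      rw [← coeff_zero_up v hP0 x, Polynomial.coeff_zero_eq_eval_zero]
      exact hzr
    have f1 : evz v x z P = 0 := by
      have : evz v x z P = z ^ (ordZ v P) * (up v P x).eval z := by
        rw [evz_eq_sum v x hz0, up, Polynomial.eval_finsetSum, Finset.mul_sum]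
        apply Finset.sum_congr rfl
        intro j hj
        rw [Polynomial.eval_mul, Polynomial.eval_C, Polynomial.eval_pow, Polynomial.eval_X]
        have h := ordZ_le (l := v) hj
        have h2 : z ^ ((wtZ v j - ordZ v P).toNat) = z ^ (wtZ v j - ordZ v P) := by
          rw [← zpow_natCast, Int.toNat_of_nonneg (by omega)]
        rw [h2, show z ^ (wtZ v j) = z ^ (ordZ v P) * z ^ (wtZ v j - ordZ v P) by
          rw [← zpow_add₀ hz0]; congr 1; ring]
        ring
      rw [this, hzr, mul_zero]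
    have f2 : evz v x z Q = 0 := by
      have : evz v x z Q = z ^ (ordZ v P) * g.eval z := by
        rw [evz_eq_sum v x hz0, hg, hF2, b2F_map, Polynomial.eval_finsetSum, Finset.mul_sum]
        have hsub : Q.support =
            P.support.filter (fun j => wt (rl l) j = ord (rl l) P) := by
          ext j
          rw [hQ, mem_support_ini, Finset.mem_filter]
        rw [hsub, Finset.sum_filter]
        apply Finset.sum_congr rfl
        intro j hj
        rw [Polynomial.eval_mul, Polynomial.eval_C, Polynomial.eval_pow, Polynomial.eval_X, hQ,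
          coeff_ini]
        have h := ordZ_le (l := v) hj
        have h' := ordZ_le (l := l) hj
        have h2 : z ^ ((wtZ v j - ordZ v P).toNat) = z ^ (wtZ v j - ordZ v P) := by
          rw [← zpow_natCast, Int.toNat_of_nonneg (by omega)]
        have h3 : wt (rl l) j = ord (rl l) P ↔ (wtZ l j - ordZ l P).toNat = 0 := by
          rw [ord_rl l hP0, wt_rl, Int.cast_inj]
          omega
        by_cases h4 : wt (rl l) j = ord (rl l) P
        · rw [if_pos h4, if_pos h4, h3.mp h4, pow_zero, h2,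
            show z ^ (wtZ v j) = z ^ (ordZ v P) * z ^ (wtZ v j - ordZ v P) by
              rw [← zpow_add₀ hz0]; congr 1; ring]
          ring
        · rw [if_neg h4, zero_pow (fun h5 => h4 (h3.mpr h5))]
          ring
      rw [this, hz', mul_zero]
    have f3 : evz v x z G = 0 := by rw [hG, map_add, map_mul, map_mul, f1, f2]; ring
    rw [evz_homog x hz0 hGl] at f3
    rcases mul_eq_zero.mp f3 with h | h
    · exact zpow_ne_zero _ hz0 h
    · exact hx1 h
  · intro x s
    rw [b2_ev]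
    have e1 := Polynomial.resultant_map_map F1 F2 n n
      (b2E (e s) x : Pol (k + 1) →ₐ[ℤ] ℂ).toRingHom
    rw [b2F_zero] at e1
    have e2 : up v P (line l x s) = Polynomial.C (e s ^ (ordZ l P)) *
        F2.map (b2E (e s) x : Pol (k + 1) →ₐ[ℤ] ℂ).toRingHom := by
      rw [hF2, b2F_map, up, Finset.mul_sum]
      apply Finset.sum_congr rfl
      intro j hj
      rw [mon_line, ← mul_assoc (Polynomial.C _) (Polynomial.C _), ← Polynomial.C_mul]
      congr 2
      have h' := ordZ_le (l := l) hj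
      have h2 : e s ^ ((wtZ l j - ordZ l P).toNat) = e s ^ (wtZ l j - ordZ l P) := by
        rw [← zpow_natCast, Int.toNat_of_nonneg (by omega)]
      rw [h2, show e s ^ (wtZ l j) = e s ^ (ordZ l P) * e s ^ (wtZ l j - ordZ l P) by
        rw [← zpow_add₀ (e_ne_zero s)]; congr 1; ring]
      ring
    rw [e2, Polynomial.resultant_C_mul_right, e1, norm_mul, norm_pow, norm_zpow, norm_e]
    simp

end CP
end Pool.Agent.MP_44c6d5_nt
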