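import Pool.Agent.MP_44c6d5_nt.CP.Def

namespace Pool.Agent.MP_44c6d5_nt
namespace CP

open MeasureTheory Real Module

variable {k : ℕ}

theorem measurePreserving_cons :
    MeasurePreserving (fun p : UnitAddCircle × Tor k => (Fin.cons p.1 p.2 : Tor (k + 1)))
      ((volume : Measure UnitAddCircle).prod (volume : Measure (Tor k)))
      (volume : Measure (Tor (k + 1))) := by
  have h := (volume_preserving_piFinSuccAbove (fun _ : Fin (k + 1) => UnitAddCircle) 0).symm
  have h1 : (fun p : UnitAddCircle × Tor k => (Fin.cons p.1 p.2 : Tor (k + 1))) =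
      (MeasurableEquiv.piFinSuccAbove (fun _ : Fin (k + 1) => UnitAddCircle) 0).symm := by
    funext p
    exact (Fin.insertNth_zero (α := fun _ => UnitAddCircle) p.1 p.2).symm
  rw [h1]
  exact h

-- [B3]
theorem cons_props {R : Pol (k + 1)} (hR : R ≠ 0) :
    Integrable (fun p : UnitAddCircle × Tor k => log ‖ev R (Fin.cons p.1 p.2 : Tor (k + 1))‖)
      ((volume : Measure UnitAddCircle).prod (volume : Measure (Tor k))) ∧
    0 ≤ (∫ x : Tor k, ∫ s : UnitAddCircle, log ‖ev R (Fin.cons s x : Tor (k + 1))‖) ∧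
    ∀ᵐ x : Tor k, ∀ᵐ s : UnitAddCircle, ev R (Fin.cons s x : Tor (k + 1)) ≠ 0 := by
  have hmp := measurePreserving_cons (k := k)
  have hi : Integrable (fun p : UnitAddCircle × Tor k =>
      log ‖ev R (Fin.cons p.1 p.2 : Tor (k + 1))‖)
      ((volume : Measure UnitAddCircle).prod (volume : Measure (Tor k))) :=
    hmp.integrable_comp_of_integrable (integrable_log_ev hR)
  refine ⟨hi, ?_, ?_⟩
  · have h1 : mm R = ∫ p : UnitAddCircle × Tor k, log ‖ev R (Fin.cons p.1 p.2 : Tor (k + 1))‖
        ∂((volume : Measure UnitAddCircle).prod (volume : Measure (Tor k))) := by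
      unfold mm
      conv_lhs => rw [← hmp.map_eq]
      rw [integral_map hmp.measurable.aemeasurable]
      rw [hmp.map_eq]
      exact (integrable_log_ev hR).aestronglyMeasurable
    rw [integral_prod_symm _ hi] at h1
    rw [← h1]
    exact mm_nonneg hR
  · have h2 : MeasurePreserving (fun q : Tor k × UnitAddCircle => (Fin.cons q.2 q.1 : Tor (k + 1)))
        ((volume : Measure (Tor k)).prod (volume : Measure UnitAddCircle))
        (volume : Measure (Tor (k + 1))) :=
      hmp.comp Measure.measurePreserving_swap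
    exact Measure.ae_ae_of_ae_prod (h2.quasiMeasurePreserving.ae (ae_ev_ne_zero hR))

end CP
end Pool.Agent.MP_44c6d5_nt
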