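import Mathlib
import Pool.Agent.MP_44c6d5_nt.CP.A3
import Pool.Agent.MP_44c6d5_nt.CP.B1
import Pool.Agent.MP_44c6d5_nt.CP.B2
import Pool.Agent.MP_44c6d5_nt.CP.B3
import Pool.Agent.MP_44c6d5_nt.CP.B4

/-!
[B5] The energy of the line averages.
-/

namespace Pool.Agent.MP_44c6d5_nt
namespace CP

open MeasureTheory Real

variable {k : ℕ}

theorem b5_line_line (l : Fin k → ℤ) (x : Tor k) (s t : UnitAddCircle) :
    line l (line l x s) t = line l x (s + t) := by
  funext i
  simp only [line, smul_add, add_assoc]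

theorem b5_avg_line (l : Fin k → ℤ) (c : Tor k → ℂ) (x : Tor k) (s : UnitAddCircle) :
    ∫ t : UnitAddCircle, c (line l (line l x s) t) = ∫ t : UnitAddCircle, c (line l x t) := by
  simp only [b5_line_line]
  exact integral_add_left_eq_self (μ := (volume : Measure UnitAddCircle))
    (fun t => c (line l x t)) s

theorem b5_meas {c : Tor k → ℂ} (hc : Measurable c) (l : Fin k → ℤ) :
    Measurable fun p : UnitAddCircle × Tor k => c (line l p.2 p.1) :=
  hc.comp ((continuous_line l).comp (continuous_snd.prodMk continuous_fst)).measurable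

theorem b5_avg_meas {c : Tor k → ℂ} (hc : Measurable c) (l : Fin k → ℤ) :
    Measurable fun x : Tor k => ∫ s : UnitAddCircle, c (line l x s) := by
  have h : Measurable fun p : Tor k × UnitAddCircle => c (line l p.1 p.2) :=
    hc.comp (continuous_line l).measurable
  exact (h.stronglyMeasurable.integral_prod_right' (ν := (volume : Measure UnitAddCircle))).measurable

theorem b5_int {X : Type*} [MeasurableSpace X] {μ : Measure X} [IsProbabilityMeasure μ]
    {f : X → ℂ} (hf : Measurable f) {B : ℝ} (hB : ∀ x, ‖f x‖ ≤ B) : Integrable f μ :=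
  (integrable_const B).mono' hf.aestronglyMeasurable (Filter.Eventually.of_forall hB)

/-- The average over the lines is an orthogonal projection. -/
theorem b5_proj (l : Fin k → ℤ) {c : Tor k → ℂ} (hc : Measurable c) {B : ℝ}
    (hB : ∀ x, ‖c x‖ ≤ B) :
    ∫ x : Tor k, ∫ s : UnitAddCircle, ((starRingEnd ℂ (c x)) * c (line l x s)).re =
      ∫ x : Tor k, ‖∫ s : UnitAddCircle, c (line l x s)‖ ^ 2 := by
  set C : Tor k → ℂ := fun x => ∫ s : UnitAddCircle, c (line l x s) with hC
  have hCm : Measurable C := b5_avg_meas hc l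
  have hB0 : 0 ≤ B := (norm_nonneg _).trans (hB 0)
  have hCB : ∀ x, ‖C x‖ ≤ B := by
    intro x
    refine (norm_integral_le_of_norm_le_const (C := B)
      (Filter.Eventually.of_forall fun s => hB _)).trans ?_
    simp
  have hcl : ∀ x, Integrable fun s : UnitAddCircle => c (line l x s) := fun x =>
    b5_int (hc.comp ((continuous_line l).comp (Continuous.prodMk_right x)).measurable)
      fun s => hB _
  have h1 : ∀ x, ∫ s : UnitAddCircle, ((starRingEnd ℂ (c x)) * c (line l x s)).re =
      ((starRingEnd ℂ (c x)) * C x).re := by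
    intro x
    have h2 := integral_re ((hcl x).const_mul (starRingEnd ℂ (c x)))
    rw [integral_const_mul] at h2
    exact h2
  have h3 : Integrable fun x => ((starRingEnd ℂ (c x)) * C x).re := by
    have h4 : Integrable fun x => (starRingEnd ℂ (c x)) * C x := by
      refine b5_int ((Complex.continuous_conj.measurable.comp hc).mul hCm) (B := B * B) fun x => ?_
      rw [norm_mul, RCLike.norm_conj]
      exact mul_le_mul (hB x) (hCB x) (norm_nonneg _) hB0
    exact h4.re
  simp only [h1]
  rw [integral_line l h3]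
  refine integral_congr_ae (Filter.Eventually.of_forall fun x => ?_)
  simp only
  have h5 : ∀ s : UnitAddCircle, C (line l x s) = C x := fun s => b5_avg_line l c x s
  simp only [h5]
  have h7 : Integrable fun s : UnitAddCircle => (starRingEnd ℂ (c (line l x s))) * C x := by
    refine b5_int ((Complex.continuous_conj.measurable.comp (hc.comp ((continuous_line l).comp
      (Continuous.prodMk_right x)).measurable)).mul_const _) (B := B * B) fun s => ?_
    rw [norm_mul, RCLike.norm_conj]
    exact mul_le_mul (hB _) (hCB x) (norm_nonneg _) hB0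
  have h6 := integral_re h7
  rw [integral_mul_const, integral_conj] at h6
  refine h6.trans ?_
  have h8 : (starRingEnd ℂ (∫ s : UnitAddCircle, c (line l x s))) * C x =
      ((‖C x‖ ^ 2 : ℝ) : ℂ) := by
    rw [← Complex.normSq_eq_norm_sq]
    exact Complex.normSq_eq_conj_mul_self.symm
  rw [h8]
  exact Complex.ofReal_re _

/-- A series with bounded measurable terms. -/
theorem b5_series {X : Type*} [MeasurableSpace X] {μ : Measure X} [IsProbabilityMeasure μ]
    {F : ℕ → X → ℝ} (hF : ∀ m, Measurable (F m)) {a : ℕ → ℝ} (ha : Summable a)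
    (hFa : ∀ m x, |F m x| ≤ a m) : Integrable (fun x => ∑' m, F m x) μ ∧
      ∫ x, ∑' m, F m x ∂μ = ∑' m, ∫ x, F m x ∂μ := by
  have hi : ∀ m, Integrable (F m) μ := fun m =>
    (integrable_const (a m)).mono' (hF m).aestronglyMeasurable
      (Filter.Eventually.of_forall fun x => hFa m x)
  have hs : Summable fun m => ∫ x, ‖F m x‖ ∂μ := by
    refine Summable.of_nonneg_of_le (fun m => integral_nonneg fun x => norm_nonneg _)
      (fun m => ?_) ha
    calc ∫ x, ‖F m x‖ ∂μ ≤ ∫ _x, a m ∂μ :=
          integral_mono (hi m).norm (integrable_const _) fun x => hFa m x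
      _ = a m := by simp
  refine ⟨?_, ((hasSum_integral_of_summable_integral_norm hi hs).tsum_eq).symm⟩
  have hm : Measurable fun x => ∑' m, F m x := by
    have h1 : ∀ x, Summable fun m => F m x := fun x =>
      Summable.of_norm_bounded ha fun m => hFa m x
    have h2 : Filter.Tendsto (fun N : ℕ => fun x => ∑ m ∈ Finset.range N, F m x) Filter.atTop
        (nhds fun x => ∑' m, F m x) := by
      rw [tendsto_pi_nhds]
      exact fun x => (h1 x).hasSum.tendsto_sum_nat
    refine measurable_of_tendsto_metrizable (fun N => ?_) h2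
    exact Finset.measurable_sum _ fun m _ => hF m
  refine (integrable_const (∑' m, a m)).mono' hm.aestronglyMeasurable
    (Filter.Eventually.of_forall fun x => ?_)
  exact tsum_of_norm_bounded ha.hasSum fun m => hFa m x

theorem E1 {P : Pol k} (hP : Irreducible P) {l v : Fin k → ℤ} (hl : rl l ∉ Lam P)
    (hv : rl v ∉ Lam P) {ρ : ℝ} (h0 : 0 < ρ) (h1 : ρ < 1) :
    ∫ x : Tor k, EB ρ v l P x ≤
      2 * (wd' v P) * mm P + (wd' v P : ℝ) ^ 2 * log (2 / (1 + ρ)) := by
  have hP0 : P ≠ 0 := hP.ne_zero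
  obtain ⟨R, hR0, hR⟩ := exists_res hP hl hv
  obtain ⟨hRi, hRn, hRa⟩ := cons_props hR0
  set n : ℕ := wd' v P with hn
  set Q : Pol k := ini (rl (-v)) P with hQ
  have hQ0 : Q ≠ 0 := ini_ne_zero _ hP0
  set I : Tor k → ℝ := fun x => ∫ t : UnitAddCircle, log ‖ev P (line v x t)‖ with hI
  have hIi : Integrable I := integrable_integral_line v (integrable_log_ev hP0)
  have hIm : ∫ x, I x = mm P := (integral_line v (integrable_log_ev hP0)).symm
  -- the coefficients
  have hc : ∀ m, Measurable (cm v P m) := fun m => measurable_cm v P m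
  have hcn : ∀ m : ℕ, 1 ≤ m → ∀ x, ‖cm v P m x‖ ≤ (n : ℝ) / (2 * m) := fun m hm x =>
    norm_cm_le v hP0 hm x
  set F : ℕ → UnitAddCircle × Tor k → ℝ := fun m p =>
    4 * (m : ℝ) * ρ ^ m * ((starRingEnd ℂ (cm v P m p.2)) * cm v P m (line l p.2 p.1)).re with hF
  set D : ℕ → Tor k → ℝ := fun m x =>
    4 * (m : ℝ) * ρ ^ m * ‖∫ s : UnitAddCircle, cm v P m (line l x s)‖ ^ 2 with hD
  have hFm : ∀ m, Measurable (F m) := fun m =>
    ((Complex.measurable_re.comp ((Complex.continuous_conj.measurable.comp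
      ((hc m).comp measurable_snd)).mul (b5_meas (hc m) l))).const_mul _)
  have hDm : ∀ m, Measurable (D m) := fun m =>
    ((b5_avg_meas (hc m) l).norm.pow_const 2).const_mul _
  have ha : Summable fun m : ℕ => (n : ℝ) ^ 2 * ρ ^ m :=
    (summable_geometric_of_lt_one h0.le h1).mul_left _
  have hq : ∀ m : ℕ, ∀ y : ℝ, |y| ≤ ((n : ℝ) / (2 * m)) ^ 2 →
      |4 * (m : ℝ) * ρ ^ m * y| ≤ (n : ℝ) ^ 2 * ρ ^ m := by
    intro m y hy
    have hρm : 0 ≤ ρ ^ m := pow_nonneg h0.le m
    rcases Nat.eq_zero_or_pos m with rfl | hm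
    · simp
    · have hm1 : (1 : ℝ) ≤ m := by exact_mod_cast hm
      rw [abs_mul, abs_of_nonneg (by positivity : (0 : ℝ) ≤ 4 * (m : ℝ) * ρ ^ m)]
      calc 4 * (m : ℝ) * ρ ^ m * |y| ≤ 4 * (m : ℝ) * ρ ^ m * ((n : ℝ) / (2 * m)) ^ 2 := by gcongr
        _ = (n : ℝ) ^ 2 * ρ ^ m * (1 / m) := by
            field_simp
            ring
        _ ≤ (n : ℝ) ^ 2 * ρ ^ m * 1 := by
            gcongr
            rw [div_le_one (by linarith)]
            exact hm1
        _ = _ := mul_one _
  have hFa : ∀ m p, |F m p| ≤ (n : ℝ) ^ 2 * ρ ^ m := by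
    intro m p
    rcases Nat.eq_zero_or_pos m with rfl | hm
    · simp only [hF]
      simp
    · refine hq m _ ((Complex.abs_re_le_norm _).trans ?_)
      rw [norm_mul, RCLike.norm_conj, sq]
      exact mul_le_mul (hcn m hm _) (hcn m hm _) (norm_nonneg _) (by positivity)
  have hDa : ∀ m x, |D m x| ≤ (n : ℝ) ^ 2 * ρ ^ m := by
    intro m x
    rcases Nat.eq_zero_or_pos m with rfl | hm
    · simp only [hD]
      simp
    · refine hq m _ ?_
      rw [abs_of_nonneg (by positivity)]
      refine pow_le_pow_left₀ (norm_nonneg _) ?_ 2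
      refine (norm_integral_le_of_norm_le_const (C := (n : ℝ) / (2 * m))
        (Filter.Eventually.of_forall fun s => hcn m hm _)).trans ?_
      simp
  set μ : Measure (UnitAddCircle × Tor k) :=
    (volume : Measure UnitAddCircle).prod (volume : Measure (Tor k)) with hμ
  obtain ⟨hF1, hF2⟩ := b5_series (μ := μ) hFm ha hFa
  obtain ⟨-, hD2⟩ := b5_series (μ := (volume : Measure (Tor k))) hDm ha hDa
  have hFD : ∀ m, ∫ p, F m p ∂μ = ∫ x, D m x := by
    intro m
    have hFi : Integrable (F m) μ :=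
      (integrable_const _).mono' (hFm m).aestronglyMeasurable
        (Filter.Eventually.of_forall fun p => hFa m p)
    rw [hμ, integral_prod_symm _ hFi]
    rcases Nat.eq_zero_or_pos m with rfl | hm
    · simp only [hF, hD]
      simp
    · have h2 := b5_proj l (hc m) (B := (n : ℝ) / (2 * m)) (hcn m hm)
      simp only [hF, hD]
      rw [integral_const_mul]
      rw [← h2, ← integral_const_mul]
      refine integral_congr_ae (Filter.Eventually.of_forall fun x => ?_)
      simp only
      rw [integral_const_mul]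
  have hEB : ∫ x : Tor k, EB ρ v l P x = ∫ p, ∑' m, F m p ∂μ := by
    rw [hF2]
    have h2 : ∫ x : Tor k, EB ρ v l P x = ∑' m, ∫ x, D m x := hD2
    rw [h2]
    exact tsum_congr fun m => (hFD m).symm
  -- the pointwise inequality
  have hcons : Continuous fun p : UnitAddCircle × Tor k => (Fin.cons p.1 p.2 : Tor (k + 1)) := by
    refine continuous_pi fun i => ?_
    refine Fin.cases ?_ (fun j => ?_) i
    · simp only [Fin.cons_zero]
      exact continuous_fst
    · simp only [Fin.cons_succ]
      exact (continuous_apply j).comp continuous_snd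
  have hRμ : ∀ᵐ p ∂μ, ev R (Fin.cons p.1 p.2 : Tor (k + 1)) ≠ 0 := by
    have hms : MeasurableSet {p : UnitAddCircle × Tor k |
        ev R (Fin.cons p.1 p.2 : Tor (k + 1)) ≠ 0} :=
      (isOpen_ne_fun ((continuous_ev R).comp hcons) continuous_const).measurableSet
    rw [hμ, Measure.ae_prod_iff_ae_ae hms]
    exact (Measure.ae_ae_comm (p := fun (s : UnitAddCircle) (x : Tor k) =>
      ev R (Fin.cons s x : Tor (k + 1)) ≠ 0) hms).2 hRa
  have hQ1 : ∀ᵐ p ∂μ, ev Q p.2 ≠ 0 :=
    (measurePreserving_snd (μ := (volume : Measure UnitAddCircle))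
      (ν := (volume : Measure (Tor k)))).quasiMeasurePreserving.ae (ae_ev_ne_zero hQ0)
  have hQ2 : ∀ᵐ p ∂μ, ev Q (line l p.2 p.1) ≠ 0 :=
    (measurePreserving_line l).quasiMeasurePreserving.ae (ae_ev_ne_zero hQ0)
  have hdeg : ∀ x, ev Q x ≠ 0 → up v P x ≠ 0 ∧ (up v P x).natDegree = n := by
    intro x hx
    have h2 : (up v P x).coeff n ≠ 0 := by
      rw [hn, coeff_up_wd v hP0 x]
      exact hx
    refine ⟨fun h => h2 (by rw [h, Polynomial.coeff_zero]), le_antisymm (natDegree_up_le v hP0 x) ?_⟩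
    exact Polynomial.le_natDegree_of_ne_zero h2
  have hpt : ∀ᵐ p ∂μ, log ‖ev R (Fin.cons p.1 p.2 : Tor (k + 1))‖ ≤
      n * I p.2 + n * I (line l p.2 p.1) + (n : ℝ) ^ 2 * log (2 / (1 + ρ)) - ∑' m, F m p := by
    filter_upwards [hRμ, hQ1, hQ2] with p hp1 hp2 hp3
    obtain ⟨s, x⟩ := p
    simp only at hp1 hp2 hp3 ⊢
    obtain ⟨ha1, ha2⟩ := hdeg x hp2
    obtain ⟨hb1, hb2⟩ := hdeg _ hp3
    have hres : Polynomial.resultant (up v P x) (up v P (line l x s)) n n ≠ 0 := by
      rw [← norm_ne_zero_iff, ← hR x s, norm_ne_zero_iff]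
      exact hp1
    have h2 := pair_bound ha1 hb1 ha2 hb2 hres h0 h1
    rw [← hR x s] at h2
    simp only [← norm_ev_line] at h2
    exact h2
  -- integration
  have hIs : Integrable (fun p : UnitAddCircle × Tor k => I p.2) μ :=
    hIi.comp_snd (volume : Measure UnitAddCircle)
  have hIl : Integrable (fun p : UnitAddCircle × Tor k => I (line l p.2 p.1)) μ :=
    integrable_line_prod l hIi
  have i1 : Integrable (fun p : UnitAddCircle × Tor k => (n : ℝ) * I p.2) μ := hIs.const_mul _
  have i2 : Integrable (fun p : UnitAddCircle × Tor k => (n : ℝ) * I (line l p.2 p.1)) μ :=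
    hIl.const_mul _
  have i3 : Integrable (fun _ : UnitAddCircle × Tor k => (n : ℝ) ^ 2 * log (2 / (1 + ρ))) μ :=
    integrable_const _
  have i12 : Integrable (fun p : UnitAddCircle × Tor k => n * I p.2 + n * I (line l p.2 p.1)) μ :=
    i1.add i2
  have i123 : Integrable (fun p : UnitAddCircle × Tor k => n * I p.2 + n * I (line l p.2 p.1) +
      (n : ℝ) ^ 2 * log (2 / (1 + ρ))) μ := i12.add i3
  have hrhs : Integrable (fun p : UnitAddCircle × Tor k => n * I p.2 + n * I (line l p.2 p.1) +
      (n : ℝ) ^ 2 * log (2 / (1 + ρ)) - ∑' m, F m p) μ := i123.sub hF1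
  have h3 := integral_mono_ae hRi hrhs hpt
  have h4 : 0 ≤ ∫ p : UnitAddCircle × Tor k, log ‖ev R (Fin.cons p.1 p.2 : Tor (k + 1))‖ ∂μ := by
    rw [hμ, integral_prod_symm _ hRi]
    exact hRn
  have h5 : ∫ p : UnitAddCircle × Tor k, I p.2 ∂μ = mm P := by
    rw [hμ, integral_prod_symm _ hIs]
    simp only [integral_const, probReal_univ, one_smul]
    exact hIm
  have h6 : ∫ p : UnitAddCircle × Tor k, I (line l p.2 p.1) ∂μ = mm P := by
    rw [hμ, integral_prod_symm _ hIl, ← integral_line l hIi]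
    exact hIm
  have h7 : ∫ p : UnitAddCircle × Tor k, (n * I p.2 + n * I (line l p.2 p.1) +
      (n : ℝ) ^ 2 * log (2 / (1 + ρ)) - ∑' m, F m p) ∂μ =
      n * mm P + n * mm P + (n : ℝ) ^ 2 * log (2 / (1 + ρ)) - ∫ p, ∑' m, F m p ∂μ := by
    rw [integral_sub i123 hF1, integral_add i12 i3, integral_add i1 i2, integral_const_mul,
      integral_const_mul, h5, h6]
    simp
  rw [hEB]
  rw [h7] at h3
  linarith

end CP
end Pool.Agent.MP_44c6d5_nt
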