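import Mathlib
import Pool.Agent.MP_44c6d5_nt.CP.Def
import Pool.Agent.MP_44c6d5_nt.CP.A2
import Pool.Agent.MP_44c6d5_nt.CP.A5
import Pool.Agent.MP_44c6d5_nt.CP.A12
import Pool.Agent.MP_44c6d5_nt.CP.B1

namespace Pool.Agent.MP_44c6d5_nt
namespace CP

open MeasureTheory Real Module

variable {k : ℕ}

/-! ### B6 -/

theorem b6_kap_series {w : ℂ} (hw : ‖w‖ < 1) :
    HasSum (fun m : ℕ => 4 * ((m : ℝ) * (w ^ m).re)) (kap w) := by
  have h := hasSum_coe_mul_geometric_of_norm_lt_one (𝕜 := ℂ) hw
  have h2 := (Complex.hasSum_re h).mul_left 4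
  have h3 : (fun m : ℕ => 4 * ((m : ℝ) * (w ^ m).re)) =
      fun m : ℕ => 4 * ((m : ℂ) * w ^ m).re := by
    funext m
    rw [← Complex.ofReal_natCast, Complex.re_ofReal_mul]
  rw [h3]
  exact h2

theorem b6_e_neg (t : UnitAddCircle) : e (-t) = starRingEnd ℂ (e t) := by
  have h := e_zsmul (-1) t
  rw [neg_one_zsmul, zpow_neg_one] at h
  rw [h, Complex.inv_def, Complex.normSq_eq_norm_sq, norm_e]; simp

theorem b6_int {f : UnitAddCircle → ℝ} (hf : Integrable f) {ρ : ℝ} (h0 : 0 ≤ ρ) (h1 : ρ < 1)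
    (s : UnitAddCircle) :
    HasSum (fun m : ℕ => 4 * ((m : ℝ) * (ρ ^ m * ((e s) ^ m * fc f m).re)))
      (∫ t : UnitAddCircle, f t * kap ((ρ : ℂ) * e (s - t))) := by
  have hwn : ∀ t : UnitAddCircle, ‖(ρ : ℂ) * e (s - t)‖ = ρ := by
    intro t
    rw [norm_mul, norm_e, mul_one, Complex.norm_real, Real.norm_of_nonneg h0]
  have hcont : ∀ m : ℕ, Continuous fun t : UnitAddCircle =>
      4 * ((m : ℝ) * (((ρ : ℂ) * e (s - t)) ^ m).re) := by
    intro m
    have hc : Continuous fun t : UnitAddCircle => e (s - t) :=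
      continuous_e.comp (continuous_const.sub continuous_id)
    exact continuous_const.mul (continuous_const.mul
      (Complex.continuous_re.comp ((continuous_const.mul hc).pow m)))
  have hbd : ∀ (m : ℕ) (t : UnitAddCircle),
      ‖4 * ((m : ℝ) * (((ρ : ℂ) * e (s - t)) ^ m).re)‖ ≤ 4 * (m * ρ ^ m) := by
    intro m t
    rw [norm_mul, norm_mul, Real.norm_of_nonneg (by norm_num : (0 : ℝ) ≤ 4),
      Real.norm_of_nonneg (Nat.cast_nonneg m)]
    have h2 : ‖(((ρ : ℂ) * e (s - t)) ^ m).re‖ ≤ ρ ^ m := by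
      refine (Complex.abs_re_le_norm _).trans ?_
      rw [norm_pow, hwn]
    gcongr
  have hI : ∀ m : ℕ, Integrable fun t : UnitAddCircle =>
      f t * (4 * ((m : ℝ) * (((ρ : ℂ) * e (s - t)) ^ m).re)) := fun m =>
    hf.mul_bdd (c := 4 * (m * ρ ^ m)) (hcont m).aestronglyMeasurable
      (Filter.Eventually.of_forall (hbd m))
  have hsum : Summable fun m : ℕ => ∫ t : UnitAddCircle,
      ‖f t * (4 * ((m : ℝ) * (((ρ : ℂ) * e (s - t)) ^ m).re))‖ := by
    have hs0 : Summable fun m : ℕ => (∫ t, ‖f t‖) * (4 * ((m : ℝ) * ρ ^ m)) := by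
      apply Summable.mul_left
      apply Summable.mul_left
      have h3 : ‖ρ‖ < 1 := by rwa [Real.norm_of_nonneg h0]
      exact (hasSum_coe_mul_geometric_of_norm_lt_one (𝕜 := ℝ) h3).summable
    refine Summable.of_nonneg_of_le (fun m => integral_nonneg fun t => norm_nonneg _)
      (fun m => ?_) hs0
    rw [← integral_mul_const]
    refine integral_mono (hI m).norm (hf.norm.mul_const _) fun t => ?_
    change ‖f t * (4 * ((m : ℝ) * (((ρ : ℂ) * e (s - t)) ^ m).re))‖ ≤ ‖f t‖ * _
    rw [norm_mul (f t)]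
    exact mul_le_mul_of_nonneg_left (hbd m t) (norm_nonneg _)
  have key := hasSum_integral_of_summable_integral_norm hI hsum
  have hlim : ∀ t : UnitAddCircle, (∑' m : ℕ, f t *
      (4 * ((m : ℝ) * (((ρ : ℂ) * e (s - t)) ^ m).re))) = f t * kap ((ρ : ℂ) * e (s - t)) := by
    intro t
    rw [tsum_mul_left, (b6_kap_series (by rw [hwn]; exact h1)).tsum_eq]
  simp only [hlim] at key
  have hterm : (fun m : ℕ => 4 * ((m : ℝ) * (ρ ^ m * ((e s) ^ m * fc f m).re))) =
      fun m : ℕ => ∫ t : UnitAddCircle, f t *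
        (4 * ((m : ℝ) * (((ρ : ℂ) * e (s - t)) ^ m).re)) := by
    funext m
    have hIc : Integrable fun t : UnitAddCircle => (f t : ℂ) * (starRingEnd ℂ (e t)) ^ m := by
      refine hf.ofReal.mul_bdd (c := 1) ?_ (Filter.Eventually.of_forall fun t => ?_)
      · exact ((Complex.continuous_conj.comp continuous_e).pow m).aestronglyMeasurable
      · rw [norm_pow, RCLike.norm_conj, norm_e, one_pow]
    have h6 : ∀ t : UnitAddCircle, f t * (4 * ((m : ℝ) * (((ρ : ℂ) * e (s - t)) ^ m).re)) =
        (4 * ((m : ℝ) * ρ ^ m)) *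
          Complex.reCLM ((e s) ^ m * ((f t : ℂ) * (starRingEnd ℂ (e t)) ^ m)) := by
      intro t
      rw [sub_eq_add_neg, e_add, b6_e_neg, Complex.reCLM_apply]
      have h7 : ((ρ : ℂ) * (e s * starRingEnd ℂ (e t))) ^ m =
          ((ρ ^ m : ℝ) : ℂ) * ((e s) ^ m * (starRingEnd ℂ (e t)) ^ m) := by
        rw [mul_pow, mul_pow]; push_cast; rfl
      have h8 : (e s) ^ m * ((f t : ℂ) * (starRingEnd ℂ (e t)) ^ m) =
          ((f t : ℝ) : ℂ) * ((e s) ^ m * (starRingEnd ℂ (e t)) ^ m) := by ring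
      rw [h7, h8, Complex.re_ofReal_mul, Complex.re_ofReal_mul]
      ring
    simp only [h6]
    rw [integral_const_mul, ContinuousLinearMap.integral_comp_comm _ (hIc.const_mul _),
      integral_const_mul, Complex.reCLM_apply]
    unfold fc
    ring
  rw [hterm]
  exact key

theorem b6_multiset (S : Multiset ℂ) {ρ : ℝ} (h0 : 0 ≤ ρ) (h1 : ρ < 1) (s : UnitAddCircle) :
    HasSum (fun m : ℕ => if m = 0 then 0 else
        2 * (ρ ^ m * ((e s) ^ m * (S.map fun z => (starRingEnd ℂ (hat z)) ^ m).sum).re))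
      ((S.map fun z => PK ((ρ : ℂ) * (starRingEnd ℂ (hat z)) * e s)).sum - Multiset.card S) := by
  induction S using Multiset.induction_on with
  | empty =>
    have h : (fun m : ℕ => if m = 0 then (0 : ℝ) else
        2 * (ρ ^ m * ((e s) ^ m * (Multiset.map (fun z => (starRingEnd ℂ (hat z)) ^ m)
          (0 : Multiset ℂ)).sum).re)) = fun _ => 0 := by
      funext m; simp
    rw [h]; simp
  | cons a S ih =>
    have hw : ‖(ρ : ℂ) * (starRingEnd ℂ (hat a)) * e s‖ < 1 := by
      rw [norm_mul, norm_e, mul_one, norm_mul, Complex.norm_real, Real.norm_of_nonneg h0,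
        RCLike.norm_conj]
      calc ρ * ‖hat a‖ ≤ ρ * 1 := mul_le_mul_of_nonneg_left (norm_hat_le a) h0
        _ < 1 := by rw [mul_one]; exact h1
    have h2 := (PK_series hw).sub (hasSum_ite_eq (0 : ℕ) (1 : ℝ))
    have h3 := h2.add ih
    simp only [Multiset.map_cons, Multiset.sum_cons, Multiset.card_cons]
    have e1 : (fun m : ℕ => if m = 0 then (0 : ℝ) else
        2 * (ρ ^ m * ((e s) ^ m * ((starRingEnd ℂ (hat a)) ^ m +
          (S.map fun z => (starRingEnd ℂ (hat z)) ^ m).sum)).re)) =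
        fun m : ℕ => ((if m = 0 then (1 : ℝ) else
          2 * (((ρ : ℂ) * (starRingEnd ℂ (hat a)) * e s) ^ m).re) - if m = 0 then 1 else 0) +
          if m = 0 then 0 else
        2 * (ρ ^ m * ((e s) ^ m * (S.map fun z => (starRingEnd ℂ (hat z)) ^ m).sum).re) := by
      funext m
      by_cases hm : m = 0
      · simp [hm]
      · simp only [hm, if_false, sub_zero]
        have h7 : ((ρ : ℂ) * (starRingEnd ℂ (hat a)) * e s) ^ m =
            ((ρ ^ m : ℝ) : ℂ) * ((e s) ^ m * (starRingEnd ℂ (hat a)) ^ m) := by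
          rw [mul_pow, mul_pow]; push_cast; ring
        rw [h7, Complex.re_ofReal_mul, mul_add, Complex.add_re]
        ring
    have e2 : PK ((ρ : ℂ) * (starRingEnd ℂ (hat a)) * e s) +
        (S.map fun z => PK ((ρ : ℂ) * (starRingEnd ℂ (hat z)) * e s)).sum -
          ((Multiset.card S + 1 : ℕ) : ℝ) =
        (PK ((ρ : ℂ) * (starRingEnd ℂ (hat a)) * e s) - 1) +
        ((S.map fun z => PK ((ρ : ℂ) * (starRingEnd ℂ (hat z)) * e s)).sum -
          (Multiset.card S : ℝ)) := by
      push_cast; ring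
    rw [e1, e2]
    exact h3

theorem nu_eq {q : Polynomial ℂ} (hq : q ≠ 0) {ρ : ℝ} (h0 : 0 ≤ ρ) (h1 : ρ < 1)
    (s : UnitAddCircle) :
    nu ρ q s = Multiset.card q.roots -
      ∫ t : UnitAddCircle, log ‖q.eval (e t)‖ * kap ((ρ : ℂ) * e (s - t)) := by
  have h2 := b6_int (integrable_log_norm_e q) h0 h1 s
  have h3 := (b6_multiset q.roots h0 h1 s).neg
  have h4 : (fun m : ℕ => 4 * ((m : ℝ) * (ρ ^ m * ((e s) ^ m *
      fc (fun t => log ‖q.eval (e t)‖) m).re))) = fun m : ℕ => -(if m = 0 then 0 else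
        2 * (ρ ^ m * ((e s) ^ m *
          (q.roots.map fun z => (starRingEnd ℂ (hat z)) ^ m).sum).re)) := by
    funext m
    by_cases hm : m = 0
    · simp [hm]
    · have hm1 : 1 ≤ m := Nat.one_le_iff_ne_zero.mpr hm
      rw [fc_poly hq hm1, if_neg hm]
      set Z := (q.roots.map fun z => (starRingEnd ℂ (hat z)) ^ m).sum with hZ
      have hm0 : (m : ℝ) ≠ 0 := by exact_mod_cast hm
      have h5 : (e s) ^ m * (-Z / (2 * (m : ℂ))) =
          ((-(1 / (2 * m)) : ℝ) : ℂ) * ((e s) ^ m * Z) := by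
        push_cast
        have : (m : ℂ) ≠ 0 := by exact_mod_cast hm
        field_simp
      rw [h5, Complex.re_ofReal_mul]
      field_simp
      ring
  rw [h4] at h2
  have h5 := h2.unique h3
  unfold nu
  rw [h5]
  ring

theorem b6_meas_kap : Measurable kap := by
  have h : Measurable fun w : ℂ => w / (1 - w) ^ 2 :=
    measurable_id.div ((measurable_const.sub measurable_id).pow_const 2)
  exact (Complex.measurable_re.comp h).const_mul 4

theorem b6_meas_PK : Measurable PK := by
  have h : Measurable fun w : ℂ => (1 + w) / (1 - w) :=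
    (measurable_const.add measurable_id).div (measurable_const.sub measurable_id)
  exact Complex.measurable_re.comp h

theorem b6_meas_line (v : Fin k → ℤ) :
    Measurable fun p : Tor k × UnitAddCircle => line v p.1 p.2 := (continuous_line v).measurable

theorem measurable_NU (v : Fin k → ℤ) (G : Pol k) (N : ℕ) (ρ : ℝ) : Measurable (NU v G N ρ) := by
  unfold NU
  apply Measurable.const_sub
  have hm : Measurable (Function.uncurry fun (x : Tor k) (t : UnitAddCircle) =>
      log ‖ev G (line v x t)‖ * kap ((ρ : ℂ) * e (-t))) := by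
    apply Measurable.mul
    · exact (measurable_log_ev G).comp (b6_meas_line v)
    · exact b6_meas_kap.comp ((continuous_const.mul
        (continuous_e.comp continuous_snd.neg)).measurable)
  exact (StronglyMeasurable.integral_prod_right hm.stronglyMeasurable).measurable

theorem measurable_KK (v : Fin k → ℤ) (G : Pol k) (N : ℕ) (r : ℝ) : Measurable (KK v G N r) := by
  unfold KK
  apply Measurable.const_mul
  have hm : Measurable (Function.uncurry fun (x : Tor k) (s : UnitAddCircle) =>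
      PK (((1 - r) ^ 2 : ℝ) * e (-s)) * min (NU v G N (1 - r) (line v x s)) (1 / r)) := by
    apply Measurable.mul
    · exact b6_meas_PK.comp ((continuous_const.mul
        (continuous_e.comp continuous_snd.neg)).measurable)
    · exact ((measurable_NU v G N (1 - r)).comp (b6_meas_line v)).min measurable_const
  exact (StronglyMeasurable.integral_prod_right hm.stronglyMeasurable).measurable

theorem b6_line_comm (v w : Fin k → ℤ) (x : Tor k) (s t : UnitAddCircle) :
    line v (line w x t) s = line w (line v x s) t := by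
  funext i
  simp only [line]
  abel

theorem b6_line_add (v : Fin k → ℤ) (x : Tor k) (s t : UnitAddCircle) :
    line v (line v x t) s = line v x (t + s) := by
  funext i
  simp only [line]
  rw [zsmul_add, add_assoc]

theorem b6_norm_inv {G : Pol k} {w : Fin k → ℤ} (hw : rl w ∈ Lam G) (x : Tor k)
    (t : UnitAddCircle) : ‖ev G (line w x t)‖ = ‖ev G x‖ := by
  have h : ev G (line w x t) = e t ^ (ordZ w G) * ev G x := by
    rw [ev_eq_sum, ev_eq_sum, Finset.mul_sum]
    apply Finset.sum_congr rfl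
    intro j hj
    have hG : G ≠ 0 := by rintro rfl; simp at hj
    have h1 := wt_eq_ord_of_mem_Lam hw hj
    rw [ord_rl w hG, wt_rl, Int.cast_inj] at h1
    rw [mon_line, h1]
    ring
  rw [h, norm_mul, norm_zpow, norm_e, one_zpow, one_mul]

theorem KK_inv (v : Fin k → ℤ) {G : Pol k} (N : ℕ) (r : ℝ) {w : Fin k → ℤ} (hw : rl w ∈ Lam G)
    (x : Tor k) (t : UnitAddCircle) : KK v G N r (line w x t) = KK v G N r x := by
  have h1 : ∀ y : Tor k, NU v G N (1 - r) (line w y t) = NU v G N (1 - r) y := by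
    intro y
    unfold NU
    simp only [b6_line_comm v w, b6_norm_inv hw]
  unfold KK
  simp only [b6_line_comm v w, h1]

theorem b6_NU_line (v : Fin k → ℤ) {G : Pol k} (hG : G ≠ 0) {ρ : ℝ} (h0 : 0 ≤ ρ) (h1 : ρ < 1)
    {x : Tor k} (hx : ev (ini (rl (-v)) G) x ≠ 0) (s : UnitAddCircle) :
    NU v G (wd' v G) ρ (line v x s) = nu ρ (up v G x) s := by
  have hc : (up v G x).coeff (wd' v G) ≠ 0 := by rw [coeff_up_wd v hG]; exact hx
  have hne : up v G x ≠ 0 := by
    intro h; rw [h] at hc; simp at hc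
  have hdeg : (up v G x).natDegree = wd' v G :=
    le_antisymm (natDegree_up_le v hG x) (Polynomial.le_natDegree_of_ne_zero hc)
  have hcard : Multiset.card (up v G x).roots = wd' v G := by
    rw [← hdeg]
    exact (IsAlgClosed.splits (up v G x)).natDegree_eq_card_roots.symm
  rw [nu_eq hne h0 h1, hcard]
  unfold NU
  congr 1
  rw [← integral_add_left_eq_self
    (fun t : UnitAddCircle => log ‖(up v G x).eval (e t)‖ * kap ((ρ : ℂ) * e (s - t))) s]
  apply integral_congr_ae
  refine Filter.Eventually.of_forall fun t => ?_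
  simp only
  rw [b6_line_add, norm_ev_line, show s - (s + t) = -t by abel]

theorem KK_line (v : Fin k → ℤ) {G : Pol k} (hG : G ≠ 0) {r : ℝ} (hr : 0 < r) (hr1 : r ≤ 1 / 2)
    {x : Tor k} (hx : ev (ini (rl (-v)) G) x ≠ 0) (t : UnitAddCircle) :
    KK v G (wd' v G) r (line v x t) = Kq r (up v G x) t := by
  unfold KK Kq
  congr 1
  rw [← integral_add_left_eq_self
    (fun s : UnitAddCircle => PK (((1 - r) ^ 2 : ℝ) * e (t - s)) * pi' r (up v G x) s) t]
  apply integral_congr_ae
  refine Filter.Eventually.of_forall fun s => ?_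
  simp only
  rw [b6_line_add, b6_NU_line v hG (by linarith) (by linarith) hx,
    show t - (t + s) = -s by abel]
  rfl

theorem KK_bounds (v : Fin k → ℤ) {G : Pol k} (hG : G ≠ 0) {r : ℝ} (hr : 0 < r)
    (hr1 : r ≤ 1 / 2) :
    (∀ᵐ x : Tor k, 0 ≤ KK v G (wd' v G) r x ∧ KK v G (wd' v G) r x ≤ 1) ∧
    Integrable (KK v G (wd' v G) r) ∧
    (∫ x : Tor k, KK v G (wd' v G) r x) ≤ r * (wd' v G) := by
  have hae := ae_ev_ne_zero (ini_ne_zero (rl (-v)) hG)
  have h1 : ∀ᵐ x : Tor k, 0 ≤ KK v G (wd' v G) r x ∧ KK v G (wd' v G) r x ≤ 1 := by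
    filter_upwards [hae] with x hx
    have h := KK_line v hG hr hr1 hx 0
    have h0 : line v x 0 = x := by
      funext i; simp [line]
    rw [h0] at h
    rw [h]
    exact ⟨Kq_nonneg _ hr hr1 0, Kq_le_one _ hr hr1 0⟩
  have h2 : Integrable (KK v G (wd' v G) r) := by
    refine Integrable.of_bound (measurable_KK v G _ r).aestronglyMeasurable 1 ?_
    filter_upwards [h1] with x hx
    rw [Real.norm_of_nonneg hx.1]
    exact hx.2
  refine ⟨h1, h2, ?_⟩
  rw [integral_line v h2]
  calc ∫ x : Tor k, ∫ t : UnitAddCircle, KK v G (wd' v G) r (line v x t)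
      ≤ ∫ _x : Tor k, r * (wd' v G : ℝ) := by
        refine integral_mono_ae (integrable_integral_line v h2) (integrable_const _) ?_
        filter_upwards [hae] with x hx
        simp only [KK_line v hG hr hr1 hx]
        refine (integral_Kq_le _ hr hr1).trans ?_
        have h3 : Multiset.card (up v G x).roots ≤ wd' v G :=
          (Polynomial.card_roots' _).trans (natDegree_up_le v hG x)
        have h4 : (Multiset.card (up v G x).roots : ℝ) ≤ wd' v G := by exact_mod_cast h3
        exact mul_le_mul_of_nonneg_left h4 hr.le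
    _ = r * (wd' v G : ℝ) := by simp

end CP
end Pool.Agent.MP_44c6d5_nt
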