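import Mathlib
import Pool.Agent.MP_44c6d5_nt.CP.Def
import Pool.Agent.MP_44c6d5_nt.CP.A15
import Pool.Agent.MP_44c6d5_nt.CP.B1

namespace Pool.Agent.MP_44c6d5_nt
namespace CP

open MeasureTheory Real Module

variable {k : ℕ}

/-! ### Group B: the torus -/

private theorem B7_inv {Q : Pol k} {v : Fin k → ℤ} (h : rl v ∈ Lam Q) (x : Tor k)
    (t : UnitAddCircle) : ‖ev Q (line v x t)‖ = ‖ev Q x‖ := by
  rcases eq_or_ne Q 0 with hQ | hQ
  · subst hQ
    simp [ev]
  · obtain ⟨i, hi, hi'⟩ := exists_ordZ v hQ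
    have hw : ∀ j ∈ Q.support, wtZ v j = ordZ v Q := by
      intro j hj
      have h1 := h j hj i hi
      rw [wt_rl, wt_rl] at h1
      rw [← hi']
      exact_mod_cast h1
    have h2 : ev Q (line v x t) = e t ^ (ordZ v Q) * ev Q x := by
      rw [ev_eq_sum, ev_eq_sum, Finset.mul_sum]
      refine Finset.sum_congr rfl fun j hj => ?_
      rw [mon_line, hw j hj]
      ring
    rw [h2, norm_mul, norm_zpow, norm_e, one_zpow, one_mul]

private theorem B7_rl_neg (v : Fin k → ℤ) : rl (-v) = -rl v := by
  funext i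
  simp [rl]

private theorem B7_line_line (v : Fin k → ℤ) (x : Tor k) (t s : UnitAddCircle) :
    line v (line v x t) s = line v x (t + s) := by
  funext i
  simp only [line]
  rw [smul_add, add_assoc]

private theorem B7_line_neg (v : Fin k → ℤ) (x : Tor k) (t : UnitAddCircle) :
    line (-v) x t = line v x (-t) := by
  funext i
  simp only [line]
  rw [Pi.neg_apply, neg_smul, smul_neg]

private theorem B7_int_neg (v : Fin k → ℤ) (G : Pol k) (x : Tor k) :
    ∫ t : UnitAddCircle, log ‖ev G (line (-v) x t)‖ =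
      ∫ t : UnitAddCircle, log ‖ev G (line v x t)‖ := by
  simp only [B7_line_neg]
  exact integral_neg_eq_self (fun t => log ‖ev G (line v x t)‖) volume

private theorem B7_jensen (v : Fin k → ℤ) {G : Pol k} (hG : G ≠ 0) {x : Tor k}
    (hx : ev (ini (rl v) G) x ≠ 0) :
    log ‖ev (ini (rl v) G) x‖ ≤ ∫ t : UnitAddCircle, log ‖ev G (line v x t)‖ := by
  have h1 := log_coeff_zero_le (up v G x) (by rw [coeff_zero_up v hG x]; exact hx)
  rw [coeff_zero_up v hG x] at h1
  simpa only [norm_ev_line] using h1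

-- [B7]
theorem er_props (v : Fin k → ℤ) {G : Pol k} (hG : G ≠ 0) :
    Measurable (er v G) ∧ Integrable (er v G) ∧
    (∫ x : Tor k, er v G x) = 2 * mm G - mm (ini (rl v) G) - mm (ini (rl (-v)) G) ∧
    (∀ᵐ x : Tor k, 0 ≤ er v G x) ∧
    (∀ (x : Tor k) (t : UnitAddCircle), er v G (line v x t) = er v G x) := by
  have hi1 : ini (rl v) G ≠ 0 := ini_ne_zero _ hG
  have hi2 : ini (rl (-v)) G ≠ 0 := ini_ne_zero _ hG
  have i0 : Integrable fun x : Tor k => 2 * ∫ t : UnitAddCircle, log ‖ev G (line v x t)‖ :=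
    (integrable_integral_line v (integrable_log_ev hG)).const_mul 2
  have i1 := integrable_log_ev hi1
  have i2 := integrable_log_ev hi2
  have hm : Measurable fun x : Tor k => ∫ t : UnitAddCircle, log ‖ev G (line v x t)‖ := by
    have h1 : Measurable fun p : Tor k × UnitAddCircle => log ‖ev G (line v p.1 p.2)‖ :=
      (measurable_log_ev G).comp (continuous_line v).measurable
    exact (h1.stronglyMeasurable.integral_prod_right (ν := (volume : Measure UnitAddCircle))).measurable
  refine ⟨?_, ?_, ?_, ?_, ?_⟩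
  · exact ((hm.const_mul 2).sub (measurable_log_ev _)).sub (measurable_log_ev _)
  · exact (i0.sub i1).sub i2
  · unfold er
    have e1 := integral_sub (i0.sub i1) i2
    have e2 := integral_sub i0 i1
    simp only [Pi.sub_apply] at e1
    rw [e1, e2, integral_const_mul]
    unfold mm
    rw [integral_line v (integrable_log_ev hG)]
  · filter_upwards [ae_ev_ne_zero hi1, ae_ev_ne_zero hi2] with x h1 h2
    have h3 := B7_jensen v hG h1
    have h4 := B7_jensen (-v) hG h2
    rw [B7_int_neg] at h4
    unfold er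
    linarith
  · intro x t
    have h1 : rl v ∈ Lam (ini (rl v) G) := mem_Lam_ini _ _
    have h2 : rl v ∈ Lam (ini (rl (-v)) G) := by
      have h := mem_Lam_ini (rl (-v)) G
      have h' := (Lam (ini (rl (-v)) G)).neg_mem h
      have h'' : -rl (-v) = rl v := by rw [B7_rl_neg v, neg_neg]
      rw [h''] at h'
      exact h'
    unfold er
    rw [B7_inv h1, B7_inv h2]
    simp only [B7_line_line]
    rw [integral_add_left_eq_self (fun s => log ‖ev G (line v x s)‖) t]

/-- good roots of the line polynomial -/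
theorem good_of_er (v : Fin k → ℤ) {G : Pol k} (hG : G ≠ 0) {r : ℝ} (hr : 0 < r) (hr1 : r < 1)
    {x : Tor k} (hx : ev (ini (rl v) G) x ≠ 0) (hx' : ev (ini (rl (-v)) G) x ≠ 0)
    (hs : er v G x ≤ r * (wd' v G) / 2) :
    (Multiset.card (up v G x).roots : ℝ) / 2 ≤
      Multiset.card ((up v G x).roots.filter fun z => 1 - r ≤ ‖hat z‖) := by
  have hc0 := coeff_zero_up v hG x
  have hc1 := coeff_up_wd v hG x
  have hle := natDegree_up_le v hG x
  have hdeg : (up v G x).natDegree = wd' v G :=
    le_antisymm hle (Polynomial.le_natDegree_of_ne_zero (by rw [hc1]; exact hx'))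
  have hq : up v G x ≠ 0 := by
    intro h
    rw [h, Polynomial.coeff_zero] at hc0
    exact hx hc0.symm
  have hlead : (up v G x).leadingCoeff = ev (ini (rl (-v)) G) x := by
    rw [Polynomial.leadingCoeff, hdeg, hc1]
  have hcard : Multiset.card (up v G x).roots = wd' v G := by
    rw [← hdeg]
    exact (IsAlgClosed.splits (up v G x)).natDegree_eq_card_roots.symm
  refine good_roots hq (by rw [hc0]; exact hx) hr hr1 ?_
  rw [hc0, hlead, hcard]
  have h1 : ∫ t : UnitAddCircle, log ‖(up v G x).eval (e t)‖ =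
      ∫ t : UnitAddCircle, log ‖ev G (line v x t)‖ := by
    simp only [norm_ev_line]
  rw [h1]
  exact hs

end CP
end Pool.Agent.MP_44c6d5_nt
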