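import Mathlib
import Pool.Agent.MP_44c6d5_nt.CP.Def

/-!
Two more definitions for the corner theorem: the excess of the line averages and the scale.
-/

namespace Pool.Agent.MP_44c6d5_nt
namespace CP

open MeasureTheory Real

variable {k : ℕ}

/-- the excess `U - log |P_l|`. -/
noncomputable def mu (l : Fin k → ℤ) (P : Pol k) (x : Tor k) : ℝ :=
  UU l P x - log ‖ev (ini (rl l) P) x‖

/-- the scale -/
noncomputable def t0 (M β : ℝ) : ℝ := exp (-(64 * (β * (52 * M + 3) + 2))) / 4

end CP
end Pool.Agent.MP_44c6d5_nt
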