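import Mathlib
import Pool.Agent.MP_44c6d5_nt.CP.Def2

/-!
[B8] the excess of a line average over the face polynomial.
-/

namespace Pool.Agent.MP_44c6d5_nt
namespace CP

open MeasureTheory Real Module

variable {k : ℕ}

/-- the line average dominates the face polynomial wherever this is nonzero. -/
theorem b8_log_ini_le (l : Fin k → ℤ) {P : Pol k} (hP : P ≠ 0) {x : Tor k}
    (hx : ev (ini (rl l) P) x ≠ 0) : log ‖ev (ini (rl l) P) x‖ ≤ UU l P x := by
  have h1 : (up l P x).coeff 0 ≠ 0 := by rw [coeff_zero_up l hP x]; exact hx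
  have h2 := log_coeff_zero_le (up l P x) h1
  rw [coeff_zero_up l hP x] at h2
  unfold UU
  simp only [norm_ev_line]
  exact h2

theorem mu_props (l : Fin k → ℤ) {P : Pol k} (hP : P ≠ 0) :
    Integrable (UU l P) ∧ Integrable (mu l P) ∧ (∀ᵐ x : Tor k, 0 ≤ mu l P x) ∧
    (∫ x : Tor k, mu l P x) = mm P - mm (ini (rl l) P) := by
  have hI := ini_ne_zero (rl l) hP
  have h1 : Integrable (UU l P) := integrable_integral_line l (integrable_log_ev hP)
  have h2 : Integrable (fun x : Tor k => log ‖ev (ini (rl l) P) x‖) := integrable_log_ev hI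
  have h3 : (∫ x : Tor k, UU l P x) = mm P := (integral_line l (integrable_log_ev hP)).symm
  refine ⟨h1, h1.sub h2, ?_, ?_⟩
  · filter_upwards [ae_ev_ne_zero hI] with x hx
    exact sub_nonneg.mpr (b8_log_ini_le l hP hx)
  · have : (∫ x : Tor k, mu l P x) =
        (∫ x : Tor k, UU l P x) - ∫ x : Tor k, log ‖ev (ini (rl l) P) x‖ :=
      integral_sub h1 h2
    rw [this, h3]
    rfl

end CP
end Pool.Agent.MP_44c6d5_nt
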