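import Mathlib
import Pool.Agent.MP_44c6d5_nt.CP.Def2
import Pool.Agent.MP_44c6d5_nt.CP.A14
import Pool.Agent.MP_44c6d5_nt.CP.B1
import Pool.Agent.MP_44c6d5_nt.CP.B4
import Pool.Agent.MP_44c6d5_nt.CP.B6
import Pool.Agent.MP_44c6d5_nt.CP.B7
import Pool.Agent.MP_44c6d5_nt.CP.B8

namespace Pool.Agent.MP_44c6d5_nt
namespace CP

open MeasureTheory Real Module

variable {k : ℕ}

/-- almost every property holds on almost every point of almost every line. -/
theorem b9_ae_line (v : Fin k → ℤ) {p : Tor k → Prop} (h : ∀ᵐ x : Tor k, p x) :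
    ∀ᵐ x : Tor k, ∀ᵐ t : UnitAddCircle, p (line v x t) := by
  have h1 : ∀ᵐ y : Tor k × UnitAddCircle
      ∂((volume : Measure (Tor k)).prod (volume : Measure UnitAddCircle)),
      p (line v y.1 y.2) := by
    have hmp : MeasurePreserving (fun y : Tor k × UnitAddCircle => line v y.1 y.2)
        ((volume : Measure (Tor k)).prod (volume : Measure UnitAddCircle))
        (volume : Measure (Tor k)) :=
      (measurePreserving_line v).comp Measure.measurePreserving_swap
    exact hmp.quasiMeasurePreserving.ae h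
  exact Measure.ae_ae_of_ae_prod h1

theorem b9_card_roots_up (v : Fin k → ℤ) {A : Pol k} (hA : A ≠ 0) {x : Tor k}
    (hx : ev (ini (rl (-v)) A) x ≠ 0) : Multiset.card (up v A x).roots = wd' v A := by
  have h1 := natDegree_up_le v hA x
  have h2 := coeff_up_wd v hA x
  have h3 : (up v A x).natDegree = wd' v A := by
    apply le_antisymm h1
    apply Polynomial.le_natDegree_of_ne_zero
    rw [h2]; exact hx
  rw [← h3]
  exact (IsAlgClosed.card_roots_eq_natDegree)

theorem OD_line {P : Pol k} (hP : P ≠ 0) {l v : Fin k → ℤ} {A B : Pol k} (hA : A ≠ 0)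
    (hB : B ≠ 0) (hAB : ini (rl l) P = A * B) (hpos : 1 ≤ wd' v A) {τ : ℝ} (hτ0 : 0 < τ)
    (hτ : τ ≤ 1 / 4) : ∀ᵐ x : Tor k,
      er v A x ≤ (τ / wd' v P) * (wd' v A) / 2 →
      (wd' v A : ℝ) * (log (1 / (4 * τ)) / 64 - 1) ≤
        2 * ((wd' v P : ℝ) / τ) *
          (∫ t : UnitAddCircle, mu l P (line v x t) *
            KK v A (wd' v A) (τ / wd' v P) (line v x t)) +
        EB (1 - τ / wd' v P) v l P x := by
  have hwd : wd' v A + wd' v B ≤ wd' v P := by
    rw [← wd'_mul v hA hB, ← hAB]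
    exact wd'_ini_le v (rl l) hP
  have hn : 1 ≤ wd' v P := by omega
  have hnR : (1 : ℝ) ≤ (wd' v P : ℝ) := by exact_mod_cast hn
  have hr0 : 0 < τ / (wd' v P : ℝ) := by positivity
  have hr1 : τ / (wd' v P : ℝ) ≤ 1 / 4 := by
    rw [div_le_iff₀ (by positivity)]; nlinarith
  obtain ⟨hU, hmu, hmu0, _⟩ := mu_props l hP
  filter_upwards [ae_ev_ne_zero (ini_ne_zero (rl (-v)) hA), ae_ev_ne_zero (ini_ne_zero (rl v) hA),
    ae_ev_ne_zero (ini_ne_zero (rl (-v)) hB),
    EB_eq (ρ := 1 - τ / (wd' v P : ℝ)) (by linarith) (by linarith) v l hP,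
    ae_integrable_line v hU, ae_integrable_line v hmu, b9_ae_line v hmu0,
    b9_ae_line v (ae_ev_ne_zero hA), b9_ae_line v (ae_ev_ne_zero hB)] with
    x h1 h2 h3 h4 h5 h6 h7 h8 h9 hs
  have hcA := b9_card_roots_up v hA h1
  have hcB := b9_card_roots_up v hB h3
  have hgood := good_of_er v hA hr0 (by linarith) h2 h1 hs
  have hqA : up v A x ≠ 0 := by
    intro h0
    have := coeff_zero_up v hA x
    rw [h0, Polynomial.coeff_zero] at this
    exact h2 this.symm
  have hqB : up v B x ≠ 0 := by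
    intro h0
    have := coeff_up_wd v hB x
    rw [h0, Polynomial.coeff_zero] at this
    exact h3 this.symm
  have hdec : ∀ᵐ t : UnitAddCircle, UU l P (line v x t) = mu l P (line v x t) +
      log ‖(up v A x).eval (e t)‖ + log ‖(up v B x).eval (e t)‖ := by
    filter_upwards [h8, h9] with t ht8 ht9
    rw [← norm_ev_line, ← norm_ev_line]
    unfold mu
    rw [hAB, ev_mul, norm_mul, Real.log_mul (norm_ne_zero_iff.mpr ht8) (norm_ne_zero_iff.mpr ht9)]
    ring
  have key := OD hn hτ0 hτ hqA hqB (by rw [hcA, hcB]; exact hwd) hgood h5 h6 h7 hdec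
  rw [hcA] at key
  rw [h4]
  refine key.trans (le_of_eq ?_)
  congr 2
  apply integral_congr_ae
  apply Filter.Eventually.of_forall
  intro t
  simp only
  rw [KK_line v hA hr0 (by linarith) h1 t]

end CP
end Pool.Agent.MP_44c6d5_nt
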