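import Mathlib
import Pool.Agent.MP_44c6d5_nt.CP.Def2
import Pool.Agent.MP_44c6d5_nt.CP.B1
import Pool.Agent.MP_44c6d5_nt.CP.B4
import Pool.Agent.MP_44c6d5_nt.CP.B5
import Pool.Agent.MP_44c6d5_nt.CP.B6
import Pool.Agent.MP_44c6d5_nt.CP.B7
import Pool.Agent.MP_44c6d5_nt.CP.B8
import Pool.Agent.MP_44c6d5_nt.CP.B9

namespace Pool.Agent.MP_44c6d5_nt
namespace CP

open MeasureTheory Real Module

variable {k : ℕ}

theorem ae_line (l : Fin k → ℤ) {p : Tor k → Prop} (h : ∀ᵐ x : Tor k, p x) :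
    ∀ᵐ x : Tor k, ∀ᵐ t : UnitAddCircle, p (line l x t) := by
  have h1 : ∀ᵐ q ∂((volume : Measure UnitAddCircle).prod (volume : Measure (Tor k))),
      p (line l q.2 q.1) := (measurePreserving_line l).quasiMeasurePreserving.ae h
  have h2 : ∀ᵐ q ∂((volume : Measure (Tor k)).prod (volume : Measure UnitAddCircle)),
      p (line l q.1 q.2) :=
    (Measure.measurePreserving_swap (μ := (volume : Measure (Tor k)))
      (ν := (volume : Measure UnitAddCircle))).quasiMeasurePreserving.ae h1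
  exact Measure.ae_ae_of_ae_prod h2

theorem t0_pos (M β : ℝ) : 0 < t0 M β := by unfold t0; positivity

theorem t0_le {M β : ℝ} (hM : 0 ≤ M) (hβ : 1 ≤ β) : t0 M β ≤ 1 / 4 := by
  unfold t0
  have h : exp (-(64 * (β * (52 * M + 3) + 2))) ≤ 1 := by
    rw [Real.exp_le_one_iff]
    have : 0 ≤ β * (52 * M + 3) := by positivity
    linarith
  linarith

theorem log_t0 (M β : ℝ) : log (1 / (4 * t0 M β)) = 64 * (β * (52 * M + 3) + 2) := by
  unfold t0
  have h : 1 / (4 * (exp (-(64 * (β * (52 * M + 3) + 2))) / 4)) =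
      exp (64 * (β * (52 * M + 3) + 2)) := by
    rw [mul_div_cancel₀ _ (by norm_num : (4 : ℝ) ≠ 0), Real.exp_neg]
    simp
  rw [h, Real.log_exp]

theorem log_two_div_le {r : ℝ} (hr : 0 < r) (hr1 : r ≤ 1 / 2) : log (2 / (1 + (1 - r))) ≤ r := by
  have h1 : 0 < 1 + (1 - r) := by linarith
  have h2 : 2 / (1 + (1 - r)) = 1 + r / (1 + (1 - r)) := by field_simp; ring
  have h3 := Real.log_le_sub_one_of_pos (show 0 < 2 / (1 + (1 - r)) by positivity)
  have h4 : r / (1 + (1 - r)) ≤ r := by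
    rw [div_le_iff₀ h1]
    nlinarith
  linarith

/-- the mean of the energy -/
theorem integral_EB_le {P : Pol k} (hP : Irreducible P) {l v : Fin k → ℤ} (hl : rl l ∉ Lam P)
    (hv : rl v ∉ Lam P) {M τ : ℝ} (hM : mm P ≤ M) (hτ0 : 0 < τ) (hτ : τ ≤ 1 / 4) :
    ∫ x : Tor k, EB (1 - τ / wd' v P) v l P x ≤ (wd' v P) * (2 * M + τ) := by
  have hn : 1 ≤ wd' v P := (wd'_pos_iff v hP.ne_zero).mpr hv
  have hn' : (1 : ℝ) ≤ wd' v P := by exact_mod_cast hn
  have hr : 0 < τ / (wd' v P : ℝ) := by positivity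
  have hr1 : τ / (wd' v P : ℝ) ≤ 1 / 4 := by
    rw [div_le_iff₀ (by positivity)]; nlinarith
  have h1 := E1 hP hl hv (ρ := 1 - τ / wd' v P) (by linarith) (by linarith)
  have h2 := log_two_div_le hr (by linarith)
  have h3 : (wd' v P : ℝ) ^ 2 * log (2 / (1 + (1 - τ / wd' v P))) ≤ wd' v P * τ := by
    calc (wd' v P : ℝ) ^ 2 * log (2 / (1 + (1 - τ / wd' v P)))
        ≤ (wd' v P : ℝ) ^ 2 * (τ / wd' v P) := by gcongr
      _ = wd' v P * τ := by field_simp
  have h4 : 2 * (wd' v P : ℝ) * mm P ≤ 2 * (wd' v P) * M := by gcongr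
  linarith

theorem KL {g : Pol k} (hg : Irreducible g) {l v : Fin k → ℤ} (hl : rl l ∉ Lam g)
    (hv : rl v ∉ Lam g) {A B : Pol k} (hA : A ≠ 0) (hB : B ≠ 0)
    (hAB : ini (rl l) g = A * B) {M β : ℝ} (hβ : 1 ≤ β) (hpos : 1 ≤ wd' v A)
    (hw : (wd' v g : ℝ) ≤ β * wd' v A) (hM : mm g ≤ M)
    (h1 : mm g - mm (ini (rl l) g) ≤ t0 M β / (16 * β))
    (h2 : 2 * mm A - mm (ini (rl v) A) - mm (ini (rl (-v)) A) ≤ 2 * (t0 M β / (16 * β))) :
    False := by
  have hg0 := hg.ne_zero
  have hM0 : 0 ≤ M := (mm_nonneg hg0).trans hM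
  have hβ0 : 0 < β := by linarith
  set τ := t0 M β with hτdef
  have hτ0 : 0 < τ := t0_pos M β
  have hτ : τ ≤ 1 / 4 := t0_le hM0 hβ
  have hℓ : log (1 / (4 * τ)) = 64 * (β * (52 * M + 3) + 2) := log_t0 M β
  set n := wd' v g with hn
  have hn1 : 1 ≤ n := (wd'_pos_iff v hg0).mpr hv
  have hn1' : (1 : ℝ) ≤ n := by exact_mod_cast hn1
  set η := τ / (16 * β) with hη
  have hη0 : 0 < η := by positivity
  obtain ⟨hU, hmuI, hmu0, hmuE⟩ := mu_props l hg0
  obtain ⟨herm, herI, herE, her0, herL⟩ := er_props v hA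
  have hEBI := integrable_EB (ρ := 1 - τ / n) (k := k) (v := v) (l := l) (P := g)
    (by
      have : τ / (n : ℝ) ≤ 1 / 4 := by rw [div_le_iff₀ (by positivity)]; nlinarith
      linarith) (by
      have : 0 < τ / (n : ℝ) := by positivity
      linarith) hg0
  have hEBE := integral_EB_le hg hl hv hM hτ0 hτ
  set δ : Tor k → ℝ := fun x => ∫ t, mu l g (line v x t) with hδ
  have hδI : Integrable δ := integrable_integral_line v hmuI
  have hδE : ∫ x, δ x = mm g - mm (ini (rl l) g) := by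
    rw [← hmuE, integral_line v hmuI]
  have hc2 : 0 < 4 * ((n : ℝ) * (2 * M + τ)) := by positivity
  set Φ : Tor k → ℝ := fun x => δ x / (4 * η) + EB (1 - τ / n) v l g x / (4 * (n * (2 * M + τ))) +
    er v A x / (8 * η) with hΦ
  have hΦI : Integrable Φ := ((hδI.div_const _).add (hEBI.div_const _)).add (herI.div_const _)
  have hΦE : ∫ x, Φ x ≤ 3 / 4 := by
    have e1 : ∫ x, Φ x = (∫ x, δ x) / (4 * η) +
        (∫ x, EB (1 - τ / n) v l g x) / (4 * (n * (2 * M + τ))) + (∫ x, er v A x) / (8 * η) := by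
      have i1 : Integrable fun x : Tor k => δ x / (4 * η) := hδI.div_const _
      have i2 : Integrable fun x : Tor k =>
        EB (1 - τ / n) v l g x / (4 * (n * (2 * M + τ))) := hEBI.div_const _
      have i3 : Integrable fun x : Tor k => er v A x / (8 * η) := herI.div_const _
      have s1 := integral_add (i1.add i2) i3
      have s2 := integral_add i1 i2
      rw [← integral_div, ← integral_div, ← integral_div, ← s2]
      exact s1
    rw [e1, hδE, herE]
    have a1 : (mm g - mm (ini (rl l) g)) / (4 * η) ≤ 1 / 4 := by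
      rw [div_le_iff₀ (by positivity)]; linarith
    have a2 : (∫ x, EB (1 - τ / n) v l g x) / (4 * (n * (2 * M + τ))) ≤ 1 / 4 := by
      rw [div_le_iff₀ hc2]; linarith
    have a3 : (2 * mm A - mm (ini (rl v) A) - mm (ini (rl (-v)) A)) / (8 * η) ≤ 1 / 4 := by
      rw [div_le_iff₀ (by positivity)]; linarith
    linarith
  -- a good point
  have hgen : ∀ᵐ x : Tor k, (0 ≤ er v A x) ∧ (0 ≤ δ x) ∧
      (∀ᵐ t : UnitAddCircle, 0 ≤ mu l g (line v x t)) ∧
      (Integrable fun t : UnitAddCircle => mu l g (line v x t)) ∧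
      (∀ᵐ t : UnitAddCircle, 0 ≤ KK v A (wd' v A) (τ / n) (line v x t) ∧
        KK v A (wd' v A) (τ / n) (line v x t) ≤ 1) ∧
      (er v A x ≤ (τ / n) * (wd' v A) / 2 →
      (wd' v A : ℝ) * (log (1 / (4 * τ)) / 64 - 1) ≤
        2 * ((n : ℝ) / τ) *
          (∫ t : UnitAddCircle, mu l g (line v x t) *
            KK v A (wd' v A) (τ / n) (line v x t)) +
        EB (1 - τ / n) v l g x) := by
    have hKK := (KK_bounds v hA (r := τ / n) (by positivity)
      (by rw [div_le_iff₀ (by positivity)]; nlinarith)).1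
    filter_upwards [her0, ae_line v hmu0, ae_integrable_line v hmuI, ae_line v hKK,
      OD_line hg0 (l := l) (v := v) hA hB hAB hpos hτ0 hτ] with x a1 a2 a3 a4 a5
    exact ⟨a1, integral_nonneg_of_ae a2, a2, a3, a4, a5⟩
  by_contra hcon
  have hge : ∀ᵐ x : Tor k, 1 ≤ Φ x := by
    filter_upwards [hgen] with x hx
    obtain ⟨b1, b2, b3, b4, b5, b6⟩ := hx
    by_contra hlt
    push Not at hlt
    have hEB0 : 0 ≤ EB (1 - τ / n) v l g x := by
      apply EB_nonneg
      have : τ / (n : ℝ) ≤ 1 / 4 := by rw [div_le_iff₀ (by positivity)]; nlinarith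
      linarith
    have c1 : 0 ≤ δ x / (4 * η) := by positivity
    have c2 : 0 ≤ EB (1 - τ / n) v l g x / (4 * (n * (2 * M + τ))) := by positivity
    have c3 : 0 ≤ er v A x / (8 * η) := by positivity
    have hlt' : δ x / (4 * η) + EB (1 - τ / n) v l g x / (4 * (n * (2 * M + τ))) +
      er v A x / (8 * η) < 1 := hlt
    have d1 : δ x < 4 * η := by
      have : δ x / (4 * η) < 1 := by linarith
      rwa [div_lt_one (by positivity)] at this
    have d2 : EB (1 - τ / n) v l g x < 4 * (n * (2 * M + τ)) := by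
      have : EB (1 - τ / n) v l g x / (4 * (n * (2 * M + τ))) < 1 := by linarith
      rwa [div_lt_one hc2] at this
    have d3 : er v A x < 8 * η := by
      have : er v A x / (8 * η) < 1 := by linarith
      rwa [div_lt_one (by positivity)] at this
    have hbA : (n : ℝ) / β ≤ wd' v A := by
      rw [div_le_iff₀ hβ0]; linarith
    have d4 : er v A x ≤ (τ / n) * (wd' v A) / 2 := by
      have : 8 * η ≤ (τ / n) * (wd' v A) / 2 := by
        calc 8 * η = (τ / n) * ((n : ℝ) / β) / 2 := by rw [hη]; field_simp; ring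
          _ ≤ (τ / n) * (wd' v A) / 2 := by gcongr
      linarith
    have d5 := b6 d4
    have d6 : (∫ t : UnitAddCircle, mu l g (line v x t) *
            KK v A (wd' v A) (τ / n) (line v x t)) ≤ δ x := by
      apply integral_mono_of_nonneg
      · filter_upwards [b3, b5] with t e1 e2
        exact mul_nonneg e1 e2.1
      · exact b4
      · filter_upwards [b3, b5] with t e1 e2
        exact mul_le_of_le_one_right e1 e2.2
    rw [hℓ] at d5
    have d7 : 2 * ((n : ℝ) / τ) * (∫ t : UnitAddCircle, mu l g (line v x t) *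
            KK v A (wd' v A) (τ / n) (line v x t)) ≤ n / (2 * β) := by
      calc 2 * ((n : ℝ) / τ) * (∫ t : UnitAddCircle, mu l g (line v x t) *
            KK v A (wd' v A) (τ / n) (line v x t)) ≤ 2 * ((n : ℝ) / τ) * (4 * η) := by
            gcongr; linarith
        _ = n / (2 * β) := by rw [hη]; field_simp; ring
    have d8 : (n : ℝ) / β * (64 * (β * (52 * M + 3) + 2) / 64 - 1) ≤
        wd' v A * (64 * (β * (52 * M + 3) + 2) / 64 - 1) := by
      apply mul_le_mul_of_nonneg_right hbA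
      have : 0 ≤ β * (52 * M + 3) := by positivity
      linarith
    have d9 : (n : ℝ) / β * (64 * (β * (52 * M + 3) + 2) / 64 - 1) =
        n * (52 * M + 3) + n / β := by field_simp; ring
    have d10 : (n : ℝ) / (2 * β) ≤ n / β := by
      apply div_le_div_of_nonneg_left (by positivity) hβ0; linarith
    have d11 : 4 * (n * (2 * M + τ)) ≤ n * (8 * M + 1) := by nlinarith
    nlinarith
  have h3 : (1 : ℝ) ≤ ∫ x, Φ x := by
    have := integral_mono_ae (integrable_const (1 : ℝ)) hΦI hge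
    simpa using this
  linarith

end CP
end Pool.Agent.MP_44c6d5_nt
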