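import Mathlib
import Pool.Agent.MP_44c6d5_nt.CP.Def2
import Pool.Agent.MP_44c6d5_nt.CP.B1
import Pool.Agent.MP_44c6d5_nt.CP.B4
import Pool.Agent.MP_44c6d5_nt.CP.B5
import Pool.Agent.MP_44c6d5_nt.CP.B6
import Pool.Agent.MP_44c6d5_nt.CP.B7
import Pool.Agent.MP_44c6d5_nt.CP.B8
import Pool.Agent.MP_44c6d5_nt.CP.B9

namespace Pool.Agent.MP_44c6d5_nt
namespace CP

open MeasureTheory Real Module

variable {k : ℕ}

private theorem b11_t0_pos (M β : ℝ) : 0 < t0 M β := by
  unfold t0; positivity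

private theorem b11_t0_le {M β : ℝ} (hM : 0 ≤ M) (hβ : 1 ≤ β) : t0 M β ≤ 1 / 4 := by
  unfold t0
  have h : exp (-(64 * (β * (52 * M + 3) + 2))) ≤ 1 := by
    rw [exp_le_one_iff]
    have : 0 ≤ β * (52 * M + 3) := by positivity
    linarith
  linarith

private theorem b11_log (M β : ℝ) : log (1 / (4 * t0 M β)) = 64 * (β * (52 * M + 3) + 2) := by
  have h : 4 * t0 M β = exp (-(64 * (β * (52 * M + 3) + 2))) := by unfold t0; ring
  rw [h, one_div, ← exp_neg, log_exp, neg_neg]

/-- Markov for a nonnegative function on the torus -/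
private theorem b11_markov {f : Tor k → ℝ} (h0 : 0 ≤ᵐ[volume] f) (hf : Integrable f) {c a : ℝ}
    (hc : 0 < c) (ha : ∫ x, f x ≤ a * c) :
    (volume : Measure (Tor k)).real {x | ¬ f x ≤ c} ≤ a := by
  have h1 := mul_meas_ge_le_integral_of_nonneg h0 hf c
  have h2 : (volume : Measure (Tor k)).real {x | ¬ f x ≤ c} ≤
      (volume : Measure (Tor k)).real {x | c ≤ f x} := by
    refine measureReal_mono (fun x hx => ?_) (measure_ne_top _ _)
    simp only [Set.mem_ofPred_eq, not_le] at hx ⊢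
    exact hx.le
  have h3 : c * (volume : Measure (Tor k)).real {x | c ≤ f x} ≤ a * c := h1.trans ha
  have h4 : (volume : Measure (Tor k)).real {x | c ≤ f x} ≤ a := by
    rw [mul_comm a c] at h3
    exact le_of_mul_le_mul_left h3 hc
  exact h2.trans h4

private theorem b11_log_le {y : ℝ} (h0 : 0 ≤ y) (h1 : y ≤ 1 / 2) :
    log (2 / (1 + (1 - y))) ≤ y := by
  have h2 : (0 : ℝ) < 2 - y := by linarith
  have h3 : (2 : ℝ) / (1 + (1 - y)) ≤ 1 + y := by
    rw [div_le_iff₀ (by linarith)]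
    nlinarith
  have h4 : log (2 / (1 + (1 - y))) ≤ 2 / (1 + (1 - y)) - 1 :=
    log_le_sub_one_of_pos (div_pos two_pos (by linarith))
  linarith

theorem WW {P : Pol k} (hP : Irreducible P) {l : Fin k → ℤ} (hl : rl l ∉ Lam P) {ι : Type}
    [Fintype ι] [DecidableEq ι] (v : ι → Fin k → ℤ) (Γ Γ' : ι → Pol k)
    (hΓ : ∀ j, ini (rl l) P = Γ j * Γ' j) (hpos : ∀ j, 1 ≤ wd' (v j) (Γ j)) {M β : ℝ}
    (hβ : 1 ≤ β) (hM : mm P ≤ M) (hw : ∀ j, (wd' (v j) P : ℝ) ≤ β * wd' (v j) (Γ j))
    (hinv : ∀ i j, i ≠ j → rl (v i) ∈ Lam (Γ j))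
    (hε : ∀ j, mm (Γ j) ≤ t0 M β / (32 * β))
    (hcard : 1 / t0 M β ≤ Fintype.card ι) : False := by
  classical
  have hP0 : P ≠ 0 := hP.ne_zero
  have hi0 : ini (rl l) P ≠ 0 := ini_ne_zero _ hP0
  have hG0 : ∀ j, Γ j ≠ 0 := fun j h => hi0 (by rw [hΓ j, h, zero_mul])
  have hG0' : ∀ j, Γ' j ≠ 0 := fun j h => hi0 (by rw [hΓ j, h, mul_zero])
  have hM0 : 0 ≤ M := (mm_nonneg hP0).trans hM
  have hβ0 : 0 < β := by linarith
  set τ := t0 M β with hτdef
  have hτ0 : 0 < τ := b11_t0_pos M β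
  have hτ4 : τ ≤ 1 / 4 := b11_t0_le hM0 hβ
  have hlog : log (1 / (4 * τ)) = 64 * (β * (52 * M + 3) + 2) := b11_log M β
  -- the number of directions
  set κ : ℝ := (Fintype.card ι : ℝ) with hκdef
  have hτκ : 1 ≤ τ * κ := by
    rw [div_le_iff₀ hτ0] at hcard
    linarith [mul_comm κ τ]
  have hκ0 : 0 < κ := by
    by_contra h
    have : τ * κ ≤ 0 := mul_nonpos_of_nonneg_of_nonpos hτ0.le (not_lt.mp h)
    linarith
  -- widths
  have hNn : ∀ j, wd' (v j) (Γ j) ≤ wd' (v j) P := by
    intro j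
    have h1 := wd'_ini_le (v j) (rl l) hP0
    rw [hΓ j, wd'_mul (v j) (hG0 j) (hG0' j)] at h1
    omega
  have hn1 : ∀ j, 1 ≤ wd' (v j) P := fun j => (hpos j).trans (hNn j)
  have hn1' : ∀ j, (1 : ℝ) ≤ wd' (v j) P := fun j => by exact_mod_cast hn1 j
  have hN1' : ∀ j, (1 : ℝ) ≤ wd' (v j) (Γ j) := fun j => by exact_mod_cast hpos j
  have hNn' : ∀ j, (wd' (v j) (Γ j) : ℝ) ≤ wd' (v j) P := fun j => by exact_mod_cast hNn j
  have hvP : ∀ j, rl (v j) ∉ Lam P := fun j => (wd'_pos_iff (v j) hP0).mp (hn1 j)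
  -- the scale on each line
  have hr0 : ∀ j, 0 < τ / wd' (v j) P := fun j => by
    have := hn1' j; positivity
  have hrτ : ∀ j, τ / wd' (v j) P ≤ τ := fun j => div_le_self hτ0.le (hn1' j)
  have hr2 : ∀ j, τ / wd' (v j) P ≤ 1 / 2 := fun j => (hrτ j).trans (by linarith)
  -- the functions
  set K : ι → Tor k → ℝ := fun j => KK (v j) (Γ j) (wd' (v j) (Γ j)) (τ / wd' (v j) P) with hK
  set E : ι → Tor k → ℝ := fun j => EB (1 - τ / wd' (v j) P) (v j) l P with hE
  have hKb := fun j => KK_bounds (v j) (hG0 j) (hr0 j) (hr2 j)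
  have hKint : ∀ j, ∫ x, K j x ≤ τ := by
    intro j
    refine (hKb j).2.2.trans ?_
    rw [div_mul_eq_mul_div, div_le_iff₀ (by linarith [hn1' j])]
    exact mul_le_mul_of_nonneg_left (hNn' j) hτ0.le
  have hKinv : ∀ i j, i ≠ j → ∀ x t, K j (line (v i) x t) = K j x := fun i j hij x t =>
    KK_inv (v j) _ _ (hinv i j hij) x t
  -- energy
  have hEint : ∀ j, Integrable (E j) := fun j =>
    integrable_EB (by linarith [hr2 j]) (by linarith [hr0 j]) (v j) l hP0
  have hE1 : ∀ j, ∫ x, E j x ≤ (1 / 8) * (8 * wd' (v j) P * (2 * M + τ)) := by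
    intro j
    have h1 := E1 hP hl (hvP j) (ρ := 1 - τ / wd' (v j) P) (by linarith [hr2 j])
      (by linarith [hr0 j])
    refine h1.trans ?_
    have h2 := b11_log_le (hr0 j).le (hr2 j)
    have h3 : (wd' (v j) P : ℝ) ^ 2 * log (2 / (1 + (1 - τ / wd' (v j) P))) ≤
        (wd' (v j) P : ℝ) * τ := by
      calc _ ≤ (wd' (v j) P : ℝ) ^ 2 * (τ / wd' (v j) P) :=
            mul_le_mul_of_nonneg_left h2 (by positivity)
        _ = (wd' (v j) P : ℝ) * τ := by
            have : (wd' (v j) P : ℝ) ≠ 0 := by linarith [hn1' j]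
            field_simp
    have h4 : 2 * (wd' (v j) P : ℝ) * mm P ≤ 2 * (wd' (v j) P : ℝ) * M :=
      mul_le_mul_of_nonneg_left hM (by positivity)
    linarith
  -- error
  have her := fun j => er_props (v j) (hG0 j)
  have her1 : ∀ j, ∫ x, er (v j) (Γ j) x ≤ (1 / 8) * (τ / (2 * β)) := by
    intro j
    rw [(her j).2.2.1]
    have h1 := mm_nonneg (ini_ne_zero (rl (v j)) (hG0 j))
    have h2 := mm_nonneg (ini_ne_zero (rl (-(v j))) (hG0 j))
    have h3 := hε j
    have h4 : 2 * (τ / (32 * β)) = (1 / 8) * (τ / (2 * β)) := by field_simp; norm_num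
    linarith
  -- the sum of the other kernels
  set Sm : ι → Tor k → ℝ := fun j x => ∑ i ∈ Finset.univ.erase j, K i x with hSm
  have hSint : ∀ j, Integrable (Sm j) := fun j =>
    integrable_finsetSum _ fun i _ => (hKb i).2.1
  have hS1 : ∀ j, ∫ x, Sm j x ≤ (1 / 8) * (8 * (τ * κ)) := by
    intro j
    rw [hSm]
    simp only
    rw [integral_finsetSum _ fun i _ => (hKb i).2.1]
    calc ∑ i ∈ Finset.univ.erase j, ∫ x, K i x ≤ ∑ i ∈ Finset.univ.erase j, τ :=
          Finset.sum_le_sum fun i _ => hKint i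
      _ ≤ ∑ i : ι, τ := Finset.sum_le_sum_of_subset_of_nonneg (Finset.erase_subset _ _)
            fun _ _ _ => hτ0.le
      _ = (1 / 8) * (8 * (τ * κ)) := by
            rw [Finset.sum_const, Finset.card_univ, nsmul_eq_mul]; ring
  have hKall : ∀ᵐ x : Tor k, ∀ j, 0 ≤ K j x ∧ K j x ≤ 1 := by
    rw [ae_all_iff]
    exact fun j => (hKb j).1
  have hS0 : ∀ j, 0 ≤ᵐ[volume] Sm j := by
    intro j
    filter_upwards [hKall] with x hx
    exact Finset.sum_nonneg fun i _ => (hx i).1
  -- the good sets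
  set A : ι → Set (Tor k) := fun j => {x | E j x ≤ 8 * wd' (v j) P * (2 * M + τ) ∧
    er (v j) (Γ j) x ≤ τ / (2 * β) ∧ Sm j x ≤ 8 * (τ * κ)} with hA
  have hAmeas : ∀ j, NullMeasurableSet (A j) volume := by
    intro j
    have h1 : NullMeasurableSet {x | E j x ≤ 8 * wd' (v j) P * (2 * M + τ)} volume :=
      nullMeasurableSet_le (hEint j).aestronglyMeasurable.aemeasurable aemeasurable_const
    have h2 : NullMeasurableSet {x | er (v j) (Γ j) x ≤ τ / (2 * β)} volume :=
      nullMeasurableSet_le (her j).1.aemeasurable aemeasurable_const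
    have h3 : NullMeasurableSet {x | Sm j x ≤ 8 * (τ * κ)} volume :=
      nullMeasurableSet_le (hSint j).aestronglyMeasurable.aemeasurable aemeasurable_const
    exact h1.inter (h2.inter h3)
  have hAline : ∀ j x t, (line (v j) x t ∈ A j ↔ x ∈ A j) := by
    intro j x t
    have h1 : E j (line (v j) x t) = E j x := EB_line (v j) l P x t
    have h2 := (her j).2.2.2.2 x t
    have h3 : Sm j (line (v j) x t) = Sm j x := by
      apply Finset.sum_congr rfl
      intro i hi
      exact hKinv j i (Finset.ne_of_mem_erase hi).symm x t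
    simp only [hA, Set.mem_ofPred_eq]
    rw [h1, h2, h3]
  have hAvol : ∀ j, 1 / 2 ≤ (volume : Measure (Tor k)).real (A j) := by
    intro j
    have hc : 0 < 2 * M + τ := by linarith
    have m1 := b11_markov (k := k) (Filter.Eventually.of_forall fun x =>
      EB_nonneg (by linarith [hr2 j]) (v j) l P x) (hEint j)
      (c := 8 * wd' (v j) P * (2 * M + τ)) (by have := hn1' j; positivity) (hE1 j)
    have m2 := b11_markov (her j).2.2.2.1 (her j).2.1 (c := τ / (2 * β)) (by positivity) (her1 j)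
    have m3 := b11_markov (hS0 j) (hSint j) (c := 8 * (τ * κ)) (by positivity) (hS1 j)
    have hsub : (Set.univ : Set (Tor k)) ⊆ A j ∪ ({x | ¬ E j x ≤ 8 * wd' (v j) P * (2 * M + τ)} ∪
        ({x | ¬ er (v j) (Γ j) x ≤ τ / (2 * β)} ∪ {x | ¬ Sm j x ≤ 8 * (τ * κ)})) := by
      intro x _
      simp only [hA, Set.mem_union, Set.mem_ofPred_eq]
      tauto
    have h1 := measureReal_mono (μ := (volume : Measure (Tor k))) hsub
    have h2 := measureReal_union_le (μ := (volume : Measure (Tor k))) (A j)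
      ({x | ¬ E j x ≤ 8 * wd' (v j) P * (2 * M + τ)} ∪
        ({x | ¬ er (v j) (Γ j) x ≤ τ / (2 * β)} ∪ {x | ¬ Sm j x ≤ 8 * (τ * κ)}))
    have h3 := measureReal_union_le (μ := (volume : Measure (Tor k)))
      {x | ¬ E j x ≤ 8 * wd' (v j) P * (2 * M + τ)}
      ({x | ¬ er (v j) (Γ j) x ≤ τ / (2 * β)} ∪ {x | ¬ Sm j x ≤ 8 * (τ * κ)})
    have h4 := measureReal_union_le (μ := (volume : Measure (Tor k)))
      {x | ¬ er (v j) (Γ j) x ≤ τ / (2 * β)} {x | ¬ Sm j x ≤ 8 * (τ * κ)}
    have h5 : (volume : Measure (Tor k)).real Set.univ = 1 := probReal_univ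
    linarith
  -- the excess
  obtain ⟨-, hmuI, hmu0, hmuE⟩ := mu_props l hP0
  have hmuM : ∫ x, mu l P x ≤ M := by
    rw [hmuE]
    have := mm_nonneg hi0
    linarith
  -- the constant
  set Λ : ℝ := 36 * M + 1 + 1 / β with hΛ
  have hΛpos : 0 < Λ := by positivity
  -- lower bound on lines
  have hlow : ∀ j, ∀ᵐ x : Tor k, x ∈ A j →
      τ / 2 * Λ ≤ ∫ t : UnitAddCircle, mu l P (line (v j) x t) * K j (line (v j) x t) := by
    intro j
    have h1 := OD_line hP0 (l := l) (v := v j) (hG0 j) (hG0' j) (hΓ j) (hpos j) hτ0 hτ4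
    filter_upwards [h1] with x hx hxA
    obtain ⟨hx1, hx2, -⟩ := hxA
    have hn := hn1' j
    have hN := hN1' j
    have hwj := hw j
    have h2 : er (v j) (Γ j) x ≤ τ / wd' (v j) P * wd' (v j) (Γ j) / 2 := by
      refine hx2.trans ?_
      rw [div_mul_eq_mul_div, div_div, div_le_div_iff₀ (by positivity) (by positivity)]
      nlinarith [mul_le_mul_of_nonneg_left hwj hτ0.le]
    have h3 := hx h2
    rw [hlog] at h3
    set I := ∫ t : UnitAddCircle, mu l P (line (v j) x t) * K j (line (v j) x t) with hI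
    have h4 : (wd' (v j) (Γ j) : ℝ) * (β * (52 * M + 3) + 1) ≤
        2 * ((wd' (v j) P : ℝ) / τ) * I + 8 * wd' (v j) P * (2 * M + τ) := by
      have h5 : (64 * (β * (52 * M + 3) + 2)) / 64 - 1 = β * (52 * M + 3) + 1 := by ring
      rw [h5] at h3
      exact h3.trans (by linarith)
    have h6 : (wd' (v j) P : ℝ) * ((52 * M + 3) + 1 / β) ≤
        (wd' (v j) (Γ j) : ℝ) * (β * (52 * M + 3) + 1) := by
      have h7 : (wd' (v j) P : ℝ) * ((52 * M + 3) + 1 / β) ≤
          (β * wd' (v j) (Γ j)) * ((52 * M + 3) + 1 / β) :=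
        mul_le_mul_of_nonneg_right hwj (by positivity)
      have h8 : (β * (wd' (v j) (Γ j) : ℝ)) * ((52 * M + 3) + 1 / β) =
          (wd' (v j) (Γ j) : ℝ) * (β * (52 * M + 3) + 1) := by field_simp
      linarith
    have h9 : (wd' (v j) P : ℝ) * ((52 * M + 3) + 1 / β) ≤
        (wd' (v j) P : ℝ) * (2 / τ * I + 8 * (2 * M + τ)) := by
      have h10 : (wd' (v j) P : ℝ) * (2 / τ * I + 8 * (2 * M + τ)) =
        2 * ((wd' (v j) P : ℝ) / τ) * I + 8 * wd' (v j) P * (2 * M + τ) := by ring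
      linarith
    have h11 : (52 * M + 3) + 1 / β ≤ 2 / τ * I + 8 * (2 * M + τ) :=
      le_of_mul_le_mul_left h9 (by linarith)
    have h12 : Λ ≤ 2 / τ * I := by rw [hΛ]; linarith
    have h13 : τ / 2 * Λ ≤ τ / 2 * (2 / τ * I) := mul_le_mul_of_nonneg_left h12 (by positivity)
    have h14 : τ / 2 * (2 / τ * I) = I := by field_simp
    linarith
  -- the functions g_j
  set g : ι → Tor k → ℝ := fun j => (A j).indicator fun x => mu l P x * K j x with hg
  have hmuK : ∀ j, Integrable (fun x => mu l P x * K j x) := by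
    intro j
    refine Integrable.mono' hmuI.abs
      (hmuI.aestronglyMeasurable.mul (measurable_KK _ _ _ _).aestronglyMeasurable) ?_
    filter_upwards [hKall] with x hx
    rw [norm_mul, Real.norm_eq_abs, Real.norm_eq_abs, abs_of_nonneg (hx j).1]
    exact mul_le_of_le_one_right (abs_nonneg _) (hx j).2
  have hgI : ∀ j, Integrable (g j) := fun j => (hmuK j).indicator₀ (hAmeas j)
  have hglow : ∀ j, τ / 4 * Λ ≤ ∫ x, g j x := by
    intro j
    rw [integral_line (v j) (hgI j)]
    have h1 : ∫ x : Tor k, (A j).indicator (fun _ => τ / 2 * Λ) x ≤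
        ∫ x : Tor k, ∫ t : UnitAddCircle, g j (line (v j) x t) := by
      apply integral_mono_ae ((integrable_const _).indicator₀ (hAmeas j))
        (integrable_integral_line (v j) (hgI j))
      filter_upwards [hlow j] with x hx
      by_cases hxA : x ∈ A j
      · rw [Set.indicator_of_mem hxA]
        have h2 : (fun t => g j (line (v j) x t)) =
            fun t => mu l P (line (v j) x t) * K j (line (v j) x t) := by
          ext t
          rw [hg]
          simp only
          rw [Set.indicator_of_mem ((hAline j x t).mpr hxA)]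
        rw [h2]
        exact hx hxA
      · rw [Set.indicator_of_notMem hxA]
        have h2 : (fun t => g j (line (v j) x t)) = fun _ => (0 : ℝ) := by
          ext t
          rw [hg]
          simp only
          rw [Set.indicator_of_notMem (fun h => hxA ((hAline j x t).mp h))]
        rw [h2]
        simp
    refine le_trans ?_ h1
    rw [integral_indicator₀ (hAmeas j), setIntegral_const, smul_eq_mul]
    have h3 := hAvol j
    have h4 : 0 < τ / 2 * Λ := by positivity
    nlinarith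
  -- pointwise upper bound
  have hup : ∫ x, ∑ j, g j x ≤ 9 * (τ * κ) * M := by
    have h1 : ∫ x, ∑ j, g j x ≤ ∫ x, 9 * (τ * κ) * mu l P x := by
      apply integral_mono_ae (integrable_finsetSum _ fun j _ => hgI j) (hmuI.const_mul _)
      filter_upwards [hKall, hmu0] with x hx hx0
      have hx0' : 0 ≤ mu l P x := hx0
      by_cases hex : ∃ j0, x ∈ A j0
      · obtain ⟨j0, hj0⟩ := hex
        have h2 : ∑ j, g j x ≤ ∑ j, mu l P x * K j x := by
          apply Finset.sum_le_sum
          intro j _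
          rw [hg]
          simp only
          by_cases hj : x ∈ A j
          · rw [Set.indicator_of_mem hj]
          · rw [Set.indicator_of_notMem hj]
            exact mul_nonneg hx0' (hx j).1
        refine h2.trans ?_
        rw [← Finset.mul_sum, mul_comm]
        apply mul_le_mul_of_nonneg_right _ hx0'
        rw [← Finset.add_sum_erase _ _ (Finset.mem_univ j0)]
        have h3 : Sm j0 x ≤ 8 * (τ * κ) := hj0.2.2
        have h4 := (hx j0).2
        have h5 : ∑ i ∈ Finset.univ.erase j0, K i x = Sm j0 x := rfl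
        rw [h5]
        linarith
      · push Not at hex
        have h2 : ∑ j, g j x = 0 := by
          apply Finset.sum_eq_zero
          intro j _
          rw [hg]
          simp only
          rw [Set.indicator_of_notMem (hex j)]
        rw [h2]
        positivity
    refine h1.trans ?_
    rw [integral_const_mul]
    exact mul_le_mul_of_nonneg_left hmuM (by positivity)
  rw [integral_finsetSum _ fun j _ => hgI j] at hup
  have hsum : κ * (τ / 4 * Λ) ≤ ∑ j, ∫ x, g j x := by
    calc κ * (τ / 4 * Λ) = ∑ j : ι, τ / 4 * Λ := by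
          rw [Finset.sum_const, Finset.card_univ, nsmul_eq_mul]
      _ ≤ _ := Finset.sum_le_sum fun j _ => hglow j
  have hfin : κ * (τ / 4 * Λ) ≤ 9 * (τ * κ) * M := hsum.trans hup
  have hfin2 : (τ * κ) * (Λ / 4) ≤ (τ * κ) * (9 * M) := by nlinarith
  have hfin3 : Λ / 4 ≤ 9 * M := le_of_mul_le_mul_left hfin2 (by positivity)
  have h1 : 0 < 1 / β := by positivity
  rw [hΛ] at hfin3
  linarith

end CP
end Pool.Agent.MP_44c6d5_nt
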