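import Mathlib
import Pool.Agent.MP_44c6d5_nt.CP.Def

namespace Pool.Agent.MP_44c6d5_nt
namespace CP

open MeasureTheory Real Module MvPolynomial

variable {k : ℕ} {κ : ℕ}

/-- The integer functionals `w_1, ..., w_κ` see a corner of `P`: some exponent `a` of `P` is
minimal for all `w_i`, and for each `j` there is an exponent `b_j` of `P` which is minimal for all
`w_i`, `i ≠ j`, and maximal (not minimal) for `w_j`. -/
def Corner (P : Pol k) (w : Fin κ → Fin k → ℤ) : Prop :=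
  ∃ a ∈ P.support, ∃ b : Fin κ → (Fin k →₀ ℕ), (∀ j, b j ∈ P.support) ∧
    (∀ i, ∀ c ∈ P.support, wtZ (w i) a ≤ wtZ (w i) c) ∧
    (∀ i j, i ≠ j → wtZ (w i) (b j) = wtZ (w i) a) ∧
    (∀ j, ∀ c ∈ P.support, wtZ (w j) c ≤ wtZ (w j) (b j)) ∧
    (∀ j, wtZ (w j) a < wtZ (w j) (b j))

/-- sum of the functionals outside `S`. -/
def lS (w : Fin κ → Fin k → ℤ) (S : Finset (Fin κ)) : Fin k → ℤ := ∑ i ∈ Sᶜ, w i

/-- the corner face with free directions `S`. -/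
noncomputable def PS (P : Pol k) (w : Fin κ → Fin k → ℤ) (S : Finset (Fin κ)) : Pol k :=
  ini (rl (lS w S)) P

-- [C1]
theorem PS_univ {P : Pol k} (hP : P ≠ 0) (w : Fin κ → Fin k → ℤ) : PS P w Finset.univ = P := by
  unfold PS
  rw [ini_eq_self_iff hP]
  have : rl (lS w Finset.univ) = 0 := by
    funext i
    simp [rl, lS]
  rw [this]
  exact Submodule.zero_mem _

theorem PS_ne_zero {P : Pol k} (hP : P ≠ 0) (w : Fin κ → Fin k → ℤ) (S : Finset (Fin κ)) :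
    PS P w S ≠ 0 := ini_ne_zero _ hP

theorem wtZ_lS (w : Fin κ → Fin k → ℤ) (S : Finset (Fin κ)) (c : Fin k →₀ ℕ) :
    wtZ (lS w S) c = ∑ i ∈ Sᶜ, wtZ (w i) c := by
  unfold wtZ lS
  simp only [Finset.sum_apply]
  rw [Finset.sum_comm]
  simp only [Finset.sum_mul]

theorem wtZ_neg (v : Fin k → ℤ) (c : Fin k →₀ ℕ) : wtZ (-v) c = - wtZ v c := by
  simp [wtZ, Finset.sum_neg_distrib]

theorem ordZ_eq_of {v : Fin k → ℤ} {P : Pol k} {a : Fin k →₀ ℕ} (ha : a ∈ P.support)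
    (h : ∀ c ∈ P.support, wtZ v a ≤ wtZ v c) : ordZ v P = wtZ v a := by
  have hP : P ≠ 0 := by rintro rfl; simp at ha
  obtain ⟨j, hj, hj'⟩ := exists_ordZ v hP
  apply le_antisymm (ordZ_le ha)
  rw [← hj']; exact h j hj

theorem mem_PS {P : Pol k} {w : Fin κ → Fin k → ℤ} {a : Fin k →₀ ℕ} (ha : a ∈ P.support)
    (hmin : ∀ i, ∀ c ∈ P.support, wtZ (w i) a ≤ wtZ (w i) c) (S : Finset (Fin κ))
    (c : Fin k →₀ ℕ) : c ∈ (PS P w S).support ↔
      c ∈ P.support ∧ ∀ i, i ∉ S → wtZ (w i) c = wtZ (w i) a := by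
  have hP : P ≠ 0 := by rintro rfl; simp at ha
  have hord : ordZ (lS w S) P = wtZ (lS w S) a := by
    apply ordZ_eq_of ha
    intro c hc
    rw [wtZ_lS, wtZ_lS]
    exact Finset.sum_le_sum fun i _ => hmin i c hc
  unfold PS
  rw [mem_support_ini, ord_rl _ hP, wt_rl, hord]
  constructor
  · rintro ⟨hc, h⟩
    refine ⟨hc, fun i hi => ?_⟩
    have h' : wtZ (lS w S) c = wtZ (lS w S) a := by exact_mod_cast h
    rw [wtZ_lS, wtZ_lS] at h'
    have := (Finset.sum_eq_sum_iff_of_le (s := Sᶜ) (f := fun i => wtZ (w i) a)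
      (g := fun i => wtZ (w i) c) (fun i _ => hmin i c hc)).mp h'.symm
    exact (this i (Finset.mem_compl.mpr hi)).symm
  · rintro ⟨hc, h⟩
    refine ⟨hc, ?_⟩
    have : wtZ (lS w S) c = wtZ (lS w S) a := by
      rw [wtZ_lS, wtZ_lS]
      exact Finset.sum_congr rfl fun i hi => h i (Finset.mem_compl.mp hi)
    exact_mod_cast this

theorem coeff_PS {P : Pol k} {w : Fin κ → Fin k → ℤ} {S : Finset (Fin κ)} {c : Fin k →₀ ℕ}
    (hc : c ∈ (PS P w S).support) : coeff c (PS P w S) = coeff c P := by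
  unfold PS at hc ⊢
  rw [coeff_ini, if_pos (mem_support_ini.mp hc).2]

theorem ini_PS {P : Pol k} {w : Fin κ → Fin k → ℤ} (hc : Corner P w) {S : Finset (Fin κ)}
    {i : Fin κ} (hi : i ∈ S) : ini (rl (w i)) (PS P w S) = PS P w (S.erase i) := by
  obtain ⟨a, ha, b, hb, h1, h2, h3, h4⟩ := hc
  have hP : P ≠ 0 := by rintro rfl; simp at ha
  have haS : ∀ S : Finset (Fin κ), a ∈ (PS P w S).support := fun S =>
    (mem_PS ha h1 S a).mpr ⟨ha, fun _ _ => rfl⟩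
  have hord : ordZ (w i) (PS P w S) = wtZ (w i) a :=
    ordZ_eq_of (haS S) fun c hc => h1 i c ((mem_PS ha h1 S c).mp hc).1
  have hsupp : ∀ c, c ∈ (ini (rl (w i)) (PS P w S)).support ↔
      c ∈ (PS P w (S.erase i)).support := by
    intro c
    rw [mem_support_ini, ord_rl _ (PS_ne_zero hP w S), wt_rl, hord, mem_PS ha h1, mem_PS ha h1]
    constructor
    · rintro ⟨⟨hcP, h5⟩, h6⟩
      refine ⟨hcP, fun j hj => ?_⟩
      by_cases hji : j = i
      · subst hji; exact_mod_cast h6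
      · exact h5 j fun h => hj (Finset.mem_erase.mpr ⟨hji, h⟩)
    · rintro ⟨hcP, h5⟩
      refine ⟨⟨hcP, fun j hj => h5 j fun h => hj (Finset.mem_of_mem_erase h)⟩, ?_⟩
      exact_mod_cast h5 i (Finset.notMem_erase i S)
  ext c
  by_cases hcs : c ∈ (PS P w (S.erase i)).support
  · have h7 := (hsupp c).mpr hcs
    rw [coeff_PS hcs]
    have h8 := mem_support_ini.mp h7
    rw [coeff_ini, if_pos h8.2, coeff_PS h8.1]
  · have h7 : c ∉ (ini (rl (w i)) (PS P w S)).support := fun h => hcs ((hsupp c).mp h)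
    rw [MvPolynomial.notMem_support_iff] at hcs h7
    rw [hcs, h7]

theorem wd'_PS {P : Pol k} {w : Fin κ → Fin k → ℤ} (hc : Corner P w) {S : Finset (Fin κ)}
    {j : Fin κ} (hj : j ∈ S) : wd' (w j) (PS P w S) = wd' (w j) P ∧ 1 ≤ wd' (w j) P := by
  obtain ⟨a, ha, b, hb, h1, h2, h3, h4⟩ := hc
  have haS : a ∈ (PS P w S).support := (mem_PS ha h1 S a).mpr ⟨ha, fun _ _ => rfl⟩
  have hbS : b j ∈ (PS P w S).support := (mem_PS ha h1 S (b j)).mpr ⟨hb j, fun i hi =>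
    h2 i j fun h => hi (h ▸ hj)⟩
  have hsub : ∀ c ∈ (PS P w S).support, c ∈ P.support := fun c hc => ((mem_PS ha h1 S c).mp hc).1
  have e1 : ordZ (w j) (PS P w S) = wtZ (w j) a := ordZ_eq_of haS fun c hc => h1 j c (hsub c hc)
  have e2 : ordZ (w j) P = wtZ (w j) a := ordZ_eq_of ha (h1 j)
  have e3 : ordZ (-(w j)) (PS P w S) = wtZ (-(w j)) (b j) := ordZ_eq_of hbS fun c hc => by
    rw [wtZ_neg, wtZ_neg]; exact neg_le_neg (h3 j c (hsub c hc))
  have e4 : ordZ (-(w j)) P = wtZ (-(w j)) (b j) := ordZ_eq_of (hb j) fun c hc => by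
    rw [wtZ_neg, wtZ_neg]; exact neg_le_neg (h3 j c hc)
  have h5 := h4 j
  constructor
  · unfold wd'
    rw [e1, e2, e3, e4]
  · unfold wd'
    rw [e2, e4, wtZ_neg]
    omega

theorem lS_notMem {P : Pol k} {w : Fin κ → Fin k → ℤ} (hc : Corner P w) {S : Finset (Fin κ)}
    (hS : S ≠ Finset.univ) : rl (lS w S) ∉ Lam P := by
  obtain ⟨a, ha, b, hb, h1, h2, h3, h4⟩ := hc
  obtain ⟨j, hj⟩ : ∃ j, j ∉ S := by
    by_contra h
    push Not at h
    exact hS (Finset.eq_univ_iff_forall.mpr h)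
  intro h
  have h5 := h a ha (b j) (hb j)
  rw [wt_rl, wt_rl] at h5
  have h6 : wtZ (lS w S) a = wtZ (lS w S) (b j) := by exact_mod_cast h5
  rw [wtZ_lS, wtZ_lS] at h6
  have h7 : ∑ i ∈ Sᶜ, wtZ (w i) a < ∑ i ∈ Sᶜ, wtZ (w i) (b j) :=
    Finset.sum_lt_sum (fun i _ => h1 i (b j) (hb j)) ⟨j, Finset.mem_compl.mpr hj, h4 j⟩
  omega

end CP
end Pool.Agent.MP_44c6d5_nt
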