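import Mathlib
import Pool.Agent.MP_44c6d5_nt.CP.B1
import Pool.Agent.MP_44c6d5_nt.CP.C1

/-!
Widths of factors of corner faces; codimension of the homogeneity space of a factor.
-/

namespace Pool.Agent.MP_44c6d5_nt
namespace CP

open MeasureTheory Real Module MvPolynomial

variable {k : ℕ} {κ : ℕ}

theorem Corner.ne_zero {P : Pol k} {w : Fin κ → Fin k → ℤ} (hc : Corner P w) : P ≠ 0 := by
  obtain ⟨a, ha, _⟩ := hc
  rintro rfl
  simp at ha

theorem wd'_ini_dvd {P : Pol k} {w : Fin κ → Fin k → ℤ} (hc : Corner P w) {S : Finset (Fin κ)}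
    {h : Pol k} (hd : h ∣ PS P w S) {i j : Fin κ} (hi : i ∈ S) (hj : j ∈ S) (hij : i ≠ j) :
    wd' (w j) (ini (rl (w i)) h) = wd' (w j) h := by
  obtain ⟨h', hh⟩ := hd
  have h0 : PS P w S ≠ 0 := PS_ne_zero hc.ne_zero w S
  have hh0 : h ≠ 0 := by rintro rfl; simp at hh; exact h0 hh
  have hh0' : h' ≠ 0 := by rintro rfl; simp at hh; exact h0 hh
  have e1 := ini_PS hc hi
  have e2 := (wd'_PS hc hj).1
  have e3 := (wd'_PS hc (Finset.mem_erase.mpr ⟨hij.symm, hj⟩ : j ∈ S.erase i)).1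
  rw [← e1, hh, ini_mul _ hh0 hh0', wd'_mul _ (ini_ne_zero _ hh0) (ini_ne_zero _ hh0')] at e3
  rw [hh, wd'_mul _ hh0 hh0'] at e2
  have e4 := wd'_ini_le (w j) (rl (w i)) hh0
  have e5 := wd'_ini_le (w j) (rl (w i)) hh0'
  omega

theorem exists_chain_ini {P : Pol k} {w : Fin κ → Fin k → ℤ} (hc : Corner P w)
    {S : Finset (Fin κ)} {h : Pol k} (hd : h ∣ PS P w S) (U : Finset (Fin κ)) (hU : U ⊆ S) :
    ∃ g : Pol k, g ∣ PS P w (S \ U) ∧ Lam h ≤ Lam g ∧ (∀ i ∈ U, rl (w i) ∈ Lam g) ∧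
      ∀ j ∈ S \ U, wd' (w j) g = wd' (w j) h := by
  classical
  induction U using Finset.induction_on with
  | empty =>
    refine ⟨h, by simpa using hd, le_rfl, by simp, fun _ _ => rfl⟩
  | insert i U hi ih =>
    obtain ⟨g, hg1, hg2, hg3, hg4⟩ := ih ((Finset.subset_insert i U).trans hU)
    have hiS : i ∈ S \ U := Finset.mem_sdiff.mpr ⟨hU (Finset.mem_insert_self i U), hi⟩
    have hse : S \ insert i U = (S \ U).erase i := by
      ext j
      simp only [Finset.mem_sdiff, Finset.mem_insert, Finset.mem_erase, not_or]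
      tauto
    have hg0 : g ≠ 0 := by
      rintro rfl
      exact PS_ne_zero hc.ne_zero w _ (zero_dvd_iff.mp hg1)
    refine ⟨ini (rl (w i)) g, ?_, hg2.trans (Lam_le_Lam_ini _ _), ?_, ?_⟩
    · rw [hse, ← ini_PS hc hiS]
      obtain ⟨g', hg'⟩ := hg1
      have hg0' : g' ≠ 0 := by
        rintro rfl
        exact PS_ne_zero hc.ne_zero w (S \ U) (by rw [hg', mul_zero])
      rw [hg', ini_mul _ hg0 hg0']
      exact Dvd.intro _ rfl
    · intro j hj
      rcases Finset.mem_insert.mp hj with rfl | hj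
      · exact mem_Lam_ini _ _
      · exact Lam_le_Lam_ini _ _ (hg3 j hj)
    · intro j hj
      rw [hse] at hj
      have hj' := Finset.mem_erase.mp hj
      rw [wd'_ini_dvd hc hg1 hiS hj'.2 hj'.1.symm, hg4 j hj'.2]

theorem card_add_finrank_le {P : Pol k} {w : Fin κ → Fin k → ℤ} (hc : Corner P w)
    {S : Finset (Fin κ)} {h : Pol k} (hd : h ∣ PS P w S) {T : Finset (Fin κ)} (hT : T ⊆ S)
    (hw : ∀ j ∈ T, rl (w j) ∉ Lam h) : T.card + finrank ℝ (Lam h) ≤ k := by
  classical
  have h0 : h ≠ 0 := by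
    rintro rfl
    exact PS_ne_zero hc.ne_zero w _ (zero_dvd_iff.mp hd)
  have hli : LinearIndependent ℝ (fun j : T => (Lam h).mkQ (rl (w j))) := by
    rw [Fintype.linearIndependent_iff]
    intro c hc0 j
    have hmem : ∑ i : T, c i • rl (w i) ∈ Lam h := by
      rw [← Submodule.ker_mkQ (Lam h), LinearMap.mem_ker, map_sum]
      simpa using hc0
    have hj := j.2
    obtain ⟨g, hg1, hg2, hg3, hg4⟩ := exists_chain_ini hc hd (T.erase j)
      ((Finset.erase_subset _ _).trans hT)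
    have hjS : (j : Fin κ) ∈ S \ T.erase j :=
      Finset.mem_sdiff.mpr ⟨hT hj, Finset.notMem_erase _ _⟩
    have hg0 : g ≠ 0 := by
      rintro rfl
      exact PS_ne_zero hc.ne_zero w _ (zero_dvd_iff.mp hg1)
    have hwj : rl (w j) ∉ Lam g := by
      rw [← wd'_pos_iff _ hg0, hg4 j hjS, wd'_pos_iff _ h0]
      exact hw j hj
    have hsum : ∑ i : T, c i • rl (w i) = c j • rl (w j) +
        ∑ i ∈ Finset.univ.erase j, c i • rl (w i) := by
      exact (Finset.add_sum_erase Finset.univ (fun i : T => c i • rl (w (i : Fin κ)))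
        (Finset.mem_univ j)).symm
    have h2 : ∑ i ∈ Finset.univ.erase j, c i • rl (w (i : Fin κ)) ∈ Lam g := by
      apply Submodule.sum_mem
      intro i hi
      apply Submodule.smul_mem
      apply hg3
      refine Finset.mem_erase.mpr ⟨?_, i.2⟩
      intro h3
      exact (Finset.mem_erase.mp hi).1 (Subtype.ext h3)
    have h3 : c j • rl (w (j : Fin κ)) ∈ Lam g := by
      have h4 := hg2 hmem
      rw [hsum] at h4
      exact (Submodule.add_mem_iff_left _ h2).mp h4
    by_contra hcj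
    exact hwj ((Submodule.smul_mem_iff _ hcj).mp h3)
  have h1 := hli.fintype_card_le_finrank
  rw [Fintype.card_coe] at h1
  have h2 := Submodule.finrank_quotient_add_finrank (Lam h)
  rw [Module.finrank_fin_fun] at h2
  omega

end CP
end Pool.Agent.MP_44c6d5_nt
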