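import Mathlib
import Pool.Agent.MP_44c6d5_nt.CP.C1

namespace Pool.Agent.MP_44c6d5_nt
namespace CP

open MeasureTheory Real Module MvPolynomial

variable {k : ℕ} {κ : ℕ}

theorem c3_chain {α : Type*} [DecidableEq α] (f : Finset α → ℝ) {η : ℝ} (hη : 0 < η)
    (S₀ : Finset α) :
    ∃ S : Finset α, (S₀.card : ℝ) ≤ S.card + 2 * (f S₀ - f S) / η ∧
      ∀ T ⊆ S, S.card ≤ T.card + 2 → f S - f T ≤ η := by
  induction S₀ using Finset.strongInduction with
  | H S₀ ih =>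
    by_cases h : ∀ T ⊆ S₀, S₀.card ≤ T.card + 2 → f S₀ - f T ≤ η
    · exact ⟨S₀, by simp, h⟩
    · push Not at h
      obtain ⟨T, hT, hc, hf⟩ := h
      have hne : T ≠ S₀ := by
        rintro rfl
        linarith
      obtain ⟨S, hS, hS'⟩ := ih T (Finset.ssubset_iff_subset_ne.2 ⟨hT, hne⟩)
      refine ⟨S, ?_, hS'⟩
      have h1 : (S₀.card : ℝ) ≤ T.card + 2 := by exact_mod_cast hc
      have h2 : (2 : ℝ) ≤ 2 * (f S₀ - f T) / η := by
        rw [le_div_iff₀ hη]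
        linarith
      have h3 : 2 * (f S₀ - f S) / η = 2 * (f S₀ - f T) / η + 2 * (f T - f S) / η := by
        rw [← add_div]
        ring
      rw [h3]
      linarith

-- [C3]
theorem exists_S0 {P : Pol k} (hP : P ≠ 0) (w : Fin κ → Fin k → ℤ) {M η : ℝ} (hη : 0 < η)
    (hM : mm P ≤ M) : ∃ S : Finset (Fin κ), (κ : ℝ) ≤ S.card + 2 * M / η ∧
      ∀ T ⊆ S, S.card ≤ T.card + 2 → mm (PS P w S) - mm (PS P w T) ≤ η := by
  obtain ⟨S, h1, h2⟩ := c3_chain (fun S => mm (PS P w S)) hη (Finset.univ : Finset (Fin κ))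
  refine ⟨S, ?_, h2⟩
  simp only [PS_univ hP, Finset.card_univ, Fintype.card_fin] at h1
  have h3 : 0 ≤ mm (PS P w S) := mm_nonneg (PS_ne_zero hP w S)
  have h4 : 2 * (mm P - mm (PS P w S)) / η ≤ 2 * M / η := by
    gcongr
    linarith
  linarith

end CP
end Pool.Agent.MP_44c6d5_nt
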