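import Mathlib
import Pool.Agent.MP_44c6d5_nt.CP.Def

/-!
Row C4: splitting off the non-reciprocal factors; codimension bound for products of
non-reciprocal factors.
-/

namespace Pool.Agent.MP_44c6d5_nt
namespace CP

open MeasureTheory Real Module MvPolynomial

variable {k : ℕ}

theorem c4_rl_neg (v : Fin k → ℤ) : rl (-v) = -(rl v) := by
  ext i; simp [rl]

theorem c4_ord_neg (y : Fin k → ℝ) (P : Pol k) : ord y (-P) = ord y P := by
  unfold ord
  simp only [support_neg]

theorem c4_ini_neg (y : Fin k → ℝ) (P : Pol k) : ini y (-P) = -(ini y P) := by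
  ext j
  rw [coeff_neg, coeff_ini, coeff_ini, c4_ord_neg, coeff_neg]
  split_ifs <;> simp

theorem c4_wt_sub (y : Fin k → ℝ) {P : Pol k} {a : Fin k →₀ ℕ} (ha : a ∈ P.support) :
    wt y (dg P - a) = wt y (dg P) - wt y a := by
  have h1 : wt y (dg P - a) + wt y a = wt y (dg P) := by
    rw [← wt_add, tsub_add_cancel_of_le (le_dg ha)]
  linarith

theorem c4_ord_rev (y : Fin k → ℝ) {P : Pol k} (hP : P ≠ 0) :
    ord y (rev P) = wt y (dg P) + ord (-y) P := by
  obtain ⟨j, hj, hj'⟩ := exists_ord (-y) hP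
  obtain ⟨i, hi, hi'⟩ := exists_ord y (rev_ne_zero hP)
  apply le_antisymm
  · have h0 : dg P - j ∈ (rev P).support := by
      rw [support_rev]; exact Finset.mem_image_of_mem _ hj
    have h := ord_le y h0
    rw [c4_wt_sub y hj] at h
    rw [wt_neg] at hj'
    linarith
  · obtain ⟨a, ha, rfl⟩ := mem_support_rev hi
    rw [c4_wt_sub y ha] at hi'
    have h := ord_le (-y) ha
    rw [wt_neg] at h
    linarith

theorem c4_support_ini_rev (y : Fin k → ℝ) {P : Pol k} (hP : P ≠ 0) :
    (ini y (rev P)).support = (ini (-y) P).support.image (fun j => dg P - j) := by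
  classical
  ext j
  rw [mem_support_ini, Finset.mem_image]
  constructor
  · rintro ⟨h, h'⟩
    obtain ⟨a, ha, rfl⟩ := mem_support_rev h
    refine ⟨a, mem_support_ini.mpr ⟨ha, ?_⟩, rfl⟩
    rw [c4_wt_sub y ha, c4_ord_rev y hP] at h'
    rw [wt_neg]
    linarith
  · rintro ⟨a, ha, rfl⟩
    obtain ⟨ha1, ha2⟩ := mem_support_ini.mp ha
    refine ⟨?_, ?_⟩
    · rw [support_rev]; exact Finset.mem_image_of_mem _ ha1
    · rw [c4_wt_sub y ha1, c4_ord_rev y hP, ← ha2, wt_neg]
      ring

theorem c4_norm_ev (y : Fin k → ℝ) {P : Pol k} (hP : P ≠ 0) (x : Tor k) :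
    ‖ev (ini y (rev P)) x‖ = ‖ev (ini (-y) P) x‖ := by
  classical
  have h1 : ev (ini y (rev P)) x = mon x (dg P) * (starRingEnd ℂ) (ev (ini (-y) P) x) := by
    rw [ev_eq_sum, c4_support_ini_rev y hP, Finset.sum_image, ev_eq_sum, map_sum, Finset.mul_sum]
    · apply Finset.sum_congr rfl
      intro j hj
      obtain ⟨hj1, hj2⟩ := mem_support_ini.mp hj
      have hc : coeff (dg P - j) (ini y (rev P)) = coeff j (ini (-y) P) := by
        rw [coeff_ini, coeff_ini, if_pos hj2, if_pos, coeff_rev P hj1]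
        rw [c4_wt_sub y hj1, c4_ord_rev y hP, ← hj2, wt_neg]
        ring
      rw [hc, map_mul]
      have h2 : mon x (dg P) = mon x (dg P - j) * mon x j := by
        rw [← mon_add, tsub_add_cancel_of_le (le_dg hj1)]
      have h3 : mon x j * (starRingEnd ℂ) (mon x j) = 1 := by
        rw [Complex.mul_conj, Complex.normSq_eq_norm_sq, norm_mon]; simp
      have h4 : (starRingEnd ℂ) ((coeff j (ini (-y) P) : ℤ) : ℂ) =
          ((coeff j (ini (-y) P) : ℤ) : ℂ) := by simp
      rw [h4, h2]
      calc ((coeff j (ini (-y) P) : ℤ) : ℂ) * mon x (dg P - j)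
          = ((coeff j (ini (-y) P) : ℤ) : ℂ) * mon x (dg P - j) *
              (mon x j * (starRingEnd ℂ) (mon x j)) := by
            rw [h3, mul_one]
        _ = _ := by ring
    · intro i hi j hj h
      simp only at h
      have hi1 := (mem_support_ini.mp hi).1
      have hj1 := (mem_support_ini.mp hj).1
      have h1 : dg P - (dg P - i) = dg P - (dg P - j) := by rw [h]
      rwa [tsub_tsub_cancel_of_le (le_dg hi1), tsub_tsub_cancel_of_le (le_dg hj1)] at h1
  rw [h1, norm_mul, norm_mon, one_mul]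
  exact Complex.norm_conj _

/-- the property of the factors that are put into `A`. -/
def C4good (g : Pol k) : Prop := (rev g = g ∨ rev g = -g) ∨ Lam g = ⊤

theorem c4_mm_good {g : Pol k} (hg : g ≠ 0) (h : C4good g) (v : Fin k → ℤ) :
    mm (ini (rl (-v)) g) = mm (ini (rl v) g) := by
  rcases h with h | h
  · have key : mm (ini (rl v) (rev g)) = mm (ini (rl v) g) := by
      rcases h with h | h
      · rw [h]
      · rw [h, c4_ini_neg]
        unfold mm
        congr 1
        ext x
        have : ev (-(ini (rl v) g)) x = -(ev (ini (rl v) g) x) := by simp [ev]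
        rw [this, norm_neg]
    rw [← key, c4_rl_neg]
    unfold mm
    congr 1
    ext x
    rw [c4_norm_ev (rl v) hg]
  · rw [(ini_eq_self_iff hg).mpr (by rw [h]; trivial), (ini_eq_self_iff hg).mpr (by rw [h]; trivial)]

theorem c4_unit {u : Pol k} (hu : IsUnit u) : u = 1 ∨ u = -1 := by
  rw [MvPolynomial.isUnit_iff_eq_C_of_isReduced] at hu
  obtain ⟨r, hr, rfl⟩ := hu
  rcases Int.isUnit_iff.mp hr with h | h
  · left; rw [h]; simp
  · right; rw [h]; simp

theorem c4_dg_neg (P : Pol k) : dg (-P) = dg P := by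
  ext i
  rw [dg_apply, dg_apply, degreeOf_neg]

theorem c4_rev_neg (P : Pol k) : rev (-P) = -(rev P) := by
  unfold rev
  rw [support_neg, c4_dg_neg, ← Finset.sum_neg_distrib]
  apply Finset.sum_congr rfl
  intro j _
  rw [coeff_neg, map_neg]

theorem c4_Lam_neg (P : Pol k) : Lam (-P) = Lam P := by
  apply le_antisymm
  · apply Lam_mono; rw [support_neg]
  · apply Lam_mono; rw [support_neg]

theorem c4_good_neg {P : Pol k} : C4good (-P) ↔ C4good P := by
  unfold C4good
  rw [c4_rev_neg, c4_Lam_neg]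
  constructor
  · rintro ((h | h) | h)
    · left; left; exact neg_injective h
    · left; right; exact neg_injective h
    · right; exact h
  · rintro ((h | h) | h)
    · left; left; rw [h]
    · left; right; rw [h]
    · right; exact h

theorem c4_good_assoc {g h : Pol k} (ha : Associated g h) : C4good h ↔ C4good g := by
  obtain ⟨u, rfl⟩ := ha
  rcases c4_unit u.isUnit with h1 | h1
  · rw [h1, mul_one]
  · rw [h1, mul_neg, mul_one, c4_good_neg]

theorem c4_Lam_unit {u : Pol k} (hu : IsUnit u) : Lam u = ⊤ := by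
  rcases c4_unit hu with h | h
  · rw [h, Lam_one]
  · rw [h, c4_Lam_neg, Lam_one]

/-- splitting off the non-reciprocal factors. -/
theorem split_recip {c : Pol k} (hc : c ≠ 0) : ∃ A B : Pol k, A ≠ 0 ∧ B ≠ 0 ∧ c = A * B ∧
    (∀ g, Irreducible g → g ∣ A → (rev g = g ∨ rev g = -g) ∨ Lam g = ⊤) ∧
    (∀ g, Irreducible g → g ∣ B → ¬ (rev g = g ∨ rev g = -g) ∧ Lam g ≠ ⊤) ∧
    (∀ v : Fin k → ℤ, mm (ini (rl (-v)) A) = mm (ini (rl v) A)) := by
  classical
  induction c using WfDvdMonoid.induction_on_irreducible with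
  | zero => exact absurd rfl hc
  | unit u hu =>
    refine ⟨u, 1, hc, one_ne_zero, (mul_one u).symm, ?_, ?_, ?_⟩
    · intro g hg hd
      exact absurd (isUnit_of_dvd_unit hd hu) hg.not_isUnit
    · intro g hg hd
      exact absurd (isUnit_of_dvd_unit hd isUnit_one) hg.not_isUnit
    · intro v
      have hL := c4_Lam_unit hu
      rw [(ini_eq_self_iff hc).mpr (by rw [hL]; trivial),
        (ini_eq_self_iff hc).mpr (by rw [hL]; trivial)]
  | mul P g hP0 hg ih =>
    have hg0 := hg.ne_zero
    obtain ⟨A, B, hA, hB, hAB, h1, h2, h3⟩ := ih hP0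
    by_cases hgood : C4good g
    · refine ⟨g * A, B, mul_ne_zero hg0 hA, hB, by rw [hAB, mul_assoc], ?_, h2, ?_⟩
      · intro q hq hd
        rcases hq.prime.dvd_or_dvd hd with hd' | hd'
        · exact (c4_good_assoc (hq.associated_of_dvd hg hd')).mp hgood
        · exact h1 q hq hd'
      · intro v
        rw [ini_mul _ hg0 hA, ini_mul _ hg0 hA, mm_mul (ini_ne_zero _ hg0) (ini_ne_zero _ hA),
          mm_mul (ini_ne_zero _ hg0) (ini_ne_zero _ hA), h3 v, c4_mm_good hg0 hgood v]
    · refine ⟨A, g * B, hA, mul_ne_zero hg0 hB, by rw [hAB]; ring, h1, ?_, h3⟩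
      intro q hq hd
      rcases hq.prime.dvd_or_dvd hd with hd' | hd'
      · have hn : ¬ C4good q := by
          rw [← c4_good_assoc (hq.associated_of_dvd hg hd')]
          exact hgood
        unfold C4good at hn
        exact ⟨fun h => hn (Or.inl h), fun h => hn (Or.inr h)⟩
      · exact h2 q hq hd'

/-- the bound for the codimension of non-reciprocal parts. -/
noncomputable def CN (M : ℝ) : ℝ :=
  (2 * exp (2 * (2 * M + log 2)) * Phi (2 * M + log 2)) * M

theorem codim_nonrecip {B : Pol k} (hB : B ≠ 0)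
    (h : ∀ g, Irreducible g → g ∣ B → ¬ (rev g = g ∨ rev g = -g) ∧ Lam g ≠ ⊤) {M : ℝ}
    (hM : mm B ≤ M) : (k : ℝ) - finrank ℝ (Lam B) ≤ CN M := by
  have h1 := factor_bound (X := ⊤) (B := M) B hB hM
    (fun g hg hd hr => absurd hr (h g hg hd).1)
  rw [inf_top_eq, finrank_top, Module.finrank_fin_fun] at h1
  refine h1.trans ?_
  unfold CN
  have h0 := mm_nonneg hB
  have hl2 : 0 ≤ log 2 := Real.log_nonneg (by norm_num)
  have hPhi := Phi_nonneg (h := 2 * M + log 2) (by linarith)
  exact mul_le_mul_of_nonneg_left hM (by positivity)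

end CP
end Pool.Agent.MP_44c6d5_nt
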