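import Mathlib
import Pool.Agent.MP_44c6d5_nt.CP.B10
import Pool.Agent.MP_44c6d5_nt.CP.C1
import Pool.Agent.MP_44c6d5_nt.CP.C2
import Pool.Agent.MP_44c6d5_nt.CP.C4

namespace Pool.Agent.MP_44c6d5_nt
namespace CP

open MeasureTheory Real Module MvPolynomial

variable {k : ℕ} {κ : ℕ}

theorem Lam_le_of_dvd {p B : Pol k} (hB : B ≠ 0) (h : p ∣ B) : Lam B ≤ Lam p := by
  obtain ⟨D, rfl⟩ := h
  have hp : p ≠ 0 := left_ne_zero_of_mul hB
  have hD : D ≠ 0 := right_ne_zero_of_mul hB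
  rw [Lam_mul hp hD]
  exact inf_le_left

theorem mem_Lam_of_factors {u : Fin k → ℝ} (B : Pol k) : B ≠ 0 →
    (∀ g, Irreducible g → g ∣ B → u ∈ Lam g) → u ∈ Lam B := by
  induction B using WfDvdMonoid.induction_on_irreducible with
  | zero => intro h; exact absurd rfl h
  | unit v hv =>
    intro hv0 _
    obtain ⟨v', hv'⟩ := hv.exists_right_inv
    have hv0' : v' ≠ 0 := by
      rintro rfl
      rw [mul_zero] at hv'
      exact zero_ne_one hv'
    have h1 : Lam v = ⊤ := by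
      have := Lam_mul hv0 hv0'
      rw [hv', Lam_one] at this
      exact (inf_eq_top_iff.mp this.symm).1
    rw [h1]; exact Submodule.mem_top
  | mul P g hP0 hg ih =>
    intro _ h
    rw [Lam_mul hg.ne_zero hP0]
    exact ⟨h g hg (dvd_mul_right g P), ih hP0 fun g' hg' hd => h g' hg' (hd.mul_left g)⟩

/-- the loss of measure of a factor under `ini` is at most the loss of the product -/
theorem loss_le {X R : Pol k} (hX : X ≠ 0) (hR : R ≠ 0) (u : Fin k → ℝ) :
    mm X - mm (ini u X) ≤ mm (X * R) - mm (ini u (X * R)) := by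
  rw [ini_mul u hX hR, mm_mul hX hR, mm_mul (ini_ne_zero u hX) (ini_ne_zero u hR)]
  have := mm_ini_le u hR
  linarith

theorem decouple {P : Pol k} (hP : P ≠ 0) {w : Fin κ → Fin k → ℤ} (hc : Corner P w) {M : ℝ}
    (hM : mm P ≤ M) {S : Finset (Fin κ)}
    (hS : ∀ T ⊆ S, S.card ≤ T.card + 2 → mm (PS P w S) - mm (PS P w T) ≤ t0 M 1 / 16)
    {i j : Fin κ} (hi : i ∈ S) (hj : j ∈ S) (hij : i ≠ j) {g : Pol k} (hg : Irreducible g)
    (hgd : g ∣ PS P w S) (hgi : rl (w i) ∉ Lam g) (hgj : rl (w j) ∉ Lam g) {A B : Pol k}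
    (hAB : PS P w (S.erase i) = A * B)
    (hA : ∀ g, Irreducible g → g ∣ A → (rev g = g ∨ rev g = -g) ∨ Lam g = ⊤) :
    rl (w j) ∉ Lam B := by
  intro hB
  have hg0 := hg.ne_zero
  have hPS0 : PS P w S ≠ 0 := PS_ne_zero hP w S
  have hPSi0 : PS P w (S.erase i) ≠ 0 := PS_ne_zero hP w _
  obtain ⟨R, hR⟩ := hgd
  have hR0 : R ≠ 0 := by
    rintro rfl
    rw [mul_zero] at hR
    exact hPS0 hR
  set c : Pol k := ini (rl (w i)) g with hcdef
  have hc0 : c ≠ 0 := ini_ne_zero _ hg0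
  set R1 : Pol k := ini (rl (w i)) R with hR1def
  have hR10 : R1 ≠ 0 := ini_ne_zero _ hR0
  have hPSi : PS P w (S.erase i) = c * R1 := by
    rw [← ini_PS hc hi, hR, ini_mul _ hg0 hR0]
  have hAB0 : A * B ≠ 0 := hAB ▸ hPSi0
  have hB0 : B ≠ 0 := right_ne_zero_of_mul hAB0
  obtain ⟨A', B', hA'0, hB'0, hcAB, hA', hB', hsym⟩ := split_recip hc0
  -- the factors of `B'` divide `B`
  have hBL : rl (w j) ∈ Lam B' := by
    apply mem_Lam_of_factors B' hB'0
    intro p hp hpB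
    have hpd : p ∣ A * B := by
      rw [← hAB, hPSi, hcAB]
      exact (hpB.mul_left A').mul_right R1
    rcases hp.prime.dvd_or_dvd hpd with h | h
    · exfalso
      rcases hA p hp h with h' | h'
      · exact (hB' p hp hpB).1 h'
      · exact (hB' p hp hpB).2 h'
    · exact Lam_le_of_dvd hB0 h hB
  have hwB : wd' (w j) B' = 0 := by
    by_contra hne
    exact (wd'_pos_iff (w j) hB'0).mp (Nat.one_le_iff_ne_zero.mpr hne) hBL
  have hwc : wd' (w j) c = wd' (w j) g := wd'_ini_dvd hc ⟨R, hR⟩ hi hj hij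
  have hwA : wd' (w j) A' = wd' (w j) g := by
    have h1 := wd'_mul (w j) hA'0 hB'0
    rw [← hcAB, hwc, hwB] at h1
    omega
  have hgpos : 1 ≤ wd' (w j) g := (wd'_pos_iff (w j) hg0).mpr hgj
  have hmono : ∀ T : Finset (Fin κ), mm (PS P w T) ≤ mm P := fun T => mm_ini_le _ hP
  have hmg : mm g ≤ M := by
    have h1 : mm g ≤ mm (PS P w S) := mm_dvd_le hPS0 ⟨R, hR⟩
    exact h1.trans ((hmono S).trans hM)
  have hcard : (S.erase i).card = S.card - 1 := Finset.card_erase_of_mem hi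
  have hji : j ∈ S.erase i := Finset.mem_erase.mpr ⟨hij.symm, hj⟩
  have hcard2 : ((S.erase i).erase j).card = (S.erase i).card - 1 := Finset.card_erase_of_mem hji
  have hloss1 : mm g - mm c ≤ t0 M 1 / 16 := by
    have h1 := loss_le hg0 hR0 (rl (w i))
    rw [← hR, ini_PS hc hi] at h1
    exact h1.trans (hS _ (Finset.erase_subset i S) (by omega))
  have hloss2 : mm A' - mm (ini (rl (w j)) A') ≤ t0 M 1 / 16 := by
    have hne : B' * R1 ≠ 0 := mul_ne_zero hB'0 hR10
    have h1 := loss_le hA'0 hne (rl (w j))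
    have h2 : A' * (B' * R1) = PS P w (S.erase i) := by
      rw [hPSi, hcAB]; ring
    rw [h2, ini_PS hc hji] at h1
    have h3 : mm (PS P w (S.erase i)) ≤ mm (PS P w S) := by
      rw [← ini_PS hc hi]; exact mm_ini_le _ hPS0
    have h4 := hS ((S.erase i).erase j)
      ((Finset.erase_subset j _).trans (Finset.erase_subset i S)) (by omega)
    linarith
  refine KL hg hgi hgj hA'0 hB'0 hcAB (M := M) (β := 1) le_rfl ?_ ?_ hmg ?_ ?_
  · rw [hwA]; exact hgpos
  · rw [hwA, one_mul]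
  · rw [mul_one]; exact hloss1
  · rw [hsym, mul_one]
    linarith

end CP
end Pool.Agent.MP_44c6d5_nt
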