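import Mathlib

/-!
[C6] greedy independent sets.
-/

namespace Pool.Agent.MP_44c6d5_nt
namespace CP

variable {κ : ℕ}

theorem exists_indep (S : Finset (Fin κ)) (adj : Fin κ → Fin κ → Prop)
    (hsym : ∀ i j, adj i j → adj j i) {D : ℕ}
    (hD : ∀ i ∈ S, ∀ T ⊆ S.erase i, (∀ j ∈ T, adj i j) → T.card ≤ D) :
    ∃ I ⊆ S, (∀ i ∈ I, ∀ j ∈ I, i ≠ j → ¬ adj i j) ∧ S.card ≤ (D + 1) * I.card := by
  classical
  induction S using Finset.strongInduction with
  | H S ih =>
    rcases S.eq_empty_or_nonempty with rfl | ⟨i, hi⟩
    · exact ⟨∅, subset_rfl, by simp, by simp⟩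
    · set N : Finset (Fin κ) := (S.erase i).filter fun j => adj i j with hN
      have hNc : N.card ≤ D := hD i hi N (Finset.filter_subset _ _)
        fun j hj => (Finset.mem_filter.1 hj).2
      set S' : Finset (Fin κ) := (S.erase i) \ N with hS'
      have hsub : S' ⊆ S := Finset.sdiff_subset.trans (Finset.erase_subset _ _)
      have hi' : i ∉ S' := fun h => Finset.notMem_erase i S (Finset.mem_sdiff.1 h).1
      have hss : S' ⊂ S := Finset.ssubset_iff_of_subset hsub |>.2 ⟨i, hi, hi'⟩
      obtain ⟨I, hI, hind, hcard⟩ := ih S' hss fun a ha T hT h =>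
        hD a (hsub ha) T (hT.trans (Finset.erase_subset_erase a hsub)) h
      have hiI : i ∉ I := fun h => hi' (hI h)
      have hna : ∀ j ∈ I, ¬ adj i j := fun j hj h => by
        have h1 := Finset.mem_sdiff.1 (hI hj)
        exact h1.2 (Finset.mem_filter.2 ⟨h1.1, h⟩)
      refine ⟨insert i I, ?_, ?_, ?_⟩
      · intro j hj
        rcases Finset.mem_insert.1 hj with rfl | h
        · exact hi
        · exact hsub (hI h)
      · intro a ha b hb hab
        rcases Finset.mem_insert.1 ha with ha | ha <;> rcases Finset.mem_insert.1 hb with hb | hb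
        · exact absurd (ha.trans hb.symm) hab
        · rw [ha]; exact hna b hb
        · rw [hb]; exact fun h => hna a ha (hsym _ _ h)
        · exact hind a ha b hb hab
      · have h1 : S.card = (S.erase i).card + 1 := (Finset.card_erase_add_one hi).symm
        have h2 : (S.erase i).card ≤ S'.card + N.card := by
          have := Finset.card_le_card_sdiff_add_card (s := S.erase i) (t := N)
          exact this
        rw [Finset.card_insert_of_notMem hiI]
        have h3 : (D + 1) * (I.card + 1) = (D + 1) * I.card + (D + 1) := by ring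
        omega

end CP
end Pool.Agent.MP_44c6d5_nt
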