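import Mathlib
import Pool.Agent.MP_44c6d5_nt.CP.Def

/-!
[C7] splitting a polynomial into blocks.
-/

namespace Pool.Agent.MP_44c6d5_nt
namespace CP

open MeasureTheory Real Module MvPolynomial

variable {k : ℕ} {κ : ℕ}

/-- a unit is homogeneous for all weights. -/
theorem c7_Lam_unit {u : Pol k} (hu : IsUnit u) : Lam u = ⊤ := by
  obtain ⟨v, hv⟩ := hu.exists_right_inv
  have hv0 : v ≠ 0 := by
    rintro rfl
    rw [mul_zero] at hv
    exact zero_ne_one hv
  have := Lam_mul hu.ne_zero hv0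
  rw [hv, Lam_one] at this
  exact (inf_eq_top_iff.mp this.symm).1

theorem exists_blocks {F : Pol k} (hF : F ≠ 0) (w : Fin κ → Fin k → ℤ) (I : Finset (Fin κ))
    (h : ∀ g, Irreducible g → g ∣ F → ∀ i ∈ I, ∀ j ∈ I, i ≠ j →
      rl (w i) ∈ Lam g ∨ rl (w j) ∈ Lam g) :
    ∃ (Γ : Fin κ → Pol k) (G : Pol k), F = (∏ j ∈ I, Γ j) * G ∧ (∀ j, Γ j ≠ 0) ∧ G ≠ 0 ∧
      (∀ i ∈ I, ∀ j ∈ I, i ≠ j → rl (w i) ∈ Lam (Γ j)) ∧ ∀ j ∈ I, rl (w j) ∈ Lam G := by
  classical
  induction F using WfDvdMonoid.induction_on_irreducible with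
  | zero => exact absurd rfl hF
  | unit u hu =>
    refine ⟨fun _ => 1, u, by simp, fun _ => one_ne_zero, hF, ?_, ?_⟩
    · intro i _ j _ _
      rw [Lam_one]; trivial
    · intro j _
      rw [c7_Lam_unit hu]; trivial
  | mul F g hF0 hg ih =>
    obtain ⟨Γ, G, h1, h2, h3, h4, h5⟩ := ih hF0
      (fun g' hg' hd => h g' hg' (hd.mul_left g))
    have hg0 := hg.ne_zero
    by_cases hc : ∀ j ∈ I, rl (w j) ∈ Lam g
    · refine ⟨Γ, g * G, by rw [h1]; ring, h2, mul_ne_zero hg0 h3, h4, ?_⟩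
      intro j hj
      rw [Lam_mul hg0 h3]
      exact ⟨hc j hj, h5 j hj⟩
    · push Not at hc
      obtain ⟨j0, hj0, hn⟩ := hc
      refine ⟨Function.update Γ j0 (g * Γ j0), G, ?_, ?_, h3, ?_, h5⟩
      · rw [h1, Finset.prod_update_of_mem hj0, ← Finset.mul_prod_erase I Γ hj0,
          Finset.sdiff_singleton_eq_erase]
        ring
      · intro j
        by_cases hj : j = j0
        · rw [hj, Function.update_self]
          exact mul_ne_zero hg0 (h2 j0)
        · rw [Function.update_of_ne hj]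
          exact h2 j
      · intro i hi j hj hij
        by_cases hjj : j = j0
        · rw [hjj, Function.update_self, Lam_mul hg0 (h2 j0)]
          rw [hjj] at hij
          refine ⟨?_, h4 i hi j0 hj0 hij⟩
          rcases h g hg (dvd_mul_right g F) i hi j0 hj0 hij with h6 | h6
          · exact h6
          · exact absurd h6 hn
        · rw [Function.update_of_ne hjj]
          exact h4 i hi j hj hij

end CP
end Pool.Agent.MP_44c6d5_nt
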