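import Mathlib
import Pool.Agent.MP_44c6d5_nt.CP.Def2
import Pool.Agent.MP_44c6d5_nt.CP.B1
import Pool.Agent.MP_44c6d5_nt.CP.B11
import Pool.Agent.MP_44c6d5_nt.CP.C1
import Pool.Agent.MP_44c6d5_nt.CP.C2
import Pool.Agent.MP_44c6d5_nt.CP.C3
import Pool.Agent.MP_44c6d5_nt.CP.C4
import Pool.Agent.MP_44c6d5_nt.CP.C5
import Pool.Agent.MP_44c6d5_nt.CP.C6
import Pool.Agent.MP_44c6d5_nt.CP.C7

/-!
[C8] the corner bound.
-/

namespace Pool.Agent.MP_44c6d5_nt
namespace CP

open MeasureTheory Real Module MvPolynomial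

variable {k : ℕ} {κ : ℕ}

theorem c8_CN_nonneg {M : ℝ} (hM : 0 ≤ M) : 0 ≤ CN M := by
  unfold CN
  have hl2 : 0 ≤ log 2 := Real.log_nonneg (by norm_num)
  have := Phi_nonneg (h := 2 * M + log 2) (by linarith)
  positivity

theorem c8_t0_pos (M β : ℝ) : 0 < t0 M β := by unfold t0; positivity

theorem c8_t0_le {M : ℝ} (hM : 0 ≤ M) : t0 M 1 ≤ 1 := by
  unfold t0
  have h : exp (-(64 * (1 * (52 * M + 3) + 2))) ≤ 1 := by
    rw [Real.exp_le_one_iff]; nlinarith
  have h0 := Real.exp_pos (-(64 * (1 * (52 * M + 3) + 2)))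
  linarith

theorem c8_wd_zero {v : Fin k → ℤ} {P : Pol k} (hP : P ≠ 0) (h : rl v ∈ Lam P) : wd' v P = 0 := by
  by_contra hne
  exact (wd'_pos_iff v hP).mp (Nat.one_le_iff_ne_zero.mpr hne) h

theorem c8_wd_prod (v : Fin k → ℤ) (Γ : Fin κ → Pol k) (hΓ : ∀ j, Γ j ≠ 0) (I : Finset (Fin κ))
    (h : ∀ j ∈ I, rl v ∈ Lam (Γ j)) : wd' v (∏ j ∈ I, Γ j) = 0 := by
  classical
  induction I using Finset.induction_on with
  | empty =>
    rw [Finset.prod_empty]
    exact c8_wd_zero one_ne_zero (by rw [Lam_one]; trivial)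
  | insert a s ha ih =>
    rw [Finset.prod_insert ha, wd'_mul v (hΓ a) (Finset.prod_ne_zero_iff.mpr fun j _ => hΓ j),
      ih fun j hj => h j (Finset.mem_insert_of_mem hj),
      c8_wd_zero (hΓ a) (h a (Finset.mem_insert_self _ _))]

theorem c8_mm_prod (Γ : Fin κ → Pol k) (hΓ : ∀ j, Γ j ≠ 0) (I : Finset (Fin κ)) :
    ∑ j ∈ I, mm (Γ j) ≤ mm (∏ j ∈ I, Γ j) := by
  classical
  induction I using Finset.induction_on with
  | empty =>
    rw [Finset.prod_empty, Finset.sum_empty]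
    exact mm_nonneg one_ne_zero
  | insert a s ha ih =>
    rw [Finset.prod_insert ha, Finset.sum_insert ha,
      mm_mul (hΓ a) (Finset.prod_ne_zero_iff.mpr fun j _ => hΓ j)]
    linarith

theorem c8_PS_le {P : Pol k} (hP : P ≠ 0) (w : Fin κ → Fin k → ℤ) (S : Finset (Fin κ)) :
    mm (PS P w S) ≤ mm P := mm_ini_le _ hP

/-- the degree bound -/
theorem c8_deg {P : Pol k} (hP : P ≠ 0) {w : Fin κ → Fin k → ℤ} (hc : Corner P w) {M : ℝ}
    (hM : mm P ≤ M) {S : Finset (Fin κ)}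
    (hS : ∀ T ⊆ S, S.card ≤ T.card + 2 → mm (PS P w S) - mm (PS P w T) ≤ t0 M 1 / 16)
    {i : Fin κ} (hi : i ∈ S) {T : Finset (Fin κ)} (hT : T ⊆ S.erase i)
    (hadj : ∀ j ∈ T, i ≠ j ∧ ∃ g : Pol k, Irreducible g ∧ g ∣ PS P w S ∧ rl (w i) ∉ Lam g ∧
      rl (w j) ∉ Lam g) : (T.card : ℝ) ≤ CN M := by
  obtain ⟨A, B, hA0, hB0, hAB, hA, hB, -⟩ := split_recip (PS_ne_zero hP w (S.erase i))
  have h1 : ∀ j ∈ T, rl (w j) ∉ Lam B := by
    intro j hj
    obtain ⟨hij, g, hg, hgd, hgi, hgj⟩ := hadj j hj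
    exact decouple hP hc hM hS hi (Finset.mem_of_mem_erase (hT hj)) hij hg hgd hgi hgj hAB hA
  have hBd : B ∣ PS P w (S.erase i) := ⟨A, by rw [hAB, mul_comm]⟩
  have h2 := card_add_finrank_le hc hBd hT h1
  have h3 : mm B ≤ M :=
    ((mm_dvd_le (PS_ne_zero hP w _) hBd).trans (c8_PS_le hP w _)).trans hM
  have h4 := codim_nonrecip hB0 hB h3
  have h5 : (T.card : ℝ) + finrank ℝ (Lam B) ≤ k := by exact_mod_cast h2
  linarith

theorem corner_bound {P : Pol k} (hP : Irreducible P) {w : Fin κ → Fin k → ℤ}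
    (hc : Corner P w) {M : ℝ} (hM : mm P ≤ M) :
    (κ : ℝ) ≤ (CN M + 2) * (64 * M + 3) / t0 M 1 + 32 * M / t0 M 1 + CN M + 2 := by
  classical
  have hP0 := hP.ne_zero
  have hM0 : 0 ≤ M := (mm_nonneg hP0).trans hM
  have hC0 := c8_CN_nonneg hM0
  have ht := c8_t0_pos M 1
  have ht1 := c8_t0_le hM0
  obtain ⟨S, hS1, hS2⟩ := exists_S0 hP0 w (η := t0 M 1 / 16) (by positivity) hM
  have hS1' : (κ : ℝ) ≤ S.card + 32 * M / t0 M 1 := by
    have : 2 * M / (t0 M 1 / 16) = 32 * M / t0 M 1 := by field_simp; ring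
    rw [this] at hS1; exact hS1
  suffices hmain : (S.card : ℝ) ≤ (CN M + 2) * (64 * M + 3) / t0 M 1 + CN M + 2 by linarith
  have hpos0 : 0 ≤ (CN M + 2) * (64 * M + 3) / t0 M 1 := by positivity
  by_cases hSu : S = Finset.univ
  · -- all directions are adjacent
    rcases S.eq_empty_or_nonempty with hSe | ⟨i, hi⟩
    · rw [hSe, Finset.card_empty, Nat.cast_zero]; linarith
    · have h1 := c8_deg hP0 hc hM hS2 hi (T := S.erase i) subset_rfl (by
        intro j hj
        refine ⟨(Finset.ne_of_mem_erase hj).symm, P, hP, ?_, ?_, ?_⟩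
        · rw [hSu, PS_univ hP0]
        · exact (wd'_pos_iff _ hP0).mp (wd'_PS hc hi).2
        · exact (wd'_pos_iff _ hP0).mp (wd'_PS hc (Finset.mem_of_mem_erase hj)).2)
      rw [Finset.card_erase_of_mem hi] at h1
      have h2 : 1 ≤ S.card := Finset.card_pos.mpr ⟨i, hi⟩
      rw [Nat.cast_sub h2, Nat.cast_one] at h1
      linarith
  · have hl := lS_notMem hc hSu
    set adj : Fin κ → Fin κ → Prop := fun i j => i ≠ j ∧ ∃ g : Pol k, Irreducible g ∧
      g ∣ PS P w S ∧ rl (w i) ∉ Lam g ∧ rl (w j) ∉ Lam g with hadj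
    obtain ⟨I, hIS, hI1, hI2⟩ := exists_indep S adj
      (by
        rintro i j ⟨h1, g, h2, h3, h4, h5⟩
        exact ⟨h1.symm, g, h2, h3, h5, h4⟩)
      (D := ⌊CN M⌋₊) (by
        intro i hi T hT hTa
        exact Nat.le_floor (c8_deg hP0 hc hM hS2 hi hT hTa))
    have hPS0 := PS_ne_zero hP0 w S
    obtain ⟨Γ, G, hF, hΓ0, hG0, hΓ, hG⟩ := exists_blocks hPS0 w I (by
      intro g hg hgd i hi j hj hij
      by_contra hcon
      push Not at hcon
      exact hI1 i hi j hj hij ⟨hij, g, hg, hgd, hcon.1, hcon.2⟩)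
    -- widths of the blocks
    have hwd : ∀ j ∈ I, wd' (w j) (Γ j) = wd' (w j) P := by
      intro j hj
      have e1 := (wd'_PS hc (hIS hj)).1
      rw [hF, ← Finset.mul_prod_erase I Γ hj, mul_assoc,
        wd'_mul _ (hΓ0 j) (mul_ne_zero (Finset.prod_ne_zero_iff.mpr fun j _ => hΓ0 j) hG0),
        wd'_mul _ (Finset.prod_ne_zero_iff.mpr fun j _ => hΓ0 j) hG0,
        c8_wd_prod (w j) Γ hΓ0 (I.erase j) (fun i hi => hΓ j hj i (Finset.mem_of_mem_erase hi)
          (Finset.ne_of_mem_erase hi).symm),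
        c8_wd_zero hG0 (hG j hj)] at e1
      simpa using e1
    -- the mass of the blocks
    have hsum : ∑ j ∈ I, mm (Γ j) ≤ M := by
      have a1 := c8_mm_prod Γ hΓ0 I
      have a2 : mm (∏ j ∈ I, Γ j) ≤ mm (PS P w S) :=
        mm_dvd_le hPS0 ⟨G, hF⟩
      linarith [c8_PS_le hP0 w S]
    set I1 := I.filter fun j => mm (Γ j) ≤ t0 M 1 / (32 * 1) with hI1def
    set I2 := I.filter fun j => ¬ mm (Γ j) ≤ t0 M 1 / (32 * 1) with hI2def
    have hcard : I1.card + I2.card = I.card := Finset.card_filter_add_card_filter_not _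
    have hI2card : (I2.card : ℝ) ≤ 32 * M / t0 M 1 := by
      have a1 : (I2.card : ℝ) * (t0 M 1 / 32) ≤ ∑ j ∈ I2, mm (Γ j) := by
        rw [← nsmul_eq_mul]
        apply Finset.card_nsmul_le_sum
        intro j hj
        have := (Finset.mem_filter.mp hj).2
        rw [mul_one] at this
        exact (not_le.mp this).le
      have a2 : ∑ j ∈ I2, mm (Γ j) ≤ ∑ j ∈ I, mm (Γ j) :=
        Finset.sum_le_sum_of_subset_of_nonneg (Finset.filter_subset _ _)
          (fun j _ _ => mm_nonneg (hΓ0 j))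
      rw [le_div_iff₀ ht]
      linarith
    have hI1card : (I1.card : ℝ) < 1 / t0 M 1 := by
      by_contra hcon
      push Not at hcon
      refine WW hP hl (ι := {j // j ∈ I1}) (fun j => w j.1) (fun j => Γ j.1)
        (fun j => (∏ i ∈ I.erase j.1, Γ i) * G) ?_ ?_ (M := M) (β := 1) le_rfl hM ?_ ?_ ?_ ?_
      · intro j
        have hj : j.1 ∈ I := (Finset.mem_filter.mp j.2).1
        have : ini (rl (lS w S)) P = PS P w S := rfl
        rw [this, hF, ← Finset.mul_prod_erase I Γ hj, mul_assoc]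
      · intro j
        have hj : j.1 ∈ I := (Finset.mem_filter.mp j.2).1
        rw [hwd j.1 hj]
        exact (wd'_PS hc (hIS hj)).2
      · intro j
        have hj : j.1 ∈ I := (Finset.mem_filter.mp j.2).1
        rw [hwd j.1 hj, one_mul]
      · intro i j hij
        have hi : i.1 ∈ I := (Finset.mem_filter.mp i.2).1
        have hj : j.1 ∈ I := (Finset.mem_filter.mp j.2).1
        exact hΓ i.1 hi j.1 hj (fun h => hij (Subtype.ext h))
      · intro j
        exact (Finset.mem_filter.mp j.2).2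
      · rw [Fintype.card_coe]; exact hcon
    have hIc : (I.card : ℝ) ≤ (64 * M + 3) / t0 M 1 := by
      have a1 : (I.card : ℝ) = I1.card + I2.card := by exact_mod_cast hcard.symm
      have a2 : 1 / t0 M 1 + 32 * M / t0 M 1 ≤ (64 * M + 3) / t0 M 1 := by
        rw [← add_div]
        exact div_le_div_of_nonneg_right (by linarith) ht.le
      linarith
    have hfl : ((⌊CN M⌋₊ : ℕ) : ℝ) ≤ CN M := Nat.floor_le hC0
    have hS3 : (S.card : ℝ) ≤ (((⌊CN M⌋₊ : ℕ) : ℝ) + 1) * I.card := by exact_mod_cast hI2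
    have : (S.card : ℝ) ≤ (CN M + 2) * ((64 * M + 3) / t0 M 1) := by
      refine hS3.trans ?_
      apply mul_le_mul _ hIc (by positivity) (by positivity)
      linarith
    rw [← mul_div_assoc] at this
    linarith

theorem c8_two_pow (n : ℕ) : (2 : ℝ) ^ n ≤ exp n := by
  have h1 : (2 : ℝ) ≤ exp 1 := by have := Real.add_one_le_exp (1 : ℝ); linarith
  calc (2 : ℝ) ^ n ≤ (exp 1) ^ n := by gcongr
    _ = exp n := by rw [← Real.exp_nat_mul, mul_one]

theorem c8_CN_le {M : ℝ} (hM : 0 ≤ M) : CN M ≤ exp (19 * M + 16) := by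
  have hl0 : 0 ≤ log 2 := Real.log_nonneg (by norm_num)
  have hl2 : log 2 ≤ 1 := by
    have := Real.log_le_sub_one_of_pos (show (0 : ℝ) < 2 by norm_num); linarith
  have hl3 : log 3 ≤ 2 := by
    have := Real.log_le_sub_one_of_pos (show (0 : ℝ) < 3 by norm_num); linarith
  have hl3' : 0 ≤ log 3 := Real.log_nonneg (by norm_num)
  have hX := Real.add_one_le_exp M
  unfold CN Phi
  have e8 : (144 : ℝ) ≤ exp 8 := by
    have := c8_two_pow 8; norm_num at this ⊢; linarith
  calc (2 * exp (2 * (2 * M + log 2)) * (9 * (2 * M + log 2) * (2 * (2 * M + log 2) + log 3) *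
        exp (6 * (2 * M + log 2)))) * M
      ≤ (2 * exp (2 * (2 * M + 1)) * (9 * (2 * exp M) * (4 * exp M) *
        exp (6 * (2 * M + 1)))) * exp M := by
        gcongr
        · linarith
        · linarith
        · linarith
    _ = 144 * exp (19 * M + 8) := by
        rw [show 19 * M + 8 = 2 * (2 * M + 1) + M + M + 6 * (2 * M + 1) + M by ring,
          Real.exp_add, Real.exp_add, Real.exp_add, Real.exp_add]
        ring
    _ ≤ exp 8 * exp (19 * M + 8) := by gcongr
    _ = exp (19 * M + 16) := by rw [← Real.exp_add]; ring_nf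

theorem numeric {M : ℝ} (hM : 0 ≤ M) :
    (CN M + 2) * (64 * M + 3) / t0 M 1 + 32 * M / t0 M 1 + CN M + 2 ≤ exp (4000 * (M + 1)) := by
  have hC := c8_CN_le hM
  have hC0 := c8_CN_nonneg hM
  have hX := Real.add_one_le_exp M
  have e1 : (2 : ℝ) ≤ exp 1 := by have := c8_two_pow 1; norm_num at this ⊢; linarith
  have e2 : (4 : ℝ) ≤ exp 2 := by have := c8_two_pow 2; norm_num at this ⊢; linarith
  have e6 : (64 : ℝ) ≤ exp 6 := by have := c8_two_pow 6; norm_num at this ⊢; linarith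
  have ht : ∀ x : ℝ, x / t0 M 1 = x * (4 * exp (3328 * M + 320)) := by
    intro x
    unfold t0
    rw [show -(64 * (1 * (52 * M + 3) + 2)) = -(3328 * M + 320) by ring, Real.exp_neg]
    field_simp
  have hA : CN M + 2 ≤ exp (19 * M + 17) := by
    have h1 : (2 : ℝ) ≤ exp (19 * M + 16) := by
      refine e1.trans ?_
      rw [Real.exp_le_exp]; linarith
    calc CN M + 2 ≤ 2 * exp (19 * M + 16) := by linarith
      _ ≤ exp 1 * exp (19 * M + 16) := by gcongr
      _ = exp (19 * M + 17) := by rw [← Real.exp_add]; ring_nf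
  have hB : 64 * M + 3 ≤ exp (M + 6) := by
    calc 64 * M + 3 ≤ exp 6 * exp M := by nlinarith [Real.exp_pos M]
      _ = exp (M + 6) := by rw [← Real.exp_add]; ring_nf
  have hB2 : 32 * M ≤ exp (M + 6) := by linarith
  have hD : 4 * exp (3328 * M + 320) ≤ exp (3328 * M + 322) := by
    calc 4 * exp (3328 * M + 320) ≤ exp 2 * exp (3328 * M + 320) := by gcongr
      _ = exp (3328 * M + 322) := by rw [← Real.exp_add]; ring_nf
  rw [ht, ht]
  have t1 : (CN M + 2) * (64 * M + 3) * (4 * exp (3328 * M + 320)) ≤ exp (3998 * (M + 1)) := by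
    calc (CN M + 2) * (64 * M + 3) * (4 * exp (3328 * M + 320))
        ≤ exp (19 * M + 17) * exp (M + 6) * exp (3328 * M + 322) := by gcongr
      _ = exp (3348 * M + 345) := by rw [← Real.exp_add, ← Real.exp_add]; ring_nf
      _ ≤ exp (3998 * (M + 1)) := by rw [Real.exp_le_exp]; linarith
  have t2 : 32 * M * (4 * exp (3328 * M + 320)) ≤ exp (3998 * (M + 1)) := by
    calc 32 * M * (4 * exp (3328 * M + 320))
        ≤ exp (M + 6) * exp (3328 * M + 322) := by gcongr
      _ = exp (3329 * M + 328) := by rw [← Real.exp_add]; ring_nf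
      _ ≤ exp (3998 * (M + 1)) := by rw [Real.exp_le_exp]; linarith
  have t3 : CN M + 2 ≤ exp (3998 * (M + 1)) := by
    refine hA.trans ?_
    rw [Real.exp_le_exp]; linarith
  calc (CN M + 2) * (64 * M + 3) * (4 * exp (3328 * M + 320)) +
        32 * M * (4 * exp (3328 * M + 320)) + CN M + 2 ≤ 4 * exp (3998 * (M + 1)) := by
        have := Real.exp_pos (3998 * (M + 1))
        linarith
    _ ≤ exp 2 * exp (3998 * (M + 1)) := by gcongr
    _ = exp (3998 * (M + 1) + 2) := by rw [← Real.exp_add]; ring_nf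
    _ ≤ exp (4000 * (M + 1)) := by rw [Real.exp_le_exp]; linarith

end CP
end Pool.Agent.MP_44c6d5_nt
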