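import Mathlib

/-!
[D6] weighted independent sets.
-/

namespace Pool.Agent.MP_44c6d5_nt
namespace CP

variable {κ : ℕ}

theorem d6_insert {z : Fin κ → Fin κ → ℝ} (hz : ∀ i j, z i j = z j i) (hd : ∀ i, z i i = 0)
    {j : Fin κ} {I : Finset (Fin κ)} (hj : j ∉ I) :
    ∑ a ∈ insert j I, ∑ b ∈ insert j I, z a b = ∑ a ∈ I, ∑ b ∈ I, z a b + 2 * ∑ a ∈ I, z a j := by
  rw [Finset.sum_insert hj]
  simp_rw [Finset.sum_insert hj]
  rw [Finset.sum_add_distrib, hd]
  have h1 : ∑ b ∈ I, z j b = ∑ b ∈ I, z b j := Finset.sum_congr rfl fun b _ => hz j b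
  rw [h1]
  ring

theorem exists_indepW (S : Finset (Fin κ)) (x : Fin κ → Fin κ → ℝ) (hx : ∀ i j, 0 ≤ x i j)
    {D : ℝ} (hD : ∀ i ∈ S, ∑ j ∈ S.erase i, x i j ≤ D) :
    ∃ I ⊆ S, (∀ j ∈ I, ∑ i ∈ I.erase j, x i j ≤ 1 / 2) ∧
      (S.card : ℝ) ≤ 2 * (6 * D + 1) * I.card := by
  classical
  rcases S.eq_empty_or_nonempty with rfl | ⟨i0, hi0⟩
  · exact ⟨∅, subset_rfl, by simp, by simp⟩
  have hD0 : 0 ≤ D := (Finset.sum_nonneg fun j _ => hx i0 j).trans (hD i0 hi0)
  -- the columns with small sums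
  set J : Finset (Fin κ) := S.filter fun j => ∑ i ∈ S.erase j, x i j ≤ 2 * D with hJ
  have hJS : J ⊆ S := Finset.filter_subset _ _
  have hswap : ∑ j ∈ S, ∑ i ∈ S.erase j, x i j = ∑ i ∈ S, ∑ j ∈ S.erase i, x i j := by
    apply Finset.sum_comm'
    intro a b
    simp only [Finset.mem_erase]
    constructor
    · rintro ⟨h1, h2, h3⟩; exact ⟨⟨h2.symm, h1⟩, h3⟩
    · rintro ⟨⟨h1, h2⟩, h3⟩; exact ⟨h2, h1.symm, h3⟩
  have htot : ∑ j ∈ S, ∑ i ∈ S.erase j, x i j ≤ D * S.card := by
    rw [hswap]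
    calc ∑ i ∈ S, ∑ j ∈ S.erase i, x i j ≤ ∑ i ∈ S, D := Finset.sum_le_sum hD
      _ = D * S.card := by rw [Finset.sum_const, nsmul_eq_mul]; ring
  have hSJ : (S.card : ℝ) ≤ 2 * J.card := by
    have h1 : (S.card : ℝ) = J.card + (S \ J).card := by
      rw [← Finset.card_sdiff_add_card_eq_card hJS]; push_cast; ring
    rcases hD0.eq_or_lt with h0 | h0
    · -- all sums vanish
      have h2 : S \ J = ∅ := by
        rw [Finset.sdiff_eq_empty_iff_subset]
        intro j hj
        refine Finset.mem_filter.mpr ⟨hj, ?_⟩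
        have h3 : ∑ i ∈ S.erase j, x i j ≤ ∑ j ∈ S, ∑ i ∈ S.erase j, x i j :=
          Finset.single_le_sum (f := fun j => ∑ i ∈ S.erase j, x i j)
            (fun j _ => Finset.sum_nonneg fun i _ => hx i j) hj
        rw [← h0] at htot ⊢
        linarith
      rw [h2] at h1
      simp only [Finset.card_empty, Nat.cast_zero, add_zero] at h1
      rw [h1]
      have : (0 : ℝ) ≤ J.card := Nat.cast_nonneg _
      linarith
    · have h2 : ((S \ J).card : ℝ) * (2 * D) ≤ ∑ j ∈ S \ J, ∑ i ∈ S.erase j, x i j := by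
        rw [← nsmul_eq_mul, ← Finset.sum_const]
        apply Finset.sum_le_sum
        intro j hj
        rw [Finset.mem_sdiff, hJ, Finset.mem_filter] at hj
        by_contra h3
        exact hj.2 ⟨hj.1, (not_le.mp h3).le⟩
      have h3 : ∑ j ∈ S \ J, ∑ i ∈ S.erase j, x i j ≤ ∑ j ∈ S, ∑ i ∈ S.erase j, x i j :=
        Finset.sum_le_sum_of_subset_of_nonneg Finset.sdiff_subset
          fun j _ _ => Finset.sum_nonneg fun i _ => hx i j
      have h4 : ((S \ J).card : ℝ) * 2 ≤ S.card := by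
        have : D * (((S \ J).card : ℝ) * 2) ≤ D * S.card := by nlinarith
        exact le_of_mul_le_mul_left this h0
      linarith
  -- the symmetrised weights
  set z : Fin κ → Fin κ → ℝ := fun i j => if i = j then 0 else x i j + x j i with hz
  have hzd : ∀ i, z i i = 0 := fun i => by simp [hz]
  have hzs : ∀ i j, z i j = z j i := fun i j => by
    simp only [hz]
    by_cases h : i = j
    · rw [if_pos h, if_pos h.symm]
    · rw [if_neg h, if_neg (Ne.symm h), add_comm]
  have hzne : ∀ i j, i ≠ j → z i j = x i j + x j i := fun i j h => by simp [hz, h]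
  set Q : Finset (Fin κ) → ℝ := fun I => ∑ a ∈ I, ∑ b ∈ I, z a b - I.card with hQ
  have hQi : ∀ (I : Finset (Fin κ)) (j : Fin κ), j ∉ I →
      Q (insert j I) = Q I + 2 * ∑ a ∈ I, z a j - 1 := by
    intro I j hj
    simp only [hQ]
    rw [d6_insert hzs hzd hj, Finset.card_insert_of_notMem hj]
    push_cast
    ring
  obtain ⟨I, hI, hmin⟩ := Finset.exists_min_image J.powerset Q ⟨∅, by simp⟩
  rw [Finset.mem_powerset] at hI
  refine ⟨I, hI.trans hJS, ?_, ?_⟩
  · intro j hj
    have h1 := hmin (I.erase j) (Finset.mem_powerset.mpr ((Finset.erase_subset _ _).trans hI))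
    have h2 := hQi (I.erase j) j (Finset.notMem_erase j I)
    rw [Finset.insert_erase hj] at h2
    have h3 : ∑ i ∈ I.erase j, x i j ≤ ∑ i ∈ I.erase j, z i j := by
      apply Finset.sum_le_sum
      intro i hi
      rw [hzne i j (Finset.ne_of_mem_erase hi)]
      linarith [hx j i]
    linarith
  · have h1 : ∀ j ∈ J \ I, (1 / 2 : ℝ) ≤ ∑ a ∈ I, z a j := by
      intro j hj
      rw [Finset.mem_sdiff] at hj
      have h2 := hmin (insert j I) (Finset.mem_powerset.mpr
        (Finset.insert_subset hj.1 hI))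
      have h3 := hQi I j hj.2
      linarith
    have h2 : ((J \ I).card : ℝ) * (1 / 2) ≤ ∑ j ∈ J \ I, ∑ a ∈ I, z a j := by
      rw [← nsmul_eq_mul, ← Finset.sum_const]
      exact Finset.sum_le_sum h1
    rw [Finset.sum_comm] at h2
    have h3 : ∑ a ∈ I, ∑ j ∈ J \ I, z a j ≤ ∑ a ∈ I, 3 * D := by
      apply Finset.sum_le_sum
      intro a ha
      have haJ := hI ha
      have hsub : J \ I ⊆ S.erase a := by
        intro j hj
        rw [Finset.mem_sdiff] at hj
        refine Finset.mem_erase.mpr ⟨?_, hJS hj.1⟩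
        rintro rfl
        exact hj.2 ha
      have h4 : ∑ j ∈ J \ I, z a j = ∑ j ∈ J \ I, (x a j + x j a) := by
        apply Finset.sum_congr rfl
        intro j hj
        exact hzne a j (Finset.ne_of_mem_erase (hsub hj)).symm
      have h5 : ∑ j ∈ J \ I, (x a j + x j a) ≤ ∑ j ∈ S.erase a, (x a j + x j a) :=
        Finset.sum_le_sum_of_subset_of_nonneg hsub
          fun j _ _ => add_nonneg (hx a j) (hx j a)
      have h8 : ∑ j ∈ S.erase a, (x a j + x j a) =
          ∑ j ∈ S.erase a, x a j + ∑ j ∈ S.erase a, x j a := Finset.sum_add_distrib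
      have h6 := hD a (hJS haJ)
      have h7 := (Finset.mem_filter.mp haJ).2
      rw [h4]
      linarith
    rw [Finset.sum_const, nsmul_eq_mul] at h3
    have h4 : (J.card : ℝ) = I.card + (J \ I).card := by
      rw [← Finset.card_sdiff_add_card_eq_card hI]; push_cast; ring
    nlinarith

end CP
end Pool.Agent.MP_44c6d5_nt
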