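import Mathlib
import Pool.Agent.MP_44c6d5_nt.CP.Def
import Pool.Agent.MP_44c6d5_nt.CP.B1

/-!
[D7] splitting a polynomial into blocks, weighted version.
-/

namespace Pool.Agent.MP_44c6d5_nt
namespace CP

open MeasureTheory Real Module MvPolynomial

variable {k : ℕ} {κ : ℕ}

/-- a unit is homogeneous for all weights. -/
theorem d7_Lam_unit {u : Pol k} (hu : IsUnit u) : Lam u = ⊤ := by
  obtain ⟨v, hv⟩ := hu.exists_right_inv
  have hv0 : v ≠ 0 := by
    rintro rfl
    rw [mul_zero] at hv
    exact zero_ne_one hv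
  have := Lam_mul hu.ne_zero hv0
  rw [hv, Lam_one] at this
  exact (inf_eq_top_iff.mp this.symm).1

/-- zero width -/
theorem d7_wd_zero {v : Fin k → ℤ} {P : Pol k} (hP : P ≠ 0) (h : rl v ∈ Lam P) : wd' v P = 0 := by
  by_contra hne
  exact (wd'_pos_iff v hP).mp (Nat.one_le_iff_ne_zero.mpr hne) h

theorem exists_blocksW {F : Pol k} (hF : F ≠ 0) (w : Fin κ → Fin k → ℤ) :
    ∃ (E C : Fin κ → Pol k), (∀ i, F = E i * C i) ∧ (∀ i, rl (w i) ∈ Lam (C i)) ∧
      (∀ i, ∀ g, Irreducible g → g ∣ E i → rl (w i) ∉ Lam g) ∧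
      ∀ I : Finset (Fin κ), ∃ (Γ : Fin κ → Pol k) (G : Pol k), F = (∏ j ∈ I, Γ j) * G ∧
        (∀ j, Γ j ≠ 0) ∧ G ≠ 0 ∧ (∀ i ∈ I, ∀ j ∈ I, i ≠ j → rl (w i) ∈ Lam (Γ j)) ∧
        ∀ j ∈ I, wd' (w j) F ≤ wd' (w j) (Γ j) + ∑ i ∈ I.erase j, wd' (w j) (E i) := by
  classical
  induction F using WfDvdMonoid.induction_on_irreducible with
  | zero => exact absurd rfl hF
  | unit u hu =>
    refine ⟨fun _ => 1, fun _ => u, fun _ => by simp, fun i => ?_, fun i g hg hd => ?_,
      fun I => ⟨fun _ => 1, u, by simp, fun _ => one_ne_zero, hF, fun i _ j _ _ => ?_,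
        fun j _ => ?_⟩⟩
    · rw [d7_Lam_unit hu]; trivial
    · exact absurd (isUnit_of_dvd_one hd) hg.not_isUnit
    · rw [Lam_one]; trivial
    · rw [d7_wd_zero hF (by rw [d7_Lam_unit hu]; trivial)]
      exact Nat.zero_le _
  | mul F g hF0 hg ih =>
    obtain ⟨E, C, h1, h2, h3, h4⟩ := ih hF0
    have hg0 := hg.ne_zero
    have hE0 : ∀ i, E i ≠ 0 := by
      intro i h
      apply hF0
      rw [h1 i, h, zero_mul]
    have hC0 : ∀ i, C i ≠ 0 := by
      intro i h
      apply hF0
      rw [h1 i, h, mul_zero]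
    have hwE : ∀ j i, wd' (w j) (if rl (w i) ∈ Lam g then E i else g * E i) =
        wd' (w j) (E i) + (if rl (w i) ∈ Lam g then 0 else wd' (w j) g) := by
      intro j i
      split_ifs
      · rfl
      · rw [wd'_mul _ hg0 (hE0 i)]; ring
    refine ⟨fun i => if rl (w i) ∈ Lam g then E i else g * E i,
      fun i => if rl (w i) ∈ Lam g then g * C i else C i, fun i => ?_, fun i => ?_,
      fun i g' hg' hd => ?_, fun I => ?_⟩
    · dsimp only
      split_ifs
      · conv_lhs => rw [h1 i]
        ring
      · conv_lhs => rw [h1 i]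
        ring
    · dsimp only
      split_ifs with h
      · rw [Lam_mul hg0 (hC0 i)]
        exact ⟨h, h2 i⟩
      · exact h2 i
    · dsimp only at hd
      split_ifs at hd with h
      · exact h3 i g' hg' hd
      · rcases hg'.prime.dvd_or_dvd hd with h5 | h5
        · obtain ⟨u, hu⟩ := h5
          rcases hg.isUnit_or_isUnit hu with h6 | h6
          · exact absurd h6 hg'.not_isUnit
          · intro h7
            apply h
            rw [hu, Lam_mul hg'.ne_zero h6.ne_zero, d7_Lam_unit h6]
            exact ⟨h7, trivial⟩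
        · exact h3 i g' hg' h5
    · obtain ⟨Γ, G, e1, e2, e3, e4, e5⟩ := h4 I
      by_cases hc : ∃ j0 ∈ I, rl (w j0) ∉ Lam g ∧ ∀ i ∈ I, i ≠ j0 → rl (w i) ∈ Lam g
      · obtain ⟨j0, hj0, hn, hall⟩ := hc
        refine ⟨Function.update Γ j0 (g * Γ j0), G, ?_, ?_, e3, ?_, ?_⟩
        · rw [Finset.prod_update_of_mem hj0, Finset.sdiff_singleton_eq_erase]
          conv_lhs => rw [e1, ← Finset.mul_prod_erase I Γ hj0]
          ring
        · intro j
          by_cases hj : j = j0
          · rw [hj, Function.update_self]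
            exact mul_ne_zero hg0 (e2 j0)
          · rw [Function.update_of_ne hj]
            exact e2 j
        · intro i hi j hj hij
          by_cases hjj : j = j0
          · rw [hjj, Function.update_self, Lam_mul hg0 (e2 j0)]
            rw [hjj] at hij
            exact ⟨hall i hi hij, e4 i hi j0 hj0 hij⟩
          · rw [Function.update_of_ne hjj]
            exact e4 i hi j hj hij
        · intro j hj
          simp only [hwE, Finset.sum_add_distrib]
          rw [wd'_mul _ hg0 hF0]
          have h6 := e5 j hj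
          by_cases hjj : j = j0
          · subst hjj
            rw [Function.update_self, wd'_mul _ hg0 (e2 j)]
            omega
          · rw [Function.update_of_ne hjj, d7_wd_zero hg0 (hall j hj hjj)]
            omega
      · refine ⟨Γ, g * G, ?_, e2, mul_ne_zero hg0 e3, e4, ?_⟩
        · conv_lhs => rw [e1]
          ring
        · intro j hj
          simp only [hwE, Finset.sum_add_distrib]
          rw [wd'_mul _ hg0 hF0]
          have h6 := e5 j hj
          by_cases hjg : rl (w j) ∈ Lam g
          · rw [d7_wd_zero hg0 hjg]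
            omega
          · obtain ⟨i, hi, hij, hig⟩ : ∃ i ∈ I, i ≠ j ∧ rl (w i) ∉ Lam g := by
              by_contra hcon
              push Not at hcon
              exact hc ⟨j, hj, hjg, fun i hi hij => hcon i hi hij⟩
            have h7 : wd' (w j) g ≤
                ∑ i ∈ I.erase j, (if rl (w i) ∈ Lam g then 0 else wd' (w j) g) := by
              have h8 := Finset.single_le_sum
                (f := fun i => if rl (w i) ∈ Lam g then 0 else wd' (w j) g)
                (s := I.erase j) (fun _ _ => Nat.zero_le _) (Finset.mem_erase.mpr ⟨hij, hi⟩)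
              simpa [hig] using h8
            omega

end CP
end Pool.Agent.MP_44c6d5_nt
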