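import Mathlib
import Pool.Agent.MP_44c6d5_nt.CP.Def2

/-!
Definitions for the theorem on Minkowski sums: iterated faces and support functions.
-/

namespace Pool.Agent.MP_44c6d5_nt
namespace CP

open MeasureTheory Real Module MvPolynomial

variable {k : ℕ} {n : ℕ}

/-- the iterated face of `P` for a list of functionals (the head is applied last). -/
noncomputable def PL (P : Pol k) (v : Fin n → Fin k → ℤ) : List (Fin n) → Pol k
  | [] => P
  | i :: L => ini (rl (v i)) (PL P v L)

/-- the width condition: removing the functional `i` costs at most the fraction `x i j` of the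
width of `P` in the direction `v j`. -/
def WCond (P : Pol k) (v : Fin n → Fin k → ℤ) (x : Fin n → Fin n → ℝ) : Prop :=
  (∀ i j, 0 ≤ x i j) ∧ ∀ (L : List (Fin n)) (i j : Fin n), j ∉ L → j ≠ i →
    (wd' (v j) (PL P v L) : ℝ) ≤ wd' (v j) (PL P v (i :: L)) + x i j * wd' (v j) P

/-- the pairing of two real vectors -/
def dotR (y x : Fin k → ℝ) : ℝ := ∑ i, y i * x i

/-- the minimum of `⟨y, x⟩` over the points `x` of a finite set (`0` for the empty set). -/
noncomputable def suppF (T : Finset (Fin k → ℝ)) (y : Fin k → ℝ) : ℝ :=
  if h : T.Nonempty then T.inf' h (dotR y) else 0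

/-- the face of a finite set. -/
noncomputable def faceF (T : Finset (Fin k → ℝ)) (y : Fin k → ℝ) : Finset (Fin k → ℝ) := by
  classical exact T.filter fun x => dotR y x = suppF T y

/-- the width of a finite set. -/
noncomputable def wdF (T : Finset (Fin k → ℝ)) (y : Fin k → ℝ) : ℝ := -(suppF T (-y)) - suppF T y

end CP
end Pool.Agent.MP_44c6d5_nt
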