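import Mathlib
import Pool.Agent.MP_44c6d5_nt.CP.DefF

/-!
The general width condition.
-/

namespace Pool.Agent.MP_44c6d5_nt
namespace CP

open MeasureTheory Real Module MvPolynomial

variable {k : ℕ} {n : ℕ}

/-- the general width condition for a face `G` of `P`: `S L j` is the part of the width of `P` in
the direction `v j` that is certainly left (up to the factor `B`) in the iterated face of `G` for
the list `L`; adding `i` to the list costs at most `x i j`. -/
def UCond (P G : Pol k) (v : Fin n → Fin k → ℤ) (B : ℝ) (x : Fin n → Fin n → ℝ)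
    (S : List (Fin n) → Fin n → ℝ) : Prop :=
  (∀ i j, 0 ≤ x i j) ∧ (∀ L j, 0 ≤ S L j ∧ S L j ≤ 1) ∧ (∀ j, S [] j = 1) ∧
  (∀ (L : List (Fin n)) (i j : Fin n), j ∉ L → j ≠ i → S L j ≤ S (i :: L) j + x i j) ∧
  (∀ (L : List (Fin n)) (j : Fin n), j ∉ L →
    S L j * (wd' (v j) P : ℝ) ≤ B * wd' (v j) (PL G v L))

end CP
end Pool.Agent.MP_44c6d5_nt
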