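import Mathlib
import Pool.Agent.MP_44c6d5_nt.CP.DefU

/-!
The width of a polynomial in a real direction.
-/

namespace Pool.Agent.MP_44c6d5_nt
namespace CP

variable {k : ℕ}

/-- the width of `P` in the direction of the real vector `u` -/
noncomputable def width (u : Fin k → ℝ) (P : Pol k) : ℝ := -(ord (-u) P) - ord u P

end CP
end Pool.Agent.MP_44c6d5_nt
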