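import Mathlib
import Pool.Agent.MP_44c6d5_nt.CP.DefW

/-!
Independence of functionals on a polynomial.
-/

namespace Pool.Agent.MP_44c6d5_nt
namespace CP

open Real Module MvPolynomial

variable {k : ℕ} {n : ℕ}

/-- the functionals `v j`, `j ∈ J`, are linearly independent modulo the functionals which are
constant on the exponents of `F`. -/
def IndM (F : Pol k) (v : Fin n → Fin k → ℤ) (J : Finset (Fin n)) : Prop :=
  ∀ c : Fin n → ℝ, (∀ j, j ∉ J → c j = 0) → (∑ j, c j • rl (v j)) ∈ Lam F → ∀ j, c j = 0

end CP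
end Pool.Agent.MP_44c6d5_nt
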