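import Mathlib
import Pool.Agent.MP_44c6d5_nt.CP.Def2

/-!
Definitions for the theorem on sums of directions (T2).
-/

namespace Pool.Agent.MP_44c6d5_nt
namespace CP

open MeasureTheory Real

variable {k : ℕ}

/-- the truncated zero density as a function on the torus. -/
noncomputable def PJ (v : Fin k → ℤ) (G : Pol k) (N : ℕ) (r : ℝ) (x : Tor k) : ℝ :=
  min (NU v G N (1 - r) x) (1 / r)

/-- the test form of two functions on the torus, on the line through `x` in direction `v`. -/
noncomputable def TV (ρ b : ℝ) (v : Fin k → ℤ) (f p : Tor k → ℝ) (x : Tor k) : ℝ :=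
  Tq ρ b (fun t => f (line v x t)) (fun t => p (line v x t))

/-- the local energy on the line through `x` in direction `v`. -/
noncomputable def EV (ρ b : ℝ) (v : Fin k → ℤ) (p : Tor k → ℝ) (x : Tor k) : ℝ :=
  Eq ρ b (fun t => p (line v x t))

/-- the scale. -/
noncomputable def tV (M β γ : ℝ) : ℝ := exp (-(512 * β * (γ + 1) * (10 * M + 1))) / 4

end CP
end Pool.Agent.MP_44c6d5_nt
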