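import Mathlib
import Pool.Agent.MP_44c6d5_nt.CP.B1

/-!
[E1] a face of a face is a face.
-/

namespace Pool.Agent.MP_44c6d5_nt
namespace CP

open Real Module MvPolynomial Filter Topology

variable {k : ℕ}

theorem e1_ini_smul {c : ℝ} (hc : 0 < c) (y : Fin k → ℝ) (P : Pol k) :
    ini (c • y) P = ini y P := by
  ext j
  rw [coeff_ini, coeff_ini, wt_smul, ord_smul hc]
  have : (c * wt y j = c * ord y P) ↔ wt y j = ord y P := by
    constructor
    · intro h; exact mul_left_cancel₀ hc.ne' h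
    · intro h; rw [h]
  simp only [this]

/-- a face of the face of `P` in the direction `l` is a face of `P` in a direction `l'` for which
`P` is not homogeneous either. -/
theorem exists_comb {P : Pol k} (hP : P ≠ 0) (l u : Fin k → ℤ) (hl : rl l ∉ Lam P) :
    ∃ l' : Fin k → ℤ, ini (rl l') P = ini (rl u) (ini (rl l) P) ∧ rl l' ∉ Lam P := by
  have h1 := perturb (rl l) hP
  have hcl : IsClosed ((Lam P : Submodule ℝ (Fin k → ℝ)) : Set (Fin k → ℝ)) :=
    Submodule.closed_of_finiteDimensional (Lam P)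
  have h2 : ∀ᶠ v in 𝓝 (0 : Fin k → ℝ), rl l + v ∉ Lam P := by
    have hc : Continuous fun v : Fin k → ℝ => rl l + v := by fun_prop
    have ho : IsOpen ((fun v : Fin k → ℝ => rl l + v) ⁻¹'
        ((Lam P : Submodule ℝ (Fin k → ℝ)) : Set (Fin k → ℝ))ᶜ) := hcl.isOpen_compl.preimage hc
    have hm : (0 : Fin k → ℝ) ∈ ((fun v : Fin k → ℝ => rl l + v) ⁻¹'
        ((Lam P : Submodule ℝ (Fin k → ℝ)) : Set (Fin k → ℝ))ᶜ) := by
      simp only [Set.mem_preimage, add_zero, Set.mem_compl_iff, SetLike.mem_coe]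
      exact hl
    exact ho.mem_nhds hm
  have ht : Tendsto (fun N : ℕ => (1 / ((N : ℝ) + 1)) • rl u) atTop (𝓝 (0 : Fin k → ℝ)) := by
    have := (tendsto_one_div_add_atTop_nhds_zero_nat (𝕜 := ℝ)).smul_const (rl u)
    simpa using this
  obtain ⟨N, hN1, hN2⟩ := (ht.eventually (h1.and h2)).exists
  have hpos : (0 : ℝ) < (N : ℝ) + 1 := by positivity
  have hrl : rl (((N : ℤ) + 1) • l + u) = ((N : ℝ) + 1) • (rl l + (1 / ((N : ℝ) + 1)) • rl u) := by
    funext i
    simp only [rl, Pi.add_apply, Pi.smul_apply, smul_eq_mul]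
    push_cast
    field_simp
  refine ⟨((N : ℤ) + 1) • l + u, ?_, ?_⟩
  · rw [hrl, e1_ini_smul hpos, hN1.1, e1_ini_smul (by positivity)]
  · rw [hrl]
    intro h
    apply hN2
    have := (Lam P).smul_mem (((N : ℝ) + 1)⁻¹) h
    rwa [smul_smul, inv_mul_cancel₀ hpos.ne', one_smul] at this

end CP
end Pool.Agent.MP_44c6d5_nt
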