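import Mathlib
import Pool.Agent.MP_44c6d5_nt.CP.DefF
import Pool.Agent.MP_44c6d5_nt.CP.B1

/-!
[F1] iterated faces.
-/

namespace Pool.Agent.MP_44c6d5_nt
namespace CP

open MeasureTheory Real Module MvPolynomial

variable {k : ℕ} {n : ℕ}

theorem PL_ne_zero {P : Pol k} (hP : P ≠ 0) (v : Fin n → Fin k → ℤ) (L : List (Fin n)) :
    PL P v L ≠ 0 := by
  induction L with
  | nil => exact hP
  | cons i L ih => exact ini_ne_zero _ ih

theorem PL_append (P : Pol k) (v : Fin n → Fin k → ℤ) (L L' : List (Fin n)) :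
    PL P v (L' ++ L) = PL (PL P v L) v L' := by
  induction L' with
  | nil => rfl
  | cons i L' ih =>
    show ini (rl (v i)) (PL P v (L' ++ L)) = ini (rl (v i)) (PL (PL P v L) v L')
    rw [ih]

theorem PL_mono {P : Pol k} (hP : P ≠ 0) (v : Fin n → Fin k → ℤ) (L L' : List (Fin n)) :
    mm (PL P v (L' ++ L)) ≤ mm (PL P v L) ∧
      ∀ u, wd' u (PL P v (L' ++ L)) ≤ wd' u (PL P v L) := by
  induction L' with
  | nil => exact ⟨le_rfl, fun _ => le_rfl⟩
  | cons i L' ih =>
    have h := PL_ne_zero hP v (L' ++ L)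
    exact ⟨(mm_ini_le (rl (v i)) h).trans ih.1,
      fun u => (wd'_ini_le u (rl (v i)) h).trans (ih.2 u)⟩

theorem wd'_PL_zero {P : Pol k} (hP : P ≠ 0) (v : Fin n → Fin k → ℤ) {L : List (Fin n)}
    {i : Fin n} (hi : i ∈ L) : wd' (v i) (PL P v L) = 0 := by
  induction L with
  | nil => exact absurd hi List.not_mem_nil
  | cons j L ih =>
    have h := PL_ne_zero hP v L
    rcases List.mem_cons.mp hi with h1 | h1
    · have h2 : ¬ 1 ≤ wd' (v i) (PL P v (j :: L)) := by
        rw [wd'_pos_iff (v i) (PL_ne_zero hP v (j :: L)), not_not, h1]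
        exact mem_Lam_ini _ _
      omega
    · have h2 := wd'_ini_le (v i) (rl (v j)) h
      have h3 := ih h1
      show wd' (v i) (ini (rl (v j)) (PL P v L)) = 0
      omega

end CP
end Pool.Agent.MP_44c6d5_nt
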