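import Mathlib
import Pool.Agent.MP_44c6d5_nt.CP.DefF

/-!
[F11] the exponent polytope as a Minkowski sum.
-/

namespace Pool.Agent.MP_44c6d5_nt
namespace CP

open MeasureTheory Real Module MvPolynomial
open scoped Pointwise

variable {k : ℕ}

theorem f11_dotR_add (y a b : Fin k → ℝ) : dotR y (a + b) = dotR y a + dotR y b := by
  simp [dotR, mul_add, Finset.sum_add_distrib]

theorem f11_dotR_smul (y a : Fin k → ℝ) (c : ℝ) : dotR y (c • a) = c * dotR y a := by
  simp only [dotR, Pi.smul_apply, smul_eq_mul, Finset.mul_sum]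
  exact Finset.sum_congr rfl fun i _ => by ring

theorem f11_dotR_sum {p : ℕ} (y : Fin k → ℝ) (g : Fin p → Fin k → ℝ) :
    dotR y (∑ a, g a) = ∑ a, dotR y (g a) := by
  simp only [dotR, Finset.sum_apply, Finset.mul_sum]
  exact Finset.sum_comm

/-- a lower bound for a linear functional on a set holds on the convex hull. -/
theorem f11_hull {S : Set (Fin k → ℝ)} {y : Fin k → ℝ} {c : ℝ} (h : ∀ x ∈ S, c ≤ dotR y x)
    {z : Fin k → ℝ} (hz : z ∈ convexHull ℝ S) : c ≤ dotR y z := by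
  have hconv : Convex ℝ {z : Fin k → ℝ | c ≤ dotR y z} := by
    intro a ha b hb s t hs ht hst
    have ha' : c ≤ dotR y a := ha
    have hb' : c ≤ dotR y b := hb
    change c ≤ dotR y (s • a + t • b)
    rw [f11_dotR_add, f11_dotR_smul, f11_dotR_smul]
    have h1 : c = s * c + t * c := by rw [← add_mul, hst, one_mul]
    rw [h1]
    exact add_le_add (mul_le_mul_of_nonneg_left ha' hs) (mul_le_mul_of_nonneg_left hb' ht)
  exact convexHull_min h hconv hz

theorem f11_suppF_le {T : Finset (Fin k → ℝ)} {y x : Fin k → ℝ} (hx : x ∈ T) :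
    suppF T y ≤ dotR y x := by
  unfold suppF
  rw [dif_pos ⟨x, hx⟩]
  exact Finset.inf'_le _ hx

theorem f11_exists {T : Finset (Fin k → ℝ)} (hT : T.Nonempty) (y : Fin k → ℝ) :
    ∃ x ∈ T, dotR y x = suppF T y := by
  unfold suppF
  rw [dif_pos hT]
  obtain ⟨x, hx, hx'⟩ := Finset.exists_mem_eq_inf' hT (dotR y)
  exact ⟨x, hx, hx'.symm⟩

theorem ord_of_newton {p : ℕ} {P : Pol k} (hP : P ≠ 0) (T : Fin p → Finset (Fin k → ℝ))
    (hT : ∀ a, (T a).Nonempty)
    (hN : newton P = ∑ a, convexHull ℝ (T a : Set (Fin k → ℝ))) :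
    ∀ y, ord y P = ∑ a, suppF (T a) y := by
  intro y
  apply le_antisymm
  · choose x hx hx' using fun a => f11_exists (hT a) y
    have h1 : (∑ a, x a) ∈ newton P := by
      rw [hN, Set.mem_finsetSum]
      exact ⟨x, fun {a} _ => subset_convexHull ℝ _ (hx a), rfl⟩
    have h2 : ord y P ≤ dotR y (∑ a, x a) := by
      refine f11_hull ?_ h1
      rintro _ ⟨j, hj, rfl⟩
      exact ord_le y hj
    rw [f11_dotR_sum] at h2
    simpa only [hx'] using h2
  · obtain ⟨j, hj, hj'⟩ := exists_ord y hP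
    have h1 : (fun i => (j i : ℝ)) ∈ newton P := subset_convexHull ℝ _ ⟨j, hj, rfl⟩
    rw [hN, Set.mem_finsetSum] at h1
    obtain ⟨g, hg, hgj⟩ := h1
    have h2 : ord y P = ∑ a, dotR y (g a) := by
      rw [← f11_dotR_sum, hgj, ← hj']
      rfl
    rw [h2]
    exact Finset.sum_le_sum fun a _ => f11_hull (fun x hx => f11_suppF_le hx)
      (hg (Finset.mem_univ a))

end CP
end Pool.Agent.MP_44c6d5_nt
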