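import Mathlib
import Pool.Agent.MP_44c6d5_nt.CP.DefF

namespace Pool.Agent.MP_44c6d5_nt
namespace CP

open MeasureTheory Real Module MvPolynomial Filter Topology

variable {k : ℕ} {n : ℕ}

theorem f2_ini_smul {c : ℝ} (hc : 0 < c) (u : Fin k → ℝ) (Q : Pol k) : ini (c • u) Q = ini u Q := by
  ext j
  rw [coeff_ini, coeff_ini, ord_smul hc, wt_smul]
  have h : c * wt u j = c * ord u Q ↔ wt u j = ord u Q := by
    constructor
    · intro h; exact mul_left_cancel₀ hc.ne' h
    · intro h; rw [h]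
  simp only [h]

theorem f2_exists_real {P : Pol k} (hP : P ≠ 0) (v : Fin n → Fin k → ℤ) (L : List (Fin n)) :
    ∃ y : Fin k → ℝ, ini y P = PL P v L := by
  induction L with
  | nil => exact ⟨0, (ini_eq_self_iff hP).mpr (Submodule.zero_mem _)⟩
  | cons i L ih =>
    obtain ⟨y, hy⟩ := ih
    have hc : Tendsto (fun s : ℝ => s • rl (v i)) (𝓝[>] 0) (𝓝 0) := by
      have : Tendsto (fun s : ℝ => s • rl (v i)) (𝓝 0) (𝓝 ((0 : ℝ) • rl (v i))) :=
        (continuous_id.smul continuous_const).tendsto 0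
      rw [zero_smul] at this
      exact this.mono_left nhdsWithin_le_nhds
    obtain ⟨s, hs1, hs0⟩ := ((hc.eventually (perturb y hP)).and self_mem_nhdsWithin).exists
    have hs0 : 0 < s := hs0
    refine ⟨y + s • rl (v i), ?_⟩
    rw [hs1.1, f2_ini_smul hs0, hy]
    rfl

theorem exists_PL_functional {P : Pol k} (hP : P ≠ 0) (v : Fin n → Fin k → ℤ)
    (hv : ∀ j, rl (v j) ∉ Lam P) {L : List (Fin n)} (hL : L ≠ []) :
    ∃ l : Fin k → ℤ, rl l ∉ Lam P ∧ ini (rl l) P = PL P v L := by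
  obtain ⟨y, hy⟩ := f2_exists_real hP v L
  obtain ⟨l, hl⟩ := exists_int_weight y P.support
  have h1 : ini (rl l) P = ini y P := ini_eq_of_weight hl hP (Finset.Subset.refl _)
  refine ⟨l, ?_, h1.trans hy⟩
  intro hmem
  have h2 : PL P v L = P := by
    rw [← hy, ← h1]; exact (ini_eq_self_iff hP).mpr hmem
  cases L with
  | nil => exact hL rfl
  | cons i L =>
    apply hv i
    have h3 : rl (v i) ∈ Lam (PL P v (i :: L)) := mem_Lam_ini _ _
    rwa [h2] at h3

end CP
end Pool.Agent.MP_44c6d5_nt
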