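import Mathlib
import Pool.Agent.MP_44c6d5_nt.CP.F2

namespace Pool.Agent.MP_44c6d5_nt
namespace CP

open MeasureTheory Real Module MvPolynomial Filter Topology

variable {k : ℕ} {n : ℕ}

theorem f2_exists_realG {P : Pol k} (hP : P ≠ 0) (y0 : Fin k → ℝ) (v : Fin n → Fin k → ℤ)
    (L : List (Fin n)) : ∃ y : Fin k → ℝ, ini y P = PL (ini y0 P) v L := by
  induction L with
  | nil => exact ⟨y0, rfl⟩
  | cons i L ih =>
    obtain ⟨y, hy⟩ := ih
    have hc : Tendsto (fun s : ℝ => s • rl (v i)) (𝓝[>] 0) (𝓝 0) := by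
      have : Tendsto (fun s : ℝ => s • rl (v i)) (𝓝 0) (𝓝 ((0 : ℝ) • rl (v i))) :=
        (continuous_id.smul continuous_const).tendsto 0
      rw [zero_smul] at this
      exact this.mono_left nhdsWithin_le_nhds
    obtain ⟨s, hs1, hs0⟩ := ((hc.eventually (perturb y hP)).and self_mem_nhdsWithin).exists
    have hs0 : 0 < s := hs0
    refine ⟨y + s • rl (v i), ?_⟩
    rw [hs1.1, f2_ini_smul hs0, hy]
    rfl

theorem exists_PL_functionalG {P : Pol k} (hP : P ≠ 0) {l0 : Fin k → ℤ} (v : Fin n → Fin k → ℤ)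
    (hv : ∀ j, rl (v j) ∉ Lam (ini (rl l0) P)) {L : List (Fin n)}
    (hL : rl l0 ∉ Lam P ∨ L ≠ []) :
    ∃ l : Fin k → ℤ, rl l ∉ Lam P ∧ ini (rl l) P = PL (ini (rl l0) P) v L := by
  obtain ⟨y, hy⟩ := f2_exists_realG hP (rl l0) v L
  obtain ⟨l, hl⟩ := exists_int_weight y P.support
  have h1 : ini (rl l) P = ini y P := ini_eq_of_weight hl hP (Finset.Subset.refl _)
  refine ⟨l, ?_, h1.trans hy⟩
  intro hmem
  have h2 : PL (ini (rl l0) P) v L = P := by
    rw [← hy, ← h1]; exact (ini_eq_self_iff hP).mpr hmem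
  cases L with
  | nil =>
    rcases hL with hL | hL
    · exact hL ((ini_eq_self_iff hP).mp h2)
    · exact hL rfl
  | cons i L =>
    apply hv i
    have h3 : rl (v i) ∈ Lam (PL (ini (rl l0) P) v (i :: L)) := mem_Lam_ini _ _
    rw [h2] at h3
    exact Lam_le_Lam_ini _ _ h3

end CP
end Pool.Agent.MP_44c6d5_nt
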