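import Mathlib
import Pool.Agent.MP_44c6d5_nt.CP.DefF
import Pool.Agent.MP_44c6d5_nt.CP.B1
import Pool.Agent.MP_44c6d5_nt.CP.B10
import Pool.Agent.MP_44c6d5_nt.CP.C4
import Pool.Agent.MP_44c6d5_nt.CP.C5

namespace Pool.Agent.MP_44c6d5_nt
namespace CP

open MeasureTheory Real Module MvPolynomial

variable {k : ℕ} {n : ℕ}

/-- the one-factor step of `decoupleF` -/
theorem f5_step {F : Pol k} (hF : F ≠ 0) (v : Fin n → Fin k → ℤ) {M : ℝ} (hM : mm F ≤ M)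
    {J : Finset (Fin n)} {i : Fin n}
    (hS : ∀ j ∈ J, j ≠ i →
      mm F - mm (ini (rl (v j)) (ini (rl (v i)) F)) ≤ t0 M 2 / 32)
    {g : Pol k} (hg : Irreducible g) (hgd : g ∣ F) (hgi : rl (v i) ∉ Lam g) :
    ∃ A' B' : Pol k, A' ≠ 0 ∧ B' ≠ 0 ∧ ini (rl (v i)) g = A' * B' ∧
      (∀ g, Irreducible g → g ∣ B' → ¬ (rev g = g ∨ rev g = -g) ∧ Lam g ≠ ⊤) ∧
      ∀ j ∈ J, j ≠ i → 2 * wd' (v j) A' ≤ wd' (v j) g := by
  have hg0 := hg.ne_zero
  obtain ⟨R, hR⟩ := hgd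
  have hR0 : R ≠ 0 := by
    rintro rfl
    rw [mul_zero] at hR
    exact hF hR
  have hc0 : ini (rl (v i)) g ≠ 0 := ini_ne_zero _ hg0
  have hR10 : ini (rl (v i)) R ≠ 0 := ini_ne_zero _ hR0
  have hFi0 : ini (rl (v i)) F ≠ 0 := ini_ne_zero _ hF
  have hFi : ini (rl (v i)) F = ini (rl (v i)) g * ini (rl (v i)) R := by
    rw [hR, ini_mul _ hg0 hR0]
  obtain ⟨A', B', hA'0, hB'0, hcAB, -, hB', hsym⟩ := split_recip hc0
  refine ⟨A', B', hA'0, hB'0, hcAB, hB', ?_⟩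
  intro j hj hji
  by_contra hlt
  rw [not_le] at hlt
  have hwle : wd' (v j) A' + wd' (v j) B' ≤ wd' (v j) g := by
    rw [← wd'_mul (v j) hA'0 hB'0, ← hcAB]
    exact wd'_ini_le _ _ hg0
  have hApos : 1 ≤ wd' (v j) A' := by omega
  have hgj : rl (v j) ∉ Lam g := (wd'_pos_iff (v j) hg0).mp (by omega)
  have hmg : mm g ≤ M := (mm_dvd_le hF ⟨R, hR⟩).trans hM
  have h3 : mm (ini (rl (v j)) (ini (rl (v i)) F)) ≤ mm (ini (rl (v i)) F) := mm_ini_le _ hFi0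
  have h4 : mm (ini (rl (v i)) F) ≤ mm F := mm_ini_le _ hF
  have h5 := hS j hj hji
  have hloss1 : mm g - mm (ini (rl (v i)) g) ≤ t0 M 2 / 32 := by
    have h1 := loss_le hg0 hR0 (rl (v i))
    rw [← hR] at h1
    linarith
  have hloss2 : mm A' - mm (ini (rl (v j)) A') ≤ t0 M 2 / 32 := by
    have hne : B' * ini (rl (v i)) R ≠ 0 := mul_ne_zero hB'0 hR10
    have h1 := loss_le hA'0 hne (rl (v j))
    have h2 : A' * (B' * ini (rl (v i)) R) = ini (rl (v i)) F := by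
      rw [hFi, hcAB]; ring
    rw [h2] at h1
    linarith
  have hw : (wd' (v j) g : ℝ) ≤ 2 * wd' (v j) A' := by exact_mod_cast hlt.le
  refine KL hg hgi hgj hA'0 hB'0 hcAB (M := M) (β := 2) (by norm_num) hApos hw hmg ?_ ?_
  · rw [show (16 : ℝ) * 2 = 32 by norm_num]; exact hloss1
  · rw [hsym, show (16 : ℝ) * 2 = 32 by norm_num]
    linarith

theorem decoupleF {F : Pol k} (hF : F ≠ 0) (v : Fin n → Fin k → ℤ) {M : ℝ} (hM : mm F ≤ M)
    {J : Finset (Fin n)} {i : Fin n}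
    (hS : ∀ j ∈ J, j ≠ i →
      mm F - mm (ini (rl (v j)) (ini (rl (v i)) F)) ≤ t0 M 2 / 32)
    (E : Pol k) (hE : E ∣ F) (hEi : ∀ g, Irreducible g → g ∣ E → rl (v i) ∉ Lam g) :
    ∃ A' B' : Pol k, A' ≠ 0 ∧ B' ≠ 0 ∧ ini (rl (v i)) E = A' * B' ∧
      (∀ g, Irreducible g → g ∣ B' → ¬ (rev g = g ∨ rev g = -g) ∧ Lam g ≠ ⊤) ∧
      ∀ j ∈ J, j ≠ i → 2 * wd' (v j) A' ≤ wd' (v j) E := by
  induction E using WfDvdMonoid.induction_on_irreducible with
  | zero => exact absurd (zero_dvd_iff.mp hE) hF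
  | unit u hu =>
    obtain ⟨u', hu'⟩ := hu.exists_right_inv
    have hu0 : u ≠ 0 := hu.ne_zero
    have hu0' : u' ≠ 0 := by
      rintro rfl
      rw [mul_zero] at hu'
      exact zero_ne_one hu'
    refine ⟨ini (rl (v i)) u, 1, ini_ne_zero _ hu0, one_ne_zero, (mul_one _).symm, ?_, ?_⟩
    · intro g hg hgd
      exact absurd (isUnit_of_dvd_one hgd) hg.not_isUnit
    · intro j _ _
      have h1 := wd'_ini_le (v j) (rl (v i)) hu0
      have h2 := wd'_mul (v j) hu0 hu0'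
      have h3 : wd' (v j) (1 : Pol k) = 0 := by
        have h := wd'_mul (v j) (one_ne_zero (α := Pol k)) (one_ne_zero (α := Pol k))
        rw [mul_one] at h
        omega
      rw [hu', h3] at h2
      omega
  | mul E1 g hE10 hg ih =>
    obtain ⟨A1, B1, hA1, hB1, hAB1, hr1, hw1⟩ := ih ((dvd_mul_left E1 g).trans hE)
      (fun g' hg' hd => hEi g' hg' (hd.mul_left g))
    obtain ⟨A2, B2, hA2, hB2, hAB2, hr2, hw2⟩ := f5_step hF v hM hS hg
      ((dvd_mul_right g E1).trans hE) (hEi g hg (dvd_mul_right g E1))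
    refine ⟨A2 * A1, B2 * B1, mul_ne_zero hA2 hA1, mul_ne_zero hB2 hB1, ?_, ?_, ?_⟩
    · rw [ini_mul _ hg.ne_zero hE10, hAB1, hAB2]; ring
    · intro g' hg' hd
      rcases hg'.prime.dvd_or_dvd hd with h | h
      · exact hr2 g' hg' h
      · exact hr1 g' hg' h
    · intro j hj hji
      have h1 := hw1 j hj hji
      have h2 := hw2 j hj hji
      rw [wd'_mul (v j) hA2 hA1, wd'_mul (v j) hg.ne_zero hE10]
      omega

end CP
end Pool.Agent.MP_44c6d5_nt
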