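import Mathlib
import Pool.Agent.MP_44c6d5_nt.CP.DefF

/-!
[F8] support functions of finite sets.
-/

namespace Pool.Agent.MP_44c6d5_nt
namespace CP

open MeasureTheory Real Module MvPolynomial

variable {k : ℕ} {n : ℕ}

theorem f8_empty (y : Fin k → ℝ) : suppF (∅ : Finset (Fin k → ℝ)) y = 0 := by
  unfold suppF
  rw [dif_neg (by simp)]

theorem f8_le {T : Finset (Fin k → ℝ)} {y x : Fin k → ℝ} (hx : x ∈ T) : suppF T y ≤ dotR y x := by
  unfold suppF
  rw [dif_pos ⟨x, hx⟩]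
  exact Finset.inf'_le _ hx

theorem f8_att {T : Finset (Fin k → ℝ)} (hT : T.Nonempty) (y : Fin k → ℝ) :
    ∃ x ∈ T, dotR y x = suppF T y := by
  unfold suppF
  rw [dif_pos hT]
  obtain ⟨x, hx, h⟩ := Finset.exists_mem_eq_inf' hT (dotR y)
  exact ⟨x, hx, h.symm⟩

theorem f8_dot (y u x : Fin k → ℝ) (ε : ℝ) : dotR (y + ε • u) x = dotR y x + ε * dotR u x := by
  unfold dotR
  rw [Finset.mul_sum, ← Finset.sum_add_distrib]
  exact Finset.sum_congr rfl fun i _ => by
    rw [Pi.add_apply, Pi.smul_apply, smul_eq_mul]; ring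

theorem f8_neg (y x : Fin k → ℝ) : dotR (-y) x = - dotR y x := by
  unfold dotR
  rw [← Finset.sum_neg_distrib]
  exact Finset.sum_congr rfl fun i _ => by rw [Pi.neg_apply]; ring

theorem f8_mem {T : Finset (Fin k → ℝ)} {y x : Fin k → ℝ} :
    x ∈ faceF T y ↔ x ∈ T ∧ dotR y x = suppF T y := by
  classical
  unfold faceF
  rw [Finset.mem_filter]

theorem f8_eps {ι : Type*} (S : Finset ι) (g : ι → ℝ) (hg : ∀ x ∈ S, 0 < g x) :
    ∃ ε0 > 0, ∀ x ∈ S, ε0 ≤ g x := by
  rcases S.eq_empty_or_nonempty with h | h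
  · exact ⟨1, one_pos, fun x hx => by simp [h] at hx⟩
  · obtain ⟨x, hx, hmin⟩ := Finset.exists_min_image S g h
    exact ⟨g x, hg x hx, hmin⟩

theorem faceF_nonempty {T : Finset (Fin k → ℝ)} (hT : T.Nonempty) (y : Fin k → ℝ) :
    (faceF T y).Nonempty := by
  obtain ⟨x, hx, h⟩ := f8_att hT y
  exact ⟨x, f8_mem.mpr ⟨hx, h⟩⟩

theorem faceF_subset (T : Finset (Fin k → ℝ)) (y : Fin k → ℝ) : faceF T y ⊆ T :=
  fun _ hx => (f8_mem.mp hx).1

theorem suppF_perturb (T : Finset (Fin k → ℝ)) (y u : Fin k → ℝ) :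
    ∃ ε0 > 0, ∀ ε : ℝ, 0 < ε → ε ≤ ε0 →
      suppF T (y + ε • u) = suppF T y + ε * suppF (faceF T y) u := by
  classical
  rcases T.eq_empty_or_nonempty with h | hT
  · refine ⟨1, one_pos, fun ε _ _ => ?_⟩
    have h1 : faceF T y = ∅ := by
      rw [← Finset.subset_empty, ← h]
      exact faceF_subset T y
    rw [h1, h, f8_empty, f8_empty, f8_empty]
    ring
  · set m := suppF T y with hm
    set μ := suppF (faceF T y) u with hμ
    obtain ⟨ε0, h0, h1⟩ := f8_eps (T \ faceF T y)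
      (fun x => (dotR y x - m) / (|μ - dotR u x| + 1)) fun x hx => by
        rw [Finset.mem_sdiff, f8_mem, not_and] at hx
        have h1 : m ≤ dotR y x := f8_le hx.1
        have h2 : dotR y x ≠ m := hx.2 hx.1
        have h3 : 0 < dotR y x - m := by
          rcases h1.lt_or_eq with h4 | h4
          · linarith
          · exact absurd h4.symm h2
        positivity
    refine ⟨ε0, h0, fun ε hε hε0 => le_antisymm ?_ ?_⟩
    · obtain ⟨x, hx, h⟩ := f8_att (faceF_nonempty hT y) u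
      have h2 := f8_mem.mp hx
      have h3 := f8_le (y := y + ε • u) h2.1
      rw [f8_dot, h2.2, h] at h3
      exact h3
    · obtain ⟨x, hx, h⟩ := f8_att hT (y + ε • u)
      rw [← h, f8_dot]
      by_cases hxG : x ∈ faceF T y
      · have h2 := f8_mem.mp hxG
        have h3 : μ ≤ dotR u x := f8_le hxG
        rw [h2.2]
        have := mul_le_mul_of_nonneg_left h3 hε.le
        linarith
      · have h2 := h1 x (Finset.mem_sdiff.mpr ⟨hx, hxG⟩)
        have h3 := hε0.trans h2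
        rw [le_div_iff₀ (by positivity)] at h3
        have h4 := le_abs_self (μ - dotR u x)
        nlinarith

theorem faceF_eq_self {T : Finset (Fin k → ℝ)} {y : Fin k → ℝ}
    (h : ∀ a ∈ T, ∀ b ∈ T, dotR y a = dotR y b) : faceF T y = T := by
  refine Finset.Subset.antisymm (faceF_subset T y) fun x hx => ?_
  obtain ⟨a, ha, h1⟩ := f8_att ⟨x, hx⟩ y
  exact f8_mem.mpr ⟨hx, (h x hx a ha).trans h1⟩

theorem wdF_mono {T T' : Finset (Fin k → ℝ)} (h : T ⊆ T') (hT : T.Nonempty) (y : Fin k → ℝ) :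
    0 ≤ wdF T y ∧ wdF T y ≤ wdF T' y := by
  have h1 : ∀ y, suppF T' y ≤ suppF T y := by
    intro y
    obtain ⟨x, hx, h2⟩ := f8_att hT y
    rw [← h2]
    exact f8_le (h hx)
  obtain ⟨x, hx⟩ := hT
  have h2 := f8_le (y := y) hx
  have h3 := f8_le (y := -y) hx
  have h4 := h1 y
  have h5 := h1 (-y)
  rw [f8_neg] at h3
  unfold wdF
  constructor <;> linarith

theorem wdF_eq_zero {T : Finset (Fin k → ℝ)} {y : Fin k → ℝ}
    (h : ∀ a ∈ T, ∀ b ∈ T, dotR y a = dotR y b) : wdF T y = 0 := by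
  unfold wdF
  rcases T.eq_empty_or_nonempty with h0 | hT
  · rw [h0, f8_empty, f8_empty]; ring
  · obtain ⟨a, ha, h1⟩ := f8_att hT y
    obtain ⟨b, hb, h2⟩ := f8_att hT (-y)
    rw [← h1, ← h2, f8_neg, h a ha b hb]
    ring

end CP
end Pool.Agent.MP_44c6d5_nt
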