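import Mathlib
import Pool.Agent.MP_44c6d5_nt.CP.DefF
import Pool.Agent.MP_44c6d5_nt.CP.F8

/-!
[F9] faces of sums.
-/

namespace Pool.Agent.MP_44c6d5_nt
namespace CP

open MeasureTheory Real Module MvPolynomial Filter Topology
open scoped Pointwise

variable {k : ℕ} {n : ℕ}

theorem ord_ini_sum {p : ℕ} {P : Pol k} (hP : P ≠ 0) (T : Fin p → Finset (Fin k → ℝ))
    (hT : ∀ a, (T a).Nonempty) (h : ∀ y, ord y P = ∑ a, suppF (T a) y) (y0 : Fin k → ℝ) :
    ∀ y, ord y (ini y0 P) = ∑ a, suppF (faceF (T a) y0) y := by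
  intro y
  -- a common small `ε`
  have h1 := perturb y0 hP
  have ht : Tendsto (fun N : ℕ => (1 / ((N : ℝ) + 1)) • y) atTop (𝓝 (0 : Fin k → ℝ)) := by
    have := (tendsto_one_div_add_atTop_nhds_zero_nat (𝕜 := ℝ)).smul_const y
    simpa using this
  have h2 : ∀ᶠ N : ℕ in atTop, ∀ a : Fin p,
      suppF (T a) (y0 + (1 / ((N : ℝ) + 1)) • y) =
        suppF (T a) y0 + (1 / ((N : ℝ) + 1)) * suppF (faceF (T a) y0) y := by
    rw [Filter.eventually_all]
    intro a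
    obtain ⟨ε0, hε0, hε⟩ := suppF_perturb (T a) y0 y
    have h3 : ∀ᶠ N : ℕ in atTop, (1 / ((N : ℝ) + 1)) < ε0 :=
      (tendsto_one_div_add_atTop_nhds_zero_nat (𝕜 := ℝ)).eventually_lt_const hε0
    filter_upwards [h3] with N hN
    exact hε _ (by positivity) hN.le
  obtain ⟨N, hN1, hN2⟩ := ((ht.eventually h1).and h2).exists
  have hpos : (0 : ℝ) < 1 / ((N : ℝ) + 1) := by positivity
  have e1 := hN1.2
  rw [ord_smul hpos, h (y0 + (1 / ((N : ℝ) + 1)) • y), h y0] at e1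
  have e2 : ∑ a, suppF (T a) (y0 + (1 / ((N : ℝ) + 1)) • y) =
      ∑ a, suppF (T a) y0 + (1 / ((N : ℝ) + 1)) * ∑ a, suppF (faceF (T a) y0) y := by
    rw [Finset.mul_sum, ← Finset.sum_add_distrib]
    exact Finset.sum_congr rfl fun a _ => hN2 a
  rw [e2] at e1
  have e3 : (1 / ((N : ℝ) + 1)) * ord y (ini y0 P) =
      (1 / ((N : ℝ) + 1)) * ∑ a, suppF (faceF (T a) y0) y := by linarith
  exact mul_left_cancel₀ hpos.ne' e3

end CP
end Pool.Agent.MP_44c6d5_nt
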