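import Mathlib
import Pool.Agent.MP_44c6d5_nt.CP.C8

/-!
The corner bound for real functionals.
-/

namespace Pool.Agent.MP_44c6d5_nt
namespace CP

open Real MvPolynomial

variable {k κ : ℕ}

/-- real functionals can be replaced by integral ones. -/
theorem fin_corner {P : Pol k} {w : Fin κ → Fin k → ℝ} {a : Fin k →₀ ℕ}
    {b : Fin κ → (Fin k →₀ ℕ)} (ha : a ∈ P.support) (hb : ∀ j, b j ∈ P.support)
    (h1 : ∀ i, ∀ c ∈ P.support, wt (w i) a ≤ wt (w i) c)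
    (h2 : ∀ i j, i ≠ j → wt (w i) (b j) = wt (w i) a)
    (h3 : ∀ j, ∀ c ∈ P.support, wt (w j) c ≤ wt (w j) (b j))
    (h4 : ∀ j, wt (w j) a < wt (w j) (b j)) : ∃ u : Fin κ → Fin k → ℤ, Corner P u := by
  choose u hu using fun i => exists_int_weight (w i) P.support
  have hle : ∀ i, ∀ c ∈ P.support, ∀ c' ∈ P.support, wt (w i) c ≤ wt (w i) c' →
      wtZ (u i) c ≤ wtZ (u i) c' := by
    intro i c hc c' hc' h
    rcases lt_or_eq_of_le h with h5 | h5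
    · exact ((hu i c hc c' hc').1 h5).le
    · exact ((hu i c hc c' hc').2 h5).le
  exact ⟨u, a, ha, b, hb, fun i c hc => hle i a ha c hc (h1 i c hc),
    fun i j hij => (hu i (b j) (hb j) a ha).2 (h2 i j hij),
    fun j c hc => hle j c hc (b j) (hb j) (h3 j c hc),
    fun j => (hu j a ha (b j) (hb j)).1 (h4 j)⟩

theorem corner_real {P : Pol k} (hP : Irreducible P) {w : Fin κ → Fin k → ℝ} {a : Fin k →₀ ℕ}
    {b : Fin κ → (Fin k →₀ ℕ)} (ha : a ∈ P.support) (hb : ∀ j, b j ∈ P.support)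
    (h1 : ∀ i, ∀ c ∈ P.support, wt (w i) a ≤ wt (w i) c)
    (h2 : ∀ i j, i ≠ j → wt (w i) (b j) = wt (w i) a)
    (h3 : ∀ j, ∀ c ∈ P.support, wt (w j) c ≤ wt (w j) (b j))
    (h4 : ∀ j, wt (w j) a < wt (w j) (b j)) {M : ℝ} (hM : mm P ≤ M) :
    (κ : ℝ) ≤ exp (4000 * (M + 1)) := by
  obtain ⟨u, hc⟩ := fin_corner ha hb h1 h2 h3 h4
  have hM0 : 0 ≤ M := (mm_nonneg hP.ne_zero).trans hM
  exact (corner_bound hP hc hM).trans (numeric hM0)

end CP
end Pool.Agent.MP_44c6d5_nt
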