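import Mathlib
import Pool.Agent.MP_44c6d5_nt.CP.Def2
import Pool.Agent.MP_44c6d5_nt.CP.C4

/-!
The numerical estimate of the wide corner theorem.
-/

namespace Pool.Agent.MP_44c6d5_nt
namespace CP

open MeasureTheory Real

theorem nB_two_pow (n : ℕ) : (2 : ℝ) ^ n ≤ exp n := by
  have h1 : (2 : ℝ) ≤ exp 1 := by have := Real.add_one_le_exp (1 : ℝ); linarith
  calc (2 : ℝ) ^ n ≤ (exp 1) ^ n := by gcongr
    _ = exp n := by rw [← Real.exp_nat_mul, mul_one]

theorem nB_CN_le {M : ℝ} (hM : 0 ≤ M) : CN M ≤ exp (19 * M + 16) := by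
  have hl0 : 0 ≤ log 2 := Real.log_nonneg (by norm_num)
  have hl2 : log 2 ≤ 1 := by
    have := Real.log_le_sub_one_of_pos (show (0 : ℝ) < 2 by norm_num); linarith
  have hl3 : log 3 ≤ 2 := by
    have := Real.log_le_sub_one_of_pos (show (0 : ℝ) < 3 by norm_num); linarith
  have hl3' : 0 ≤ log 3 := Real.log_nonneg (by norm_num)
  have hX := Real.add_one_le_exp M
  unfold CN Phi
  have e8 : (144 : ℝ) ≤ exp 8 := by
    have := nB_two_pow 8; norm_num at this ⊢; linarith
  calc (2 * exp (2 * (2 * M + log 2)) * (9 * (2 * M + log 2) * (2 * (2 * M + log 2) + log 3) *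
        exp (6 * (2 * M + log 2)))) * M
      ≤ (2 * exp (2 * (2 * M + 1)) * (9 * (2 * exp M) * (4 * exp M) *
        exp (6 * (2 * M + 1)))) * exp M := by
        gcongr
        · linarith
        · linarith
        · linarith
    _ = 144 * exp (19 * M + 8) := by
        rw [show 19 * M + 8 = 2 * (2 * M + 1) + M + M + 6 * (2 * M + 1) + M by ring,
          Real.exp_add, Real.exp_add, Real.exp_add, Real.exp_add]
        ring
    _ ≤ exp 8 * exp (19 * M + 8) := by gcongr
    _ = exp (19 * M + 16) := by rw [← Real.exp_add]; ring_nf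

theorem nB_CN_nonneg {M : ℝ} (hM : 0 ≤ M) : 0 ≤ CN M := by
  have hl0 : 0 ≤ log 2 := Real.log_nonneg (by norm_num)
  have hl3' : 0 ≤ log 3 := Real.log_nonneg (by norm_num)
  unfold CN Phi
  positivity

theorem numericB {B M : ℝ} (hB : 1 ≤ B) (hM : 0 ≤ M) :
    256 * (M + 1) / t0 M 2 + ((CN M + 1) * (8 * (log B + 1) + 1) + 1) +
      4 * (6 * ((CN M + 1) * (8 * (log B + 1) + 1)) + 1) * ((64 * B * M + 2) / t0 M (2 * B)) ≤
      exp (8000 * B * (M + 1)) := by
  have hC := nB_CN_le hM
  have hC0 := nB_CN_nonneg hM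
  have hX := Real.add_one_le_exp M
  have hXB := Real.add_one_le_exp B
  have hBM : M ≤ B * M := by nlinarith
  have hBM0 : 0 ≤ B * M := by positivity
  have hlog : log B + 1 ≤ B := by
    have := Real.log_le_sub_one_of_pos (show (0 : ℝ) < B by linarith); linarith
  have hlog0 : 0 ≤ log B := Real.log_nonneg hB
  have e1 : (2 : ℝ) ≤ exp 1 := by have := nB_two_pow 1; norm_num at this ⊢; linarith
  have e2 : (4 : ℝ) ≤ exp 2 := by have := nB_two_pow 2; norm_num at this ⊢; linarith
  have e4 : (9 : ℝ) ≤ exp 4 := by have := nB_two_pow 4; norm_num at this ⊢; linarith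
  have e5 : (28 : ℝ) ≤ exp 5 := by have := nB_two_pow 5; norm_num at this ⊢; linarith
  have e6 : (64 : ℝ) ≤ exp 6 := by have := nB_two_pow 6; norm_num at this ⊢; linarith
  have e10 : (1024 : ℝ) ≤ exp 10 := by have := nB_two_pow 10; norm_num at this ⊢; linarith
  set D : ℝ := (CN M + 1) * (8 * (log B + 1) + 1) with hD
  have hD1 : 1 ≤ D := by
    rw [hD]
    nlinarith [mul_nonneg hC0 hlog0]
  have hD2 : D ≤ exp (19 * M + 21 + B) := by
    have h1 : (1 : ℝ) ≤ exp (19 * M + 16) := Real.one_le_exp (by linarith)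
    have h2 : CN M + 1 ≤ exp (19 * M + 17) := by
      calc CN M + 1 ≤ 2 * exp (19 * M + 16) := by linarith
        _ ≤ exp 1 * exp (19 * M + 16) := by gcongr
        _ = exp (19 * M + 17) := by rw [← Real.exp_add]; ring_nf
    have h3 : 8 * (log B + 1) + 1 ≤ exp (4 + B) := by
      calc 8 * (log B + 1) + 1 ≤ 9 * B := by linarith
        _ ≤ exp 4 * exp B := by
          apply mul_le_mul e4 (by linarith) (by linarith) (by positivity)
        _ = exp (4 + B) := by rw [← Real.exp_add]
    calc D ≤ exp (19 * M + 17) * exp (4 + B) := by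
          rw [hD]
          apply mul_le_mul h2 h3 (by linarith) (by positivity)
      _ = exp (19 * M + 21 + B) := by rw [← Real.exp_add]; ring_nf
  have ht2 : ∀ x : ℝ, x / t0 M 2 = x * (4 * exp (6656 * M + 512)) := by
    intro x
    unfold t0
    rw [show -(64 * (2 * (52 * M + 3) + 2)) = -(6656 * M + 512) by ring, Real.exp_neg]
    field_simp
  have htB : ∀ x : ℝ, x / t0 M (2 * B) =
      x * (4 * exp (6656 * (B * M) + 384 * B + 128)) := by
    intro x
    unfold t0
    rw [show -(64 * (2 * B * (52 * M + 3) + 2)) = -(6656 * (B * M) + 384 * B + 128) by ring,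
      Real.exp_neg]
    field_simp
  rw [ht2, htB]
  set T : ℝ := exp (7998 * (B * M) + 7998 * B) with hT
  have t1 : 256 * (M + 1) * (4 * exp (6656 * M + 512)) ≤ T := by
    calc 256 * (M + 1) * (4 * exp (6656 * M + 512))
        = 1024 * (M + 1) * exp (6656 * M + 512) := by ring
      _ ≤ exp 10 * exp M * exp (6656 * M + 512) := by gcongr
      _ = exp (6657 * M + 522) := by rw [← Real.exp_add, ← Real.exp_add]; ring_nf
      _ ≤ T := by rw [hT, Real.exp_le_exp]; linarith
  have t2 : D + 1 ≤ T := by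
    calc D + 1 ≤ 2 * D := by linarith
      _ ≤ exp 1 * exp (19 * M + 21 + B) := by gcongr
      _ = exp (19 * M + 22 + B) := by rw [← Real.exp_add]; ring_nf
      _ ≤ T := by rw [hT, Real.exp_le_exp]; linarith
  have t3 : 4 * (6 * D + 1) * ((64 * B * M + 2) * (4 * exp (6656 * (B * M) + 384 * B + 128))) ≤
      T := by
    have h1 : 4 * (6 * D + 1) ≤ exp 5 * D := by nlinarith
    have h2 : 64 * B * M + 2 ≤ exp 6 * exp B * exp M := by
      have h3 : 64 * B * M + 2 ≤ 64 * B * (M + 1) := by nlinarith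
      refine h3.trans ?_
      apply mul_le_mul _ hX (by linarith) (by positivity)
      apply mul_le_mul e6 (by linarith) (by linarith) (by positivity)
    calc 4 * (6 * D + 1) * ((64 * B * M + 2) * (4 * exp (6656 * (B * M) + 384 * B + 128)))
        ≤ (exp 5 * exp (19 * M + 21 + B)) * ((exp 6 * exp B * exp M) *
          (exp 2 * exp (6656 * (B * M) + 384 * B + 128))) := by
          apply mul_le_mul
          · exact h1.trans (by gcongr)
          · apply mul_le_mul h2 (by gcongr) (by positivity) (by positivity)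
          · positivity
          · positivity
      _ = exp (6656 * (B * M) + 20 * M + 386 * B + 162) := by
          rw [← Real.exp_add, ← Real.exp_add, ← Real.exp_add, ← Real.exp_add, ← Real.exp_add,
            ← Real.exp_add]
          congr 1
          ring
      _ ≤ T := by rw [hT, Real.exp_le_exp]; linarith
  have hTpos : 0 < T := by rw [hT]; positivity
  calc 256 * (M + 1) * (4 * exp (6656 * M + 512)) + (D + 1) +
        4 * (6 * D + 1) * ((64 * B * M + 2) * (4 * exp (6656 * (B * M) + 384 * B + 128)))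
      ≤ 4 * T := by linarith
    _ ≤ exp 2 * T := by gcongr
    _ = exp (7998 * (B * M) + 7998 * B + 2) := by rw [hT, ← Real.exp_add]; ring_nf
    _ ≤ exp (8000 * B * (M + 1)) := by rw [Real.exp_le_exp]; nlinarith

end CP
end Pool.Agent.MP_44c6d5_nt
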