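import Mathlib
import Pool.Agent.MP_44c6d5_nt.CP.DefU
import Pool.Agent.MP_44c6d5_nt.CP.B1
import Pool.Agent.MP_44c6d5_nt.CP.F1

/-!
The minimal list: a minimiser of a weighted sum of the Mahler measure of the iterated face, the
number of functionals used, the total loss of the guaranteed widths and the total logarithmic
width.
-/

namespace Pool.Agent.MP_44c6d5_nt
namespace CP

open MeasureTheory Real Module MvPolynomial

variable {k : ℕ} {n : ℕ}

/-- the abstract form of the choice: `f` is the Mahler measure, `W L j` the width of the iterated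
face, `D j` the width of `P`. -/
theorem u1_aux {n : ℕ} (f : List (Fin n) → ℝ) (W S : List (Fin n) → Fin n → ℝ) (D : Fin n → ℝ)
    (x : Fin n → Fin n → ℝ) {r M B : ℝ} (hr : 1 ≤ r) (hB : 1 ≤ B) (hf0 : ∀ L, 0 ≤ f L)
    (hfM : f [] ≤ M) (hfm : ∀ L R, f (R ++ L) ≤ f L)
    (hD : ∀ j, 1 ≤ D j) (hW0 : ∀ L j, 0 ≤ W L j) (hWD : ∀ L j, W L j ≤ D j)
    (hWm : ∀ L R j, W (R ++ L) j ≤ W L j) (hx0 : ∀ i j, 0 ≤ x i j)
    (hS : ∀ L j, 0 ≤ S L j ∧ S L j ≤ 1) (hS0 : ∀ j, S [] j = 1)
    (hSx : ∀ (L : List (Fin n)) (i j : Fin n), j ∉ L → j ≠ i → S L j ≤ S (i :: L) j + x i j)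
    (hSW : ∀ (L : List (Fin n)) (j : Fin n), j ∉ L → S L j * D j ≤ B * W L j)
    (hx : ∑ i, ∑ j ∈ Finset.univ.erase i, x i j ≤ r * n) :
    ∃ (L : List (Fin n)) (J : Finset (Fin n)), (n : ℝ) ≤ 4 * J.card ∧
      (∀ j ∈ J, j ∉ L ∧ 3 / 4 ≤ S L j) ∧ (∀ i ∈ J, ∑ j ∈ J.erase i, x i j ≤ 8 * r) ∧
      ∀ R : List (Fin n), R.Nodup → (∀ i ∈ R, i ∈ J) →
        (f L - f (R ++ L)) * n ≤ 144 * r * R.length * (M + 1) ∧
        ∑ j ∈ J.filter (fun j => j ∉ R ∧ 1 / 2 ≤ S (R ++ L) j),
          log (W L j / W (R ++ L) j) ≤ 144 * r * R.length * log (2 * B) := by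
  classical
  have hM0 : 0 ≤ M := (hf0 []).trans hfM
  have hM1 : 0 < M + 1 := by linarith
  have hn0 : (0 : ℝ) ≤ n := Nat.cast_nonneg n
  have hB0 : 0 < 2 * B := by linarith
  obtain ⟨Λ, hΛd⟩ : ∃ Λ : ℝ, Λ = log (2 * B) := ⟨_, rfl⟩
  have hΛ : 0 < Λ := by rw [hΛd]; exact log_pos (by linarith)
  obtain ⟨c, hcd⟩ : ∃ c : ℝ, c = n / (M + 1) := ⟨_, rfl⟩
  have hc0 : 0 ≤ c := by rw [hcd]; positivity
  have hcM : c * (M + 1) = n := by rw [hcd, div_mul_cancel₀ _ hM1.ne']
  have hD0 : ∀ j, 0 < D j := fun j => lt_of_lt_of_le one_pos (hD j)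
  -- first potential
  obtain ⟨Ψ, hΨ⟩ : ∃ Ψ : List (Fin n) → ℝ,
      Ψ = fun L => ∑ j ∈ Finset.univ.filter (fun j => j ∉ L), (1 - S L j) := ⟨_, rfl⟩
  have hψ0 : ∀ L j, 0 ≤ 1 - S L j := fun L j => by linarith [(hS L j).2]
  have hΨ0 : ∀ L, 0 ≤ Ψ L := by
    intro L
    rw [hΨ]
    exact Finset.sum_nonneg fun j _ => hψ0 L j
  obtain ⟨H, hH⟩ : ∃ H : Fin n → ℝ, H = fun i => ∑ j ∈ Finset.univ.erase i, x i j := ⟨_, rfl⟩
  have hH0 : ∀ i, 0 ≤ H i := by
    intro i
    rw [hH]
    exact Finset.sum_nonneg fun j _ => hx0 i j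
  have hstep : ∀ L i, Ψ (i :: L) ≤ Ψ L + H i := by
    intro L i
    have hsub : Finset.univ.filter (fun j => j ∉ i :: L) ⊆
        Finset.univ.filter (fun j => j ∉ L) := by
      intro j hj
      simp only [Finset.mem_filter, Finset.mem_univ, true_and, List.mem_cons, not_or] at hj ⊢
      exact hj.2
    have hsub2 : Finset.univ.filter (fun j => j ∉ i :: L) ⊆ Finset.univ.erase i := by
      intro j hj
      simp only [Finset.mem_filter, Finset.mem_univ, true_and, List.mem_cons, not_or] at hj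
      simp [hj.1]
    have h1 : Ψ (i :: L) ≤ ∑ j ∈ Finset.univ.filter (fun j => j ∉ i :: L),
        ((1 - S L j) + x i j) := by
      rw [hΨ]
      refine Finset.sum_le_sum fun j hj => ?_
      simp only [Finset.mem_filter, Finset.mem_univ, true_and, List.mem_cons, not_or] at hj
      have h2 := hSx L i j hj.2 hj.1
      linarith
    have h2 : ∑ j ∈ Finset.univ.filter (fun j => j ∉ i :: L), ((1 - S L j) + x i j) ≤
        Ψ L + H i := by
      rw [Finset.sum_add_distrib]
      refine add_le_add ?_ ?_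
      · rw [hΨ]
        exact Finset.sum_le_sum_of_subset_of_nonneg hsub fun j _ _ => hψ0 L j
      · rw [hH]
        exact Finset.sum_le_sum_of_subset_of_nonneg hsub2 fun j _ _ => hx0 i j
    exact h1.trans h2
  have hsteps : ∀ (L R : List (Fin n)), (∀ i ∈ R, H i ≤ 8 * r) →
      Ψ (R ++ L) ≤ Ψ L + 8 * r * R.length := by
    intro L R hR
    induction R with
    | nil => simp
    | cons i R ih =>
      have h1 := ih fun j hj => hR j (List.mem_cons_of_mem _ hj)
      have h2 := hstep (R ++ L) i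
      have h3 := hR i List.mem_cons_self
      rw [List.cons_append, List.length_cons]
      push_cast
      linarith
  -- second potential
  obtain ⟨θ, hθ⟩ : ∃ θ : List (Fin n) → Fin n → ℝ,
      θ = fun L j => max 0 (log (2 * B * W L j / D j)) := ⟨_, rfl⟩
  have hθ0 : ∀ L j, 0 ≤ θ L j := fun L j => by rw [hθ]; exact le_max_left _ _
  have hθ1 : ∀ L j, θ L j ≤ Λ := by
    intro L j
    rw [hθ]
    refine max_le hΛ.le ?_
    rcases (hW0 L j).eq_or_lt with h0 | h0
    · rw [← h0, mul_zero, zero_div, log_zero]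
      exact hΛ.le
    · rw [hΛd]
      refine log_le_log (div_pos (mul_pos hB0 h0) (hD0 j)) ?_
      rw [div_le_iff₀ (hD0 j)]
      exact mul_le_mul_of_nonneg_left (hWD L j) hB0.le
  have hθm : ∀ L R j, θ (R ++ L) j ≤ θ L j := by
    intro L R j
    rw [hθ]
    simp only
    rcases (hW0 (R ++ L) j).eq_or_lt with h0 | h0
    · rw [← h0, mul_zero, zero_div, log_zero, max_self]
      exact le_max_left _ _
    · refine max_le_max le_rfl ?_
      refine log_le_log (div_pos (mul_pos hB0 h0) (hD0 j)) ?_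
      exact div_le_div_of_nonneg_right (mul_le_mul_of_nonneg_left (hWm L R j) hB0.le) (hD0 j).le
  obtain ⟨Θ, hΘ⟩ : ∃ Θ : List (Fin n) → ℝ,
      Θ = fun L => ∑ j ∈ Finset.univ.filter (fun j => j ∉ L), θ L j := ⟨_, rfl⟩
  have hΘ0 : ∀ L, 0 ≤ Θ L := by
    intro L
    rw [hΘ]
    exact Finset.sum_nonneg fun j _ => hθ0 L j
  have hΘ1 : Θ [] ≤ n * Λ := by
    have h1 : Θ [] ≤ (Finset.univ.filter (fun j : Fin n => j ∉ ([] : List (Fin n)))).card • Λ := by
      rw [hΘ]
      exact Finset.sum_le_card_nsmul _ _ _ fun j _ => hθ1 [] j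
    have h2 : (Finset.univ.filter (fun j : Fin n => j ∉ ([] : List (Fin n)))).card ≤ n := by
      have := Finset.card_filter_le (Finset.univ : Finset (Fin n))
        (fun j : Fin n => j ∉ ([] : List (Fin n)))
      rwa [Finset.card_univ, Fintype.card_fin] at this
    rw [nsmul_eq_mul] at h1
    exact h1.trans (mul_le_mul_of_nonneg_right (by exact_mod_cast h2) hΛ.le)
  have hsubR : ∀ L R : List (Fin n), Finset.univ.filter (fun j : Fin n => j ∉ R ++ L) ⊆
      Finset.univ.filter (fun j : Fin n => j ∉ L) := by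
    intro L R j hj
    simp only [Finset.mem_filter, Finset.mem_univ, true_and, List.mem_append, not_or] at hj ⊢
    exact hj.2
  have hΘd : ∀ L R : List (Fin n),
      ∑ j ∈ Finset.univ.filter (fun j : Fin n => j ∉ R ++ L), (θ L j - θ (R ++ L) j) ≤
        Θ L - Θ (R ++ L) := by
    intro L R
    rw [Finset.sum_sub_distrib, hΘ]
    have := Finset.sum_le_sum_of_subset_of_nonneg (hsubR L R) (f := fun j => θ L j)
      fun j _ _ => hθ0 L j
    simp only
    linarith
  have hΘm : ∀ L R : List (Fin n), Θ (R ++ L) ≤ Θ L := by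
    intro L R
    have h1 := hΘd L R
    have h2 : 0 ≤ ∑ j ∈ Finset.univ.filter (fun j : Fin n => j ∉ R ++ L),
        (θ L j - θ (R ++ L) j) :=
      Finset.sum_nonneg fun j _ => by linarith [hθm L R j]
    linarith
  -- the minimiser
  obtain ⟨Φ, hΦ⟩ : ∃ Φ : List (Fin n) → ℝ,
      Φ = fun L => c * f L + 16 * (L.length : ℝ) + 16 * Ψ L + Θ L / Λ := ⟨_, rfl⟩
  have hcf : ∀ L, 0 ≤ c * f L := fun L => mul_nonneg hc0 (hf0 L)
  have hΘΛ : ∀ L, 0 ≤ Θ L / Λ := fun L => div_nonneg (hΘ0 L) hΛ.le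
  have hΦ0 : Φ [] ≤ 2 * n := by
    have h1 : Ψ [] = 0 := by
      rw [hΨ]
      refine Finset.sum_eq_zero fun j _ => ?_
      rw [hS0]
      ring
    have h2 : Θ [] / Λ ≤ n := by
      rw [div_le_iff₀ hΛ]
      exact hΘ1
    have h3 : c * f [] ≤ c * (M + 1) := mul_le_mul_of_nonneg_left (by linarith) hc0
    rw [hΦ]
    simp only [List.length_nil, Nat.cast_zero, mul_zero, add_zero]
    rw [h1]
    linarith
  have hfin : {L : List (Fin n) | L.length ≤ n}.Finite := List.finite_length_le (Fin n) n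
  obtain ⟨L, hLmem, hL⟩ := Finset.exists_min_image hfin.toFinset Φ
    ⟨[], by rw [Set.Finite.mem_toFinset]; simp⟩
  have hL0 : Φ L ≤ 2 * n := (hL [] (by rw [Set.Finite.mem_toFinset]; simp)).trans hΦ0
  have hmin : ∀ L' : List (Fin n), Φ L ≤ Φ L' := by
    intro L'
    by_cases h : L'.length ≤ n
    · exact hL L' (by rw [Set.Finite.mem_toFinset]; exact h)
    · refine hL0.trans ?_
      have h1 := hcf L'
      have h2 := hΨ0 L'
      have h3 := hΘΛ L'
      have h4 : (n : ℝ) ≤ L'.length := by exact_mod_cast (not_le.mp h).le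
      rw [hΦ]
      simp only
      linarith
  have hLlen : 8 * (L.length : ℝ) ≤ n := by
    have h1 := hcf L
    have h2 := hΨ0 L
    have h3 := hΘΛ L
    rw [hΦ] at hL0
    simp only at hL0
    linarith
  have hLΨ : 8 * Ψ L ≤ n := by
    have h1 := hcf L
    have h2 : (0 : ℝ) ≤ L.length := Nat.cast_nonneg _
    have h3 := hΘΛ L
    rw [hΦ] at hL0
    simp only at hL0
    linarith
  obtain ⟨J, hJ⟩ : ∃ J : Finset (Fin n),
      J = Finset.univ.filter (fun j => j ∉ L ∧ 3 / 4 ≤ S L j ∧ H j ≤ 8 * r) := ⟨_, rfl⟩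
  have hJm : ∀ j, j ∈ J ↔ (j ∉ L ∧ 3 / 4 ≤ S L j ∧ H j ≤ 8 * r) := by
    intro j
    rw [hJ]
    simp
  -- the three exceptional sets
  obtain ⟨E1, hE1⟩ : ∃ E1 : Finset (Fin n), E1 = L.toFinset := ⟨_, rfl⟩
  obtain ⟨E2, hE2⟩ : ∃ E2 : Finset (Fin n),
      E2 = (Finset.univ.filter (fun j => j ∉ L)).filter (fun j => S L j < 3 / 4) := ⟨_, rfl⟩
  obtain ⟨E3, hE3⟩ : ∃ E3 : Finset (Fin n),
      E3 = Finset.univ.filter (fun j => 8 * r < H j) := ⟨_, rfl⟩
  have hcover : (Finset.univ : Finset (Fin n)) ⊆ ((E1 ∪ E2) ∪ E3) ∪ J := by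
    intro j _
    rw [Finset.mem_union, Finset.mem_union, Finset.mem_union]
    by_cases h1 : j ∈ L
    · left; left; left
      rw [hE1]
      exact List.mem_toFinset.mpr h1
    · by_cases h2 : S L j < 3 / 4
      · left; left; right
        rw [hE2]
        simp [h1, h2]
      · by_cases h3 : 8 * r < H j
        · left; right
          rw [hE3]
          simp [h3]
        · right
          exact (hJm j).mpr ⟨h1, not_lt.mp h2, not_lt.mp h3⟩
  have hc1 : 8 * (E1.card : ℝ) ≤ n := by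
    have h1 : E1.card ≤ L.length := by
      rw [hE1]
      exact List.toFinset_card_le L
    have h2 : (E1.card : ℝ) ≤ L.length := by exact_mod_cast h1
    linarith
  have hc2 : 2 * (E2.card : ℝ) ≤ n := by
    have h1 : E2.card • (1 / 4 : ℝ) ≤ ∑ j ∈ E2, (1 - S L j) := by
      refine Finset.card_nsmul_le_sum _ _ _ fun j hj => ?_
      rw [hE2] at hj
      simp only [Finset.mem_filter, Finset.mem_univ, true_and] at hj
      linarith [hj.2]
    have h2 : ∑ j ∈ E2, (1 - S L j) ≤ Ψ L := by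
      rw [hΨ]
      refine Finset.sum_le_sum_of_subset_of_nonneg ?_ fun j _ _ => hψ0 L j
      rw [hE2]
      exact Finset.filter_subset _ _
    rw [nsmul_eq_mul] at h1
    linarith
  have hc3 : 8 * (E3.card : ℝ) ≤ n := by
    have h1 : E3.card • (8 * r) ≤ ∑ j ∈ E3, H j := by
      refine Finset.card_nsmul_le_sum _ _ _ fun j hj => ?_
      rw [hE3] at hj
      simp only [Finset.mem_filter, Finset.mem_univ, true_and] at hj
      exact hj.le
    have h2 : ∑ j ∈ E3, H j ≤ ∑ j, H j :=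
      Finset.sum_le_sum_of_subset_of_nonneg (Finset.subset_univ _) fun j _ _ => hH0 j
    have h3 : ∑ j, H j ≤ r * n := by rw [hH]; exact hx
    rw [nsmul_eq_mul] at h1
    have h4 : r * (8 * (E3.card : ℝ)) ≤ r * n := by nlinarith
    exact le_of_mul_le_mul_left h4 (by linarith)
  have hJc : (n : ℝ) ≤ 4 * J.card := by
    have h1 : n ≤ E1.card + E2.card + E3.card + J.card := by
      have h2 := Finset.card_le_card hcover
      rw [Finset.card_univ, Fintype.card_fin] at h2
      have h3 := Finset.card_union_le ((E1 ∪ E2) ∪ E3) J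
      have h4 := Finset.card_union_le (E1 ∪ E2) E3
      have h5 := Finset.card_union_le E1 E2
      omega
    have h2 : (n : ℝ) ≤ E1.card + E2.card + E3.card + J.card := by exact_mod_cast h1
    linarith
  refine ⟨L, J, hJc, fun j hj => ⟨((hJm j).mp hj).1, ((hJm j).mp hj).2.1⟩, ?_, ?_⟩
  · intro i hi
    refine le_trans ?_ ((hJm i).mp hi).2.2
    rw [hH]
    exact Finset.sum_le_sum_of_subset_of_nonneg
      (Finset.erase_subset_erase i (Finset.subset_univ J)) fun j _ _ => hx0 i j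
  · intro R _ hRJ
    have h1 := hmin (R ++ L)
    have h2 := hsteps L R fun i hi => ((hJm i).mp (hRJ i hi)).2.2
    rw [hΦ] at h1
    simp only [List.length_append, Nat.cast_add] at h1
    have hRl : (0 : ℝ) ≤ R.length := Nat.cast_nonneg _
    have h3 : c * (f L - f (R ++ L)) + (Θ L - Θ (R ++ L)) / Λ ≤ 144 * r * R.length := by
      have h4 : (Θ L - Θ (R ++ L)) / Λ = Θ L / Λ - Θ (R ++ L) / Λ := sub_div _ _ _
      rw [h4]
      have h5 : (R.length : ℝ) ≤ r * R.length := by nlinarith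
      nlinarith
    have h4 : 0 ≤ c * (f L - f (R ++ L)) := mul_nonneg hc0 (by linarith [hfm L R])
    have h5 : 0 ≤ (Θ L - Θ (R ++ L)) / Λ := div_nonneg (by linarith [hΘm L R]) hΛ.le
    constructor
    · have h6 : c * (f L - f (R ++ L)) ≤ 144 * r * R.length := by linarith
      calc (f L - f (R ++ L)) * n = (c * (f L - f (R ++ L))) * (M + 1) := by
            rw [← hcM]; ring
        _ ≤ 144 * r * R.length * (M + 1) := mul_le_mul_of_nonneg_right h6 hM1.le
    · have h6 : Θ L - Θ (R ++ L) ≤ 144 * r * R.length * Λ := by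
        rw [← div_le_iff₀ hΛ]
        linarith
      rw [← hΛd]
      refine le_trans ?_ (le_trans (hΘd L R) h6)
      have hsub : J.filter (fun j => j ∉ R ∧ 1 / 2 ≤ S (R ++ L) j) ⊆
          Finset.univ.filter (fun j : Fin n => j ∉ R ++ L) := by
        intro j hj
        rw [Finset.mem_filter] at hj
        simp only [Finset.mem_filter, Finset.mem_univ, true_and, List.mem_append, not_or]
        exact ⟨hj.2.1, ((hJm j).mp hj.1).1⟩
      refine le_trans (le_of_eq ?_)
        (Finset.sum_le_sum_of_subset_of_nonneg hsub fun j _ _ => by linarith [hθm L R j])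
      refine Finset.sum_congr rfl fun j hj => ?_
      rw [Finset.mem_filter] at hj
      have hjL : j ∉ L := ((hJm j).mp hj.1).1
      have hjRL : j ∉ R ++ L := by
        rw [List.mem_append, not_or]
        exact ⟨hj.2.1, hjL⟩
      have a1 := hSW (R ++ L) j hjRL
      have a2 := hj.2.2
      have a3 := hD0 j
      have a4 : D j ≤ 2 * B * W (R ++ L) j := by nlinarith
      have a5 : 0 < W (R ++ L) j := by
        by_contra hneg
        push Not at hneg
        nlinarith
      have a6 : 0 < W L j := lt_of_lt_of_le a5 (hWm L R j)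
      have b1 : 0 ≤ log (2 * B * W (R ++ L) j / D j) :=
        log_nonneg ((one_le_div a3).mpr a4)
      have b2 : 0 ≤ log (2 * B * W L j / D j) :=
        log_nonneg ((one_le_div a3).mpr (a4.trans
          (mul_le_mul_of_nonneg_left (hWm L R j) hB0.le)))
      rw [hθ]
      simp only
      rw [max_eq_right b1, max_eq_right b2, log_div a6.ne' a5.ne',
        log_div (mul_pos hB0 a6).ne' a3.ne', log_div (mul_pos hB0 a5).ne' a3.ne',
        log_mul hB0.ne' a6.ne', log_mul hB0.ne' a5.ne']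
      ring

theorem exists_LU {P G : Pol k} (hG : G ≠ 0) (v : Fin n → Fin k → ℤ)
    (hv : ∀ j, 1 ≤ wd' (v j) P) (hle : ∀ j, wd' (v j) G ≤ wd' (v j) P) {B : ℝ} (hB : 1 ≤ B)
    {x : Fin n → Fin n → ℝ} {S : List (Fin n) → Fin n → ℝ} (hU : UCond P G v B x S)
    {r : ℝ} (hr : 1 ≤ r) (hx : ∑ i, ∑ j ∈ Finset.univ.erase i, x i j ≤ r * n)
    {M : ℝ} (hM : mm G ≤ M) : ∃ (L : List (Fin n)) (J : Finset (Fin n)), (n : ℝ) ≤ 4 * J.card ∧
      (∀ j ∈ J, j ∉ L ∧ 3 / 4 ≤ S L j) ∧ (∀ i ∈ J, ∑ j ∈ J.erase i, x i j ≤ 8 * r) ∧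
      ∀ R : List (Fin n), R.Nodup → (∀ i ∈ R, i ∈ J) →
        (mm (PL G v L) - mm (PL G v (R ++ L))) * n ≤ 144 * r * R.length * (M + 1) ∧
        ∑ j ∈ J.filter (fun j => j ∉ R ∧ 1 / 2 ≤ S (R ++ L) j),
          log ((wd' (v j) (PL G v L) : ℝ) / wd' (v j) (PL G v (R ++ L))) ≤
          144 * r * R.length * log (2 * B) := by
  obtain ⟨h1, h2, h3, h4, h5⟩ := hU
  refine u1_aux (fun L => mm (PL G v L)) (fun L j => (wd' (v j) (PL G v L) : ℝ)) S
    (fun j => (wd' (v j) P : ℝ)) x hr hB (fun L => mm_nonneg (PL_ne_zero hG v L)) hM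
    (fun L R => (PL_mono hG v L R).1) (fun j => by exact_mod_cast hv j)
    (fun L j => Nat.cast_nonneg _) ?_ ?_ h1 h2 h3 h4 h5 hx
  · intro L j
    have h := (PL_mono hG v [] L).2 (v j)
    rw [List.append_nil] at h
    exact_mod_cast h.trans (hle j)
  · intro L R j
    exact_mod_cast (PL_mono hG v L R).2 (v j)

end CP
end Pool.Agent.MP_44c6d5_nt
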