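import Mathlib
import Pool.Agent.MP_44c6d5_nt.CP.DefF
import Pool.Agent.MP_44c6d5_nt.CP.B1
import Pool.Agent.MP_44c6d5_nt.CP.F1

/-!
[U2] killing the widths of a factor by few further faces, with distinct functionals.
-/

namespace Pool.Agent.MP_44c6d5_nt
namespace CP

open MeasureTheory Real Module MvPolynomial

variable {k : ℕ} {n : ℕ}

theorem u2_aux (v : Fin n → Fin k → ℤ) (m : ℕ) :
    ∀ (J : Finset (Fin n)) (F h : Pol k), F ≠ 0 → k - finrank ℝ (Lam h) ≤ m → h ∣ F →
    ∃ R : List (Fin n), R.Nodup ∧ (∀ i ∈ R, i ∈ J) ∧ R.length + finrank ℝ (Lam h) ≤ k ∧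
      ∀ j ∈ J, j ∉ R → wd' (v j) (PL F v R) + wd' (v j) h ≤ wd' (v j) F := by
  classical
  have hfk : ∀ h : Pol k, finrank ℝ (Lam h) ≤ k := by
    intro h
    have := Submodule.finrank_le (Lam h)
    rwa [Module.finrank_fin_fun] at this
  have hbase : ∀ (J : Finset (Fin n)) (F h : Pol k), F ≠ 0 → h ∣ F →
      (∀ j ∈ J, rl (v j) ∈ Lam h) →
      ∃ R : List (Fin n), R.Nodup ∧ (∀ i ∈ R, i ∈ J) ∧ R.length + finrank ℝ (Lam h) ≤ k ∧
      ∀ j ∈ J, j ∉ R → wd' (v j) (PL F v R) + wd' (v j) h ≤ wd' (v j) F := by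
    intro J F h hF hd hall
    have h0 : h ≠ 0 := by
      rintro rfl
      exact hF (zero_dvd_iff.mp hd)
    refine ⟨[], List.nodup_nil, by simp, by simpa using hfk h, ?_⟩
    intro j hj _
    have h1 : ¬ 1 ≤ wd' (v j) h := fun h2 => (wd'_pos_iff (v j) h0).mp h2 (hall j hj)
    change wd' (v j) F + wd' (v j) h ≤ wd' (v j) F
    omega
  induction m with
  | zero =>
    intro J F h hF hm hd
    apply hbase J F h hF hd
    intro j _
    have h1 : Lam h = ⊤ := by
      apply Submodule.eq_top_of_finrank_eq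
      rw [Module.finrank_fin_fun]
      have := hfk h
      omega
    rw [h1]
    trivial
  | succ m ih =>
    intro J F h hF hm hd
    have h0 : h ≠ 0 := by
      rintro rfl
      exact hF (zero_dvd_iff.mp hd)
    by_cases hall : ∀ j ∈ J, rl (v j) ∈ Lam h
    · exact hbase J F h hF hd hall
    · push Not at hall
      obtain ⟨i, hi, hih⟩ := hall
      obtain ⟨q, hq⟩ := hd
      have hq0 : q ≠ 0 := by
        rintro rfl
        exact hF (by rw [hq, mul_zero])
      have e1 : ini (rl (v i)) F = ini (rl (v i)) h * ini (rl (v i)) q := by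
        rw [hq, ini_mul _ h0 hq0]
      have hlt : Lam h < Lam (ini (rl (v i)) h) := by
        refine lt_of_le_of_ne (Lam_le_Lam_ini _ _) ?_
        intro h1
        exact hih (h1 ▸ mem_Lam_ini (rl (v i)) h)
      have hfr := Submodule.finrank_lt_finrank_of_lt hlt
      obtain ⟨R, hRn, hR, hR1, hR2⟩ := ih (J.erase i) (ini (rl (v i)) F) (ini (rl (v i)) h)
        (ini_ne_zero _ hF) (by omega) (by rw [e1]; exact Dvd.intro _ rfl)
      have hiR : i ∉ R := fun h1 => (Finset.mem_erase.mp (hR i h1)).1 rfl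
      refine ⟨R ++ [i], ?_, ?_, ?_, ?_⟩
      · refine List.nodup_append.mpr ⟨hRn, List.nodup_singleton i, ?_⟩
        intro a ha b hb hab
        rw [List.mem_singleton.mp hb] at hab
        exact hiR (hab ▸ ha)
      · intro j hj
        rcases List.mem_append.mp hj with hj | hj
        · exact Finset.mem_of_mem_erase (hR j hj)
        · rw [List.mem_singleton.mp hj]; exact hi
      · rw [List.length_append, List.length_singleton]
        omega
      · intro j hj hjR
        have hjR' : j ∉ R := fun h1 => hjR (List.mem_append.mpr (Or.inl h1))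
        have hji : j ≠ i := fun h1 =>
          hjR (List.mem_append.mpr (Or.inr (List.mem_singleton.mpr h1)))
        have h1 := hR2 j (Finset.mem_erase.mpr ⟨hji, hj⟩) hjR'
        rw [PL_append]
        change wd' (v j) (PL (ini (rl (v i)) F) v R) + wd' (v j) h ≤ wd' (v j) F
        have h3 : wd' (v j) (ini (rl (v i)) F) =
            wd' (v j) (ini (rl (v i)) h) + wd' (v j) (ini (rl (v i)) q) := by
          rw [e1, wd'_mul _ (ini_ne_zero _ h0) (ini_ne_zero _ hq0)]
        have h2 := wd'_ini_le (v j) (rl (v i)) hq0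
        have h4 : wd' (v j) F = wd' (v j) h + wd' (v j) q := by
          rw [hq, wd'_mul _ h0 hq0]
        omega

theorem killU {F : Pol k} (hF : F ≠ 0) (v : Fin n → Fin k → ℤ) (J : Finset (Fin n)) (h : Pol k)
    (hd : h ∣ F) : ∃ R : List (Fin n), R.Nodup ∧ (∀ i ∈ R, i ∈ J) ∧
      R.length + finrank ℝ (Lam h) ≤ k ∧
      ∀ j ∈ J, j ∉ R → wd' (v j) (PL F v R) + wd' (v j) h ≤ wd' (v j) F :=
  u2_aux v _ J F h hF le_rfl hd

end CP
end Pool.Agent.MP_44c6d5_nt
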