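import Mathlib
import Pool.Agent.MP_44c6d5_nt.CP.DefU
import Pool.Agent.MP_44c6d5_nt.CP.B1
import Pool.Agent.MP_44c6d5_nt.CP.C4
import Pool.Agent.MP_44c6d5_nt.CP.F1
import Pool.Agent.MP_44c6d5_nt.CP.F5
import Pool.Agent.MP_44c6d5_nt.CP.U2

/-!
Row U3: the degree bound for the general width condition.
-/

namespace Pool.Agent.MP_44c6d5_nt
namespace CP

open MeasureTheory Real Module MvPolynomial
open scoped Pointwise

variable {k : ℕ} {n : ℕ}

/-- the cost along a list. -/
theorem u3_chain {P G : Pol k} {v : Fin n → Fin k → ℤ} {B : ℝ} {x : Fin n → Fin n → ℝ}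
    {S : List (Fin n) → Fin n → ℝ} (hU : UCond P G v B x S) {L : List (Fin n)} {i j : Fin n}
    (hji : j ≠ i) (hjL : j ∉ L) (R : List (Fin n)) (hjR : j ∉ R) :
    S L j ≤ S (R ++ i :: L) j + ((R.map fun i' => x i' j).sum + x i j) := by
  induction R with
  | nil =>
    have := hU.2.2.2.1 L i j hjL hji
    simpa using this
  | cons i' R ih =>
    have h1 : j ≠ i' := fun h => hjR (by rw [h]; exact List.mem_cons_self)
    have h2 : j ∉ R := fun h => hjR (List.mem_cons_of_mem _ h)
    have h3 := ih h2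
    have h4 : j ∉ R ++ i :: L := by
      rw [List.mem_append, List.mem_cons]
      rintro (h | h | h)
      · exact h2 h
      · exact hji h
      · exact hjL h
    have h5 := hU.2.2.2.1 (R ++ i :: L) i' j h4 h1
    rw [List.map_cons, List.sum_cons, List.cons_append]
    linarith

theorem u3_sum (x : Fin n → Fin n → ℝ) (T : Finset (Fin n)) (c : ℝ) (R : List (Fin n))
    (h : ∀ i' ∈ R, ∑ j ∈ T, x i' j ≤ c) :
    ∑ j ∈ T, (R.map fun i' => x i' j).sum ≤ R.length * c := by
  induction R with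
  | nil => simp
  | cons i' R ih =>
    have h1 := ih fun i'' hi'' => h i'' (List.mem_cons_of_mem _ hi'')
    have h2 := h i' List.mem_cons_self
    simp only [List.map_cons, List.sum_cons, List.length_cons, Nat.cast_add, Nat.cast_one]
    rw [Finset.sum_add_distrib]
    have h3 : ((R.length : ℝ) + 1) * c = R.length * c + c := by ring
    rw [h3]
    linarith

theorem u3_list_nonneg (x : Fin n → Fin n → ℝ) (hx : ∀ i j, 0 ≤ x i j) (j : Fin n)
    (R : List (Fin n)) : 0 ≤ (R.map fun i' => x i' j).sum := by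
  induction R with
  | nil => simp
  | cons i' R ih =>
    rw [List.map_cons, List.sum_cons]
    have := hx i' j
    linarith

theorem degU {P G : Pol k} (hG : G ≠ 0) (v : Fin n → Fin k → ℤ) (hv : ∀ j, 1 ≤ wd' (v j) P)
    {B : ℝ} (hB : 1 ≤ B) {x : Fin n → Fin n → ℝ} {S : List (Fin n) → Fin n → ℝ}
    (hU : UCond P G v B x S) {r : ℝ} (hr : 1 ≤ r) {M : ℝ} (hM : mm G ≤ M) {L : List (Fin n)}
    {J : Finset (Fin n)} (hJ1 : ∀ j ∈ J, j ∉ L ∧ 3 / 4 ≤ S L j)
    (hJ2 : ∀ i ∈ J, ∑ j ∈ J.erase i, x i j ≤ 8 * r)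
    (hS : ∀ i ∈ J, ∀ j ∈ J, i ≠ j → mm (PL G v L) - mm (PL G v (j :: i :: L)) ≤ t0 M 2 / 32)
    (hlog : ∀ R : List (Fin n), R.Nodup → (∀ i ∈ R, i ∈ J) →
        ∑ j ∈ J.filter (fun j => j ∉ R ∧ 1 / 2 ≤ S (R ++ L) j),
          log ((wd' (v j) (PL G v L) : ℝ) / wd' (v j) (PL G v (R ++ L))) ≤
          144 * r * R.length * log (2 * B))
    {i : Fin n} (hi : i ∈ J) {E C : Pol k} (hEC : PL G v L = E * C) (hC : rl (v i) ∈ Lam C)
    (hEi : ∀ g, Irreducible g → g ∣ E → rl (v i) ∉ Lam g) :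
    ∑ j ∈ J.erase i, (wd' (v j) E : ℝ) / wd' (v j) (PL G v L) ≤
      (CN M + 1) * (r * (288 * log (2 * B) + 33)) := by
  classical
  have hF0 : PL G v L ≠ 0 := PL_ne_zero hG v L
  have hE0 : E ≠ 0 := by
    rintro rfl
    rw [zero_mul] at hEC
    exact hF0 hEC
  have hC0 : C ≠ 0 := by
    rintro rfl
    rw [mul_zero] at hEC
    exact hF0 hEC
  have hMF : mm (PL G v L) ≤ M := by
    have := (PL_mono hG v [] L).1
    rw [List.append_nil] at this
    exact this.trans hM
  obtain ⟨A', B', hA'0, hB'0, hAB, hBirr, hA'⟩ :=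
    decoupleF hF0 v hMF (J := J) (i := i) (fun j hj hji => hS i hi j hj (Ne.symm hji)) E
      ⟨C, hEC⟩ hEi
  have hF10 : PL G v (i :: L) ≠ 0 := PL_ne_zero hG v _
  have hF1 : PL G v (i :: L) = A' * B' * C := by
    change ini (rl (v i)) (PL G v L) = _
    rw [hEC, ini_mul _ hE0 hC0, hAB, (ini_eq_self_iff hC0).mpr hC]
  have hBd : B' ∣ PL G v (i :: L) := ⟨A' * C, by rw [hF1]; ring⟩
  have hmB : mm B' ≤ M := by
    have h1 := mm_dvd_le hF10 hBd
    have h2 := (PL_mono hG v L [i]).1
    have h3 : mm (PL G v (i :: L)) ≤ mm (PL G v L) := h2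
    exact h1.trans (h3.trans hMF)
  have hcod : (k : ℝ) - finrank ℝ (Lam B') ≤ CN M := codim_nonrecip hB'0 hBirr hmB
  obtain ⟨R', hRnd, hRJ, hRk, hRw⟩ := killU hF10 v (J.erase i) B' hBd
  have hRc : (R'.length : ℝ) ≤ CN M := by
    have : (R'.length : ℝ) + finrank ℝ (Lam B') ≤ k := by exact_mod_cast hRk
    linarith
  have hiR : i ∉ R' := fun h => absurd rfl (Finset.ne_of_mem_erase (hRJ i h))
  have hRL : (R' ++ [i]) ++ L = R' ++ i :: L := by simp
  have hlogR := hlog (R' ++ [i]) (by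
      rw [List.nodup_append]
      refine ⟨hRnd, List.nodup_singleton i, ?_⟩
      intro a ha b hb
      rw [List.mem_singleton] at hb
      rintro rfl
      rw [hb] at ha
      exact hiR ha) (by
      intro i' hi'
      rw [List.mem_append, List.mem_singleton] at hi'
      rcases hi' with h | h
      · exact Finset.mem_of_mem_erase (hRJ i' h)
      · rw [h]; exact hi)
  rw [hRL] at hlogR
  have hlen : ((R' ++ [i]).length : ℝ) = R'.length + 1 := by simp
  rw [hlen] at hlogR
  have hl2B : 0 ≤ log (2 * B) := log_nonneg (by linarith)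
  have hW0 : ∀ j, wd' (v j) (PL G v L) = wd' (v j) E + wd' (v j) C := by
    intro j
    rw [hEC, wd'_mul _ hE0 hC0]
  have hratio : ∀ j, (wd' (v j) E : ℝ) / wd' (v j) (PL G v L) ≤ 1 := by
    intro j
    have h3 := hW0 j
    apply div_le_one_of_le₀
    · exact_mod_cast (by omega)
    · positivity
  set T : Finset (Fin n) := (J.erase i).filter fun j => j ∉ R' with hT
  set T3 : Finset (Fin n) := (J.erase i).filter fun j => ¬ j ∉ R' with hT3
  set T1 : Finset (Fin n) := T.filter fun j => 1 / 2 ≤ S (R' ++ i :: L) j with hT1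
  set T2 : Finset (Fin n) := T.filter fun j => ¬ 1 / 2 ≤ S (R' ++ i :: L) j with hT2
  have hnot : ∀ j ∈ T, j ≠ i ∧ j ∈ J ∧ j ∉ R' ∧ j ∉ L ∧ j ∉ R' ++ i :: L := by
    intro j hj
    obtain ⟨hjE, hjR⟩ := Finset.mem_filter.mp hj
    have hji : j ≠ i := Finset.ne_of_mem_erase hjE
    have hjJ : j ∈ J := Finset.mem_of_mem_erase hjE
    have hjL := (hJ1 j hjJ).1
    refine ⟨hji, hjJ, hjR, hjL, ?_⟩
    rw [List.mem_append, List.mem_cons]
    rintro (h | h | h)
    · exact hjR h
    · exact hji h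
    · exact hjL h
  have hwd2 : ∀ j ∈ T, 2 * (wd' (v j) (PL G v (R' ++ i :: L)) : ℝ) + wd' (v j) E ≤
      2 * wd' (v j) (PL G v L) := by
    intro j hj
    obtain ⟨hji, hjJ, hjR, hjL, -⟩ := hnot j hj
    have h1 := hRw j (Finset.mem_filter.mp hj).1 hjR
    rw [← PL_append, hF1, wd'_mul _ (mul_ne_zero hA'0 hB'0) hC0, wd'_mul _ hA'0 hB'0] at h1
    have h2 := hA' j hjJ hji
    have h3 := hW0 j
    have h4 : 2 * wd' (v j) (PL G v (R' ++ i :: L)) + wd' (v j) E ≤
        2 * wd' (v j) (PL G v L) := by omega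
    exact_mod_cast h4
  -- the directions which keep half of their share
  have hsum1 : ∑ j ∈ T1, (wd' (v j) E : ℝ) / wd' (v j) (PL G v L) ≤
      288 * r * (R'.length + 1) * log (2 * B) := by
    have hterm : ∀ j ∈ T1, (wd' (v j) E : ℝ) / wd' (v j) (PL G v L) ≤
        2 * log ((wd' (v j) (PL G v L) : ℝ) / wd' (v j) (PL G v (R' ++ i :: L))) := by
      intro j hj
      obtain ⟨hjT, hjS⟩ := Finset.mem_filter.mp hj
      obtain ⟨hji, hjJ, hjR, hjL, hjRL⟩ := hnot j hjT
      have e1 := hU.2.2.2.2 (R' ++ i :: L) j hjRL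
      have e2 : (1 : ℝ) ≤ wd' (v j) P := by exact_mod_cast hv j
      have e3 : (1 / 2 : ℝ) * 1 ≤ S (R' ++ i :: L) j * wd' (v j) P :=
        mul_le_mul hjS e2 (by norm_num) (by linarith)
      have hpos : 0 < B * (wd' (v j) (PL G v (R' ++ i :: L)) : ℝ) := by linarith
      have ha' : (0 : ℝ) < wd' (v j) (PL G v (R' ++ i :: L)) := by
        rcases (mul_pos_iff.mp hpos) with h | h
        · exact h.2
        · linarith [h.1]
      have h7 := hwd2 j hjT
      have hE' : (0 : ℝ) ≤ wd' (v j) E := by positivity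
      have hb' : (0 : ℝ) < wd' (v j) (PL G v L) := by linarith
      have h8 : 1 - ((wd' (v j) (PL G v L) : ℝ) / wd' (v j) (PL G v (R' ++ i :: L)))⁻¹ ≤
          log ((wd' (v j) (PL G v L) : ℝ) / wd' (v j) (PL G v (R' ++ i :: L))) :=
        one_sub_inv_le_log_of_pos (div_pos hb' ha')
      rw [inv_div] at h8
      have h9 : (wd' (v j) E : ℝ) / wd' (v j) (PL G v L) ≤
          2 * (1 - (wd' (v j) (PL G v (R' ++ i :: L)) : ℝ) / wd' (v j) (PL G v L)) := by
        rw [div_le_iff₀ hb']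
        have : 2 * (1 - (wd' (v j) (PL G v (R' ++ i :: L)) : ℝ) / wd' (v j) (PL G v L)) *
            wd' (v j) (PL G v L) =
            2 * wd' (v j) (PL G v L) - 2 * wd' (v j) (PL G v (R' ++ i :: L)) := by
          field_simp
        rw [this]
        linarith
      linarith
    have hset : T1 = J.filter
        (fun j => j ∉ R' ++ [i] ∧ 1 / 2 ≤ S (R' ++ i :: L) j) := by
      ext j
      simp only [hT1, hT, Finset.mem_filter, Finset.mem_erase, List.mem_append,
        List.mem_singleton]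
      tauto
    calc ∑ j ∈ T1, (wd' (v j) E : ℝ) / wd' (v j) (PL G v L)
        ≤ ∑ j ∈ T1, 2 * log ((wd' (v j) (PL G v L) : ℝ) /
            wd' (v j) (PL G v (R' ++ i :: L))) := Finset.sum_le_sum hterm
      _ = 2 * ∑ j ∈ T1, log ((wd' (v j) (PL G v L) : ℝ) /
            wd' (v j) (PL G v (R' ++ i :: L))) := by rw [Finset.mul_sum]
      _ ≤ 2 * (144 * r * (R'.length + 1) * log (2 * B)) := by
          rw [hset]
          linarith
      _ = _ := by ring
  have hTsub : ∀ i' ∈ J, (i' ∈ R' ∨ i' = i) → ∑ j ∈ T, x i' j ≤ 8 * r := by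
    intro i' hi' hor
    refine le_trans ?_ (hJ2 i' hi')
    apply Finset.sum_le_sum_of_subset_of_nonneg
    · intro j hj
      obtain ⟨hji, hjJ, hjR, -⟩ := hnot j hj
      refine Finset.mem_erase.mpr ⟨?_, hjJ⟩
      rcases hor with h | h
      · rintro rfl
        exact hjR h
      · rw [h]
        exact hji
    · intro j _ _
      exact hU.1 i' j
  -- the directions which lose half of their share
  have hsum2 : ∑ j ∈ T2, (wd' (v j) E : ℝ) / wd' (v j) (PL G v L) ≤
      32 * r * (R'.length + 1) := by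
    calc ∑ j ∈ T2, (wd' (v j) E : ℝ) / wd' (v j) (PL G v L)
        ≤ ∑ j ∈ T2, 4 * ((R'.map fun i' => x i' j).sum + x i j) := by
          apply Finset.sum_le_sum
          intro j hj
          obtain ⟨hjT, hjS⟩ := Finset.mem_filter.mp hj
          obtain ⟨hji, hjJ, hjR, hjL, hjRL⟩ := hnot j hjT
          have e1 := u3_chain hU hji hjL R' hjR
          have e2 := (hJ1 j hjJ).2
          push Not at hjS
          have e3 := hratio j
          linarith
      _ ≤ ∑ j ∈ T, 4 * ((R'.map fun i' => x i' j).sum + x i j) := by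
          apply Finset.sum_le_sum_of_subset_of_nonneg (Finset.filter_subset _ _)
          intro j _ _
          have := add_nonneg (u3_list_nonneg x hU.1 j R') (hU.1 i j)
          linarith
      _ = 4 * (∑ j ∈ T, (R'.map fun i' => x i' j).sum + ∑ j ∈ T, x i j) := by
          rw [← Finset.mul_sum, Finset.sum_add_distrib]
      _ ≤ 4 * (R'.length * (8 * r) + 8 * r) := by
          have e1 := u3_sum x T (8 * r) R' fun i' hi' =>
            hTsub i' (Finset.mem_of_mem_erase (hRJ i' hi')) (Or.inl hi')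
          have e2 := hTsub i hi (Or.inr rfl)
          linarith
      _ = 32 * r * (R'.length + 1) := by ring
  have hsum3 : ∑ j ∈ T3, (wd' (v j) E : ℝ) / wd' (v j) (PL G v L) ≤ R'.length := by
    calc ∑ j ∈ T3, (wd' (v j) E : ℝ) / wd' (v j) (PL G v L)
        ≤ ∑ j ∈ T3, (1 : ℝ) := Finset.sum_le_sum fun j _ => hratio j
      _ = T3.card := by simp
      _ ≤ R'.length := by
          have h1 : T3 ⊆ R'.toFinset := by
            intro j hj
            have := (Finset.mem_filter.mp hj).2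
            rw [not_not] at this
            exact List.mem_toFinset.mpr this
          exact_mod_cast (Finset.card_le_card h1).trans (List.toFinset_card_le R')
  have hsplit : ∑ j ∈ J.erase i, (wd' (v j) E : ℝ) / wd' (v j) (PL G v L) =
      ∑ j ∈ T1, (wd' (v j) E : ℝ) / wd' (v j) (PL G v L) +
        ∑ j ∈ T2, (wd' (v j) E : ℝ) / wd' (v j) (PL G v L) +
        ∑ j ∈ T3, (wd' (v j) E : ℝ) / wd' (v j) (PL G v L) := by
    rw [hT1, hT2, Finset.sum_filter_add_sum_filter_not, hT, hT3,
      Finset.sum_filter_add_sum_filter_not]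
  rw [hsplit]
  have ht0 : (0 : ℝ) ≤ R'.length := by positivity
  have hq : 0 ≤ r * (288 * log (2 * B) + 33) := by positivity
  have hfin : ((R'.length : ℝ) + 1) * (r * (288 * log (2 * B) + 33)) ≤
      (CN M + 1) * (r * (288 * log (2 * B) + 33)) :=
    mul_le_mul_of_nonneg_right (by linarith) hq
  have he : ((R'.length : ℝ) + 1) * (r * (288 * log (2 * B) + 33)) =
      288 * r * (R'.length + 1) * log (2 * B) + 32 * r * (R'.length + 1) +
        r * (R'.length + 1) := by ring
  have hr1 : (R'.length : ℝ) ≤ r * (R'.length + 1) := by nlinarith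
  linarith

end CP
end Pool.Agent.MP_44c6d5_nt
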