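import Mathlib
import Pool.Agent.MP_44c6d5_nt.CP.DefU

/-!
[U6] sparse hypergraphs give the width condition.
-/

namespace Pool.Agent.MP_44c6d5_nt
namespace CP

open MeasureTheory Real Module MvPolynomial

variable {k : ℕ} {n : ℕ}

theorem u6_step {p : ℕ} (A : Fin p → Finset (Fin n)) (c : Fin p → Fin n → ℝ)
    (hc0 : ∀ a j, 0 ≤ c a j) (L : List (Fin n)) (i j : Fin n) :
    ∑ a with j ∈ A a ∧ ∀ i ∈ L, i ∉ A a, c a j ≤
      ∑ a with j ∈ A a ∧ ∀ i' ∈ i :: L, i' ∉ A a, c a j +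
        ∑ a with i ∈ A a ∧ j ∈ A a, c a j := by
  classical
  rw [Finset.sum_filter, Finset.sum_filter, Finset.sum_filter, ← Finset.sum_add_distrib]
  refine Finset.sum_le_sum fun a _ => ?_
  have h0 := hc0 a j
  by_cases hj : j ∈ A a
  · by_cases hL : ∀ i ∈ L, i ∉ A a
    · by_cases hi : i ∈ A a
      · rw [if_pos ⟨hj, hL⟩, if_pos (show i ∈ A a ∧ j ∈ A a from ⟨hi, hj⟩)]
        split_ifs <;> linarith
      · have h1 : ∀ i' ∈ i :: L, i' ∉ A a := by
          intro i' hi'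
          rcases List.mem_cons.mp hi' with h | h
          · rw [h]; exact hi
          · exact hL i' h
        rw [if_pos ⟨hj, hL⟩,
          if_pos (show j ∈ A a ∧ ∀ i' ∈ i :: L, i' ∉ A a from ⟨hj, h1⟩)]
        split_ifs <;> linarith
    · rw [if_neg fun h => hL h.2]
      split_ifs <;> linarith
  · rw [if_neg fun h => hj h.1]
    split_ifs <;> linarith

theorem u6_sum {p r : ℕ} (A : Fin p → Finset (Fin n)) (hA : ∀ a, (A a).card ≤ r)
    (c : Fin p → Fin n → ℝ) (hc0 : ∀ a j, 0 ≤ c a j)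
    (hc1 : ∀ j, ∑ a with j ∈ A a, c a j = 1) :
    ∑ i, ∑ j ∈ Finset.univ.erase i, ∑ a with i ∈ A a ∧ j ∈ A a, c a j ≤ r * n := by
  classical
  have h1 : ∑ i, ∑ j ∈ Finset.univ.erase i, ∑ a with i ∈ A a ∧ j ∈ A a, c a j ≤
      ∑ i : Fin n, ∑ j : Fin n, ∑ a with i ∈ A a ∧ j ∈ A a, c a j := by
    refine Finset.sum_le_sum fun i _ => ?_
    exact Finset.sum_le_sum_of_subset_of_nonneg (Finset.subset_univ _) fun j _ _ =>
      Finset.sum_nonneg fun a _ => hc0 a j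
  refine h1.trans ?_
  rw [Finset.sum_comm]
  have h2 : ∀ j : Fin n, ∑ i : Fin n, ∑ a with i ∈ A a ∧ j ∈ A a, c a j ≤ r := by
    intro j
    have h3 : ∀ i : Fin n, ∑ a with i ∈ A a ∧ j ∈ A a, c a j =
        ∑ a with j ∈ A a, if i ∈ A a then c a j else 0 := by
      intro i
      rw [Finset.sum_filter, Finset.sum_filter]
      refine Finset.sum_congr rfl fun a _ => ?_
      by_cases hi : i ∈ A a <;> by_cases hj : j ∈ A a <;> simp [hi, hj]
    rw [Finset.sum_congr rfl fun i _ => h3 i, Finset.sum_comm]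
    have h4 : ∀ a ∈ Finset.univ.filter (fun a => j ∈ A a),
        (∑ i : Fin n, if i ∈ A a then c a j else 0) ≤ r * c a j := by
      intro a _
      rw [Finset.sum_ite_mem, Finset.univ_inter, Finset.sum_const, nsmul_eq_mul]
      exact mul_le_mul_of_nonneg_right (by exact_mod_cast hA a) (hc0 a j)
    refine (Finset.sum_le_sum h4).trans ?_
    rw [← Finset.mul_sum, hc1 j, mul_one]
  refine (Finset.sum_le_sum fun j _ => h2 j).trans ?_
  rw [Finset.sum_const, Finset.card_univ, Fintype.card_fin, nsmul_eq_mul, mul_comm]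

theorem UCond_of_sparse {p r : ℕ} {P G : Pol k} (v : Fin n → Fin k → ℤ) {B : ℝ}
    (A : Fin p → Finset (Fin n)) (hA : ∀ a, (A a).card ≤ r) (c : Fin p → Fin n → ℝ)
    (hc0 : ∀ a j, 0 ≤ c a j) (hc1 : ∀ j, ∑ a with j ∈ A a, c a j = 1)
    (hW : ∀ (L : List (Fin n)) (j : Fin n), j ∉ L →
      (∑ a with j ∈ A a ∧ ∀ i ∈ L, i ∉ A a, c a j) * (wd' (v j) P : ℝ) ≤
        B * wd' (v j) (PL G v L)) :
    ∃ (x : Fin n → Fin n → ℝ) (S : List (Fin n) → Fin n → ℝ), UCond P G v B x S ∧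
      ∑ i, ∑ j ∈ Finset.univ.erase i, x i j ≤ r * n := by
  classical
  refine ⟨fun i j => ∑ a with i ∈ A a ∧ j ∈ A a, c a j,
    fun L j => ∑ a with j ∈ A a ∧ ∀ i ∈ L, i ∉ A a, c a j, ⟨?_, ?_, ?_, ?_, ?_⟩, ?_⟩
  · intro i j
    exact Finset.sum_nonneg fun a _ => hc0 a j
  · intro L j
    refine ⟨Finset.sum_nonneg fun a _ => hc0 a j, ?_⟩
    rw [← hc1 j]
    refine Finset.sum_le_sum_of_subset_of_nonneg ?_ fun a _ _ => hc0 a j
    intro a ha
    rw [Finset.mem_filter] at ha ⊢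
    exact ⟨ha.1, ha.2.1⟩
  · intro j
    rw [← hc1 j]
    refine Finset.sum_congr ?_ fun _ _ => rfl
    ext a
    rw [Finset.mem_filter, Finset.mem_filter]
    simp
  · intro L i j _ _
    exact u6_step A c hc0 L i j
  · intro L j hj
    exact hW L j hj
  · exact u6_sum A hA c hc0 hc1

end CP
end Pool.Agent.MP_44c6d5_nt
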