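import Mathlib
import Pool.Agent.MP_44c6d5_nt.CP.DefW
import Pool.Agent.MP_44c6d5_nt.CP.U4
import Pool.Agent.MP_44c6d5_nt.CP.U5
import Pool.Agent.MP_44c6d5_nt.CP.U6

/-!
[U7] the final form.
-/

namespace Pool.Agent.MP_44c6d5_nt
namespace CP

open MeasureTheory Real Module MvPolynomial

variable {k : ℕ} {n : ℕ}

theorem u7_width (u : Fin k → ℤ) {Q : Pol k} (hQ : Q ≠ 0) :
    width (fun i => (u i : ℝ)) Q = (wd' u Q : ℝ) := by
  have h1 := wd'_cast u hQ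
  have h2 : (wd' u Q : ℝ) = -(ordZ (-u) Q : ℝ) - (ordZ u Q : ℝ) := by
    exact_mod_cast congrArg (fun z : ℤ => (z : ℝ)) h1
  rw [h2, ← ord_rl (-u) hQ, ← ord_rl u hQ, rl_neg']
  rfl

theorem sparse_widths {p r : ℕ} {P : Pol k} (hP : Irreducible P) (z : Fin k → ℝ)
    (v : Fin n → Fin k → ℤ) (hv : ∀ j, 0 < width (fun i => (v j i : ℝ)) P)
    (A : Fin p → Finset (Fin n)) (hA : ∀ a, (A a).card ≤ r) (c : Fin p → Fin n → ℝ)
    (hc0 : ∀ a j, 0 ≤ c a j) (hc1 : ∀ j, ∑ a with j ∈ A a, c a j = 1) {B : ℝ}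
    (hW : ∀ (L : List (Fin n)) (j : Fin n), j ∉ L →
      (∑ a with j ∈ A a ∧ ∀ i ∈ L, i ∉ A a, c a j) * width (fun i => (v j i : ℝ)) P ≤
        B * width (fun i => (v j i : ℝ)) (PL (ini z P) v L)) {M : ℝ} (hM : mm P ≤ M) :
    (n : ℝ) ≤ r * exp (16000 * B * (M + 1)) := by
  classical
  have hP0 := hP.ne_zero
  have hM0 : 0 ≤ M := (mm_nonneg hP0).trans hM
  rcases Nat.eq_zero_or_pos n with hn | hn
  · subst hn
    simp only [Nat.cast_zero]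
    positivity
  have hr1 : 1 ≤ r := by
    by_contra hcon
    have hr0 : r = 0 := by omega
    have h1 := hc1 ⟨0, hn⟩
    rw [Finset.sum_filter, Finset.sum_eq_zero] at h1
    · exact zero_ne_one h1
    · intro a _
      have h2 := hA a
      rw [hr0, Nat.le_zero, Finset.card_eq_zero] at h2
      rw [h2, if_neg (Finset.notMem_empty _)]
  obtain ⟨l0, hl0⟩ : ∃ l0 : Fin k → ℤ, ini (rl l0) P = ini z P := by
    obtain ⟨l0, h0⟩ := exists_int_weight z P.support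
    exact ⟨l0, ini_eq_of_weight h0 hP0 subset_rfl⟩
  rw [← hl0] at hW
  have hQ0 : ini (rl l0) P ≠ 0 := ini_ne_zero _ hP0
  have hv' : ∀ j, 1 ≤ wd' (v j) P := by
    intro j
    have h1 := hv j
    rw [u7_width (v j) hP0] at h1
    exact_mod_cast h1
  have hW' : ∀ (L : List (Fin n)) (j : Fin n), j ∉ L →
      (∑ a with j ∈ A a ∧ ∀ i ∈ L, i ∉ A a, c a j) * (wd' (v j) P : ℝ) ≤
        B * wd' (v j) (PL (ini (rl l0) P) v L) := by
    intro L j hj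
    have h1 := hW L j hj
    rwa [u7_width (v j) hP0, u7_width (v j) (PL_ne_zero hQ0 v L)] at h1
  have hB : 1 ≤ B := by
    have h1 := hW' [] ⟨0, hn⟩ List.not_mem_nil
    have h2 : (∑ a with (⟨0, hn⟩ : Fin n) ∈ A a ∧ ∀ i ∈ ([] : List (Fin n)), i ∉ A a,
        c a ⟨0, hn⟩) = 1 := by
      rw [← hc1 ⟨0, hn⟩]
      refine Finset.sum_congr ?_ fun _ _ => rfl
      ext a
      simp
    rw [h2, one_mul] at h1
    have h3 : (1 : ℝ) ≤ wd' (v ⟨0, hn⟩) P := by exact_mod_cast hv' ⟨0, hn⟩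
    have h4 : (wd' (v ⟨0, hn⟩) (ini (rl l0) P) : ℝ) ≤ wd' (v ⟨0, hn⟩) P := by
      exact_mod_cast wd'_ini_le (v ⟨0, hn⟩) (rl l0) hP0
    have h5 : (0 : ℝ) ≤ wd' (v ⟨0, hn⟩) (ini (rl l0) P) := Nat.cast_nonneg _
    have h6 : (wd' (v ⟨0, hn⟩) P : ℝ) ≤ B * wd' (v ⟨0, hn⟩) (ini (rl l0) P) := h1
    by_contra hcon
    rw [not_le] at hcon
    rcases le_or_gt B 0 with hB0 | hB0
    · have := mul_nonpos_of_nonpos_of_nonneg hB0 h5
      linarith
    · nlinarith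
  have hr1' : (1 : ℝ) ≤ r := by exact_mod_cast hr1
  obtain ⟨x, S, hU, hx⟩ := UCond_of_sparse (P := P) (G := ini (rl l0) P) v A hA c hc0 hc1 hW'
  exact (width_boundU hP v hv' hB hU hr1' hx hM).trans (numericU hr1' hB hM0)

end CP
end Pool.Agent.MP_44c6d5_nt
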