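import Mathlib
import Pool.Agent.MP_44c6d5_nt.CP.DefW
import Pool.Agent.MP_44c6d5_nt.CP.F1
import Pool.Agent.MP_44c6d5_nt.CP.F8
import Pool.Agent.MP_44c6d5_nt.CP.F9
import Pool.Agent.MP_44c6d5_nt.CP.F11

/-!
[U8] Minkowski sums satisfy the hypothesis of the theorem on sparse widths.
-/

namespace Pool.Agent.MP_44c6d5_nt
namespace CP

open MeasureTheory Real Module MvPolynomial
open scoped Pointwise

variable {k : ℕ} {n : ℕ}

/-- iterated faces of the summands. -/
noncomputable def u8T {p : ℕ} (T : Fin p → Finset (Fin k → ℝ)) (v : Fin n → Fin k → ℤ) :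
    List (Fin n) → Fin p → Finset (Fin k → ℝ)
  | [] => T
  | i :: L => fun a => faceF (u8T T v L a) (rl (v i))

theorem u8T_nonempty {p : ℕ} {T : Fin p → Finset (Fin k → ℝ)} (hT : ∀ a, (T a).Nonempty)
    (v : Fin n → Fin k → ℤ) (L : List (Fin n)) (a : Fin p) : (u8T T v L a).Nonempty := by
  induction L with
  | nil => exact hT a
  | cons i L ih => exact faceF_nonempty ih _

theorem u8_ord {p : ℕ} {Q : Pol k} (hQ : Q ≠ 0) {T : Fin p → Finset (Fin k → ℝ)}
    (hT : ∀ a, (T a).Nonempty) (h : ∀ y, ord y Q = ∑ a, suppF (T a) y) (v : Fin n → Fin k → ℤ)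
    (L : List (Fin n)) : ∀ y, ord y (PL Q v L) = ∑ a, suppF (u8T T v L a) y := by
  induction L with
  | nil => exact h
  | cons i L ih =>
    exact ord_ini_sum (PL_ne_zero hQ v L) (u8T T v L) (u8T_nonempty hT v L) ih (rl (v i))

/-- zero width means that the functional is constant. -/
theorem u8_const {T : Finset (Fin k → ℝ)} (_hT : T.Nonempty) {y : Fin k → ℝ} (h : wdF T y = 0) :
    ∀ a ∈ T, ∀ b ∈ T, dotR y a = dotR y b := by
  have key : ∀ a ∈ T, dotR y a = suppF T y := by
    intro a ha
    have h1 := f8_le (y := y) ha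
    have h2 := f8_le (y := -y) ha
    rw [f8_neg] at h2
    unfold wdF at h
    linarith
  intro a ha b hb
  rw [key a ha, key b hb]

theorem u8T_eq {p : ℕ} {T : Fin p → Finset (Fin k → ℝ)} (hT : ∀ a, (T a).Nonempty)
    (v : Fin n → Fin k → ℤ) (L : List (Fin n)) (a : Fin p)
    (h : ∀ i ∈ L, wdF (T a) (rl (v i)) = 0) : u8T T v L a = T a := by
  induction L with
  | nil => rfl
  | cons i L ih =>
    have h1 := ih fun j hj => h j (List.mem_cons_of_mem _ hj)
    have h2 := u8_const (hT a) (h i List.mem_cons_self)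
    show faceF (u8T T v L a) (rl (v i)) = T a
    rw [h1]
    exact faceF_eq_self h2

theorem mink_sparse {p r : ℕ} {P : Pol k} (hP : P ≠ 0) (z : Fin k → ℝ)
    (T : Fin p → Finset (Fin k → ℝ)) (hT : ∀ a, (T a).Nonempty)
    (hN : newton (ini z P) = ∑ a, convexHull ℝ (T a : Set (Fin k → ℝ)))
    (v : Fin n → Fin k → ℤ) (hv : ∀ j, 0 < width (fun i => (v j i : ℝ)) P) {B : ℝ}
    (hwide : ∀ j, width (fun i => (v j i : ℝ)) P ≤
      B * ∑ a with {j : Fin n | wdF (T a) (fun i => (v j i : ℝ)) ≠ 0}.ncard ≤ r,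
        wdF (T a) (fun i => (v j i : ℝ))) :
    ∃ (A : Fin p → Finset (Fin n)) (c : Fin p → Fin n → ℝ), (∀ a, (A a).card ≤ r) ∧
      (∀ a j, 0 ≤ c a j) ∧ (∀ j, ∑ a with j ∈ A a, c a j = 1) ∧
      ∀ (L : List (Fin n)) (j : Fin n), j ∉ L →
      (∑ a with j ∈ A a ∧ ∀ i ∈ L, i ∉ A a, c a j) * width (fun i => (v j i : ℝ)) P ≤
        B * width (fun i => (v j i : ℝ)) (PL (ini z P) v L) := by
  classical
  have hQ : ini z P ≠ 0 := ini_ne_zero z hP
  have hord := ord_of_newton hQ T hT hN
  set N : Fin p → Fin n → ℝ := fun a j => wdF (T a) (fun i => (v j i : ℝ)) with hNdef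
  have hN0 : ∀ a j, 0 ≤ N a j := fun a j => (wdF_mono subset_rfl (hT a) _).1
  set good : Fin p → Prop := fun a => {j : Fin n | N a j ≠ 0}.ncard ≤ r with hgood
  set W : Fin n → ℝ := fun j => ∑ a with good a, N a j with hWdef
  have hW0 : ∀ j, 0 ≤ W j := fun j => Finset.sum_nonneg fun a _ => hN0 a j
  have hwide' : ∀ j, width (fun i => (v j i : ℝ)) P ≤ B * W j := hwide
  have hBW : ∀ j, 0 < B * W j := fun j => (hv j).trans_le (hwide' j)
  have hWpos : ∀ j, 0 < W j := by
    intro j
    rcases lt_or_eq_of_le (hW0 j) with h | h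
    · exact h
    · have := hBW j
      rw [← h, mul_zero] at this
      exact absurd this (lt_irrefl _)
  have hBpos : ∀ _ : Fin n, 0 < B := by
    intro j
    by_contra hcon
    push Not at hcon
    have h1 := hBW j
    have h2 : B * W j ≤ 0 := mul_nonpos_of_nonpos_of_nonneg hcon (hW0 j)
    linarith
  set A : Fin p → Finset (Fin n) := fun a =>
    if good a then Finset.univ.filter (fun j => N a j ≠ 0) else ∅ with hA
  set c : Fin p → Fin n → ℝ := fun a j => if good a then N a j / W j else 0 with hc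
  have hmem : ∀ a j, j ∈ A a ↔ good a ∧ N a j ≠ 0 := by
    intro a j
    simp only [hA]
    by_cases hg : good a
    · rw [if_pos hg]; simp [hg]
    · rw [if_neg hg]; simp [hg]
  refine ⟨A, c, ?_, ?_, ?_, ?_⟩
  · intro a
    by_cases hg : good a
    · have e : (A a).card = {j : Fin n | N a j ≠ 0}.ncard := by
        rw [← Set.ncard_coe_finset]
        congr 1
        ext j
        rw [Finset.mem_coe, hmem]
        simp [hg]
      rw [e]; exact hg
    · have e : A a = ∅ := by simp only [hA]; rw [if_neg hg]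
      rw [e, Finset.card_empty]; exact Nat.zero_le r
  · intro a j
    simp only [hc]
    split_ifs
    · exact div_nonneg (hN0 a j) (hW0 j)
    · exact le_rfl
  · intro j
    rw [Finset.sum_filter]
    have e1 : ∀ a, (if j ∈ A a then c a j else 0) = if good a then N a j / W j else 0 := by
      intro a
      by_cases hg : good a
      · by_cases hn : N a j = 0
        · rw [if_neg fun h => ((hmem a j).mp h).2 hn, if_pos hg, hn, zero_div]
        · rw [if_pos ((hmem a j).mpr ⟨hg, hn⟩)]
      · rw [if_neg fun h => hg ((hmem a j).mp h).1, if_neg hg]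
    rw [Finset.sum_congr rfl fun a _ => e1 a, ← Finset.sum_filter, ← Finset.sum_div]
    exact div_self (hWpos j).ne'
  · intro L j _
    set X : ℝ := ∑ a with j ∈ A a ∧ ∀ i ∈ L, i ∉ A a, N a j with hX
    have e1 : ∑ a with j ∈ A a ∧ ∀ i ∈ L, i ∉ A a, c a j = X / W j := by
      rw [hX, Finset.sum_div]
      apply Finset.sum_congr rfl
      intro a ha
      have h1 := ((hmem a j).mp (Finset.mem_filter.mp ha).2.1).1
      simp only [hc]
      rw [if_pos h1]
    have hordL := u8_ord hQ hT hord v L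
    have e2 : width (fun i => (v j i : ℝ)) (PL (ini z P) v L) =
        ∑ a, wdF (u8T T v L a) (fun i => (v j i : ℝ)) := by
      unfold width wdF
      rw [hordL, hordL, ← Finset.sum_neg_distrib, ← Finset.sum_sub_distrib]
    have e3 : X ≤ width (fun i => (v j i : ℝ)) (PL (ini z P) v L) := by
      rw [e2, hX]
      have e4 : ∑ a with j ∈ A a ∧ ∀ i ∈ L, i ∉ A a, N a j =
          ∑ a with j ∈ A a ∧ ∀ i ∈ L, i ∉ A a,
            wdF (u8T T v L a) (fun i => (v j i : ℝ)) := by
        apply Finset.sum_congr rfl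
        intro a ha
        have h1 := (Finset.mem_filter.mp ha).2
        have hg := ((hmem a j).mp h1.1).1
        rw [u8T_eq hT v L a]
        intro i hi
        by_contra hne
        exact h1.2 i hi ((hmem a i).mpr ⟨hg, hne⟩)
      rw [e4]
      exact Finset.sum_le_sum_of_subset_of_nonneg (Finset.filter_subset _ _) fun a _ _ =>
        (wdF_mono subset_rfl (u8T_nonempty hT v L a) _).1
    have hX0 : 0 ≤ X := Finset.sum_nonneg fun a _ => hN0 a j
    rw [e1]
    calc X / W j * width (fun i => (v j i : ℝ)) P ≤ X / W j * (B * W j) :=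
          mul_le_mul_of_nonneg_left (hwide' j) (div_nonneg hX0 (hW0 j))
      _ = B * X := by
          have := (hWpos j).ne'
          field_simp
      _ ≤ B * width (fun i => (v j i : ℝ)) (PL (ini z P) v L) :=
          mul_le_mul_of_nonneg_left e3 (hBpos j).le

end CP
end Pool.Agent.MP_44c6d5_nt
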