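import Mathlib
import Pool.Agent.MP_44c6d5_nt.CP.C4

/-!
Row V1: the exponents of a product of reciprocal polynomials and monomials are symmetric.
-/

namespace Pool.Agent.MP_44c6d5_nt
namespace CP

open MeasureTheory Real Module MvPolynomial

variable {k : ℕ}

/-- the coefficients are symmetric up to a constant -/
def v1_sym (A : Pol k) : Prop :=
  ∃ c : Fin k →₀ ℕ, ∃ s : ℤ, s ≠ 0 ∧ (∀ e ∈ A.support, e ≤ c) ∧
    ∀ e e' : Fin k →₀ ℕ, e + e' = c → coeff e' A = s * coeff e A

theorem v1_coeff_mul (A B : Pol k) (e : Fin k →₀ ℕ) :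
    coeff e (A * B) = ∑ a ∈ A.support, ∑ b ∈ B.support,
      if a + b = e then coeff a A * coeff b B else 0 := by
  classical
  conv_lhs => rw [A.as_sum, B.as_sum]
  rw [Finset.sum_mul_sum, coeff_sum]
  apply Finset.sum_congr rfl
  intro a _
  rw [coeff_sum]
  apply Finset.sum_congr rfl
  intro b _
  rw [monomial_mul, coeff_monomial]

theorem v1_mem {A : Pol k} {c : Fin k →₀ ℕ} {s : ℤ} (hs : s ≠ 0) (h1 : ∀ e ∈ A.support, e ≤ c)
    (h2 : ∀ e e' : Fin k →₀ ℕ, e + e' = c → coeff e' A = s * coeff e A)
    {a : Fin k →₀ ℕ} (ha : a ∈ A.support) : c - a ∈ A.support := by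
  rw [MvPolynomial.mem_support_iff, h2 a (c - a) (add_tsub_cancel_of_le (h1 a ha))]
  exact mul_ne_zero hs (MvPolynomial.mem_support_iff.mp ha)

theorem v1_mul {A B : Pol k} (hA : v1_sym A) (hB : v1_sym B) : v1_sym (A * B) := by
  classical
  obtain ⟨c, s, hs, h1, h2⟩ := hA
  obtain ⟨d, t, ht, h3, h4⟩ := hB
  refine ⟨c + d, s * t, mul_ne_zero hs ht, ?_, ?_⟩
  · intro e he
    have := MvPolynomial.support_mul A B he
    obtain ⟨a, ha, b, hb, rfl⟩ := Finset.mem_add.mp this
    exact add_le_add (h1 a ha) (h3 b hb)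
  · intro e e' hee
    rw [v1_coeff_mul, v1_coeff_mul, Finset.mul_sum]
    symm
    refine Finset.sum_nbij' (fun a => c - a) (fun a => c - a)
      (fun a ha => v1_mem hs h1 h2 ha) (fun a ha => v1_mem hs h1 h2 ha)
      (fun a ha => tsub_tsub_cancel_of_le (h1 a ha))
      (fun a ha => tsub_tsub_cancel_of_le (h1 a ha)) ?_
    intro a ha
    rw [Finset.mul_sum]
    refine Finset.sum_nbij' (fun a => d - a) (fun a => d - a)
      (fun a ha => v1_mem ht h3 h4 ha) (fun a ha => v1_mem ht h3 h4 ha)
      (fun a ha => tsub_tsub_cancel_of_le (h3 a ha))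
      (fun a ha => tsub_tsub_cancel_of_le (h3 a ha)) ?_
    intro b hb
    have ha' := add_tsub_cancel_of_le (h1 a ha)
    have hb' := add_tsub_cancel_of_le (h3 b hb)
    have hiff : a + b = e ↔ (c - a) + (d - b) = e' := by
      have key : (a + b) + ((c - a) + (d - b)) = e + e' := by
        rw [hee]
        calc (a + b) + ((c - a) + (d - b)) = (a + (c - a)) + (b + (d - b)) := add_add_add_comm a b (c - a) (d - b)
          _ = c + d := by rw [ha', hb']
      constructor
      · intro h
        rw [h] at key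
        exact add_left_cancel key
      · intro h
        rw [h] at key
        exact add_right_cancel key
    rw [h2 a (c - a) ha', h4 b (d - b) hb']
    by_cases h : a + b = e
    · rw [if_pos h, if_pos (hiff.mp h)]
      ring
    · rw [if_neg h, if_neg (fun h' => h (hiff.mpr h')), mul_zero]

theorem v1_top {A : Pol k} (hA : A ≠ 0) (h : Lam A = ⊤) : v1_sym A := by
  classical
  obtain ⟨m, hm⟩ := supp_nonempty hA
  have huniq : ∀ e ∈ A.support, e = m := by
    intro e he
    ext i
    have h1 : (Pi.single i 1 : Fin k → ℝ) ∈ Lam A := by rw [h]; trivial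
    have h2 := h1 e he m hm
    have h3 : ∀ j : Fin k →₀ ℕ, wt (Pi.single i 1 : Fin k → ℝ) j = j i := by
      intro j
      unfold wt
      rw [Finset.sum_eq_single i]
      · simp
      · intro b _ hb
        simp [Pi.single_eq_of_ne hb]
      · intro hi
        exact absurd (Finset.mem_univ i) hi
    rw [h3, h3] at h2
    exact_mod_cast h2
  refine ⟨m + m, 1, one_ne_zero, ?_, ?_⟩
  · intro e he
    rw [huniq e he]
    exact le_self_add
  · intro e e' hee
    rw [one_mul]
    by_cases he : e = m
    · subst he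
      rw [add_left_cancel hee]
    · have he' : e' ≠ m := by
        rintro rfl
        exact he (add_right_cancel hee)
      have h1 : coeff e A = 0 := by
        by_contra hne
        exact he (huniq e (MvPolynomial.mem_support_iff.mpr hne))
      have h2 : coeff e' A = 0 := by
        by_contra hne
        exact he' (huniq e' (MvPolynomial.mem_support_iff.mpr hne))
      rw [h1, h2]

theorem v1_rev {g : Pol k} (h : rev g = g ∨ rev g = -g) : v1_sym g := by
  classical
  obtain ⟨s, hs, hss, hg⟩ : ∃ s : ℤ, s ≠ 0 ∧ s * s = 1 ∧ ∀ e, coeff e g = s * coeff e (rev g) := by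
    rcases h with h | h
    · exact ⟨1, one_ne_zero, by norm_num, fun e => by rw [h, one_mul]⟩
    · refine ⟨-1, by norm_num, by norm_num, fun e => ?_⟩
      rw [h, coeff_neg]
      ring
  have key : ∀ e e' : Fin k →₀ ℕ, e + e' = dg g → e ∈ g.support → coeff e' g = s * coeff e g := by
    intro e e' hee he
    have h1 : dg g - e = e' := by
      rw [← hee]
      exact add_tsub_cancel_left e e'
    rw [hg e', ← h1, coeff_rev g he]
  refine ⟨dg g, s, hs, fun e he => le_dg he, ?_⟩
  intro e e' hee
  by_cases he : e ∈ g.support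
  · exact key e e' hee he
  · by_cases he' : e' ∈ g.support
    · have h2 := key e' e (by rw [add_comm]; exact hee) he'
      rw [h2, ← mul_assoc, hss, one_mul]
    · rw [MvPolynomial.notMem_support_iff.mp he, MvPolynomial.notMem_support_iff.mp he', mul_zero]

theorem v1_main {A : Pol k} : A ≠ 0 →
    (∀ g, Irreducible g → g ∣ A → (rev g = g ∨ rev g = -g) ∨ Lam g = ⊤) → v1_sym A := by
  induction A using WfDvdMonoid.induction_on_irreducible with
  | zero => exact fun h => absurd rfl h
  | unit u hu =>
    intro hu0 _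
    exact v1_top hu0 (c4_Lam_unit hu)
  | mul P g hP0 hg ih =>
    intro _ h
    have hgs : v1_sym g := by
      rcases h g hg (dvd_mul_right g P) with h' | h'
      · exact v1_rev h'
      · exact v1_top hg.ne_zero h'
    exact v1_mul hgs (ih hP0 (fun q hq hd => h q hq (dvd_mul_of_dvd_right hd g)))

-- [V1] the exponents of a product of reciprocal polynomials and monomials are symmetric
theorem symm_support {A : Pol k} (hA : A ≠ 0)
    (h : ∀ g, Irreducible g → g ∣ A → (rev g = g ∨ rev g = -g) ∨ Lam g = ⊤) :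
    ∃ c : Fin k → ℕ, ∀ e ∈ A.support, ∃ e' ∈ A.support, ∀ i, e i + e' i = c i := by
  obtain ⟨c, s, hs, h1, h2⟩ := v1_main hA h
  refine ⟨c, fun e he => ⟨c - e, v1_mem hs h1 h2 he, fun i => ?_⟩⟩
  rw [← Finsupp.add_apply, add_tsub_cancel_of_le (h1 e he)]

end CP
end Pool.Agent.MP_44c6d5_nt
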