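import Mathlib
import Pool.Agent.MP_44c6d5_nt.CP.DefF

/-!
[V10] an iterated face is a face.
-/

namespace Pool.Agent.MP_44c6d5_nt
namespace CP

open MeasureTheory Real Module MvPolynomial Filter Topology

variable {k : ℕ} {n : ℕ}

theorem v10_ini_smul {c : ℝ} (hc : 0 < c) (u : Fin k → ℝ) (Q : Pol k) :
    ini (c • u) Q = ini u Q := by
  ext j
  rw [coeff_ini, coeff_ini, ord_smul hc, wt_smul]
  have h : c * wt u j = c * ord u Q ↔ wt u j = ord u Q := by
    constructor
    · intro h; exact mul_left_cancel₀ hc.ne' h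
    · intro h; rw [h]
  simp only [h]

/-- a face of a face is a face -/
theorem v10_ini_ini {G : Pol k} (hG : G ≠ 0) (y z : Fin k → ℝ) :
    ∃ y' : Fin k → ℝ, ini z (ini y G) = ini y' G := by
  have hc : Tendsto (fun s : ℝ => s • z) (𝓝[>] 0) (𝓝 0) := by
    have : Tendsto (fun s : ℝ => s • z) (𝓝 0) (𝓝 ((0 : ℝ) • z)) :=
      (continuous_id.smul continuous_const).tendsto 0
    rw [zero_smul] at this
    exact this.mono_left nhdsWithin_le_nhds
  obtain ⟨s, hs1, hs0⟩ := ((hc.eventually (perturb y hG)).and self_mem_nhdsWithin).exists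
  have hs0 : 0 < s := hs0
  exact ⟨y + s • z, by rw [hs1.1, v10_ini_smul hs0]⟩

theorem PL_face {G : Pol k} (hG : G ≠ 0) (v : Fin n → Fin k → ℤ) (L : List (Fin n))
    (y : Fin k → ℝ) : ∃ y' : Fin k → ℝ, ini y (PL G v L) = ini y' G := by
  have key : ∀ L : List (Fin n), ∃ y : Fin k → ℝ, PL G v L = ini y G := by
    intro L
    induction L with
    | nil => exact ⟨0, ((ini_eq_self_iff hG).mpr (Submodule.zero_mem _)).symm⟩
    | cons i L ih =>
      obtain ⟨y, hy⟩ := ih
      obtain ⟨y', hy'⟩ := v10_ini_ini hG y (rl (v i))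
      refine ⟨y', ?_⟩
      change ini (rl (v i)) (PL G v L) = ini y' G
      rw [hy, hy']
  obtain ⟨y1, h1⟩ := key L
  obtain ⟨y', hy'⟩ := v10_ini_ini hG y1 y
  exact ⟨y', by rw [h1, hy']⟩

end CP
end Pool.Agent.MP_44c6d5_nt
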