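import Mathlib
import Pool.Agent.MP_44c6d5_nt.Ord

/-!
Facets above a face.
-/

namespace Pool.Agent.MP_44c6d5_nt
namespace CP

open Real Module MvPolynomial

variable {k : ℕ} {n : ℕ}

/-- one step: a bigger face. -/
theorem v2_step {A : Pol k} (hA : A ≠ 0) {z z2 : Fin k → ℝ}
    (h2 : z2 ∈ Lam (ini z A)) (h3 : z2 ∉ Submodule.span ℝ {z} ⊔ Lam A)
    {e : Fin k →₀ ℕ} (he : e ∈ A.support) (hb : wt z2 e < ord z2 (ini z A)) :
    ∃ z' : Fin k → ℝ, z' ∉ Lam A ∧ (ini z A).support ⊆ (ini z' A).support ∧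
      Lam (ini z' A) < Lam (ini z A) := by
  classical
  have hI := ini_ne_zero z hA
  obtain ⟨f0, hf0, hf0'⟩ := exists_ord z2 hI
  have hface : ∀ f ∈ (ini z A).support, wt z f = ord z A ∧ wt z2 f = ord z2 (ini z A) := by
    intro f hf
    exact ⟨(mem_support_ini.mp hf).2, wt_eq_ord_of_mem_Lam h2 hf⟩
  set c2 := ord z2 (ini z A) with hc2
  have hpos : ∀ f ∈ A.support, wt z2 f < c2 → ord z A < wt z f := by
    intro f hf hlt
    rcases lt_or_eq_of_le (ord_le z hf) with h | h
    · exact h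
    · exfalso
      have := (hface f (mem_support_ini.mpr ⟨hf, h.symm⟩)).2
      linarith
  obtain ⟨e0, he0, hmin⟩ := Finset.exists_min_image (A.support.filter fun f => wt z2 f < c2)
    (fun f => (wt z f - ord z A) / (c2 - wt z2 f)) ⟨e, Finset.mem_filter.mpr ⟨he, hb⟩⟩
  obtain ⟨he0A, he0b⟩ := Finset.mem_filter.mp he0
  set s := (wt z e0 - ord z A) / (c2 - wt z2 e0) with hs
  have hs0 : 0 < s := div_pos (by have := hpos e0 he0A he0b; linarith) (by linarith)
  have hs1 : s * (c2 - wt z2 e0) = wt z e0 - ord z A := by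
    rw [hs]; exact div_mul_cancel₀ _ (by linarith)
  have hall : ∀ f ∈ A.support, ord z A + s * c2 ≤ wt (z + s • z2) f := by
    intro f hf
    rw [wt_add_left, wt_smul]
    by_cases h : wt z2 f < c2
    · have h1 := hmin f (Finset.mem_filter.mpr ⟨hf, h⟩)
      have h4 : s * (c2 - wt z2 f) ≤ wt z f - ord z A := by
        have := (le_div_iff₀ (by linarith : (0:ℝ) < c2 - wt z2 f)).mp h1
        exact this
      nlinarith
    · have h1 := ord_le z hf
      have h4 : 0 ≤ s * (wt z2 f - c2) := mul_nonneg hs0.le (by linarith [not_lt.mp h])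
      nlinarith
  have hord : ord (z + s • z2) A = ord z A + s * c2 := by
    apply le_antisymm
    · have h5 := ord_le (z + s • z2) (mem_support_ini.mp hf0).1
      rw [wt_add_left, wt_smul, (hface f0 hf0).1, (hface f0 hf0).2] at h5
      exact h5
    · exact le_ord hA hall
  have hsub : (ini z A).support ⊆ (ini (z + s • z2) A).support := by
    intro f hf
    rw [mem_support_ini, hord, wt_add_left, wt_smul, (hface f hf).1, (hface f hf).2]
    exact ⟨(mem_support_ini.mp hf).1, rfl⟩
  have he0' : e0 ∈ (ini (z + s • z2) A).support := by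
    rw [mem_support_ini, hord, wt_add_left, wt_smul]
    exact ⟨he0A, by nlinarith⟩
  refine ⟨z + s • z2, ?_, hsub, lt_of_le_of_ne (Lam_mono hsub) ?_⟩
  · intro hmem
    apply h3
    have h6 : z2 = s⁻¹ • ((z + s • z2) - z) := by
      rw [add_sub_cancel_left, smul_smul, inv_mul_cancel₀ hs0.ne', one_smul]
    rw [h6]
    apply Submodule.smul_mem
    apply Submodule.sub_mem
    · exact Submodule.mem_sup_right hmem
    · exact Submodule.mem_sup_left (Submodule.mem_span_singleton_self z)
  · intro heq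
    have h7 : z ∈ Lam (ini (z + s • z2) A) := by rw [heq]; exact mem_Lam_ini z A
    have h8 := h7 e0 he0' f0 (hsub hf0)
    rw [(hface f0 hf0).1] at h8
    have := hpos e0 he0A he0b
    linarith

/-- a facet above the face `ini w A`. -/
theorem exists_facet {A : Pol k} (hA : A ≠ 0) {w : Fin k → ℝ} (hw : w ∉ Lam A) :
    ∃ z : Fin k → ℝ, z ∉ Lam A ∧ (ini w A).support ⊆ (ini z A).support ∧
      finrank ℝ (Lam (ini z A)) ≤ finrank ℝ (Lam A) + 1 := by
  classical
  obtain ⟨z, ⟨hz1, hz2⟩, hmin⟩ := (measure fun z : Fin k → ℝ => finrank ℝ (Lam (ini z A))).wf.has_min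
    {z : Fin k → ℝ | z ∉ Lam A ∧ (ini w A).support ⊆ (ini z A).support}
    ⟨w, hw, Finset.Subset.refl _⟩
  refine ⟨z, hz1, hz2, ?_⟩
  by_contra hcon
  push Not at hcon
  -- a functional outside `span z ⊔ Lam A`
  have hdim : finrank ℝ ((Submodule.span ℝ {z} ⊔ Lam A : Submodule ℝ (Fin k → ℝ))) ≤
      finrank ℝ (Lam A) + 1 := by
    have h1 := Submodule.finrank_sup_add_finrank_inf_eq (Submodule.span ℝ {z}) (Lam A)
    have h2 : finrank ℝ (Submodule.span ℝ ({z} : Set (Fin k → ℝ))) ≤ 1 :=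
      (finrank_span_le_card ({z} : Set (Fin k → ℝ))).trans (by simp)
    omega
  have hex : ∃ z2 ∈ Lam (ini z A), z2 ∉ Submodule.span ℝ {z} ⊔ Lam A := by
    by_contra h
    push Not at h
    have h1 : Lam (ini z A) ≤ Submodule.span ℝ {z} ⊔ Lam A := h
    have := Submodule.finrank_mono h1
    omega
  obtain ⟨z2, h2, h3⟩ := hex
  have hz2A : z2 ∉ Lam A := fun h => h3 (Submodule.mem_sup_right h)
  -- some exponent is not on the level of the face
  have hne : ∃ e ∈ A.support, wt z2 e ≠ ord z2 (ini z A) := by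
    by_contra h
    push Not at h
    exact hz2A fun j hj j' hj' => by rw [h j hj, h j' hj']
  obtain ⟨e, he, hne⟩ := hne
  have key : ∃ z' : Fin k → ℝ, z' ∉ Lam A ∧ (ini z A).support ⊆ (ini z' A).support ∧
      Lam (ini z' A) < Lam (ini z A) := by
    rcases lt_or_gt_of_ne hne with h | h
    · exact v2_step hA h2 h3 he h
    · refine v2_step hA (z2 := -z2) (Submodule.neg_mem _ h2)
        (fun h' => h3 ?_) he ?_
      · have := Submodule.neg_mem _ h'
        rwa [neg_neg] at this
      · rw [wt_neg, ord_neg_of_mem_Lam (ini_ne_zero z hA) h2]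
        linarith
  obtain ⟨z', h4, h5, h6⟩ := key
  exact hmin z' ⟨h4, hz2.trans h5⟩ (Submodule.finrank_lt_finrank_of_lt h6)

end CP
end Pool.Agent.MP_44c6d5_nt
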