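import Mathlib
import Pool.Agent.MP_44c6d5_nt.CP.B1

/-!
[V3] The width of a facet of a symmetric polynomial above the bottom face.
-/

namespace Pool.Agent.MP_44c6d5_nt
namespace CP

open MeasureTheory Real Module MvPolynomial

variable {k : ℕ}

theorem v3_wt {c : Fin k → ℕ} {e e' : Fin k →₀ ℕ} (h : ∀ i, e i + e' i = c i) (y : Fin k → ℝ) :
    wt y e + wt y e' = ∑ i, y i * (c i : ℝ) := by
  unfold wt
  rw [← Finset.sum_add_distrib]
  refine Finset.sum_congr rfl fun i _ => ?_
  rw [← h i]; push_cast; ring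

-- [V3] the width of a facet of a symmetric polynomial above the bottom face
theorem width_facet_lt {A : Pol k} (hA : A ≠ 0) {c : Fin k → ℕ}
    (hc : ∀ e ∈ A.support, ∃ e' ∈ A.support, ∀ i, e i + e' i = c i) {v : Fin k → ℤ}
    {z : Fin k → ℝ} (hz : z ∉ Lam A) (hs : (ini (rl v) A).support ⊆ (ini z A).support) :
    wd' v (ini z A) < wd' v A := by
  by_contra hcon
  rw [not_lt] at hcon
  have hI := ini_ne_zero z hA
  have h1 := wd'_cast v hA
  have h2 := wd'_cast v hI
  have h3 := ordZ_ini_ge v z hA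
  have h4 := ordZ_ini_ge (-v) z hA
  have h5 : ordZ (-v) (ini z A) = ordZ (-v) A := by omega
  obtain ⟨e1, he1, he1'⟩ := exists_ordZ (-v) hI
  rw [h5] at he1'
  have he1A := (mem_support_ini.mp he1).1
  have he1z := (mem_support_ini.mp he1).2
  obtain ⟨e2, he2, h12⟩ := hc e1 he1A
  have hmin : wt (rl v) e2 = ord (rl v) A := by
    refine le_antisymm (le_ord hA fun f hf => ?_) (ord_le _ he2)
    obtain ⟨f', hf', hff⟩ := hc f hf
    have h6 := v3_wt h12 (rl v)
    have h7 := v3_wt hff (rl v)
    have h8 : wt (rl v) f' ≤ wt (rl v) e1 := by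
      rw [wt_rl, wt_rl]
      have h9 := ordZ_le (l := -v) hf'
      rw [← he1', wtZ_neg', wtZ_neg'] at h9
      have : wtZ v f' ≤ wtZ v e1 := by omega
      exact_mod_cast this
    linarith
  have he2z := (mem_support_ini.mp (hs (mem_support_ini.mpr ⟨he2, hmin⟩))).2
  have hsum := v3_wt h12 z
  apply hz
  have key : ∀ f ∈ A.support, wt z f = ord z A := by
    intro f hf
    obtain ⟨f', hf', hff⟩ := hc f hf
    have h6 := v3_wt hff z
    have h7 := ord_le z hf
    have h8 := ord_le z hf'
    linarith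
  rw [mem_Lam]
  intro j hj j' hj'
  rw [key j hj, key j' hj']

end CP
end Pool.Agent.MP_44c6d5_nt
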