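import Mathlib
import Pool.Agent.MP_44c6d5_nt.CP.DefV
import Pool.Agent.MP_44c6d5_nt.CP.B1
import Pool.Agent.MP_44c6d5_nt.CP.C4
import Pool.Agent.MP_44c6d5_nt.CP.C8
import Pool.Agent.MP_44c6d5_nt.CP.E1
import Pool.Agent.MP_44c6d5_nt.CP.V1
import Pool.Agent.MP_44c6d5_nt.CP.V2
import Pool.Agent.MP_44c6d5_nt.CP.V3
import Pool.Agent.MP_44c6d5_nt.MV.V1

/-!
Row V4 (helper7): the dimension of the bottom face.
-/

namespace Pool.Agent.MP_44c6d5_nt
namespace CP

open MeasureTheory Real Module MvPolynomial Filter Topology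

variable {k : ℕ}

/-- a face of a face is a face -/
theorem v4_face_face {F : Pol k} (hF : F ≠ 0) (y z : Fin k → ℝ) :
    ∃ y' : Fin k → ℝ, ini y (ini z F) = ini y' F := by
  have hc : Tendsto (fun s : ℝ => s • y) (𝓝[>] 0) (𝓝 0) := by
    have : Tendsto (fun s : ℝ => s • y) (𝓝 0) (𝓝 ((0 : ℝ) • y)) :=
      (continuous_id.smul continuous_const).tendsto 0
    rw [zero_smul] at this
    exact this.mono_left nhdsWithin_le_nhds
  obtain ⟨s, hs1, hs0⟩ := ((hc.eventually (perturb z hF)).and self_mem_nhdsWithin).exists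
  have hs0 : 0 < s := hs0
  exact ⟨z + s • y, by rw [hs1.1, e1_ini_smul hs0]⟩

theorem v4_ini_zero {F : Pol k} (hF : F ≠ 0) : ini (0 : Fin k → ℝ) F = F :=
  (ini_eq_self_iff hF).mpr (Lam F).zero_mem

theorem v4_aux {M : ℝ} (v : Fin k → ℤ) : ∀ (n : ℕ) (F : Pol k), F ≠ 0 → mm F ≤ M →
    ∀ S : Finset ℕ, S.card ≤ n → (∀ y : Fin k → ℝ, wd' v (ini y F) = 0 ∨ wd' v (ini y F) ∈ S) →
    (finrank ℝ (Lam (ini (rl v) F)) : ℝ) ≤
      finrank ℝ (Lam F) + (2 * CN M + 1) * S.card + CN M := by
  classical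
  intro n
  induction n with
  | zero =>
    intro F hF hM S hn hS
    have hM0 : 0 ≤ M := (mm_nonneg hF).trans hM
    have hC := c8_CN_nonneg hM0
    have hS0 : S = ∅ := Finset.card_eq_zero.mp (Nat.le_zero.mp hn)
    have h0 : wd' v F = 0 := by
      have := hS 0
      rw [v4_ini_zero hF, hS0] at this
      simpa using this
    have h1 : rl v ∈ Lam F := by
      by_contra h
      have := (wd'_pos_iff v hF).mpr h
      omega
    rw [(ini_eq_self_iff hF).mpr h1]
    have h2 : 0 ≤ (2 * CN M + 1) * (S.card : ℝ) := by positivity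
    linarith
  | succ n ih =>
    intro F hF hM S hn hS
    have hM0 : 0 ≤ M := (mm_nonneg hF).trans hM
    have hC := c8_CN_nonneg hM0
    have h2 : 0 ≤ (2 * CN M + 1) * (S.card : ℝ) := by positivity
    by_cases hw0 : wd' v F = 0
    · have h1 : rl v ∈ Lam F := by
        by_contra h
        have := (wd'_pos_iff v hF).mpr h
        omega
      rw [(ini_eq_self_iff hF).mpr h1]
      linarith
    have hwS : wd' v F ∈ S := by
      have := hS 0
      rw [v4_ini_zero hF] at this
      exact this.resolve_left hw0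
    obtain ⟨A, B, hA, hB, hFAB, hgood, hbad, _⟩ := split_recip hF
    have hmB : mm B ≤ M := by
      have h3 := mm_mul hA hB
      rw [← hFAB] at h3
      have h4 := mm_nonneg hA
      linarith
    have hcB := codim_nonrecip hB hbad hmB
    have hLF : Lam F = Lam A ⊓ Lam B := by rw [hFAB, Lam_mul hA hB]
    have hi1 : (finrank ℝ (Lam A) : ℝ) + finrank ℝ (Lam B) ≤ finrank ℝ (Lam F) + k := by
      have h3 := finrank_inf_ge (Lam A) (Lam B)
      rw [← hLF] at h3
      exact_mod_cast h3
    have hiv : ini (rl v) F = ini (rl v) A * ini (rl v) B := by rw [hFAB, ini_mul _ hA hB]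
    have hAv := ini_ne_zero (rl v) hA
    have hBv := ini_ne_zero (rl v) hB
    have hLv : (finrank ℝ (Lam (ini (rl v) F)) : ℝ) ≤ finrank ℝ (Lam (ini (rl v) A)) := by
      rw [hiv, Lam_mul hAv hBv]
      exact_mod_cast Submodule.finrank_mono inf_le_left
    by_cases hvA : rl v ∈ Lam A
    · rw [(ini_eq_self_iff hA).mpr hvA] at hLv
      linarith
    obtain ⟨z, hz, hzs, hzf⟩ := exists_facet hA hvA
    obtain ⟨c, hc⟩ := symm_support hA hgood
    have hwz := width_facet_lt hA hc hz hzs
    have hAz := ini_ne_zero z hA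
    have hBz := ini_ne_zero z hB
    have hFz : ini z F = ini z A * ini z B := by rw [hFAB, ini_mul _ hA hB]
    have hFz0 := ini_ne_zero z hF
    have hwF' : wd' v (ini z F) < wd' v F := by
      have h3 : wd' v (ini z F) = wd' v (ini z A) + wd' v (ini z B) := by
        rw [hFz, wd'_mul v hAz hBz]
      have h4 : wd' v F = wd' v A + wd' v B := by rw [hFAB, wd'_mul v hA hB]
      have h5 := wd'_ini_le v z hB
      omega
    have hcard : ((S.erase (wd' v F)).card : ℝ) = S.card - 1 := by
      rw [Finset.card_erase_of_mem hwS]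
      have h3 : 1 ≤ S.card := Finset.card_pos.mpr ⟨_, hwS⟩
      rw [Nat.cast_sub h3, Nat.cast_one]
    have hIH := ih (ini z F) hFz0 ((mm_ini_le z hF).trans hM) (S.erase (wd' v F))
      (by rw [Finset.card_erase_of_mem hwS]; omega) (by
        intro y
        obtain ⟨y', hy'⟩ := v4_face_face hF y z
        rcases hS y' with h | h
        · left; rw [hy']; exact h
        · right
          rw [hy']
          refine Finset.mem_erase.mpr ⟨?_, h⟩
          have h3 := wd'_ini_le v y hFz0
          rw [hy'] at h3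
          omega)
    rw [hcard] at hIH
    have hLF' : (finrank ℝ (Lam (ini z F)) : ℝ) ≤ finrank ℝ (Lam A) + 1 := by
      have h3 : finrank ℝ (Lam (ini z F)) ≤ finrank ℝ (Lam (ini z A)) := by
        rw [hFz, Lam_mul hAz hBz]
        exact Submodule.finrank_mono inf_le_left
      exact_mod_cast h3.trans hzf
    have hvz : ini (rl v) (ini z A) = ini (rl v) A := ini_ini_of_subset hA hzs
    have hi2 : (finrank ℝ (Lam (ini (rl v) A)) : ℝ) + finrank ℝ (Lam B) ≤
        finrank ℝ (Lam (ini (rl v) (ini z F))) + k := by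
      have h3 := finrank_inf_ge (Lam (ini (rl v) A)) (Lam B)
      have h4 : Lam (ini (rl v) A) ⊓ Lam B ≤ Lam (ini (rl v) (ini z F)) := by
        rw [hFz, ini_mul _ hAz hBz, hvz, Lam_mul hAv (ini_ne_zero _ hBz)]
        exact inf_le_inf_left _ ((Lam_le_Lam_ini z B).trans (Lam_le_Lam_ini _ _))
      have h5 := Submodule.finrank_mono h4
      have : finrank ℝ (Lam (ini (rl v) A)) + finrank ℝ (Lam B) ≤
        finrank ℝ (Lam (ini (rl v) (ini z F))) + k := by omega
      exact_mod_cast this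
    nlinarith

/-- [V4] the dimension of the bottom face. -/
theorem drop_bound {F : Pol k} (hF : F ≠ 0) {M : ℝ} (hM : mm F ≤ M) (v : Fin k → ℤ)
    (S : Finset ℕ) (hS : ∀ y : Fin k → ℝ, wd' v (ini y F) = 0 ∨ wd' v (ini y F) ∈ S) :
    (finrank ℝ (Lam (ini (rl v) F)) : ℝ) ≤
      finrank ℝ (Lam F) + (2 * CN M + 1) * S.card + CN M :=
  v4_aux v S.card F hF hM S le_rfl hS

end CP
end Pool.Agent.MP_44c6d5_nt
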