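import Mathlib
import Pool.Agent.MP_44c6d5_nt.CP.DefV

/-!
Linear algebra of functionals which are independent on a polynomial.
-/

namespace Pool.Agent.MP_44c6d5_nt
namespace CP

open Real Module MvPolynomial

variable {k : ℕ} {n : ℕ}

/-- independence modulo a subspace -/
private def IM {V : Type*} [AddCommGroup V] [Module ℝ V] (U : Submodule ℝ V) (b : Fin n → V)
    (J : Finset (Fin n)) : Prop :=
  ∀ c : Fin n → ℝ, (∀ j, j ∉ J → c j = 0) → (∑ j, c j • b j) ∈ U → ∀ j, c j = 0

private theorem im_card {V : Type*} [AddCommGroup V] [Module ℝ V] [FiniteDimensional ℝ V]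
    {U W : Submodule ℝ V} {b : Fin n → V} {T : Finset (Fin n)} (hT : IM U b T) (hUW : U ≤ W)
    (hb : ∀ j ∈ T, b j ∈ W) : T.card + finrank ℝ U ≤ finrank ℝ W := by
  classical
  let f : ((T → ℝ) × U) →ₗ[ℝ] V :=
    (∑ j : T, (LinearMap.toSpanSingleton ℝ V (b j)).comp ((LinearMap.proj j).comp
      (LinearMap.fst ℝ (T → ℝ) U))) + U.subtype.comp (LinearMap.snd ℝ (T → ℝ) U)
  have hf : ∀ p, f p = (∑ j : T, p.1 j • b j) + p.2 := by
    intro p
    simp [f, LinearMap.toSpanSingleton_apply]
  have hsum : ∀ c : T → ℝ, (∑ j : T, c j • b j) =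
      ∑ j, (if h : j ∈ T then c ⟨j, h⟩ else 0) • b j := by
    intro c
    rw [← Finset.sum_subset (Finset.subset_univ T), ← Finset.sum_coe_sort T]
    · refine Finset.sum_congr rfl fun j _ => ?_
      simp
    · intro j _ hj
      simp [hj]
  have hfW : ∀ p, f p ∈ W := by
    intro p
    rw [hf]
    refine W.add_mem (W.sum_mem fun j _ => W.smul_mem _ (hb j j.2)) (hUW p.2.2)
  let g : ((T → ℝ) × U) →ₗ[ℝ] W := f.codRestrict W hfW
  have hg : Function.Injective g := by
    rw [← LinearMap.ker_eq_bot, LinearMap.ker_eq_bot']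
    intro p hp
    have h0 : f p = 0 := by
      have := congrArg (fun w : W => (w : V)) hp
      simpa [g] using this
    rw [hf, hsum] at h0
    have h1 : (∑ j, (if h : j ∈ T then p.1 ⟨j, h⟩ else 0) • b j) ∈ U := by
      rw [eq_neg_of_add_eq_zero_left h0]
      exact U.neg_mem p.2.2
    have h2 := hT _ (fun j hj => by simp [hj]) h1
    have h3 : p.1 = 0 := by
      funext j
      have := h2 j
      simpa using this
    have h4 : p.2 = 0 := by
      have h5 : (∑ j, (if h : j ∈ T then p.1 ⟨j, h⟩ else 0) • b j) = 0 :=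
        Finset.sum_eq_zero fun j _ => by rw [h2 j, zero_smul]
      rw [h5, zero_add] at h0
      exact_mod_cast h0
    exact Prod.ext h3 h4
  have h := LinearMap.finrank_le_finrank_of_injective hg
  rw [finrank_prod, finrank_fintype_fun_eq_card, Fintype.card_coe] at h
  exact h

private theorem im_max {V : Type*} [AddCommGroup V] [Module ℝ V]
    (U : Submodule ℝ V) (b : Fin n → V) (J : Finset (Fin n)) :
    ∃ J' ⊆ J, IM U b J' ∧ ∀ j ∈ J, b j ∈ Submodule.span ℝ (b '' J') ⊔ U := by
  classical
  have hne : (J.powerset.filter fun S => IM U b S).Nonempty :=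
    ⟨∅, by
      rw [Finset.mem_filter]
      exact ⟨by simp, fun c hc _ j => hc j (by simp)⟩⟩
  obtain ⟨J', hJ', hmax⟩ := Finset.exists_max_image _ Finset.card hne
  rw [Finset.mem_filter, Finset.mem_powerset] at hJ'
  refine ⟨J', hJ'.1, hJ'.2, fun j hj => ?_⟩
  by_cases hjJ : j ∈ J'
  · exact Submodule.mem_sup_left (Submodule.subset_span ⟨j, hjJ, rfl⟩)
  · have hn : ¬ IM U b (insert j J') := by
      intro hI
      have := hmax (insert j J') (by
        rw [Finset.mem_filter, Finset.mem_powerset]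
        exact ⟨Finset.insert_subset hj hJ'.1, hI⟩)
      rw [Finset.card_insert_of_notMem hjJ] at this
      omega
    unfold IM at hn
    push Not at hn
    obtain ⟨c, hc, hcU, j0, hj0⟩ := hn
    have hcj : c j ≠ 0 := by
      intro h0
      refine hj0 (hJ'.2 c (fun i hi => ?_) hcU j0)
      by_cases hij : i = j
      · rw [hij]; exact h0
      · exact hc i (by simp [hij, hi])
    have hsum : (∑ i, c i • b i) = c j • b j + ∑ i ∈ J', c i • b i := by
      rw [← Finset.sum_subset (Finset.subset_univ (insert j J')), Finset.sum_insert hjJ]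
      intro i _ hi
      rw [hc i hi, zero_smul]
    have hbj : b j = (c j)⁻¹ • ((∑ i, c i • b i) - ∑ i ∈ J', c i • b i) := by
      rw [hsum, add_sub_cancel_right, smul_smul, inv_mul_cancel₀ hcj, one_smul]
    rw [hbj]
    refine Submodule.smul_mem _ _ (Submodule.sub_mem _ (Submodule.mem_sup_right hcU) ?_)
    refine Submodule.mem_sup_left (Submodule.sum_mem _ fun i hi => Submodule.smul_mem _ _
      (Submodule.subset_span ⟨i, hi, rfl⟩))

theorem IndM_mono {F F' : Pol k} {v : Fin n → Fin k → ℤ} {J : Finset (Fin n)} (hJ : IndM F v J)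
    (hle : Lam F ≤ Lam F') : ∃ J' ⊆ J, IndM F' v J' ∧
      J.card + finrank ℝ (Lam F) ≤ J'.card + finrank ℝ (Lam F') := by
  classical
  obtain ⟨J', hJ', hI, hspan⟩ := im_max (Lam F') (fun j => rl (v j)) J
  refine ⟨J', hJ', hI, ?_⟩
  have h1 := im_card (U := Lam F) (W := Submodule.span ℝ ((fun j => rl (v j)) '' J') ⊔ Lam F')
    (b := fun j => rl (v j)) (T := J) hJ (hle.trans le_sup_right) hspan
  have h2 : finrank ℝ ((Submodule.span ℝ ((fun j => rl (v j)) '' (J' : Set (Fin n))) ⊔ Lam F' :
      Submodule ℝ (Fin k → ℝ))) ≤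
      finrank ℝ (Submodule.span ℝ ((fun j => rl (v j)) '' (J' : Set (Fin n)))) +
        finrank ℝ (Lam F') := Submodule.finrank_add_le_finrank_add_finrank _ _
  have h3 : finrank ℝ (Submodule.span ℝ ((fun j => rl (v j)) '' (J' : Set (Fin n)))) ≤
      J'.card := by
    rw [← Finset.coe_image]
    exact (finrank_span_finset_le_card _).trans Finset.card_image_le
  omega

theorem IndM_card {F F' : Pol k} {v : Fin n → Fin k → ℤ} {J : Finset (Fin n)} (hJ : IndM F v J)
    (hle : Lam F ≤ Lam F') {T : Finset (Fin n)} (hT : T ⊆ J) (hc : ∀ j ∈ T, rl (v j) ∈ Lam F') :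
    T.card + finrank ℝ (Lam F) ≤ finrank ℝ (Lam F') :=
  im_card (b := fun j => rl (v j)) (fun c h0 h1 => hJ c (fun j hj => h0 j fun h => hj (hT h)) h1)
    hle hc

theorem IndM_notMem {F : Pol k} {v : Fin n → Fin k → ℤ} {J : Finset (Fin n)} (hJ : IndM F v J)
    {j : Fin n} (hj : j ∈ J) : rl (v j) ∉ Lam F := by
  intro h
  have := hJ (Pi.single j 1) (fun i hi => by
    rw [Pi.single_apply, if_neg]
    rintro rfl
    exact hi hj) (by
      rw [Finset.sum_eq_single j]
      · simpa using h
      · intro i _ hij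
        simp [hij]
      · simp) j
  simp at this

end CP
end Pool.Agent.MP_44c6d5_nt
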