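import Mathlib
import Pool.Agent.MP_44c6d5_nt.CP.DefV
import Pool.Agent.MP_44c6d5_nt.CP.B1
import Pool.Agent.MP_44c6d5_nt.CP.F1
import Pool.Agent.MP_44c6d5_nt.CP.V5

/-!
[V6] The minimal list: a minimiser of a weighted sum of the Mahler measure of the iterated face,
the number of functionals used and the total logarithmic width.
-/

namespace Pool.Agent.MP_44c6d5_nt
namespace CP

open MeasureTheory Real Module MvPolynomial

variable {k : ℕ} {n : ℕ}

/-- the abstract form of the choice. -/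
theorem v6_aux {n : ℕ} (f : List (Fin n) → ℝ) (W : List (Fin n) → Fin n → ℝ) (D : Fin n → ℝ)
    {M B E : ℝ} (hB : 1 ≤ B) (hE : 1 ≤ E) (hf0 : ∀ L, 0 ≤ f L)
    (hfM : f [] ≤ M) (hfm : ∀ L R, f (R ++ L) ≤ f L)
    (hD : ∀ j, 1 ≤ D j) (hW0 : ∀ L j, 0 ≤ W L j) (hWD : ∀ L j, W L j ≤ D j)
    (hWm : ∀ L R j, W (R ++ L) j ≤ W L j)
    (hWB : ∀ (L : List (Fin n)) (j : Fin n), 1 ≤ W L j → D j ≤ B * W L j) :
    ∃ L : List (Fin n), 2 * E * L.length ≤ n ∧
      ∀ (J : Finset (Fin n)) (R : List (Fin n)),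
        (f L - f (R ++ L)) * n ≤ 4 * E * R.length * (M + 1) ∧
        ∑ j ∈ J.filter (fun j => 1 ≤ W (R ++ L) j),
          log (W L j / W (R ++ L) j) ≤ 4 * E * R.length * log (2 * B) := by
  classical
  have hM0 : 0 ≤ M := (hf0 []).trans hfM
  have hM1 : 0 < M + 1 := by linarith
  have hn0 : (0 : ℝ) ≤ n := Nat.cast_nonneg n
  have hB0 : 0 < 2 * B := by linarith
  obtain ⟨Λ, hΛd⟩ : ∃ Λ : ℝ, Λ = log (2 * B) := ⟨_, rfl⟩
  have hΛ : 0 < Λ := by rw [hΛd]; exact log_pos (by linarith)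
  obtain ⟨c, hcd⟩ : ∃ c : ℝ, c = n / (M + 1) := ⟨_, rfl⟩
  have hc0 : 0 ≤ c := by rw [hcd]; positivity
  have hcM : c * (M + 1) = n := by rw [hcd, div_mul_cancel₀ _ hM1.ne']
  have hD0 : ∀ j, 0 < D j := fun j => lt_of_lt_of_le one_pos (hD j)
  -- the potential
  obtain ⟨θ, hθ⟩ : ∃ θ : List (Fin n) → Fin n → ℝ,
      θ = fun L j => max 0 (log (2 * B * W L j / D j)) := ⟨_, rfl⟩
  have hθ0 : ∀ L j, 0 ≤ θ L j := fun L j => by rw [hθ]; exact le_max_left _ _
  have hθ1 : ∀ L j, θ L j ≤ Λ := by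
    intro L j
    rw [hθ]
    refine max_le hΛ.le ?_
    rcases (hW0 L j).eq_or_lt with h0 | h0
    · rw [← h0, mul_zero, zero_div, log_zero]
      exact hΛ.le
    · rw [hΛd]
      refine log_le_log (div_pos (mul_pos hB0 h0) (hD0 j)) ?_
      rw [div_le_iff₀ (hD0 j)]
      exact mul_le_mul_of_nonneg_left (hWD L j) hB0.le
  have hθm : ∀ L R j, θ (R ++ L) j ≤ θ L j := by
    intro L R j
    rw [hθ]
    simp only
    rcases (hW0 (R ++ L) j).eq_or_lt with h0 | h0
    · rw [← h0, mul_zero, zero_div, log_zero, max_self]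
      exact le_max_left _ _
    · refine max_le_max le_rfl ?_
      refine log_le_log (div_pos (mul_pos hB0 h0) (hD0 j)) ?_
      exact div_le_div_of_nonneg_right (mul_le_mul_of_nonneg_left (hWm L R j) hB0.le) (hD0 j).le
  obtain ⟨Θ, hΘ⟩ : ∃ Θ : List (Fin n) → ℝ, Θ = fun L => ∑ j, θ L j := ⟨_, rfl⟩
  have hΘ0 : ∀ L, 0 ≤ Θ L := by
    intro L
    rw [hΘ]
    exact Finset.sum_nonneg fun j _ => hθ0 L j
  have hΘ1 : Θ [] ≤ n * Λ := by
    have h1 : Θ [] ≤ (Finset.univ : Finset (Fin n)).card • Λ := by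
      rw [hΘ]
      exact Finset.sum_le_card_nsmul _ _ _ fun j _ => hθ1 [] j
    rwa [Finset.card_univ, Fintype.card_fin, nsmul_eq_mul] at h1
  have hΘm : ∀ L R : List (Fin n), Θ (R ++ L) ≤ Θ L := by
    intro L R
    rw [hΘ]
    exact Finset.sum_le_sum fun j _ => hθm L R j
  -- the minimiser
  obtain ⟨Φ, hΦ⟩ : ∃ Φ : List (Fin n) → ℝ,
      Φ = fun L => c * f L + 4 * E * (L.length : ℝ) + Θ L / Λ := ⟨_, rfl⟩
  have hcf : ∀ L, 0 ≤ c * f L := fun L => mul_nonneg hc0 (hf0 L)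
  have hΘΛ : ∀ L, 0 ≤ Θ L / Λ := fun L => div_nonneg (hΘ0 L) hΛ.le
  have hΦ0 : Φ [] ≤ 2 * n := by
    have h2 : Θ [] / Λ ≤ n := by
      rw [div_le_iff₀ hΛ]
      exact hΘ1
    have h3 : c * f [] ≤ c * (M + 1) := mul_le_mul_of_nonneg_left (by linarith) hc0
    rw [hΦ]
    simp only [List.length_nil, Nat.cast_zero, mul_zero, add_zero]
    linarith
  have hfin : {L : List (Fin n) | L.length ≤ n}.Finite := List.finite_length_le (Fin n) n
  obtain ⟨L, hLmem, hL⟩ := Finset.exists_min_image hfin.toFinset Φ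
    ⟨[], by rw [Set.Finite.mem_toFinset]; simp⟩
  have hL0 : Φ L ≤ 2 * n := (hL [] (by rw [Set.Finite.mem_toFinset]; simp)).trans hΦ0
  have hmin : ∀ L' : List (Fin n), Φ L ≤ Φ L' := by
    intro L'
    by_cases h : L'.length ≤ n
    · exact hL L' (by rw [Set.Finite.mem_toFinset]; exact h)
    · refine hL0.trans ?_
      have h1 := hcf L'
      have h3 := hΘΛ L'
      have h4 : (n : ℝ) ≤ L'.length := by exact_mod_cast (not_le.mp h).le
      have h5 : (L'.length : ℝ) ≤ E * L'.length := le_mul_of_one_le_left (Nat.cast_nonneg _) hE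
      rw [hΦ]
      simp only
      linarith
  refine ⟨L, ?_, ?_⟩
  · have h1 := hcf L
    have h3 := hΘΛ L
    rw [hΦ] at hL0
    simp only at hL0
    linarith
  · intro J R
    have h1 := hmin (R ++ L)
    rw [hΦ] at h1
    simp only [List.length_append, Nat.cast_add] at h1
    have h3 : c * (f L - f (R ++ L)) + (Θ L - Θ (R ++ L)) / Λ ≤ 4 * E * R.length := by
      have h4 : (Θ L - Θ (R ++ L)) / Λ = Θ L / Λ - Θ (R ++ L) / Λ := sub_div _ _ _
      rw [h4]
      linarith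
    have h4 : 0 ≤ c * (f L - f (R ++ L)) := mul_nonneg hc0 (by linarith [hfm L R])
    have h5 : 0 ≤ (Θ L - Θ (R ++ L)) / Λ := div_nonneg (by linarith [hΘm L R]) hΛ.le
    constructor
    · have h6 : c * (f L - f (R ++ L)) ≤ 4 * E * R.length := by linarith
      calc (f L - f (R ++ L)) * n = (c * (f L - f (R ++ L))) * (M + 1) := by
            rw [← hcM]; ring
        _ ≤ 4 * E * R.length * (M + 1) := mul_le_mul_of_nonneg_right h6 hM1.le
    · have h6 : Θ L - Θ (R ++ L) ≤ 4 * E * R.length * Λ := by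
        rw [← div_le_iff₀ hΛ]
        linarith
      rw [← hΛd]
      have h7 : Θ L - Θ (R ++ L) = ∑ j, (θ L j - θ (R ++ L) j) := by
        rw [Finset.sum_sub_distrib, hΘ]
      rw [h7] at h6
      refine le_trans ?_ h6
      refine le_trans (le_of_eq ?_)
        (Finset.sum_le_sum_of_subset_of_nonneg
          (Finset.subset_univ (J.filter fun j => 1 ≤ W (R ++ L) j))
          fun j _ _ => by linarith [hθm L R j])
      refine Finset.sum_congr rfl fun j hj => ?_
      have a1 : 1 ≤ W (R ++ L) j := (Finset.mem_filter.mp hj).2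
      have a2 := hWB (R ++ L) j a1
      have a3 := hD0 j
      have a5 : 0 < W (R ++ L) j := by linarith
      have a4 : D j ≤ 2 * B * W (R ++ L) j := by nlinarith
      have a6 : 0 < W L j := lt_of_lt_of_le a5 (hWm L R j)
      have b1 : 0 ≤ log (2 * B * W (R ++ L) j / D j) :=
        log_nonneg ((one_le_div a3).mpr a4)
      have b2 : 0 ≤ log (2 * B * W L j / D j) :=
        log_nonneg ((one_le_div a3).mpr (a4.trans
          (mul_le_mul_of_nonneg_left (hWm L R j) hB0.le)))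
      rw [hθ]
      simp only
      rw [max_eq_right b1, max_eq_right b2, log_div a6.ne' a5.ne',
        log_div (mul_pos hB0 a6).ne' a3.ne', log_div (mul_pos hB0 a5).ne' a3.ne',
        log_mul hB0.ne' a6.ne', log_mul hB0.ne' a5.ne']
      ring

/-- `Lam` only grows along the list. -/
theorem v6_Lam_le (G : Pol k) (v : Fin n → Fin k → ℤ) (L : List (Fin n)) :
    Lam G ≤ Lam (PL G v L) := by
  induction L with
  | nil => exact le_rfl
  | cons i L ih => exact ih.trans (Lam_le_Lam_ini _ _)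

theorem exists_LV {P G : Pol k} (hG : G ≠ 0) (v : Fin n → Fin k → ℤ)
    (hv : ∀ j, 1 ≤ wd' (v j) P) (hle : ∀ j, wd' (v j) G ≤ wd' (v j) P) {B : ℝ} (hB : 1 ≤ B)
    (hL : ∀ (L : List (Fin n)) (j : Fin n), 1 ≤ wd' (v j) (PL G v L) →
      (wd' (v j) P : ℝ) ≤ B * wd' (v j) (PL G v L)) {E : ℝ} (hE : 1 ≤ E)
    (hd : ∀ (L : List (Fin n)) (i : Fin n),
      (finrank ℝ (Lam (PL G v (i :: L))) : ℝ) ≤ finrank ℝ (Lam (PL G v L)) + E)
    (hI : IndM G v Finset.univ) {M : ℝ} (hM : mm G ≤ M) :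
    ∃ (L : List (Fin n)) (J : Finset (Fin n)), (n : ℝ) ≤ 2 * J.card ∧ IndM (PL G v L) v J ∧
      ∀ R : List (Fin n),
        (mm (PL G v L) - mm (PL G v (R ++ L))) * n ≤ 4 * E * R.length * (M + 1) ∧
        ∑ j ∈ J.filter (fun j => 1 ≤ wd' (v j) (PL G v (R ++ L))),
          log ((wd' (v j) (PL G v L) : ℝ) / wd' (v j) (PL G v (R ++ L))) ≤
          4 * E * R.length * log (2 * B) := by
  classical
  obtain ⟨L, hL1, hL2⟩ := v6_aux (fun L => mm (PL G v L))
    (fun L j => (wd' (v j) (PL G v L) : ℝ)) (fun j => (wd' (v j) P : ℝ)) hB hE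
    (fun L => mm_nonneg (PL_ne_zero hG v L)) hM
    (fun L R => (PL_mono hG v L R).1) (fun j => by exact_mod_cast hv j)
    (fun L j => Nat.cast_nonneg _)
    (fun L j => by
      have h := (PL_mono hG v [] L).2 (v j)
      rw [List.append_nil] at h
      exact_mod_cast h.trans (hle j))
    (fun L R j => by exact_mod_cast (PL_mono hG v L R).2 (v j))
    (fun L j h => hL L j (by exact_mod_cast h))
  obtain ⟨J, -, hJ2, hJ3⟩ := IndM_mono hI (v6_Lam_le G v L)
  have hrank : ∀ L : List (Fin n),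
      (finrank ℝ (Lam (PL G v L)) : ℝ) ≤ finrank ℝ (Lam G) + E * L.length := by
    intro L
    induction L with
    | nil =>
      rw [List.length_nil, Nat.cast_zero, mul_zero, add_zero]
      exact le_rfl
    | cons i L ih =>
      have h := hd L i
      rw [List.length_cons]
      push_cast
      linarith
  have hcard : (n : ℝ) ≤ 2 * J.card := by
    have h1 := hrank L
    rw [Finset.card_univ, Fintype.card_fin] at hJ3
    have h2 : (n : ℝ) + finrank ℝ (Lam G) ≤ J.card + finrank ℝ (Lam (PL G v L)) := by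
      exact_mod_cast hJ3
    linarith
  refine ⟨L, J, hcard, hJ2, fun R => ?_⟩
  obtain ⟨h1, h2⟩ := hL2 J R
  refine ⟨h1, ?_⟩
  refine le_trans (le_of_eq ?_) h2
  refine Finset.sum_congr ?_ fun _ _ => rfl
  ext j
  simp only [Finset.mem_filter, and_congr_right_iff]
  intro _
  exact_mod_cast Iff.rfl

end CP
end Pool.Agent.MP_44c6d5_nt
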