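import Mathlib
import Pool.Agent.MP_44c6d5_nt.CP.DefV
import Pool.Agent.MP_44c6d5_nt.CP.Def2
import Pool.Agent.MP_44c6d5_nt.CP.B1
import Pool.Agent.MP_44c6d5_nt.CP.C4
import Pool.Agent.MP_44c6d5_nt.CP.F1
import Pool.Agent.MP_44c6d5_nt.CP.F3
import Pool.Agent.MP_44c6d5_nt.CP.F5
import Pool.Agent.MP_44c6d5_nt.CP.V5

/-!
Row V7: the degree bound for independent functionals.
-/

namespace Pool.Agent.MP_44c6d5_nt
namespace CP

open MeasureTheory Real Module MvPolynomial

variable {k : ℕ} {n : ℕ}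

theorem v7_Lam_le {G : Pol k} (v : Fin n → Fin k → ℤ) (L : List (Fin n)) :
    ∀ R : List (Fin n), Lam (PL G v L) ≤ Lam (PL G v (R ++ L))
  | [] => le_refl _
  | _ :: R => (v7_Lam_le v L R).trans (Lam_le_Lam_ini _ _)

theorem v7_rank {G : Pol k} (v : Fin n → Fin k → ℤ) {E : ℝ}
    (hd : ∀ (L : List (Fin n)) (i : Fin n),
      (finrank ℝ (Lam (PL G v (i :: L))) : ℝ) ≤ finrank ℝ (Lam (PL G v L)) + E)
    (L : List (Fin n)) : ∀ R : List (Fin n),
      (finrank ℝ (Lam (PL G v (R ++ L))) : ℝ) ≤ finrank ℝ (Lam (PL G v L)) + R.length * E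
  | [] => by simp
  | a :: R => by
    have h1 := v7_rank v hd L R
    have h2 := hd (R ++ L) a
    have h3 : (a :: R) ++ L = a :: (R ++ L) := rfl
    rw [h3, List.length_cons]
    push_cast
    linarith

theorem degV {G : Pol k} (hG : G ≠ 0) (v : Fin n → Fin k → ℤ) {B : ℝ} (hB : 1 ≤ B) {E : ℝ}
    (hE : 1 ≤ E) (hd : ∀ (L : List (Fin n)) (i : Fin n),
      (finrank ℝ (Lam (PL G v (i :: L))) : ℝ) ≤ finrank ℝ (Lam (PL G v L)) + E)
    {M : ℝ} (hM : mm G ≤ M) {L : List (Fin n)} {J : Finset (Fin n)}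
    (hJ : IndM (PL G v L) v J)
    (hS : ∀ i ∈ J, ∀ j ∈ J, i ≠ j → mm (PL G v L) - mm (PL G v (j :: i :: L)) ≤ t0 M 2 / 32)
    (hlog : ∀ R : List (Fin n),
        ∑ j ∈ J.filter (fun j => 1 ≤ wd' (v j) (PL G v (R ++ L))),
          log ((wd' (v j) (PL G v L) : ℝ) / wd' (v j) (PL G v (R ++ L))) ≤
          4 * E * R.length * log (2 * B))
    {i : Fin n} (hi : i ∈ J) {E' C : Pol k} (hEC : PL G v L = E' * C) (hC : rl (v i) ∈ Lam C)
    (hEi : ∀ g, Irreducible g → g ∣ E' → rl (v i) ∉ Lam g) :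
    ∑ j ∈ J.erase i, (wd' (v j) E' : ℝ) / wd' (v j) (PL G v L) ≤
      (CN M + 1) * (E * (8 * log (2 * B) + 1)) := by
  classical
  have hF0 : PL G v L ≠ 0 := PL_ne_zero hG v L
  have hE0 : E' ≠ 0 := by
    rintro rfl
    rw [zero_mul] at hEC
    exact hF0 hEC
  have hC0 : C ≠ 0 := by
    rintro rfl
    rw [mul_zero] at hEC
    exact hF0 hEC
  have hmF : mm (PL G v L) ≤ M := by
    have h1 := (PL_mono hG v [] L).1
    rw [List.append_nil] at h1
    exact h1.trans hM
  obtain ⟨A', B', hA'0, hB'0, hAB, hBirr, hA'⟩ :=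
    decoupleF hF0 v hmF (J := J) (i := i) (fun j hj hji => hS i hi j hj (Ne.symm hji)) E'
      ⟨C, hEC⟩ hEi
  have hFi0 : PL G v (i :: L) ≠ 0 := PL_ne_zero hG v _
  have hFi : PL G v (i :: L) = A' * B' * C := by
    show ini (rl (v i)) (PL G v L) = A' * B' * C
    rw [hEC, ini_mul _ hE0 hC0, hAB, (ini_eq_self_iff hC0).mpr hC]
  have hBd : B' ∣ PL G v (i :: L) := ⟨A' * C, by rw [hFi]; ring⟩
  have hmB : mm B' ≤ M := by
    have h1 := (PL_mono hG v [] (i :: L)).1
    rw [List.append_nil] at h1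
    exact (mm_dvd_le hFi0 hBd).trans (h1.trans hM)
  have hcod : (k : ℝ) - finrank ℝ (Lam B') ≤ CN M := codim_nonrecip hB'0 hBirr hmB
  obtain ⟨R', hRJ, hRk, hRw⟩ := killF hFi0 v (J.erase i) B' hBd
  have hRc : (R'.length : ℝ) ≤ CN M := by
    have : (R'.length : ℝ) + finrank ℝ (Lam B') ≤ k := by exact_mod_cast hRk
    linarith
  have hWd : ∀ j : Fin n, wd' (v j) (PL G v L) = wd' (v j) E' + wd' (v j) C := by
    intro j
    rw [hEC, wd'_mul _ hE0 hC0]
  -- the list `R`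
  obtain ⟨R, hRdef⟩ : ∃ R : List (Fin n), R = R' ++ [i] := ⟨_, rfl⟩
  have hRL : R ++ L = R' ++ i :: L := by rw [hRdef]; simp
  have hRlen : (R.length : ℝ) = R'.length + 1 := by rw [hRdef]; simp
  have hlogB : 0 ≤ log (2 * B) := log_nonneg (by linarith)
  have hle1 : ∀ j, (wd' (v j) E' : ℝ) / wd' (v j) (PL G v L) ≤ 1 := by
    intro j
    have h3 := hWd j
    apply div_le_one_of_le₀
    · exact_mod_cast (by omega)
    · positivity
  -- positive widths
  have hposR : ∀ j, 1 ≤ wd' (v j) (PL G v (R ++ L)) → j ∉ R := by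
    intro j hj hjR
    have h1 := wd'_PL_zero hG v (L := R ++ L) (i := j) (List.mem_append_left _ hjR)
    omega
  have hT1 : ∑ j ∈ (J.erase i).filter (fun j => 1 ≤ wd' (v j) (PL G v (R ++ L))),
      (wd' (v j) E' : ℝ) / wd' (v j) (PL G v L) ≤ 8 * E * R.length * log (2 * B) := by
    have hset : (J.erase i).filter (fun j => 1 ≤ wd' (v j) (PL G v (R ++ L))) =
        J.filter (fun j => 1 ≤ wd' (v j) (PL G v (R ++ L))) := by
      ext j
      simp only [Finset.mem_filter, Finset.mem_erase]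
      constructor
      · rintro ⟨⟨_, h1⟩, h2⟩
        exact ⟨h1, h2⟩
      · rintro ⟨h1, h2⟩
        refine ⟨⟨?_, h1⟩, h2⟩
        rintro rfl
        exact hposR j h2 (by rw [hRdef]; simp)
    have hpt : ∀ j ∈ J.filter (fun j => 1 ≤ wd' (v j) (PL G v (R ++ L))),
        (wd' (v j) E' : ℝ) / wd' (v j) (PL G v L) ≤
          2 * log ((wd' (v j) (PL G v L) : ℝ) / wd' (v j) (PL G v (R ++ L))) := by
      intro j hj
      obtain ⟨hjJ, hj1⟩ := Finset.mem_filter.mp hj
      have hjR := hposR j hj1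
      have hji : j ≠ i := by
        rintro rfl
        exact hjR (by rw [hRdef]; simp)
      have hjR' : j ∉ R' := fun h => hjR (by rw [hRdef]; exact List.mem_append_left _ h)
      have h1 := hRw j (Finset.mem_erase.mpr ⟨hji, hjJ⟩) hjR'
      rw [← PL_append, hFi, wd'_mul _ (mul_ne_zero hA'0 hB'0) hC0, wd'_mul _ hA'0 hB'0,
        ← hRL] at h1
      have h2 := hA' j hjJ hji
      have h3 := hWd j
      have h4 := (PL_mono hG v L R).2 (v j)
      have ha' : (0 : ℝ) < wd' (v j) (PL G v (R ++ L)) := by exact_mod_cast hj1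
      have hb' : (0 : ℝ) < wd' (v j) (PL G v L) := by
        exact_mod_cast (by omega : 0 < wd' (v j) (PL G v L))
      have h7 : 2 * wd' (v j) (PL G v (R ++ L)) + wd' (v j) E' ≤
          2 * wd' (v j) (PL G v L) := by omega
      have h8 : 2 * (wd' (v j) (PL G v (R ++ L)) : ℝ) + wd' (v j) E' ≤
          2 * wd' (v j) (PL G v L) := by exact_mod_cast h7
      set a : ℝ := (wd' (v j) (PL G v (R ++ L)) : ℝ) with ha
      set b : ℝ := (wd' (v j) (PL G v L) : ℝ) with hb
      have h9 : 1 - (b / a)⁻¹ ≤ log (b / a) := one_sub_inv_le_log_of_pos (div_pos hb' ha')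
      rw [inv_div] at h9
      have h10 : (wd' (v j) E' : ℝ) / b ≤ 2 * (1 - a / b) := by
        rw [div_le_iff₀ hb']
        have : 2 * (1 - a / b) * b = 2 * b - 2 * a := by
          field_simp
        rw [this]
        linarith
      linarith
    rw [hset]
    calc ∑ j ∈ J.filter (fun j => 1 ≤ wd' (v j) (PL G v (R ++ L))),
          (wd' (v j) E' : ℝ) / wd' (v j) (PL G v L)
        ≤ ∑ j ∈ J.filter (fun j => 1 ≤ wd' (v j) (PL G v (R ++ L))),
          2 * log ((wd' (v j) (PL G v L) : ℝ) / wd' (v j) (PL G v (R ++ L))) :=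
          Finset.sum_le_sum hpt
      _ = 2 * ∑ j ∈ J.filter (fun j => 1 ≤ wd' (v j) (PL G v (R ++ L))),
          log ((wd' (v j) (PL G v L) : ℝ) / wd' (v j) (PL G v (R ++ L))) := by
          rw [Finset.mul_sum]
      _ ≤ 2 * (4 * E * R.length * log (2 * B)) := by linarith [hlog R]
      _ = _ := by ring
  -- zero widths
  have hT2 : ∑ j ∈ (J.erase i).filter (fun j => ¬ 1 ≤ wd' (v j) (PL G v (R ++ L))),
      (wd' (v j) E' : ℝ) / wd' (v j) (PL G v L) ≤ E * R.length := by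
    set T := (J.erase i).filter (fun j => ¬ 1 ≤ wd' (v j) (PL G v (R ++ L))) with hT
    have hTJ : T ⊆ J := (Finset.filter_subset _ _).trans (Finset.erase_subset _ _)
    have hTm : ∀ j ∈ T, rl (v j) ∈ Lam (PL G v (R ++ L)) := by
      intro j hj
      by_contra hc
      exact (Finset.mem_filter.mp hj).2 ((wd'_pos_iff (v j) (PL_ne_zero hG v _)).mpr hc)
    have h1 := IndM_card hJ (v7_Lam_le v L R) hTJ hTm
    have h2 := v7_rank v hd L R
    have h3 : (T.card : ℝ) + finrank ℝ (Lam (PL G v L)) ≤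
        finrank ℝ (Lam (PL G v (R ++ L))) := by exact_mod_cast h1
    calc ∑ j ∈ T, (wd' (v j) E' : ℝ) / wd' (v j) (PL G v L)
        ≤ ∑ j ∈ T, (1 : ℝ) := Finset.sum_le_sum fun j _ => hle1 j
      _ = T.card := by simp
      _ ≤ E * R.length := by linarith
  rw [← Finset.sum_filter_add_sum_filter_not (J.erase i)
    (fun j => 1 ≤ wd' (v j) (PL G v (R ++ L)))]
  have hlen : (R.length : ℝ) ≤ CN M + 1 := by linarith
  have h1 : (E * (8 * log (2 * B) + 1)) * (R.length : ℝ) ≤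
      (E * (8 * log (2 * B) + 1)) * (CN M + 1) := by
    apply mul_le_mul_of_nonneg_left hlen
    have : 0 ≤ 8 * log (2 * B) + 1 := by linarith
    exact mul_nonneg (by linarith) this
  have h3 : (E * (8 * log (2 * B) + 1)) * (R.length : ℝ) =
      8 * E * R.length * log (2 * B) + E * R.length := by ring
  have h4 : (CN M + 1) * (E * (8 * log (2 * B) + 1)) =
      (E * (8 * log (2 * B) + 1)) * (CN M + 1) := by ring
  rw [h4]
  linarith

end CP
end Pool.Agent.MP_44c6d5_nt
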