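import Mathlib
import Pool.Agent.MP_44c6d5_nt.CP.DefV
import Pool.Agent.MP_44c6d5_nt.CP.C8
import Pool.Agent.MP_44c6d5_nt.CP.D6
import Pool.Agent.MP_44c6d5_nt.CP.D7
import Pool.Agent.MP_44c6d5_nt.CP.F1
import Pool.Agent.MP_44c6d5_nt.CP.F2G
import Pool.Agent.MP_44c6d5_nt.CP.U4
import Pool.Agent.MP_44c6d5_nt.CP.V5
import Pool.Agent.MP_44c6d5_nt.CP.V6
import Pool.Agent.MP_44c6d5_nt.CP.V7

/-!
[V8] the width bound.
-/

namespace Pool.Agent.MP_44c6d5_nt
namespace CP

open MeasureTheory Real Module MvPolynomial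

variable {k : ℕ} {n : ℕ}

theorem width_boundV {P : Pol k} (hP : Irreducible P) {l0 : Fin k → ℤ} (v : Fin n → Fin k → ℤ)
    {B : ℝ} (hB : 1 ≤ B)
    (hL : ∀ (L : List (Fin n)) (j : Fin n), 1 ≤ wd' (v j) (PL (ini (rl l0) P) v L) →
      (wd' (v j) P : ℝ) ≤ B * wd' (v j) (PL (ini (rl l0) P) v L)) {E : ℝ} (hE : 1 ≤ E)
    (hd : ∀ (L : List (Fin n)) (i : Fin n),
      (finrank ℝ (Lam (PL (ini (rl l0) P) v (i :: L))) : ℝ) ≤
        finrank ℝ (Lam (PL (ini (rl l0) P) v L)) + E)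
    (hI : IndM (ini (rl l0) P) v Finset.univ) {M : ℝ} (hM : mm P ≤ M) :
    (n : ℝ) ≤ 256 * E * (M + 1) / t0 M 2 +
      2 * ((CN M + 1) * (E * (8 * log (2 * B) + 1)) + 1) +
      4 * (6 * ((CN M + 1) * (E * (8 * log (2 * B) + 1))) + 1) *
        ((64 * B * M + 2) / t0 M (2 * B)) := by
  classical
  have hP0 := hP.ne_zero
  have hM0 : 0 ≤ M := (mm_nonneg hP0).trans hM
  have hC0 := c8_CN_nonneg hM0
  have ht2 := c8_t0_pos M 2
  have ht := c8_t0_pos M (2 * B)
  have hB0 : 0 < B := by linarith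
  have hE0 : 0 < E := by linarith
  set Q : Pol k := ini (rl l0) P with hQ
  have hQ0 : Q ≠ 0 := ini_ne_zero _ hP0
  have hQM : mm Q ≤ M := (mm_ini_le _ hP0).trans hM
  have hlB : 0 ≤ log (2 * B) := Real.log_nonneg (by linarith)
  set D : ℝ := (CN M + 1) * (E * (8 * log (2 * B) + 1)) with hD
  have hD0 : 0 ≤ D := by positivity
  have hlast : 0 ≤ 4 * (6 * D + 1) * ((64 * B * M + 2) / t0 M (2 * B)) := by positivity
  have hfirst : 0 ≤ 256 * E * (M + 1) / t0 M 2 := by positivity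
  by_cases hκ : (n : ℝ) ≤ 256 * E * (M + 1) / t0 M 2
  · linarith
  rw [not_le] at hκ
  have hκ0 : (0 : ℝ) < n := lt_of_le_of_lt hfirst hκ
  have hvQ : ∀ j, rl (v j) ∉ Lam Q := fun j => IndM_notMem hI (Finset.mem_univ j)
  have hle : ∀ j, wd' (v j) Q ≤ wd' (v j) P := fun j => wd'_ini_le (v j) (rl l0) hP0
  have hv : ∀ j, 1 ≤ wd' (v j) P := by
    intro j
    have h1 := (wd'_pos_iff (v j) hQ0).mpr (hvQ j)
    exact le_trans h1 (hle j)
  obtain ⟨L, J, hJ1, hJI, hJ4⟩ := exists_LV hQ0 v hv hle hB hL hE hd hI hQM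
  have hS : ∀ i ∈ J, ∀ j ∈ J, i ≠ j →
      mm (PL Q v L) - mm (PL Q v (j :: i :: L)) ≤ t0 M 2 / 32 := by
    intro i hi j hj hij
    have h3 := (hJ4 [j, i]).1
    rw [List.length_cons, List.length_singleton] at h3
    push_cast at h3
    have h4 : 4 * E * 2 * (M + 1) ≤ t0 M 2 / 32 * n := by
      rw [div_lt_iff₀ ht2] at hκ
      linarith
    exact le_of_mul_le_mul_right (h3.trans (by linarith)) hκ0
  set F : Pol k := PL Q v L with hF0
  have hFne : F ≠ 0 := PL_ne_zero hQ0 v L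
  have hFM : mm F ≤ M := by
    have := (PL_mono hQ0 v [] L).1
    rw [List.append_nil] at this
    exact this.trans hQM
  have hW0 : ∀ j ∈ J, 1 ≤ wd' (v j) F := fun j hj =>
    (wd'_pos_iff (v j) hFne).mpr (IndM_notMem hJI hj)
  have hW1 : ∀ j ∈ J, (1 : ℝ) ≤ wd' (v j) F := fun j hj => by exact_mod_cast hW0 j hj
  have hPF : ∀ j ∈ J, (wd' (v j) P : ℝ) ≤ B * wd' (v j) F := fun j hj => hL L j (hW0 j hj)
  have hdeg : ∀ i ∈ J, ∀ E' C : Pol k, F = E' * C → rl (v i) ∈ Lam C →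
      (∀ g, Irreducible g → g ∣ E' → rl (v i) ∉ Lam g) →
      ∑ j ∈ J.erase i, (wd' (v j) E' : ℝ) / wd' (v j) F ≤ D := fun i hi E' C h1 h2 h3 =>
    degV hQ0 v hB hE hd hQM hJI hS (fun R => (hJ4 R).2) hi h1 h2 h3
  by_cases hLL : rl l0 ∉ Lam P ∨ L ≠ []
  · obtain ⟨l, hl, hlF⟩ := exists_PL_functionalG hP0 v hvQ hLL
    obtain ⟨Eb, C, hEC, hC, hEb, hblk⟩ := exists_blocksW hFne v
    obtain ⟨I, hIS, hI1, hI2⟩ := exists_indepW J
      (fun i j => (wd' (v j) (Eb i) : ℝ) / wd' (v j) F)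
      (fun i j => by positivity) (D := D)
      (fun i hi => hdeg i hi (Eb i) (C i) (hEC i) (hC i) (hEb i))
    obtain ⟨Γ, G, hF, hΓ0, hG0, hΓ, hG⟩ := hblk I
    -- widths of the blocks
    have hwd : ∀ j ∈ I, (wd' (v j) F : ℝ) ≤ 2 * wd' (v j) (Γ j) := by
      intro j hj
      have e1 := hG j hj
      have e2 := hI1 j hj
      have e3 := hW1 j (hIS hj)
      have e4 : (wd' (v j) F : ℝ) ≤ wd' (v j) (Γ j) +
          ∑ i ∈ I.erase j, (wd' (v j) (Eb i) : ℝ) := by exact_mod_cast e1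
      rw [← Finset.sum_div, div_le_iff₀ (by linarith)] at e2
      linarith
    have hΓpos : ∀ j ∈ I, 1 ≤ wd' (v j) (Γ j) := by
      intro j hj
      have e1 := hwd j hj
      have e3 := hW1 j (hIS hj)
      by_contra hcon
      have : wd' (v j) (Γ j) = 0 := by omega
      rw [this, Nat.cast_zero] at e1
      linarith
    -- the mass of the blocks
    have hsum : ∑ j ∈ I, mm (Γ j) ≤ M := by
      have a1 := c8_mm_prod Γ hΓ0 I
      have a2 : mm (∏ j ∈ I, Γ j) ≤ mm F := mm_dvd_le hFne ⟨G, hF⟩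
      linarith
    set I1 := I.filter fun j => mm (Γ j) ≤ t0 M (2 * B) / (32 * (2 * B)) with hI1def
    set I2 := I.filter fun j => ¬ mm (Γ j) ≤ t0 M (2 * B) / (32 * (2 * B)) with hI2def
    have hcard : I1.card + I2.card = I.card := Finset.card_filter_add_card_filter_not _
    have hI2card : (I2.card : ℝ) ≤ 64 * B * M / t0 M (2 * B) := by
      have a1 : (I2.card : ℝ) * (t0 M (2 * B) / (32 * (2 * B))) ≤ ∑ j ∈ I2, mm (Γ j) := by
        rw [← nsmul_eq_mul]
        apply Finset.card_nsmul_le_sum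
        intro j hj
        have := (Finset.mem_filter.mp hj).2
        exact (not_le.mp this).le
      have a2 : ∑ j ∈ I2, mm (Γ j) ≤ ∑ j ∈ I, mm (Γ j) :=
        Finset.sum_le_sum_of_subset_of_nonneg (Finset.filter_subset _ _)
          (fun j _ _ => mm_nonneg (hΓ0 j))
      rw [le_div_iff₀ ht]
      have a3 : (I2.card : ℝ) * (t0 M (2 * B) / (32 * (2 * B))) ≤ M := by linarith
      rw [mul_div_assoc', div_le_iff₀ (by positivity)] at a3
      linarith
    have hI1card : (I1.card : ℝ) < 1 / t0 M (2 * B) := by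
      by_contra hcon
      push Not at hcon
      refine WW hP hl (ι := {j // j ∈ I1}) (fun j => v j.1) (fun j => Γ j.1)
        (fun j => (∏ i ∈ I.erase j.1, Γ i) * G) ?_ ?_ (M := M) (β := 2 * B) (by linarith) hM
        ?_ ?_ ?_ ?_
      · intro j
        have hj : j.1 ∈ I := (Finset.mem_filter.mp j.2).1
        rw [hlF, ← hF0, hF, ← Finset.mul_prod_erase I Γ hj, mul_assoc]
      · intro j
        exact hΓpos j.1 (Finset.mem_filter.mp j.2).1
      · intro j
        have hj : j.1 ∈ I := (Finset.mem_filter.mp j.2).1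
        have e2 := hwd j.1 hj
        have e3 := hPF j.1 (hIS hj)
        calc (wd' (v j.1) P : ℝ) ≤ B * wd' (v j.1) F := e3
          _ ≤ B * (2 * wd' (v j.1) (Γ j.1)) := by gcongr
          _ = 2 * B * wd' (v j.1) (Γ j.1) := by ring
      · intro i j hij
        have hi : i.1 ∈ I := (Finset.mem_filter.mp i.2).1
        have hj : j.1 ∈ I := (Finset.mem_filter.mp j.2).1
        exact hΓ i.1 hi j.1 hj (fun h => hij (Subtype.ext h))
      · intro j
        exact (Finset.mem_filter.mp j.2).2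
      · rw [Fintype.card_coe]; exact hcon
    have hIc : (I.card : ℝ) ≤ (64 * B * M + 2) / t0 M (2 * B) := by
      have a1 : (I.card : ℝ) = I1.card + I2.card := by exact_mod_cast hcard.symm
      have a2 : 1 / t0 M (2 * B) + 64 * B * M / t0 M (2 * B) ≤
          (64 * B * M + 2) / t0 M (2 * B) := by
        rw [← add_div]
        exact div_le_div_of_nonneg_right (by linarith) ht.le
      linarith
    have hfin : (n : ℝ) ≤ 4 * (6 * D + 1) * ((64 * B * M + 2) / t0 M (2 * B)) := by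
      calc (n : ℝ) ≤ 2 * J.card := hJ1
        _ ≤ 2 * (2 * (6 * D + 1) * I.card) := by gcongr
        _ ≤ 2 * (2 * (6 * D + 1) * ((64 * B * M + 2) / t0 M (2 * B))) := by gcongr
        _ = _ := by ring
    linarith
  · rw [not_or, not_not, not_not] at hLL
    obtain ⟨hl0, hLe⟩ := hLL
    have hQP : Q = P := (ini_eq_self_iff hP0).mpr hl0
    have hFP : F = P := by rw [hF0, hLe]; exact hQP
    rcases J.eq_empty_or_nonempty with hJe | ⟨i, hi⟩
    · rw [hJe, Finset.card_empty, Nat.cast_zero] at hJ1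
      linarith
    · have h1 := hdeg i hi P 1 (by rw [hFP, mul_one]) (by rw [Lam_one]; trivial)
        (fun g hg hgP => u4_notMem_of_dvd hP hg hgP (by rw [← hQP]; exact hvQ i))
      have h2 : ∑ j ∈ J.erase i, (wd' (v j) P : ℝ) / wd' (v j) F = (J.erase i).card := by
        rw [Finset.sum_congr rfl (g := fun _ => (1 : ℝ)) ?_]
        · simp
        · intro j hj
          have := hW1 j (Finset.mem_of_mem_erase hj)
          rw [hFP] at this ⊢
          exact div_self (by linarith)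
      rw [h2, Finset.card_erase_of_mem hi] at h1
      have h3 : 1 ≤ J.card := Finset.card_pos.mpr ⟨i, hi⟩
      rw [Nat.cast_sub h3, Nat.cast_one] at h1
      linarith

end CP
end Pool.Agent.MP_44c6d5_nt
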