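import Mathlib
import Pool.Agent.MP_44c6d5_nt.CP.Def2
import Pool.Agent.MP_44c6d5_nt.CP.C4
import Pool.Agent.MP_44c6d5_nt.CP.NB

/-!
The numerical estimate of the theorem on few widths.
-/

namespace Pool.Agent.MP_44c6d5_nt
namespace CP

open MeasureTheory Real

theorem numericV {t : ℕ} {B M : ℝ} (ht : 1 ≤ t) (hB : 1 ≤ B) (hM : 0 ≤ M) :
    256 * ((2 * CN M + 1) * t + CN M) * (M + 1) / t0 M 2 +
      2 * ((CN M + 1) * (((2 * CN M + 1) * t + CN M) * (8 * log (2 * B) + 1)) + 1) +
      4 * (6 * ((CN M + 1) * (((2 * CN M + 1) * t + CN M) * (8 * log (2 * B) + 1))) + 1) *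
        ((64 * B * M + 2) / t0 M (2 * B)) ≤ t * exp (16000 * B * (M + 1)) := by
  have ht1 : (1 : ℝ) ≤ t := by exact_mod_cast ht
  generalize hr : (t : ℝ) = r at ht1 ⊢
  have hC := nB_CN_le hM
  have hC0 := nB_CN_nonneg hM
  have hX := Real.add_one_le_exp M
  have hXB := Real.add_one_le_exp B
  have hr0 : (0 : ℝ) < r := by linarith
  have hB0 : (0 : ℝ) < B := by linarith
  have hBM : M ≤ B * M := by nlinarith
  have hBM0 : 0 ≤ B * M := by positivity
  have hl0 : 0 ≤ log (2 * B) := Real.log_nonneg (by linarith)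
  have hl1 : log (2 * B) ≤ 2 * B - 1 := Real.log_le_sub_one_of_pos (by linarith)
  have e2 : (4 : ℝ) ≤ exp 2 := by have := nB_two_pow 2; norm_num at this ⊢; linarith
  have e3 : (8 : ℝ) ≤ exp 3 := by have := nB_two_pow 3; norm_num at this ⊢; linarith
  have e4 : (16 : ℝ) ≤ exp 4 := by have := nB_two_pow 4; norm_num at this ⊢; linarith
  have e6 : (64 : ℝ) ≤ exp 6 := by have := nB_two_pow 6; norm_num at this ⊢; linarith
  have e9 : (512 : ℝ) ≤ exp 9 := by have := nB_two_pow 9; norm_num at this ⊢; linarith
  have e1 : (2 : ℝ) ≤ exp 1 := by have := nB_two_pow 1; norm_num at this ⊢; linarith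
  have e10 : (1024 : ℝ) ≤ exp 10 := by have := nB_two_pow 10; norm_num at this ⊢; linarith
  have h1e : (1 : ℝ) ≤ exp (19 * M + 16) := Real.one_le_exp (by linarith)
  set E : ℝ := (2 * CN M + 1) * r + CN M with hE
  have hE1 : 1 ≤ E := by
    rw [hE]
    nlinarith [mul_nonneg hC0 hr0.le]
  have hE2 : E ≤ r * exp (19 * M + 18) := by
    have h0 : CN M ≤ CN M * r := by nlinarith
    calc E ≤ r * (3 * CN M + 1) := by rw [hE]; nlinarith
      _ ≤ r * (4 * exp (19 * M + 16)) := by
          apply mul_le_mul_of_nonneg_left _ hr0.le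
          linarith
      _ ≤ r * (exp 2 * exp (19 * M + 16)) := by gcongr
      _ = r * exp (19 * M + 18) := by rw [← Real.exp_add]; ring_nf
  have hq0 : 0 ≤ E * (8 * log (2 * B) + 1) := by positivity
  have hq1 : 1 ≤ E * (8 * log (2 * B) + 1) := by
    have h0 : 0 ≤ E := by linarith
    nlinarith [mul_nonneg h0 hl0]
  set D : ℝ := (CN M + 1) * (E * (8 * log (2 * B) + 1)) with hD
  have hD1 : 1 ≤ D := by
    rw [hD]
    nlinarith [mul_nonneg hC0 hq0]
  have hD2 : D ≤ r * exp (38 * M + 39 + B) := by
    have h2 : CN M + 1 ≤ exp (19 * M + 17) := by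
      calc CN M + 1 ≤ 2 * exp (19 * M + 16) := by linarith
        _ ≤ exp 1 * exp (19 * M + 16) := by gcongr
        _ = exp (19 * M + 17) := by rw [← Real.exp_add]; ring_nf
    have h3 : E * (8 * log (2 * B) + 1) ≤ (r * exp (19 * M + 18)) * (exp 4 * exp B) := by
      apply mul_le_mul hE2 _ (by positivity) (by positivity)
      calc 8 * log (2 * B) + 1 ≤ 16 * B := by linarith
        _ ≤ exp 4 * exp B := by
            apply mul_le_mul e4 (by linarith) (by linarith) (by positivity)
    calc D ≤ exp (19 * M + 17) * ((r * exp (19 * M + 18)) * (exp 4 * exp B)) := by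
          rw [hD]
          apply mul_le_mul h2 h3 hq0 (by positivity)
      _ = r * (exp (19 * M + 17) * exp (19 * M + 18) * exp 4 * exp B) := by ring
      _ = r * exp (38 * M + 39 + B) := by
          rw [← Real.exp_add, ← Real.exp_add, ← Real.exp_add]
          congr 2
          ring
  have ht2 : ∀ x : ℝ, x / t0 M 2 = x * (4 * exp (6656 * M + 512)) := by
    intro x
    unfold t0
    rw [show -(64 * (2 * (52 * M + 3) + 2)) = -(6656 * M + 512) by ring, Real.exp_neg]
    field_simp
  have ht4 : ∀ x : ℝ, x / t0 M (2 * B) =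
      x * (4 * exp (6656 * (B * M) + 384 * B + 128)) := by
    intro x
    unfold t0
    rw [show -(64 * (2 * B * (52 * M + 3) + 2)) = -(6656 * (B * M) + 384 * B + 128) by ring,
      Real.exp_neg]
    field_simp
  rw [ht2, ht4]
  set T : ℝ := exp (15998 * (B * M) + 15998 * B) with hT
  have hTpos : 0 < T := by rw [hT]; positivity
  have t1 : 256 * E * (M + 1) * (4 * exp (6656 * M + 512)) ≤ r * T := by
    calc 256 * E * (M + 1) * (4 * exp (6656 * M + 512))
        = 1024 * E * (M + 1) * exp (6656 * M + 512) := by ring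
      _ ≤ exp 10 * (r * exp (19 * M + 18)) * exp M * exp (6656 * M + 512) := by
          gcongr
      _ = r * (exp 10 * exp (19 * M + 18) * exp M * exp (6656 * M + 512)) := by ring
      _ = r * exp (6676 * M + 540) := by
          rw [← Real.exp_add, ← Real.exp_add, ← Real.exp_add]
          congr 2
          ring
      _ ≤ r * T := by
          gcongr
          rw [hT, Real.exp_le_exp]; linarith
  have t2 : 2 * (D + 1) ≤ r * T := by
    calc 2 * (D + 1) ≤ 8 * D := by linarith
      _ ≤ exp 3 * (r * exp (38 * M + 39 + B)) := by gcongr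
      _ = r * (exp 3 * exp (38 * M + 39 + B)) := by ring
      _ = r * exp (38 * M + 42 + B) := by rw [← Real.exp_add]; ring_nf
      _ ≤ r * T := by
          gcongr
          rw [hT, Real.exp_le_exp]; linarith
  have t3 : 4 * (6 * D + 1) *
      ((64 * B * M + 2) * (4 * exp (6656 * (B * M) + 384 * B + 128))) ≤ r * T := by
    have h1 : 4 * (6 * D + 1) ≤ exp 6 * D := by nlinarith
    have h2 : (64 * B * M + 2) * 4 ≤ exp 9 * exp B * exp M := by
      calc (64 * B * M + 2) * 4 ≤ 512 * B * (M + 1) := by nlinarith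
        _ ≤ exp 9 * exp B * exp M := by
            apply mul_le_mul _ hX (by linarith) (by positivity)
            apply mul_le_mul e9 (by linarith) (by linarith) (by positivity)
    calc 4 * (6 * D + 1) * ((64 * B * M + 2) * (4 * exp (6656 * (B * M) + 384 * B + 128)))
        = (4 * (6 * D + 1)) *
          (((64 * B * M + 2) * 4) * exp (6656 * (B * M) + 384 * B + 128)) := by ring
      _ ≤ (exp 6 * (r * exp (38 * M + 39 + B))) *
          ((exp 9 * exp B * exp M) * exp (6656 * (B * M) + 384 * B + 128)) := by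
          apply mul_le_mul
          · exact h1.trans (by gcongr)
          · gcongr
          · positivity
          · positivity
      _ = r * (exp 6 * exp (38 * M + 39 + B) *
          (exp 9 * exp B * exp M * exp (6656 * (B * M) + 384 * B + 128))) := by ring
      _ = r * exp (6656 * (B * M) + 39 * M + 386 * B + 182) := by
          rw [← Real.exp_add, ← Real.exp_add, ← Real.exp_add, ← Real.exp_add, ← Real.exp_add]
          congr 2
          ring
      _ ≤ r * T := by
          gcongr
          rw [hT, Real.exp_le_exp]; linarith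
  have hrT : 0 ≤ r * T := by positivity
  calc 256 * E * (M + 1) * (4 * exp (6656 * M + 512)) + 2 * (D + 1) +
        4 * (6 * D + 1) *
          ((64 * B * M + 2) * (4 * exp (6656 * (B * M) + 384 * B + 128)))
      ≤ r * (4 * T) := by linarith
    _ ≤ r * (exp 2 * T) := by gcongr
    _ = r * exp (15998 * (B * M) + 15998 * B + 2) := by rw [hT, ← Real.exp_add]; ring_nf
    _ ≤ r * exp (16000 * B * (M + 1)) := by
        gcongr
        nlinarith

end CP
end Pool.Agent.MP_44c6d5_nt
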