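import Mathlib
import Pool.Agent.MP_44c6d5_nt.CP.U7
import Pool.Agent.MP_44c6d5_nt.CP.V4
import Pool.Agent.MP_44c6d5_nt.CP.V5
import Pool.Agent.MP_44c6d5_nt.CP.V8
import Pool.Agent.MP_44c6d5_nt.CP.V9
import Pool.Agent.MP_44c6d5_nt.CP.V10

/-!
[V11] few widths of faces: the final form.
-/

namespace Pool.Agent.MP_44c6d5_nt
namespace CP

open MeasureTheory Real Module MvPolynomial

variable {k : ℕ} {n : ℕ}

theorem v11_ini_zero {F : Pol k} (hF : F ≠ 0) : ini (0 : Fin k → ℝ) F = F :=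
  (ini_eq_self_iff hF).2 (Lam F).zero_mem

theorem few_widths {t : ℕ} {P : Pol k} (hP : Irreducible P) (z : Fin k → ℝ)
    (v : Fin n → Fin k → ℤ)
    (hI : ∀ c : Fin n → ℝ, (∀ a ∈ (ini z P).support, ∀ b ∈ (ini z P).support,
      wt (fun i => ∑ j, c j * (v j i : ℝ)) a = wt (fun i => ∑ j, c j * (v j i : ℝ)) b) → c = 0)
    (S : Fin n → Finset ℝ) (hS : ∀ j, (S j).card ≤ t) {B : ℝ}
    (hW : ∀ (j : Fin n) (y : Fin k → ℝ),
      width (fun i => (v j i : ℝ)) (ini y (ini z P)) = 0 ∨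
        (width (fun i => (v j i : ℝ)) (ini y (ini z P)) ∈ S j ∧
          width (fun i => (v j i : ℝ)) P ≤ B * width (fun i => (v j i : ℝ)) (ini y (ini z P))))
    {M : ℝ} (hM : mm P ≤ M) : (n : ℝ) ≤ t * exp (16000 * B * (M + 1)) := by
  classical
  have hP0 := hP.ne_zero
  have hM0 : 0 ≤ M := (mm_nonneg hP0).trans hM
  rcases Nat.eq_zero_or_pos n with hn | hn
  · subst hn
    simp only [Nat.cast_zero]
    positivity
  obtain ⟨l0, hl0⟩ : ∃ l0 : Fin k → ℤ, ini (rl l0) P = ini z P := by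
    obtain ⟨l0, h0⟩ := exists_int_weight z P.support
    exact ⟨l0, ini_eq_of_weight h0 hP0 subset_rfl⟩
  rw [← hl0] at hW hI
  set G := ini (rl l0) P with hG
  have hG0 : G ≠ 0 := ini_ne_zero _ hP0
  have hIM : IndM G v Finset.univ := by
    intro c _ hc j
    have h1 := hI c (by
      have h2 : (fun i => ∑ j, c j * (v j i : ℝ)) = ∑ j, c j • rl (v j) := by
        funext i
        rw [Finset.sum_apply]
        rfl
      rw [h2]
      exact mem_Lam.1 hc)
    rw [h1]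
    rfl
  have hnot : ∀ j, rl (v j) ∉ Lam G := fun j => IndM_notMem hIM (Finset.mem_univ j)
  have hW' : ∀ (j : Fin n) (y : Fin k → ℝ), wd' (v j) (ini y G) = 0 ∨
      ((wd' (v j) (ini y G) : ℝ) ∈ S j ∧
        (wd' (v j) P : ℝ) ≤ B * wd' (v j) (ini y G)) := by
    intro j y
    have h1 := hW j y
    rw [u7_width (v j) (ini_ne_zero y hG0), u7_width (v j) hP0] at h1
    rcases h1 with h1 | h1
    · left
      exact_mod_cast h1
    · right
      exact h1
  have h0 : ∀ j, (wd' (v j) G : ℝ) ∈ S j ∧ (wd' (v j) P : ℝ) ≤ B * wd' (v j) G := by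
    intro j
    have h1 := hW' j 0
    rw [v11_ini_zero hG0] at h1
    have h2 : 1 ≤ wd' (v j) G := (wd'_pos_iff (v j) hG0).2 (hnot j)
    rcases h1 with h1 | h1
    · omega
    · exact h1
  have ht1 : 1 ≤ t := by
    have h1 := Finset.card_pos.2 ⟨_, (h0 ⟨0, hn⟩).1⟩
    have h2 := hS ⟨0, hn⟩
    omega
  have hle : ∀ j, wd' (v j) G ≤ wd' (v j) P := fun j => wd'_ini_le (v j) (rl l0) hP0
  have hB : 1 ≤ B := by
    have h1 := (h0 ⟨0, hn⟩).2
    have h2 : (1 : ℝ) ≤ wd' (v ⟨0, hn⟩) G := by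
      exact_mod_cast (wd'_pos_iff (v ⟨0, hn⟩) hG0).2 (hnot _)
    have h3 : (wd' (v ⟨0, hn⟩) G : ℝ) ≤ wd' (v ⟨0, hn⟩) P := by exact_mod_cast hle _
    by_contra hcon
    rw [not_le] at hcon
    nlinarith
  have hC0 := c8_CN_nonneg hM0
  have ht1' : (1 : ℝ) ≤ t := by exact_mod_cast ht1
  have hE : 1 ≤ (2 * CN M + 1) * t + CN M := by nlinarith
  have hL : ∀ (L : List (Fin n)) (j : Fin n), 1 ≤ wd' (v j) (PL G v L) →
      (wd' (v j) P : ℝ) ≤ B * wd' (v j) (PL G v L) := by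
    intro L j hj
    obtain ⟨y', hy'⟩ := PL_face hG0 v L 0
    rw [v11_ini_zero (PL_ne_zero hG0 v L)] at hy'
    have h1 := hW' j y'
    rw [← hy'] at h1
    rcases h1 with h1 | h1
    · omega
    · exact h1.2
  have hd : ∀ (L : List (Fin n)) (i : Fin n),
      (finrank ℝ (Lam (PL G v (i :: L))) : ℝ) ≤
        finrank ℝ (Lam (PL G v L)) + ((2 * CN M + 1) * t + CN M) := by
    intro L i
    have hF0 := PL_ne_zero hG0 v L
    have hMF : mm (PL G v L) ≤ M := by
      have h1 := (PL_mono hG0 v [] L).1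
      rw [List.append_nil] at h1
      exact h1.trans ((mm_ini_le (rl l0) hP0).trans hM)
    have h1 := drop_bound hF0 hMF (v i) ((S i).image fun x => ⌊x⌋₊) (by
      intro y
      obtain ⟨y', hy'⟩ := PL_face hG0 v L y
      have h2 := hW' i y'
      rw [← hy'] at h2
      rcases h2 with h2 | h2
      · exact Or.inl h2
      · right
        rw [Finset.mem_image]
        exact ⟨_, h2.1, Nat.floor_natCast _⟩)
    have h2 : (((S i).image fun x => ⌊x⌋₊).card : ℝ) ≤ t := by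
      exact_mod_cast Finset.card_image_le.trans (hS i)
    have h3 : (2 * CN M + 1) * (((S i).image fun x => ⌊x⌋₊).card : ℝ) ≤ (2 * CN M + 1) * t :=
      mul_le_mul_of_nonneg_left h2 (by positivity)
    change (finrank ℝ (Lam (ini (rl (v i)) (PL G v L))) : ℝ) ≤ _
    linarith
  exact (width_boundV hP v hB hL hE hd hIM hM).trans (numericV ht1 hB hM0)

end CP
end Pool.Agent.MP_44c6d5_nt
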