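import Mathlib
import Pool.Agent.MP_44c6d5_nt.CP.DefX
import Pool.Agent.MP_44c6d5_nt.CP.B9
import Pool.Agent.MP_44c6d5_nt.CP.X1

namespace Pool.Agent.MP_44c6d5_nt
namespace CP

open MeasureTheory Real Module

variable {k : ℕ}

theorem PJ_line (v : Fin k → ℤ) {G : Pol k} (hG : G ≠ 0) {r : ℝ} (h0 : 0 < r) (h1 : r ≤ 1 / 2)
    {x : Tor k} (hx : ev (ini (rl (-v)) G) x ≠ 0) (s : UnitAddCircle) :
    PJ v G (wd' v G) r (line v x s) = pi' r (up v G x) s := by
  unfold PJ
  rw [b6_NU_line v hG (by linarith) (by linarith) hx]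
  rfl

theorem OD_V {P : Pol k} (hP : P ≠ 0) {l v : Fin k → ℤ} {A B : Pol k} (hA : A ≠ 0)
    (hB : B ≠ 0) (hAB : ini (rl l) P = A * B) (hpos : 1 ≤ wd' v A) {n : ℕ}
    (hn : wd' v (ini (rl l) P) ≤ n) {τ : ℝ} (hτ0 : 0 < τ)
    (hτ : τ ≤ 1 / 4) : ∀ᵐ x : Tor k,
      (TV (1 - τ / n) (1 - 1 / (2 * n)) v (UU l P) (PJ v A (wd' v A) (τ / n)) x +
          EV (1 - τ / n) (1 - 1 / (2 * n)) v (PJ v A (wd' v A) (τ / n)) x ≤
        (n / τ) * (∫ t : UnitAddCircle, mu l P (line v x t) *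
            KK v A (wd' v A) (τ / n) (line v x t)) + (wd' v A : ℝ) / 2) ∧
      (er v A x ≤ (τ / n) * (wd' v A) / 2 →
        TV (1 - τ / n) (1 - 1 / (2 * n)) v (UU l P) (PJ v A (wd' v A) (τ / n)) x +
          (wd' v A : ℝ) * (log (1 / (4 * τ)) / 64) ≤
        (n / τ) * (∫ t : UnitAddCircle, mu l P (line v x t) *
            KK v A (wd' v A) (τ / n) (line v x t)) + (wd' v A : ℝ) / 2) := by
  have hwd : wd' v A + wd' v B ≤ n := by
    rw [← wd'_mul v hA hB, ← hAB]
    exact hn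
  have hn1 : 1 ≤ n := by omega
  have hnR : (1 : ℝ) ≤ (n : ℝ) := by exact_mod_cast hn1
  have hr0 : 0 < τ / (n : ℝ) := by positivity
  have hr1 : τ / (n : ℝ) ≤ 1 / 4 := by
    rw [div_le_iff₀ (by positivity)]; nlinarith
  obtain ⟨hU, hmu, hmu0, _⟩ := mu_props l hP
  filter_upwards [ae_ev_ne_zero (ini_ne_zero (rl (-v)) hA), ae_ev_ne_zero (ini_ne_zero (rl v) hA),
    ae_ev_ne_zero (ini_ne_zero (rl (-v)) hB),
    ae_ev_ne_zero (ini_ne_zero (rl v) hB),
    ae_integrable_line v hU, ae_integrable_line v hmu, b9_ae_line v hmu0,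
    b9_ae_line v (ae_ev_ne_zero hA), b9_ae_line v (ae_ev_ne_zero hB)] with
    x h1 h2 h3 h4 h5 h6 h7 h8 h9
  have hcA := b9_card_roots_up v hA h1
  have hcB := b9_card_roots_up v hB h3
  have hqA : up v A x ≠ 0 := by
    intro h0
    have := coeff_zero_up v hA x
    rw [h0, Polynomial.coeff_zero] at this
    exact h2 this.symm
  have hqB : up v B x ≠ 0 := by
    intro h0
    have := coeff_up_wd v hB x
    rw [h0, Polynomial.coeff_zero] at this
    exact h3 this.symm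
  have hdec : ∀ᵐ t : UnitAddCircle, UU l P (line v x t) = mu l P (line v x t) +
      log ‖(up v A x).eval (e t)‖ + log ‖(up v B x).eval (e t)‖ := by
    filter_upwards [h8, h9] with t ht8 ht9
    rw [← norm_ev_line, ← norm_ev_line]
    unfold mu
    rw [hAB, ev_mul, norm_mul, Real.log_mul (norm_ne_zero_iff.mpr ht8) (norm_ne_zero_iff.mpr ht9)]
    ring
  have hPJ : (fun t : UnitAddCircle => PJ v A (wd' v A) (τ / n) (line v x t)) =
      pi' (τ / n) (up v A x) := by
    funext t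
    exact PJ_line v hA hr0 (by linarith) h1 t
  have hKK : (∫ t : UnitAddCircle, mu l P (line v x t) *
      KK v A (wd' v A) (τ / n) (line v x t)) =
      ∫ t : UnitAddCircle, mu l P (line v x t) * Kq (τ / n) (up v A x) t := by
    apply integral_congr_ae
    apply Filter.Eventually.of_forall
    intro t
    simp only
    rw [KK_line v hA hr0 (by linarith) h1 t]
  unfold TV EV
  rw [hPJ, hKK]
  refine ⟨?_, fun hs => ?_⟩
  · have key := OD_E hn1 hτ0 hτ hqA hqB (by rw [hcA, hcB]; exact hwd) h5 h6 h7 hdec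
    rw [hcA] at key
    exact key
  · have hgood := good_of_er v hA hr0 (by linarith) h2 h1 hs
    have key := OD_G hn1 hτ0 hτ hqA hqB (by rw [hcA, hcB]; exact hwd) hgood h5 h6 h7 hdec
    rw [hcA] at key
    exact key

end CP
end Pool.Agent.MP_44c6d5_nt
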