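import Mathlib
import Pool.Agent.MP_44c6d5_nt.CP.DefX
import Pool.Agent.MP_44c6d5_nt.CP.B6
import Pool.Agent.MP_44c6d5_nt.CP.X2

namespace Pool.Agent.MP_44c6d5_nt
namespace CP

open MeasureTheory Real Module

variable {k : ℕ}

theorem PJ_props (v : Fin k → ℤ) {G : Pol k} (hG : G ≠ 0) {r : ℝ} (h0 : 0 < r) (h1 : r ≤ 1 / 2) :
    Measurable (PJ v G (wd' v G) r) ∧
      (∀ᵐ x : Tor k, 0 ≤ PJ v G (wd' v G) r x ∧ PJ v G (wd' v G) r x ≤ 1 / r) := by
  refine ⟨(measurable_NU v G (wd' v G) (1 - r)).min measurable_const, ?_⟩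
  filter_upwards [ae_ev_ne_zero (ini_ne_zero (rl (-v)) hG)] with x hx
  have h := PJ_line v hG h0 h1 hx 0
  have hl : line v x 0 = x := by
    funext i; simp [line]
  rw [hl] at h
  rw [h]
  unfold pi'
  exact ⟨le_min (nu_nonneg (by linarith) (by linarith) (up v G x) 0) (by positivity),
    min_le_right _ _⟩

theorem PJ_inv (v : Fin k → ℤ) {G : Pol k} (N : ℕ) (r : ℝ) {w : Fin k → ℤ} (hw : rl w ∈ Lam G)
    (x : Tor k) (t : UnitAddCircle) : PJ v G N r (line w x t) = PJ v G N r x := by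
  unfold PJ NU
  simp only [b6_line_comm v w, b6_norm_inv hw]

theorem KK_avg (v : Fin k → ℤ) {G : Pol k} (hG : G ≠ 0) {r : ℝ} (h0 : 0 < r) (h1 : r ≤ 1 / 2) :
    ∀ᵐ x : Tor k, ∫ t : UnitAddCircle, KK v G (wd' v G) r (line v x t) ≤ r * wd' v G := by
  filter_upwards [ae_ev_ne_zero (ini_ne_zero (rl (-v)) hG)] with x hx
  simp only [KK_line v hG h0 h1 hx]
  refine (integral_Kq_le _ h0 h1).trans ?_
  have h3 : Multiset.card (up v G x).roots ≤ wd' v G :=
    (Polynomial.card_roots' _).trans (natDegree_up_le v hG x)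
  have h4 : (Multiset.card (up v G x).roots : ℝ) ≤ wd' v G := by exact_mod_cast h3
  exact mul_le_mul_of_nonneg_left h4 h0.le

end CP
end Pool.Agent.MP_44c6d5_nt
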