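import Mathlib
import Pool.Agent.MP_44c6d5_nt.CP.DefX
import Pool.Agent.MP_44c6d5_nt.CP.B4

/-!
[X4] integrability and positivity on lines.
-/

namespace Pool.Agent.MP_44c6d5_nt
namespace CP

open MeasureTheory Real Module MvPolynomial

variable {k : ℕ}

theorem x4_meas (w : Fin k → ℤ) {u : Tor k → ℝ} (hu : Measurable u) (m : ℕ) :
    Measurable fun x : Tor k => fc (fun t => u (line w x t)) m := by
  have h1 : Measurable (fun q : Tor k × UnitAddCircle =>
      ((u (line w q.1 q.2) : ℝ) : ℂ) * (starRingEnd ℂ (e q.2)) ^ m) := by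
    apply Measurable.mul
    · apply Complex.measurable_ofReal.comp
      exact hu.comp (continuous_line w).measurable
    · apply Measurable.pow_const
      exact (Complex.continuous_conj.comp (continuous_e.comp continuous_snd)).measurable
  exact (h1.stronglyMeasurable.integral_prod_right'
    (ν := (volume : Measure UnitAddCircle))).measurable

theorem x4_norm_le (f : UnitAddCircle → ℝ) (m : ℕ) : ‖fc f m‖ ≤ ∫ t : UnitAddCircle, |f t| := by
  unfold fc
  refine (norm_integral_le_integral_norm _).trans_eq ?_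
  congr 1
  funext t
  rw [norm_mul, norm_pow, RCLike.norm_conj, norm_e, one_pow, mul_one, Complex.norm_real,
    Real.norm_eq_abs]

theorem x4_ae_line (w : Fin k → ℤ) {p : Tor k → Prop}
    (h : ∀ᵐ x : Tor k, p x) : ∀ᵐ x : Tor k, ∀ᵐ t : UnitAddCircle, p (line w x t) := by
  have h1 : ∀ᵐ q ∂((volume : Measure UnitAddCircle).prod (volume : Measure (Tor k))),
      p (line w q.2 q.1) := (measurePreserving_line w).quasiMeasurePreserving.ae h
  have h2 : ∀ᵐ q ∂((volume : Measure (Tor k)).prod (volume : Measure UnitAddCircle)),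
      p (line w q.1 q.2) := by
    have := (Measure.measurePreserving_swap (μ := (volume : Measure (Tor k)))
      (ν := (volume : Measure UnitAddCircle))).quasiMeasurePreserving.ae h1
    exact this
  exact Measure.ae_ae_of_ae_prod h2

theorem x4_bound (w : Fin k → ℤ) {p : Tor k → ℝ} (hpm : Measurable p) {C : ℝ}
    (hpb : ∀ᵐ x : Tor k, |p x| ≤ C) :
    ∀ᵐ x : Tor k, ∀ m, ‖fc (fun t => p (line w x t)) m‖ ≤ max C 0 := by
  have h1 := x4_ae_line w (p := fun x => |p x| ≤ C) hpb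
  filter_upwards [h1] with x hx m
  unfold fc
  have h2 : ∀ᵐ t : UnitAddCircle,
      ‖((p (line w x t) : ℝ) : ℂ) * (starRingEnd ℂ (e t)) ^ m‖ ≤ max C 0 := by
    filter_upwards [hx] with t ht
    rw [norm_mul, norm_pow, RCLike.norm_conj, norm_e, one_pow, mul_one, Complex.norm_real,
      Real.norm_eq_abs]
    exact ht.trans (le_max_left _ _)
  have h3 := norm_integral_le_of_norm_le_const (μ := (volume : Measure UnitAddCircle)) h2
  simpa using h3

theorem x4_term {ρ b : ℝ} (h0 : 0 < ρ) (hb0 : 0 ≤ b) (hb1 : b ≤ 1) (f p : UnitAddCircle → ℝ)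
    {A C : ℝ} (hA : ∀ m, ‖fc f m‖ ≤ A) (hC : ∀ m, ‖fc p m‖ ≤ C) (m : ℕ) :
    ‖2 * ρ ^ (2 * m) * (1 - b ^ m) * ((starRingEnd ℂ (fc f m)) * fc p m).re‖ ≤
      2 * A * C * (ρ ^ 2) ^ m := by
  have h1 : 0 ≤ 1 - b ^ m := sub_nonneg.2 (pow_le_one₀ hb0 hb1)
  have h2 : 1 - b ^ m ≤ 1 := by have := pow_nonneg hb0 m; linarith
  have h3 : |((starRingEnd ℂ (fc f m)) * fc p m).re| ≤ A * C := by
    refine (Complex.abs_re_le_norm _).trans ?_
    rw [norm_mul, RCLike.norm_conj]
    exact mul_le_mul (hA m) (hC m) (norm_nonneg _) ((norm_nonneg _).trans (hA m))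
  have hA0 : 0 ≤ A := (norm_nonneg _).trans (hA 0)
  have hC0 : 0 ≤ C := (norm_nonneg _).trans (hC 0)
  rw [Real.norm_eq_abs, abs_mul, abs_of_nonneg (by positivity)]
  calc 2 * ρ ^ (2 * m) * (1 - b ^ m) * |((starRingEnd ℂ (fc f m)) * fc p m).re|
      ≤ 2 * ρ ^ (2 * m) * 1 * (A * C) := by gcongr
    _ = 2 * A * C * (ρ ^ 2) ^ m := by rw [← pow_mul]; ring

theorem integrable_TV {ρ b : ℝ} (h0 : 0 < ρ) (h1 : ρ < 1) (hb0 : 0 ≤ b) (hb1 : b ≤ 1)
    (w : Fin k → ℤ) {u p : Tor k → ℝ} (hum : Measurable u) (hu : Integrable u)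
    (hpm : Measurable p) {C : ℝ} (hpb : ∀ᵐ x : Tor k, |p x| ≤ C) :
    Integrable (TV ρ b w u p) := by
  have hb := x4_bound w hpm hpb
  have hρ : ρ ^ 2 < 1 := by nlinarith
  have hgeo := summable_geometric_of_lt_one (sq_nonneg ρ) hρ
  have hA : ∀ x m, ‖fc (fun t => u (line w x t)) m‖ ≤ ∫ t : UnitAddCircle, |u (line w x t)| :=
    fun x m => x4_norm_le _ m
  have hsum : ∀ᵐ x : Tor k, Summable fun m : ℕ => 2 * ρ ^ (2 * m) * (1 - b ^ m) *
      ((starRingEnd ℂ (fc (fun t => u (line w x t)) m)) * fc (fun t => p (line w x t)) m).re := by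
    filter_upwards [hb] with x hx
    exact Summable.of_norm_bounded (hgeo.mul_left _)
      fun m => x4_term h0 hb0 hb1 _ _ (hA x) hx m
  have hmeas : AEStronglyMeasurable (TV ρ b w u p) volume := by
    have := aemeasurable_of_tendsto_metrizable_ae' (μ := (volume : Measure (Tor k)))
      (f := fun n x => ∑ m ∈ Finset.range n, 2 * ρ ^ (2 * m) * (1 - b ^ m) *
        ((starRingEnd ℂ (fc (fun t => u (line w x t)) m)) *
          fc (fun t => p (line w x t)) m).re) (g := TV ρ b w u p) (fun n => by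
        refine (Finset.measurable_sum _ fun m _ => ?_).aemeasurable
        refine Measurable.const_mul ?_ _
        exact Complex.measurable_re.comp
          ((Complex.continuous_conj.measurable.comp (x4_meas w hum m)).mul (x4_meas w hpm m)))
      (by
        filter_upwards [hsum] with x hx
        exact hx.hasSum.tendsto_sum_nat)
    exact this.aestronglyMeasurable
  have hI : Integrable fun x : Tor k => ∫ t : UnitAddCircle, |u (line w x t)| := by
    have := integrable_integral_line w hu.norm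
    simpa [Real.norm_eq_abs] using this
  refine Integrable.mono' (hI.mul_const (2 * max C 0 * ∑' m : ℕ, (ρ ^ 2) ^ m)) hmeas ?_
  filter_upwards [hb, hsum] with x hx hs
  have e1 : (∫ t : UnitAddCircle, |u (line w x t)|) * (2 * max C 0 * ∑' m : ℕ, (ρ ^ 2) ^ m) =
      ∑' m : ℕ, 2 * (∫ t : UnitAddCircle, |u (line w x t)|) * max C 0 * (ρ ^ 2) ^ m := by
    rw [tsum_mul_left]
    ring
  rw [e1]
  exact tsum_of_norm_bounded (hgeo.mul_left _).hasSum
    fun m => x4_term h0 hb0 hb1 _ _ (hA x) hx m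

theorem x4_term' {ρ b : ℝ} (h0 : 0 < ρ) (hb0 : 0 ≤ b) (hb1 : b ≤ 1) (p : UnitAddCircle → ℝ)
    {C : ℝ} (hC : ∀ m, ‖fc p m‖ ≤ C) (m : ℕ) :
    ρ ^ m * (1 - b ^ m) / (m : ℝ) * ‖fc p m‖ ^ 2 ≤ C ^ 2 * ρ ^ m := by
  have h1 : 0 ≤ 1 - b ^ m := sub_nonneg.2 (pow_le_one₀ hb0 hb1)
  have h2 : 1 - b ^ m ≤ 1 := by have := pow_nonneg hb0 m; linarith
  have hC0 : 0 ≤ C := (norm_nonneg _).trans (hC 0)
  have h3 : ‖fc p m‖ ^ 2 ≤ C ^ 2 := pow_le_pow_left₀ (norm_nonneg _) (hC m) 2
  have h4 : ρ ^ m * (1 - b ^ m) / (m : ℝ) ≤ ρ ^ m := by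
    rcases Nat.eq_zero_or_pos m with rfl | hm
    · simp
    · have hm1 : (1 : ℝ) ≤ m := by exact_mod_cast hm
      refine (div_le_self (by positivity) hm1).trans ?_
      exact mul_le_of_le_one_right (by positivity) h2
  calc ρ ^ m * (1 - b ^ m) / (m : ℝ) * ‖fc p m‖ ^ 2 ≤ ρ ^ m * C ^ 2 :=
        mul_le_mul h4 h3 (by positivity) (by positivity)
    _ = C ^ 2 * ρ ^ m := mul_comm _ _

theorem x4_nonneg {ρ b : ℝ} (h0 : 0 < ρ) (hb0 : 0 ≤ b) (hb1 : b ≤ 1) (p : UnitAddCircle → ℝ)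
    (m : ℕ) : 0 ≤ ρ ^ m * (1 - b ^ m) / (m : ℝ) * ‖fc p m‖ ^ 2 := by
  have h1 : 0 ≤ 1 - b ^ m := sub_nonneg.2 (pow_le_one₀ hb0 hb1)
  positivity

theorem EV_props {ρ b : ℝ} (h0 : 0 < ρ) (h1 : ρ < 1) (hb0 : 0 ≤ b) (hb1 : b ≤ 1)
    (w : Fin k → ℤ) {p : Tor k → ℝ} (hpm : Measurable p) {C : ℝ}
    (hpb : ∀ᵐ x : Tor k, |p x| ≤ C) : Integrable (EV ρ b w p) ∧ (∀ x, 0 ≤ EV ρ b w p x) ∧
      (∀ x t, EV ρ b w p (line w x t) = EV ρ b w p x) ∧
      (∀ (w' : Fin k → ℤ), (∀ x t, p (line w' x t) = p x) →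
        ∀ x t, EV ρ b w p (line w' x t) = EV ρ b w p x) := by
  have hb := x4_bound w hpm hpb
  have hgeo := summable_geometric_of_lt_one h0.le h1
  have hsum : ∀ᵐ x : Tor k, Summable fun m : ℕ =>
      ρ ^ m * (1 - b ^ m) / (m : ℝ) * ‖fc (fun t => p (line w x t)) m‖ ^ 2 := by
    filter_upwards [hb] with x hx
    exact Summable.of_nonneg_of_le (fun m => x4_nonneg h0 hb0 hb1 _ m)
      (fun m => x4_term' h0 hb0 hb1 _ hx m) (hgeo.mul_left _)
  have hnn : ∀ x, 0 ≤ EV ρ b w p x := fun x => tsum_nonneg fun m => x4_nonneg h0 hb0 hb1 _ m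
  refine ⟨?_, hnn, ?_, ?_⟩
  · have hmeas : AEStronglyMeasurable (EV ρ b w p) volume := by
      have := aemeasurable_of_tendsto_metrizable_ae' (μ := (volume : Measure (Tor k)))
        (f := fun n x => ∑ m ∈ Finset.range n,
          ρ ^ m * (1 - b ^ m) / (m : ℝ) * ‖fc (fun t => p (line w x t)) m‖ ^ 2)
        (g := EV ρ b w p) (fun n => by
          refine (Finset.measurable_sum _ fun m _ => ?_).aemeasurable
          exact ((x4_meas w hpm m).norm.pow_const 2).const_mul _)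
        (by
          filter_upwards [hsum] with x hx
          exact hx.hasSum.tendsto_sum_nat)
      exact this.aestronglyMeasurable
    refine Integrable.of_bound hmeas (∑' m : ℕ, (max C 0) ^ 2 * ρ ^ m) ?_
    filter_upwards [hb, hsum] with x hx hs
    rw [Real.norm_of_nonneg (hnn x)]
    exact hs.tsum_le_tsum (fun m => x4_term' h0 hb0 hb1 _ hx m) (hgeo.mul_left _)
  · intro x t
    unfold EV Eq
    congr 1
    funext m
    have e1 : (fun s => p (line w (line w x t) s)) = fun s => (fun s => p (line w x s)) (t + s) := by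
      funext s
      rw [b4_line_add]
    have e2 := b4_fc_translate (fun s => p (line w x s)) m t
    rw [e1, e2, norm_mul, norm_pow, norm_e, one_pow, mul_one]
  · intro w' hw' x t
    unfold EV
    congr 1
    funext s
    rw [b4_line_comm w' w x t s, hw']

end CP
end Pool.Agent.MP_44c6d5_nt
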