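import Mathlib
import Pool.Agent.MP_44c6d5_nt.CP.DefX
import Pool.Agent.MP_44c6d5_nt.CP.B4
import Pool.Agent.MP_44c6d5_nt.CP.B10

/-!
[X5] The test form along lines in the direction of a sum.
-/

namespace Pool.Agent.MP_44c6d5_nt
namespace CP

open MeasureTheory Real Module

variable {k : ℕ}

theorem x5_norm_fc_le (f : UnitAddCircle → ℝ) (m : ℕ) :
    ‖fc f m‖ ≤ ∫ t : UnitAddCircle, |f t| := by
  unfold fc
  refine (norm_integral_le_integral_norm _).trans (le_of_eq ?_)
  refine integral_congr_ae (Filter.Eventually.of_forall fun t => ?_)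
  simp only [norm_mul, norm_pow, RCLike.norm_conj, norm_e, one_pow, mul_one,
    Complex.norm_real, Real.norm_eq_abs]

theorem x5_meas_fc (w : Fin k → ℤ) {g : Tor k → ℝ} (hg : Measurable g) (m : ℕ) :
    Measurable fun x : Tor k => fc (fun t => g (line w x t)) m := by
  have h1 : Measurable (fun q : Tor k × UnitAddCircle =>
      ((g (line w q.1 q.2) : ℝ) : ℂ) * (starRingEnd ℂ (e q.2)) ^ m) := by
    apply Measurable.mul
    · apply Complex.measurable_ofReal.comp
      exact hg.comp (continuous_line w).measurable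
    · apply Measurable.pow_const
      exact (Complex.continuous_conj.comp (continuous_e.comp continuous_snd)).measurable
  exact (h1.stronglyMeasurable.integral_prod_right'
    (ν := (volume : Measure UnitAddCircle))).measurable

theorem x5_abs_line (w : Fin k → ℤ) {u : Tor k → ℝ} (hu : Integrable u) :
    Integrable (fun x : Tor k => ∫ t : UnitAddCircle, |u (line w x t)|) ∧
      ∫ x : Tor k, ∫ t : UnitAddCircle, |u (line w x t)| = ∫ x : Tor k, |u x| :=
  ⟨integrable_integral_line w hu.abs, (integral_line w hu.abs).symm⟩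

theorem x5_bd (w : Fin k → ℤ) {p : Tor k → ℝ} {C : ℝ} (hpb : ∀ᵐ x : Tor k, |p x| ≤ C) :
    ∀ᵐ x : Tor k, ∀ m : ℕ, ‖fc (fun t => p (line w x t)) m‖ ≤ C := by
  filter_upwards [ae_line w hpb] with x hx m
  unfold fc
  refine (norm_integral_le_of_norm_le_const (C := C) ?_).trans (by simp)
  filter_upwards [hx] with t ht
  rw [norm_mul, norm_pow, RCLike.norm_conj, norm_e, one_pow, mul_one, Complex.norm_real,
    Real.norm_eq_abs]
  exact ht

theorem x5_C_nonneg {p : Tor k → ℝ} {C : ℝ} (hpb : ∀ᵐ x : Tor k, |p x| ≤ C) : 0 ≤ C := by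
  obtain ⟨x, hx⟩ := hpb.exists
  exact (abs_nonneg _).trans hx

/-- the product of a coefficient of `u` and a bounded function -/
theorem x5_prod (w : Fin k → ℤ) {u : Tor k → ℝ} (hum : Measurable u) (hu : Integrable u)
    {H : Tor k → ℂ} (hH : Measurable H) {C : ℝ} (hHb : ∀ᵐ x : Tor k, ‖H x‖ ≤ C) (m : ℕ) :
    Integrable (fun x : Tor k => ((starRingEnd ℂ (fc (fun t => u (line w x t)) m)) * H x).re) ∧
      ∫ x : Tor k, ‖((starRingEnd ℂ (fc (fun t => u (line w x t)) m)) * H x).re‖ ≤
        C * ∫ x : Tor k, |u x| := by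
  obtain ⟨i1, i2⟩ := x5_abs_line w hu
  have hb : ∀ᵐ x : Tor k, ‖((starRingEnd ℂ (fc (fun t => u (line w x t)) m)) * H x).re‖ ≤
      C * ∫ t : UnitAddCircle, |u (line w x t)| := by
    filter_upwards [hHb] with x hx
    have h1 := Complex.abs_re_le_norm ((starRingEnd ℂ (fc (fun t => u (line w x t)) m)) * H x)
    rw [Real.norm_eq_abs]
    refine h1.trans ?_
    rw [norm_mul, RCLike.norm_conj, mul_comm]
    have h2 := x5_norm_fc_le (fun t => u (line w x t)) m
    exact mul_le_mul hx h2 (norm_nonneg _) ((norm_nonneg _).trans hx)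
  have hm : Measurable
      (fun x : Tor k => ((starRingEnd ℂ (fc (fun t => u (line w x t)) m)) * H x).re) :=
    Complex.measurable_re.comp ((Complex.continuous_conj.measurable.comp
      (x5_meas_fc w hum m)).mul hH)
  have hi : Integrable
      (fun x : Tor k => ((starRingEnd ℂ (fc (fun t => u (line w x t)) m)) * H x).re) :=
    (i1.const_mul C).mono' hm.aestronglyMeasurable hb
  refine ⟨hi, ?_⟩
  calc ∫ x : Tor k, ‖((starRingEnd ℂ (fc (fun t => u (line w x t)) m)) * H x).re‖
      ≤ ∫ x : Tor k, C * ∫ t : UnitAddCircle, |u (line w x t)| :=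
        integral_mono_ae hi.norm (i1.const_mul C) hb
    _ = C * ∫ x : Tor k, |u x| := by rw [integral_const_mul, i2]

/-- the integral over the line is removed by the translation property of `H` -/
theorem x5_remove (w : Fin k → ℤ) {u : Tor k → ℝ} (hum : Measurable u) (hu : Integrable u)
    {H : Tor k → ℂ} (hH : Measurable H) {C : ℝ} (hHb : ∀ᵐ x : Tor k, ‖H x‖ ≤ C) (m : ℕ)
    (hHl : ∀ x t, H (line w x t) = H x * (e t) ^ m) :
    ∫ x : Tor k, ((starRingEnd ℂ (fc (fun t => u (line w x t)) m)) * H x).re =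
      ∫ x : Tor k, (((u x : ℝ) : ℂ) * H x).re := by
  have hm : Measurable fun x : Tor k => (((u x : ℝ) : ℂ) * H x).re :=
    Complex.measurable_re.comp ((Complex.measurable_ofReal.comp hum).mul hH)
  have hi : Integrable fun x : Tor k => (((u x : ℝ) : ℂ) * H x).re := by
    refine (hu.abs.const_mul C).mono' hm.aestronglyMeasurable ?_
    filter_upwards [hHb] with x hx
    rw [Real.norm_eq_abs]
    refine (Complex.abs_re_le_norm _).trans ?_
    rw [norm_mul, Complex.norm_real, Real.norm_eq_abs, mul_comm]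
    exact mul_le_mul_of_nonneg_right hx (abs_nonneg _)
  rw [integral_line w hi]
  refine integral_congr_ae ?_
  filter_upwards [ae_integrable_line w hu] with x hx
  have h1 : starRingEnd ℂ (fc (fun t => u (line w x t)) m) =
      ∫ t : UnitAddCircle, ((u (line w x t) : ℝ) : ℂ) * (e t) ^ m := by
    unfold fc
    rw [← integral_conj]
    refine integral_congr_ae (Filter.Eventually.of_forall fun t => ?_)
    simp only [map_mul, map_pow, Complex.conj_conj, Complex.conj_ofReal]
  have h2 : Integrable fun t : UnitAddCircle => ((u (line w x t) : ℝ) : ℂ) * (e t) ^ m := by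
    refine hx.ofReal.mul_bdd (c := 1) (continuous_e.pow m).aestronglyMeasurable ?_
    refine Filter.Eventually.of_forall fun t => ?_
    rw [norm_pow, norm_e, one_pow]
  have h3 := integral_re (h2.mul_const (H x))
  rw [integral_mul_const, ← h1] at h3
  rw [← RCLike.re_eq_complex_re]
  rw [← h3]
  refine integral_congr_ae (Filter.Eventually.of_forall fun t => ?_)
  simp only [hHl, RCLike.re_eq_complex_re]
  congr 1
  ring

/-- the integral of the test form -/
theorem x5_tsum (w : Fin k → ℤ) {u : Tor k → ℝ} (hum : Measurable u) (hu : Integrable u)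
    {p : Tor k → ℝ} (hpm : Measurable p) {C : ℝ} (hpb : ∀ᵐ x : Tor k, |p x| ≤ C)
    {ρ b : ℝ} (h0 : 0 < ρ) (h1 : ρ < 1) (hb0 : 0 ≤ b) (hb1 : b ≤ 1) :
    Summable (fun m : ℕ => 2 * ρ ^ (2 * m) * (1 - b ^ m) *
        ∫ x : Tor k, ((starRingEnd ℂ (fc (fun t => u (line w x t)) m)) *
          fc (fun t => p (line w x t)) m).re) ∧
      ∫ x : Tor k, TV ρ b w u p x = ∑' m : ℕ, 2 * ρ ^ (2 * m) * (1 - b ^ m) *
        ∫ x : Tor k, ((starRingEnd ℂ (fc (fun t => u (line w x t)) m)) *
          fc (fun t => p (line w x t)) m).re := by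
  have hC := x5_C_nonneg hpb
  set c : ℕ → ℝ := fun m => 2 * ρ ^ (2 * m) * (1 - b ^ m) with hc
  set D : ℝ := C * ∫ x : Tor k, |u x| with hD
  have hD0 : 0 ≤ D := mul_nonneg hC (integral_nonneg fun x => abs_nonneg _)
  have hF : ∀ m, Measurable fun x : Tor k => fc (fun t => p (line w x t)) m := fun m =>
    x5_meas_fc w hpm m
  have hFb : ∀ m, ∀ᵐ x : Tor k, ‖fc (fun t => p (line w x t)) m‖ ≤ C := fun m => by
    filter_upwards [x5_bd w hpb] with x hx using hx m
  have hcb : ∀ m, 0 ≤ c m ∧ c m ≤ 2 * (ρ ^ 2) ^ m := by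
    intro m
    have h2 : 0 ≤ b ^ m := pow_nonneg hb0 m
    have h3 : b ^ m ≤ 1 := pow_le_one₀ hb0 hb1
    have h4 : 0 < (ρ ^ 2) ^ m := by positivity
    simp only [hc, pow_mul]
    constructor
    · exact mul_nonneg (by positivity) (by linarith)
    · nlinarith
  have hsum : Summable fun m : ℕ => 2 * (ρ ^ 2) ^ m * D := by
    have h2 : ρ ^ 2 < 1 := by nlinarith
    exact ((summable_geometric_of_lt_one (by positivity) h2).mul_left 2).mul_right D
  have hi : ∀ m, Integrable fun x : Tor k => c m *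
      ((starRingEnd ℂ (fc (fun t => u (line w x t)) m)) * fc (fun t => p (line w x t)) m).re :=
    fun m => (x5_prod w hum hu (hF m) (hFb m) m).1.const_mul _
  have hn : ∀ m, ∫ x : Tor k, ‖c m *
      ((starRingEnd ℂ (fc (fun t => u (line w x t)) m)) *
        fc (fun t => p (line w x t)) m).re‖ ≤ 2 * (ρ ^ 2) ^ m * D := by
    intro m
    have h2 := (x5_prod w hum hu (hF m) (hFb m) m).2
    have h3 : ∀ x : Tor k, ‖c m * ((starRingEnd ℂ (fc (fun t => u (line w x t)) m)) *
        fc (fun t => p (line w x t)) m).re‖ = c m *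
        ‖((starRingEnd ℂ (fc (fun t => u (line w x t)) m)) *
          fc (fun t => p (line w x t)) m).re‖ := by
      intro x
      rw [norm_mul, Real.norm_of_nonneg (hcb m).1]
    simp only [h3]
    rw [integral_const_mul]
    exact mul_le_mul (hcb m).2 h2 (integral_nonneg fun x => norm_nonneg _) (by positivity)
  have hs : Summable fun m => ∫ x : Tor k, ‖c m *
      ((starRingEnd ℂ (fc (fun t => u (line w x t)) m)) *
        fc (fun t => p (line w x t)) m).re‖ :=
    Summable.of_nonneg_of_le (fun m => integral_nonneg fun x => norm_nonneg _) hn hsum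
  have h5 := hasSum_integral_of_summable_integral_norm hi hs
  simp only [integral_const_mul] at h5
  exact ⟨h5.summable, h5.tsum_eq.symm⟩

theorem x5_line_add (v w : Fin k → ℤ) (x : Tor k) (t : UnitAddCircle) :
    line (v + w) x t = line v (line w x t) t := by
  funext i
  simp only [line, Pi.add_apply, add_smul]
  abel

theorem x5_line_sum {ι : Type} [DecidableEq ι] (v : ι → Fin k → ℤ) {q : Tor k → ℝ}
    (s : Finset ι) (hinv : ∀ i ∈ s, ∀ x t, q (line (v i) x t) = q x) (x : Tor k)
    (t : UnitAddCircle) : q (line (∑ i ∈ s, v i) x t) = q x := by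
  induction s using Finset.induction_on generalizing x with
  | empty =>
    congr 1
    funext i
    simp [line]
  | insert a s ha ih =>
    rw [Finset.sum_insert ha, x5_line_add, hinv a (Finset.mem_insert_self a s)]
    exact ih (fun i hi => hinv i (Finset.mem_insert_of_mem hi)) x

theorem x5_line_univ {ι : Type} [Fintype ι] [DecidableEq ι] (v : ι → Fin k → ℤ)
    (p : ι → Tor k → ℝ) (hinv : ∀ i j, i ≠ j → ∀ x t, p j (line (v i) x t) = p j x) (j : ι)
    (x : Tor k) (t : UnitAddCircle) : p j (line (∑ i, v i) x t) = p j (line (v j) x t) := by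
  rw [← Finset.sum_erase_add Finset.univ v (Finset.mem_univ j), x5_line_add]
  exact x5_line_sum v _ (fun i hi => hinv i j (Finset.ne_of_mem_erase hi)) _ t

theorem x5_trans (v : Fin k → ℤ) (p : Tor k → ℝ) (m : ℕ) (x : Tor k) (t : UnitAddCircle) :
    fc (fun s => p (line v (line v x t) s)) m = fc (fun s => p (line v x s)) m * (e t) ^ m := by
  rw [← b4_fc_translate]
  congr 1
  funext s
  rw [b4_line_add]

theorem x5_fc_sum {ι : Type} (s : Finset ι) (f : ι → UnitAddCircle → ℝ)
    (hf : ∀ j ∈ s, Integrable (f j)) (m : ℕ) :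
    fc (fun t => ∑ j ∈ s, f j t) m = ∑ j ∈ s, fc (f j) m := by
  unfold fc
  rw [← integral_finsetSum s fun j hj => A2_integrable_fc (hf j hj) m]
  refine integral_congr_ae (Filter.Eventually.of_forall fun t => ?_)
  simp only
  push_cast
  rw [Finset.sum_mul]

-- [X5]
theorem TV_sum {ι : Type} [Fintype ι] [DecidableEq ι] (v : ι → Fin k → ℤ) {u : Tor k → ℝ}
    (hum : Measurable u) (hu : Integrable u) (p : ι → Tor k → ℝ) (hpm : ∀ j, Measurable (p j))
    {C : ℝ} (hpb : ∀ j, ∀ᵐ x : Tor k, |p j x| ≤ C)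
    (hinv : ∀ i j, i ≠ j → ∀ x t, p j (line (v i) x t) = p j x)
    {ρ b : ℝ} (h0 : 0 < ρ) (h1 : ρ < 1) (hb0 : 0 ≤ b) (hb1 : b ≤ 1) :
    (∫ x : Tor k, TV ρ b (∑ j, v j) u (fun x => ∑ j, p j x) x) =
      ∑ j, ∫ x : Tor k, TV ρ b (v j) u (p j) x := by
  set w : Fin k → ℤ := ∑ j, v j with hw
  set F : ι → ℕ → Tor k → ℂ := fun j m x => fc (fun t => p j (line (v j) x t)) m with hF
  have hFm : ∀ j m, Measurable (F j m) := fun j m => x5_meas_fc (v j) (hpm j) m
  have hFb : ∀ j m, ∀ᵐ x : Tor k, ‖F j m x‖ ≤ C := fun j m => by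
    filter_upwards [x5_bd (v j) (hpb j)] with x hx using hx m
  have hFl : ∀ j m x t, F j m (line (v j) x t) = F j m x * (e t) ^ m := fun j m x t =>
    x5_trans (v j) (p j) m x t
  have hFw : ∀ j m x t, F j m (line w x t) = F j m x * (e t) ^ m := by
    intro j m x t
    rw [← hFl j m x t]
    simp only [hF]
    congr 1
    funext s
    rw [b4_line_comm w (v j) x t s, hw, x5_line_univ v p hinv j, b4_line_comm (v j) (v j) x t s]
  have hsm : Measurable fun x : Tor k => ∑ j, p j x :=
    Finset.measurable_sum _ fun j _ => hpm j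
  have hsb : ∀ᵐ x : Tor k, |∑ j, p j x| ≤ ∑ _j : ι, C := by
    have h2 : ∀ᵐ x : Tor k, ∀ j, |p j x| ≤ C := ae_all_iff.mpr hpb
    filter_upwards [h2] with x hx
    exact (Finset.abs_sum_le_sum_abs _ _).trans (Finset.sum_le_sum fun j _ => hx j)
  have hpi : ∀ j, Integrable (p j) := fun j =>
    (integrable_const C).mono' (hpm j).aestronglyMeasurable (by
      filter_upwards [hpb j] with x hx
      rwa [Real.norm_eq_abs])
  -- the coefficients of the sum
  have hco : ∀ m, ∀ᵐ x : Tor k,
      fc (fun t => ∑ j, p j (line w x t)) m = ∑ j, F j m x := by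
    intro m
    have h2 : ∀ᵐ x : Tor k, ∀ j, Integrable fun t => p j (line w x t) :=
      ae_all_iff.mpr fun j => ae_integrable_line w (hpi j)
    filter_upwards [h2] with x hx
    rw [x5_fc_sum Finset.univ _ (fun j _ => hx j) m]
    refine Finset.sum_congr rfl fun j _ => ?_
    simp only [hF]
    congr 1
    funext t
    rw [hw, x5_line_univ v p hinv j]
  have hterm : ∀ m : ℕ, ∫ x : Tor k, ((starRingEnd ℂ (fc (fun t => u (line w x t)) m)) *
      fc (fun t => ∑ j, p j (line w x t)) m).re = ∑ j, ∫ x : Tor k,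
        ((starRingEnd ℂ (fc (fun t => u (line (v j) x t)) m)) * F j m x).re := by
    intro m
    have h2 : ∫ x : Tor k, ((starRingEnd ℂ (fc (fun t => u (line w x t)) m)) *
        fc (fun t => ∑ j, p j (line w x t)) m).re =
        ∫ x : Tor k, ∑ j, ((starRingEnd ℂ (fc (fun t => u (line w x t)) m)) * F j m x).re := by
      refine integral_congr_ae ?_
      filter_upwards [hco m] with x hx
      rw [hx, Finset.mul_sum, Complex.re_sum]
    rw [h2, integral_finsetSum _ fun j _ => (x5_prod w hum hu (hFm j m) (hFb j m) m).1]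
    refine Finset.sum_congr rfl fun j _ => ?_
    rw [x5_remove w hum hu (hFm j m) (hFb j m) m (hFw j m),
      x5_remove (v j) hum hu (hFm j m) (hFb j m) m (hFl j m)]
  rw [(x5_tsum w hum hu hsm hsb h0 h1 hb0 hb1).2]
  have hj : ∀ j, ∫ x : Tor k, TV ρ b (v j) u (p j) x = _ := fun j =>
    (x5_tsum (v j) hum hu (hpm j) (hpb j) h0 h1 hb0 hb1).2
  simp only [hj]
  rw [← Summable.tsum_finsetSum fun j _ => (x5_tsum (v j) hum hu (hpm j) (hpb j) h0 h1 hb0 hb1).1]
  refine tsum_congr fun m => ?_
  rw [hterm m, Finset.mul_sum]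

end CP
end Pool.Agent.MP_44c6d5_nt
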