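import Mathlib
import Pool.Agent.MP_44c6d5_nt.CP.DefX
import Pool.Agent.MP_44c6d5_nt.CP.A2
import Pool.Agent.MP_44c6d5_nt.CP.B4
import Pool.Agent.MP_44c6d5_nt.CP.B10

/-!
Row X6: the local energy on lines in the direction of a sum.
-/

namespace Pool.Agent.MP_44c6d5_nt
namespace CP

open MeasureTheory Real Module

variable {k : ℕ}

/-- Fourier coefficient on the line. -/
noncomputable def x6F (w : Fin k → ℤ) (p : Tor k → ℝ) (m : ℕ) (x : Tor k) : ℂ :=
  fc (fun t => p (line w x t)) m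

theorem x6_meas (w : Fin k → ℤ) {p : Tor k → ℝ} (hp : Measurable p) (m : ℕ) :
    Measurable (x6F w p m) := by
  have h1 : Measurable fun q : Tor k × UnitAddCircle =>
      ((p (line w q.1 q.2) : ℝ) : ℂ) * (starRingEnd ℂ (e q.2)) ^ m := by
    apply Measurable.mul
    · exact Complex.measurable_ofReal.comp (hp.comp (continuous_line w).measurable)
    · apply Measurable.pow_const
      exact (Complex.continuous_conj.comp (continuous_e.comp continuous_snd)).measurable
  exact (h1.stronglyMeasurable.integral_prod_right'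
    (ν := (volume : Measure UnitAddCircle))).measurable

theorem x6_bound (w : Fin k → ℤ) {p : Tor k → ℝ} {C : ℝ} (hpb : ∀ᵐ x : Tor k, |p x| ≤ C) :
    ∀ᵐ x : Tor k, ∀ m : ℕ, ‖x6F w p m x‖ ≤ C := by
  filter_upwards [ae_line w hpb] with x hx m
  unfold x6F fc
  have h := norm_integral_le_of_norm_le_const (μ := (volume : Measure UnitAddCircle))
    (f := fun t => ((p (line w x t) : ℝ) : ℂ) * (starRingEnd ℂ (e t)) ^ m) (C := C) (by
      filter_upwards [hx] with t ht
      rw [norm_mul, norm_pow, RCLike.norm_conj, norm_e, one_pow, mul_one, Complex.norm_real,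
        norm_eq_abs]
      exact ht)
  simpa using h

theorem x6_line (w : Fin k → ℤ) (p : Tor k → ℝ) (m : ℕ) (x : Tor k) (t : UnitAddCircle) :
    x6F w p m (line w x t) = x6F w p m x * (e t) ^ m := by
  unfold x6F
  rw [← b4_fc_translate]
  congr 1
  funext s
  rw [b4_line_add]

theorem x6_inv (w w' : Fin k → ℤ) {p : Tor k → ℝ} (h : ∀ x t, p (line w' x t) = p x) (m : ℕ)
    (x : Tor k) (t : UnitAddCircle) : x6F w p m (line w' x t) = x6F w p m x := by
  unfold x6F
  congr 1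
  funext s
  rw [b4_line_comm, h]

/-- the line in the direction of a sum -/
theorem x6_sum_line {ι : Type} [DecidableEq ι] (v : ι → Fin k → ℤ) {p : Tor k → ℝ} (j : ι)
    (hinv : ∀ i, i ≠ j → ∀ x t, p (line (v i) x t) = p x) (s : Finset ι) (hj : j ∉ s)
    (x : Tor k) (t : UnitAddCircle) : p (line (∑ i ∈ s, v i) x t) = p x := by
  induction s using Finset.induction_on generalizing x with
  | empty =>
    congr 1
    funext i
    simp [line]
  | insert a s ha ih =>
    rw [Finset.mem_insert, not_or] at hj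
    have h1 : line (∑ i ∈ insert a s, v i) x t = line (v a) (line (∑ i ∈ s, v i) x t) t := by
      funext i
      rw [Finset.sum_insert ha]
      simp only [line, Pi.add_apply, add_smul]
      abel
    rw [h1, hinv a (Ne.symm hj.1), ih hj.2]

theorem x6_sum_line' {ι : Type} [Fintype ι] [DecidableEq ι] (v : ι → Fin k → ℤ)
    {p : Tor k → ℝ} (j : ι) (hinv : ∀ i, i ≠ j → ∀ x t, p (line (v i) x t) = p x)
    (x : Tor k) (t : UnitAddCircle) : p (line (∑ i, v i) x t) = p (line (v j) x t) := by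
  have h1 : line (∑ i, v i) x t = line (∑ i ∈ Finset.univ.erase j, v i) (line (v j) x t) t := by
    funext i
    rw [← Finset.add_sum_erase Finset.univ v (Finset.mem_univ j)]
    simp only [line, Pi.add_apply, add_smul]
    abel
  rw [h1, x6_sum_line v j hinv _ (Finset.notMem_erase _ _)]

/-- translation invariance -/
theorem x6_shift (w : Fin k → ℤ) (t : UnitAddCircle) (f : Tor k → ℂ) :
    ∫ x : Tor k, f (line w x t) = ∫ x : Tor k, f x := by
  have h : ∀ x : Tor k, line w x t = x + fun i => w i • t := fun x => rfl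
  simp_rw [h]
  exact integral_add_right_eq_self f _

theorem x6_exists {m : ℕ} (hm : 1 ≤ m) : ∃ t : UnitAddCircle, (e t) ^ m ≠ 1 := by
  by_contra hcon
  push Not at hcon
  have h1 := A1_zpow (k := (m : ℤ)) (by omega)
  have h2 : ∫ t : UnitAddCircle, (e t) ^ (m : ℤ) = 1 := by
    have : ∀ t : UnitAddCircle, (e t) ^ (m : ℤ) = 1 := fun t => by
      rw [zpow_natCast]
      exact hcon t
    simp_rw [this]
    simp
  rw [h1] at h2
  exact zero_ne_one h2

theorem x6_orth {ι : Type} [DecidableEq ι] (v : ι → Fin k → ℤ) (p : ι → Tor k → ℝ)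
    (hinv : ∀ i j, i ≠ j → ∀ x t, p j (line (v i) x t) = p j x) {m : ℕ} (hm : 1 ≤ m)
    {i j : ι} (hij : i ≠ j) :
    ∫ x : Tor k, (starRingEnd ℂ (x6F (v i) (p i) m x)) * x6F (v j) (p j) m x = 0 := by
  obtain ⟨t, ht⟩ := x6_exists hm
  have h1 := x6_shift (v i) t
    (fun x => (starRingEnd ℂ (x6F (v i) (p i) m x)) * x6F (v j) (p j) m x)
  have h2 : ∀ x : Tor k, (starRingEnd ℂ (x6F (v i) (p i) m (line (v i) x t))) *
      x6F (v j) (p j) m (line (v i) x t) = (starRingEnd ℂ ((e t) ^ m)) *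
      ((starRingEnd ℂ (x6F (v i) (p i) m x)) * x6F (v j) (p j) m x) := by
    intro x
    rw [x6_line, x6_inv (v j) (v i) (hinv i j hij), map_mul]
    ring
  simp_rw [h2] at h1
  rw [integral_const_mul] at h1
  set I := ∫ x : Tor k, (starRingEnd ℂ (x6F (v i) (p i) m x)) * x6F (v j) (p j) m x with hI
  have h3 : (starRingEnd ℂ ((e t) ^ m) - 1) * I = 0 := by
    rw [sub_mul, one_mul, h1, sub_self]
  rcases mul_eq_zero.1 h3 with h | h
  · exfalso
    apply ht
    have h4 : starRingEnd ℂ ((e t) ^ m) = 1 := sub_eq_zero.1 h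
    have h5 := congrArg (starRingEnd ℂ) h4
    rwa [Complex.conj_conj, map_one] at h5
  · exact h

theorem x6_integrable (w w' : Fin k → ℤ) {p q : Tor k → ℝ} (hp : Measurable p)
    (hq : Measurable q) {C : ℝ} (hpb : ∀ᵐ x : Tor k, |p x| ≤ C)
    (hqb : ∀ᵐ x : Tor k, |q x| ≤ C) (m : ℕ) :
    Integrable fun x : Tor k => (starRingEnd ℂ (x6F w p m x)) * x6F w' q m x := by
  refine Integrable.of_bound
    (((Complex.continuous_conj.measurable.comp (x6_meas w hp m)).mul
      (x6_meas w' hq m)).aestronglyMeasurable) (C * C) ?_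
  filter_upwards [x6_bound w hpb, x6_bound w' hqb] with x h1 h2
  rw [norm_mul, RCLike.norm_conj]
  exact mul_le_mul (h1 m) (h2 m) (norm_nonneg _) ((norm_nonneg _).trans (h1 m))

/-- the quadratic identity -/
theorem x6_sq {ι : Type} [Fintype ι] [DecidableEq ι] (v : ι → Fin k → ℤ) (p : ι → Tor k → ℝ)
    (hpm : ∀ j, Measurable (p j)) {C : ℝ} (hpb : ∀ j, ∀ᵐ x : Tor k, |p j x| ≤ C)
    (hinv : ∀ i j, i ≠ j → ∀ x t, p j (line (v i) x t) = p j x) {m : ℕ} (hm : 1 ≤ m) :
    ∫ x : Tor k, ‖∑ j, x6F (v j) (p j) m x‖ ^ 2 =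
      ∑ j, ∫ x : Tor k, ‖x6F (v j) (p j) m x‖ ^ 2 := by
  have hsq : ∀ z : ℂ, ((starRingEnd ℂ z) * z) = ((‖z‖ ^ 2 : ℝ) : ℂ) := by
    intro z
    rw [Complex.conj_mul']
    push_cast
    rfl
  have h1 : ∫ x : Tor k, (starRingEnd ℂ (∑ j, x6F (v j) (p j) m x)) *
      (∑ j, x6F (v j) (p j) m x) =
      ∑ j, ∫ x : Tor k, (starRingEnd ℂ (x6F (v j) (p j) m x)) * x6F (v j) (p j) m x := by
    have h2 : ∀ x : Tor k, (starRingEnd ℂ (∑ j, x6F (v j) (p j) m x)) *
        (∑ j, x6F (v j) (p j) m x) = ∑ i, ∑ j, (starRingEnd ℂ (x6F (v i) (p i) m x)) *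
          x6F (v j) (p j) m x := by
      intro x
      rw [map_sum, Finset.sum_mul_sum]
    simp_rw [h2]
    rw [integral_finsetSum _ fun i _ => integrable_finsetSum _ fun j _ =>
      x6_integrable (v i) (v j) (hpm i) (hpm j) (hpb i) (hpb j) m]
    apply Finset.sum_congr rfl
    intro i _
    rw [integral_finsetSum _ fun j _ =>
      x6_integrable (v i) (v j) (hpm i) (hpm j) (hpb i) (hpb j) m]
    rw [Finset.sum_eq_single i]
    · intro j _ hji
      exact x6_orth v p hinv hm (Ne.symm hji)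
    · intro h
      exact absurd (Finset.mem_univ i) h
  simp_rw [hsq] at h1
  rw [integral_complex_ofReal] at h1
  have h3 : ∀ j, ∫ x : Tor k, ((‖x6F (v j) (p j) m x‖ ^ 2 : ℝ) : ℂ) =
      ((∫ x : Tor k, ‖x6F (v j) (p j) m x‖ ^ 2 : ℝ) : ℂ) := fun j => integral_complex_ofReal
  simp_rw [h3] at h1
  exact_mod_cast h1

/-- coefficient bound -/
theorem x6_coef {b : ℝ} (hb0 : 0 ≤ b) (hb1 : b ≤ 1) {ρ : ℝ} (h0 : 0 < ρ) (m : ℕ) :
    0 ≤ ρ ^ m * (1 - b ^ m) / (m : ℝ) ∧ ρ ^ m * (1 - b ^ m) / (m : ℝ) ≤ ρ ^ m := by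
  have h1 : 0 ≤ 1 - b ^ m := sub_nonneg.2 (pow_le_one₀ hb0 hb1)
  have h2 : 1 - b ^ m ≤ 1 := by linarith [pow_nonneg hb0 m]
  have h3 : 0 < ρ ^ m := pow_pos h0 m
  refine ⟨by positivity, ?_⟩
  rcases Nat.eq_zero_or_pos m with rfl | hm
  · simp
  · have hm1 : (1 : ℝ) ≤ m := by exact_mod_cast hm
    rw [div_le_iff₀ (by linarith)]
    calc ρ ^ m * (1 - b ^ m) ≤ ρ ^ m * 1 := mul_le_mul_of_nonneg_left h2 h3.le
      _ ≤ ρ ^ m * m := mul_le_mul_of_nonneg_left hm1 h3.le

/-- exchange of the sum and the integral -/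
theorem x6_swap {ρ b : ℝ} (h0 : 0 < ρ) (h1 : ρ < 1) (hb0 : 0 ≤ b) (hb1 : b ≤ 1)
    (g : ℕ → Tor k → ℂ) (hg : ∀ m, Measurable (g m)) {C : ℝ}
    (hgb : ∀ᵐ x : Tor k, ∀ m, ‖g m x‖ ≤ C) :
    ∫ x : Tor k, ∑' m : ℕ, ρ ^ m * (1 - b ^ m) / (m : ℝ) * ‖g m x‖ ^ 2 =
      ∑' m : ℕ, ρ ^ m * (1 - b ^ m) / (m : ℝ) * ∫ x : Tor k, ‖g m x‖ ^ 2 := by
  have hint : ∀ m : ℕ, Integrable fun x : Tor k =>
      ρ ^ m * (1 - b ^ m) / (m : ℝ) * ‖g m x‖ ^ 2 := by
    intro m
    apply Integrable.const_mul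
    refine Integrable.of_bound ((hg m).norm.pow_const 2).aestronglyMeasurable (C ^ 2) ?_
    filter_upwards [hgb] with x hx
    rw [norm_eq_abs, abs_of_nonneg (by positivity)]
    exact pow_le_pow_left₀ (norm_nonneg _) (hx m) 2
  have hsum : Summable fun m : ℕ => ∫ x : Tor k, ‖ρ ^ m * (1 - b ^ m) / (m : ℝ) * ‖g m x‖ ^ 2‖ := by
    refine Summable.of_nonneg_of_le (fun m => integral_nonneg fun x => norm_nonneg _)
      (fun m => ?_) ((summable_geometric_of_lt_one h0.le h1).mul_right (C ^ 2))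
    have h2 := x6_coef hb0 hb1 h0 m
    calc ∫ x : Tor k, ‖ρ ^ m * (1 - b ^ m) / (m : ℝ) * ‖g m x‖ ^ 2‖
        ≤ ∫ _x : Tor k, ρ ^ m * C ^ 2 := by
          apply integral_mono_ae (hint m).norm (integrable_const _)
          filter_upwards [hgb] with x hx
          show ‖ρ ^ m * (1 - b ^ m) / (m : ℝ) * ‖g m x‖ ^ 2‖ ≤ ρ ^ m * C ^ 2
          rw [norm_eq_abs, abs_of_nonneg (mul_nonneg h2.1 (by positivity))]
          exact mul_le_mul h2.2 (pow_le_pow_left₀ (norm_nonneg _) (hx m) 2) (by positivity)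
            (by positivity)
      _ = ρ ^ m * C ^ 2 := by simp
  rw [← integral_tsum_of_summable_integral_norm hint hsum]
  congr 1
  funext m
  rw [integral_const_mul]

theorem EV_sum {ι : Type} [Fintype ι] [DecidableEq ι] (v : ι → Fin k → ℤ)
    (p : ι → Tor k → ℝ) (hpm : ∀ j, Measurable (p j)) {C : ℝ}
    (hpb : ∀ j, ∀ᵐ x : Tor k, |p j x| ≤ C)
    (hinv : ∀ i j, i ≠ j → ∀ x t, p j (line (v i) x t) = p j x)
    {ρ b : ℝ} (h0 : 0 < ρ) (h1 : ρ < 1) (hb0 : 0 ≤ b) (hb1 : b ≤ 1) :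
    (∫ x : Tor k, EV ρ b (∑ j, v j) (fun x => ∑ j, p j x) x) =
      ∑ j, ∫ x : Tor k, EV ρ b (v j) (p j) x := by
  -- the coefficients on the line of the sum
  have hpi : ∀ j, Integrable (p j) := fun j =>
    Integrable.of_bound (hpm j).aestronglyMeasurable C (by
      filter_upwards [hpb j] with x hx
      rwa [norm_eq_abs])
  have hF : ∀ᵐ x : Tor k, EV ρ b (∑ j, v j) (fun x => ∑ j, p j x) x =
      ∑' m : ℕ, ρ ^ m * (1 - b ^ m) / (m : ℝ) * ‖∑ j, x6F (v j) (p j) m x‖ ^ 2 := by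
    have hall : ∀ᵐ x : Tor k, ∀ j, Integrable fun t => p j (line (v j) x t) := by
      rw [ae_all_iff]
      intro j
      exact ae_integrable_line (v j) (hpi j)
    filter_upwards [hall] with x hx
    unfold EV Eq
    congr 1
    funext m
    congr 2
    have h2 : fc (fun t => ∑ j, p j (line (∑ j, v j) x t)) m = ∑ j, x6F (v j) (p j) m x := by
      have h3 : (fun t => ∑ j, p j (line (∑ j, v j) x t)) =
          fun t => ∑ j, p j (line (v j) x t) := by
        funext t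
        apply Finset.sum_congr rfl
        intro j _
        exact x6_sum_line' v j (fun i hij => hinv i j hij) x t
      rw [h3]
      unfold x6F fc
      rw [← integral_finsetSum]
      · congr 1
        funext t
        push_cast
        rw [Finset.sum_mul]
      · intro j _
        exact A2_integrable_fc (hx j) m
    rw [h2]
  rw [integral_congr_ae hF]
  have hbd : ∀ᵐ x : Tor k, ∀ j, ∀ m : ℕ, ‖x6F (v j) (p j) m x‖ ≤ C := by
    rw [ae_all_iff]
    intro j
    exact x6_bound (v j) (hpb j)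
  have hbd' : ∀ᵐ x : Tor k, ∀ m : ℕ, ‖∑ j, x6F (v j) (p j) m x‖ ≤ Fintype.card ι * C := by
    filter_upwards [hbd] with x hx m
    refine (norm_sum_le _ _).trans ?_
    refine (Finset.sum_le_sum fun j _ => hx j m).trans ?_
    rw [Finset.sum_const, nsmul_eq_mul, Finset.card_univ]
  rw [x6_swap h0 h1 hb0 hb1 (fun m x => ∑ j, x6F (v j) (p j) m x)
    (fun m => Finset.measurable_sum _ fun j _ => x6_meas (v j) (hpm j) m) hbd']
  have hR : ∀ j, ∫ x : Tor k, EV ρ b (v j) (p j) x =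
      ∑' m : ℕ, ρ ^ m * (1 - b ^ m) / (m : ℝ) * ∫ x : Tor k, ‖x6F (v j) (p j) m x‖ ^ 2 := by
    intro j
    exact x6_swap h0 h1 hb0 hb1 (fun m x => x6F (v j) (p j) m x)
      (fun m => x6_meas (v j) (hpm j) m) (x6_bound (v j) (hpb j))
  simp_rw [hR]
  have hS : ∀ j, Summable fun m : ℕ =>
      ρ ^ m * (1 - b ^ m) / (m : ℝ) * ∫ x : Tor k, ‖x6F (v j) (p j) m x‖ ^ 2 := by
    intro j
    refine Summable.of_nonneg_of_le (fun m => mul_nonneg (x6_coef hb0 hb1 h0 m).1
      (integral_nonneg fun x => by positivity)) (fun m => ?_)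
      ((summable_geometric_of_lt_one h0.le h1).mul_right (C ^ 2))
    apply mul_le_mul (x6_coef hb0 hb1 h0 m).2 _ (integral_nonneg fun x => by positivity)
      (by positivity)
    have hi : Integrable fun x : Tor k => ‖x6F (v j) (p j) m x‖ ^ 2 := by
      refine Integrable.of_bound ((x6_meas (v j) (hpm j) m).norm.pow_const 2).aestronglyMeasurable
        (C ^ 2) ?_
      filter_upwards [x6_bound (v j) (hpb j)] with x hx
      rw [norm_eq_abs, abs_of_nonneg (by positivity)]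
      exact pow_le_pow_left₀ (norm_nonneg _) (hx m) 2
    calc ∫ x : Tor k, ‖x6F (v j) (p j) m x‖ ^ 2 ≤ ∫ _x : Tor k, C ^ 2 := by
          apply integral_mono_ae hi (integrable_const _)
          filter_upwards [x6_bound (v j) (hpb j)] with x hx
          exact pow_le_pow_left₀ (norm_nonneg _) (hx m) 2
      _ = C ^ 2 := by simp
  rw [← Summable.tsum_finsetSum fun j _ => hS j]
  congr 1
  funext m
  rcases Nat.eq_zero_or_pos m with rfl | hm
  · simp
  · rw [x6_sq v p hpm hpb hinv hm, Finset.mul_sum]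

end CP
end Pool.Agent.MP_44c6d5_nt
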