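import Mathlib
import Pool.Agent.MP_44c6d5_nt.CP.DefX
import Pool.Agent.MP_44c6d5_nt.CP.A4
import Pool.Agent.MP_44c6d5_nt.CP.B1
import Pool.Agent.MP_44c6d5_nt.CP.B4
import Pool.Agent.MP_44c6d5_nt.CP.B5

/-!
Row X7: positivity of the test form in both directions, the energy bound at a common scale.
-/

namespace Pool.Agent.MP_44c6d5_nt
namespace CP

open MeasureTheory Real Module

variable {k : ℕ}

theorem measurable_UU (l : Fin k → ℤ) (P : Pol k) : Measurable (UU l P) := by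
  have h1 : Measurable fun q : Tor k × UnitAddCircle => log ‖ev P (line l q.1 q.2)‖ :=
    (measurable_log_ev P).comp (continuous_line l).measurable
  exact (h1.stronglyMeasurable.integral_prod_right'
    (ν := (volume : Measure UnitAddCircle))).measurable

theorem x7_fc (a : ℝ) (f : UnitAddCircle → ℝ) (m : ℕ) :
    fc (fun t => a * f t) m = (a : ℂ) * fc f m := by
  unfold fc
  rw [← integral_const_mul]
  congr 1
  funext t
  push_cast
  ring

theorem x7_Tq (ρ b a d : ℝ) (u p : UnitAddCircle → ℝ) :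
    Tq ρ b (fun t => a * u t) (fun t => d * p t) = a * d * Tq ρ b u p := by
  unfold Tq
  rw [← tsum_mul_left]
  congr 1
  funext m
  rw [x7_fc, x7_fc, map_mul, Complex.conj_ofReal]
  have h : (a : ℂ) * (starRingEnd ℂ) (fc u m) * ((d : ℂ) * fc p m) =
      ((a * d : ℝ) : ℂ) * ((starRingEnd ℂ) (fc u m) * fc p m) := by
    push_cast
    ring
  rw [h, Complex.re_ofReal_mul]
  ring

theorem x7_Bq (ρ a : ℝ) (u : UnitAddCircle → ℝ) :
    Bq ρ (fun t => a * u t) (fun t => a * u t) = a ^ 2 * Bq ρ u u := by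
  unfold Bq
  rw [← tsum_mul_left]
  congr 1
  funext m
  rw [x7_fc, map_mul, Complex.conj_ofReal]
  have h : (a : ℂ) * (starRingEnd ℂ) (fc u m) * ((a : ℂ) * fc u m) =
      ((a ^ 2 : ℝ) : ℂ) * ((starRingEnd ℂ) (fc u m) * fc u m) := by
    push_cast
    ring
  rw [h, Complex.re_ofReal_mul]
  ring

theorem x7_Eq (ρ b d : ℝ) (p : UnitAddCircle → ℝ) :
    Eq ρ b (fun t => d * p t) = d ^ 2 * Eq ρ b p := by
  unfold Eq
  rw [← tsum_mul_left]
  congr 1
  funext m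
  rw [x7_fc, norm_mul, Complex.norm_real, mul_pow, norm_eq_abs, sq_abs]
  ring

/-- the weighted form of `psd`. -/
theorem x7_psd {u p : UnitAddCircle → ℝ} (hu : Integrable u) (hp : Integrable p) {ρ b : ℝ}
    (h0 : 0 < ρ) (h1 : ρ < 1) (hb0 : 0 ≤ b) (hb1 : b ≤ 1) {c : ℝ} (hc : 0 < c) :
    |Tq ρ b u p| ≤ c / 2 * Bq ρ u u + 1 / (2 * c) * Eq ρ b p := by
  have hs : 0 < √c := Real.sqrt_pos.2 hc
  have hs2 : √c ^ 2 = c := Real.sq_sqrt hc.le
  have e1 : (√c)⁻¹ ^ 2 = 1 / c := by rw [inv_pow, hs2, one_div]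
  have e2 : √c * (√c)⁻¹ = 1 := mul_inv_cancel₀ hs.ne'
  have a1 := psd (hu.const_mul (√c)) (hp.const_mul (√c)⁻¹) h0 h1 hb0 hb1
  have a2 := psd (hu.const_mul (-√c)) (hp.const_mul (√c)⁻¹) h0 h1 hb0 hb1
  rw [x7_Tq, x7_Bq, x7_Eq, hs2, e1, e2] at a1
  rw [x7_Tq, x7_Bq, x7_Eq, neg_sq, hs2, e1, neg_mul, e2] at a2
  have e3 : 1 / (2 * c) * Eq ρ b p = 1 / c * Eq ρ b p / 2 := by
    field_simp
  rw [e3, abs_le]
  constructor
  · linarith
  · linarith

theorem TV_psd {ρ b : ℝ} (h0 : 0 < ρ) (h1 : ρ < 1) (hb0 : 0 ≤ b) (hb1 : b ≤ 1)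
    (w l : Fin k → ℤ) {P : Pol k} (hP : P ≠ 0) {p : Tor k → ℝ} (hpm : Measurable p) {C : ℝ}
    (hpb : ∀ᵐ x : Tor k, |p x| ≤ C) {c : ℝ} (hc : 0 < c) : ∀ᵐ x : Tor k,
      |TV ρ b w (UU l P) p x| ≤ c / 2 * EB ρ w l P x + 1 / (2 * c) * EV ρ b w p x := by
  have hu : Integrable (UU l P) := integrable_integral_line l (integrable_log_ev hP)
  have hp : Integrable p := Integrable.of_bound hpm.aestronglyMeasurable C (by
    filter_upwards [hpb] with x hx
    rwa [norm_eq_abs])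
  filter_upwards [ae_integrable_line w hu, ae_integrable_line w hp,
    EB_eq h0 h1 w l hP] with x hx1 hx2 hx3
  rw [hx3]
  exact x7_psd hx1 hx2 h0 h1 hb0 hb1 hc

theorem x7_log_le {y : ℝ} (h0 : 0 ≤ y) (h1 : y ≤ 1 / 2) :
    log (2 / (1 + (1 - y))) ≤ y := by
  have h3 : (2 : ℝ) / (1 + (1 - y)) ≤ 1 + y := by
    rw [div_le_iff₀ (by linarith)]
    nlinarith
  have h4 : log (2 / (1 + (1 - y))) ≤ 2 / (1 + (1 - y)) - 1 :=
    log_le_sub_one_of_pos (div_pos two_pos (by linarith))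
  linarith

theorem x7_EB_mono {ρ ρ' : ℝ} (h0 : 0 < ρ) (h1 : ρ ≤ ρ') (h2 : ρ' < 1) (v l : Fin k → ℤ)
    {P : Pol k} (hP : P ≠ 0) (x : Tor k) : EB ρ v l P x ≤ EB ρ' v l P x := by
  unfold EB
  refine (b4_summable h0 (h1.trans_lt h2) v l hP x).tsum_le_tsum (fun m => ?_)
    (b4_summable (h0.trans_le h1) h2 v l hP x)
  have h3 : ρ ^ m ≤ ρ' ^ m := pow_le_pow_left₀ h0.le h1 m
  gcongr

theorem E1_scale {P : Pol k} (hP : Irreducible P) {l w : Fin k → ℤ} (hl : rl l ∉ Lam P)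
    (hw : rl w ∉ Lam P) {n : ℕ} (hn : 1 ≤ n) {τ : ℝ} (hτ0 : 0 < τ) (hτ : τ ≤ 1 / 4) :
    ∫ x : Tor k, EB (1 - τ / n) w l P x ≤ (wd' w P : ℝ) * (2 * mm P + τ) := by
  have hP0 := hP.ne_zero
  have hN : 1 ≤ wd' w P := (wd'_pos_iff w hP0).2 hw
  have hN' : (1 : ℝ) ≤ wd' w P := by exact_mod_cast hN
  have hn' : (1 : ℝ) ≤ n := by exact_mod_cast hn
  -- the common estimate
  have key : ∀ m : ℕ, 1 ≤ m → wd' w P ≤ m → (1 : ℝ) - τ / n ≤ 1 - τ / m →
      ∫ x : Tor k, EB (1 - τ / n) w l P x ≤ (wd' w P : ℝ) * (2 * mm P + τ) := by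
    intro m hm hNm hnm
    have hm' : (1 : ℝ) ≤ m := by exact_mod_cast hm
    have r0 : 0 < τ / m := by positivity
    have r1 : τ / m ≤ τ := div_le_self hτ0.le hm'
    have s0 : 0 < τ / n := by positivity
    have s1 : τ / n ≤ τ := div_le_self hτ0.le hn'
    have h1 := E1 hP hl hw (ρ := 1 - τ / m) (by linarith) (by linarith)
    have h2 : ∫ x : Tor k, EB (1 - τ / n) w l P x ≤ ∫ x : Tor k, EB (1 - τ / m) w l P x := by
      apply integral_mono (integrable_EB (by linarith) (by linarith) w l hP0)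
        (integrable_EB (by linarith) (by linarith) w l hP0)
      intro x
      exact x7_EB_mono (by linarith) hnm (by linarith) w l hP0 x
    have h3 := x7_log_le r0.le (by linarith : τ / m ≤ 1 / 2)
    have h4 : (wd' w P : ℝ) ≤ m := by exact_mod_cast hNm
    have h5 : (wd' w P : ℝ) ^ 2 * log (2 / (1 + (1 - τ / m))) ≤ (wd' w P : ℝ) * τ := by
      calc (wd' w P : ℝ) ^ 2 * log (2 / (1 + (1 - τ / m)))
          ≤ (wd' w P : ℝ) ^ 2 * (τ / m) := mul_le_mul_of_nonneg_left h3 (by positivity)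
        _ = (wd' w P : ℝ) * τ * ((wd' w P : ℝ) / m) := by ring
        _ ≤ (wd' w P : ℝ) * τ * 1 := by
            apply mul_le_mul_of_nonneg_left _ (by positivity)
            exact (div_le_one (by linarith)).2 h4
        _ = (wd' w P : ℝ) * τ := mul_one _
    linarith
  rcases le_total (wd' w P) n with h | h
  · exact key n hn h le_rfl
  · apply key (wd' w P) hN le_rfl
    have h6 : (n : ℝ) ≤ wd' w P := by exact_mod_cast h
    have : τ / (wd' w P : ℝ) ≤ τ / n := div_le_div_of_nonneg_left hτ0.le (by linarith) h6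
    linarith

end CP
end Pool.Agent.MP_44c6d5_nt
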