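import Mathlib
import Pool.Agent.MP_44c6d5_nt.CP.DefX
import Pool.Agent.MP_44c6d5_nt.CP.B6
import Pool.Agent.MP_44c6d5_nt.CP.B9

namespace Pool.Agent.MP_44c6d5_nt
namespace CP

open MeasureTheory Real Module

variable {k : ℕ}

theorem cheb {ι : Type} [Fintype ι] [DecidableEq ι] (v : ι → Fin k → ℤ) (K : ι → Tor k → ℝ)
    (hKm : ∀ j, Measurable (K j)) (hKb : ∀ j, ∀ᵐ x : Tor k, 0 ≤ K j x ∧ K j x ≤ 1)
    (hKinv : ∀ i j, i ≠ j → ∀ x t, K j (line (v i) x t) = K j x) {τ : ℝ} (hτ : 0 < τ)
    (hKavg : ∀ j, ∀ᵐ x : Tor k, ∫ t : UnitAddCircle, K j (line (v j) x t) ≤ τ)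
    (hcard : 1 ≤ τ * Fintype.card ι)
    {f : Tor k → ℝ} (hf : Integrable f) (hf0 : ∀ᵐ x : Tor k, 0 ≤ f x)
    (hfinv : ∀ j x t, f (line (v j) x t) = f x) (j : ι) :
    ∫ x : Tor k in {x | 8 * (τ * Fintype.card ι) < ∑ i ∈ Finset.univ.erase j, K i x}, f x ≤
      1 / (49 * (τ * Fintype.card ι)) * ∫ x : Tor k, f x := by
  have hKi : ∀ i, Integrable (K i) := by
    intro i
    refine Integrable.of_bound (hKm i).aestronglyMeasurable 1 ?_
    filter_upwards [hKb i] with x hx
    rw [Real.norm_of_nonneg hx.1]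
    exact hx.2
  obtain ⟨a, ha⟩ : ∃ a : ι → Tor k → ℝ, ∀ i x, a i x = ∫ t : UnitAddCircle, K i (line (v i) x t) :=
    ⟨_, fun _ _ => rfl⟩
  have ham : ∀ i, Measurable (a i) := by
    intro i
    have hm : Measurable (Function.uncurry fun (x : Tor k) (t : UnitAddCircle) =>
        K i (line (v i) x t)) := (hKm i).comp (b6_meas_line (v i))
    have h1 : a i = fun x => ∫ t : UnitAddCircle, K i (line (v i) x t) := funext (ha i)
    rw [h1]
    exact (StronglyMeasurable.integral_prod_right hm.stronglyMeasurable).measurable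
  have hainv : ∀ i j, i ≠ j → ∀ x t, a j (line (v i) x t) = a j x := by
    intro i j hij x t
    rw [ha, ha]
    congr 1
    funext s
    rw [b6_line_comm, hKinv i j hij]
  have haself : ∀ i x t, a i (line (v i) x t) = a i x := by
    intro i x t
    rw [ha, ha, ← integral_add_left_eq_self (fun s : UnitAddCircle => K i (line (v i) x s)) t]
    congr 1
    funext s
    rw [b6_line_add]
  have hab : ∀ i, ∀ᵐ x : Tor k, 0 ≤ a i x ∧ a i x ≤ 1 := by
    intro i
    filter_upwards [b9_ae_line (v i) (hKb i), ae_integrable_line (v i) (hKi i)] with x hx hi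
    rw [ha]
    refine ⟨integral_nonneg_of_ae (hx.mono fun t ht => ht.1), ?_⟩
    calc ∫ t : UnitAddCircle, K i (line (v i) x t) ≤ ∫ _t : UnitAddCircle, (1 : ℝ) :=
          integral_mono_ae hi (integrable_const _) (hx.mono fun t ht => ht.2)
      _ = 1 := by simp
  obtain ⟨g, hg⟩ : ∃ g : ι → Tor k → ℝ, ∀ i x, g i x = K i x - a i x := ⟨_, fun _ _ => rfl⟩
  have hgm : ∀ i, Measurable (g i) := by
    intro i
    rw [show g i = fun x => K i x - a i x from funext (hg i)]
    exact (hKm i).sub (ham i)
  have hgb : ∀ i, ∀ᵐ x : Tor k, |g i x| ≤ 1 := by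
    intro i
    filter_upwards [hKb i, hab i] with x h1 h2
    rw [hg, abs_le]
    constructor <;> linarith [h1.1, h1.2, h2.1, h2.2]
  have hginv : ∀ i j, i ≠ j → ∀ x t, g j (line (v i) x t) = g j x := by
    intro i j hij x t
    rw [hg, hg, hKinv i j hij, hainv i j hij]
  have hg0 : ∀ i, ∀ᵐ x : Tor k, ∫ t : UnitAddCircle, g i (line (v i) x t) = 0 := by
    intro i
    filter_upwards [ae_integrable_line (v i) (hKi i)] with x hi
    simp only [hg, haself]
    rw [integral_sub hi (integrable_const _), ← ha]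
    simp
  have hg2 : ∀ i, ∀ᵐ x : Tor k, ∫ t : UnitAddCircle, g i (line (v i) x t) * g i (line (v i) x t) ≤
      τ := by
    intro i
    filter_upwards [b9_ae_line (v i) (hKb i), ae_integrable_line (v i) (hKi i), hKavg i] with
      x hx hi hav
    simp only [hg, haself]
    have hK2 : Integrable fun t : UnitAddCircle => K i (line (v i) x t) * K i (line (v i) x t) := by
      refine hi.mono (hi.aestronglyMeasurable.mul hi.aestronglyMeasurable) ?_
      filter_upwards [hx] with t ht
      rw [norm_mul, Real.norm_of_nonneg ht.1]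
      nlinarith [ht.1, ht.2]
    have h1 : (fun t : UnitAddCircle => (K i (line (v i) x t) - a i x) *
        (K i (line (v i) x t) - a i x)) = fun t => K i (line (v i) x t) * K i (line (v i) x t) -
          2 * a i x * K i (line (v i) x t) + a i x * a i x := by
      funext t
      ring
    have h2 : ∫ t : UnitAddCircle, K i (line (v i) x t) * K i (line (v i) x t) ≤
        ∫ t : UnitAddCircle, K i (line (v i) x t) := by
      refine integral_mono_ae hK2 hi (hx.mono fun t ht => ?_)
      show K i (line (v i) x t) * K i (line (v i) x t) ≤ K i (line (v i) x t)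
      nlinarith [ht.1, ht.2]
    have h4 : Integrable fun t : UnitAddCircle => 2 * a i x * K i (line (v i) x t) :=
      hi.const_mul _
    have h5 : Integrable fun t : UnitAddCircle => K i (line (v i) x t) * K i (line (v i) x t) -
        2 * a i x * K i (line (v i) x t) := hK2.sub h4
    rw [h1, integral_add h5 (integrable_const _), integral_sub hK2 h4, integral_const_mul, ← ha]
    rw [← ha] at h2 hav
    simp only [integral_const, smul_eq_mul]
    have h3 : (volume : Measure UnitAddCircle).real Set.univ = 1 := by simp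
    rw [h3]
    nlinarith [mul_self_nonneg (a i x)]
  have hint : ∀ i i', Integrable fun x => g i x * g i' x * f x := by
    intro i i'
    refine hf.bdd_mul (c := 1) ((hgm i).mul (hgm i')).aestronglyMeasurable ?_
    filter_upwards [hgb i, hgb i'] with x h1 h2
    rw [Real.norm_eq_abs, abs_mul]
    exact mul_le_one₀ h1 (abs_nonneg _) h2
  have hcross : ∀ i i', i ≠ i' → ∫ x : Tor k, g i x * g i' x * f x = 0 := by
    intro i i' hne
    rw [integral_line (v i) (hint i i')]
    rw [← integral_zero (Tor k) ℝ]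
    refine integral_congr_ae ?_
    filter_upwards [hg0 i] with x hx
    have h1 : (fun t : UnitAddCircle => g i (line (v i) x t) * g i' (line (v i) x t) *
        f (line (v i) x t)) = fun t => g i (line (v i) x t) * (g i' x * f x) := by
      funext t
      rw [hginv i i' hne, hfinv]
      ring
    rw [h1, integral_mul_const, hx, zero_mul]
  have hdiag : ∀ i, ∫ x : Tor k, g i x * g i x * f x ≤ τ * ∫ x : Tor k, f x := by
    intro i
    rw [integral_line (v i) (hint i i), ← integral_const_mul]
    refine integral_mono_ae (integrable_integral_line (v i) (hint i i)) (hf.const_mul _) ?_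
    filter_upwards [hg2 i, hf0] with x hx hx0
    have h1 : (fun t : UnitAddCircle => g i (line (v i) x t) * g i (line (v i) x t) *
        f (line (v i) x t)) = fun t => g i (line (v i) x t) * g i (line (v i) x t) * f x := by
      funext t
      rw [hfinv]
    show (∫ t : UnitAddCircle, g i (line (v i) x t) * g i (line (v i) x t) *
        f (line (v i) x t)) ≤ τ * f x
    rw [h1, integral_mul_const]
    exact mul_le_mul_of_nonneg_right hx hx0
  obtain ⟨s, hs⟩ : ∃ s : Finset ι, s = Finset.univ.erase j := ⟨_, rfl⟩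
  rw [← hs]
  have hscard : (s.card : ℝ) ≤ Fintype.card ι := by
    have : s.card ≤ Fintype.card ι := Finset.card_le_univ s
    exact_mod_cast this
  have hexp : ∀ x, (∑ i ∈ s, g i x) * (∑ i ∈ s, g i x) * f x =
      ∑ i ∈ s, ∑ i' ∈ s, g i x * g i' x * f x := by
    intro x
    rw [Finset.sum_mul_sum, Finset.sum_mul]
    refine Finset.sum_congr rfl fun i _ => ?_
    rw [Finset.sum_mul]
  have hGi : Integrable fun x => (∑ i ∈ s, g i x) * (∑ i ∈ s, g i x) * f x := by
    rw [show (fun x => (∑ i ∈ s, g i x) * (∑ i ∈ s, g i x) * f x) =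
      fun x => ∑ i ∈ s, ∑ i' ∈ s, g i x * g i' x * f x from funext hexp]
    exact integrable_finsetSum _ fun i _ => integrable_finsetSum _ fun i' _ => hint i i'
  have hG : ∫ x : Tor k, (∑ i ∈ s, g i x) * (∑ i ∈ s, g i x) * f x ≤
      τ * Fintype.card ι * ∫ x : Tor k, f x := by
    simp only [hexp]
    rw [integral_finsetSum _ fun i _ => integrable_finsetSum _ fun i' _ => hint i i']
    have h1 : ∀ i ∈ s, ∫ x : Tor k, ∑ i' ∈ s, g i x * g i' x * f x ≤ τ * ∫ x : Tor k, f x := by
      intro i hi
      rw [integral_finsetSum _ fun i' _ => hint i i', Finset.sum_eq_single i]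
      · exact hdiag i
      · intro i' _ hne
        exact hcross i i' hne.symm
      · intro h
        exact absurd hi h
    refine (Finset.sum_le_sum h1).trans ?_
    rw [Finset.sum_const, nsmul_eq_mul]
    have h2 : 0 ≤ ∫ x : Tor k, f x := integral_nonneg_of_ae hf0
    have h3 := mul_le_mul_of_nonneg_right hscard (mul_nonneg hτ.le h2)
    nlinarith
  have hpos : 0 < τ * Fintype.card ι := by linarith
  have hS : MeasurableSet {x : Tor k | 8 * (τ * Fintype.card ι) < ∑ i ∈ s, K i x} :=
    measurableSet_lt measurable_const (Finset.measurable_fun_sum _ fun i _ => hKm i)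
  rw [← integral_indicator hS]
  have key : ∫ x : Tor k, Set.indicator {x : Tor k | 8 * (τ * Fintype.card ι) < ∑ i ∈ s, K i x}
      f x ≤ ∫ x : Tor k, 1 / (49 * (τ * Fintype.card ι) ^ 2) *
        ((∑ i ∈ s, g i x) * (∑ i ∈ s, g i x) * f x) := by
    refine integral_mono_ae (hf.indicator hS) (hGi.const_mul _) ?_
    have hall : ∀ᵐ x : Tor k, ∀ i, a i x ≤ τ := by
      rw [ae_all_iff]
      intro i
      filter_upwards [hKavg i] with x hx
      rw [ha]
      exact hx
    filter_upwards [hf0, hall] with x hx0 hxa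
    by_cases hx : x ∈ {x : Tor k | 8 * (τ * Fintype.card ι) < ∑ i ∈ s, K i x}
    · rw [Set.indicator_of_mem hx]
      have hx' : 8 * (τ * Fintype.card ι) < ∑ i ∈ s, K i x := hx
      have h1 : ∑ i ∈ s, a i x ≤ τ * Fintype.card ι := by
        refine (Finset.sum_le_sum fun i _ => hxa i).trans ?_
        rw [Finset.sum_const, nsmul_eq_mul, mul_comm]
        exact mul_le_mul_of_nonneg_left hscard hτ.le
      have h2 : 7 * (τ * Fintype.card ι) ≤ ∑ i ∈ s, g i x := by
        simp only [hg]
        rw [Finset.sum_sub_distrib]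
        linarith
      have h3 : 49 * (τ * Fintype.card ι) ^ 2 ≤ (∑ i ∈ s, g i x) * (∑ i ∈ s, g i x) := by
        nlinarith
      have h4 : f x * (49 * (τ * Fintype.card ι) ^ 2) ≤
          f x * ((∑ i ∈ s, g i x) * (∑ i ∈ s, g i x)) := mul_le_mul_of_nonneg_left h3 hx0
      rw [one_div, inv_mul_eq_div, le_div_iff₀ (by positivity)]
      linarith
    · rw [Set.indicator_of_notMem hx]
      have : 0 ≤ (∑ i ∈ s, g i x) * (∑ i ∈ s, g i x) := mul_self_nonneg _
      positivity
  refine key.trans ?_
  rw [integral_const_mul]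
  calc 1 / (49 * (τ * Fintype.card ι) ^ 2) *
        ∫ x : Tor k, (∑ i ∈ s, g i x) * (∑ i ∈ s, g i x) * f x
      ≤ 1 / (49 * (τ * Fintype.card ι) ^ 2) * (τ * Fintype.card ι * ∫ x : Tor k, f x) :=
        mul_le_mul_of_nonneg_left hG (by positivity)
    _ = 1 / (49 * (τ * Fintype.card ι)) * ∫ x : Tor k, f x := by
        field_simp

end CP
end Pool.Agent.MP_44c6d5_nt
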