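import Mathlib
import Pool.Agent.MP_44c6d5_nt.CP.DefX
import Pool.Agent.MP_44c6d5_nt.CP.B4
import Pool.Agent.MP_44c6d5_nt.CP.B6
import Pool.Agent.MP_44c6d5_nt.CP.B7
import Pool.Agent.MP_44c6d5_nt.CP.B8
import Pool.Agent.MP_44c6d5_nt.CP.X2
import Pool.Agent.MP_44c6d5_nt.CP.X3
import Pool.Agent.MP_44c6d5_nt.CP.X4
import Pool.Agent.MP_44c6d5_nt.CP.X5
import Pool.Agent.MP_44c6d5_nt.CP.X6
import Pool.Agent.MP_44c6d5_nt.CP.X7
import Pool.Agent.MP_44c6d5_nt.CP.X8

/-!
[X9] The analytic heart of the theorem on sums of directions.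
-/

namespace Pool.Agent.MP_44c6d5_nt
namespace CP

open MeasureTheory Real Module

variable {k : ℕ}

theorem x9_t_pos (M β γ : ℝ) : 0 < tV M β γ := by
  unfold tV; positivity

theorem x9_t_le {M β γ : ℝ} (hM : 0 ≤ M) (hβ : 1 ≤ β) (hγ : 0 ≤ γ) : tV M β γ ≤ 1 / 4 := by
  unfold tV
  have h : exp (-(512 * β * (γ + 1) * (10 * M + 1))) ≤ 1 := by
    rw [exp_le_one_iff]
    have : 0 ≤ 512 * β * (γ + 1) * (10 * M + 1) := by positivity
    linarith
  linarith

theorem x9_log (M β γ : ℝ) :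
    log (1 / (4 * tV M β γ)) = 512 * β * (γ + 1) * (10 * M + 1) := by
  have h : 4 * tV M β γ = exp (-(512 * β * (γ + 1) * (10 * M + 1))) := by unfold tV; ring
  rw [h, one_div, ← exp_neg, log_exp, neg_neg]

/-- Markov for a nonnegative function on the torus -/
theorem x9_markov {f : Tor k → ℝ} (h0 : 0 ≤ᵐ[volume] f) (hf : Integrable f) {c a : ℝ}
    (hc : 0 < c) (ha : ∫ x, f x ≤ a * c) :
    (volume : Measure (Tor k)).real {x | ¬ f x ≤ c} ≤ a := by
  have h1 := mul_meas_ge_le_integral_of_nonneg h0 hf c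
  have h2 : (volume : Measure (Tor k)).real {x | ¬ f x ≤ c} ≤
      (volume : Measure (Tor k)).real {x | c ≤ f x} := by
    refine measureReal_mono (fun x hx => ?_) (measure_ne_top _ _)
    simp only [Set.mem_ofPred_eq, not_le] at hx ⊢
    exact hx.le
  have h3 : c * (volume : Measure (Tor k)).real {x | c ≤ f x} ≤ a * c := h1.trans ha
  have h4 : (volume : Measure (Tor k)).real {x | c ≤ f x} ≤ a := by
    rw [mul_comm a c] at h3
    exact le_of_mul_le_mul_left h3 hc
  exact h2.trans h4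

/-- the final arithmetic -/
theorem x9_arith {ι : Type} [Fintype ι] {κ n β γ M ell : ℝ} (hκ : 0 < κ) (hn : 0 < n)
    (hβ : 1 ≤ β) (hγ : 0 ≤ γ) (hM : 0 ≤ M) (hell : ell = 8 * β * (γ + 1) * (10 * M + 1))
    (hcard : (Fintype.card ι : ℝ) = κ) {N T E TA EA G : ι → ℝ} {V : ℝ}
    (hN1 : ∀ j, n ≤ β * N j) (hN2 : ∀ j, N j ≤ n) (hE : ∀ j, 0 ≤ E j)
    (hG : ∑ j, G j ≤ 9 * κ * n * M)
    (hmain : ∀ j, TA j + 3 / 4 * EA j + 1 / 4 * (N j * ell) * (1 / 2) ≤ G j + N j / 2)
    (hTA : ∀ j, T j - (2 / 49 * n * (2 * M + 1) + 1 / 8 * E j) ≤ TA j)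
    (hEA : ∀ j, 48 / 49 * E j ≤ EA j)
    (hV : V ≤ γ * κ * n * (2 * M + 1)) (hT : -(1 / 2 * V + 1 / 2 * ∑ j, E j) ≤ ∑ j, T j) :
    False := by
  have hell0 : 0 ≤ ell := by rw [hell]; positivity
  have h1 : ∀ j, T j + 1 / 8 * (N j * ell) + 1 / 2 * E j ≤ G j + n / 2 +
      2 / 49 * n * (2 * M + 1) := by
    intro j
    have a1 := hmain j
    have a2 := hTA j
    have a3 := hEA j
    have a4 := hE j
    have a5 := hN2 j
    linarith
  have h2 : ∀ j, n * ell / β ≤ N j * ell := by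
    intro j
    rw [div_le_iff₀ (by linarith)]
    nlinarith [hN1 j]
  have h3 : ∑ j, (T j + 1 / 8 * (n * ell / β) + 1 / 2 * E j) ≤
      ∑ j, (G j + n / 2 + 2 / 49 * n * (2 * M + 1)) :=
    Finset.sum_le_sum fun j _ => by linarith [h1 j, h2 j]
  rw [Finset.sum_add_distrib, Finset.sum_add_distrib, Finset.sum_add_distrib,
    Finset.sum_add_distrib, Finset.sum_const, Finset.sum_const, Finset.sum_const,
    Finset.card_univ, nsmul_eq_mul, nsmul_eq_mul, nsmul_eq_mul, hcard, ← Finset.mul_sum] at h3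
  have h4 : κ * (1 / 8 * (n * ell / β)) = κ * n * ((γ + 1) * (10 * M + 1)) := by
    rw [hell]
    field_simp
  rw [h4] at h3
  have h5 : κ * n * ((γ + 1) * (10 * M + 1)) ≤ κ * n * (9 * M + 1 / 2 + 2 / 49 * (2 * M + 1) +
      γ * (M + 1 / 2)) := by nlinarith
  have hκn : 0 < κ * n := by positivity
  have h6 := le_of_mul_le_mul_left h5 hκn
  nlinarith [mul_nonneg hγ hM]

theorem WX {P : Pol k} (hP : Irreducible P) {l : Fin k → ℤ} (hl : rl l ∉ Lam P) {ι : Type}
    [Fintype ι] [DecidableEq ι] (v : ι → Fin k → ℤ) (Γ Γ' : ι → Pol k)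
    (hΓ : ∀ j, ini (rl l) P = Γ j * Γ' j) (hpos : ∀ j, 1 ≤ wd' (v j) (Γ j)) {M β γ : ℝ}
    (hβ : 1 ≤ β) (hγ : 0 ≤ γ) (hM : mm P ≤ M) {n : ℕ}
    (hn : ∀ j, wd' (v j) (ini (rl l) P) ≤ n) (hnb : ∀ j, (n : ℝ) ≤ β * wd' (v j) (Γ j))
    (hsum : (wd' (∑ j, v j) P : ℝ) ≤ γ * (Fintype.card ι * n))
    (hind : ∀ j, (wd' (v j) P : ℝ) ≤ tV M β γ * Fintype.card ι * n)
    (hinv : ∀ i j, i ≠ j → rl (v i) ∈ Lam (Γ j))
    (hε : ∀ j, mm (Γ j) ≤ tV M β γ / (32 * β))
    (hcard : 1 / tV M β γ ≤ Fintype.card ι) : False := by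
  classical
  have hP0 : P ≠ 0 := hP.ne_zero
  have hi0 : ini (rl l) P ≠ 0 := ini_ne_zero _ hP0
  have hG0 : ∀ j, Γ j ≠ 0 := fun j h => hi0 (by rw [hΓ j, h, zero_mul])
  have hG0' : ∀ j, Γ' j ≠ 0 := fun j h => hi0 (by rw [hΓ j, h, mul_zero])
  have hM0 : 0 ≤ M := (mm_nonneg hP0).trans hM
  have hβ0 : 0 < β := by linarith
  set τ := tV M β γ with hτdef
  have hτ0 : 0 < τ := x9_t_pos M β γ
  have hτ4 : τ ≤ 1 / 4 := x9_t_le hM0 hβ hγ
  have hlog : log (1 / (4 * τ)) = 512 * β * (γ + 1) * (10 * M + 1) := x9_log M β γ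
  obtain ⟨ell, hell⟩ : ∃ ell : ℝ, ell = 8 * β * (γ + 1) * (10 * M + 1) := ⟨_, rfl⟩
  have hell64 : log (1 / (4 * τ)) / 64 = ell := by rw [hlog, hell]; ring
  have hell0 : 0 ≤ ell := by rw [hell]; positivity
  set κ : ℝ := (Fintype.card ι : ℝ) with hκdef
  have hτκ : 1 ≤ τ * κ := by
    rw [div_le_iff₀ hτ0] at hcard
    linarith [mul_comm κ τ]
  have hκ0 : 0 < κ := by
    by_contra h
    have : τ * κ ≤ 0 := mul_nonpos_of_nonneg_of_nonpos hτ0.le (not_lt.mp h)
    linarith
  -- widths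
  have hNn : ∀ j, wd' (v j) (Γ j) ≤ wd' (v j) (ini (rl l) P) := by
    intro j
    rw [hΓ j, wd'_mul (v j) (hG0 j) (hG0' j)]
    omega
  have hNn2 : ∀ j, wd' (v j) (Γ j) ≤ n := fun j => (hNn j).trans (hn j)
  obtain ⟨j0⟩ : Nonempty ι := by
    rw [← Fintype.card_pos_iff]
    have h : (0 : ℝ) < (Fintype.card ι : ℝ) := hκ0
    exact_mod_cast h
  have hn1 : 1 ≤ n := (hpos j0).trans (hNn2 j0)
  have hn1' : (1 : ℝ) ≤ n := by exact_mod_cast hn1
  have hn0 : (0 : ℝ) < n := by linarith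
  have hP1 : ∀ j, 1 ≤ wd' (v j) P := fun j =>
    (hpos j).trans ((hNn j).trans (wd'_ini_le (v j) (rl l) hP0))
  have hvP : ∀ j, rl (v j) ∉ Lam P := fun j => (wd'_pos_iff (v j) hP0).mp (hP1 j)
  -- the scale
  obtain ⟨r, hrdef⟩ : ∃ r : ℝ, r = τ / n := ⟨_, rfl⟩
  have hr0 : 0 < r := by rw [hrdef]; positivity
  have hrτ : r ≤ τ := by rw [hrdef]; exact div_le_self hτ0.le hn1'
  have hr2 : r ≤ 1 / 2 := by linarith
  have hρ0 : 0 < 1 - r := by linarith
  have hρ1 : 1 - r < 1 := by linarith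
  obtain ⟨b, hbdef⟩ : ∃ b : ℝ, b = 1 - 1 / (2 * n) := ⟨_, rfl⟩
  have hb0 : 0 ≤ b := by
    rw [hbdef]
    have : 1 / (2 * (n : ℝ)) ≤ 1 := by
      rw [div_le_one (by positivity)]
      linarith
    linarith
  have hb1 : b ≤ 1 := by
    rw [hbdef]
    have : 0 ≤ 1 / (2 * (n : ℝ)) := by positivity
    linarith
  -- the functions
  set K : ι → Tor k → ℝ := fun j => KK (v j) (Γ j) (wd' (v j) (Γ j)) r with hK
  set p : ι → Tor k → ℝ := fun j => PJ (v j) (Γ j) (wd' (v j) (Γ j)) r with hp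
  set T : ι → Tor k → ℝ := fun j => TV (1 - r) b (v j) (UU l P) (p j) with hT
  set E : ι → Tor k → ℝ := fun j => EV (1 - r) b (v j) (p j) with hE
  have hKb := fun j => KK_bounds (v j) (hG0 j) hr0 hr2
  have hKavg : ∀ j, ∀ᵐ x : Tor k, ∫ t : UnitAddCircle, K j (line (v j) x t) ≤ τ := by
    intro j
    filter_upwards [KK_avg (v j) (hG0 j) hr0 hr2] with x hx
    refine hx.trans ?_
    rw [hrdef, div_mul_eq_mul_div, div_le_iff₀ hn0]
    have : (wd' (v j) (Γ j) : ℝ) ≤ n := by exact_mod_cast hNn2 j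
    exact mul_le_mul_of_nonneg_left this hτ0.le
  have hKinv : ∀ i j, i ≠ j → ∀ x t, K j (line (v i) x t) = K j x := fun i j hij x t =>
    KK_inv (v j) _ _ (hinv i j hij) x t
  have hpm : ∀ j, Measurable (p j) := fun j => (PJ_props (v j) (hG0 j) hr0 hr2).1
  have hpb : ∀ j, ∀ᵐ x : Tor k, |p j x| ≤ 1 / r := by
    intro j
    filter_upwards [(PJ_props (v j) (hG0 j) hr0 hr2).2] with x hx
    rw [abs_of_nonneg hx.1]
    exact hx.2
  have hpinv : ∀ i j, i ≠ j → ∀ x t, p j (line (v i) x t) = p j x := fun i j hij x t =>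
    PJ_inv (v j) _ _ (hinv i j hij) x t
  obtain ⟨hUI, hmuI, hmu0, hmuE⟩ := mu_props l hP0
  have hUm := measurable_UU l P
  have hTI : ∀ j, Integrable (T j) := fun j =>
    integrable_TV hρ0 hρ1 hb0 hb1 (v j) hUm hUI (hpm j) (hpb j)
  have hEP := fun j => EV_props hρ0 hρ1 hb0 hb1 (v j) (hpm j) (hpb j)
  have hEI : ∀ j, Integrable (E j) := fun j => (hEP j).1
  have hE0 : ∀ j x, 0 ≤ E j x := fun j x => (hEP j).2.1 x
  have hEinv : ∀ j i x t, E j (line (v i) x t) = E j x := by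
    intro j i x t
    by_cases hij : i = j
    · subst hij
      exact (hEP i).2.2.1 x t
    · exact (hEP j).2.2.2 (v i) (fun x t => hpinv i j hij x t) x t
  have hmuM : ∫ x, mu l P x ≤ M := by
    rw [hmuE]
    have := mm_nonneg hi0
    linarith
  have hKall : ∀ᵐ x : Tor k, ∀ j, 0 ≤ K j x ∧ K j x ≤ 1 := by
    rw [ae_all_iff]
    exact fun j => (hKb j).1
  -- error
  have her := fun j => er_props (v j) (hG0 j)
  have her1 : ∀ j, ∫ x, er (v j) (Γ j) x ≤ (1 / 8) * (τ / (2 * β)) := by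
    intro j
    rw [(her j).2.2.1]
    have h1 := mm_nonneg (ini_ne_zero (rl (v j)) (hG0 j))
    have h2 := mm_nonneg (ini_ne_zero (rl (-(v j))) (hG0 j))
    have h3 := hε j
    have h4 : 2 * (τ / (32 * β)) = (1 / 8) * (τ / (2 * β)) := by field_simp; norm_num
    linarith
  -- the good sets
  set Sm : ι → Tor k → ℝ := fun j x => ∑ i ∈ Finset.univ.erase j, K i x with hSm
  have hKm : ∀ j, Measurable (K j) := fun j => measurable_KK _ _ _ _
  have hSmm : ∀ j, Measurable (Sm j) := fun j => Finset.measurable_sum _ fun i _ => hKm i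
  set A : ι → Set (Tor k) := fun j => {x | Sm j x ≤ 8 * (τ * κ)} with hA
  have hAm : ∀ j, MeasurableSet (A j) := fun j => measurableSet_le (hSmm j) measurable_const
  have hAc : ∀ j, (A j)ᶜ = {x | 8 * (τ * κ) < ∑ i ∈ Finset.univ.erase j, K i x} := by
    intro j
    ext x
    simp only [hA, hSm, Set.mem_compl_iff, Set.mem_ofPred_eq, not_le]
  have hcheb : ∀ (j : ι) (f : Tor k → ℝ), Integrable f → (∀ x, 0 ≤ f x) →
      (∀ i x t, f (line (v i) x t) = f x) →
      ∫ x : Tor k in (A j)ᶜ, f x ≤ 1 / (49 * (τ * κ)) * ∫ x : Tor k, f x := by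
    intro j f hf hf0 hfi
    rw [hAc j]
    exact cheb v K hKm (fun j => (hKb j).1) hKinv hτ0 hKavg hτκ hf
      (Filter.Eventually.of_forall hf0) hfi j
  have hδ : 1 / (49 * (τ * κ)) ≤ 1 / 49 := by
    apply one_div_le_one_div_of_le (by norm_num)
    nlinarith
  have hδ0 : 0 < 1 / (49 * (τ * κ)) := by positivity
  have hAline : ∀ j x t, (line (v j) x t ∈ A j ↔ x ∈ A j) := by
    intro j x t
    have h3 : Sm j (line (v j) x t) = Sm j x := by
      apply Finset.sum_congr rfl
      intro i hi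
      exact hKinv j i (Finset.ne_of_mem_erase hi).symm x t
    simp only [hA, Set.mem_ofPred_eq]
    rw [h3]
  -- the set on which the roots are near the circle
  set Gd : ι → Set (Tor k) := fun j => {x | er (v j) (Γ j) x ≤ τ / (2 * β)} with hGd
  have hGm : ∀ j, MeasurableSet (Gd j) := fun j => measurableSet_le (her j).1 measurable_const
  have hAG : ∀ j, 1 / 2 ≤ (volume : Measure (Tor k)).real (A j ∩ Gd j) := by
    intro j
    have m2 := x9_markov (her j).2.2.2.1 (her j).2.1 (c := τ / (2 * β)) (by positivity) (her1 j)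
    have m3 : (volume : Measure (Tor k)).real (A j)ᶜ ≤ 1 / 49 := by
      have h1 := hcheb j (fun _ => 1) (integrable_const _) (fun _ => zero_le_one)
        (fun _ _ _ => rfl)
      rw [setIntegral_const, smul_eq_mul, mul_one, integral_const, smul_eq_mul, mul_one,
        probReal_univ, mul_one] at h1
      exact h1.trans hδ
    have hsub : (Set.univ : Set (Tor k)) ⊆ (A j ∩ Gd j) ∪
        ((A j)ᶜ ∪ {x | ¬ er (v j) (Γ j) x ≤ τ / (2 * β)}) := by
      intro x _
      simp only [hGd, Set.mem_union, Set.mem_inter_iff, Set.mem_compl_iff, Set.mem_ofPred_eq]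
      tauto
    have h1 := measureReal_mono (μ := (volume : Measure (Tor k))) hsub
    have h2 := measureReal_union_le (μ := (volume : Measure (Tor k))) (A j ∩ Gd j)
      ((A j)ᶜ ∪ {x | ¬ er (v j) (Γ j) x ≤ τ / (2 * β)})
    have h3 := measureReal_union_le (μ := (volume : Measure (Tor k)))
      (A j)ᶜ {x | ¬ er (v j) (Γ j) x ≤ τ / (2 * β)}
    have h5 : (volume : Measure (Tor k)).real Set.univ = 1 := probReal_univ
    linarith
  -- the functions g_j
  set g : ι → Tor k → ℝ := fun j => (A j).indicator fun x => mu l P x * K j x with hg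
  have hmuK : ∀ j, Integrable (fun x => mu l P x * K j x) := by
    intro j
    refine Integrable.mono' hmuI.abs
      (hmuI.aestronglyMeasurable.mul (hKm j).aestronglyMeasurable) ?_
    filter_upwards [hKall] with x hx
    rw [norm_mul, Real.norm_eq_abs, Real.norm_eq_abs, abs_of_nonneg (hx j).1]
    exact mul_le_of_le_one_right (abs_nonneg _) (hx j).2
  have hgI : ∀ j, Integrable (g j) := fun j => (hmuK j).indicator (hAm j)
  set I : ι → Tor k → ℝ := fun j x => ∫ t : UnitAddCircle, mu l P (line (v j) x t) *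
    K j (line (v j) x t) with hI
  have hII : ∀ j, Integrable (I j) := fun j => integrable_integral_line (v j) (hmuK j)
  have hIg : ∀ j, ∫ x in A j, I j x = ∫ x, g j x := by
    intro j
    rw [integral_line (v j) (hgI j), ← integral_indicator (hAm j)]
    refine integral_congr_ae (Filter.Eventually.of_forall fun x => ?_)
    by_cases hxA : x ∈ A j
    · simp only [Set.indicator_of_mem hxA, hI]
      refine integral_congr_ae (Filter.Eventually.of_forall fun t => ?_)
      simp only [hg]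
      rw [Set.indicator_of_mem ((hAline j x t).mpr hxA)]
    · simp only [Set.indicator_of_notMem hxA]
      symm
      refine integral_eq_zero_of_ae (Filter.Eventually.of_forall fun t => ?_)
      simp only [hg, Pi.zero_apply]
      rw [Set.indicator_of_notMem (fun h => hxA ((hAline j x t).mp h))]
  -- pointwise upper bound
  have hup : ∫ x, ∑ j, g j x ≤ 9 * (τ * κ) * M := by
    have h1 : ∫ x, ∑ j, g j x ≤ ∫ x, 9 * (τ * κ) * mu l P x := by
      apply integral_mono_ae (integrable_finsetSum _ fun j _ => hgI j) (hmuI.const_mul _)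
      filter_upwards [hKall, hmu0] with x hx hx0
      have hx0' : 0 ≤ mu l P x := hx0
      by_cases hex : ∃ j0, x ∈ A j0
      · obtain ⟨j0, hj0⟩ := hex
        have h2 : ∑ j, g j x ≤ ∑ j, mu l P x * K j x := by
          apply Finset.sum_le_sum
          intro j _
          rw [hg]
          simp only
          by_cases hj : x ∈ A j
          · rw [Set.indicator_of_mem hj]
          · rw [Set.indicator_of_notMem hj]
            exact mul_nonneg hx0' (hx j).1
        refine h2.trans ?_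
        rw [← Finset.mul_sum, mul_comm]
        apply mul_le_mul_of_nonneg_right _ hx0'
        rw [← Finset.add_sum_erase _ _ (Finset.mem_univ j0)]
        have h3 : Sm j0 x ≤ 8 * (τ * κ) := hj0
        have h4 := (hx j0).2
        have h5 : ∑ i ∈ Finset.univ.erase j0, K i x = Sm j0 x := rfl
        rw [h5]
        linarith
      · push Not at hex
        have h2 : ∑ j, g j x = 0 := by
          apply Finset.sum_eq_zero
          intro j _
          rw [hg]
          simp only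
          rw [Set.indicator_of_notMem (hex j)]
        rw [h2]
        positivity
    refine h1.trans ?_
    rw [integral_const_mul]
    exact mul_le_mul_of_nonneg_left hmuM (by positivity)
  rw [integral_finsetSum _ fun j _ => hgI j] at hup
  -- the inequality on lines
  have hline : ∀ j, ∀ᵐ x : Tor k, T j x + 3 / 4 * E j x +
      (Gd j).indicator (fun _ => 1 / 4 * ((wd' (v j) (Γ j) : ℝ) * ell)) x ≤
        (n / τ) * I j x + (wd' (v j) (Γ j) : ℝ) / 2 := by
    intro j
    have h1 := OD_V hP0 (l := l) (v := v j) (hG0 j) (hG0' j) (hΓ j) (hpos j) (hn j) hτ0 hτ4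
    filter_upwards [h1] with x hx
    obtain ⟨hx1, hx2⟩ := hx
    rw [hell64] at hx2
    rw [← hrdef, ← hbdef] at hx1 hx2
    have hx1' : T j x + E j x ≤ (n / τ) * I j x + (wd' (v j) (Γ j) : ℝ) / 2 := hx1
    by_cases hxG : x ∈ Gd j
    · have h2 : er (v j) (Γ j) x ≤ r * wd' (v j) (Γ j) / 2 := by
        have h3 : er (v j) (Γ j) x ≤ τ / (2 * β) := hxG
        refine h3.trans ?_
        rw [hrdef, div_mul_eq_mul_div, div_div, div_le_div_iff₀ (by positivity) (by positivity)]
        nlinarith [mul_le_mul_of_nonneg_left (hnb j) hτ0.le]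
      have hx2' : T j x + (wd' (v j) (Γ j) : ℝ) * ell ≤
          (n / τ) * I j x + (wd' (v j) (Γ j) : ℝ) / 2 := hx2 h2
      rw [Set.indicator_of_mem hxG]
      linarith
    · rw [Set.indicator_of_notMem hxG]
      have := hE0 j x
      linarith
  have hmain : ∀ j, (∫ x in A j, T j x) + 3 / 4 * (∫ x in A j, E j x) +
      1 / 4 * ((wd' (v j) (Γ j) : ℝ) * ell) * (1 / 2) ≤
        (n / τ) * (∫ x, g j x) + (wd' (v j) (Γ j) : ℝ) / 2 := by
    intro j
    have i1 : Integrable (fun x => T j x + 3 / 4 * E j x +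
      (Gd j).indicator (fun _ => 1 / 4 * ((wd' (v j) (Γ j) : ℝ) * ell)) x) :=
      ((hTI j).add ((hEI j).const_mul _)).add ((integrable_const _).indicator (hGm j))
    have i2 : Integrable (fun x => (n / τ) * I j x + (wd' (v j) (Γ j) : ℝ) / 2) :=
      ((hII j).const_mul _).add (integrable_const _)
    have h1 := setIntegral_mono_ae (s := A j) i1.integrableOn i2.integrableOn (hline j)
    have i3 : IntegrableOn (fun x => T j x) (A j) := (hTI j).integrableOn
    have i4 : IntegrableOn (fun x => 3 / 4 * E j x) (A j) := ((hEI j).const_mul _).integrableOn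
    have i5 : IntegrableOn (fun x => T j x + 3 / 4 * E j x) (A j) := i3.add i4
    have i6 : IntegrableOn (fun x => (Gd j).indicator
        (fun _ => 1 / 4 * ((wd' (v j) (Γ j) : ℝ) * ell)) x) (A j) :=
      ((integrable_const _).indicator (hGm j)).integrableOn
    have i7 : IntegrableOn (fun x => (n / τ) * I j x) (A j) :=
      ((hII j).const_mul _).integrableOn
    have e1 : ∫ x in A j, (T j x + 3 / 4 * E j x +
        (Gd j).indicator (fun _ => 1 / 4 * ((wd' (v j) (Γ j) : ℝ) * ell)) x) =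
        (∫ x in A j, T j x) + 3 / 4 * (∫ x in A j, E j x) +
          (volume : Measure (Tor k)).real (A j ∩ Gd j) *
            (1 / 4 * ((wd' (v j) (Γ j) : ℝ) * ell)) := by
      rw [integral_add i5 i6, integral_add i3 i4, integral_const_mul,
        setIntegral_indicator (hGm j), setIntegral_const, smul_eq_mul]
    have e2 : ∫ x in A j, ((n / τ) * I j x + (wd' (v j) (Γ j) : ℝ) / 2) =
        (n / τ) * (∫ x, g j x) +
          (volume : Measure (Tor k)).real (A j) * ((wd' (v j) (Γ j) : ℝ) / 2) := by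
      rw [integral_add i7 (integrable_const _), integral_const_mul, hIg j,
        setIntegral_const, smul_eq_mul]
    rw [e1, e2] at h1
    have h2 := hAG j
    have h3 : (volume : Measure (Tor k)).real (A j) ≤ 1 := measureReal_le_one
    have h4 : (0 : ℝ) ≤ (wd' (v j) (Γ j) : ℝ) := Nat.cast_nonneg _
    have h5 : 0 ≤ 1 / 4 * ((wd' (v j) (Γ j) : ℝ) * ell) := by positivity
    have h6 := mul_le_mul_of_nonneg_right h2 h5
    have h7 := mul_le_mul_of_nonneg_right h3 (by positivity : 0 ≤ (wd' (v j) (Γ j) : ℝ) / 2)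
    linarith
  -- the energies
  have hmmP : ∀ w : Fin k → ℤ, (wd' w P : ℝ) * (2 * mm P + τ) ≤ wd' w P * (2 * M + 1) := by
    intro w
    apply mul_le_mul_of_nonneg_left _ (Nat.cast_nonneg _)
    linarith
  have hEBI : ∀ w, Integrable (EB (1 - r) w l P) := fun w => integrable_EB hρ0 hρ1 w l hP0
  have hEB0 : ∀ w x, 0 ≤ EB (1 - r) w l P x := fun w x => EB_nonneg hρ0.le w l P x
  have hEBj : ∀ j, ∫ x, EB (1 - r) (v j) l P x ≤ τ * κ * n * (2 * M + 1) := by
    intro j
    have h1 := E1_scale hP hl (hvP j) hn1 hτ0 hτ4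
    rw [← hrdef] at h1
    refine (h1.trans (hmmP (v j))).trans ?_
    exact mul_le_mul_of_nonneg_right (hind j) (by positivity)
  have hvs : rl (∑ j, v j) ∉ Lam P := by
    intro hcon
    have h1 : rl (∑ j, v j) ∈ Lam (ini (rl l) P) := Lam_le_Lam_ini _ _ hcon
    rw [hΓ j0, Lam_mul (hG0 j0) (hG0' j0)] at h1
    have h2 : rl (∑ j, v j) ∈ Lam (Γ j0) := h1.1
    have h3 : rl (∑ j, v j) = rl (v j0) + ∑ j ∈ Finset.univ.erase j0, rl (v j) := by
      rw [← Finset.add_sum_erase _ _ (Finset.mem_univ j0)]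
      funext i
      simp [rl, Finset.sum_apply]
    rw [h3] at h2
    have h4 : ∑ j ∈ Finset.univ.erase j0, rl (v j) ∈ Lam (Γ j0) :=
      Submodule.sum_mem _ fun i hi => hinv i j0 (Finset.ne_of_mem_erase hi)
    have h5 : rl (v j0) ∈ Lam (Γ j0) := by
      have := Submodule.sub_mem _ h2 h4
      rwa [add_sub_cancel_right] at this
    exact (wd'_pos_iff (v j0) (hG0 j0)).mp (hpos j0) h5
  have hEBv : ∫ x, EB (1 - r) (∑ j, v j) l P x ≤ γ * κ * n * (2 * M + 1) := by
    have h1 := E1_scale hP hl hvs hn1 hτ0 hτ4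
    rw [← hrdef] at h1
    refine (h1.trans (hmmP _)).trans ?_
    refine mul_le_mul_of_nonneg_right (hsum.trans (le_of_eq ?_)) (by positivity)
    ring
  -- the good part of the test form
  have hTA : ∀ j, (∫ x, T j x) - (2 / 49 * n * (2 * M + 1) + 1 / 8 * ∫ x, E j x) ≤
      ∫ x in A j, T j x := by
    intro j
    obtain ⟨δ, hδd⟩ : ∃ δ : ℝ, δ = 1 / (49 * (τ * κ)) := ⟨_, rfl⟩
    have hδp : 0 < δ := by rw [hδd]; exact hδ0
    have h1 := integral_add_compl (hAm j) (hTI j)
    have h2 : ∫ x in (A j)ᶜ, T j x ≤ ∫ x in (A j)ᶜ,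
        ((4 * δ) / 2 * EB (1 - r) (v j) l P x + 1 / (2 * (4 * δ)) * E j x) := by
      refine setIntegral_mono_ae (hTI j).integrableOn
        (((hEBI (v j)).const_mul _).add ((hEI j).const_mul _)).integrableOn ?_
      filter_upwards [TV_psd hρ0 hρ1 hb0 hb1 (v j) l hP0 (hpm j) (hpb j)
        (c := 4 * δ) (by positivity)] with x hx
      exact (le_abs_self _).trans hx
    rw [integral_add ((hEBI (v j)).const_mul _).integrableOn
      ((hEI j).const_mul _).integrableOn, integral_const_mul, integral_const_mul] at h2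
    have h3 : ∫ x in (A j)ᶜ, EB (1 - r) (v j) l P x ≤ ∫ x, EB (1 - r) (v j) l P x :=
      setIntegral_le_integral (hEBI (v j)) (Filter.Eventually.of_forall fun x => hEB0 (v j) x)
    have h4 := hcheb j (E j) (hEI j) (hE0 j) (fun i x t => hEinv j i x t)
    rw [← hδd] at h4
    have h5 := hEBj j
    have h6 : (4 * δ) / 2 * ∫ x in (A j)ᶜ, EB (1 - r) (v j) l P x ≤
        2 / 49 * n * (2 * M + 1) := by
      calc (4 * δ) / 2 * ∫ x in (A j)ᶜ, EB (1 - r) (v j) l P x
          ≤ (4 * δ) / 2 * (τ * κ * n * (2 * M + 1)) :=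
            mul_le_mul_of_nonneg_left (h3.trans h5) (by positivity)
        _ = 2 / 49 * n * (2 * M + 1) := by
            rw [hδd]
            have : τ * κ ≠ 0 := by positivity
            field_simp
            ring
    have h7 : 1 / (2 * (4 * δ)) * ∫ x in (A j)ᶜ, E j x ≤ 1 / 8 * ∫ x, E j x := by
      calc 1 / (2 * (4 * δ)) * ∫ x in (A j)ᶜ, E j x
          ≤ 1 / (2 * (4 * δ)) * (δ * ∫ x, E j x) := mul_le_mul_of_nonneg_left h4 (by positivity)
        _ = 1 / 8 * ∫ x, E j x := by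
            have h8 : 1 / (2 * (4 * δ)) * δ = 1 / 8 := by
              field_simp
              norm_num
            rw [← mul_assoc, h8]
    linarith
  have hEA : ∀ j, 48 / 49 * (∫ x, E j x) ≤ ∫ x in A j, E j x := by
    intro j
    have h1 := integral_add_compl (hAm j) (hEI j)
    have h4 := hcheb j (E j) (hEI j) (hE0 j) (fun i x t => hEinv j i x t)
    have h5 : 0 ≤ ∫ x, E j x := integral_nonneg (hE0 j)
    have h6 := mul_le_mul_of_nonneg_right hδ h5
    linarith
  -- the direction of the sum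
  have hTsum : -(1 / 2 * (∫ x, EB (1 - r) (∑ j, v j) l P x) + 1 / 2 * ∑ j, ∫ x, E j x) ≤
      ∑ j, ∫ x, T j x := by
    have hpsm : Measurable fun x => ∑ j, p j x := Finset.measurable_sum _ fun i _ => hpm i
    have hpsb : ∀ᵐ x : Tor k, |∑ j, p j x| ≤ κ * (1 / r) := by
      have : ∀ᵐ x : Tor k, ∀ j, |p j x| ≤ 1 / r := by
        rw [ae_all_iff]
        exact hpb
      filter_upwards [this] with x hx
      calc |∑ j, p j x| ≤ ∑ j, |p j x| := Finset.abs_sum_le_sum_abs _ _
        _ ≤ ∑ j : ι, 1 / r := Finset.sum_le_sum fun j _ => hx j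
        _ = κ * (1 / r) := by rw [Finset.sum_const, Finset.card_univ, nsmul_eq_mul]
    have h1 := TV_sum v hUm hUI p hpm hpb hpinv hρ0 hρ1 hb0 hb1
    have h2 := EV_sum v p hpm hpb hpinv hρ0 hρ1 hb0 hb1
    have h3 : ∑ j, ∫ x, T j x = ∫ x, TV (1 - r) b (∑ j, v j) (UU l P)
        (fun x => ∑ j, p j x) x := h1.symm
    have h4 : ∑ j, ∫ x, E j x = ∫ x, EV (1 - r) b (∑ j, v j) (fun x => ∑ j, p j x) x := h2.symm
    rw [h3, h4]
    have iT := integrable_TV hρ0 hρ1 hb0 hb1 (∑ j, v j) hUm hUI hpsm hpsb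
    have iE := (EV_props hρ0 hρ1 hb0 hb1 (∑ j, v j) hpsm hpsb).1
    rw [← integral_const_mul, ← integral_const_mul,
      ← integral_add ((hEBI _).const_mul _) (iE.const_mul _), ← integral_neg]
    refine integral_mono_ae (((hEBI _).const_mul _).add (iE.const_mul _)).neg iT ?_
    filter_upwards [TV_psd hρ0 hρ1 hb0 hb1 (∑ j, v j) l hP0 hpsm hpsb (c := 1) one_pos]
      with x hx
    have h5 := (abs_le.mp hx).1
    have h6 : (1 : ℝ) / (2 * 1) = 1 / 2 := by norm_num
    rw [h6] at h5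
    linarith
  -- the end
  refine x9_arith (ι := ι) (κ := κ) (n := n) (β := β) (γ := γ) (M := M) (ell := ell) hκ0 hn0 hβ
    hγ hM0 hell rfl (N := fun j => (wd' (v j) (Γ j) : ℝ)) (T := fun j => ∫ x, T j x)
    (E := fun j => ∫ x, E j x) (TA := fun j => ∫ x in A j, T j x)
    (EA := fun j => ∫ x in A j, E j x) (G := fun j => (n / τ) * ∫ x, g j x)
    (V := ∫ x, EB (1 - r) (∑ j, v j) l P x) hnb (fun j => by exact_mod_cast hNn2 j)
    (fun j => integral_nonneg (hE0 j)) ?_ hmain hTA hEA hEBv hTsum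
  rw [← Finset.mul_sum]
  calc (n / τ) * ∑ j, ∫ x, g j x ≤ (n / τ) * (9 * (τ * κ) * M) :=
        mul_le_mul_of_nonneg_left hup (by positivity)
    _ = 9 * κ * n * M := by field_simp

end CP
end Pool.Agent.MP_44c6d5_nt
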