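import Mathlib
import Pool.Agent.MP_44c6d5_nt.CP.DefX
import Pool.Agent.MP_44c6d5_nt.CP.DefU
import Pool.Agent.MP_44c6d5_nt.CP.C8
import Pool.Agent.MP_44c6d5_nt.CP.D6
import Pool.Agent.MP_44c6d5_nt.CP.D7
import Pool.Agent.MP_44c6d5_nt.CP.F1
import Pool.Agent.MP_44c6d5_nt.CP.F2G
import Pool.Agent.MP_44c6d5_nt.CP.U1
import Pool.Agent.MP_44c6d5_nt.CP.U3
import Pool.Agent.MP_44c6d5_nt.CP.X9

/-!
[X10] the width bound, sums of directions.
-/

namespace Pool.Agent.MP_44c6d5_nt
namespace CP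

open MeasureTheory Real Module MvPolynomial

variable {k : ℕ}

theorem x10_notMem_of_dvd {P g : Pol k} (hP : Irreducible P) (hg : Irreducible g) (hgP : g ∣ P)
    {v : Fin k → ℝ} (hv : v ∉ Lam P) : v ∉ Lam g := by
  intro h
  obtain ⟨c, hc⟩ := hg.associated_of_dvd hP hgP
  apply hv
  have hc0 : (c : Pol k) ≠ 0 := c.ne_zero
  rw [← hc, Lam_mul hg.ne_zero hc0]
  refine ⟨h, ?_⟩
  have h1 : Lam (c : Pol k) = ⊤ := by
    have h2 : Lam ((c : Pol k) * ((c⁻¹ : (Pol k)ˣ) : Pol k)) = ⊤ := by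
      rw [Units.mul_inv]; exact Lam_one
    rw [Lam_mul hc0 (c⁻¹).ne_zero] at h2
    exact (inf_eq_top_iff.mp h2).1
  rw [h1]; trivial

theorem x10_sign (s : ℤ) (hs : s = 1 ∨ s = -1) (v : Fin k → ℤ) {P : Pol k} (hP : P ≠ 0) :
    wd' (s • v) P = wd' v P := by
  rcases hs with h | h <;> rw [h]
  · rw [one_smul]
  · rw [neg_smul, one_smul, wd'_neg v hP]

theorem x10_mem (s : ℤ) (hs : s = 1 ∨ s = -1) (v : Fin k → ℤ) {G : Pol k}
    (h : rl v ∈ Lam G) : rl (s • v) ∈ Lam G := by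
  rcases hs with h' | h' <;> rw [h']
  · rw [one_smul]; exact h
  · have e : rl (((-1 : ℤ)) • v) = - rl v := by
      funext i
      simp [rl]
    rw [e]
    exact neg_mem h

theorem width_boundX {n : ℕ} {P : Pol k} (hP : Irreducible P) {l0 : Fin k → ℤ}
    (v : Fin n → Fin k → ℤ) (hv : ∀ j, 1 ≤ wd' (v j) (ini (rl l0) P)) {B : ℝ} (hB : 1 ≤ B)
    {W : ℕ} (hW1 : ∀ j, wd' (v j) (ini (rl l0) P) ≤ W)
    (hW2 : ∀ j, (W : ℝ) ≤ B * wd' (v j) (ini (rl l0) P)) {x : Fin n → Fin n → ℝ}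
    {S : List (Fin n) → Fin n → ℝ} (hU : UCond (ini (rl l0) P) (ini (rl l0) P) v B x S)
    {r : ℝ} (hr : 1 ≤ r) (hx : ∑ i, ∑ j ∈ Finset.univ.erase i, x i j ≤ r * n)
    (hsum : ∀ I : Finset (Fin n), ∃ σ : Fin n → ℤ, (∀ j, σ j = 1 ∨ σ j = -1) ∧
      (wd' (∑ j ∈ I, σ j • v j) P : ℝ) ≤ B * W * (I.card + √(n * I.card / r)))
    {M : ℝ} (hM : mm P ≤ M) {D η t : ℝ}
    (hD : D = (CN M + 1) * (r * (288 * log (2 * B) + 33))) (hη : η = 16 * (6 * D + 1))
    (ht : t = tV M (4 * B ^ 2) (B * (1 + √(η / r)))) :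
    (n : ℝ) ≤ 9216 * r * (M + 1) / t0 M 2 + 4 * (D + 1) + r +
      η * ((256 * B ^ 2 * M + 1) / t) + 4 * B ^ 2 * η ^ 2 / (r * t ^ 2) := by
  classical
  have hP0 := hP.ne_zero
  have hM0 : 0 ≤ M := (mm_nonneg hP0).trans hM
  have hC0 := c8_CN_nonneg hM0
  have ht2 := c8_t0_pos M 2
  have htp : 0 < t := by rw [ht, tV]; positivity
  have hB0 : 0 < B := by linarith
  have hr0 : 0 < r := by linarith
  set Q : Pol k := ini (rl l0) P with hQ
  have hQ0 : Q ≠ 0 := ini_ne_zero _ hP0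
  have hQM : mm Q ≤ M := (mm_ini_le _ hP0).trans hM
  have hlB : 0 ≤ log (2 * B) := Real.log_nonneg (by linarith)
  have hD0 : 0 ≤ D := by rw [hD]; positivity
  have hη0 : 16 ≤ η := by rw [hη]; linarith
  have hηp : 0 < η := by linarith
  have hfirst : 0 ≤ 9216 * r * (M + 1) / t0 M 2 := by positivity
  have hfour : 0 ≤ η * ((256 * B ^ 2 * M + 1) / t) := by positivity
  have hfive : 0 ≤ 4 * B ^ 2 * η ^ 2 / (r * t ^ 2) := by positivity
  by_contra hcontra
  rw [not_le] at hcontra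
  have hκ : 9216 * r * (M + 1) / t0 M 2 < (n : ℝ) := by linarith
  have hκ0 : (0 : ℝ) < n := lt_of_le_of_lt hfirst hκ
  have hUw := hU.2.2.2.2
  have hvQ : ∀ j, rl (v j) ∉ Lam Q := by
    intro j
    rw [← wd'_pos_iff (v j) hQ0]
    have h2 := hv j
    omega
  obtain ⟨L, J, hJ1, hJL, hJ3, hJ4⟩ := exists_LU hQ0 v hv (fun j => le_rfl) hB hU hr hx hQM
  have hS : ∀ i ∈ J, ∀ j ∈ J, i ≠ j →
      mm (PL Q v L) - mm (PL Q v (j :: i :: L)) ≤ t0 M 2 / 32 := by
    intro i hi j hj hij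
    have h3 := (hJ4 [j, i] (by simp [hij.symm]) (by
      intro a ha
      rcases List.mem_cons.mp ha with h | h
      · rw [h]; exact hj
      · rw [List.mem_singleton.mp h]; exact hi)).1
    rw [List.length_cons, List.length_singleton] at h3
    push_cast at h3
    have h4 : 144 * r * 2 * (M + 1) ≤ t0 M 2 / 32 * n := by
      rw [div_lt_iff₀ ht2] at hκ
      linarith
    exact le_of_mul_le_mul_right (h3.trans h4) hκ0
  set F : Pol k := PL Q v L with hF0
  have hFne : F ≠ 0 := PL_ne_zero hQ0 v L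
  have hFQ : ∀ j, wd' (v j) F ≤ wd' (v j) Q := fun j => by
    have h := (PL_mono hQ0 v [] L).2 (v j)
    rw [List.append_nil] at h
    exact h
  have hFM : mm F ≤ M := by
    have := (PL_mono hQ0 v [] L).1
    rw [List.append_nil] at this
    exact this.trans hQM
  have hPF : ∀ j ∈ J, (wd' (v j) Q : ℝ) ≤ 2 * B * wd' (v j) F := fun j hj => by
    have h1 := hUw L j (hJL j hj).1
    have h2 := (hJL j hj).2
    have h3 : (0 : ℝ) ≤ wd' (v j) Q := Nat.cast_nonneg _
    nlinarith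
  have hWF : ∀ j ∈ J, (1 : ℝ) ≤ wd' (v j) F := fun j hj => by
    have h1 := hv j
    have h2 := hPF j hj
    have h3 : (1 : ℝ) ≤ wd' (v j) Q := by exact_mod_cast h1
    have h4 : 1 ≤ wd' (v j) F := by
      by_contra hcon
      have h5 : wd' (v j) F = 0 := by omega
      rw [h5, Nat.cast_zero, mul_zero] at h2
      linarith
    exact_mod_cast h4
  have hdeg : ∀ i ∈ J, ∀ E C : Pol k, F = E * C → rl (v i) ∈ Lam C →
      (∀ g, Irreducible g → g ∣ E → rl (v i) ∉ Lam g) →
      ∑ j ∈ J.erase i, (wd' (v j) E : ℝ) / wd' (v j) F ≤ D := fun i hi E C h1 h2 h3 => by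
    rw [hD]
    exact degU hQ0 v hv hB hU hr hQM hJL hJ3 hS (fun R hR hRJ => (hJ4 R hR hRJ).2) hi h1 h2 h3
  by_cases hL : rl l0 ∉ Lam P ∨ L ≠ []
  · obtain ⟨l, hl, hlF⟩ := exists_PL_functionalG hP0 v hvQ hL
    obtain ⟨E, C, hEC, hC, hE, hblk⟩ := exists_blocksW hFne v
    obtain ⟨I, hIS, hI1, hI2⟩ := exists_indepW J
      (fun i j => (wd' (v j) (E i) : ℝ) / wd' (v j) F)
      (fun i j => by positivity) (D := D)
      (fun i hi => hdeg i hi (E i) (C i) (hEC i) (hC i) (hE i))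
    obtain ⟨Γ, G, hF, hΓ0, hG0, hΓ, hG⟩ := hblk I
    -- widths of the blocks
    have hwd : ∀ j ∈ I, (wd' (v j) F : ℝ) ≤ 2 * wd' (v j) (Γ j) := by
      intro j hj
      have e1 := hG j hj
      have e2 := hI1 j hj
      have e3 := hWF j (hIS hj)
      have e4 : (wd' (v j) F : ℝ) ≤ wd' (v j) (Γ j) +
          ∑ i ∈ I.erase j, (wd' (v j) (E i) : ℝ) := by exact_mod_cast e1
      rw [← Finset.sum_div, div_le_iff₀ (by linarith)] at e2
      linarith
    have hΓpos : ∀ j ∈ I, 1 ≤ wd' (v j) (Γ j) := by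
      intro j hj
      have e1 := hwd j hj
      have e3 := hWF j (hIS hj)
      by_contra hcon
      have : wd' (v j) (Γ j) = 0 := by omega
      rw [this, Nat.cast_zero] at e1
      linarith
    have hWΓ : ∀ j ∈ I, (W : ℝ) ≤ 4 * B ^ 2 * wd' (v j) (Γ j) := by
      intro j hj
      calc (W : ℝ) ≤ B * wd' (v j) Q := hW2 j
        _ ≤ B * (2 * B * wd' (v j) F) := by
          have := hPF j (hIS hj)
          gcongr
        _ ≤ B * (2 * B * (2 * wd' (v j) (Γ j))) := by
          have := hwd j hj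
          gcongr
        _ = 4 * B ^ 2 * wd' (v j) (Γ j) := by ring
    -- the mass of the blocks
    have hsumM : ∑ j ∈ I, mm (Γ j) ≤ M := by
      have a1 := c8_mm_prod Γ hΓ0 I
      have a2 : mm (∏ j ∈ I, Γ j) ≤ mm F := mm_dvd_le hFne ⟨G, hF⟩
      linarith
    set I1 := I.filter fun j => mm (Γ j) ≤ t / (32 * (4 * B ^ 2)) with hI1def
    set I2 := I.filter fun j => ¬ mm (Γ j) ≤ t / (32 * (4 * B ^ 2)) with hI2def
    have hcard : I1.card + I2.card = I.card := Finset.card_filter_add_card_filter_not _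
    have hI2card : (I2.card : ℝ) ≤ 128 * B ^ 2 * M / t := by
      have a1 : (I2.card : ℝ) * (t / (32 * (4 * B ^ 2))) ≤ ∑ j ∈ I2, mm (Γ j) := by
        rw [← nsmul_eq_mul]
        apply Finset.card_nsmul_le_sum
        intro j hj
        have := (Finset.mem_filter.mp hj).2
        exact (not_le.mp this).le
      have a2 : ∑ j ∈ I2, mm (Γ j) ≤ ∑ j ∈ I, mm (Γ j) :=
        Finset.sum_le_sum_of_subset_of_nonneg (Finset.filter_subset _ _)
          (fun j _ _ => mm_nonneg (hΓ0 j))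
      rw [le_div_iff₀ htp]
      have a3 : (I2.card : ℝ) * (t / (32 * (4 * B ^ 2))) ≤ M := by linarith
      rw [mul_div_assoc', div_le_iff₀ (by positivity)] at a3
      linarith
    -- the number of blocks of small mass
    have hIn : 2 * (n : ℝ) ≤ η * I.card := by
      have : (n : ℝ) ≤ 4 * (2 * (6 * D + 1) * I.card) := by
        calc (n : ℝ) ≤ 4 * J.card := hJ1
          _ ≤ 4 * (2 * (6 * D + 1) * I.card) := by gcongr
      rw [hη]
      linarith
    have hn4 : η * ((256 * B ^ 2 * M + 1) / t) < (n : ℝ) := by linarith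
    have hI1n : (n : ℝ) ≤ η * I1.card := by
      have b1 : (I.card : ℝ) = I1.card + I2.card := by exact_mod_cast hcard.symm
      have b2 : η * (I2.card : ℝ) ≤ η * (128 * B ^ 2 * M / t) := by gcongr
      have b3 : η * (2 * (128 * B ^ 2 * M / t)) ≤ η * ((256 * B ^ 2 * M + 1) / t) := by
        refine mul_le_mul_of_nonneg_left ?_ hηp.le
        rw [mul_div_assoc']
        exact div_le_div_of_nonneg_right (by linarith) htp.le
      rw [b1] at hIn
      linarith
    have hI1t : 1 / t ≤ (I1.card : ℝ) := by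
      have b1 : η * (1 / t) ≤ η * ((256 * B ^ 2 * M + 1) / t) := by
        refine mul_le_mul_of_nonneg_left ?_ hηp.le
        refine div_le_div_of_nonneg_right ?_ htp.le
        have : 0 ≤ 256 * B ^ 2 * M := by positivity
        linarith
      exact le_of_mul_le_mul_left (b1.trans (hn4.le.trans hI1n)) hηp
    have hI1p : (0 : ℝ) < I1.card := lt_of_lt_of_le (by positivity) hI1t
    -- the signs
    obtain ⟨σ, hσ, hσs⟩ := hsum I1
    have hγ : (wd' (∑ j ∈ I1, σ j • v j) P : ℝ) ≤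
        B * (1 + √(η / r)) * (I1.card * W) := by
      refine hσs.trans ?_
      have c1 : √(n * I1.card / r) ≤ √(η / r) * I1.card := by
        rw [← Real.sqrt_sq hI1p.le, ← Real.sqrt_mul (by positivity)]
        apply Real.sqrt_le_sqrt
        rw [Real.sqrt_sq hI1p.le, div_mul_eq_mul_div]
        apply div_le_div_of_nonneg_right _ hr0.le
        nlinarith
      calc B * W * (I1.card + √(n * I1.card / r))
          ≤ B * W * (I1.card + √(η / r) * I1.card) := by gcongr
        _ = B * (1 + √(η / r)) * (I1.card * W) := by ring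
    have hone : ∀ j, (wd' (v j) P : ℝ) ≤ t * I1.card * W := by
      intro j
      obtain ⟨σ', hσ', hs'⟩ := hsum {j}
      rw [Finset.sum_singleton, x10_sign _ (hσ' j) _ hP0, Finset.card_singleton, Nat.cast_one,
        mul_one] at hs'
      refine hs'.trans ?_
      have d0 : 1 ≤ √(n / r) := by
        rw [Real.one_le_sqrt, le_div_iff₀ hr0]
        linarith
      have d1 : 2 * B * √(n / r) ≤ t * I1.card := by
        have d2 : (4 * B ^ 2 * η ^ 2 / (r * t ^ 2)) ≤ (n : ℝ) := by linarith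
        rw [div_le_iff₀ (by positivity)] at d2
        have d3 : (2 * B * √(n / r)) ^ 2 ≤ (t * (n / η)) ^ 2 := by
          rw [mul_pow, Real.sq_sqrt (by positivity), mul_pow, mul_pow, div_pow]
          rw [mul_div_assoc', mul_div_assoc', div_le_div_iff₀ hr0 (by positivity)]
          nlinarith
        have d4 : 2 * B * √(n / r) ≤ t * (n / η) :=
          le_of_sq_le_sq d3 (by positivity)
        refine d4.trans ?_
        have d5 : (n : ℝ) / η ≤ I1.card := by
          rw [div_le_iff₀ hηp]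
          linarith
        gcongr
      have hW0 : (0 : ℝ) ≤ W := Nat.cast_nonneg _
      have d6 : B * (1 + √(n / r)) ≤ t * I1.card := by
        refine le_trans ?_ d1
        nlinarith
      calc B * W * (1 + √(n / r)) = B * (1 + √(n / r)) * W := by ring
        _ ≤ t * I1.card * W := by gcongr
    refine WX hP hl (ι := {j // j ∈ I1}) (fun j => σ j.1 • v j.1) (fun j => Γ j.1)
      (fun j => (∏ i ∈ I.erase j.1, Γ i) * G) ?_ ?_ (M := M) (β := 4 * B ^ 2)
      (γ := B * (1 + √(η / r))) (by nlinarith) (by positivity) hM (n := W) ?_ ?_ ?_ ?_ ?_ ?_ ?_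
    · intro j
      have hj : j.1 ∈ I := (Finset.mem_filter.mp j.2).1
      rw [hlF, ← hF0, hF, ← Finset.mul_prod_erase I Γ hj, mul_assoc]
    · intro j
      rw [x10_sign _ (hσ j.1) _ (hΓ0 j.1)]
      exact hΓpos j.1 (Finset.mem_filter.mp j.2).1
    · intro j
      rw [hlF, ← hF0, x10_sign _ (hσ j.1) _ hFne]
      exact (hFQ j.1).trans (hW1 j.1)
    · intro j
      rw [x10_sign _ (hσ j.1) _ (hΓ0 j.1)]
      exact hWΓ j.1 (Finset.mem_filter.mp j.2).1
    · rw [Fintype.card_coe, Finset.sum_coe_sort I1 (fun j => σ j • v j)]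
      exact hγ
    · intro j
      rw [Fintype.card_coe, x10_sign _ (hσ j.1) _ hP0, ← ht]
      exact hone j.1
    · intro i j hij
      have hi : i.1 ∈ I := (Finset.mem_filter.mp i.2).1
      have hj : j.1 ∈ I := (Finset.mem_filter.mp j.2).1
      exact x10_mem _ (hσ i.1) _ (hΓ i.1 hi j.1 hj (fun h => hij (Subtype.ext h)))
    · intro j
      rw [← ht]
      exact (Finset.mem_filter.mp j.2).2
    · rw [Fintype.card_coe, ← ht]; exact hI1t
  · rw [not_or, not_not, not_not] at hL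
    obtain ⟨hl0, hLe⟩ := hL
    have hQP : Q = P := (ini_eq_self_iff hP0).mpr hl0
    have hFP : F = P := by rw [hF0, hLe]; exact hQP
    rcases J.eq_empty_or_nonempty with hJe | ⟨i, hi⟩
    · rw [hJe, Finset.card_empty, Nat.cast_zero] at hJ1
      linarith
    · have h1 := hdeg i hi P 1 (by rw [hFP, mul_one]) (by rw [Lam_one]; trivial)
        (fun g hg hgP => x10_notMem_of_dvd hP hg hgP (by rw [← hQP]; exact hvQ i))
      have h2 : ∑ j ∈ J.erase i, (wd' (v j) P : ℝ) / wd' (v j) F = (J.erase i).card := by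
        rw [Finset.sum_congr rfl (g := fun _ => (1 : ℝ)) ?_]
        · simp
        · intro j hj
          have := hWF j (Finset.mem_of_mem_erase hj)
          rw [hFP] at this ⊢
          exact div_self (by linarith)
      rw [h2, Finset.card_erase_of_mem hi] at h1
      have h3 : 1 ≤ J.card := Finset.card_pos.mpr ⟨i, hi⟩
      rw [Nat.cast_sub h3, Nat.cast_one] at h1
      linarith

end CP
end Pool.Agent.MP_44c6d5_nt
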