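import Mathlib
import Pool.Agent.MP_44c6d5_nt.CP.DefX
import Pool.Agent.MP_44c6d5_nt.CP.U5

/-!
[X11] numerics.
-/

namespace Pool.Agent.MP_44c6d5_nt
namespace CP

open MeasureTheory Real

theorem numericX {r B M D η t : ℝ} (hr : 1 ≤ r) (hB : 1 ≤ B) (hM : 0 ≤ M)
    (hD : D = (CN M + 1) * (r * (288 * log (2 * B) + 33))) (hη : η = 16 * (6 * D + 1))
    (ht : t = tV M (4 * B ^ 2) (B * (1 + √(η / r)))) :
    9216 * r * (M + 1) / t0 M 2 + 4 * (D + 1) + r +
      η * ((256 * B ^ 2 * M + 1) / t) + 4 * B ^ 2 * η ^ 2 / (r * t ^ 2) ≤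
      r * exp (exp (100 * (B + M + 1))) := by
  have hC := nB_CN_le hM
  have hC0 := nB_CN_nonneg hM
  have hX := Real.add_one_le_exp M
  have hXB := Real.add_one_le_exp B
  have hr0 : (0 : ℝ) < r := by linarith
  have hB0 : (0 : ℝ) < B := by linarith
  have hl0 : 0 ≤ log (2 * B) := Real.log_nonneg (by linarith)
  have hl1 : log (2 * B) ≤ 2 * B - 1 := Real.log_le_sub_one_of_pos (by linarith)
  have e1 : (2 : ℝ) ≤ exp 1 := by have := nB_two_pow 1; norm_num at this ⊢; linarith
  have e2 : (4 : ℝ) ≤ exp 2 := by have := nB_two_pow 2; norm_num at this ⊢; linarith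
  have e4 : (16 : ℝ) ≤ exp 4 := by have := nB_two_pow 4; norm_num at this ⊢; linarith
  have e7 : (128 : ℝ) ≤ exp 7 := by have := nB_two_pow 7; norm_num at this ⊢; linarith
  have e8 : (256 : ℝ) ≤ exp 8 := by have := nB_two_pow 8; norm_num at this ⊢; linarith
  have e10 : (1024 : ℝ) ≤ exp 10 := by have := nB_two_pow 10; norm_num at this ⊢; linarith
  have e11 : (2048 : ℝ) ≤ exp 11 := by have := nB_two_pow 11; norm_num at this ⊢; linarith
  have e16 : (65536 : ℝ) ≤ exp 16 := by have := nB_two_pow 16; norm_num at this ⊢; linarith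
  have e28 : (268435456 : ℝ) ≤ exp 28 := by have := nB_two_pow 28; norm_num at this ⊢; linarith
  have hBe : B ^ 2 ≤ exp (2 * B) := by
    calc B ^ 2 ≤ (exp B) ^ 2 := by gcongr; linarith
      _ = exp (2 * B) := by rw [← Real.exp_nat_mul]; norm_num
  have hq0 : 0 ≤ r * (288 * log (2 * B) + 33) := by positivity
  have hq1 : 33 * r ≤ r * (288 * log (2 * B) + 33) := by nlinarith [mul_nonneg hr0.le hl0]
  have hD1 : 33 * r ≤ D := by
    rw [hD]
    nlinarith [mul_nonneg hC0 hq0]
  have hD0 : 0 ≤ D := by linarith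
  have hD2 : D ≤ r * exp (19 * M + 27 + B) := by
    have h1 : (1 : ℝ) ≤ exp (19 * M + 16) := Real.one_le_exp (by linarith)
    have h2 : CN M + 1 ≤ exp (19 * M + 17) := by
      calc CN M + 1 ≤ 2 * exp (19 * M + 16) := by linarith
        _ ≤ exp 1 * exp (19 * M + 16) := by gcongr
        _ = exp (19 * M + 17) := by rw [← Real.exp_add]; ring_nf
    have h3 : r * (288 * log (2 * B) + 33) ≤ r * (exp 10 * exp B) := by
      apply mul_le_mul_of_nonneg_left _ hr0.le
      calc 288 * log (2 * B) + 33 ≤ 1024 * B := by linarith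
        _ ≤ exp 10 * exp B := by
            apply mul_le_mul e10 (by linarith) (by linarith) (by positivity)
    calc D ≤ exp (19 * M + 17) * (r * (exp 10 * exp B)) := by
          rw [hD]
          apply mul_le_mul h2 h3 hq0 (by positivity)
      _ = r * (exp (19 * M + 17) * exp 10 * exp B) := by ring
      _ = r * exp (19 * M + 27 + B) := by
          rw [← Real.exp_add, ← Real.exp_add]
          congr 2
          ring
  have hη1 : η ≤ r * exp (19 * M + 34 + B) := by
    calc η ≤ 128 * D := by rw [hη]; linarith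
      _ ≤ exp 7 * (r * exp (19 * M + 27 + B)) := by gcongr
      _ = r * (exp 7 * exp (19 * M + 27 + B)) := by ring
      _ = r * exp (19 * M + 34 + B) := by
          rw [← Real.exp_add]
          congr 2
          ring
  have hη0 : 0 < η := by rw [hη]; linarith
  have hηr : η / r ≤ exp (19 * M + 34 + B) := by
    rw [div_le_iff₀ hr0]
    linarith
  have hs1 : √(η / r) ≤ exp (10 * M + 17 + B) := by
    rw [Real.sqrt_le_left (by positivity)]
    refine hηr.trans ?_
    rw [← Real.exp_nat_mul]
    apply Real.exp_le_exp.mpr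
    push_cast
    linarith
  set s := √(η / r) with hs
  have hs0 : 0 ≤ s := Real.sqrt_nonneg _
  have hγ : B * (1 + s) + 1 ≤ exp (10 * M + 19 + 2 * B) := by
    have h1 : (1 : ℝ) ≤ exp (10 * M + 17 + B) := Real.one_le_exp (by linarith)
    have h2 : B * (1 + s) + 1 ≤ 4 * (B * exp (10 * M + 17 + B)) := by nlinarith
    calc B * (1 + s) + 1 ≤ 4 * (B * exp (10 * M + 17 + B)) := h2
      _ ≤ exp 2 * (exp B * exp (10 * M + 17 + B)) := by
          gcongr
          linarith
      _ = exp (10 * M + 19 + 2 * B) := by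
          rw [← Real.exp_add, ← Real.exp_add]
          congr 1
          ring
  set Y : ℝ := exp (11 * M + 34 + 4 * B) with hY
  have hYE : 512 * (4 * B ^ 2) * (B * (1 + s) + 1) * (10 * M + 1) ≤ Y := by
    have h1 : 10 * M + 1 ≤ exp 4 * exp M := by
      calc 10 * M + 1 ≤ 16 * (M + 1) := by linarith
        _ ≤ exp 4 * exp M := by gcongr
    calc 512 * (4 * B ^ 2) * (B * (1 + s) + 1) * (10 * M + 1)
        = 2048 * B ^ 2 * (B * (1 + s) + 1) * (10 * M + 1) := by ring
      _ ≤ exp 11 * exp (2 * B) * exp (10 * M + 19 + 2 * B) * (exp 4 * exp M) := by gcongr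
      _ = Y := by
          rw [hY, ← Real.exp_add, ← Real.exp_add, ← Real.exp_add, ← Real.exp_add]
          congr 1
          ring
  have hYb : 268435456 * (1 + 11 * M + 4 * B) ≤ Y := by
    have h1 := Real.add_one_le_exp (11 * M + 4 * B)
    calc 268435456 * (1 + 11 * M + 4 * B) ≤ exp 28 * exp (11 * M + 4 * B) := by
          apply mul_le_mul e28 (by linarith) (by linarith) (by positivity)
      _ = exp (11 * M + 28 + 4 * B) := by
          rw [← Real.exp_add]
          congr 1
          ring
      _ ≤ Y := Real.exp_le_exp.mpr (by linarith)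
  have ht1 : 1 / t ≤ 4 * exp Y := by
    have h1 : 1 / t = 4 * exp (512 * (4 * B ^ 2) * (B * (1 + s) + 1) * (10 * M + 1)) := by
      rw [ht, tV, Real.exp_neg]
      field_simp
    rw [h1]
    have := Real.exp_le_exp.mpr hYE
    linarith
  have htp : 0 < t := by rw [ht, tV]; positivity
  have hY0 : 0 < Y := by rw [hY]; positivity
  -- the five terms
  have c1 : 9216 * r * (M + 1) / t0 M 2 ≤ r * exp Y := by
    have h1 : 9216 * r * (M + 1) / t0 M 2 = 9216 * r * (M + 1) * (4 * exp (6656 * M + 512)) := by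
      unfold t0
      rw [show -(64 * (2 * (52 * M + 3) + 2)) = -(6656 * M + 512) by ring, Real.exp_neg]
      field_simp
    rw [h1]
    calc 9216 * r * (M + 1) * (4 * exp (6656 * M + 512))
        = r * (36864 * (M + 1) * exp (6656 * M + 512)) := by ring
      _ ≤ r * (exp 16 * exp M * exp (6656 * M + 512)) := by
          gcongr
          linarith
      _ = r * exp (6657 * M + 528) := by
          rw [← Real.exp_add, ← Real.exp_add]
          congr 2
          ring
      _ ≤ r * exp Y := by
          gcongr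
          linarith
  have c2 : 4 * (D + 1) ≤ r * exp Y := by
    calc 4 * (D + 1) ≤ 128 * D := by linarith
      _ ≤ exp 7 * (r * exp (19 * M + 27 + B)) := by gcongr
      _ = r * exp (19 * M + 34 + B) := by
          rw [mul_left_comm, ← Real.exp_add]
          congr 2
          ring
      _ ≤ r * exp Y := by
          gcongr
          linarith
  have c3 : r ≤ r * exp Y := by
    have : (1 : ℝ) ≤ exp Y := Real.one_le_exp hY0.le
    nlinarith
  have c4 : η * ((256 * B ^ 2 * M + 1) / t) ≤ r * exp (2 * Y) := by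
    have h1 : 256 * B ^ 2 * M + 1 ≤ exp 8 * exp (2 * B) * exp M := by
      have hB2 : 1 ≤ B ^ 2 := by nlinarith
      calc 256 * B ^ 2 * M + 1 ≤ 256 * B ^ 2 * (M + 1) := by nlinarith
        _ ≤ exp 8 * exp (2 * B) * exp M := by gcongr
    have h2 : (256 * B ^ 2 * M + 1) / t ≤ exp 8 * exp (2 * B) * exp M * (exp 2 * exp Y) := by
      rw [div_eq_mul_one_div]
      have h3 : 1 / t ≤ exp 2 * exp Y := ht1.trans (by gcongr)
      have h4 : 0 ≤ 1 / t := by positivity
      exact mul_le_mul h1 h3 h4 (by positivity)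
    calc η * ((256 * B ^ 2 * M + 1) / t)
        ≤ r * exp (19 * M + 34 + B) * (exp 8 * exp (2 * B) * exp M * (exp 2 * exp Y)) := by
          gcongr
      _ = r * exp (20 * M + 44 + 3 * B + Y) := by
          rw [mul_assoc, ← Real.exp_add, ← Real.exp_add, ← Real.exp_add, ← Real.exp_add,
            ← Real.exp_add]
          congr 2
          ring
      _ ≤ r * exp (2 * Y) := by
          gcongr
          linarith
  have c5 : 4 * B ^ 2 * η ^ 2 / (r * t ^ 2) ≤ r * exp (3 * Y) := by
    have h3 : 1 / t ≤ exp 2 * exp Y := ht1.trans (by gcongr)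
    have h4 : 0 ≤ 1 / t := by positivity
    have h5 : 4 * B ^ 2 * η ^ 2 / (r * t ^ 2) = 4 * B ^ 2 * (η / r) * η * (1 / t) ^ 2 := by
      field_simp
    rw [h5]
    calc 4 * B ^ 2 * (η / r) * η * (1 / t) ^ 2
        ≤ exp 2 * exp (2 * B) * exp (19 * M + 34 + B) * (r * exp (19 * M + 34 + B)) *
          (exp 2 * exp Y) ^ 2 := by gcongr
      _ = r * (exp 2 * exp (2 * B) * exp (19 * M + 34 + B) * exp (19 * M + 34 + B) *
          ((exp 2 * exp Y) * (exp 2 * exp Y))) := by ring
      _ = r * exp (38 * M + 74 + 4 * B + 2 * Y) := by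
          rw [← Real.exp_add, ← Real.exp_add, ← Real.exp_add, ← Real.exp_add, ← Real.exp_add,
            ← Real.exp_add]
          congr 2
          ring
      _ ≤ r * exp (3 * Y) := by
          gcongr
          linarith
  have d1 : exp Y ≤ exp (3 * Y) := Real.exp_le_exp.mpr (by linarith)
  have d2 : exp (2 * Y) ≤ exp (3 * Y) := Real.exp_le_exp.mpr (by linarith)
  have d3 : 5 * exp (3 * Y) ≤ exp (4 * Y) := by
    have h1 : 1 + Y ≤ exp Y := by have := Real.add_one_le_exp Y; linarith
    calc 5 * exp (3 * Y) ≤ exp Y * exp (3 * Y) := by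
          gcongr
          linarith
      _ = exp (4 * Y) := by
          rw [← Real.exp_add]
          congr 1
          ring
  have d4 : 4 * Y ≤ exp (100 * (B + M + 1)) := by
    calc 4 * Y ≤ exp 2 * exp (11 * M + 34 + 4 * B) := by gcongr
      _ = exp (11 * M + 36 + 4 * B) := by
          rw [← Real.exp_add]
          congr 1
          ring
      _ ≤ exp (100 * (B + M + 1)) := Real.exp_le_exp.mpr (by linarith)
  have d5 : exp (4 * Y) ≤ exp (exp (100 * (B + M + 1))) := Real.exp_le_exp.mpr d4
  have d6 : 9216 * r * (M + 1) / t0 M 2 + 4 * (D + 1) + r +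
      η * ((256 * B ^ 2 * M + 1) / t) + 4 * B ^ 2 * η ^ 2 / (r * t ^ 2) ≤
      r * (5 * exp (3 * Y)) := by
    nlinarith
  refine d6.trans ?_
  gcongr
  exact d3.trans d5

end CP
end Pool.Agent.MP_44c6d5_nt
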