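import Mathlib
import Pool.Agent.MP_44c6d5_nt.CP.U6
import Pool.Agent.MP_44c6d5_nt.CP.U7
import Pool.Agent.MP_44c6d5_nt.CP.U8
import Pool.Agent.MP_44c6d5_nt.CP.X10
import Pool.Agent.MP_44c6d5_nt.CP.X11

/-!
[X12] sums of directions: the final form.
-/

namespace Pool.Agent.MP_44c6d5_nt
namespace CP

open MeasureTheory Real Module MvPolynomial
open scoped Pointwise

variable {k : ℕ}

theorem x12_ini_zero {F : Pol k} (hF : F ≠ 0) : ini (0 : Fin k → ℝ) F = F :=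
  (ini_eq_self_iff hF).2 (Lam F).zero_mem

theorem mink_sums {n p r : ℕ} {P : Pol k} (hP : Irreducible P) (z : Fin k → ℝ)
    (T : Fin p → Finset (Fin k → ℝ)) (hT : ∀ a, (T a).Nonempty)
    (hN : newton (ini z P) = ∑ a, convexHull ℝ (T a : Set (Fin k → ℝ)))
    (v : Fin n → Fin k → ℤ) {W B : ℝ} (hW : 0 < W)
    (hgood : ∀ j, W ≤ ∑ a with {j : Fin n | wdF (T a) (fun i => (v j i : ℝ)) ≠ 0}.ncard ≤ r,
      wdF (T a) (fun i => (v j i : ℝ)))
    (hwide : ∀ j, width (fun i => (v j i : ℝ)) (ini z P) ≤ B * W)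
    (hsum : ∀ I : Finset (Fin n), ∃ σ : Fin n → ℤ, (∀ j, σ j = 1 ∨ σ j = -1) ∧
      width (fun i => ((∑ j ∈ I, σ j * v j i : ℤ) : ℝ)) P ≤
        B * W * (I.card + √(n * I.card / r)))
    {M : ℝ} (hM : mm P ≤ M) : (n : ℝ) ≤ r * exp (exp (100 * (B + M + 1))) := by
  classical
  have hP0 := hP.ne_zero
  have hM0 : 0 ≤ M := (mm_nonneg hP0).trans hM
  rcases Nat.eq_zero_or_pos n with hn | hn
  · subst hn
    simp only [Nat.cast_zero]
    positivity
  have hr1 : 1 ≤ r := by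
    by_contra hcon
    have hr0 : r = 0 := by omega
    have h1 := hgood ⟨0, hn⟩
    rw [Finset.sum_eq_zero] at h1
    · linarith
    · intro a ha
      have h2 := (Finset.mem_filter.1 ha).2
      rw [hr0, Nat.le_zero, Set.ncard_eq_zero (Set.toFinite _)] at h2
      by_contra h3
      have h4 : (⟨0, hn⟩ : Fin n) ∈ {j : Fin n | wdF (T a) (fun i => (v j i : ℝ)) ≠ 0} := h3
      rw [h2] at h4
      exact h4
  have hr1' : (1 : ℝ) ≤ r := by exact_mod_cast hr1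
  set Q : Pol k := ini z P with hQ
  have hQ0 : Q ≠ 0 := ini_ne_zero _ hP0
  have hN' : newton (ini (0 : Fin k → ℝ) Q) = ∑ a, convexHull ℝ (T a : Set (Fin k → ℝ)) := by
    rw [x12_ini_zero hQ0]; exact hN
  have hwdF0 : ∀ a (y : Fin k → ℝ), 0 ≤ wdF (T a) y := fun a y =>
    (wdF_mono subset_rfl (hT a) _).1
  have hwidthQ : ∀ j, width (fun i => (v j i : ℝ)) Q =
      ∑ a, wdF (T a) (fun i => (v j i : ℝ)) := by
    intro j
    have hord := ord_of_newton hQ0 T hT hN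
    unfold width wdF
    rw [hord, hord, Finset.sum_sub_distrib, Finset.sum_neg_distrib]
  have hWQ : ∀ j, W ≤ width (fun i => (v j i : ℝ)) Q := by
    intro j
    rw [hwidthQ j]
    exact (hgood j).trans (Finset.sum_le_sum_of_subset_of_nonneg (Finset.filter_subset _ _)
      fun a _ _ => hwdF0 a _)
  have hB : 1 ≤ B := by
    have h1 := (hWQ ⟨0, hn⟩).trans (hwide ⟨0, hn⟩)
    by_contra hcon
    rw [not_le] at hcon
    nlinarith
  have hB0 : 0 ≤ B := by linarith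
  obtain ⟨A, c, hA, hc0, hc1, hW3⟩ := mink_sparse (r := r) hQ0 0 T hT hN' v
    (fun j => lt_of_lt_of_le hW (hWQ j)) (B := B)
    (fun j => (hwide j).trans (mul_le_mul_of_nonneg_left (hgood j) hB0))
  rw [x12_ini_zero hQ0] at hW3
  have hW4 : ∀ (L : List (Fin n)) (j : Fin n), j ∉ L →
      (∑ a with j ∈ A a ∧ ∀ i ∈ L, i ∉ A a, c a j) * (wd' (v j) Q : ℝ) ≤
        B * wd' (v j) (PL Q v L) := by
    intro L j hj
    have h1 := hW3 L j hj
    rwa [u7_width (v j) hQ0, u7_width (v j) (PL_ne_zero hQ0 v L)] at h1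
  obtain ⟨x, S, hU, hx⟩ := UCond_of_sparse (P := Q) (G := Q) v A hA c hc0 hc1 hW4
  obtain ⟨l0, hl0⟩ : ∃ l0 : Fin k → ℤ, ini (rl l0) P = Q := by
    obtain ⟨l0, h0⟩ := exists_int_weight z P.support
    exact ⟨l0, ini_eq_of_weight h0 hP0 subset_rfl⟩
  have hWQ' : ∀ j, W ≤ wd' (v j) Q := by
    intro j
    have h1 := hWQ j
    rwa [u7_width (v j) hQ0] at h1
  have hv1 : ∀ j, 1 ≤ wd' (v j) Q := by
    intro j
    have h1 : (0 : ℝ) < wd' (v j) Q := lt_of_lt_of_le hW (hWQ' j)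
    exact_mod_cast h1
  set W' : ℕ := Finset.univ.sup fun j => wd' (v j) Q with hW'
  have hW1 : ∀ j, wd' (v j) Q ≤ W' := fun j =>
    Finset.le_sup (f := fun j => wd' (v j) Q) (Finset.mem_univ j)
  have hW2 : ∀ j, (W' : ℝ) ≤ B * wd' (v j) Q := by
    intro j
    obtain ⟨j0, _, hj0⟩ := Finset.exists_mem_eq_sup (Finset.univ : Finset (Fin n))
      ⟨⟨0, hn⟩, Finset.mem_univ _⟩ fun j => wd' (v j) Q
    have h1 : W' = wd' (v j0) Q := hj0
    have h2 := hwide j0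
    rw [u7_width (v j0) hQ0] at h2
    rw [h1]
    exact h2.trans (mul_le_mul_of_nonneg_left (hWQ' j) hB0)
  have hWW' : W ≤ W' := by
    have h1 : ((wd' (v ⟨0, hn⟩) Q : ℕ) : ℝ) ≤ W' := by exact_mod_cast hW1 ⟨0, hn⟩
    exact (hWQ' ⟨0, hn⟩).trans h1
  have hsum' : ∀ I : Finset (Fin n), ∃ σ : Fin n → ℤ, (∀ j, σ j = 1 ∨ σ j = -1) ∧
      (wd' (∑ j ∈ I, σ j • v j) P : ℝ) ≤ B * W' * (I.card + √(n * I.card / r)) := by
    intro I
    obtain ⟨σ, h1, h2⟩ := hsum I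
    refine ⟨σ, h1, ?_⟩
    have h3 : (fun i => ((∑ j ∈ I, σ j * v j i : ℤ) : ℝ)) =
        fun i => (((∑ j ∈ I, σ j • v j) i : ℤ) : ℝ) := by
      funext i
      congr 1
      rw [Finset.sum_apply]
      rfl
    rw [h3, u7_width _ hP0] at h2
    refine h2.trans ?_
    apply mul_le_mul_of_nonneg_right _ (by positivity)
    exact mul_le_mul_of_nonneg_left hWW' hB0
  rw [← hl0] at hU hv1 hW1 hW2
  exact (width_boundX hP v hv1 hB hW1 hW2 hU hr1' hx hsum' hM rfl rfl rfl).trans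
    (numericX hr1' hB hM0 rfl rfl rfl)

end CP
end Pool.Agent.MP_44c6d5_nt
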