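import Mathlib

/-!
[Y1] coordinates of maximal volume on a subspace.
-/

namespace Pool.Agent.MP_44c6d5_nt
namespace CP

open Module Matrix
open scoped InnerProductSpace

/-- The vector `x` minus its projection on the span of the independent vectors `v i`, and the Gram
determinant. -/
theorem y1_schur {E κ ι : Type} [NormedAddCommGroup E] [InnerProductSpace ℝ E] [Fintype κ]
    [DecidableEq κ] [Fintype ι] [DecidableEq ι] [Subsingleton ι] (i₀ : ι) (v : κ → E) (x : E)
    (hA : (gram ℝ v).det ≠ 0) {u : E}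
    (hu : u = x - ∑ i, ((gram ℝ v)⁻¹ *ᵥ fun i => ⟪v i, x⟫_ℝ) i • v i) :
    (∀ i, ⟪v i, u⟫_ℝ = 0) ∧ ⟪x, u⟫_ℝ = ⟪u, u⟫_ℝ ∧
      (gram ℝ (Sum.elim v fun _ : ι => x)).det = (gram ℝ v).det * ⟪u, u⟫_ℝ := by
  obtain ⟨c, hc⟩ : ∃ c : κ → ℝ, c = (gram ℝ v)⁻¹ *ᵥ fun i => ⟪v i, x⟫_ℝ := ⟨_, rfl⟩
  rw [← hc] at hu
  have hunit : IsUnit (gram ℝ v).det := isUnit_iff_ne_zero.2 hA
  have hAc : gram ℝ v *ᵥ c = fun i => ⟪v i, x⟫_ℝ := by
    rw [hc, mulVec_mulVec, mul_nonsing_inv _ hunit, one_mulVec]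
  have h1 : ∀ i, ⟪v i, u⟫_ℝ = 0 := by
    intro i
    have h2 := congrFun hAc i
    rw [hu, inner_sub_right, inner_sum, ← h2]
    simp only [mulVec, dotProduct, gram_apply, inner_smul_right]
    rw [sub_eq_zero]
    exact Finset.sum_congr rfl fun j _ => mul_comm _ _
  have h2 : ⟪x, u⟫_ℝ = ⟪u, u⟫_ℝ := by
    have h3 : x = u + ∑ i, c i • v i := by rw [hu]; abel
    conv_lhs => rw [h3]
    rw [inner_add_left, sum_inner]
    simp only [inner_smul_left, h1, mul_zero, Finset.sum_const_zero, add_zero]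
  refine ⟨h1, h2, ?_⟩
  have h3 : gram ℝ (Sum.elim v fun _ : ι => x) = fromBlocks (gram ℝ v)
      (of fun i _ => ⟪v i, x⟫_ℝ) (of fun _ i => ⟪x, v i⟫_ℝ) (of fun _ _ => ⟪x, x⟫_ℝ) := by
    ext i j
    rcases i with i | i <;> rcases j with j | j <;> rfl
  let _ : Invertible (gram ℝ v) := invertibleOfIsUnitDet _ hunit
  rw [h3, det_fromBlocks₁₁, det_eq_elem_of_subsingleton _ i₀, invOf_eq_nonsing_inv]
  congr 1
  rw [← h2, hu, inner_sub_right, inner_sum, Matrix.sub_apply, Matrix.mul_assoc, mul_apply]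
  simp only [of_apply]
  congr 1
  refine Finset.sum_congr rfl fun i _ => ?_
  rw [inner_smul_right, mul_comm]
  congr 1
  rw [hc, mul_apply]
  rfl

theorem y1_dual {N : ℕ} (U : Submodule ℝ (EuclideanSpace ℝ (Fin N))) {m : ℕ} (hm : 1 ≤ m)
    (hmd : m ≤ finrank ℝ U) :
    ∃ J : Finset (Fin N), J.card = m ∧ ∀ j ∈ J, ∃ u ∈ U, u j = 1 ∧
      (∀ i ∈ J, i ≠ j → u i = 0) ∧
      (∑ a, u a ^ 2) * ((finrank ℝ U : ℝ) - m + 1) ≤ (N : ℝ) - m + 1 := by
  classical
  obtain ⟨p, hp⟩ : ∃ p : Fin N → EuclideanSpace ℝ (Fin N),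
      ∀ a, p a = U.starProjection (EuclideanSpace.single a 1) := ⟨_, fun _ => rfl⟩
  have hpU : ∀ a, p a ∈ U := by
    intro a
    rw [hp]
    simp
  have hpi : ∀ a, ∀ x ∈ U, ⟪p a, x⟫_ℝ = x a := by
    intro a x hx
    rw [hp, Submodule.inner_starProjection_left_eq_right, Submodule.starProjection_eq_self_iff.2 hx]
    simp [EuclideanSpace.inner_single_left]
  have hF2 : ∀ x y : EuclideanSpace ℝ (Fin N), ∑ a, x a * y a = ⟪x, y⟫_ℝ := by
    intro x y
    rw [PiLp.inner_apply]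
    refine Finset.sum_congr rfl fun a _ => ?_
    simp [mul_comm]
  have hF3 : ∑ a, p a a = (finrank ℝ U : ℝ) := by
    have h1 : LinearMap.IsProj U (U.starProjection : EuclideanSpace ℝ (Fin N) →ₗ[ℝ]
        EuclideanSpace ℝ (Fin N)) := ⟨fun x => by simp, fun x hx =>
          Submodule.starProjection_eq_self_iff.2 hx⟩
    have h2 := h1.trace
    rw [LinearMap.trace_eq_sum_inner _ (EuclideanSpace.basisFun (Fin N) ℝ)] at h2
    rw [← h2]
    refine Finset.sum_congr rfl fun a _ => ?_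
    rw [EuclideanSpace.basisFun_apply]
    show p a a = ⟪EuclideanSpace.single a 1, U.starProjection (EuclideanSpace.single a 1)⟫_ℝ
    rw [← hp]
    simp [EuclideanSpace.inner_single_left]
  -- independent projections
  have hspan : U ≤ Submodule.span ℝ (Set.range p) := by
    intro x hx
    have h1 : x = ∑ a, x a • p a := by
      have h2 : x = ∑ a, x a • EuclideanSpace.single a (1 : ℝ) := by
        ext b
        simp [Finset.sum_apply, Pi.single_apply]
      have h3 : U.starProjection x = x := Submodule.starProjection_eq_self_iff.2 hx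
      conv_lhs => rw [← h3, h2]
      rw [map_sum]
      refine Finset.sum_congr rfl fun a _ => ?_
      rw [map_smul, hp]
    rw [h1]
    exact Submodule.sum_mem _ fun a _ => Submodule.smul_mem _ _
      (Submodule.subset_span ⟨a, rfl⟩)
  obtain ⟨w₀, hw₀⟩ : ∃ w₀ : Fin m → Fin N, LinearIndependent ℝ (fun i => p (w₀ i)) := by
    obtain ⟨b, hb1, hb2, hb3⟩ := exists_linearIndependent ℝ (Set.range p)
    have hbf : b.Finite := (Set.finite_range p).subset hb1
    have : Fintype b := hbf.fintype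
    have h1 : finrank ℝ (Submodule.span ℝ b) = b.toFinset.card := finrank_span_set_eq_card hb3
    have h2 : m ≤ Fintype.card b := by
      rw [← Set.toFinset_card, ← h1, hb2]
      exact hmd.trans (Submodule.finrank_mono hspan)
    obtain ⟨f⟩ : Nonempty (Fin m ↪ b) := Function.Embedding.nonempty_of_card_le (by simpa using h2)
    choose w hw using fun i => hb1 (f i).2
    refine ⟨w, ?_⟩
    simp only [hw]
    exact hb3.comp f f.injective
  obtain ⟨w, hw⟩ : ∃ w : Fin m → Fin N, ∀ w' : Fin m → Fin N,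
      (gram ℝ fun i => p (w' i)).det ≤ (gram ℝ fun i => p (w i)).det := by
    have : Nonempty (Fin m → Fin N) := ⟨w₀⟩
    exact Finite.exists_max fun w : Fin m → Fin N => (gram ℝ fun i => p (w i)).det
  have hnn : ∀ w' : Fin m → Fin N, 0 ≤ (gram ℝ fun i => p (w' i)).det := fun w' =>
    (posSemidef_gram ℝ _).det_nonneg
  have hpos : 0 < (gram ℝ fun i => p (w i)).det :=
    lt_of_lt_of_le (lt_of_le_of_ne (hnn w₀) (det_gram_ne_zero_iff_linearIndependent.2 hw₀).symm)
      (hw w₀)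
  have hli : LinearIndependent ℝ fun i => p (w i) :=
    det_gram_ne_zero_iff_linearIndependent.1 hpos.ne'
  have hwi : Function.Injective w := fun i j h => hli.injective (by simp only [h])
  refine ⟨Finset.univ.image w, ?_, fun j hj => ?_⟩
  · rw [Finset.card_image_of_injective _ hwi, Finset.card_univ, Fintype.card_fin]
  obtain ⟨j₀, _, rfl⟩ := Finset.mem_image.1 hj
  obtain ⟨v, hv⟩ : ∃ v : {i : Fin m // i ≠ j₀} → EuclideanSpace ℝ (Fin N),
      ∀ i, v i = p (w i.1) := ⟨_, fun _ => rfl⟩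
  have hvli : LinearIndependent ℝ v := by
    rw [show v = (fun i => p (w i)) ∘ (Subtype.val : {i : Fin m // i ≠ j₀} → Fin m) from
      funext hv]
    exact hli.comp _ Subtype.val_injective
  have hA : (gram ℝ v).det ≠ 0 := det_gram_ne_zero_iff_linearIndependent.2 hvli
  have hA0 : 0 < (gram ℝ v).det :=
    lt_of_le_of_ne (posSemidef_gram ℝ v).det_nonneg hA.symm
  obtain ⟨u, hu⟩ : ∃ u : Fin N → EuclideanSpace ℝ (Fin N), ∀ a, u a = p a -
      ∑ i, ((gram ℝ v)⁻¹ *ᵥ fun i => ⟪v i, p a⟫_ℝ) i • v i := ⟨_, fun _ => rfl⟩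
  have hss : Subsingleton {i : Fin m // ¬ i ≠ j₀} :=
    ⟨fun a b => Subtype.ext ((not_not.1 a.2).trans (not_not.1 b.2).symm)⟩
  have hsch := fun a => y1_schur (⟨j₀, fun h => h rfl⟩ : {i : Fin m // ¬ i ≠ j₀}) v (p a) hA (hu a)
  have huU : ∀ a, u a ∈ U := by
    intro a
    rw [hu]
    refine U.sub_mem (hpU a) (U.sum_mem fun i _ => U.smul_mem _ ?_)
    rw [hv]
    exact hpU _
  have hu0 : ∀ a, ∀ i : Fin m, i ≠ j₀ → u a (w i) = 0 := by
    intro a i hi
    rw [← hpi (w i) _ (huU a), ← hv ⟨i, hi⟩]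
    exact (hsch a).1 _
  have huu : ∀ a, u a a = ⟪u a, u a⟫_ℝ := by
    intro a
    rw [← hpi a _ (huU a)]
    exact (hsch a).2.1
  have hdet : ∀ a, (gram ℝ fun i => p (Function.update w j₀ a i)).det =
      (gram ℝ v).det * ⟪u a, u a⟫_ℝ := by
    intro a
    rw [← (hsch a).2.2, ← det_submatrix_equiv_self (Equiv.sumCompl fun i => i ≠ j₀)]
    congr 1
    have h1 : ∀ i : {i : Fin m // i ≠ j₀} ⊕ {i : Fin m // ¬ i ≠ j₀},
        p (Function.update w j₀ a (Equiv.sumCompl (fun i => i ≠ j₀) i)) =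
          Sum.elim v (fun _ => p a) i := by
      rintro (i | i)
      · rw [Equiv.sumCompl_apply_inl, Function.update_of_ne i.2, Sum.elim_inl, hv]
      · rw [Equiv.sumCompl_apply_inr, not_not.1 i.2, Function.update_self, Sum.elim_inr]
    ext i j
    rw [submatrix_apply, gram_apply, gram_apply, h1, h1]
  obtain ⟨δ, hδ⟩ : ∃ δ : ℝ, δ = ⟪u (w j₀), u (w j₀)⟫_ℝ := ⟨_, rfl⟩
  have hδ1 : (gram ℝ fun i => p (w i)).det = (gram ℝ v).det * δ := by
    have h1 := hdet (w j₀)
    rw [Function.update_eq_self] at h1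
    rw [h1, hδ]
  have hδ0 : 0 < δ := by
    rw [hδ1] at hpos
    exact pos_of_mul_pos_right hpos hA0.le |> fun h => h
  have hle : ∀ a, u a a ≤ δ := by
    intro a
    rw [huu]
    have h1 := hw (Function.update w j₀ a)
    rw [hdet, hδ1] at h1
    exact le_of_mul_le_mul_left h1 hA0
  have hsum : ∑ a, u a a = (finrank ℝ U : ℝ) - m + 1 := by
    have h1 : ∀ a, u a a = p a a - ∑ i, ∑ i', (gram ℝ v)⁻¹ i i' * (v i' a * v i a) := by
      intro a
      have h2 : u a a = p a a - ∑ i, ((gram ℝ v)⁻¹ *ᵥ fun i => ⟪v i, p a⟫_ℝ) i * v i a := by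
        rw [hu]
        simp
      rw [h2]
      congr 1
      refine Finset.sum_congr rfl fun i _ => ?_
      simp only [mulVec, dotProduct]
      rw [Finset.sum_mul]
      refine Finset.sum_congr rfl fun i' _ => ?_
      rw [real_inner_comm, hpi a (v i') (by rw [hv]; exact hpU _)]
      ring
    simp only [h1]
    rw [Finset.sum_sub_distrib, hF3, Finset.sum_comm]
    have h2 : ∀ i, ∑ a, ∑ i', (gram ℝ v)⁻¹ i i' * (v i' a * v i a) = 1 := by
      intro i
      rw [Finset.sum_comm]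
      have h3 : ∀ i', ∑ a, (gram ℝ v)⁻¹ i i' * (v i' a * v i a) =
          (gram ℝ v)⁻¹ i i' * gram ℝ v i' i := by
        intro i'
        rw [← Finset.mul_sum, hF2, gram_apply]
      simp only [h3]
      have h4 : ((gram ℝ v)⁻¹ * gram ℝ v) i i = 1 := by
        rw [nonsing_inv_mul _ (isUnit_iff_ne_zero.2 hA), one_apply_eq]
      rw [← h4, mul_apply]
    simp only [h2]
    rw [Finset.sum_const, Finset.card_univ, Fintype.card_subtype_compl, Fintype.card_fin,
      Fintype.card_subtype_eq, nsmul_eq_mul, mul_one, Nat.cast_sub hm]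
    push_cast
    ring
  have hfin : (finrank ℝ U : ℝ) - m + 1 ≤ ((N : ℝ) - m + 1) * δ := by
    rw [← hsum]
    obtain ⟨s, hs⟩ : ∃ s : Finset (Fin N), s = (Finset.univ.erase j₀).image w := ⟨_, rfl⟩
    have hsc : s.card = m - 1 := by
      rw [hs, Finset.card_image_of_injective _ hwi, Finset.card_erase_of_mem (Finset.mem_univ _),
        Finset.card_univ, Fintype.card_fin]
    have h1 : ∑ a, u a a = ∑ a ∈ sᶜ, u a a := by
      rw [← Finset.sum_add_sum_compl s, add_eq_right]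
      refine Finset.sum_eq_zero fun a ha => ?_
      rw [hs] at ha
      obtain ⟨i, hi, rfl⟩ := Finset.mem_image.1 ha
      exact hu0 _ i (Finset.ne_of_mem_erase hi)
    have hmN : s.card ≤ N := by
      have := Finset.card_le_univ s
      simpa using this
    rw [h1]
    refine (Finset.sum_le_card_nsmul _ _ δ fun a _ => hle a).trans (le_of_eq ?_)
    rw [Finset.card_compl, Fintype.card_fin, nsmul_eq_mul, Nat.cast_sub hmN, hsc, Nat.cast_sub hm]
    push_cast
    ring
  refine ⟨δ⁻¹ • u (w j₀), U.smul_mem _ (huU _), ?_, fun i hi hij => ?_, ?_⟩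
  · show δ⁻¹ * u (w j₀) (w j₀) = 1
    rw [huu, ← hδ, inv_mul_cancel₀ hδ0.ne']
  · obtain ⟨i, _, rfl⟩ := Finset.mem_image.1 hi
    show δ⁻¹ * u (w j₀) (w i) = 0
    rw [hu0 _ i fun h => hij (by rw [h]), mul_zero]
  · have h1 : ∑ a, (δ⁻¹ • u (w j₀)) a ^ 2 = δ⁻¹ := by
      have h2 : ∀ a, (δ⁻¹ • u (w j₀)) a ^ 2 = δ⁻¹ ^ 2 * (u (w j₀) a * u (w j₀) a) := by
        intro a
        show (δ⁻¹ * u (w j₀) a) ^ 2 = _
        ring
      simp only [h2]
      rw [← Finset.mul_sum, hF2, ← hδ]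
      field_simp
    rw [h1, inv_mul_le_iff₀ hδ0]
    linarith

end CP
end Pool.Agent.MP_44c6d5_nt
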