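import Mathlib
import Pool.Agent.MP_44c6d5_nt.Approx

/-!
Row Y2: simultaneous approximation.
-/

namespace Pool.Agent.MP_44c6d5_nt
namespace CP

open Real

theorem y2_dirichlet {ι : Type} [Fintype ι] (x : ι → ℝ) {ε : ℝ} (hε : 0 < ε) :
    ∃ D : ℕ, 1 ≤ D ∧ ∃ y : ι → ℤ, ∀ i, |D * x i - y i| < ε := by
  classical
  obtain ⟨D, hD, l, hl⟩ := dirichlet (fun i => x ((Fintype.equivFin ι).symm i)) hε 1
  refine ⟨D, by omega, fun i => l (Fintype.equivFin ι i), fun i => ?_⟩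
  have h := hl (Fintype.equivFin ι i)
  simpa using h

end CP
end Pool.Agent.MP_44c6d5_nt
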