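import Mathlib

/-!
[Y3] signs.
-/

namespace Pool.Agent.MP_44c6d5_nt
namespace CP

open Real

theorem y3_aux {N n : ℕ} (I : Finset (Fin n)) (a : Fin N → Fin n → ℝ) :
    ∃ σ : Fin n → ℤ, (∀ j, σ j = 1 ∨ σ j = -1) ∧
      ∑ c, (∑ j ∈ I, (σ j : ℝ) * a c j) ^ 2 ≤ ∑ c, ∑ j ∈ I, a c j ^ 2 := by
  classical
  induction I using Finset.induction_on with
  | empty => exact ⟨fun _ => 1, fun _ => Or.inl rfl, by simp⟩
  | insert i s hi ih =>
    obtain ⟨σ, hσ, h⟩ := ih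
    obtain ⟨e, he, hq⟩ : ∃ e : ℤ, (e = 1 ∨ e = -1) ∧
        (e : ℝ) * ∑ c, (∑ j ∈ s, (σ j : ℝ) * a c j) * a c i ≤ 0 := by
      rcases le_total (∑ c, (∑ j ∈ s, (σ j : ℝ) * a c j) * a c i) 0 with h0 | h0
      · exact ⟨1, Or.inl rfl, by simpa using h0⟩
      · exact ⟨-1, Or.inr rfl, by simpa using h0⟩
    have he2 : (e : ℝ) ^ 2 = 1 := by
      rcases he with h1 | h1 <;> rw [h1] <;> norm_num
    refine ⟨Function.update σ i e, fun j => ?_, ?_⟩
    · by_cases hj : j = i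
      · rw [hj, Function.update_self]; exact he
      · rw [Function.update_of_ne hj]; exact hσ j
    · have h1 : ∀ c, ∑ j ∈ insert i s, ((Function.update σ i e j : ℤ) : ℝ) * a c j =
          (e : ℝ) * a c i + ∑ j ∈ s, (σ j : ℝ) * a c j := by
        intro c
        rw [Finset.sum_insert hi, Function.update_self]
        congr 1
        refine Finset.sum_congr rfl fun j hj => ?_
        rw [Function.update_of_ne (fun h2 => hi (by rw [← h2]; exact hj))]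
      have h2 : ∀ c, ((e : ℝ) * a c i + ∑ j ∈ s, (σ j : ℝ) * a c j) ^ 2 =
          a c i ^ 2 + 2 * ((e : ℝ) * ((∑ j ∈ s, (σ j : ℝ) * a c j) * a c i)) +
            (∑ j ∈ s, (σ j : ℝ) * a c j) ^ 2 := by
        intro c
        linear_combination (a c i ^ 2) * he2
      simp only [h1, h2, Finset.sum_insert hi, Finset.sum_add_distrib, ← Finset.mul_sum]
      linarith

-- [Y3] signs
theorem y3_signs {N n : ℕ} (I : Finset (Fin n)) (a : Fin N → Fin n → ℝ) :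
    ∃ σ : Fin n → ℤ, (∀ j, σ j = 1 ∨ σ j = -1) ∧
      ∑ c, |∑ j ∈ I, (σ j : ℝ) * a c j| ≤ √(N * ∑ c, ∑ j ∈ I, a c j ^ 2) := by
  obtain ⟨σ, hσ, h⟩ := y3_aux I a
  refine ⟨σ, hσ, Real.le_sqrt_of_sq_le ?_⟩
  refine (sq_sum_le_card_mul_sum_sq (s := Finset.univ)
    (f := fun c => |∑ j ∈ I, (σ j : ℝ) * a c j|)).trans ?_
  simp only [sq_abs, Finset.card_univ, Fintype.card_fin]
  exact mul_le_mul_of_nonneg_left h (Nat.cast_nonneg _)

end CP
end Pool.Agent.MP_44c6d5_nt
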