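import Mathlib
import Pool.Agent.MP_44c6d5_nt.CP.Y1
import Pool.Agent.MP_44c6d5_nt.CP.Y2

/-!
[Y4] integral dual vectors.
-/

namespace Pool.Agent.MP_44c6d5_nt
namespace CP

open Module Matrix

variable {k : ℕ}

theorem y4_int {N m : ℕ} (g : Fin N → Fin k → ℤ) (hm : 1 ≤ m) {d : ℕ}
    (hd : finrank ℝ (Submodule.span ℝ (Set.range fun a => (fun i => (g a i : ℝ)))) = d)
    (hmd : m ≤ d) : ∃ (J : Finset (Fin N)) (D : ℕ) (v : Fin N → Fin k → ℤ), J.card = m ∧ 1 ≤ D ∧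
      ∀ j ∈ J, ∑ l, v j l * g j l = D ∧ (∀ i ∈ J, i ≠ j → ∑ l, v j l * g i l = 0) ∧
        (∑ a, ((∑ l, v j l * g a l : ℤ) : ℝ) ^ 2) * ((d : ℝ) - m + 1) ≤
          2 * D ^ 2 * ((N : ℝ) - m + 1) := by
  classical
  obtain ⟨G, hG⟩ : ∃ G : Matrix (Fin N) (Fin k) ℝ, G = fun a i => (g a i : ℝ) := ⟨_, rfl⟩
  obtain ⟨U, hU⟩ : ∃ U : Submodule ℝ (EuclideanSpace ℝ (Fin N)), U =
      (LinearMap.range G.mulVecLin).map (WithLp.linearEquiv 2 ℝ (Fin N → ℝ)).symm.toLinearMap :=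
    ⟨_, rfl⟩
  have hfin : finrank ℝ U = d := by
    rw [hU, LinearEquiv.finrank_map_eq, ← hd]
    have h1 := G.rank_eq_finrank_span_row
    rw [show G.rank = finrank ℝ (LinearMap.range G.mulVecLin) from rfl] at h1
    rw [h1, hG]
    rfl
  obtain ⟨J, hJ, hJu⟩ := y1_dual U hm (by rw [hfin]; exact hmd)
  rw [hfin] at hJu
  have hw : ∀ j ∈ J, ∃ w : Fin k → ℝ, (∑ l, w l * g j l = 1) ∧
      (∀ i ∈ J, i ≠ j → ∑ l, w l * g i l = 0) ∧
      (∑ a, (∑ l, w l * g a l) ^ 2) * ((d : ℝ) - m + 1) ≤ (N : ℝ) - m + 1 := by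
    intro j hj
    obtain ⟨u, huU, h1, h2, h3⟩ := hJu j hj
    rw [hU] at huU
    obtain ⟨u', ⟨w, hw⟩, hu'⟩ := huU
    have h4 : ∀ a, u a = ∑ l, w l * g a l := by
      intro a
      rw [← hu', ← hw, hG]
      show ∑ l, (g a l : ℝ) * w l = _
      exact Finset.sum_congr rfl fun l _ => mul_comm _ _
    refine ⟨w, by rw [← h4]; exact h1, fun i hi hij => by rw [← h4]; exact h2 i hi hij, ?_⟩
    simp only [← h4]
    exact h3
  obtain ⟨w, hw⟩ : ∃ w : Fin N → Fin k → ℝ, ∀ j ∈ J, (∑ l, w j l * g j l = 1) ∧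
      (∀ i ∈ J, i ≠ j → ∑ l, w j l * g i l = 0) ∧
      (∑ a, (∑ l, w j l * g a l) ^ 2) * ((d : ℝ) - m + 1) ≤ (N : ℝ) - m + 1 := by
    choose! w hw using hw
    exact ⟨w, hw⟩
  obtain ⟨S, hS⟩ : ∃ S : ℝ, S = ∑ a, ∑ l, |(g a l : ℝ)| + 1 := ⟨_, rfl⟩
  have hS0 : 0 < S := by
    rw [hS]
    have : 0 ≤ ∑ a, ∑ l, |(g a l : ℝ)| :=
      Finset.sum_nonneg fun a _ => Finset.sum_nonneg fun l _ => abs_nonneg _
    linarith
  obtain ⟨ε, hε⟩ : ∃ ε : ℝ, ε = 1 / (S * (6 * N + 1)) := ⟨_, rfl⟩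
  have hε0 : 0 < ε := by rw [hε]; positivity
  obtain ⟨D, hD, y, hy⟩ := y2_dirichlet (fun p : Fin N × Fin k => w p.1 p.2) hε0
  refine ⟨J, D, fun j l => y (j, l), hJ, hD, fun j hj => ?_⟩
  obtain ⟨h1, h2, h3⟩ := hw j hj
  have hN1 : (1 : ℝ) ≤ N := by
    have : 1 ≤ N := by
      have := j.2
      omega
    exact_mod_cast this
  obtain ⟨η, hη⟩ : ∃ η : ℝ, η = 1 / (6 * N + 1) := ⟨_, rfl⟩
  have hη0 : 0 < η := by rw [hη]; positivity
  have hη1 : η < 1 := by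
    rw [hη, div_lt_one (by positivity)]
    linarith
  have herr : ∀ a, |((∑ l, y (j, l) * g a l : ℤ) : ℝ) - D * ∑ l, w j l * g a l| ≤ η := by
    intro a
    have e1 : ((∑ l, y (j, l) * g a l : ℤ) : ℝ) - D * ∑ l, w j l * g a l =
        ∑ l, ((y (j, l) : ℝ) - D * w j l) * g a l := by
      push_cast
      rw [Finset.mul_sum, ← Finset.sum_sub_distrib]
      exact Finset.sum_congr rfl fun l _ => by ring
    rw [e1]
    have e2 : ∀ l, |((y (j, l) : ℝ) - D * w j l) * g a l| ≤ ε * |(g a l : ℝ)| := by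
      intro l
      rw [abs_mul, abs_sub_comm]
      exact mul_le_mul_of_nonneg_right (hy (j, l)).le (abs_nonneg _)
    have e3 : ∑ l, |(g a l : ℝ)| ≤ S := by
      rw [hS]
      have : ∑ l, |(g a l : ℝ)| ≤ ∑ a, ∑ l, |(g a l : ℝ)| :=
        Finset.single_le_sum (f := fun a => ∑ l, |(g a l : ℝ)|)
          (fun a _ => Finset.sum_nonneg fun l _ => abs_nonneg _) (Finset.mem_univ a)
      linarith
    calc |∑ l, ((y (j, l) : ℝ) - D * w j l) * g a l| ≤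
          ∑ l, |((y (j, l) : ℝ) - D * w j l) * g a l| := Finset.abs_sum_le_sum_abs _ _
      _ ≤ ∑ l, ε * |(g a l : ℝ)| := Finset.sum_le_sum fun l _ => e2 l
      _ = ε * ∑ l, |(g a l : ℝ)| := by rw [Finset.mul_sum]
      _ ≤ ε * S := mul_le_mul_of_nonneg_left e3 hε0.le
      _ = η := by rw [hε, hη]; field_simp
  have hint : ∀ (z : ℤ) (z' : ℤ), |(z : ℝ) - z'| ≤ η → z = z' := by
    intro z z' h
    have h4 : |(z : ℝ) - z'| < 1 := lt_of_le_of_lt h hη1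
    have h5 : |z - z'| < 1 := by exact_mod_cast h4
    have h6 := Int.abs_lt_one_iff.1 h5
    omega
  refine ⟨?_, fun i hi hij => ?_, ?_⟩
  · refine hint _ _ ?_
    have h4 := herr j
    rw [h1, mul_one] at h4
    exact_mod_cast h4
  · refine hint _ _ ?_
    have h4 := herr i
    rw [h2 i hi hij, mul_zero] at h4
    exact_mod_cast h4
  · have hD1 : (1 : ℝ) ≤ D := by exact_mod_cast hD
    have hu1 : 1 ≤ ∑ a, (∑ l, w j l * g a l) ^ 2 := by
      have h4 : (∑ l, w j l * g j l) ^ 2 ≤ ∑ a, (∑ l, w j l * g a l) ^ 2 :=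
        Finset.single_le_sum (f := fun a => (∑ l, w j l * (g a l : ℝ)) ^ 2)
          (fun a _ => sq_nonneg _) (Finset.mem_univ j)
      rw [h1] at h4
      linarith
    have hsq : ∑ a, ((∑ l, y (j, l) * g a l : ℤ) : ℝ) ^ 2 ≤
        2 * D ^ 2 * ∑ a, (∑ l, w j l * g a l) ^ 2 := by
      have h4 : ∀ a, ((∑ l, y (j, l) * g a l : ℤ) : ℝ) ^ 2 ≤
          3 / 2 * D ^ 2 * (∑ l, w j l * g a l) ^ 2 + 3 * η ^ 2 := by
        intro a
        have h5 := herr a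
        obtain ⟨z, hz⟩ : ∃ z : ℝ, z = ((∑ l, y (j, l) * g a l : ℤ) : ℝ) := ⟨_, rfl⟩
        obtain ⟨x, hx⟩ : ∃ x : ℝ, x = D * ∑ l, w j l * g a l := ⟨_, rfl⟩
        rw [← hz, ← hx] at h5
        have h6 : 3 / 2 * (D : ℝ) ^ 2 * (∑ l, w j l * g a l) ^ 2 = 3 / 2 * x ^ 2 := by
          rw [hx]
          ring
        rw [← hz, h6]
        have h7 : (z - x) ^ 2 ≤ η ^ 2 := sq_le_sq' (by linarith [(abs_le.1 h5).1]) (abs_le.1 h5).2
        nlinarith [sq_nonneg (x - 2 * (z - x))]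
      refine (Finset.sum_le_sum fun a _ => h4 a).trans ?_
      rw [Finset.sum_add_distrib, ← Finset.mul_sum, Finset.sum_const, Finset.card_univ,
        Fintype.card_fin, nsmul_eq_mul]
      have h8 : (N : ℝ) * (3 * η ^ 2) ≤ 1 / 2 := by
        rw [hη, div_pow, one_pow]
        rw [show (N : ℝ) * (3 * (1 / (6 * N + 1) ^ 2)) = 3 * N / (6 * N + 1) ^ 2 by ring,
          div_le_div_iff₀ (by positivity) (by norm_num)]
        nlinarith
      have h9 : (1 : ℝ) ≤ D ^ 2 := one_le_pow₀ hD1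
      have h10 : 1 ≤ (D : ℝ) ^ 2 * ∑ a, (∑ l, w j l * g a l) ^ 2 := by nlinarith
      nlinarith
    have h11 : 0 ≤ (d : ℝ) - m + 1 := by
      have : (m : ℝ) ≤ d := by exact_mod_cast hmd
      linarith
    have h12 := mul_le_mul_of_nonneg_right hsq h11
    refine h12.trans ?_
    rw [mul_assoc]
    exact mul_le_mul_of_nonneg_left h3 (by positivity)

end CP
end Pool.Agent.MP_44c6d5_nt
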