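import Mathlib
import Pool.Agent.MP_44c6d5_nt.CP.DefX
import Pool.Agent.MP_44c6d5_nt.CP.DefW
import Pool.Agent.MP_44c6d5_nt.CP.F11

namespace Pool.Agent.MP_44c6d5_nt
namespace CP

open MeasureTheory Real Module MvPolynomial
open scoped Pointwise

variable {k : ℕ}

theorem y5_dotR_zero (y : Fin k → ℝ) : dotR y 0 = 0 := by
  simp [dotR]

theorem y5_dotR_neg (y a : Fin k → ℝ) : dotR (-y) a = -dotR y a := by
  simp [dotR, Finset.sum_neg_distrib]

theorem y5_ord {N : ℕ} {P : Pol k} (hP : P ≠ 0) (c : Fin k → ℝ) (g : Fin N → Fin k → ℝ)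
    (hN : newton P = {c} + ∑ a, convexHull ℝ ({0, g a} : Set (Fin k → ℝ))) (y : Fin k → ℝ) :
    ord y P = dotR y c + ∑ a, min 0 (dotR y (g a)) := by
  apply le_antisymm
  · have h0 : ∀ a, ∃ x ∈ ({0, g a} : Set (Fin k → ℝ)), dotR y x = min 0 (dotR y (g a)) := by
      intro a
      rcases le_total 0 (dotR y (g a)) with h | h
      · exact ⟨0, Or.inl rfl, by rw [min_eq_left h, y5_dotR_zero]⟩
      · exact ⟨g a, Or.inr rfl, by rw [min_eq_right h]⟩
    choose x hx hx' using h0
    have h1 : c + ∑ a, x a ∈ newton P := by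
      rw [hN]
      refine Set.add_mem_add (Set.mem_singleton c) ?_
      rw [Set.mem_finsetSum]
      exact ⟨x, fun {a} _ => subset_convexHull ℝ _ (hx a), rfl⟩
    have h2 : ord y P ≤ dotR y (c + ∑ a, x a) := by
      refine f11_hull ?_ h1
      rintro _ ⟨j, hj, rfl⟩
      exact ord_le y hj
    rw [f11_dotR_add, f11_dotR_sum] at h2
    simpa only [hx'] using h2
  · obtain ⟨j, hj, hj'⟩ := exists_ord y hP
    have h1 : (fun i => (j i : ℝ)) ∈ newton P := subset_convexHull ℝ _ ⟨j, hj, rfl⟩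
    rw [hN] at h1
    obtain ⟨c', hc', s, hs, hsj⟩ := Set.mem_add.1 h1
    rw [Set.mem_singleton_iff] at hc'
    rw [Set.mem_finsetSum] at hs
    obtain ⟨f, hf, hfs⟩ := hs
    have h2 : ord y P = dotR y c + ∑ a, dotR y (f a) := by
      rw [← f11_dotR_sum, hfs, ← hc', ← f11_dotR_add, hsj, ← hj']
      rfl
    rw [h2]
    refine add_le_add le_rfl (Finset.sum_le_sum fun a _ => f11_hull ?_ (hf (Finset.mem_univ a)))
    rintro z (hz | hz)
    · rw [hz, y5_dotR_zero]
      exact min_le_left _ _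
    · rw [Set.mem_singleton_iff.1 hz]
      exact min_le_right _ _

theorem y5_width {N : ℕ} {P : Pol k} (hP : P ≠ 0) (c : Fin k → ℝ) (g : Fin N → Fin k → ℝ)
    (hN : newton P = {c} + ∑ a, convexHull ℝ ({0, g a} : Set (Fin k → ℝ))) (y : Fin k → ℝ) :
    width y P = ∑ a, |dotR y (g a)| := by
  unfold width
  rw [y5_ord hP c g hN, y5_ord hP c g hN, y5_dotR_neg]
  simp only [y5_dotR_neg]
  have h : ∀ a, |dotR y (g a)| = -min 0 (-dotR y (g a)) - min 0 (dotR y (g a)) := by
    intro a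
    rcases le_total 0 (dotR y (g a)) with h | h
    · rw [abs_of_nonneg h, min_eq_left h, min_eq_right (by linarith)]
      ring
    · rw [abs_of_nonpos h, min_eq_right h, min_eq_left (by linarith)]
      ring
  simp only [h]
  rw [Finset.sum_sub_distrib, Finset.sum_neg_distrib]
  ring

end CP
end Pool.Agent.MP_44c6d5_nt
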