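import Mathlib
import Pool.Agent.MP_44c6d5_nt.CP.DefF

namespace Pool.Agent.MP_44c6d5_nt
namespace CP

variable {k : ℕ}

theorem y6_lin (z w : Fin k → ℝ) (t : ℝ) (x : Fin k → ℝ) :
    dotR (z + t • w) x = dotR z x + t * dotR w x := by
  unfold dotR
  rw [Finset.mul_sum, ← Finset.sum_add_distrib]
  refine Finset.sum_congr rfl fun i _ => ?_
  simp only [Pi.add_apply, Pi.smul_apply, smul_eq_mul]
  ring

/-- one generator -/
theorem y6_one {N : ℕ} (g : Fin N → Fin k → ℝ) (J : Finset (Fin N)) (a : Fin N)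
    (ha : g a ∉ Submodule.span ℝ (g '' (J : Set (Fin N)))) :
    ∃ z : Fin k → ℝ, (∀ b ∈ J, dotR z (g b) = 0) ∧ dotR z (g a) ≠ 0 := by
  obtain ⟨f, hf, hk⟩ := Submodule.exists_le_ker_of_notMem ha
  have hz : ∀ x : Fin k → ℝ, dotR (fun i => f (Pi.single i 1)) x = f x := by
    intro x
    conv_rhs => rw [pi_eq_sum_univ' x]
    rw [map_sum]
    unfold dotR
    refine Finset.sum_congr rfl fun i _ => ?_
    rw [map_smul, smul_eq_mul, mul_comm]
  refine ⟨fun i => f (Pi.single i 1), fun b hb => ?_, ?_⟩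
  · rw [hz]
    exact hk (Submodule.subset_span ⟨b, hb, rfl⟩)
  · rw [hz]
    exact hf

/-- [Y6] a functional which vanishes exactly on the generators of `J`. -/
theorem y6_functional {N m : ℕ} (g : Fin N → Fin k → ℝ) (J : Finset (Fin N))
    (hJ : ∀ a ∉ J, g a ∉ Submodule.span ℝ (g '' (J : Set (Fin N)))) :
    ∃ z : Fin k → ℝ, (∀ a ∈ J, dotR z (g a) = 0) ∧ ∀ a ∉ J, dotR z (g a) ≠ 0 := by
  have key : ∀ S : Finset (Fin N), (∀ a ∈ S, a ∉ J) →
      ∃ z : Fin k → ℝ, (∀ a ∈ J, dotR z (g a) = 0) ∧ ∀ a ∈ S, dotR z (g a) ≠ 0 := by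
    intro S
    induction S using Finset.induction_on with
    | empty => exact fun _ => ⟨0, fun a _ => by simp [dotR], by simp⟩
    | insert a S _ ih =>
      intro hS
      obtain ⟨z, h1, h2⟩ := ih fun b hb => hS b (Finset.mem_insert_of_mem hb)
      obtain ⟨w, h3, h4⟩ := y6_one g J a (hJ a (hS a (Finset.mem_insert_self a S)))
      obtain ⟨t, ht⟩ := Infinite.exists_notMem_finset
        ((insert a S).image fun b => -dotR z (g b) / dotR w (g b))
      refine ⟨z + t • w, fun b hb => ?_, fun b hb h0 => ?_⟩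
      · rw [y6_lin, h1 b hb, h3 b hb]; ring
      · rw [y6_lin] at h0
        by_cases hw : dotR w (g b) = 0
        · rw [hw, mul_zero, add_zero] at h0
          rcases Finset.mem_insert.1 hb with rfl | hb
          · exact h4 hw
          · exact h2 b hb h0
        · apply ht
          rw [Finset.mem_image]
          refine ⟨b, hb, ?_⟩
          rw [div_eq_iff hw]
          linarith
  obtain ⟨z, h1, h2⟩ := key (Finset.univ.filter fun a => a ∉ J) fun a ha =>
    (Finset.mem_filter.1 ha).2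
  exact ⟨z, h1, fun a ha => h2 a (Finset.mem_filter.2 ⟨Finset.mem_univ a, ha⟩)⟩

end CP
end Pool.Agent.MP_44c6d5_nt
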