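import Mathlib
import Pool.Agent.MP_44c6d5_nt.CP.DefX
import Pool.Agent.MP_44c6d5_nt.CP.DefW
import Pool.Agent.MP_44c6d5_nt.CP.F8
import Pool.Agent.MP_44c6d5_nt.CP.F11
import Pool.Agent.MP_44c6d5_nt.CP.Y5

/-!
[Y7] the face of the zonotope.
-/

namespace Pool.Agent.MP_44c6d5_nt
namespace CP

open MeasureTheory Real Module MvPolynomial
open scoped Pointwise

variable {k : ℕ}

/-- the points of the hull on which a functional is minimal. -/
theorem y7_hull {S : Set (Fin k → ℝ)} {z : Fin k → ℝ} {c : ℝ} (h : ∀ x ∈ S, c ≤ dotR z x)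
    {x : Fin k → ℝ} (hx : x ∈ convexHull ℝ S) (hxc : dotR z x = c) :
    x ∈ convexHull ℝ {s ∈ S | dotR z s = c} := by
  have hF : ∀ x ∈ convexHull ℝ {s ∈ S | dotR z s = c}, dotR z x = c := by
    have hconv : Convex ℝ {x : Fin k → ℝ | dotR z x = c} := by
      intro a ha b hb s t hs ht hst
      have ha' : dotR z a = c := ha
      have hb' : dotR z b = c := hb
      change dotR z (s • a + t • b) = c
      rw [f11_dotR_add, f11_dotR_smul, f11_dotR_smul, ha', hb', ← add_mul, hst, one_mul]
    intro x hx
    exact convexHull_min (fun s hs => hs.2) hconv hx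
  have hconv : Convex ℝ ({x : Fin k → ℝ | c < dotR z x} ∪
      convexHull ℝ {s ∈ S | dotR z s = c}) := by
    intro a ha b hb s t hs ht hst
    have hge : ∀ a ∈ ({x : Fin k → ℝ | c < dotR z x} ∪ convexHull ℝ {s ∈ S | dotR z s = c}),
        c ≤ dotR z a := by
      rintro a (ha | ha)
      · exact le_of_lt ha
      · exact (hF a ha).ge
    have h1 : c = s * c + t * c := by rw [← add_mul, hst, one_mul]
    rcases hs.eq_or_lt with h0 | h0
    · have ht1 : t = 1 := by rw [← hst, ← h0, zero_add]
      rw [← h0, ht1, zero_smul, one_smul, zero_add]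
      exact hb
    · rcases ht.eq_or_lt with h2 | h2
      · have hs1 : s = 1 := by rw [← hst, ← h2, add_zero]
        rw [← h2, hs1, zero_smul, one_smul, add_zero]
        exact ha
      · have ha1 := hge a ha
        have hb1 := hge b hb
        rcases ha with ha | ha
        · left
          have ha' : c < dotR z a := ha
          change c < dotR z (s • a + t • b)
          rw [f11_dotR_add, f11_dotR_smul, f11_dotR_smul, h1]
          exact add_lt_add_of_lt_of_le (mul_lt_mul_of_pos_left ha' h0)
            (mul_le_mul_of_nonneg_left hb1 ht)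
        · rcases hb with hb | hb
          · left
            have hb' : c < dotR z b := hb
            change c < dotR z (s • a + t • b)
            rw [f11_dotR_add, f11_dotR_smul, f11_dotR_smul, h1]
            exact add_lt_add_of_le_of_lt (mul_le_mul_of_nonneg_left ha1 hs)
              (mul_lt_mul_of_pos_left hb' h2)
          · right
            exact convex_convexHull ℝ _ ha hb hs ht hst
  have hsub : S ⊆ {x : Fin k → ℝ | c < dotR z x} ∪ convexHull ℝ {s ∈ S | dotR z s = c} := by
    intro s hs
    rcases (h s hs).eq_or_lt with h1 | h1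
    · right
      exact subset_convexHull ℝ _ ⟨hs, h1.symm⟩
    · left
      exact h1
  rcases convexHull_min hsub hconv hx with h1 | h1
  · have h2 : c < dotR z x := h1
    exact absurd h2 (by rw [hxc]; exact lt_irrefl _)
  · exact h1

/-- the exponent polytope of a face polynomial. -/
theorem y7_newton_ini {P : Pol k} (z x : Fin k → ℝ) :
    x ∈ newton (ini z P) ↔ x ∈ newton P ∧ dotR z x = ord z P := by
  have hS : (fun j : Fin k →₀ ℕ => fun i => (j i : ℝ)) ''
      ((ini z P).support : Set (Fin k →₀ ℕ)) =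
      {s ∈ (fun j : Fin k →₀ ℕ => fun i => (j i : ℝ)) '' (P.support : Set (Fin k →₀ ℕ)) |
        dotR z s = ord z P} := by
    ext s
    constructor
    · rintro ⟨j, hj, rfl⟩
      have hj' := mem_support_ini.1 hj
      exact ⟨⟨j, hj'.1, rfl⟩, hj'.2⟩
    · rintro ⟨⟨j, hj, rfl⟩, h2⟩
      exact ⟨j, mem_support_ini.2 ⟨hj, h2⟩, rfl⟩
  have hle : ∀ s ∈ (fun j : Fin k →₀ ℕ => fun i => (j i : ℝ)) ''
      (P.support : Set (Fin k →₀ ℕ)), ord z P ≤ dotR z s := by
    rintro _ ⟨j, hj, rfl⟩
    exact ord_le z hj
  unfold newton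
  rw [hS]
  constructor
  · intro hx
    refine ⟨convexHull_mono (fun s hs => hs.1) hx, ?_⟩
    have hconv : Convex ℝ {x : Fin k → ℝ | dotR z x = ord z P} := by
      intro a ha b hb s t hs ht hst
      have ha' : dotR z a = ord z P := ha
      have hb' : dotR z b = ord z P := hb
      change dotR z (s • a + t • b) = ord z P
      rw [f11_dotR_add, f11_dotR_smul, f11_dotR_smul, ha', hb', ← add_mul, hst, one_mul]
    exact convexHull_min (fun s hs => hs.2) hconv hx
  · rintro ⟨hx, hxc⟩
    exact y7_hull hle hx hxc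

open Classical in
/-- the faces of the summands -/
noncomputable def y7T {N : ℕ} (c : Fin k → ℝ) (g : Fin N → Fin k → ℝ) (z : Fin k → ℝ) :
    Fin (N + 1) → Finset (Fin k → ℝ) :=
  Fin.snoc (fun a : Fin N => ({0, g a} : Finset (Fin k → ℝ)).filter
    fun x => dotR z x = min 0 (dotR z (g a))) {c}

theorem y7T_last {N : ℕ} (c : Fin k → ℝ) (g : Fin N → Fin k → ℝ) (z : Fin k → ℝ) :
    y7T c g z (Fin.last N) = {c} := by
  simp [y7T]

theorem y7T_mem {N : ℕ} (c : Fin k → ℝ) (g : Fin N → Fin k → ℝ) (z : Fin k → ℝ) (a : Fin N)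
    (x : Fin k → ℝ) : x ∈ y7T c g z a.castSucc ↔
      (x = 0 ∨ x = g a) ∧ dotR z x = min 0 (dotR z (g a)) := by
  simp [y7T]

theorem y7T_nonempty {N : ℕ} (c : Fin k → ℝ) (g : Fin N → Fin k → ℝ) (z : Fin k → ℝ) (a : Fin N) :
    (y7T c g z a.castSucc).Nonempty := by
  rcases le_total 0 (dotR z (g a)) with h | h
  · exact ⟨0, (y7T_mem c g z a 0).2 ⟨Or.inl rfl, by rw [min_eq_left h, y5_dotR_zero]⟩⟩
  · exact ⟨g a, (y7T_mem c g z a (g a)).2 ⟨Or.inr rfl, by rw [min_eq_right h]⟩⟩

theorem y7_face {N : ℕ} {P : Pol k} (hP : P ≠ 0) (c : Fin k → ℝ) (g : Fin N → Fin k → ℝ)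
    (hN : newton P = {c} + ∑ a, convexHull ℝ ({0, g a} : Set (Fin k → ℝ))) (z : Fin k → ℝ)
    (J : Finset (Fin N)) (h0 : ∀ a ∈ J, dotR z (g a) = 0) (h1 : ∀ a ∉ J, dotR z (g a) ≠ 0) :
    ∃ T : Fin (N + 1) → Finset (Fin k → ℝ), (∀ a, (T a).Nonempty) ∧
      newton (ini z P) = ∑ a, convexHull ℝ (T a : Set (Fin k → ℝ)) ∧
      (∀ y, wdF (T (Fin.last N)) y = 0) ∧
      (∀ (a : Fin N) y, wdF (T a.castSucc) y = if a ∈ J then |dotR y (g a)| else 0) := by
  refine ⟨y7T c g z, ?_, ?_, ?_, ?_⟩
  · intro a
    refine Fin.lastCases ?_ (fun a => ?_) a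
    · rw [y7T_last]
      exact Finset.singleton_nonempty c
    · exact y7T_nonempty c g z a
  · -- the faces
    have hseg : ∀ (a : Fin N) (x : Fin k → ℝ), x ∈ ({0, g a} : Set (Fin k → ℝ)) →
        min 0 (dotR z (g a)) ≤ dotR z x := by
      rintro a x (hx | hx)
      · rw [hx, y5_dotR_zero]
        exact min_le_left _ _
      · rw [Set.mem_singleton_iff.1 hx]
        exact min_le_right _ _
    have hset : ∀ a : Fin N, {s ∈ ({0, g a} : Set (Fin k → ℝ)) |
        dotR z s = min 0 (dotR z (g a))} = (y7T c g z a.castSucc : Set (Fin k → ℝ)) := by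
      intro a
      ext x
      rw [Finset.mem_coe, y7T_mem]
      rfl
    rw [Fin.sum_univ_castSucc, y7T_last, Finset.coe_singleton, convexHull_singleton, add_comm]
    ext x
    rw [y7_newton_ini, y5_ord hP c g hN, hN]
    constructor
    · rintro ⟨hx, hxz⟩
      obtain ⟨c', hc', s, hs, hsx⟩ := Set.mem_add.1 hx
      rw [Set.mem_singleton_iff] at hc'
      rw [Set.mem_finsetSum] at hs
      obtain ⟨f, hf, hfs⟩ := hs
      have hge : ∀ a ∈ (Finset.univ : Finset (Fin N)),
          min 0 (dotR z (g a)) ≤ dotR z (f a) := fun a _ =>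
        f11_hull (hseg a) (hf (Finset.mem_univ a))
      have heq : ∑ a, min 0 (dotR z (g a)) = ∑ a, dotR z (f a) := by
        have h2 : dotR z x = dotR z c + ∑ a, dotR z (f a) := by
          rw [← f11_dotR_sum, hfs, ← hc', ← f11_dotR_add, hsx]
        rw [hxz] at h2
        linarith
      have heq' := (Finset.sum_eq_sum_iff_of_le hge).1 heq
      rw [Set.mem_add]
      refine ⟨c, Set.mem_singleton c, s, ?_, by rw [← hc', hsx]⟩
      rw [Set.mem_finsetSum]
      refine ⟨f, fun {a} _ => ?_, hfs⟩
      rw [← hset a]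
      exact y7_hull (hseg a) (hf (Finset.mem_univ a)) (heq' a (Finset.mem_univ a)).symm
    · intro hx
      obtain ⟨c', hc', s, hs, hsx⟩ := Set.mem_add.1 hx
      rw [Set.mem_singleton_iff] at hc'
      rw [Set.mem_finsetSum] at hs
      obtain ⟨f, hf, hfs⟩ := hs
      constructor
      · rw [Set.mem_add]
        refine ⟨c, Set.mem_singleton c, s, ?_, by rw [← hc', hsx]⟩
        rw [Set.mem_finsetSum]
        refine ⟨f, fun {a} _ => ?_, hfs⟩
        have h3 := hf (Finset.mem_univ a)
        rw [← hset a] at h3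
        exact convexHull_mono (fun s hs => hs.1) h3
      · have h4 : ∀ a, dotR z (f a) = min 0 (dotR z (g a)) := by
          intro a
          have h3 := hf (Finset.mem_univ a)
          have hconv : Convex ℝ {x : Fin k → ℝ | dotR z x = min 0 (dotR z (g a))} := by
            intro u hu v hv s t hs ht hst
            have hu' : dotR z u = min 0 (dotR z (g a)) := hu
            have hv' : dotR z v = min 0 (dotR z (g a)) := hv
            change dotR z (s • u + t • v) = min 0 (dotR z (g a))
            rw [f11_dotR_add, f11_dotR_smul, f11_dotR_smul, hu', hv', ← add_mul, hst, one_mul]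
          refine convexHull_min (fun s hs => ?_) hconv h3
          exact ((y7T_mem c g z a s).1 hs).2
        rw [← hsx, ← hfs, hc', f11_dotR_add, f11_dotR_sum]
        simp only [h4]
  · intro y
    rw [y7T_last]
    refine wdF_eq_zero fun a ha b hb => ?_
    rw [Finset.mem_singleton.1 ha, Finset.mem_singleton.1 hb]
  · intro a y
    split_ifs with haJ
    · have hz := h0 a haJ
      have hmem : ∀ x, x ∈ y7T c g z a.castSucc ↔ (x = 0 ∨ x = g a) := by
        intro x
        rw [y7T_mem, hz, min_self]
        constructor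
        · exact fun h => h.1
        · intro h
          refine ⟨h, ?_⟩
          rcases h with h | h
          · rw [h, y5_dotR_zero]
          · rw [h, hz]
      have hsupp : ∀ y, suppF (y7T c g z a.castSucc) y = min 0 (dotR y (g a)) := by
        intro y
        apply le_antisymm
        · refine le_min ?_ ?_
          · have := f11_suppF_le (y := y) ((hmem 0).2 (Or.inl rfl))
            rwa [y5_dotR_zero] at this
          · exact f11_suppF_le ((hmem (g a)).2 (Or.inr rfl))
        · obtain ⟨x, hx, hx'⟩ := f11_exists (y7T_nonempty c g z a) y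
          rw [← hx']
          rcases (hmem x).1 hx with h | h
          · rw [h, y5_dotR_zero]
            exact min_le_left _ _
          · rw [h]
            exact min_le_right _ _
      unfold wdF
      rw [hsupp, hsupp, y5_dotR_neg]
      rcases le_total 0 (dotR y (g a)) with h | h
      · rw [abs_of_nonneg h, min_eq_left h, min_eq_right (by linarith)]
        ring
      · rw [abs_of_nonpos h, min_eq_right h, min_eq_left (by linarith)]
        ring
    · have hz := h1 a haJ
      have key : ∀ x ∈ y7T c g z a.castSucc, ∀ x' ∈ y7T c g z a.castSucc, x = x' := by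
        intro x hx x' hx'
        obtain ⟨h2, h3⟩ := (y7T_mem c g z a x).1 hx
        obtain ⟨h4, h5⟩ := (y7T_mem c g z a x').1 hx'
        rcases h2 with h2 | h2 <;> rcases h4 with h4 | h4
        · rw [h2, h4]
        · exfalso
          rw [h2, y5_dotR_zero] at h3
          rw [h4, ← h3] at h5
          exact hz h5
        · exfalso
          rw [h4, y5_dotR_zero] at h5
          rw [h2, ← h5] at h3
          exact hz h3
        · rw [h2, h4]
      refine wdF_eq_zero fun x hx x' hx' => ?_
      rw [key x hx x' hx']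

end CP
end Pool.Agent.MP_44c6d5_nt
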