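import Mathlib
import Pool.Agent.MP_44c6d5_nt.CP.DefX
import Pool.Agent.MP_44c6d5_nt.CP.F8
import Pool.Agent.MP_44c6d5_nt.CP.F11
import Pool.Agent.MP_44c6d5_nt.CP.X12
import Pool.Agent.MP_44c6d5_nt.CP.Y3
import Pool.Agent.MP_44c6d5_nt.CP.Y4
import Pool.Agent.MP_44c6d5_nt.CP.Y5
import Pool.Agent.MP_44c6d5_nt.CP.Y6
import Pool.Agent.MP_44c6d5_nt.CP.Y7

/-!
[Y8] generic zonotopes.
-/

namespace Pool.Agent.MP_44c6d5_nt
namespace CP

open MeasureTheory Real Module MvPolynomial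
open scoped Pointwise

variable {k : ℕ}

theorem y8_width {p : ℕ} {Q : Pol k} (hQ : Q ≠ 0) (T : Fin p → Finset (Fin k → ℝ))
    (hT : ∀ a, (T a).Nonempty)
    (hN : newton Q = ∑ a, convexHull ℝ (T a : Set (Fin k → ℝ))) (y : Fin k → ℝ) :
    width y Q = ∑ a, wdF (T a) y := by
  have h := ord_of_newton hQ T hT hN
  unfold width wdF
  rw [h, h, ← Finset.sum_neg_distrib, ← Finset.sum_sub_distrib]

theorem y8_dot (u w : Fin k → ℤ) :
    dotR (fun i => (u i : ℝ)) (fun i => (w i : ℝ)) = ((∑ l, u l * w l : ℤ) : ℝ) := by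
  unfold dotR
  push_cast
  rfl

theorem y8_dot_sum {n : ℕ} (I : Finset (Fin n)) (σ : Fin n → ℤ) (w : Fin n → Fin k → ℤ)
    (x : Fin k → ℝ) : dotR (fun i => ((∑ j ∈ I, σ j * w j i : ℤ) : ℝ)) x =
      ∑ j ∈ I, (σ j : ℝ) * dotR (fun i => (w j i : ℝ)) x := by
  unfold dotR
  simp only [Finset.mul_sum]
  rw [Finset.sum_comm]
  refine Finset.sum_congr rfl fun i _ => ?_
  push_cast
  rw [Finset.sum_mul]
  refine Finset.sum_congr rfl fun j _ => ?_
  ring

theorem y8_num {N d m : ℕ} {K D S : ℝ} (hd : 2 ≤ d) (hm : m = (d + 1) / 2)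
    (hK0 : 0 ≤ K) (hK : (N : ℝ) ≤ K * d)
    (hS : S * ((d : ℝ) - m + 1) ≤ 2 * D ^ 2 * ((N : ℝ) - m + 1)) :
    S ≤ 4 * K * D ^ 2 := by
  have h1 : 1 ≤ m := by omega
  have h2 : 2 * m ≤ d + 1 := by omega
  have h1' : (1 : ℝ) ≤ m := by exact_mod_cast h1
  have h2' : 2 * (m : ℝ) ≤ d + 1 := by exact_mod_cast h2
  have hd' : (2 : ℝ) ≤ d := by exact_mod_cast hd
  have h3 : ((d : ℝ) + 1) / 2 ≤ (d : ℝ) - m + 1 := by linarith
  have h4 : (0 : ℝ) < (d : ℝ) - m + 1 := by linarith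
  have h5 : 2 * D ^ 2 * ((N : ℝ) - m + 1) ≤ 4 * K * D ^ 2 * ((d : ℝ) - m + 1) := by
    have h6 : (N : ℝ) - m + 1 ≤ 2 * K * ((d : ℝ) - m + 1) := by
      have : K * d ≤ 2 * K * ((d : ℝ) - m + 1) := by
        have := mul_le_mul_of_nonneg_left h3 (by linarith : (0 : ℝ) ≤ 2 * K)
        nlinarith
      linarith
    calc 2 * D ^ 2 * ((N : ℝ) - m + 1) ≤ 2 * D ^ 2 * (2 * K * ((d : ℝ) - m + 1)) :=
          mul_le_mul_of_nonneg_left h6 (by positivity)
      _ = 4 * K * D ^ 2 * ((d : ℝ) - m + 1) := by ring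
  exact le_of_mul_le_mul_right (hS.trans h5) h4

theorem generic_zonotope {P : Pol k} (hP : Irreducible P) {N d : ℕ} (c : Fin k → ℝ)
    (g : Fin N → Fin k → ℤ)
    (hN : newton P = {c} + ∑ a, convexHull ℝ ({0, fun i => (g a i : ℝ)} : Set (Fin k → ℝ)))
    (hd : finrank ℝ (Submodule.span ℝ (Set.range fun a => (fun i => (g a i : ℝ)))) = d)
    (hgen : ∀ s : Finset (Fin N), s.card ≤ d →
      LinearIndependent ℝ (fun a : s => (fun i => (g a i : ℝ)))) {K : ℝ}
    (hK : (N : ℝ) ≤ K * d) {M : ℝ} (hM : mm P ≤ M) :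
    (d : ℝ) ≤ 2 * exp (exp (100 * (4 * K + M + 1))) := by
  classical
  have hP0 := hP.ne_zero
  by_cases hd2 : d ≤ 1
  · have h1 : (d : ℝ) ≤ 1 := by exact_mod_cast hd2
    have h2 : (1 : ℝ) ≤ exp (exp (100 * (4 * K + M + 1))) := Real.one_le_exp (exp_pos _).le
    linarith
  push Not at hd2
  have hd2' : 2 ≤ d := hd2
  -- `N ≥ d`, so `K ≥ 1`
  have hNd : d ≤ N := by
    rw [← hd]
    have := finrank_range_le_card (R := ℝ) (fun a : Fin N => (fun i => (g a i : ℝ)))
    rw [Fintype.card_fin] at this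
    exact this
  have hdR : (2 : ℝ) ≤ d := by exact_mod_cast hd2'
  have hNdR : (d : ℝ) ≤ N := by exact_mod_cast hNd
  have hK1 : 1 ≤ K := by
    by_contra hcon
    push Not at hcon
    nlinarith
  obtain ⟨m, hm⟩ : ∃ m : ℕ, m = (d + 1) / 2 := ⟨_, rfl⟩
  have hm1 : 1 ≤ m := by omega
  have hm2 : m + 1 ≤ d := by omega
  have hm3 : d ≤ 2 * m := by omega
  obtain ⟨J, D, v, hJ, hD, hv⟩ := y4_int g hm1 hd (by omega : m ≤ d)
  have hDR : (1 : ℝ) ≤ D := by exact_mod_cast hD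
  -- the functional
  obtain ⟨z, hz0, hz1⟩ := y6_functional (m := m) (fun a i => (g a i : ℝ)) J (by
    intro a ha
    have hins : (insert a J).card ≤ d := by
      rw [Finset.card_insert_of_notMem ha, hJ]; exact hm2
    have hli := hgen (insert a J) hins
    have hnot := hli.notMem_span_image (s := {y | y.1 ∈ J})
      (x := ⟨a, Finset.mem_insert_self a J⟩) (by simpa using ha)
    have himg : (fun b : (insert a J : Finset (Fin N)) => (fun i => (g b i : ℝ))) ''
        {y | y.1 ∈ J} = (fun a i => (g a i : ℝ)) '' (J : Set (Fin N)) := by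
      ext x
      constructor
      · rintro ⟨y, hy, rfl⟩
        exact ⟨y.1, hy, rfl⟩
      · rintro ⟨y, hy, rfl⟩
        exact ⟨⟨y, Finset.mem_insert_of_mem hy⟩, hy, rfl⟩
    rw [himg] at hnot
    exact hnot)
  obtain ⟨T, hT, hNz, hTl, hTa⟩ := y7_face hP0 c (fun a i => (g a i : ℝ)) hN z J hz0 hz1
  have hQ0 : ini z P ≠ 0 := ini_ne_zero z hP0
  -- indexing
  let e : Fin m ≃ J := (J.equivFinOfCardEq hJ).symm
  set w : Fin m → Fin k → ℤ := fun j => v (e j) with hw
  have hwJ : ∀ j : Fin m, ((e j : Fin N)) ∈ J := fun j => (e j).2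
  have hdot : ∀ (j : Fin m) (a : Fin N), a ∈ J →
      dotR (fun i => (w j i : ℝ)) (fun i => (g a i : ℝ)) = if a = (e j : Fin N) then (D : ℝ) else 0 := by
    intro j a ha
    rw [y8_dot]
    by_cases h : a = (e j : Fin N)
    · rw [if_pos h, h]
      have := (hv _ (hwJ j)).1
      simp only [hw]
      exact_mod_cast this
    · rw [if_neg h]
      have := (hv _ (hwJ j)).2.1 a ha h
      simp only [hw]
      exact_mod_cast this
  have hwd0 : ∀ (a : Fin (N + 1)) y, 0 ≤ wdF (T a) y := fun a y =>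
    (wdF_mono subset_rfl (hT a) y).1
  have hwdT : ∀ (a : Fin N) (j : Fin m), wdF (T a.castSucc) (fun i => (w j i : ℝ)) =
      if a = (e j : Fin N) then (D : ℝ) else 0 := by
    intro a j
    rw [hTa]
    by_cases ha : a ∈ J
    · rw [if_pos ha, hdot j a ha]
      split_ifs
      · exact abs_of_nonneg (by linarith)
      · exact abs_zero
    · rw [if_neg ha, if_neg]
      intro h
      exact ha (h ▸ hwJ j)
  have hwidth : ∀ j : Fin m, width (fun i => (w j i : ℝ)) (ini z P) = D := by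
    intro j
    rw [y8_width hQ0 T hT hNz, Fin.sum_univ_castSucc, hTl, add_zero]
    rw [Finset.sum_congr rfl fun a _ => hwdT a j]
    rw [Finset.sum_ite_eq' Finset.univ (e j : Fin N) (fun _ => (D : ℝ))]
    simp
  -- the main estimate
  have key := mink_sums (r := 1) (n := m) (W := (D : ℝ)) (B := 4 * K) hP z T hT hNz w
    (by linarith) ?_ ?_ ?_ hM
  · have h1 : (d : ℝ) ≤ 2 * m := by exact_mod_cast hm3
    push_cast at key
    linarith
  · -- good
    intro j
    have hmem : ((e j : Fin N)).castSucc ∈ Finset.univ.filter (fun a : Fin (N + 1) =>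
        {j : Fin m | wdF (T a) (fun i => (w j i : ℝ)) ≠ 0}.ncard ≤ 1) := by
      rw [Finset.mem_filter]
      refine ⟨Finset.mem_univ _, ?_⟩
      have hsub : {j' : Fin m | wdF (T ((e j : Fin N)).castSucc) (fun i => (w j' i : ℝ)) ≠ 0} ⊆
          {j} := by
        intro j' hj'
        have hj2 : wdF (T ((e j : Fin N)).castSucc) (fun i => (w j' i : ℝ)) ≠ 0 := hj'
        rw [hwdT] at hj2
        by_contra hne
        apply hj2
        rw [if_neg]
        intro h
        apply hne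
        rw [Set.mem_singleton_iff]
        exact (e.injective (Subtype.ext h)).symm
      calc _ ≤ ({j} : Set (Fin m)).ncard := Set.ncard_le_ncard hsub (Set.toFinite _)
        _ = 1 := Set.ncard_singleton j
    have h1 : wdF (T ((e j : Fin N)).castSucc) (fun i => (w j i : ℝ)) = D := by
      rw [hwdT, if_pos rfl]
    calc (D : ℝ) = wdF (T ((e j : Fin N)).castSucc) (fun i => (w j i : ℝ)) := h1.symm
      _ ≤ _ := Finset.single_le_sum
        (f := fun a : Fin (N + 1) => wdF (T a) (fun i => (w j i : ℝ))) (fun a _ => hwd0 a _) hmem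
  · -- wide
    intro j
    rw [hwidth j]
    nlinarith
  · -- sums
    intro I
    obtain ⟨σ, hσ, hs⟩ := y3_signs (N := N) I
      (fun c j => dotR (fun i => (w j i : ℝ)) (fun i => (g c i : ℝ)))
    refine ⟨σ, hσ, ?_⟩
    rw [y5_width hP0 c (fun a i => (g a i : ℝ)) hN]
    simp only [y8_dot_sum]
    refine hs.trans ?_
    have hS : ∀ j : Fin m, ∑ c : Fin N,
        dotR (fun i => (w j i : ℝ)) (fun i => (g c i : ℝ)) ^ 2 ≤ 4 * K * (D : ℝ) ^ 2 := by
      intro j
      have h1 := (hv _ (hwJ j)).2.2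
      have h2 : ∑ c : Fin N, dotR (fun i => (w j i : ℝ)) (fun i => (g c i : ℝ)) ^ 2 =
          ∑ a, ((∑ l, v (e j) l * g a l : ℤ) : ℝ) ^ 2 :=
        Finset.sum_congr rfl fun a _ => by rw [y8_dot]
      rw [h2]
      exact y8_num hd2' hm (by linarith) hK h1
    have hSI : ∑ c : Fin N, ∑ j ∈ I, dotR (fun i => (w j i : ℝ)) (fun i => (g c i : ℝ)) ^ 2 ≤
        I.card * (4 * K * (D : ℝ) ^ 2) := by
      rw [Finset.sum_comm]
      calc _ ≤ ∑ j ∈ I, 4 * K * (D : ℝ) ^ 2 := Finset.sum_le_sum fun j _ => hS j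
        _ = _ := by rw [Finset.sum_const, nsmul_eq_mul]
    have hN2 : (N : ℝ) ≤ 2 * K * m := by
      have h1 : (d : ℝ) ≤ 2 * m := by exact_mod_cast hm3
      nlinarith
    have hI0 : (0 : ℝ) ≤ I.card := Nat.cast_nonneg _
    have hm0 : (0 : ℝ) ≤ m := Nat.cast_nonneg _
    have h3 : (N : ℝ) * ∑ c : Fin N, ∑ j ∈ I,
        dotR (fun i => (w j i : ℝ)) (fun i => (g c i : ℝ)) ^ 2 ≤
        (4 * K * D) ^ 2 * (m * I.card) := by
      calc (N : ℝ) * ∑ c : Fin N, ∑ j ∈ I,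
            dotR (fun i => (w j i : ℝ)) (fun i => (g c i : ℝ)) ^ 2
          ≤ (2 * K * m) * (I.card * (4 * K * (D : ℝ) ^ 2)) :=
            mul_le_mul hN2 hSI (Finset.sum_nonneg fun _ _ => Finset.sum_nonneg fun _ _ =>
              sq_nonneg _) (by positivity)
        _ = 8 * K ^ 2 * D ^ 2 * (m * I.card) := by ring
        _ ≤ (4 * K * D) ^ 2 * (m * I.card) := by
            have : 0 ≤ K ^ 2 * (D : ℝ) ^ 2 * (m * I.card) := by positivity
            nlinarith
    have h4 := Real.sqrt_le_sqrt h3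
    have h5 : √((4 * K * D) ^ 2 * (m * I.card)) = 4 * K * D * √(m * I.card) := by
      rw [Real.sqrt_mul (sq_nonneg _), Real.sqrt_sq (by positivity)]
    rw [h5] at h4
    refine h4.trans ?_
    have h6 : ((m : ℝ) * I.card / ((1 : ℕ) : ℝ)) = m * I.card := by
      rw [Nat.cast_one, div_one]
    rw [h6]
    have h7 : 0 ≤ 4 * K * D := by positivity
    have h8 : √((m : ℝ) * I.card) ≤ I.card + √(m * I.card) := by linarith
    exact mul_le_mul_of_nonneg_left h8 h7

end CP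
end Pool.Agent.MP_44c6d5_nt
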