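import Mathlib

/-!
[Z1], [Z2] selection of indices.
-/

namespace Pool.Agent.MP_44c6d5_nt
namespace CP

theorem z1_pow {α : Type} [DecidableEq α] (J S : Finset α) (h : S ⊆ J) :
    (J.powerset.filter fun T => S ⊆ T).card = 2 ^ (J.card - S.card) := by
  rw [← Finset.card_Icc_finset h]
  congr 1
  ext T
  simp only [Finset.mem_filter, Finset.mem_powerset, Finset.mem_Icc]
  tauto

/-- [Z1] a large subset of `J` which contains no large `S a`. -/
theorem z1_select {α ι : Type} [DecidableEq α] [Fintype ι] (J : Finset α) (S : ι → Finset α)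
    (hS : ∀ a, S a ⊆ J) (r : ℕ) (h : 4 * Fintype.card ι ≤ 2 ^ (r + 1) * J.card) :
    ∃ J' ⊆ J, J.card ≤ 4 * J'.card ∧ ∀ a, S a ⊆ J' → (S a).card ≤ r := by
  classical
  obtain ⟨bad, hbad⟩ : ∃ bad : Finset α → Finset ι, ∀ T, bad T =
      Finset.univ.filter fun a => r < (S a).card ∧ S a ⊆ T := ⟨_, fun _ => rfl⟩
  -- the average
  have h1 : ∑ T ∈ J.powerset, T.card = J.card * 2 ^ (J.card - 1) := by
    have e1 : ∀ T ∈ J.powerset, T.card = ∑ x ∈ J, if x ∈ T then 1 else 0 := by
      intro T hT
      rw [← Finset.sum_filter, Finset.sum_const, smul_eq_mul, mul_one]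
      congr 1
      ext x
      simp only [Finset.mem_filter]
      exact ⟨fun hx => ⟨Finset.mem_powerset.1 hT hx, hx⟩, fun hx => hx.2⟩
    rw [Finset.sum_congr rfl e1, Finset.sum_comm]
    have e2 : ∀ x ∈ J, (∑ T ∈ J.powerset, if x ∈ T then 1 else 0) = 2 ^ (J.card - 1) := by
      intro x hx
      have e3 := z1_pow J {x} (Finset.singleton_subset_iff.2 hx)
      rw [Finset.card_singleton] at e3
      rw [← e3, ← Finset.sum_filter, Finset.sum_const, smul_eq_mul, mul_one]
      simp only [Finset.singleton_subset_iff]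
    rw [Finset.sum_congr rfl e2, Finset.sum_const, smul_eq_mul]
  have h2 : ∑ T ∈ J.powerset, (bad T).card * 2 ^ (r + 1) ≤ Fintype.card ι * 2 ^ J.card := by
    rw [← Finset.sum_mul]
    have e1 : ∑ T ∈ J.powerset, (bad T).card =
        ∑ a, if r < (S a).card then 2 ^ (J.card - (S a).card) else 0 := by
      have e2 : ∀ T ∈ J.powerset, (bad T).card =
          ∑ a, if r < (S a).card ∧ S a ⊆ T then 1 else 0 := by
        intro T _
        rw [hbad, ← Finset.sum_filter, Finset.sum_const, smul_eq_mul, mul_one]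
      rw [Finset.sum_congr rfl e2, Finset.sum_comm]
      refine Finset.sum_congr rfl fun a _ => ?_
      by_cases ha : r < (S a).card
      · rw [if_pos ha, ← z1_pow J (S a) (hS a), ← Finset.sum_filter, Finset.sum_const, smul_eq_mul,
          mul_one]
        simp only [ha, true_and]
      · simp [ha]
    rw [e1, Finset.sum_mul]
    calc ∑ a, (if r < (S a).card then 2 ^ (J.card - (S a).card) else 0) * 2 ^ (r + 1)
        ≤ ∑ _a : ι, 2 ^ J.card := by
          refine Finset.sum_le_sum fun a _ => ?_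
          split_ifs with ha
          · rw [← pow_add]
            have := Finset.card_le_card (hS a)
            exact Nat.pow_le_pow_right (by norm_num) (by omega)
          · simp
      _ = _ := by rw [Finset.sum_const, Finset.card_univ, smul_eq_mul]
  rcases Nat.eq_zero_or_pos J.card with hJ0 | hJ0
  · refine ⟨∅, Finset.empty_subset _, by omega, fun a ha => ?_⟩
    rw [Finset.subset_empty.1 ha, Finset.card_empty]
    omega
  obtain ⟨T, hT, hTc⟩ : ∃ T ∈ J.powerset, J.card + 4 * (bad T).card ≤ 4 * T.card := by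
    by_contra hcon
    push Not at hcon
    have e1 : ∑ T ∈ J.powerset, (4 * T.card + 1) ≤ ∑ T ∈ J.powerset, (J.card + 4 * (bad T).card) :=
      Finset.sum_le_sum fun T hT => hcon T hT
    rw [Finset.sum_add_distrib, Finset.sum_add_distrib, ← Finset.mul_sum, ← Finset.mul_sum, h1,
      Finset.sum_const, Finset.sum_const, Finset.card_powerset, smul_eq_mul, smul_eq_mul] at e1
    have e2 : 2 ^ J.card = 2 * 2 ^ (J.card - 1) := by
      rw [← pow_succ']
      congr 1
      omega
    rw [← Finset.sum_mul] at h2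
    have e3 : 4 * (∑ T ∈ J.powerset, (bad T).card) * 2 ^ (r + 1) ≤
        2 ^ (r + 1) * J.card * 2 ^ J.card := by
      calc _ = 4 * ((∑ T ∈ J.powerset, (bad T).card) * 2 ^ (r + 1)) := by ring
        _ ≤ 4 * (Fintype.card ι * 2 ^ J.card) := Nat.mul_le_mul_left _ h2
        _ = (4 * Fintype.card ι) * 2 ^ J.card := by ring
        _ ≤ _ := Nat.mul_le_mul_right _ h
    have e4 : 4 * (∑ T ∈ J.powerset, (bad T).card) ≤ J.card * 2 ^ J.card := by
      have : 0 < 2 ^ (r + 1) := by positivity
      refine Nat.le_of_mul_le_mul_right ?_ this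
      calc _ ≤ _ := e3
        _ = _ := by ring
    have e5 : 0 < 2 ^ (J.card - 1) := by positivity
    rw [e2] at e1 e4
    nlinarith
  have : Nonempty α := ⟨(Finset.card_pos.1 hJ0).choose⟩
  choose! x hx using fun (a : ι) (ha : r < (S a).card) =>
    Finset.card_pos.1 (lt_of_le_of_lt (Nat.zero_le r) ha)
  refine ⟨T \ (bad T).image x, ?_, ?_, ?_⟩
  · exact Finset.sdiff_subset.trans (Finset.mem_powerset.1 hT)
  · have e1 := Finset.le_card_sdiff ((bad T).image x) T
    have e2 : ((bad T).image x).card ≤ (bad T).card := Finset.card_image_le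
    omega
  · intro a ha
    by_contra hcon
    push Not at hcon
    have hb : a ∈ bad T := by
      rw [hbad, Finset.mem_filter]
      exact ⟨Finset.mem_univ a, hcon, ha.trans Finset.sdiff_subset⟩
    have h3 := ha (hx a hcon)
    rw [Finset.mem_sdiff] at h3
    exact h3.2 (Finset.mem_image_of_mem x hb)

/-- [Z2] at least half of the indices have at most twice the average. -/
theorem z2_markov {α : Type} [DecidableEq α] (J : Finset α) (w : α → ℝ) (hw : ∀ j ∈ J, 0 ≤ w j)
    {A : ℝ} (hA : ∑ j ∈ J, w j ≤ A * J.card) :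
    ∃ J' ⊆ J, J.card ≤ 2 * J'.card ∧ ∀ j ∈ J', w j ≤ 2 * A := by
  classical
  obtain ⟨J', hJ'⟩ : ∃ J' : Finset α, J' = J.filter fun j => w j ≤ 2 * A := ⟨_, rfl⟩
  refine ⟨J', by rw [hJ']; exact Finset.filter_subset _ _, ?_, fun j hj => ?_⟩
  · by_contra hcon
    push Not at hcon
    have h1 : J'.card + (J.filter fun j => ¬ w j ≤ 2 * A).card = J.card := by
      rw [hJ']
      exact Finset.card_filter_add_card_filter_not _
    have h2 : ((J.filter fun j => ¬ w j ≤ 2 * A).card : ℝ) * (2 * A) ≤
        ∑ j ∈ J.filter (fun j => ¬ w j ≤ 2 * A), w j := by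
      rw [← nsmul_eq_mul, ← Finset.sum_const]
      refine Finset.sum_le_sum fun j hj => ?_
      exact (not_le.1 (Finset.mem_filter.1 hj).2).le
    have h3 : ∑ j ∈ J.filter (fun j => ¬ w j ≤ 2 * A), w j ≤ ∑ j ∈ J, w j :=
      Finset.sum_le_sum_of_subset_of_nonneg (Finset.filter_subset _ _) fun j hj _ => hw j hj
    have h0 : (J.filter fun j => ¬ w j ≤ 2 * A).Nonempty := by
      rw [← Finset.card_pos]; omega
    have h4 : (J.filter fun j => ¬ w j ≤ 2 * A).card * (2 * A) <
        ∑ j ∈ J.filter (fun j => ¬ w j ≤ 2 * A), w j := by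
      rw [← nsmul_eq_mul, ← Finset.sum_const]
      exact Finset.sum_lt_sum_of_nonempty h0 fun j hj => not_le.1 (Finset.mem_filter.1 hj).2
    have h5 : (J.card : ℝ) < 2 * ((J.filter fun j => ¬ w j ≤ 2 * A).card : ℝ) := by
      exact_mod_cast (by omega : J.card < 2 * (J.filter fun j => ¬ w j ≤ 2 * A).card)
    have hA0 : 0 ≤ A := by
      have h6 : 0 ≤ ∑ j ∈ J, w j := Finset.sum_nonneg hw
      have h7 : (0 : ℝ) < J.card := by
        have : 0 < J.card := by
          have := Finset.card_pos.2 h0
          omega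
        exact_mod_cast this
      by_contra hneg
      push Not at hneg
      have := mul_neg_of_neg_of_pos hneg h7
      linarith
    nlinarith
  · rw [hJ'] at hj
    exact (Finset.mem_filter.1 hj).2

end CP
end Pool.Agent.MP_44c6d5_nt
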