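import Mathlib
import Pool.Agent.MP_44c6d5_nt.CP.DefX
import Pool.Agent.MP_44c6d5_nt.CP.F8
import Pool.Agent.MP_44c6d5_nt.CP.F11
import Pool.Agent.MP_44c6d5_nt.CP.Y5
import Pool.Agent.MP_44c6d5_nt.CP.Y7

/-!
[Z4] the faces of a Minkowski sum.
-/

namespace Pool.Agent.MP_44c6d5_nt
namespace CP

open MeasureTheory Real Module MvPolynomial
open scoped Pointwise

variable {k : ℕ}

theorem z4_mem {T : Finset (Fin k → ℝ)} {z x : Fin k → ℝ} :
    x ∈ faceF T z ↔ x ∈ T ∧ dotR z x = suppF T z := by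
  unfold faceF
  exact Finset.mem_filter

theorem z4_nonempty {T : Finset (Fin k → ℝ)} (hT : T.Nonempty) (z : Fin k → ℝ) :
    (faceF T z).Nonempty := by
  obtain ⟨x, hx, h⟩ := f11_exists hT z
  exact ⟨x, z4_mem.2 ⟨hx, h⟩⟩

theorem z4_face {p : ℕ} {P : Pol k} (hP : P ≠ 0) (T : Fin p → Finset (Fin k → ℝ))
    (hT : ∀ a, (T a).Nonempty) (hN : newton P = ∑ a, convexHull ℝ (T a : Set (Fin k → ℝ)))
    (z : Fin k → ℝ) :
    newton (ini z P) = ∑ a, convexHull ℝ (faceF (T a) z : Set (Fin k → ℝ)) := by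
  have hset : ∀ a, {s ∈ (T a : Set (Fin k → ℝ)) | dotR z s = suppF (T a) z} =
      (faceF (T a) z : Set (Fin k → ℝ)) := by
    intro a
    ext x
    rw [Finset.mem_coe, z4_mem]
    rfl
  have hle : ∀ a, ∀ x ∈ (T a : Set (Fin k → ℝ)), suppF (T a) z ≤ dotR z x := fun a x hx =>
    f11_suppF_le hx
  ext x
  rw [y7_newton_ini, ord_of_newton hP T hT hN, hN]
  constructor
  · rintro ⟨hx, hxz⟩
    rw [Set.mem_finsetSum] at hx
    obtain ⟨f, hf, hfs⟩ := hx
    have hge : ∀ a ∈ (Finset.univ : Finset (Fin p)), suppF (T a) z ≤ dotR z (f a) := fun a _ =>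
      f11_hull (hle a) (hf (Finset.mem_univ a))
    have heq : ∑ a, suppF (T a) z = ∑ a, dotR z (f a) := by
      rw [← f11_dotR_sum, hfs, hxz]
    have heq' := (Finset.sum_eq_sum_iff_of_le hge).1 heq
    rw [Set.mem_finsetSum]
    refine ⟨f, fun {a} _ => ?_, hfs⟩
    rw [← hset a]
    exact y7_hull (hle a) (hf (Finset.mem_univ a)) (heq' a (Finset.mem_univ a)).symm
  · intro hx
    rw [Set.mem_finsetSum] at hx
    obtain ⟨f, hf, hfs⟩ := hx
    constructor
    · rw [Set.mem_finsetSum]
      refine ⟨f, fun {a} _ => ?_, hfs⟩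
      have h3 := hf (Finset.mem_univ a)
      rw [← hset a] at h3
      exact convexHull_mono (fun s hs => hs.1) h3
    · have h4 : ∀ a, dotR z (f a) = suppF (T a) z := by
        intro a
        have h3 := hf (Finset.mem_univ a)
        rw [← hset a] at h3
        have hconv : Convex ℝ {x : Fin k → ℝ | dotR z x = suppF (T a) z} := by
          intro u hu v hv s t hs ht hst
          have hu' : dotR z u = suppF (T a) z := hu
          have hv' : dotR z v = suppF (T a) z := hv
          change dotR z (s • u + t • v) = suppF (T a) z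
          rw [f11_dotR_add, f11_dotR_smul, f11_dotR_smul, hu', hv', ← add_mul, hst, one_mul]
        exact convexHull_min (fun s hs => hs.2) hconv h3
      rw [← hfs, f11_dotR_sum]
      exact Finset.sum_congr rfl fun a _ => h4 a

/-- a segment -/
theorem z4_seg {T : Finset (Fin k → ℝ)} {g : Fin k → ℝ} (hT : ∀ x, x ∈ T ↔ x = 0 ∨ x = g) :
    (∀ y, suppF T y = min 0 (dotR y g)) ∧ (∀ y, wdF T y = |dotR y g|) ∧
      ∀ z y, wdF (faceF T z) y = if dotR z g = 0 then |dotR y g| else 0 := by
  have hne : T.Nonempty := ⟨0, (hT 0).2 (Or.inl rfl)⟩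
  have hsupp : ∀ y, suppF T y = min 0 (dotR y g) := by
    intro y
    apply le_antisymm
    · refine le_min ?_ ?_
      · have := f11_suppF_le (y := y) ((hT 0).2 (Or.inl rfl))
        rwa [y5_dotR_zero] at this
      · exact f11_suppF_le ((hT g).2 (Or.inr rfl))
    · obtain ⟨x, hx, hx'⟩ := f11_exists hne y
      rw [← hx']
      rcases (hT x).1 hx with h | h
      · rw [h, y5_dotR_zero]
        exact min_le_left _ _
      · rw [h]
        exact min_le_right _ _
  have hwd : ∀ y, wdF T y = |dotR y g| := by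
    intro y
    unfold wdF
    rw [hsupp, hsupp, y5_dotR_neg]
    rcases le_total 0 (dotR y g) with h | h
    · rw [abs_of_nonneg h, min_eq_left h, min_eq_right (by linarith)]
      ring
    · rw [abs_of_nonpos h, min_eq_right h, min_eq_left (by linarith)]
      ring
  refine ⟨hsupp, hwd, fun z y => ?_⟩
  split_ifs with hz
  · have h1 : faceF T z = T := by
      ext x
      rw [z4_mem, hsupp, hz, min_self]
      refine ⟨fun h => h.1, fun h => ⟨h, ?_⟩⟩
      rcases (hT x).1 h with h | h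
      · rw [h, y5_dotR_zero]
      · rw [h, hz]
    rw [h1, hwd]
  · refine wdF_eq_zero fun x hx x' hx' => ?_
    obtain ⟨h2, h3⟩ := z4_mem.1 hx
    obtain ⟨h4, h5⟩ := z4_mem.1 hx'
    rcases (hT x).1 h2 with h2 | h2 <;> rcases (hT x').1 h4 with h4 | h4
    · rw [h2, h4]
    · exfalso
      rw [h2, y5_dotR_zero] at h3
      rw [h4, ← h3] at h5
      exact hz h5
    · exfalso
      rw [h4, y5_dotR_zero] at h5
      rw [h2, ← h5] at h3
      exact hz h3
    · rw [h2, h4]

end CP
end Pool.Agent.MP_44c6d5_nt
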