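import Mathlib
import Pool.Agent.MP_44c6d5_nt.CP.Y8
import Pool.Agent.MP_44c6d5_nt.CP.Z1
import Pool.Agent.MP_44c6d5_nt.CP.Z4

/-!
[Z5] zonotopes with few generators in any position, plus a small polytope.
-/

namespace Pool.Agent.MP_44c6d5_nt
namespace CP

open MeasureTheory Real Module MvPolynomial
open scoped Pointwise

variable {k : ℕ}

theorem z5_sq_le : ∀ s : ℕ, 8 * s ^ 2 ≤ 9 * 2 ^ s := by
  intro s
  rcases Nat.lt_or_ge s 3 with h | h
  · interval_cases s <;> norm_num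
  · induction s, h using Nat.le_induction with
    | base => norm_num
    | succ n hn ih =>
      have : (n + 1) ^ 2 ≤ 2 * n ^ 2 := by nlinarith
      rw [pow_succ 2 n]
      omega

theorem z5_exp {N m : ℕ} (hm : 1 ≤ m) (hmN : m ≤ N) :
    ∃ s : ℕ, 4 * N ≤ 2 ^ (s + 1) * m ∧ 2 ^ s * m ≤ 4 * N := by
  classical
  have hex : ∃ s : ℕ, 4 * N ≤ 2 ^ (s + 1) * m := by
    refine ⟨4 * N, ?_⟩
    have h1 : 4 * N ≤ 2 ^ (4 * N) := (Nat.lt_two_pow_self).le
    have h2 : 2 ^ (4 * N) ≤ 2 ^ (4 * N + 1) := Nat.pow_le_pow_right (by norm_num) (by omega)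
    exact (h1.trans h2).trans (Nat.le_mul_of_pos_right _ hm)
  refine ⟨Nat.find hex, Nat.find_spec hex, ?_⟩
  rcases Nat.eq_zero_or_pos (Nat.find hex) with h | h
  · rw [h]; omega
  · have h1 := Nat.find_min hex (m := Nat.find hex - 1) (by omega)
    rw [Nat.sub_add_cancel h] at h1
    omega

theorem z5_zonotope {P : Pol k} (hP : Irreducible P) {N d : ℕ} (Q : Finset (Fin k → ℝ))
    (hQ : Q.Nonempty) (g : Fin N → Fin k → ℤ)
    (hN : newton P = convexHull ℝ (Q : Set (Fin k → ℝ)) +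
      ∑ a, convexHull ℝ ({0, fun i => (g a i : ℝ)} : Set (Fin k → ℝ)))
    (hd : finrank ℝ (Submodule.span ℝ (Set.range fun a => (fun i => (g a i : ℝ)))) = d) {K : ℝ}
    (hK : (N : ℝ) ≤ K * d)
    (hQw : ∀ u : Fin k → ℤ, wdF Q (fun i => (u i : ℝ)) ^ 2 ≤
      K ^ 2 * ∑ a, dotR (fun i => (u i : ℝ)) (fun i => (g a i : ℝ)) ^ 2) {M : ℝ} (hM : mm P ≤ M) :
    (d : ℝ) ≤ 16 * exp (exp (100 * (100 * K ^ 2 + M + 1))) := by
  classical
  have hP0 := hP.ne_zero
  by_cases hd2 : d ≤ 1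
  · have h1 : (d : ℝ) ≤ 1 := by exact_mod_cast hd2
    have h2 : (1 : ℝ) ≤ exp (exp (100 * (100 * K ^ 2 + M + 1))) := Real.one_le_exp (exp_pos _).le
    linarith
  push Not at hd2
  have hd2' : 2 ≤ d := hd2
  -- `N ≥ d`, so `K ≥ 1`
  have hNd : d ≤ N := by
    rw [← hd]
    have := finrank_range_le_card (R := ℝ) (fun a : Fin N => (fun i => (g a i : ℝ)))
    rw [Fintype.card_fin] at this
    exact this
  have hdR : (2 : ℝ) ≤ d := by exact_mod_cast hd2'
  have hNdR : (d : ℝ) ≤ N := by exact_mod_cast hNd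
  have hK1 : 1 ≤ K := by
    by_contra hcon
    push Not at hcon
    nlinarith
  obtain ⟨m, hm⟩ : ∃ m : ℕ, m = (d + 1) / 2 := ⟨_, rfl⟩
  have hm1 : 1 ≤ m := by omega
  have hm2 : m + 1 ≤ d := by omega
  have hm3 : d ≤ 2 * m := by omega
  have hm3R : (d : ℝ) ≤ 2 * m := by exact_mod_cast hm3
  obtain ⟨J, D, v, hJ, hD, hv⟩ := y4_int g hm1 hd (by omega : m ≤ d)
  have hDR : (1 : ℝ) ≤ D := by exact_mod_cast hD
  obtain ⟨G, hG⟩ : ∃ G : Fin N → Fin k → ℝ, G = fun a i => (g a i : ℝ) := ⟨_, rfl⟩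
  obtain ⟨V, hV⟩ : ∃ V : Fin N → Fin k → ℝ, V = fun a i => (v a i : ℝ) := ⟨_, rfl⟩
  have hVG : ∀ j a, dotR (V j) (G a) = ((∑ l, v j l * g a l : ℤ) : ℝ) := by
    intro j a
    rw [hV, hG]
    exact y8_dot (v j) (g a)
  have hdiag : ∀ j ∈ J, dotR (V j) (G j) = D := by
    intro j hj
    rw [hVG]
    exact_mod_cast (hv j hj).1
  have hoff : ∀ j ∈ J, ∀ i ∈ J, i ≠ j → dotR (V j) (G i) = 0 := by
    intro j hj i hi hij
    rw [hVG]
    exact_mod_cast (hv j hj).2.1 i hi hij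
  have hsq : ∀ j ∈ J, ∑ a, dotR (V j) (G a) ^ 2 ≤ 4 * K * (D : ℝ) ^ 2 := by
    intro j hj
    have h1 := (hv j hj).2.2
    have h2 : ∑ a, dotR (V j) (G a) ^ 2 = ∑ a, ((∑ l, v j l * g a l : ℤ) : ℝ) ^ 2 :=
      Finset.sum_congr rfl fun a _ => by rw [hVG]
    rw [h2]
    exact y8_num hd2' hm (by linarith) hK h1
  have habs : ∀ j ∈ J, ∀ a, |dotR (V j) (G a)| ≤ 2 * √K * D := by
    intro j hj a
    have h1 : dotR (V j) (G a) ^ 2 ≤ 4 * K * (D : ℝ) ^ 2 :=
      (Finset.single_le_sum (f := fun a => dotR (V j) (G a) ^ 2) (fun a _ => sq_nonneg _)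
        (Finset.mem_univ a)).trans (hsq j hj)
    refine abs_le_of_sq_le_sq ?_ (by positivity)
    rw [mul_pow, mul_pow, Real.sq_sqrt (by linarith)]
    linarith
  -- flats
  obtain ⟨Fl, hFl⟩ : ∃ Fl : Finset (Fin N) → Finset (Fin N), ∀ R, Fl R =
      Finset.univ.filter fun a => G a ∈ Submodule.span ℝ (G '' (R : Set (Fin N))) :=
    ⟨_, fun _ => rfl⟩
  have hflat : ∀ R ⊆ J, ∀ a ∈ Fl R, ∀ j ∈ J, j ∉ R → dotR (V j) (G a) = 0 := by
    intro R hR a ha j hj hjR
    rw [hFl, Finset.mem_filter] at ha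
    obtain ⟨φ, hφ⟩ : ∃ φ : (Fin k → ℝ) →ₗ[ℝ] ℝ, ∀ x, φ x = dotR (V j) x := by
      refine ⟨∑ i, V j i • LinearMap.proj i, fun x => ?_⟩
      simp [dotR]
    have h1 : Submodule.span ℝ (G '' (R : Set (Fin N))) ≤ LinearMap.ker φ := by
      rw [Submodule.span_le]
      rintro _ ⟨i, hi, rfl⟩
      rw [SetLike.mem_coe, LinearMap.mem_ker, hφ]
      exact hoff j hj i (hR hi) (fun h => hjR (h ▸ hi))
    have h2 := h1 ha.2
    rwa [LinearMap.mem_ker, hφ] at h2
  obtain ⟨s, hs1, hs2⟩ := z5_exp hm1 (by omega : m ≤ N)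
  obtain ⟨J', hJ'J, hJ'c, hJ's⟩ := z1_select J
    (fun a : Fin N => J.filter fun j => dotR (V j) (G a) ≠ 0) (fun a => Finset.filter_subset _ _) s
    (by rw [Fintype.card_fin, hJ]; exact hs1)
  rw [hJ] at hJ'c
  have hJ'cR : (m : ℝ) ≤ 4 * J'.card := by exact_mod_cast hJ'c
  -- the bound for `s`
  have hsK : √K * s ≤ 3 * K := by
    have h1 : (8 : ℝ) * s ^ 2 ≤ 9 * 2 ^ s := by exact_mod_cast z5_sq_le s
    have h2 : (2 : ℝ) ^ s * m ≤ 4 * N := by exact_mod_cast hs2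
    have hm0 : (0 : ℝ) < m := by exact_mod_cast hm1
    have h3 : (2 : ℝ) ^ s ≤ 8 * K := by
      refine le_of_mul_le_mul_right ?_ hm0
      calc (2 : ℝ) ^ s * m ≤ 4 * N := h2
        _ ≤ 4 * (K * d) := by linarith
        _ ≤ 8 * K * m := by nlinarith
    have h4 : (s : ℝ) ^ 2 ≤ (3 * √K) ^ 2 := by
      rw [mul_pow, Real.sq_sqrt (by linarith)]
      linarith
    have h5 : (s : ℝ) ≤ 3 * √K := le_of_sq_le_sq h4 (by positivity)
    calc √K * s ≤ √K * (3 * √K) := mul_le_mul_of_nonneg_left h5 (Real.sqrt_nonneg _)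
      _ = 3 * (√K * √K) := by ring
      _ = 3 * K := by rw [Real.mul_self_sqrt (by linarith)]
  -- the widths on the flat of `J'`
  obtain ⟨w, hw⟩ : ∃ w : Fin N → ℝ, ∀ j, w j = ∑ a ∈ Fl J', |dotR (V j) (G a)| := ⟨_, fun _ => rfl⟩
  have hwsum : ∑ j ∈ J', w j ≤ (48 * K ^ 2 * D) * J'.card := by
    simp only [hw]
    rw [Finset.sum_comm]
    have h1 : ∀ a ∈ Fl J', ∑ j ∈ J', |dotR (V j) (G a)| ≤ s * (2 * √K * D) := by
      intro a ha
      have hsub : (J.filter fun j => dotR (V j) (G a) ≠ 0) ⊆ J' := by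
        intro j hj
        rw [Finset.mem_filter] at hj
        by_contra hcon
        exact hj.2 (hflat J' hJ'J a ha j hj.1 hcon)
      have hc := hJ's a hsub
      calc ∑ j ∈ J', |dotR (V j) (G a)|
          = ∑ j ∈ J.filter (fun j => dotR (V j) (G a) ≠ 0), |dotR (V j) (G a)| := by
            refine (Finset.sum_subset hsub fun j hj hj2 => ?_).symm
            rw [Finset.mem_filter] at hj2
            push Not at hj2
            rw [hj2 (hJ'J hj), abs_zero]
        _ ≤ ∑ j ∈ J.filter (fun j => dotR (V j) (G a) ≠ 0), (2 * √K * D) :=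
            Finset.sum_le_sum fun j hj => habs j (Finset.mem_filter.1 hj).1 a
        _ = ((J.filter fun j => dotR (V j) (G a) ≠ 0).card : ℝ) * (2 * √K * D) := by
            rw [Finset.sum_const, nsmul_eq_mul]
        _ ≤ s * (2 * √K * D) := by
            refine mul_le_mul_of_nonneg_right ?_ (by positivity)
            exact_mod_cast hc
    have h2 : ((Fl J').card : ℝ) ≤ N := by
      have := Finset.card_le_univ (Fl J')
      rw [Fintype.card_fin] at this
      exact_mod_cast this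
    have h3 : (N : ℝ) ≤ 8 * K * J'.card := by nlinarith
    have hJ0 : (0 : ℝ) ≤ J'.card := Nat.cast_nonneg _
    calc ∑ a ∈ Fl J', ∑ j ∈ J', |dotR (V j) (G a)| ≤ ∑ a ∈ Fl J', s * (2 * √K * D) :=
          Finset.sum_le_sum h1
      _ = ((Fl J').card : ℝ) * (s * (2 * √K * D)) := by rw [Finset.sum_const, nsmul_eq_mul]
      _ ≤ (8 * K * J'.card) * (s * (2 * √K * D)) :=
          mul_le_mul_of_nonneg_right (h2.trans h3) (by positivity)
      _ = (16 * K * D * J'.card) * (√K * s) := by ring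
      _ ≤ (16 * K * D * J'.card) * (3 * K) := mul_le_mul_of_nonneg_left hsK (by positivity)
      _ = _ := by ring
  obtain ⟨R, hRJ', hRc, hRw⟩ := z2_markov J' w
    (fun j _ => by rw [hw]; exact Finset.sum_nonneg fun a _ => abs_nonneg _) hwsum
  have hRJ : R ⊆ J := hRJ'.trans hJ'J
  have hFR : Fl R ⊆ Fl J' := by
    intro a ha
    rw [hFl, Finset.mem_filter] at ha ⊢
    exact ⟨ha.1, Submodule.span_mono (Set.image_mono (by exact_mod_cast hRJ')) ha.2⟩
  have hRF : R ⊆ Fl R := by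
    intro a ha
    rw [hFl, Finset.mem_filter]
    exact ⟨Finset.mem_univ a, Submodule.subset_span ⟨a, by exact_mod_cast ha, rfl⟩⟩
  -- the functional
  obtain ⟨z, hz0, hz1⟩ := y6_functional (m := m) G (Fl R) (by
    intro a ha hcon
    apply ha
    rw [hFl, Finset.mem_filter]
    refine ⟨Finset.mem_univ a, ?_⟩
    refine (Submodule.span_le.2 ?_) hcon
    rintro _ ⟨b, hb, rfl⟩
    have hb' : b ∈ Fl R := by exact_mod_cast hb
    rw [hFl, Finset.mem_filter] at hb'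
    exact hb'.2)
  obtain ⟨T₀, hT₀⟩ : ∃ T₀ : Fin (N + 1) → Finset (Fin k → ℝ), T₀ =
      Fin.snoc (fun a : Fin N => ({0, G a} : Finset (Fin k → ℝ))) Q := ⟨_, rfl⟩
  have hT₀l : T₀ (Fin.last N) = Q := by rw [hT₀]; simp
  have hT₀a : ∀ a : Fin N, ∀ x, x ∈ T₀ a.castSucc ↔ x = 0 ∨ x = G a := by
    intro a x
    rw [hT₀]
    simp
  have hT₀s : ∀ a : Fin N, (T₀ a.castSucc : Set (Fin k → ℝ)) = {0, G a} := by
    intro a
    ext x
    rw [Finset.mem_coe, hT₀a]
    rfl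
  have hT₀n : ∀ a, (T₀ a).Nonempty := by
    intro a
    refine Fin.lastCases ?_ (fun a => ?_) a
    · rw [hT₀l]; exact hQ
    · exact ⟨0, (hT₀a a 0).2 (Or.inl rfl)⟩
  have hNG : newton P = ∑ a, convexHull ℝ (T₀ a : Set (Fin k → ℝ)) := by
    rw [Fin.sum_univ_castSucc, hT₀l, add_comm, hN]
    congr 1
    refine Finset.sum_congr rfl fun a _ => ?_
    rw [hT₀s, hG]
  have hwP : ∀ y, width y P = ∑ a, |dotR y (G a)| + wdF Q y := by
    intro y
    rw [y8_width hP0 T₀ hT₀n hNG, Fin.sum_univ_castSucc, hT₀l]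
    congr 1
    exact Finset.sum_congr rfl fun a _ => (z4_seg (hT₀a a)).2.1 y
  obtain ⟨T, hTe⟩ : ∃ T : Fin (N + 1) → Finset (Fin k → ℝ), ∀ a, T a = faceF (T₀ a) z :=
    ⟨_, fun _ => rfl⟩
  have hT : ∀ a, (T a).Nonempty := fun a => by rw [hTe]; exact z4_nonempty (hT₀n a) z
  have hNz : newton (ini z P) = ∑ a, convexHull ℝ (T a : Set (Fin k → ℝ)) := by
    simp only [hTe]
    exact z4_face hP0 T₀ hT₀n hNG z
  have hTl : ∀ y, wdF (T (Fin.last N)) y ≤ wdF Q y := by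
    intro y
    rw [hTe, hT₀l]
    exact (wdF_mono (fun x hx => (z4_mem.1 hx).1) (z4_nonempty hQ z) y).2
  have hTa : ∀ (a : Fin N) y, wdF (T a.castSucc) y = if a ∈ Fl R then |dotR y (G a)| else 0 := by
    intro a y
    rw [hTe, (z4_seg (hT₀a a)).2.2]
    by_cases ha : a ∈ Fl R
    · rw [if_pos ha, if_pos (hz0 a ha)]
    · rw [if_neg ha, if_neg (hz1 a ha)]
  have hQ0 : ini z P ≠ 0 := ini_ne_zero z hP0
  -- the small polytope
  have hQV : ∀ j ∈ J, wdF Q (V j) ≤ 2 * K ^ 2 * D := by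
    intro j hj
    have h1 := hQw (v j)
    have h2 := hsq j hj
    rw [hV] at h2 ⊢
    rw [hG] at h2
    refine le_of_sq_le_sq (h1.trans ?_) (by positivity)
    have h3 : K ^ 2 * (4 * K * (D : ℝ) ^ 2) ≤ (2 * K ^ 2 * D) ^ 2 := by
      have : 0 ≤ 4 * K ^ 3 * (D : ℝ) ^ 2 * (K - 1) := mul_nonneg (by positivity) (by linarith)
      nlinarith
    exact (mul_le_mul_of_nonneg_left h2 (sq_nonneg K)).trans h3
  -- indexing
  obtain ⟨n, hn⟩ : ∃ n : ℕ, n = R.card := ⟨_, rfl⟩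
  have hnd : (d : ℝ) ≤ 16 * n := by
    have h1 : J'.card ≤ 2 * n := by rw [hn]; exact hRc
    have h2 : (J'.card : ℝ) ≤ 2 * n := by exact_mod_cast h1
    linarith
  let e : Fin n ≃ R := (R.equivFinOfCardEq hn.symm).symm
  have heR : ∀ j : Fin n, ((e j : Fin N)) ∈ R := fun j => (e j).2
  have hwdT : ∀ (a : Fin N) (j : Fin n), wdF (T a.castSucc) (fun i => (v (e j) i : ℝ)) =
      if a ∈ Fl R then |dotR (V (e j)) (G a)| else 0 := by
    intro a j
    rw [hTa]
    simp only [hV]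
  have hwd0 : ∀ (a : Fin (N + 1)) y, 0 ≤ wdF (T a) y := fun a y =>
    (wdF_mono subset_rfl (hT a) y).1
  have key := mink_sums (r := 1) (n := n) (W := (D : ℝ)) (B := 100 * K ^ 2) hP z T hT hNz
    (fun j => v (e j)) (by linarith) ?_ ?_ ?_ hM
  · push_cast at key
    linarith
  · -- good
    intro j
    have hself : ∀ j' : Fin n, wdF (T ((e j : Fin N)).castSucc) (fun i => (v (e j') i : ℝ)) =
        if j' = j then (D : ℝ) else 0 := by
      intro j'
      rw [hwdT, if_pos (hRF (heR j))]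
      by_cases h : j' = j
      · rw [if_pos h, h, hdiag _ (hRJ (heR j))]
        exact abs_of_nonneg (by linarith)
      · rw [if_neg h, hoff _ (hRJ (heR j')) _ (hRJ (heR j)), abs_zero]
        intro h2
        exact h (e.injective (Subtype.ext h2)).symm
    have hmem : ((e j : Fin N)).castSucc ∈ Finset.univ.filter (fun a : Fin (N + 1) =>
        {j : Fin n | wdF (T a) (fun i => (v (e j) i : ℝ)) ≠ 0}.ncard ≤ 1) := by
      rw [Finset.mem_filter]
      refine ⟨Finset.mem_univ _, ?_⟩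
      have hsub : {j' : Fin n | wdF (T ((e j : Fin N)).castSucc)
          (fun i => (v (e j') i : ℝ)) ≠ 0} ⊆ {j} := by
        intro j' hj'
        have hj2 : wdF (T ((e j : Fin N)).castSucc) (fun i => (v (e j') i : ℝ)) ≠ 0 := hj'
        rw [hself] at hj2
        by_contra hne
        exact hj2 (if_neg hne)
      calc _ ≤ ({j} : Set (Fin n)).ncard := Set.ncard_le_ncard hsub (Set.toFinite _)
        _ = 1 := Set.ncard_singleton j
    have h1 : wdF (T ((e j : Fin N)).castSucc) (fun i => (v (e j) i : ℝ)) = D := by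
      rw [hself, if_pos rfl]
    calc (D : ℝ) = wdF (T ((e j : Fin N)).castSucc) (fun i => (v (e j) i : ℝ)) := h1.symm
      _ ≤ _ := Finset.single_le_sum
        (f := fun a : Fin (N + 1) => wdF (T a) (fun i => (v (e j) i : ℝ))) (fun a _ => hwd0 a _)
        hmem
  · -- wide
    intro j
    rw [y8_width hQ0 T hT hNz, Fin.sum_univ_castSucc,
      Finset.sum_congr rfl fun a _ => hwdT a j, ← Finset.sum_filter]
    have h1 : (Finset.univ.filter fun a => a ∈ Fl R) = Fl R := by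
      ext a; simp
    rw [h1]
    have h2 : ∑ a ∈ Fl R, |dotR (V (e j)) (G a)| ≤ w (e j) := by
      rw [hw]
      exact Finset.sum_le_sum_of_subset_of_nonneg hFR fun a _ _ => abs_nonneg _
    have h3 := hRw _ (heR j)
    have h4 : 0 ≤ K ^ 2 * (D : ℝ) := by positivity
    have h5 : wdF (T (Fin.last N)) (fun i => (v (e j) i : ℝ)) ≤ 2 * K ^ 2 * D := by
      have h6 := hQV _ (hRJ (heR j))
      rw [hV] at h6
      exact (hTl _).trans h6
    linarith
  · -- sums
    intro I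
    obtain ⟨σ, hσ, hs⟩ := y3_aux (N := N) I
      (fun c j => dotR (fun i => (v (e j) i : ℝ)) (fun i => (g c i : ℝ)))
    refine ⟨σ, hσ, ?_⟩
    have hS : ∀ j : Fin n, ∑ c : Fin N,
        dotR (fun i => (v (e j) i : ℝ)) (fun i => (g c i : ℝ)) ^ 2 ≤ 4 * K * (D : ℝ) ^ 2 := by
      intro j
      have := hsq _ (hRJ (heR j))
      rw [hV, hG] at this
      exact this
    have hSI : ∑ c : Fin N, ∑ j ∈ I, dotR (fun i => (v (e j) i : ℝ)) (fun i => (g c i : ℝ)) ^ 2 ≤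
        I.card * (4 * K * (D : ℝ) ^ 2) := by
      rw [Finset.sum_comm]
      calc _ ≤ ∑ j ∈ I, 4 * K * (D : ℝ) ^ 2 := Finset.sum_le_sum fun j _ => hS j
        _ = _ := by rw [Finset.sum_const, nsmul_eq_mul]
    have hN2 : (N : ℝ) ≤ 16 * K * n := by nlinarith
    have hI0 : (0 : ℝ) ≤ I.card := Nat.cast_nonneg _
    have hn0 : (0 : ℝ) ≤ n := Nat.cast_nonneg _
    have hs2 := hs.trans hSI
    have hdots : ∀ a : Fin N, dotR (fun i => ((∑ j ∈ I, σ j * v (e j) i : ℤ) : ℝ))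
        (fun i => (g a i : ℝ)) =
        ∑ j ∈ I, (σ j : ℝ) * dotR (fun i => (v (e j) i : ℝ)) (fun i => (g a i : ℝ)) := fun a =>
      y8_dot_sum I σ (fun j => v (e j)) _
    -- the segments
    have h4 : ∑ a, |dotR (fun i => ((∑ j ∈ I, σ j * v (e j) i : ℤ) : ℝ)) (fun i => (g a i : ℝ))| ≤
        8 * K * D * √(n * I.card) := by
      have h1 : √((8 * K * D) ^ 2 * (n * I.card)) = 8 * K * D * √(n * I.card) := by
        rw [Real.sqrt_mul (sq_nonneg _), Real.sqrt_sq (by positivity)]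
      rw [← h1]
      refine Real.le_sqrt_of_sq_le ?_
      refine (sq_sum_le_card_mul_sum_sq (s := Finset.univ)
        (f := fun a => |dotR (fun i => ((∑ j ∈ I, σ j * v (e j) i : ℤ) : ℝ))
          (fun i => (g a i : ℝ))|)).trans ?_
      simp only [sq_abs, Finset.card_univ, Fintype.card_fin, hdots]
      calc (N : ℝ) * ∑ c : Fin N, (∑ j ∈ I, (σ j : ℝ) *
            dotR (fun i => (v (e j) i : ℝ)) (fun i => (g c i : ℝ))) ^ 2
          ≤ (16 * K * n) * (I.card * (4 * K * (D : ℝ) ^ 2)) :=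
            mul_le_mul hN2 hs2 (Finset.sum_nonneg fun _ _ => sq_nonneg _) (by positivity)
        _ = (8 * K * D) ^ 2 * (n * I.card) := by ring
    -- the small polytope
    have hQs : wdF Q (fun i => ((∑ j ∈ I, σ j * v (e j) i : ℤ) : ℝ)) ≤
        2 * K ^ 2 * D * I.card := by
      have h1 := hQw (fun i => ∑ j ∈ I, σ j * v (e j) i)
      simp only [hdots] at h1
      refine le_of_sq_le_sq (h1.trans ?_) (by positivity)
      refine (mul_le_mul_of_nonneg_left hs2 (sq_nonneg K)).trans ?_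
      have h2 : (I.card : ℝ) ≤ (I.card : ℝ) ^ 2 := by exact_mod_cast Nat.le_self_pow two_ne_zero _
      have h3 : K ^ 3 ≤ K ^ 4 := pow_le_pow_right₀ hK1 (by norm_num)
      calc K ^ 2 * (I.card * (4 * K * (D : ℝ) ^ 2)) = 4 * (D : ℝ) ^ 2 * (K ^ 3 * I.card) := by ring
        _ ≤ 4 * (D : ℝ) ^ 2 * (K ^ 4 * (I.card : ℝ) ^ 2) :=
            mul_le_mul_of_nonneg_left (mul_le_mul h3 h2 hI0 (by positivity)) (by positivity)
        _ = (2 * K ^ 2 * D * I.card) ^ 2 := by ring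
    rw [hwP, hG]
    refine (add_le_add h4 hQs).trans ?_
    have h6 : ((n : ℝ) * I.card / ((1 : ℕ) : ℝ)) = n * I.card := by
      rw [Nat.cast_one, div_one]
    rw [h6]
    have h7 : 8 * K * D ≤ 100 * K ^ 2 * D := by
      have : 0 ≤ K * D * (100 * K - 8) := mul_nonneg (by positivity) (by linarith)
      linarith
    have h8 : 8 * K * D * √((n : ℝ) * I.card) ≤ 100 * K ^ 2 * D * √(n * I.card) :=
      mul_le_mul_of_nonneg_right h7 (Real.sqrt_nonneg _)
    have h9 : 0 ≤ 98 * K ^ 2 * D * I.card := by positivity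
    linarith

end CP
end Pool.Agent.MP_44c6d5_nt
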